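import Mathlib

/-!
# Pentagon project (MP_a57f33_nt): coefficients of polynomial functions of one variable

`cf N i F` is a fixed linear combination of the values `F 0, .., F (N-1)` which is the coefficient
of `t ^ i` if `F` is a polynomial function of degree `< N`.
-/

namespace Pent.E6

/-- polynomial function of one variable -/
def IsP1 (F : ℚ → ℚ) : Prop := ∃ p : Polynomial ℚ, ∀ t, F t = p.eval t

/-- polynomial function of degree `< N` -/
def IsP (N : ℕ) (F : ℚ → ℚ) : Prop :=
  ∃ p : Polynomial ℚ, p.degree < N ∧ ∀ t, F t = p.eval t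

theorem IsP.one {N : ℕ} {F : ℚ → ℚ} (h : IsP N F) : IsP1 F := by
  obtain ⟨p, -, hp⟩ := h
  exact ⟨p, hp⟩

theorem IsP.mono {N M : ℕ} (hNM : N ≤ M) {F : ℚ → ℚ} (h : IsP N F) : IsP M F := by
  obtain ⟨p, hp, he⟩ := h
  exact ⟨p, lt_of_lt_of_le hp (by exact_mod_cast hNM), he⟩

theorem IsP.add {N : ℕ} {F H : ℚ → ℚ} (hF : IsP N F) (hH : IsP N H) :
    IsP N (fun t => F t + H t) := by
  obtain ⟨p, hp, he⟩ := hF
  obtain ⟨q, hq, he'⟩ := hH
  exact ⟨p + q, lt_of_le_of_lt (Polynomial.degree_add_le _ _) (max_lt hp hq),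
    fun t => by beta_reduce; rw [he, he', Polynomial.eval_add]⟩

theorem IsP.sub {N : ℕ} {F H : ℚ → ℚ} (hF : IsP N F) (hH : IsP N H) :
    IsP N (fun t => F t - H t) := by
  obtain ⟨p, hp, he⟩ := hF
  obtain ⟨q, hq, he'⟩ := hH
  exact ⟨p - q, lt_of_le_of_lt (Polynomial.degree_sub_le _ _) (max_lt hp hq),
    fun t => by beta_reduce; rw [he, he', Polynomial.eval_sub]⟩

theorem IsP.cmul {N : ℕ} {F : ℚ → ℚ} (hF : IsP N F) (c : ℚ) :
    IsP N (fun t => c * F t) := by
  obtain ⟨p, hp, he⟩ := hF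
  refine ⟨Polynomial.C c * p, ?_, fun t => by beta_reduce; rw [he, Polynomial.eval_mul, Polynomial.eval_C]⟩
  rw [← Polynomial.smul_eq_C_mul]
  exact lt_of_le_of_lt (Polynomial.degree_smul_le _ _) hp

theorem IsP.sum {N : ℕ} (s : Finset ℕ) {F : ℕ → ℚ → ℚ} (hF : ∀ j ∈ s, IsP N (F j)) :
    IsP N (fun t => ∑ j ∈ s, F j t) := by
  classical
  induction s using Finset.induction_on with
  | empty => exact ⟨0, by simp, fun t => by simp⟩
  | insert a s ha ih =>
      have h1 := hF a (Finset.mem_insert_self a s)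
      have h2 := ih (fun j hj => hF j (Finset.mem_insert_of_mem hj))
      have h3 := h1.add h2
      have : (fun t => ∑ j ∈ insert a s, F j t) = fun t => F a t + ∑ j ∈ s, F j t := by
        funext t
        rw [Finset.sum_insert ha]
      rw [this]
      exact h3

theorem IsP1.add {F H : ℚ → ℚ} (hF : IsP1 F) (hH : IsP1 H) : IsP1 (fun t => F t + H t) := by
  obtain ⟨p, he⟩ := hF
  obtain ⟨q, he'⟩ := hH
  exact ⟨p + q, fun t => by beta_reduce; rw [he, he', Polynomial.eval_add]⟩

theorem IsP1.sub {F H : ℚ → ℚ} (hF : IsP1 F) (hH : IsP1 H) : IsP1 (fun t => F t - H t) := by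
  obtain ⟨p, he⟩ := hF
  obtain ⟨q, he'⟩ := hH
  exact ⟨p - q, fun t => by beta_reduce; rw [he, he', Polynomial.eval_sub]⟩

theorem IsP1.mul {F H : ℚ → ℚ} (hF : IsP1 F) (hH : IsP1 H) : IsP1 (fun t => F t * H t) := by
  obtain ⟨p, he⟩ := hF
  obtain ⟨q, he'⟩ := hH
  exact ⟨p * q, fun t => by beta_reduce; rw [he, he', Polynomial.eval_mul]⟩

theorem IsP1.const (c : ℚ) : IsP1 (fun _ => c) := ⟨Polynomial.C c, fun t => by simp⟩

theorem IsP1.id : IsP1 (fun t => t) := ⟨Polynomial.X, fun t => by simp⟩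

/-- a polynomial function with infinitely many zeros vanishes -/
theorem IsP1.zero {F : ℚ → ℚ} (hF : IsP1 F) (S : Set ℚ) (hS : S.Infinite)
    (h : ∀ s ∈ S, F s = 0) (t : ℚ) : F t = 0 := by
  obtain ⟨p, he⟩ := hF
  have : p = 0 := by
    apply Polynomial.eq_of_infinite_eval_eq
    refine hS.mono fun s hs => ?_
    show p.eval s = (0 : Polynomial ℚ).eval s
    rw [← he, h s hs, Polynomial.eval_zero]
  rw [he, this, Polynomial.eval_zero]

/-- an additive-like polynomial function is linear -/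
theorem IsP1.lin {F : ℚ → ℚ} (hF : IsP1 F) (S : ℚ) (hS : S ≠ 0)
    (h : ∀ t, F t = F (t + S) - F S) (t : ℚ) : F t = t * F 1 := by
  have h0 : F 0 = 0 := by
    have := h 0
    rw [zero_add] at this
    linarith
  have hk : ∀ k : ℕ, F (k * S) = k * F S := by
    intro k
    induction k with
    | zero => simp [h0]
    | succ k ih =>
        have := h (k * S)
        have e : ((k + 1 : ℕ) : ℚ) * S = k * S + S := by push_cast; ring
        rw [e]
        push_cast
        linarith
  have hz : ∀ t, F t - t * (F S / S) = 0 := by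
    refine IsP1.zero (hF.sub (IsP1.id.mul (IsP1.const _)))
      (Set.range fun k : ℕ => (k : ℚ) * S) ?_ ?_
    · apply Set.infinite_range_of_injective
      intro i j hij
      have : (i : ℚ) = j := mul_right_cancel₀ hS hij
      exact_mod_cast this
    · rintro _ ⟨k, rfl⟩
      rw [hk]
      field_simp
      ring
  have h1 := hz t
  have h2 := hz 1
  have e1 : F t = t * (F S / S) := by linarith
  have e2 : F 1 = F S / S := by linarith
  rw [e1, e2]

/-- a periodic polynomial function is constant -/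
theorem IsP1.per {F : ℚ → ℚ} (hF : IsP1 F) (S : ℚ) (hS : S ≠ 0)
    (h : ∀ t, F t = F (t + S)) (t : ℚ) : F t = F 0 := by
  have hk : ∀ k : ℕ, F (k * S) = F 0 := by
    intro k
    induction k with
    | zero => simp
    | succ k ih =>
        have e : ((k + 1 : ℕ) : ℚ) * S = k * S + S := by push_cast; ring
        rw [e, ← h, ih]
  have hz : ∀ t, F t - F 0 = 0 := by
    refine IsP1.zero (hF.sub (IsP1.const _)) (Set.range fun k : ℕ => (k : ℚ) * S) ?_ ?_
    · apply Set.infinite_range_of_injective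
      intro i j hij
      have : (i : ℚ) = j := mul_right_cancel₀ hS hij
      exact_mod_cast this
    · rintro _ ⟨k, rfl⟩
      rw [hk, sub_self]
  have := hz t
  linarith

theorem infinite_ne (c : ℚ) : {s : ℚ | s ≠ c}.Infinite := by
  have : {s : ℚ | s ≠ c} = {c}ᶜ := by ext; simp
  rw [this]
  exact (Set.finite_singleton c).infinite_compl

/-- the weights -/
noncomputable def Lw (N i j : ℕ) : ℚ :=
  (Lagrange.basis (Finset.range N) (fun k : ℕ => (k : ℚ)) j).coeff i

/-- the coefficient functional -/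
noncomputable def cf (N i : ℕ) (F : ℚ → ℚ) : ℚ := ∑ j ∈ Finset.range N, Lw N i j * F j

theorem cf_inj (N : ℕ) :
    Set.InjOn (fun k : ℕ => (k : ℚ)) (Finset.range N : Finset ℕ) :=
  fun a _ b _ h => by simpa using h

theorem cf_poly {N : ℕ} (p : Polynomial ℚ) (hp : p.degree < N) (i : ℕ) :
    cf N i (fun t => p.eval t) = p.coeff i := by
  have h := Lagrange.eq_interpolate (s := Finset.range N) (v := fun k : ℕ => (k : ℚ)) (f := p)
    (cf_inj N) (by simpa using hp)
  conv_rhs => rw [h]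
  rw [Lagrange.interpolate_apply, Polynomial.finsetSum_coeff]
  unfold cf Lw
  apply Finset.sum_congr rfl
  intro j _
  rw [Polynomial.coeff_C_mul, mul_comm]

theorem cf_add (N i : ℕ) (F H : ℚ → ℚ) : cf N i (fun t => F t + H t) = cf N i F + cf N i H := by
  unfold cf
  rw [← Finset.sum_add_distrib]
  apply Finset.sum_congr rfl
  intro j _
  ring

theorem cf_sub (N i : ℕ) (F H : ℚ → ℚ) : cf N i (fun t => F t - H t) = cf N i F - cf N i H := by
  unfold cf
  rw [← Finset.sum_sub_distrib]
  apply Finset.sum_congr rfl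
  intro j _
  ring

theorem cf_mul (N i : ℕ) (c : ℚ) (F : ℚ → ℚ) : cf N i (fun t => c * F t) = c * cf N i F := by
  unfold cf
  rw [Finset.mul_sum]
  apply Finset.sum_congr rfl
  intro j _
  ring

theorem cf_comm (N i N' i' : ℕ) (F : ℚ → ℚ → ℚ) :
    cf N i (fun x => cf N' i' (fun y => F x y)) = cf N' i' (fun y => cf N i (fun x => F x y)) := by
  unfold cf
  simp only [Finset.mul_sum]
  rw [Finset.sum_comm]
  apply Finset.sum_congr rfl
  intro j _
  apply Finset.sum_congr rfl
  intro k _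
  ring

theorem cf_congr {N i : ℕ} {F H : ℚ → ℚ} (h : ∀ t, F t = H t) : cf N i F = cf N i H := by
  have : F = H := funext h
  rw [this]

theorem IsP.cf_eq {N : ℕ} {F : ℚ → ℚ} {p : Polynomial ℚ} (hp : p.degree < N)
    (h : ∀ t, F t = p.eval t) (i : ℕ) : cf N i F = p.coeff i := by
  rw [cf_congr h, cf_poly p hp]

theorem cf_const {N : ℕ} (hN : 1 ≤ N) (c : ℚ) (i : ℕ) (hi : 1 ≤ i) : cf N i (fun _ => c) = 0 := by
  rw [IsP.cf_eq (p := Polynomial.C c) _ (fun t => by simp)]
  · rw [Polynomial.coeff_C_of_ne_zero (by omega)]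
  · refine lt_of_le_of_lt Polynomial.degree_C_le ?_
    exact_mod_cast hN

theorem deg_X_mul {N : ℕ} (p : Polynomial ℚ) (hp : p.degree < N) :
    (Polynomial.X * p).degree < ((N + 1 : ℕ) : WithBot ℕ) := by
  rw [Polynomial.degree_lt_iff_coeff_zero] at hp ⊢
  intro m hm
  rcases m with _ | m
  · omega
  · rw [Polynomial.coeff_X_mul]
    exact hp m (by omega)

theorem cf_affine {N : ℕ} (hN : 2 ≤ N) (c d : ℚ) (i : ℕ) :
    cf N i (fun t => c + t * d) = if i = 0 then c else if i = 1 then d else 0 := by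
  have h1 : (1 : ℕ) ≤ N := by omega
  rw [IsP.cf_eq (p := Polynomial.C c + Polynomial.X * Polynomial.C d) _
    (fun t => by rw [Polynomial.eval_add, Polynomial.eval_C, Polynomial.eval_mul,
      Polynomial.eval_X, Polynomial.eval_C])]
  · rw [Polynomial.coeff_add, Polynomial.coeff_C]
    rcases i with _ | _ | i
    · simp
    · simp
    · simp
  · refine lt_of_le_of_lt (Polynomial.degree_add_le _ _) ?_
    refine max_lt ?_ ?_
    · refine lt_of_le_of_lt Polynomial.degree_C_le ?_
      exact_mod_cast (by omega : 0 < N)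
    · refine lt_of_lt_of_le (deg_X_mul (N := 1) _ ?_) ?_
      · refine lt_of_le_of_lt Polynomial.degree_C_le ?_
        exact_mod_cast Nat.one_pos
      · exact_mod_cast hN

/-- the coefficient of `t^0` is the value at `0` -/
theorem cf_zero {N : ℕ} (hN : 1 ≤ N) (F : ℚ → ℚ) : cf N 0 F = F 0 := by
  unfold cf Lw
  rw [Finset.sum_eq_single 0]
  · have h := Lagrange.eval_basis_self (cf_inj N) (i := 0) (by simp; omega)
    rw [Polynomial.coeff_zero_eq_eval_zero]
    simp only [Nat.cast_zero] at h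
    rw [h, one_mul, Nat.cast_zero]
  · intro j hj hj0
    have h := Lagrange.eval_basis_of_ne (v := fun k : ℕ => (k : ℚ)) (s := Finset.range N)
      (i := j) (j := 0) hj0 (by simp; omega)
    rw [Polynomial.coeff_zero_eq_eval_zero]
    simp only [Nat.cast_zero] at h
    rw [h, zero_mul]
  · intro h
    simp at h
    omega

/-- the coefficient of `t^(i+1)` of `t F(t)` -/
theorem cf_succ {N M : ℕ} (hM : M < N) {F : ℚ → ℚ} (hF : IsP M F) (i : ℕ) :
    cf N (i + 1) (fun t => t * F t) = cf N i F := by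
  obtain ⟨p, hp, he⟩ := hF
  rw [IsP.cf_eq (p := Polynomial.X * p) _ (fun t => by rw [he]; simp),
    IsP.cf_eq (p := p) _ he, Polynomial.coeff_X_mul]
  · exact lt_of_lt_of_le hp (by exact_mod_cast hM.le)
  · exact lt_of_lt_of_le (deg_X_mul _ hp) (by exact_mod_cast hM)

/-- a polynomial function whose coefficients vanish is zero -/
theorem cf_complete {N : ℕ} {F : ℚ → ℚ} (hF : IsP N F) (h : ∀ i, cf N i F = 0) (t : ℚ) :
    F t = 0 := by
  obtain ⟨p, hp, he⟩ := hF
  have : p = 0 := by
    ext i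
    rw [← IsP.cf_eq hp he i, h i, Polynomial.coeff_zero]
  rw [he, this, Polynomial.eval_zero]

/-- closure under coefficient functionals -/
theorem IsP.cf {M : ℕ} (N i : ℕ) {F : ℚ → ℚ → ℚ} (hF : ∀ y, IsP M (fun x => F x y)) :
    IsP M (fun x => cf N i (fun y => F x y)) := by
  unfold Pent.E6.cf
  exact IsP.sum _ fun j _ => (hF j).cmul _

/-! ### several variables -/

theorem cf_rot3 (N i j k : ℕ) (F : ℚ → ℚ → ℚ → ℚ) :
    cf N i (fun x => cf N j (fun y => cf N k (fun z => F x y z)))
      = cf N j (fun y => cf N k (fun z => cf N i (fun x => F x y z))) := by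
  rw [cf_comm N i N j (fun x y => cf N k (fun z => F x y z))]
  exact cf_congr fun y => cf_comm N i N k (fun x z => F x y z)

theorem cf_rot4 (N i j k l : ℕ) (F : ℚ → ℚ → ℚ → ℚ → ℚ) :
    cf N i (fun x => cf N j (fun y => cf N k (fun z => cf N l (fun w => F x y z w))))
      = cf N j (fun y => cf N k (fun z => cf N l (fun w => cf N i (fun x => F x y z w)))) := by
  rw [cf_comm N i N j (fun x y => cf N k (fun z => cf N l (fun w => F x y z w)))]
  exact cf_congr fun y => cf_rot3 N i k l (fun x z w => F x y z w)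

theorem cf_rot5 (N i j k l m : ℕ) (F : ℚ → ℚ → ℚ → ℚ → ℚ → ℚ) :
    cf N i (fun x => cf N j (fun y => cf N k (fun z => cf N l (fun w =>
      cf N m (fun v => F x y z w v)))))
      = cf N j (fun y => cf N k (fun z => cf N l (fun w => cf N m (fun v =>
        cf N i (fun x => F x y z w v))))) := by
  rw [cf_comm N i N j (fun x y => cf N k (fun z => cf N l (fun w => cf N m (fun v => F x y z w v))))]
  exact cf_congr fun y => cf_rot4 N i k l m (fun x z w v => F x y z w v)

/-- polynomial function of variables indexed by `ℕ` -/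
def IsPoly (F : (ℕ → ℚ) → ℚ) : Prop := ∃ P : MvPolynomial ℕ ℚ, ∀ e, F e = MvPolynomial.eval e P

theorem IsPoly.const (c : ℚ) : IsPoly (fun _ => c) := ⟨MvPolynomial.C c, fun e => by simp⟩

theorem IsPoly.var (i : ℕ) : IsPoly (fun e => e i) := ⟨MvPolynomial.X i, fun e => by simp⟩

theorem IsPoly.add {F H : (ℕ → ℚ) → ℚ} (hF : IsPoly F) (hH : IsPoly H) :
    IsPoly (fun e => F e + H e) := by
  obtain ⟨p, he⟩ := hF
  obtain ⟨q, he'⟩ := hH
  exact ⟨p + q, fun t => by beta_reduce; rw [he, he', map_add]⟩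

theorem IsPoly.sub {F H : (ℕ → ℚ) → ℚ} (hF : IsPoly F) (hH : IsPoly H) :
    IsPoly (fun e => F e - H e) := by
  obtain ⟨p, he⟩ := hF
  obtain ⟨q, he'⟩ := hH
  exact ⟨p - q, fun t => by beta_reduce; rw [he, he', map_sub]⟩

theorem IsPoly.neg {F : (ℕ → ℚ) → ℚ} (hF : IsPoly F) :
    IsPoly (fun e => - F e) := by
  obtain ⟨p, he⟩ := hF
  exact ⟨-p, fun t => by beta_reduce; rw [he, map_neg]⟩

theorem IsPoly.comp {F : (ℕ → ℚ) → ℚ} (hF : IsPoly F) {g : ℕ → (ℕ → ℚ) → ℚ}
    (hg : ∀ i, IsPoly (g i)) : IsPoly (fun e => F (fun i => g i e)) := by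
  obtain ⟨p, he⟩ := hF
  choose q hq using hg
  refine ⟨MvPolynomial.bind₁ q p, fun e => ?_⟩
  beta_reduce
  rw [he]
  have h : MvPolynomial.eval e (MvPolynomial.bind₁ q p)
      = MvPolynomial.eval (fun i => MvPolynomial.eval e (q i)) p := by
    rw [MvPolynomial.eval, MvPolynomial.eval₂Hom_bind₁]
    rfl
  rw [h]
  congr 1
  congr 1
  funext i
  exact hq i e

/-- restriction to a curve -/
theorem IsPoly.one {F : (ℕ → ℚ) → ℚ} (hF : IsPoly F) {g : ℕ → ℚ → ℚ}
    (hg : ∀ i, IsP1 (g i)) : IsP1 (fun t => F (fun i => g i t)) := by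
  obtain ⟨p, he⟩ := hF
  choose q hq using hg
  refine ⟨MvPolynomial.eval₂ Polynomial.C q p, fun t => ?_⟩
  have h := MvPolynomial.hom_eval₂ p (Polynomial.C : ℚ →+* Polynomial ℚ)
    (Polynomial.evalRingHom t) q
  rw [Polynomial.coe_evalRingHom] at h
  beta_reduce
  rw [h, he, MvPolynomial.eval, MvPolynomial.eval₂Hom]
  show MvPolynomial.eval₂ _ _ p = MvPolynomial.eval₂ _ _ p
  congr 1
  · ext
    simp
  · funext i
    exact hq i t

/-- degree bound in each variable -/
theorem IsPoly.deg {F : (ℕ → ℚ) → ℚ} (hF : IsPoly F) :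
    ∃ M, ∀ (u : ℕ → ℚ) (k : ℕ), IsP M (fun t => F (Function.update u k t)) := by
  obtain ⟨p, he⟩ := hF
  suffices h : ∃ M, ∀ (u : ℕ → ℚ) (k : ℕ),
      IsP M (fun t => MvPolynomial.eval (Function.update u k t) p) by
    obtain ⟨M, hM⟩ := h
    refine ⟨M, fun u k => ?_⟩
    obtain ⟨q, hq, hq'⟩ := hM u k
    exact ⟨q, hq, fun t => by beta_reduce; rw [he]; exact hq' t⟩
  clear he
  induction p using MvPolynomial.induction_on with
  | C a =>
      refine ⟨1, fun u k => ⟨Polynomial.C a, ?_, fun t => by simp⟩⟩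
      refine lt_of_le_of_lt Polynomial.degree_C_le ?_
      exact_mod_cast Nat.one_pos
  | add p q hp hq =>
      obtain ⟨M, hM⟩ := hp
      obtain ⟨M', hM'⟩ := hq
      refine ⟨max M M', fun u k => ?_⟩
      have h := ((hM u k).mono (le_max_left M M')).add ((hM' u k).mono (le_max_right M M'))
      simpa using h
  | mul_X p n hp =>
      obtain ⟨M, hM⟩ := hp
      refine ⟨M + 1, fun u k => ?_⟩
      obtain ⟨q, hq, hq'⟩ := hM u k
      by_cases hnk : n = k
      · subst hnk
        refine ⟨Polynomial.X * q, deg_X_mul q hq, fun t => ?_⟩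
        have hq2 : MvPolynomial.eval (Function.update u n t) p = Polynomial.eval t q := hq' t
        beta_reduce
        rw [map_mul, MvPolynomial.eval_X, hq2, Function.update_self, Polynomial.eval_mul,
          Polynomial.eval_X, mul_comm]
      · have h := ((hM u k).cmul (u n)).mono (Nat.le_succ M)
        obtain ⟨r, hr, hr'⟩ := h
        refine ⟨r, hr, fun t => ?_⟩
        beta_reduce
        rw [← hr', map_mul, MvPolynomial.eval_X, Function.update_of_ne hnk, mul_comm]

end Pent.E6
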