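import Mathlib

/-!
# Pentagon project (MP_a57f33_nt): the two-level equation

Two functions `C`, `C'` of five rational variables, cyclic in the last four, with one functional
equation, are constant. (This is (ED) for `n = 5`.)
-/

namespace Pent

theorem twoLevel (C C' : ℚ → ℚ → ℚ → ℚ → ℚ → ℚ)
    (hC : ∀ z a b c d, C z a b c d = C z b c d a)
    (hC' : ∀ z a b c d, C' z a b c d = C' z b c d a)
    (hE : ∀ p q x y a b, C p (a + b) x y (-a) - C q b x y (-p)
      = C' y p q (a + b) (-b) - C' x p q a (-y)) :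
    (∀ z a b c d, C z a b c d = C 0 0 0 0 0) ∧ (∀ z a b c d, C' z a b c d = C' 0 0 0 0 0) := by
  -- mixed differences in `(q, x)`
  have L1 : ∀ z z' x x' b e p a,
      C z b x e (-p) - C z' b x e (-p) - C z b x' e (-p) + C z' b x' e (-p)
      = C' x p z a (-e) - C' x' p z a (-e) - C' x p z' a (-e) + C' x' p z' a (-e) := by
    intro z z' x x' b e p a
    linear_combination (-1 : ℚ) * hE p z x e a b + hE p z' x e a b + hE p z x' e a b
      - hE p z' x' e a b
  have i1 : ∀ z z' x x' b b' e y,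
      C z b x e y - C z' b x e y - C z b x' e y + C z' b x' e y
      = C z b' x e y - C z' b' x e y - C z b' x' e y + C z' b' x' e y := by
    intro z z' x x' b b' e y
    have h1 := L1 z z' x x' b e (-y) 0
    have h2 := L1 z z' x x' b' e (-y) 0
    rw [neg_neg] at h1 h2
    rw [h1, h2]
  have i2 : ∀ z z' x x' b e e' y,
      C z b x e y - C z' b x e y - C z b x' e y + C z' b x' e y
      = C z b x e' y - C z' b x e' y - C z b x' e' y + C z' b x' e' y := by
    intro z z' x x' b e e' y
    have h := i1 z z' e e' x x' y b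
    rw [hC z b x e y, hC z' b x e y, hC z b x' e y, hC z' b x' e y,
      hC z b x e' y, hC z' b x e' y, hC z b x' e' y, hC z' b x' e' y]
    linarith
  have j1 : ∀ x x' z z' p a a' y,
      C' x p z a y - C' x' p z a y - C' x p z' a y + C' x' p z' a y
      = C' x p z a' y - C' x' p z a' y - C' x p z' a' y + C' x' p z' a' y := by
    intro x x' z z' p a a' y
    have h1 := L1 z z' x x' 0 (-y) p a
    have h2 := L1 z z' x x' 0 (-y) p a'
    rw [neg_neg] at h1 h2
    rw [← h1, ← h2]
  have j2 : ∀ x x' z z' p p' a y,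
      C' x p z a y - C' x' p z a y - C' x p z' a y + C' x' p z' a y
      = C' x p' z a y - C' x' p' z a y - C' x p' z' a y + C' x' p' z' a y := by
    intro x x' z z' p p' a y
    -- third difference in (x; c1, c2) from that in (x; c2, c3)
    have h := j1 x x' p p' y z z' a
    have r : ∀ u v w s t, C' u t v w s = C' u v w s t := fun u v w s t => hC' u t v w s
    rw [r x p z a y, r x' p z a y, r x p z' a y, r x' p z' a y,
      r x p' z a y, r x' p' z a y, r x p' z' a y, r x' p' z' a y] at h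
    linarith
  have k1 : ∀ z z' x x' b b' e e' y y',
      C z b x e y - C z' b x e y - C z b x' e y + C z' b x' e y
      = C z b' x e' y' - C z' b' x e' y' - C z b' x' e' y' + C z' b' x' e' y' := by
    intro z z' x x' b b' e e' y y'
    rw [i1 z z' x x' b b' e y, i2 z z' x x' b' e e' y]
    have h1 := L1 z z' x x' b' e' (-y) 0
    have h2 := L1 z z' x x' b' e' (-y') 0
    rw [neg_neg] at h1 h2
    rw [h1, h2, j2 x x' z z' (-y) (-y') 0 (-e')]
  -- the bilinear-like part
  obtain ⟨B, hB⟩ : ∃ B : ℚ → ℚ → ℚ, ∀ z x,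
      B z x = C z 0 x 0 0 - C 0 0 x 0 0 - C z 0 0 0 0 + C 0 0 0 0 0 := ⟨_, fun _ _ => rfl⟩
  have F2 : ∀ z x b e y, C z b x e y = C 0 b x e y + C z b 0 e y - C 0 b 0 e y + B z x := by
    intro z x b e y
    have h := k1 z 0 x 0 b 0 e 0 y 0
    rw [hB]
    linarith
  have F1 : ∀ z x b e y, C z x e y b = C 0 x e y b + C z 0 e y b - C 0 0 e y b + B z x := by
    intro z x b e y
    have h := F2 z x b e y
    rw [hC z b x e y, hC 0 b x e y, hC z b 0 e y, hC 0 b 0 e y] at h
    exact h
  have dC : ∀ z a b c d, C z a b c d = C 0 a b c d + (C z 0 0 0 0 - C 0 0 0 0 0)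
      + B z a + B z b + B z c + B z d := by
    intro z a b c d
    have h1 := F1 z a d b c
    have h2 := F2 z b 0 c d
    have h3 := F1 z c 0 d 0
    have h4 := F1 z d 0 0 0
    have r3 : ∀ u, C u c d 0 0 = C u 0 0 c d := fun u => by rw [hC u c d 0 0, hC u d 0 0 c]
    have r4 : ∀ u, C u 0 d 0 0 = C u 0 0 0 d := fun u => by
      rw [hC u 0 d 0 0, hC u d 0 0 0, hC u 0 0 0 d, hC u 0 0 d 0, hC u 0 d 0 0, hC u d 0 0 0]
    have r5 : ∀ u, C u d 0 0 0 = C u 0 0 0 d := fun u => by rw [hC u d 0 0 0]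
    rw [r3, r3, r4, r4] at h3
    rw [r5, r5] at h4
    linarith
  have dC' : ∀ x a b c d, C' x a b c d = C' 0 a b c d + (C' x 0 0 0 0 - C' 0 0 0 0 0)
      + B a x + B b x + B c x + B d x := by
    have G2 : ∀ x z p a y, C' x p z a y
        = C' 0 p z a y + C' x p 0 a y - C' 0 p 0 a y + B z x := by
      intro x z p a y
      have h := L1 z 0 x 0 0 (-y) p a
      have h' := k1 z 0 x 0 0 0 (-y) 0 (-p) 0
      rw [neg_neg] at h
      rw [hB]
      linarith
    have G1 : ∀ x z p a y, C' x z a y p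
        = C' 0 z a y p + C' x 0 a y p - C' 0 0 a y p + B z x := by
      intro x z p a y
      have h := G2 x z p a y
      rw [hC' x p z a y, hC' 0 p z a y, hC' x p 0 a y, hC' 0 p 0 a y] at h
      exact h
    intro z a b c d
    have h1 := G1 z a d b c
    have h2 := G2 z b 0 c d
    have h3 := G1 z c 0 d 0
    have h4 := G1 z d 0 0 0
    have r3 : ∀ u, C' u c d 0 0 = C' u 0 0 c d := fun u => by rw [hC' u c d 0 0, hC' u d 0 0 c]
    have r4 : ∀ u, C' u 0 d 0 0 = C' u 0 0 0 d := fun u => by
      rw [hC' u 0 d 0 0, hC' u d 0 0 0, hC' u 0 0 0 d, hC' u 0 0 d 0, hC' u 0 d 0 0, hC' u d 0 0 0]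
    have r5 : ∀ u, C' u d 0 0 0 = C' u 0 0 0 d := fun u => by rw [hC' u d 0 0 0]
    rw [r3, r3, r4, r4] at h3
    rw [r5, r5] at h4
    linarith
  have B0 : ∀ x, B 0 x = 0 := fun x => by rw [hB]; ring
  have B0' : ∀ x, B x 0 = 0 := fun x => by rw [hB]; ring
  -- `x = y = a = b = 0`
  have e1 : ∀ p q, C 0 0 0 0 0 + (C p 0 0 0 0 - C 0 0 0 0 0) - (C 0 0 0 0 (-p)
      + (C q 0 0 0 0 - C 0 0 0 0 0) + B q (-p)) = 0 := by
    intro p q
    have h := hE p q 0 0 0 0
    rw [dC q 0 0 0 (-p)] at h
    simp only [add_zero, neg_zero, B0'] at h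
    linarith
  have kz : ∀ q, C q 0 0 0 0 = C 0 0 0 0 0 := by
    intro q
    have h := e1 0 q
    rw [neg_zero, B0'] at h
    linarith
  have kap : ∀ p, C 0 0 0 0 (-p) = C 0 0 0 0 0 := by
    intro p
    have h := e1 p 0
    rw [B0, kz p] at h
    linarith
  have Bz : ∀ q p, B q p = 0 := by
    intro q p
    have h := e1 (-p) q
    rw [kz q, kz (-p), kap, neg_neg] at h
    linarith
  have e2 : ∀ x y, C' 0 0 0 0 0 + (C' y 0 0 0 0 - C' 0 0 0 0 0) - (C' 0 0 0 0 (-y)
      + (C' x 0 0 0 0 - C' 0 0 0 0 0)) = 0 := by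
    intro x y
    have h := hE 0 0 x y 0 0
    rw [dC' x 0 0 0 (-y)] at h
    simp only [add_zero, neg_zero, Bz] at h
    linarith
  have kz' : ∀ q, C' q 0 0 0 0 = C' 0 0 0 0 0 := by
    intro q
    have h := e2 q 0
    rw [neg_zero] at h
    linarith
  have kap' : ∀ p, C' 0 0 0 0 (-p) = C' 0 0 0 0 0 := by
    intro p
    have h := e2 0 p
    rw [kz' p] at h
    linarith
  have sC : ∀ z a b c d, C z a b c d = C 0 a b c d := by
    intro z a b c d
    rw [dC z a b c d, kz]
    simp only [Bz]
    ring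
  have sC' : ∀ z a b c d, C' z a b c d = C' 0 a b c d := by
    intro z a b c d
    rw [dC' z a b c d, kz']
    simp only [Bz]
    ring
  -- now a cyclic function of four variables
  have fin : ∀ f : ℚ → ℚ → ℚ → ℚ → ℚ, (∀ a b c d, f a b c d = f b c d a) →
      (∀ p, f 0 0 0 p = f 0 0 0 0) →
      (∀ x e a b p, f (a + b) x e (-a) - f b x e p = f (a + b) 0 e (-a) - f b 0 e p) →
      ∀ a b c d, f a b c d = f 0 0 0 0 := by
    intro f hf h0 hx
    -- the `x`-difference does not depend on the first and the last variable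
    have u1 : ∀ x e b y, f b x e y - f b 0 e y = f b x e 0 - f b 0 e 0 := by
      intro x e b y
      have h := hx x e 0 b y
      have h' := hx x e 0 b 0
      linarith
    have u2 : ∀ x e b, f b x e 0 - f b 0 e 0 = f 0 x e 0 - f 0 0 e 0 := by
      intro x e b
      have h := hx x e b 0 0
      have h' := u1 x e b (-b)
      rw [add_zero] at h
      linarith
    have u3 : ∀ x e b y, f b x e y - f b 0 e y = f 0 x e 0 - f 0 0 e 0 := by
      intro x e b y
      rw [u1, u2]
    -- rotated: the `e`-difference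
    have u4 : ∀ x e b y, f b x e y - f b x 0 y = f 0 e y 0 - f 0 0 y 0 := by
      intro x e b y
      have h := u3 e y x b
      rw [← hf b x e y, ← hf b x 0 y] at h
      exact h
    have u5 : ∀ x e, f 0 x e 0 - f 0 0 e 0 = 0 := by
      intro x e
      have h1 := u3 x e 0 0
      have h2 := u3 x 0 0 0
      have h3 := u4 x e 0 0
      have h4 := u4 0 e 0 0
      have h5 : f 0 x 0 0 = f 0 0 0 0 := by
        rw [hf 0 x 0 0, hf x 0 0 0]
        exact h0 x
      linarith
    have u6 : ∀ a b c d, f a b c d = f a 0 c d := by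
      intro a b c d
      have h := u3 b c a d
      have h' := u5 b c
      linarith
    intro a b c d
    rw [u6 a b c d, hf a 0 c d, u6 0 c d a, hf 0 0 d a, u6 0 d a 0, hf 0 0 a 0, u6 0 a 0 0]
  refine ⟨fun z a b c d => ?_, fun z a b c d => ?_⟩
  · rw [sC]
    refine fin (C 0) (hC 0) ?_ ?_ a b c d
    · intro p
      have h := kap (-p)
      rwa [neg_neg] at h
    · intro x e a b p
      have h1 := hE (-p) 0 x e a b
      have h2 := hE (-p) 0 0 e a b
      rw [sC (-p), sC' x, neg_neg] at h1
      rw [sC (-p), neg_neg] at h2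
      linarith
  · rw [sC']
    -- use the reversed function
    have key := fin (fun a b c d => C' 0 c b a d) (fun a b c d => by
      show C' 0 c b a d = C' 0 d c b a
      rw [hC' 0 d c b a]) (fun p => by
      have h := kap' (-p)
      rwa [neg_neg] at h) (fun x e a b p => by
      show C' 0 e x (a + b) (-a) - C' 0 e x b p = C' 0 e 0 (a + b) (-a) - C' 0 e 0 b p
      have h1 := hE e x 0 (-p) b a
      have h2 := hE e 0 0 (-p) b a
      rw [sC' (-p), neg_neg, sC x, add_comm b a] at h1
      rw [sC' (-p), neg_neg, add_comm b a] at h2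
      linarith)
    exact key c b a d

end Pent
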