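import Pool.Agent.Lib.MP_a57f33_nt.PN.DefsF
import Pool.Agent.Lib.MP_a57f33_nt.PN.TwoLevel

/-!
# Pentagon project (MP_a57f33_nt): (ED) for n = 4 and n = 5, all degrees
-/

namespace Pent

/-- the point `u + s v` -/
def ln (s : ℚ) (u v : List ℚ) : List ℚ := List.zipWith (fun a b => a + s * b) u v

theorem ln_getD (s : ℚ) : ∀ (u v : List ℚ), u.length = v.length → ∀ i,
    (ln s u v).getD i 0 = u.getD i 0 + s * v.getD i 0
  | [], [], _, i => by simp [ln]
  | a :: u, b :: v, h, 0 => by simp [ln]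
  | a :: u, b :: v, h, i + 1 => by
      have := ln_getD s u v (by simpa using h) i
      simpa [ln] using this
  | [], _ :: _, h, _ => by simp at h
  | _ :: _, [], h, _ => by simp at h

/-- restriction of a polynomial to a line -/
theorem poly_line (F : MvPolynomial ℕ ℚ) (u v : ℕ → ℚ) :
    ∃ P : Polynomial ℚ, ∀ s, P.eval s = MvPolynomial.eval (fun i => u i + s * v i) F := by
  refine ⟨MvPolynomial.eval₂ Polynomial.C
    (fun i => Polynomial.C (u i) + Polynomial.X * Polynomial.C (v i)) F, fun s => ?_⟩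
  have h := MvPolynomial.hom_eval₂ F (Polynomial.C : ℚ →+* Polynomial ℚ) (Polynomial.evalRingHom s)
    (fun i => Polynomial.C (u i) + Polynomial.X * Polynomial.C (v i))
  rw [Polynomial.coe_evalRingHom] at h
  rw [h, MvPolynomial.eval, MvPolynomial.eval₂Hom]
  show MvPolynomial.eval₂ _ _ F = MvPolynomial.eval₂ _ _ F
  congr 1
  · ext <;> simp
  · funext i
    simp
    ring

/-- two polynomial functions on lines which agree for infinitely many parameters agree -/
theorem poly_agree {m : ℕ} {f : List ℚ → ℚ} (hf : PolyL m f) (u v u' v' : List ℚ)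
    (hu : u.length = m) (hv : v.length = m) (hu' : u'.length = m) (hv' : v'.length = m)
    (S : Set ℚ) (hS : S.Infinite) (h : ∀ s ∈ S, f (ln s u v) = f (ln s u' v')) (s : ℚ) :
    f (ln s u v) = f (ln s u' v') := by
  obtain ⟨F, hF⟩ := hf
  have len : ∀ s (u v : List ℚ), u.length = m → v.length = m → (ln s u v).length = m := by
    intro s u v h1 h2
    simp [ln, h1, h2]
  obtain ⟨P, hP⟩ := poly_line F (fun i => u.getD i 0) (fun i => v.getD i 0)
  obtain ⟨P', hP'⟩ := poly_line F (fun i => u'.getD i 0) (fun i => v'.getD i 0)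
  have e1 : ∀ s, f (ln s u v) = P.eval s := by
    intro s
    rw [hF _ (len s u v hu hv), hP]
    congr 1
    congr 1
    funext i
    exact ln_getD s u v (by rw [hu, hv]) i
  have e2 : ∀ s, f (ln s u' v') = P'.eval s := by
    intro s
    rw [hF _ (len s u' v' hu' hv'), hP']
    congr 1
    congr 1
    funext i
    exact ln_getD s u' v' (by rw [hu', hv']) i
  have : P = P' := by
    apply Polynomial.eq_of_infinite_eval_eq
    refine hS.mono fun t ht => ?_
    show P.eval t = P'.eval t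
    rw [← e1, ← e2]
    exact h t ht
  rw [e1, e2, this]

theorem mul_infinite (a : ℚ) (ha : a ≠ 0) : (Set.range fun k : ℕ => (k : ℚ) * a).Infinite := by
  apply Set.infinite_range_of_injective
  intro i j h
  have : (i : ℚ) = j := mul_right_cancel₀ ha h
  exact_mod_cast this

theorem ne_infinite : {s : ℚ | s ≠ 0}.Infinite := by
  have : {s : ℚ | s ≠ 0} = {0}ᶜ := by ext; simp
  rw [this]
  exact (Set.finite_singleton (0 : ℚ)).infinite_compl

variable {y : ℚ → List ℚ → List ℚ → ℚ}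

theorem ED4 (hP : PolyED y) (hE : EDeq y 4) : EDconst y 4 := by
  have h32 : ∀ a0 a1 a2 b0 b1, y a0 [a1, a2] [b0, b1] = y (a2 + b0) [a0, a1] [b0, b1] := by
    intro a0 a1 a2 b0 b1
    have h := hE [a0, a1, a2] [b0, b1] (by simp) (by simp) (by simp)
    simp only [EDsum, List.length_cons, List.length_nil, List.headD_cons, List.tail_cons] at h
    norm_num [List.dropLast, List.getLastD] at h
    linarith
  have h23 : ∀ a0 a1 b0 b1 b2, y (a1 + b0) [a0, a1] [b1, b2] = y b2 [a0, a1] [b0, b1] := by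
    intro a0 a1 b0 b1 b2
    have h := hE [a0, a1] [b0, b1, b2] (by simp) (by simp) (by simp)
    simp only [EDsum, List.length_cons, List.length_nil, List.headD_cons, List.tail_cons] at h
    norm_num [List.dropLast, List.getLastD] at h
    linarith
  have hp : PolyL 5 (fun l => y (l.headD 0) ((l.drop 1).take 2) ((l.drop 1).drop 2)) := hP 2 2
  -- translation invariances
  have T1 : ∀ s w a0 a1 b0 b1, y (w + s) [a0 + s, a1 + s] [b0, b1] = y w [a0, a1] [b0, b1] := by
    have step : ∀ w a0 a1 b0 b1, y (w + b0) [a0 + b0, a1 + b0] [b0, b1]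
        = y w [a0, a1] [b0, b1] := by
      intro w a0 a1 b0 b1
      rw [h32 w a0 a1 b0 b1, h32 (a1 + b0) w a0 b0 b1, h32 (a0 + b0) (a1 + b0) w b0 b1]
    have it : ∀ (k : ℕ) w a0 a1 b0 b1,
        y (w + k * b0) [a0 + k * b0, a1 + k * b0] [b0, b1] = y w [a0, a1] [b0, b1] := by
      intro k
      induction k with
      | zero => intro w a0 a1 b0 b1; simp
      | succ k ih =>
          intro w a0 a1 b0 b1
          rw [← ih w a0 a1 b0 b1, ← step (w + k * b0) (a0 + k * b0) (a1 + k * b0)]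
          push_cast
          ring_nf
    have gen : ∀ s w a0 a1 b0 b1, b0 ≠ 0 →
        y (w + s) [a0 + s, a1 + s] [b0, b1] = y w [a0, a1] [b0, b1] := by
      intro s w a0 a1 b0 b1 hb
      have := poly_agree hp [w, a0, a1, b0, b1] [1, 1, 1, 0, 0] [w, a0, a1, b0, b1]
        [0, 0, 0, 0, 0] rfl rfl rfl rfl _ (mul_infinite b0 hb) (by
          rintro _ ⟨k, rfl⟩
          simpa [ln] using it k w a0 a1 b0 b1) s
      simpa [ln] using this
    intro s w a0 a1 b0 b1
    by_cases hb : b0 = 0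
    · subst hb
      have := poly_agree hp [w + s, a0 + s, a1 + s, 0, b1] [0, 0, 0, 1, 0] [w, a0, a1, 0, b1]
        [0, 0, 0, 1, 0] rfl rfl rfl rfl _ ne_infinite (by
          intro t ht
          simpa [ln] using gen s w a0 a1 t b1 ht) 0
      simpa [ln] using this
    · exact gen s w a0 a1 b0 b1 hb
  have T2 : ∀ s w a0 a1 b0 b1, y (w + s) [a0, a1] [b0 + s, b1 + s] = y w [a0, a1] [b0, b1] := by
    have step : ∀ w a0 a1 b0 b1, y (w + a1) [a0, a1] [b0 + a1, b1 + a1]
        = y w [a0, a1] [b0, b1] := by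
      intro w a0 a1 b0 b1
      have h1 := h23 a0 a1 b0 b1 w
      have h2 := h23 a0 a1 b1 w (a1 + b0)
      have h3 := h23 a0 a1 w (a1 + b0) (a1 + b1)
      rw [add_comm w a1, add_comm b0 a1, add_comm b1 a1, h3, h2, h1]
    have it : ∀ (k : ℕ) w a0 a1 b0 b1,
        y (w + k * a1) [a0, a1] [b0 + k * a1, b1 + k * a1] = y w [a0, a1] [b0, b1] := by
      intro k
      induction k with
      | zero => intro w a0 a1 b0 b1; simp
      | succ k ih =>
          intro w a0 a1 b0 b1
          rw [← ih w a0 a1 b0 b1, ← step (w + k * a1) a0 a1 (b0 + k * a1) (b1 + k * a1)]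
          push_cast
          ring_nf
    have gen : ∀ s w a0 a1 b0 b1, a1 ≠ 0 →
        y (w + s) [a0, a1] [b0 + s, b1 + s] = y w [a0, a1] [b0, b1] := by
      intro s w a0 a1 b0 b1 hb
      have := poly_agree hp [w, a0, a1, b0, b1] [1, 0, 0, 1, 1] [w, a0, a1, b0, b1]
        [0, 0, 0, 0, 0] rfl rfl rfl rfl _ (mul_infinite a1 hb) (by
          rintro _ ⟨k, rfl⟩
          simpa [ln] using it k w a0 a1 b0 b1) s
      simpa [ln] using this
    intro s w a0 a1 b0 b1
    by_cases hb : a1 = 0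
    · subst hb
      have := poly_agree hp [w + s, a0, 0, b0 + s, b1 + s] [0, 0, 1, 0, 0] [w, a0, 0, b0, b1]
        [0, 0, 1, 0, 0] rfl rfl rfl rfl _ ne_infinite (by
          intro t ht
          simpa [ln] using gen s w a0 t b0 b1 ht) 0
      simpa [ln] using this
    · exact gen s w a0 a1 b0 b1 hb
  -- differences
  have nf : ∀ w a0 a1 b0 b1, y w [a0, a1] [b0, b1] = y (w - a0 - b0) [0, a1 - a0] [0, b1 - b0] := by
    intro w a0 a1 b0 b1
    have h1 := T1 (-a0) w a0 a1 b0 b1
    have h2 := T2 (-b0) (w - a0) 0 (a1 - a0) b0 b1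
    rw [← sub_eq_add_neg, ← sub_eq_add_neg, ← sub_eq_add_neg, sub_self] at h1
    rw [← sub_eq_add_neg, ← sub_eq_add_neg, ← sub_eq_add_neg, sub_self] at h2
    rw [← h1, ← h2]
  have m1 : ∀ p q r t, y r [0, p] [0, q] = y (p - t) [0, -t] [0, q] := by
    intro p q r t
    have h := h32 0 (-t) (p - t) (t - r) (t - r + q)
    rw [nf, nf (p - t + (t - r))] at h
    have e1 : (0 : ℚ) - -t - (t - r) = r := by ring
    have e2 : p - t - -t = p := by ring
    have e3 : t - r + q - (t - r) = q := by ring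
    have e4 : p - t + (t - r) - 0 - (t - r) = p - t := by ring
    rw [e1, e2, e3, e4, sub_zero] at h
    exact h
  have m2 : ∀ p q r, y r [0, p] [0, q] = y 0 [0, 0] [0, q] := by
    intro p q r
    have h1 := m1 p q r 0
    have h2 := m1 p q r p
    have h3 := m1 (-p) q (p - p) 0
    have h4 := m1 0 q 0 p
    have h5 := m1 0 q 0 0
    have h6 := m1 0 q (0 - p) 0
    rw [neg_zero, sub_zero] at h1 h3 h5 h6
    have h7 := m1 (-p) q (0 - p) 0
    rw [neg_zero, sub_zero] at h7
    rw [h2, h3, h4, h7]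
  have m3 : ∀ q q', y 0 [0, 0] [0, q] = y 0 [0, 0] [0, q'] := by
    intro q q'
    have h := h23 0 0 0 q' (q + q')
    rw [nf, nf (q + q')] at h
    rw [m2, m2 _ _ (q + q' - 0 - 0)] at h
    have e1 : q + q' - q' = q := by ring
    have e2 : q' - 0 = q' := by ring
    rw [e1, e2] at h
    exact h
  intro w w' A A' B B' hA hB hAA hBB hn
  have lA : A.length = 2 := by omega
  have lB : B.length = 2 := by omega
  obtain ⟨a0, a1, rfl⟩ := List.length_eq_two.mp lA
  obtain ⟨b0, b1, rfl⟩ := List.length_eq_two.mp lB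
  obtain ⟨a0', a1', rfl⟩ := List.length_eq_two.mp (hAA ▸ lA : A'.length = 2)
  obtain ⟨b0', b1', rfl⟩ := List.length_eq_two.mp (hBB ▸ lB : B'.length = 2)
  rw [nf w, nf w', m2, m2 _ _ (w' - a0' - b0')]
  exact m3 _ _

/-- the value of (ED) at a pair `(|A|, |B|) = (4, 2)`, `(2, 4)`, `(3, 3)` -/
theorem ED5 (hP : PolyED y) (hE : EDeq y 5) : EDconst y 5 := by
  have h42 : ∀ a0 a1 a2 a3 b0 b1,
      y a0 [a1, a2, a3] [b0, b1] = y (a3 + b0) [a0, a1, a2] [b0, b1] := by
    intro a0 a1 a2 a3 b0 b1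
    have h := hE [a0, a1, a2, a3] [b0, b1] (by simp) (by simp) (by simp)
    simp only [EDsum, List.length_cons, List.length_nil, List.headD_cons, List.tail_cons] at h
    norm_num [List.dropLast, List.getLastD] at h
    linarith
  have h24 : ∀ a0 a1 b0 b1 b2 b3,
      y (a1 + b0) [a0, a1] [b1, b2, b3] = y b3 [a0, a1] [b0, b1, b2] := by
    intro a0 a1 b0 b1 b2 b3
    have h := hE [a0, a1] [b0, b1, b2, b3] (by simp) (by simp) (by simp)
    simp only [EDsum, List.length_cons, List.length_nil, List.headD_cons, List.tail_cons] at h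
    norm_num [List.dropLast, List.getLastD] at h
    linarith
  have h33 : ∀ a0 a1 a2 b0 b1 b2,
      y a0 [a1, a2] [b0, b1, b2] - y (a2 + b0) [a0, a1] [b0, b1, b2]
        + y (a2 + b0) [a0, a1, a2] [b1, b2] - y b2 [a0, a1, a2] [b0, b1] = 0 := by
    intro a0 a1 a2 b0 b1 b2
    have h := hE [a0, a1, a2] [b0, b1, b2] (by simp) (by simp) (by simp)
    simp only [EDsum, List.length_cons, List.length_nil, List.headD_cons, List.tail_cons] at h
    norm_num [List.dropLast, List.getLastD] at h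
    linarith
  have hp : PolyL 6 (fun l => y (l.headD 0) ((l.drop 1).take 2) ((l.drop 1).drop 2)) := hP 2 3
  have hq : PolyL 6 (fun l => y (l.headD 0) ((l.drop 1).take 3) ((l.drop 1).drop 3)) := hP 3 2
  -- translation invariances
  have T1 : ∀ s w a0 a1 a2 b0 b1,
      y (w + s) [a0 + s, a1 + s, a2 + s] [b0, b1] = y w [a0, a1, a2] [b0, b1] := by
    have step : ∀ w a0 a1 a2 b0 b1, y (w + b0) [a0 + b0, a1 + b0, a2 + b0] [b0, b1]
        = y w [a0, a1, a2] [b0, b1] := by
      intro w a0 a1 a2 b0 b1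
      rw [h42 w a0 a1 a2 b0 b1, h42 (a2 + b0) w a0 a1 b0 b1,
        h42 (a1 + b0) (a2 + b0) w a0 b0 b1, h42 (a0 + b0) (a1 + b0) (a2 + b0) w b0 b1]
    have it : ∀ (k : ℕ) w a0 a1 a2 b0 b1,
        y (w + k * b0) [a0 + k * b0, a1 + k * b0, a2 + k * b0] [b0, b1]
          = y w [a0, a1, a2] [b0, b1] := by
      intro k
      induction k with
      | zero => intro w a0 a1 a2 b0 b1; simp
      | succ k ih =>
          intro w a0 a1 a2 b0 b1
          rw [← ih w a0 a1 a2 b0 b1,
            ← step (w + k * b0) (a0 + k * b0) (a1 + k * b0) (a2 + k * b0)]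
          push_cast
          ring_nf
    have gen : ∀ s w a0 a1 a2 b0 b1, b0 ≠ 0 →
        y (w + s) [a0 + s, a1 + s, a2 + s] [b0, b1] = y w [a0, a1, a2] [b0, b1] := by
      intro s w a0 a1 a2 b0 b1 hb
      have := poly_agree hq [w, a0, a1, a2, b0, b1] [1, 1, 1, 1, 0, 0] [w, a0, a1, a2, b0, b1]
        [0, 0, 0, 0, 0, 0] rfl rfl rfl rfl _ (mul_infinite b0 hb) (by
          rintro _ ⟨k, rfl⟩
          simpa [ln] using it k w a0 a1 a2 b0 b1) s
      simpa [ln] using this
    intro s w a0 a1 a2 b0 b1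
    by_cases hb : b0 = 0
    · subst hb
      have := poly_agree hq [w + s, a0 + s, a1 + s, a2 + s, 0, b1] [0, 0, 0, 0, 1, 0]
        [w, a0, a1, a2, 0, b1] [0, 0, 0, 0, 1, 0] rfl rfl rfl rfl _ ne_infinite (by
          intro t ht
          simpa [ln] using gen s w a0 a1 a2 t b1 ht) 0
      simpa [ln] using this
    · exact gen s w a0 a1 a2 b0 b1 hb
  have T2 : ∀ s w a0 a1 b0 b1 b2,
      y (w + s) [a0, a1] [b0 + s, b1 + s, b2 + s] = y w [a0, a1] [b0, b1, b2] := by
    have step : ∀ w a0 a1 b0 b1 b2, y (w + a1) [a0, a1] [b0 + a1, b1 + a1, b2 + a1]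
        = y w [a0, a1] [b0, b1, b2] := by
      intro w a0 a1 b0 b1 b2
      have h1 := h24 a0 a1 b0 b1 b2 w
      have h2 := h24 a0 a1 b1 b2 w (a1 + b0)
      have h3 := h24 a0 a1 b2 w (a1 + b0) (a1 + b1)
      have h4 := h24 a0 a1 w (a1 + b0) (a1 + b1) (a1 + b2)
      rw [add_comm w a1, add_comm b0 a1, add_comm b1 a1, add_comm b2 a1, h4, h3, h2, h1]
    have it : ∀ (k : ℕ) w a0 a1 b0 b1 b2,
        y (w + k * a1) [a0, a1] [b0 + k * a1, b1 + k * a1, b2 + k * a1]
          = y w [a0, a1] [b0, b1, b2] := by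
      intro k
      induction k with
      | zero => intro w a0 a1 b0 b1 b2; simp
      | succ k ih =>
          intro w a0 a1 b0 b1 b2
          rw [← ih w a0 a1 b0 b1 b2,
            ← step (w + k * a1) a0 a1 (b0 + k * a1) (b1 + k * a1) (b2 + k * a1)]
          push_cast
          ring_nf
    have gen : ∀ s w a0 a1 b0 b1 b2, a1 ≠ 0 →
        y (w + s) [a0, a1] [b0 + s, b1 + s, b2 + s] = y w [a0, a1] [b0, b1, b2] := by
      intro s w a0 a1 b0 b1 b2 hb
      have := poly_agree hp [w, a0, a1, b0, b1, b2] [1, 0, 0, 1, 1, 1] [w, a0, a1, b0, b1, b2]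
        [0, 0, 0, 0, 0, 0] rfl rfl rfl rfl _ (mul_infinite a1 hb) (by
          rintro _ ⟨k, rfl⟩
          simpa [ln] using it k w a0 a1 b0 b1 b2) s
      simpa [ln] using this
    intro s w a0 a1 b0 b1 b2
    by_cases hb : a1 = 0
    · subst hb
      have := poly_agree hp [w + s, a0, 0, b0 + s, b1 + s, b2 + s] [0, 0, 1, 0, 0, 0]
        [w, a0, 0, b0, b1, b2] [0, 0, 1, 0, 0, 0] rfl rfl rfl rfl _ ne_infinite (by
          intro t ht
          simpa [ln] using gen s w a0 t b0 b1 b2 ht) 0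
      simpa [ln] using this
    · exact gen s w a0 a1 b0 b1 b2 hb
  -- the two functions
  obtain ⟨C, hCd⟩ : ∃ C : ℚ → ℚ → ℚ → ℚ → ℚ → ℚ, ∀ z c1 c2 c3 c4, C z c1 c2 c3 c4
      = y 0 [c2, c2 + c3, c2 + c3 + c4] [-(c1 + c2 + c3 + c4), z - (c1 + c2 + c3 + c4)] :=
    ⟨_, fun _ _ _ _ _ => rfl⟩
  obtain ⟨C', hCd'⟩ : ∃ C : ℚ → ℚ → ℚ → ℚ → ℚ → ℚ, ∀ z c1 c2 c3 c4, C z c1 c2 c3 c4
      = y (c1 + c2 + c3) [c1 + c2 + c3 + c4 - z, c1 + c2 + c3 + c4] [0, c1, c1 + c2] :=
    ⟨_, fun _ _ _ _ _ => rfl⟩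
  have f32 : ∀ w a0 a1 a2 b0 b1, y w [a0, a1, a2] [b0, b1]
      = C (b1 - b0) (w - b0 - a2) (a0 - w) (a1 - a0) (a2 - a1) := by
    intro w a0 a1 a2 b0 b1
    rw [hCd, ← T1 (-w) w a0 a1 a2 b0 b1]
    congr 1
    · ring
    · congr 1
      · ring
      · congr 1
        · ring
        · congr 1
          ring
    · congr 1
      · ring
      · congr 1
        ring
  have f23 : ∀ w a0 a1 b0 b1 b2, y w [a0, a1] [b0, b1, b2]
      = C' (a1 - a0) (b1 - b0) (b2 - b1) (w - b2) (b0 + a1 - w) := by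
    intro w a0 a1 b0 b1 b2
    rw [hCd', ← T2 (-b0) w a0 a1 b0 b1 b2]
    congr 1
    · ring
    · congr 1
      · ring
      · congr 1
        ring
    · congr 1
      · ring
      · congr 1
        · ring
        · congr 1
          ring
  have cyc : ∀ z a b c d, C z a b c d = C z b c d a := by
    intro z a b c d
    -- `y α0 [α1, α2, α3] = y (α3 + b0) [α0, α1, α2]`
    have h := h42 0 c (c + d) (c + d + a) (-(a + b + c + d)) (z - (a + b + c + d))
    rw [f32, f32] at h
    convert h.symm using 6 <;> ring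
  have cyc' : ∀ z a b c d, C' z a b c d = C' z b c d a := by
    intro z a b c d
    have h := h24 (a + b + c + d - z) (a + b + c + d) 0 a (a + b) (a + b + c)
    rw [f23, f23] at h
    convert h.symm using 6 <;> ring
  have main := twoLevel C C' cyc cyc' (by
    intro p q x y' a b
    have h := h33 (a + b + (-(b + x + y')) + p + q) (a + b + (-(b + x + y')) + p + q + x)
      (a + b + (-(b + x + y')) + p + q + x + y') (-(b + x + y')) (-(b + x + y') + p)
      (-(b + x + y') + p + q)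
    rw [f32, f32, f23, f23] at h
    have e1 := cyc p (-a) (a + b) x y'
    have e2 := cyc q (-p) b x y'
    ring_nf at h e1 e2 ⊢
    linarith)
  obtain ⟨mC, mC'⟩ := main
  intro w w' A A' B B' hA hB hAA hBB hn
  have hcase : (A.length = 3 ∧ B.length = 2) ∨ (A.length = 2 ∧ B.length = 3) := by omega
  rcases hcase with ⟨lA, lB⟩ | ⟨lA, lB⟩
  · obtain ⟨a0, a1, a2, rfl⟩ := List.length_eq_three.mp lA
    obtain ⟨b0, b1, rfl⟩ := List.length_eq_two.mp lB
    obtain ⟨a0', a1', a2', rfl⟩ := List.length_eq_three.mp (hAA ▸ lA : A'.length = 3)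
    obtain ⟨b0', b1', rfl⟩ := List.length_eq_two.mp (hBB ▸ lB : B'.length = 2)
    rw [f32, f32, mC, mC (b1' - b0')]
  · obtain ⟨a0, a1, rfl⟩ := List.length_eq_two.mp lA
    obtain ⟨b0, b1, b2, rfl⟩ := List.length_eq_three.mp lB
    obtain ⟨a0', a1', rfl⟩ := List.length_eq_two.mp (hAA ▸ lA : A'.length = 2)
    obtain ⟨b0', b1', b2', rfl⟩ := List.length_eq_three.mp (hBB ▸ lB : B'.length = 3)
    rw [f23, f23, mC', mC' (a1' - a0')]

/-- (ED) for `n ≤ 5`, all degrees -/
theorem ED_le5 {n : ℕ} (hn : n ≤ 5) (hP : PolyED y) (hE : EDeq y n) : EDconst y n := by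
  rcases (by omega : n ≤ 3 ∨ n = 4 ∨ n = 5) with h | rfl | rfl
  · intro w w' A A' B B' hA hB _ _ h2
    omega
  · exact ED4 hP hE
  · exact ED5 hP hE

end Pent
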