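import Pool.Agent.Lib.MP_a57f33_nt.PN.Stm1

/-!
# Pentagon project (MP_a57f33_nt), Half I: the assembly
-/

namespace Pent

open Pool.Agent.MP_a57f33_nt

attribute [local instance 100] LieRing.ofAssociativeRing

universe v

theorem sgn_word (w : List Bool) : sgn (word w) = ((-1 : ℚ) ^ (w.count true)) • word w := by
  induction w with
  | nil => simp [sgn, ev2]
  | cons b w ih =>
    have e : sgn (word (b :: w)) = sgn (FreeAlgebra.ι ℚ b) * sgn (word w) := by
      simp [sgn, ev2, word_cons]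
    rw [e, ih]
    cases b
    · simp [sgn, ev2]
    · simp [sgn, ev2, pow_succ]

theorem coeff_sgn (ψ : QX) (w : List Bool) :
    coeff (sgn ψ) w = (-1 : ℚ) ^ (w.count true) * coeff ψ w := by
  have key : (coeffL w).comp (FreeAlgebra.lift ℚ (fun s : Bool =>
      if s then -FreeAlgebra.ι ℚ true else FreeAlgebra.ι ℚ false) : QX →ₐ[ℚ] QX).toLinearMap
      = ((-1 : ℚ) ^ (w.count true)) • coeffL w := by
    apply linear_ext
    intro u
    have h := sgn_word u
    unfold sgn ev2 at h
    simp only [LinearMap.comp_apply, AlgHom.toLinearMap_apply, LinearMap.smul_apply,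
      coeffL_apply, smul_eq_mul]
    rw [h, coeff_smul, coeff_word]
    by_cases hu : u = w
    · subst hu; simp
    · simp [hu]
  have := LinearMap.congr_fun key ψ
  simpa [coeffL_apply, sgn, ev2] using this

theorem sgn_good {ψ : QX} (h : ψ ∈ dm0) : Good (sgn ψ) := by
  refine ⟨?_, ?_, ?_⟩
  · refine lie_induction (P := fun ψ => sgn ψ ∈ LieX) ?_ ?_ ?_ ?_ ?_ h.1
    · have hio : ∀ b : Bool, (FreeAlgebra.ι ℚ b : QX) ∈ LieX :=
        fun b => LieSubalgebra.subset_lieSpan ⟨b, rfl⟩
      intro b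
      cases b
      · have : sgn (FreeAlgebra.ι ℚ false) = FreeAlgebra.ι ℚ false := by simp [sgn, ev2]
        rw [this]
        exact hio false
      · have : sgn (FreeAlgebra.ι ℚ true) = - FreeAlgebra.ι ℚ true := by simp [sgn, ev2]
        rw [this]
        exact neg_mem (hio true)
    · simp [sgn, ev2]
    · intro x y hx hy
      have : sgn (x + y) = sgn x + sgn y := by simp [sgn, ev2]
      rw [this]; exact add_mem hx hy
    · intro r x hx
      have : sgn (r • x) = r • sgn x := by simp [sgn, ev2]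
      rw [this]; exact LieX.smul_mem r hx
    · intro x y _ _ hx hy
      have : sgn (x * y - y * x) = ⁅sgn x, sgn y⁆ := by
        rw [LieRing.of_associative_ring_bracket]; simp [sgn, ev2]
      rw [this]; exact LieX.lie_mem hx hy
  · rw [coeff_sgn, h.2.1]; simp
  · rw [coeff_sgn, h.2.2.1]; simp

/-- the identification of the strands -/
def eS : Option (Fin 3) → Fin 4
  | none => 3
  | some i => i.castSucc

theorem eS_inj : Function.Injective eS := by decide

theorem braid_eS {A : Type v} [Ring A] {t : Fin 4 → Fin 4 → A} (h : Braid t) :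
    Braid (fun p q => t (eS p) (eS q)) := by
  have e : ∀ {i j : Option (Fin 3)}, i ≠ j → eS i ≠ eS j := fun hij h' => hij (eS_inj h')
  exact ⟨fun i j => h.symm _ _,
    fun i j k l h1 h2 h3 h4 h5 h6 => h.four _ _ _ _ (e h1) (e h2) (e h3) (e h4) (e h5) (e h6),
    fun i j k h1 h2 h3 => h.three _ _ _ (e h1) (e h2) (e h3)⟩

theorem wR_inj : Function.Injective wR := by decide
theorem wQ_inj : Function.Injective wQ := by decide
theorem wP_inj : Function.Injective wP := by decide
theorem wN_inj : Function.Injective wN := by decide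
theorem wS_inj : Function.Injective wS := by decide

theorem eS_wR (i : Fin 4) : eS (wR i) = i := by
  fin_cases i <;> rfl

/-- **The main theorem from its pieces.** -/
theorem main_of (hED : S_ED) (hII : S_II) (hlieR : S_lieR) (hforg : S_forg)
    (huniv : S_univ.{v}) (habc : S_abc) (hF1 : S_F1) (hfew : S_few) (hSP : S_SP)
    (htra : S_tra) (hmlie : S_mlie) (hmwrd : S_mwrd) (hmder : S_mder) (hminj : S_minj) (hmV : S_mV)
    (hvan : S_van) (hdep : S_dep) : S_main.{v} := by
  intro ψ hψ A _ _ t ht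
  have hφ : Good (sgn ψ) := sgn_good hψ
  have hcl : ClassZero (Rw (sgn ψ) wR) := hF1 ψ hψ
  have h1 := fun w => hlieR (sgn ψ) hφ w
  have h3 : Abc (Rw (sgn ψ) wR) (Rw (sgn ψ) wQ) (Rw (sgn ψ) wP) :=
    habc (sgn ψ) hφ (hfew _ (h1 wR).1 hcl)
  obtain ⟨V, hV⟩ := hSP _ _ _ (h1 wR).1 (h1 wQ).1 (h1 wP).1
    (fun u hu => ⟨hforg _ hφ wR wR_inj 2 u hu, hforg _ hφ wQ wQ_inj 2 u hu,
      hforg _ hφ wP wP_inj 2 u hu⟩) h3
  have hEq := htra (sgn ψ) V hφ hV
  have hR0 : Rw (sgn ψ) wR = 0 := by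
    refine hdep hED hII hmlie hmwrd hmder hminj hmV hvan _ _ _ _ _ V ?_ hcl hEq
    intro f hf
    simp only [Set.mem_insert_iff, Set.mem_singleton_iff] at hf
    rcases hf with rfl | rfl | rfl | rfl | rfl
    · exact ⟨(h1 wR).1, (h1 wR).2, hforg _ hφ wR wR_inj⟩
    · exact ⟨(h1 wQ).1, (h1 wQ).2, hforg _ hφ wQ wQ_inj⟩
    · exact ⟨(h1 wP).1, (h1 wP).2, hforg _ hφ wP wP_inj⟩
    · exact ⟨(h1 wN).1, (h1 wN).2, hforg _ hφ wN wN_inj⟩
    · exact ⟨(h1 wS).1, (h1 wS).2, hforg _ hφ wS wS_inj⟩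
  have h5 := huniv (sgn ψ) hφ wR wR_inj A (fun p q => t (eS p) (eS q)) (braid_eS ht)
  simp only [eS_wR] at h5
  rw [h5, hR0, map_zero]

end Pent
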