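import Pool.Agent.Lib.MP_a57f33_nt.Bridge
import Pool.Agent.Lib.MP_a57f33_nt.LieFacts

/-!
# Pentagon project (MP_a57f33_nt), Half I: definitions

`φ(a, b)`, infinitesimal braid relations, the pentagon expression, derivations of the free
algebra, the fibre module.
-/

namespace Pent

open Pool.Agent.MP_a57f33_nt

universe v

noncomputable section

/-- `φ(a, b)`: the letter `x₀ = false` goes to `a`, the letter `x₁ = true` to `b` -/
def ev2 {A : Type v} [Ring A] [Algebra ℚ A] (φ : QX) (a b : A) : A :=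
  FreeAlgebra.lift ℚ (fun s : Bool => if s then b else a) φ

/-- The infinitesimal braid relations for a family `t i j`, `i ≠ j`. -/
structure Braid {A : Type v} [Ring A] {I : Type} (t : I → I → A) : Prop where
  symm : ∀ i j, t i j = t j i
  four : ∀ i j k l, i ≠ j → i ≠ k → i ≠ l → j ≠ k → j ≠ l → k ≠ l →
    t i j * t k l = t k l * t i j
  three : ∀ i j k, i ≠ j → i ≠ k → j ≠ k → t i j * (t i k + t j k) = (t i k + t j k) * t i j

/-- The left side of the pentagon equation; the strands `1, 2, 3, 4` are `0, 1, 2, 3 : Fin 4`: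
`φ(t23,t34) - φ(t13+t23,t34) + φ(t12+t13,t24+t34) - φ(t12,t23+t24) + φ(t12,t23)`. -/
def pent {A : Type v} [Ring A] [Algebra ℚ A] (φ : QX) (t : Fin 4 → Fin 4 → A) : A :=
  ev2 φ (t 1 2) (t 2 3) - ev2 φ (t 0 2 + t 1 2) (t 2 3) + ev2 φ (t 0 1 + t 0 2) (t 1 3 + t 2 3)
    - ev2 φ (t 0 1) (t 1 2 + t 1 3) + ev2 φ (t 0 1) (t 1 2)

/-- `φ(x₀, x₁) = ψ(x₀, -x₁)` -/
def sgn (ψ : QX) : QX := ev2 ψ (FreeAlgebra.ι ℚ false) (-FreeAlgebra.ι ℚ true)

/-- **The pentagon equation for `dm₀`.** -/
def S_main : Prop :=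
  ∀ ψ ∈ dm0, ∀ (A : Type v) [Ring A] [Algebra ℚ A] (t : Fin 4 → Fin 4 → A),
    Braid t → pent (sgn ψ) t = 0

/-! ### Derivations of the free algebra -/

section der

variable {I : Type}

/-- the algebra homomorphism `x_i ↦ (x_i, u i; 0, x_i)` -/
def derHom (u : I → FreeAlgebra ℚ I) :
    FreeAlgebra ℚ I →ₐ[ℚ] Matrix (Fin 2) (Fin 2) (FreeAlgebra ℚ I) :=
  FreeAlgebra.lift ℚ fun i => !![FreeAlgebra.ι ℚ i, u i; 0, FreeAlgebra.ι ℚ i]

/-- the derivation of the free algebra with `x_i ↦ u i` -/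
def der (u : I → FreeAlgebra ℚ I) : Module.End ℚ (FreeAlgebra ℚ I) where
  toFun f := derHom u f 0 1
  map_add' f g := by simp
  map_smul' r f := by simp

theorem derHom_diag (u : I → FreeAlgebra ℚ I) (f : FreeAlgebra ℚ I) :
    derHom u f 0 0 = f ∧ derHom u f 1 0 = 0 ∧ derHom u f 1 1 = f := by
  induction f using FreeAlgebra.induction with
  | grade0 r => simp [derHom, Algebra.algebraMap_eq_smul_one]
  | grade1 i => simp [derHom]
  | mul a b ha hb =>
    simp only [map_mul, Matrix.mul_apply, Fin.sum_univ_two, ha.1, ha.2.1, ha.2.2, hb.1, hb.2.1,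
      hb.2.2]
    simp
  | add a b ha hb =>
    simp [ha.1, ha.2.1, ha.2.2, hb.1, hb.2.1, hb.2.2]

theorem der_mul (u : I → FreeAlgebra ℚ I) (f g : FreeAlgebra ℚ I) :
    der u (f * g) = der u f * g + f * der u g := by
  change derHom u (f * g) 0 1 = derHom u f 0 1 * g + f * derHom u g 0 1
  rw [map_mul, Matrix.mul_apply, Fin.sum_univ_two, (derHom_diag u f).1, (derHom_diag u g).2.2]
  abel

theorem der_iota (u : I → FreeAlgebra ℚ I) (i : I) : der u (FreeAlgebra.ι ℚ i) = u i := by
  change derHom u (FreeAlgebra.ι ℚ i) 0 1 = u i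
  simp [derHom]

theorem der_one (u : I → FreeAlgebra ℚ I) : der u 1 = 0 := by
  change derHom u 1 0 1 = 0
  simp

theorem der_algebraMap (u : I → FreeAlgebra ℚ I) (r : ℚ) :
    der u (algebraMap ℚ (FreeAlgebra ℚ I) r) = 0 := by
  rw [Algebra.algebraMap_eq_smul_one, map_smul, der_one, smul_zero]

/-- a linear map with the Leibniz rule is determined by its values on the letters -/
theorem der_unique (u : I → FreeAlgebra ℚ I) (d : Module.End ℚ (FreeAlgebra ℚ I))
    (hd : ∀ f g, d (f * g) = d f * g + f * d g)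
    (h : ∀ i, d (FreeAlgebra.ι ℚ i) = u i) : d = der u := by
  have h1 : d 1 = 0 := by
    have := hd 1 1
    simp only [mul_one, one_mul] at this
    simpa using this
  ext f
  induction f using FreeAlgebra.induction with
  | grade0 r => rw [Algebra.algebraMap_eq_smul_one, map_smul, map_smul, h1, der_one]
  | grade1 i => rw [h, der_iota]
  | mul a b ha hb => rw [hd, der_mul, ha, hb]
  | add a b ha hb => rw [map_add, map_add, ha, hb]

end der

/-! ### The fibre module -/

/-- the Lie algebra generated by the letters -/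
def LieT (I : Type) : Set (FreeAlgebra ℚ I) :=
  letI := LieRing.ofAssociativeRing (A := FreeAlgebra ℚ I)
  (LieSubalgebra.lieSpan ℚ (FreeAlgebra ℚ I) (Set.range (FreeAlgebra.ι ℚ)) :
    Set (FreeAlgebra ℚ I))

/-- The fibre module: strands `Option I`, the last strand is `none`. `tau (some i) none` is the
left multiplication by `x_i`; `tau (some i) (some j)` is the derivation `x_i ↦ [x_i, x_j]`,
`x_j ↦ [x_j, x_i]`, other letters to `0`. -/
def tau {I : Type} [DecidableEq I] : Option I → Option I → Module.End ℚ (FreeAlgebra ℚ I)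
  | none, none => 0
  | some i, none => LinearMap.mulLeft ℚ (FreeAlgebra.ι ℚ i)
  | none, some i => LinearMap.mulLeft ℚ (FreeAlgebra.ι ℚ i)
  | some i, some j =>
      if i = j then 0
      else der fun k =>
        if k = i then FreeAlgebra.ι ℚ i * FreeAlgebra.ι ℚ j - FreeAlgebra.ι ℚ j * FreeAlgebra.ι ℚ i
        else if k = j then
          FreeAlgebra.ι ℚ j * FreeAlgebra.ι ℚ i - FreeAlgebra.ι ℚ i * FreeAlgebra.ι ℚ j
        else 0

/-- `T_3 = ℚ⟨a, b, c⟩`, `a = x₁ = ι 0`, `b = x₂ = ι 1`, `c = x₃ = ι 2` -/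
abbrev T3 : Type := FreeAlgebra ℚ (Fin 3)

/-- `R_w = D(τ^w) 1` for an assignment `w` of the strands `0, 1, 2, 3` of the pentagon expression
to the strands of the fibre module -/
def Rw (φ : QX) (w : Fin 4 → Option (Fin 3)) : T3 := pent φ (fun i j => tau (w i) (w j)) 1

/-- assignment for `R` -/
def wR : Fin 4 → Option (Fin 3) := ![some 0, some 1, some 2, none]
/-- assignment for `Q` -/
def wQ : Fin 4 → Option (Fin 3) := ![some 0, some 1, none, some 2]
/-- assignment for `P` -/
def wP : Fin 4 → Option (Fin 3) := ![some 0, none, some 1, some 2]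
/-- assignment for `N` -/
def wN : Fin 4 → Option (Fin 3) := ![some 0, none, some 2, some 1]
/-- assignment for `S` -/
def wS : Fin 4 → Option (Fin 3) := ![some 0, some 2, none, some 1]

end

end Pent
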