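import Pool.Agent.Lib.MP_a57f33_nt.CycDefs
import Pool.Agent.Lib.MP_a57f33_nt.Pent.PSofED

/-!
# Pentagon project (MP_a57f33_nt), Half II: definitions

Words in two letters `b`, `c` carrying momenta, functions on them, slots, ordered shuffles.
The letter `(false, μ)` is `b` with momentum `μ`, the letter `(true, μ)` is `c` with momentum `μ`.
-/

namespace Pent

open Pool.Agent.MP_a57f33_nt.Cyc (shuffle)

/-- words in `b`, `c` with momenta -/
abbrev Wd := List (Bool × ℚ)

/-- a word in `b` -/
def bw {K : Type} (u : List K) : List (Bool × K) := u.map fun μ => (false, μ)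

/-- a word in `c` -/
def cw {K : Type} (v : List K) : List (Bool × K) := v.map fun μ => (true, μ)

/-- total momentum -/
def tot (w : Wd) : ℚ := (w.map fun y => y.2).sum

/-- sum of the momenta of the letters `c` -/
def csum (w : Wd) : ℚ := (w.map fun y => if y.1 then y.2 else 0).sum

/-- sum of the momenta of the letters `b` -/
def bsum (w : Wd) : ℚ := (w.map fun y => if y.1 then 0 else y.2).sum

/-- `f` kills all proper shuffles -/
def LieFn (f : Wd → ℚ) : Prop :=
  ∀ u v : Wd, u ≠ [] → v ≠ [] → ((shuffle u v).map f).sum = 0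

/-- `f(w minus its first letter)` if the first letter of `w` has type `x`, else `0` -/
def fstL (x : Bool) (f : Wd → ℚ) : Wd → ℚ
  | [] => 0
  | y :: w => if y.1 = x then f w else 0

/-- `f(w minus its last letter)` if the last letter of `w` has type `x`, else `0` -/
def lstL (x : Bool) (f : Wd → ℚ) (w : Wd) : ℚ := fstL x (fun t => f t.reverse) w.reverse

/-- the bracket `[x, f]` of the letter `x` (without momentum) and `f` -/
def brk (x : Bool) (f : Wd → ℚ) (w : Wd) : ℚ := fstL x f w - lstL x f w

/-- merging of adjacent letters of different type: `(b,μ)(c,ν)` gives `f(..(b,μ+ν)..) -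
f(..(c,μ+ν)..)`, `(c,μ)(b,ν)` gives the opposite. -/
def mrg : (Wd → ℚ) → Wd → ℚ
  | _, [] => 0
  | _, [_] => 0
  | f, (x, μ) :: (y, ν) :: w =>
      (if x = y then 0
       else if y then f ((false, μ + ν) :: w) - f ((true, μ + ν) :: w)
       else f ((true, μ + ν) :: w) - f ((false, μ + ν) :: w))
      + mrg (fun t => f ((x, μ) :: t)) ((y, ν) :: w)

/-- `f` is a polynomial function of lists of length `n` -/
def PolyL (n : ℕ) (f : List ℚ → ℚ) : Prop :=
  ∃ F : MvPolynomial ℕ ℚ, ∀ l : List ℚ, l.length = n →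
    f l = MvPolynomial.eval (fun i => l.getD i 0) F

/-- polynomial in the momenta, for each pattern of letters -/
def PolyW (f : Wd → ℚ) : Prop :=
  ∀ p : List Bool, PolyL p.length (fun μ => f (p.zip μ))

/-- the class of functions for (ED): polynomial for each shape -/
def PolyED (y : ℚ → List ℚ → List ℚ → ℚ) : Prop :=
  ∀ p q : ℕ, PolyL (1 + p + q)
    (fun l => y (l.headD 0) ((l.drop 1).take p) ((l.drop 1).drop p))

/-- **The lemma**: polynomial solutions of (ED) depend only on the shape. -/
def S_ED : Prop :=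
  ∀ (n : ℕ) (y : ℚ → List ℚ → List ℚ → ℚ), PolyED y → EDeq y n → EDconst y n

/-- The data in lowest depth `m`: the lowest parts `P`, `R` of the momentum functions. -/
structure PR (m : ℕ) (P R : Wd → ℚ) : Prop where
  suppP : ∀ w, w.length ≠ m → P w = 0
  suppR : ∀ w, w.length ≠ m → R w = 0
  lieP : LieFn P
  lieR : LieFn R
  polP : PolyW P
  polR : PolyW R
  zeroP : ∀ w : Wd, (∀ y ∈ w, y.2 = 0) → P w = 0
  zeroR : ∀ w : Wd, (∀ y ∈ w, y.2 = 0) → R w = 0
  pureP : ∀ (x : Bool) (w : Wd), (∀ y ∈ w, y.1 = x) → P w = 0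
  cbR : ∀ u v : List ℚ, R (cw u ++ bw v) = 0
  K2 : ∀ w : Wd, w.length = m + 1 → tot w = 0 → brk true R w = brk false P w
  K4 : ∀ w : Wd, w.length = m + 1 → csum w = 0 →
    brk true (fun t => P t + R t) w + mrg P w = 0

/-- **Half II.** -/
def S_II : Prop :=
  S_ED → ∀ (m : ℕ) (P R : Wd → ℚ), PR m P R → ∀ w, P w = 0 ∧ R w = 0

/-! ### Slots and ordered shuffles -/

/-- a slot `(u | v)`: `u` a word in `b`, `v` a word in `c`, given by their momenta -/
abbrev Sl := List ℚ × List ℚ

/-- put one more slot: shuffle with `u` and with `v` minus its last letter, then add the last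
letter of `v` (the mark) -/
def ostep {K : Type} (ws : List (List (Bool × K))) (g : List K × List K) :
    List (List (Bool × K)) :=
  ws.flatMap fun w =>
    ((shuffle w (bw g.1)).flatMap fun w' => shuffle w' (cw g.2.dropLast)).map
      (· ++ cw (g.2.drop (g.2.length - 1)))

/-- the ordered shuffles of a list of slots (words with multiplicity) -/
def OS {K : Type} (gs : List (List K × List K)) : List (List (Bool × K)) :=
  gs.foldl ostep [[]]

/-- `L_p f`: the sum of `f` over the ordered shuffles of `p` slots -/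
def LL (f : Wd → ℚ) (gs : List Sl) : ℚ := ((OS gs).map f).sum

/-- all `v` are nonempty -/
def vok (gs : List Sl) : Prop := ∀ g ∈ gs, g.2 ≠ []

/-- all `u`, `v` are nonempty -/
def uvok (gs : List Sl) : Prop := ∀ g ∈ gs, g.1 ≠ [] ∧ g.2 ≠ []

/-- number of letters -/
def nl (gs : List Sl) : ℕ := (gs.map fun g => g.1.length + g.2.length).sum

/-- sum over the slots and over the modifications of one slot (with a label) -/
def osum (md : Sl → List (ℚ × Sl)) : (ℚ → List Sl → ℚ) → List Sl → ℚ
  | _, [] => 0
  | F, g :: gs =>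
      ((md g).map fun p => F p.1 (p.2 :: gs)).sum + osum md (fun r t => F r (g :: t)) gs

/-- remove the first letter of `v` if `|v| ≥ 2`; label: this letter -/
def dv (g : Sl) : List (ℚ × Sl) :=
  if 2 ≤ g.2.length then [(g.2.headD 0, (g.1, g.2.tail))] else []

/-- remove the first letter of `u` if `|u| ≥ 2`; label: this letter -/
def du (g : Sl) : List (ℚ × Sl) :=
  if 2 ≤ g.1.length then [(g.1.headD 0, (g.1.tail, g.2))] else []

/-- replace the last letter `y` of `v` by `x + y` and remove the last letter `x` of `u`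
(if `|u| ≥ 2`), and the same with `u` and `v` exchanged (if `|v| ≥ 2`) -/
def gam (g : Sl) : List (ℚ × Sl) :=
  (if 2 ≤ g.1.length then
    [(0, (g.1.dropLast, g.2.dropLast ++ [g.1.getLastD 0 + g.2.getLastD 0]))] else []) ++
  (if 2 ≤ g.2.length then
    [(0, (g.1.dropLast ++ [g.1.getLastD 0 + g.2.getLastD 0], g.2.dropLast))] else [])

/-- all momenta of a list of slots -/
def flat (gs : List Sl) : List ℚ := gs.flatMap fun g => g.1 ++ g.2

/-- sum of all `v` momenta -/
def vsum (gs : List Sl) : ℚ := (gs.map fun g => g.2.sum).sum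

/-- polynomial for each shape -/
def PolyS (D : List Sl → ℚ) : Prop :=
  ∀ sh : List (ℕ × ℕ), ∃ F : MvPolynomial ℕ ℚ, ∀ gs : List Sl,
    (gs.map fun g => (g.1.length, g.2.length)) = sh →
      D gs = MvPolynomial.eval (fun i => (flat gs).getD i 0) F

/-- the slot level system for `p` slots and `m` letters -/
structure KK (p m : ℕ) (D D' : List Sl → ℚ) : Prop where
  polD : PolyS D
  polD' : PolyS D'
  zeroD : ∀ gs : List Sl, (∀ x ∈ flat gs, x = 0) → D gs = 0
  zeroD' : ∀ gs : List Sl, (∀ x ∈ flat gs, x = 0) → D' gs = 0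
  K2 : ∀ gs : List Sl, gs.length = p → uvok gs → nl gs = m + 1 → (flat gs).sum = 0 →
    osum dv (fun _ t => D' t) gs = osum du (fun _ t => D t) gs
  K4 : ∀ gs : List Sl, gs.length = p → uvok gs → nl gs = m + 1 → vsum gs = 0 →
    osum dv (fun _ t => D t + D' t) gs = osum gam (fun _ t => D t) gs

end Pent
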