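import Pool.Agent.Lib.MP_a57f33_nt.PN.Cf

/-!
# Pentagon project (MP_a57f33_nt): (ED) for n = 6, the linear system on the coefficients

`G` is a function of `x; v1, v2, v3; u1, u2, u3`, `C` is a function of `z; s, x, v1, v2, v3`.
-/

namespace Pent.E6

/-- the functional equation -/
def E1 (C : ℚ → ℚ → ℚ → ℚ → ℚ → ℚ → ℚ) (G : ℚ → ℚ → ℚ → ℚ → ℚ → ℚ → ℚ → ℚ) : Prop :=
  ∀ x a b c t z s, G x a b c t z s - G c x a b (t + x) z s
    = C s (x + t) (-t) a b c - C z s x a b c

/-- the function part: the difference in `u2` is affine in `u1` -/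
theorem sideF (C : ℚ → ℚ → ℚ → ℚ → ℚ → ℚ → ℚ) (G : ℚ → ℚ → ℚ → ℚ → ℚ → ℚ → ℚ → ℚ)
    (p1 : ∀ a b c t z s, IsP1 (fun x => G x a b c t z s))
    (p2 : ∀ x a b c z s, IsP1 (fun t => G x a b c t z s))
    (hE : E1 C G) (A0 A : ℚ → ℚ → ℚ → ℚ → ℚ → ℚ → ℚ)
    (hA0 : ∀ x a b c z s, A0 x a b c z s = G x a b c 0 z s - G x a b c 0 0 s)
    (hA : ∀ x a b c z s, A x a b c z s = (G x a b c 1 z s - G x a b c 1 0 s) - A0 x a b c z s) :
    (∀ x a b c t z s, G x a b c t z s - G x a b c t 0 s
      = A0 x a b c z s + t * A x a b c z s) ∧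
    (∀ x a b c z s, A x a b c z s = A c x a b z s) ∧
    (∀ x a b c z s, C z s x a b c - C 0 s x a b c
      = A0 c x a b z s - A0 x a b c z s + x * A x a b c z s) := by
  -- the difference
  have d1 : ∀ x a b c t z s, (G x a b c t z s - G x a b c t 0 s)
      - (G c x a b (t + x) z s - G c x a b (t + x) 0 s) = - (C z s x a b c - C 0 s x a b c) := by
    intro x a b c t z s
    have h1 := hE x a b c t z s
    have h2 := hE x a b c t 0 s
    linarith
  obtain ⟨W, hW⟩ : ∃ W : ℚ → ℚ → ℚ → ℚ → ℚ → ℚ → ℚ → ℚ, ∀ x a b c z s t, W x a b c z s t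
      = (G x a b c t z s - G x a b c t 0 s) - (G x a b c 0 z s - G x a b c 0 0 s) :=
    ⟨_, fun _ _ _ _ _ _ _ => rfl⟩
  have w1 : ∀ x a b c z s t, W x a b c z s t = W c x a b z s (t + x) - W c x a b z s x := by
    intro x a b c z s t
    have h1 := d1 x a b c t z s
    have h2 := d1 x a b c 0 z s
    rw [zero_add] at h2
    rw [hW, hW, hW]
    linarith
  have w4 : ∀ x a b c z s t, W x a b c z s t
      = W x a b c z s (t + (x + c + b + a)) - W x a b c z s (x + c + b + a) := by
    intro x a b c z s t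
    rw [w1 x a b c z s t, w1 c x a b z s (t + x), w1 c x a b z s x,
      w1 b c x a z s (t + x + c), w1 b c x a z s (x + c), w1 b c x a z s c,
      w1 a b c x z s (t + x + c + b), w1 a b c x z s (x + c + b), w1 a b c x z s (c + b),
      w1 a b c x z s b]
    have e1 : t + x + c + b + a = t + (x + c + b + a) := by ring
    rw [e1]
    ring
  have pW : ∀ x a b c z s, IsP1 (fun t => W x a b c z s t) := by
    intro x a b c z s
    have h := ((p2 x a b c z s).sub (p2 x a b c 0 s)).sub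
      (IsP1.const (G x a b c 0 z s - G x a b c 0 0 s))
    have e : (fun t => W x a b c z s t) = fun t => (G x a b c t z s - G x a b c t 0 s)
        - (G x a b c 0 z s - G x a b c 0 0 s) := by
      funext t
      rw [hW]
    rw [e]
    exact h
  have pW' : ∀ a b c z s t, IsP1 (fun x => W x a b c z s t) := by
    intro a b c z s t
    have h := ((p1 a b c t z s).sub (p1 a b c t 0 s)).sub
      ((p1 a b c 0 z s).sub (p1 a b c 0 0 s))
    have e : (fun x => W x a b c z s t) = fun x => (G x a b c t z s - G x a b c t 0 s)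
        - (G x a b c 0 z s - G x a b c 0 0 s) := by
      funext x
      rw [hW]
    rw [e]
    exact h
  have lin0 : ∀ x a b c z s t, x + c + b + a ≠ 0 → W x a b c z s t = t * W x a b c z s 1 :=
    fun x a b c z s t hS => (pW x a b c z s).lin _ hS (w4 x a b c z s) t
  have lin : ∀ x a b c z s t, W x a b c z s t = t * W x a b c z s 1 := by
    intro x a b c z s t
    have h := IsP1.zero ((pW' a b c z s t).sub ((IsP1.const t).mul (pW' a b c z s 1)))
      {y | y ≠ -(c + b + a)} (infinite_ne _) (fun y hy => by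
        have : y + c + b + a ≠ 0 := fun h0 => hy (by linarith)
        rw [lin0 y a b c z s t this, sub_self]) x
    linarith
  have hAW : ∀ x a b c z s, A x a b c z s = W x a b c z s 1 := by
    intro x a b c z s
    rw [hA, hA0, hW]
  have main : ∀ x a b c t z s, G x a b c t z s - G x a b c t 0 s
      = A0 x a b c z s + t * A x a b c z s := by
    intro x a b c t z s
    have h := lin x a b c z s t
    rw [← hAW, hW, ← hA0] at h
    linarith
  have cyc : ∀ x a b c z s, A x a b c z s = A c x a b z s := by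
    intro x a b c z s
    have h := w1 x a b c z s 1
    rw [lin c x a b z s (1 + x), lin c x a b z s x, ← hAW, ← hAW] at h
    linarith
  refine ⟨main, cyc, ?_⟩
  intro x a b c z s
  have h := d1 x a b c 0 z s
  rw [main, main, ← cyc x a b c z s, zero_add] at h
  linarith

/-- coefficients of a function of six variables -/
noncomputable def c6 (N : ℕ) (C : ℚ → ℚ → ℚ → ℚ → ℚ → ℚ → ℚ) (f g a b c d : ℕ) : ℚ :=
  cf N f fun z => cf N g fun s => cf N a fun x => cf N b fun v1 => cf N c fun v2 =>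
    cf N d fun v3 => C z s x v1 v2 v3

/-- coefficients of a function of seven variables -/
noncomputable def c7 (N : ℕ) (G : ℚ → ℚ → ℚ → ℚ → ℚ → ℚ → ℚ → ℚ) (a b c d e f g : ℕ) : ℚ :=
  cf N f fun z => cf N g fun s => cf N a fun x => cf N b fun v1 => cf N c fun v2 =>
    cf N d fun v3 => cf N e fun u1 => G x v1 v2 v3 u1 z s

theorem c6_cyc (N : ℕ) (C : ℚ → ℚ → ℚ → ℚ → ℚ → ℚ → ℚ)
    (hC : ∀ z s x a b c, C z s x a b c = C z x a b c s) (f g a b c d : ℕ) :
    c6 N C f g a b c d = c6 N C f a b c d g := by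
  unfold c6
  refine cf_congr fun z => ?_
  rw [cf_rot5 N g a b c d (fun s x v1 v2 v3 => C z s x v1 v2 v3)]
  refine cf_congr fun x => cf_congr fun v1 => cf_congr fun v2 => cf_congr fun v3 =>
    cf_congr fun s => ?_
  exact hC z s x v1 v2 v3

/-- the mirror image -/
theorem c7_mirror (N : ℕ) (G : ℚ → ℚ → ℚ → ℚ → ℚ → ℚ → ℚ → ℚ) (a b c d e f g : ℕ) :
    c7 N (fun x v1 v2 v3 u1 u2 u3 => G x u1 u2 u3 v1 v2 v3) a e f g b c d
      = c7 N G a b c d e f g := by
  unfold c7
  symm
  rw [← cf_rot5 N c f g a b (fun v2 z s x v1 => cf N d fun v3 => cf N e fun u1 =>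
    G x v1 v2 v3 u1 z s)]
  refine cf_congr fun v2 => ?_
  rw [← cf_rot5 N d f g a b (fun v3 z s x v1 => cf N e fun u1 => G x v1 v2 v3 u1 z s)]
  refine cf_congr fun v3 => ?_
  rw [← cf_rot3 N a f g (fun x z s => cf N b fun v1 => cf N e fun u1 => G x v1 v2 v3 u1 z s)]
  refine cf_congr fun x => ?_
  exact (cf_rot4 N e f g b (fun u1 z s v1 => G x v1 v2 v3 u1 z s)).symm

/-- the linear system on the coefficients, one half -/
theorem sideC (C : ℚ → ℚ → ℚ → ℚ → ℚ → ℚ → ℚ) (G : ℚ → ℚ → ℚ → ℚ → ℚ → ℚ → ℚ → ℚ)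
    (M N : ℕ) (hM : M < N) (hN : 2 ≤ N)
    (p1 : ∀ a b c t z s, IsP M (fun x => G x a b c t z s))
    (p2 : ∀ x a b c z s, IsP1 (fun t => G x a b c t z s))
    (hE : E1 C G) :
    (∀ a b c d e f g, 1 ≤ f → 2 ≤ e → c7 N G a b c d e f g = 0) ∧
    (∀ a b c d f g, 1 ≤ f → c7 N G a b c d 1 f g = c7 N G d a b c 1 f g) ∧
    (∀ b c d f g, 1 ≤ f → c6 N C f g 0 b c d
      = c7 N G d 0 b c 0 f g - c7 N G 0 b c d 0 f g) ∧
    (∀ a b c d f g, 1 ≤ f → c6 N C f g (a + 1) b c d
      = c7 N G d (a + 1) b c 0 f g - c7 N G (a + 1) b c d 0 f g + c7 N G a b c d 1 f g) ∧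
    (∀ b c d, c7 N G 0 b c d 0 0 0 = c7 N G d 0 b c 0 0 0) := by
  have hN1 : 1 ≤ N := by omega
  obtain ⟨A0, hA0⟩ : ∃ A0 : ℚ → ℚ → ℚ → ℚ → ℚ → ℚ → ℚ, ∀ x a b c z s, A0 x a b c z s
    = G x a b c 0 z s - G x a b c 0 0 s := ⟨_, fun _ _ _ _ _ _ => rfl⟩
  obtain ⟨A, hA⟩ : ∃ A : ℚ → ℚ → ℚ → ℚ → ℚ → ℚ → ℚ, ∀ x a b c z s, A x a b c z s
    = (G x a b c 1 z s - G x a b c 1 0 s) - A0 x a b c z s := ⟨_, fun _ _ _ _ _ _ => rfl⟩
  obtain ⟨main, cyc, al⟩ := sideF C G (fun a b c t z s => (p1 a b c t z s).one) p2 hE A0 A hA0 hA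
  -- the coefficients of `G` with `f ≥ 1` are those of the difference
  have key : ∀ a b c d e f g, 1 ≤ f → c7 N G a b c d e f g
      = cf N f fun z => cf N g fun s => cf N a fun x => cf N b fun v1 => cf N c fun v2 =>
        cf N d fun v3 => cf N e fun u1 => (A0 x v1 v2 v3 z s + u1 * A x v1 v2 v3 z s) := by
    intro a b c d e f g hf
    have h0 : c7 N (fun x v1 v2 v3 u1 _ s => G x v1 v2 v3 u1 0 s) a b c d e f g = 0 := by
      unfold c7
      exact cf_const hN1 _ f hf
    have h1 : c7 N G a b c d e f g - c7 N (fun x v1 v2 v3 u1 _ s => G x v1 v2 v3 u1 0 s)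
        a b c d e f g = cf N f fun z => cf N g fun s => cf N a fun x => cf N b fun v1 =>
          cf N c fun v2 => cf N d fun v3 => cf N e fun u1 =>
            (G x v1 v2 v3 u1 z s - G x v1 v2 v3 u1 0 s) := by
      unfold c7
      simp only [cf_sub]
    rw [h0, sub_zero] at h1
    rw [h1]
    refine cf_congr fun z => cf_congr fun s => cf_congr fun x => cf_congr fun v1 =>
      cf_congr fun v2 => cf_congr fun v3 => cf_congr fun u1 => ?_
    exact main x v1 v2 v3 u1 z s
  have k0 : ∀ a b c d f g, 1 ≤ f → c7 N G a b c d 0 f g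
      = cf N f fun z => cf N g fun s => cf N a fun x => cf N b fun v1 => cf N c fun v2 =>
        cf N d fun v3 => A0 x v1 v2 v3 z s := by
    intro a b c d f g hf
    rw [key a b c d 0 f g hf]
    simp only [cf_affine hN, if_true]
  have k1 : ∀ a b c d f g, 1 ≤ f → c7 N G a b c d 1 f g
      = cf N f fun z => cf N g fun s => cf N a fun x => cf N b fun v1 => cf N c fun v2 =>
        cf N d fun v3 => A x v1 v2 v3 z s := by
    intro a b c d f g hf
    rw [key a b c d 1 f g hf]
    simp only [cf_affine hN, if_true, one_ne_zero, if_false]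
  have k2 : ∀ a b c d e f g, 1 ≤ f → 2 ≤ e → c7 N G a b c d e f g = 0 := by
    intro a b c d e f g hf he
    rw [key a b c d e f g hf]
    have h0 : e ≠ 0 := by omega
    have h1 : e ≠ 1 := by omega
    simp only [cf_affine hN, h0, h1, if_false]
    unfold cf
    simp
  -- the coefficients of `C` with `f ≥ 1`
  have kC : ∀ f g a b c d, 1 ≤ f → c6 N C f g a b c d
      = cf N f fun z => cf N g fun s => cf N a fun x => cf N b fun v1 => cf N c fun v2 =>
        cf N d fun v3 => (A0 v3 x v1 v2 z s - A0 x v1 v2 v3 z s + x * A x v1 v2 v3 z s) := by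
    intro f g a b c d hf
    have h0 : c6 N (fun _ s x v1 v2 v3 => C 0 s x v1 v2 v3) f g a b c d = 0 := by
      unfold c6
      exact cf_const hN1 _ f hf
    have h1 : c6 N C f g a b c d - c6 N (fun _ s x v1 v2 v3 => C 0 s x v1 v2 v3) f g a b c d
        = cf N f fun z => cf N g fun s => cf N a fun x => cf N b fun v1 => cf N c fun v2 =>
          cf N d fun v3 => (C z s x v1 v2 v3 - C 0 s x v1 v2 v3) := by
      unfold c6
      simp only [cf_sub]
    rw [h0, sub_zero] at h1
    rw [h1]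
    refine cf_congr fun z => cf_congr fun s => cf_congr fun x => cf_congr fun v1 =>
      cf_congr fun v2 => cf_congr fun v3 => ?_
    exact al x v1 v2 v3 z s
  -- the rotation of `A0`
  have rot : ∀ (B : ℚ → ℚ → ℚ → ℚ → ℚ → ℚ → ℚ) (f g a b c d : ℕ),
      (cf N f fun z => cf N g fun s => cf N a fun x => cf N b fun v1 => cf N c fun v2 =>
        cf N d fun v3 => B v3 x v1 v2 z s)
      = cf N f fun z => cf N g fun s => cf N d fun x => cf N a fun v1 => cf N b fun v2 =>
        cf N c fun v3 => B x v1 v2 v3 z s := by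
    intro B f g a b c d
    refine cf_congr fun z => cf_congr fun s => ?_
    exact (cf_rot4 N d a b c (fun v3 x v1 v2 => B v3 x v1 v2 z s)).symm
  have pA : ∀ a b c z s, IsP M (fun x => A x a b c z s) := by
    intro a b c z s
    have h := ((p1 a b c 1 z s).sub (p1 a b c 1 0 s)).sub ((p1 a b c 0 z s).sub (p1 a b c 0 0 s))
    have e : (fun x => A x a b c z s) = fun x => (G x a b c 1 z s - G x a b c 1 0 s)
        - (G x a b c 0 z s - G x a b c 0 0 s) := by
      funext x
      rw [hA, hA0]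
    rw [e]
    exact h
  refine ⟨k2, ?_, ?_, ?_, ?_⟩
  · intro a b c d f g hf
    rw [k1 a b c d f g hf, k1 d a b c f g hf, ← rot A f g a b c d]
    refine cf_congr fun z => cf_congr fun s => cf_congr fun x => cf_congr fun v1 =>
      cf_congr fun v2 => cf_congr fun v3 => ?_
    exact cyc x v1 v2 v3 z s
  · intro b c d f g hf
    rw [kC f g 0 b c d hf, k0 d 0 b c f g hf, k0 0 b c d f g hf, ← rot A0 f g 0 b c d]
    simp only [cf_add, cf_sub, cf_mul, cf_zero hN1, zero_mul, add_zero]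
  · intro a b c d f g hf
    rw [kC f g (a + 1) b c d hf, k0 d (a + 1) b c f g hf, k0 (a + 1) b c d f g hf,
      k1 a b c d f g hf, ← rot A0 f g (a + 1) b c d]
    simp only [cf_add, cf_sub, cf_mul]
    congr 1
    refine cf_congr fun z => cf_congr fun s => ?_
    exact cf_succ hM (IsP.cf N b fun v1 => IsP.cf N c fun v2 => IsP.cf N d fun v3 =>
      pA v1 v2 v3 z s) a
  · intro b c d
    have h : ∀ v1 v2 v3, G 0 v1 v2 v3 0 0 0 = G v3 0 v1 v2 0 0 0 := by
      intro v1 v2 v3
      have h := hE 0 v1 v2 v3 0 0 0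
      rw [add_zero, neg_zero, sub_self] at h
      linarith
    unfold c7
    simp only [cf_zero hN1]
    rw [cf_rot3 N d b c (fun v3 v1 v2 => G v3 0 v1 v2 0 0 0)]
    refine cf_congr fun v1 => cf_congr fun v2 => cf_congr fun v3 => ?_
    exact h v1 v2 v3

end Pent.E6
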