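import Pool.Agent.Lib.MP_a57f33_nt.PN.ED6A

/-!
# Pentagon project (MP_a57f33_nt): (ED) for n = 6, from the two steps to the functions
-/

namespace Pent.E6

/-- step A: the coefficients with positive first exponent vanish -/
def S_A : Prop :=
  ∀ (G : ℕ → ℕ → ℕ → ℕ → ℕ → ℕ → ℕ → ℚ) (C C' : ℕ → ℕ → ℕ → ℕ → ℕ → ℕ → ℚ),
    (∀ f g a b c d, C f g a b c d = C f a b c d g) →
    (∀ f g a b c d, C' f g a b c d = C' f a b c d g) →
    (∀ a b c d e f g, 1 ≤ f → 2 ≤ e → G a b c d e f g = 0) →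
    (∀ a b c d f g, 1 ≤ f → G a b c d 1 f g = G d a b c 1 f g) →
    (∀ b c d f g, 1 ≤ f → C f g 0 b c d = G d 0 b c 0 f g - G 0 b c d 0 f g) →
    (∀ a b c d f g, 1 ≤ f → C f g (a + 1) b c d
      = G d (a + 1) b c 0 f g - G (a + 1) b c d 0 f g + G a b c d 1 f g) →
    (∀ a b c d e f g, 1 ≤ c → 2 ≤ b → G a b c d e f g = 0) →
    (∀ a c d e f g, 1 ≤ c → G a 1 c d e f g = G g 1 c d a e f) →
    (∀ c d e f g, 1 ≤ c → C' c d 0 e f g = G g 0 c d 0 e f - G 0 0 c d e f g) →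
    (∀ a c d e f g, 1 ≤ c → C' c d (a + 1) e f g
      = G g 0 c d (a + 1) e f - G (a + 1) 0 c d e f g + G a 1 c d e f g) →
    (∀ b c d, G 0 b c d 0 0 0 = G d 0 b c 0 0 0) →
    (∀ e f g, G 0 0 0 0 e f g = G g 0 0 0 0 e f) →
    ∀ f g a b c d, 1 ≤ f → C f g a b c d = 0

/-- step B: the case of functions `C`, `C'` without the first variable -/
def S_B : Prop :=
  ∀ (C C' : ℚ → ℚ → ℚ → ℚ → ℚ → ℚ) (G : ℚ → ℚ → ℚ → ℚ → ℚ → ℚ → ℚ → ℚ),
    (∃ F : MvPolynomial ℕ ℚ, ∀ a b c d e,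
      C a b c d e = MvPolynomial.eval (fun i => [a, b, c, d, e].getD i 0) F) →
    (∃ F : MvPolynomial ℕ ℚ, ∀ a b c d e,
      C' a b c d e = MvPolynomial.eval (fun i => [a, b, c, d, e].getD i 0) F) →
    (∃ F : MvPolynomial ℕ ℚ, ∀ x v1 v2 v3 u1 u2 u3,
      G x v1 v2 v3 u1 u2 u3
        = MvPolynomial.eval (fun i => [x, v1, v2, v3, u1, u2, u3].getD i 0) F) →
    (∀ a b c d e, C a b c d e = C b c d e a) →
    (∀ a b c d e, C' a b c d e = C' b c d e a) →
    (∀ x v1 v2 v3 u1 u2 u3, G x v1 v2 v3 u1 u2 u3 - G v3 x v1 v2 (u1 + x) u2 u3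
      = C (x + u1) (-u1) v1 v2 v3 - C u3 x v1 v2 v3) →
    (∀ x v1 v2 v3 u1 u2 u3, G x v1 v2 v3 u1 u2 u3 - G u3 (x + v1) v2 v3 x u1 u2
      = C' (x + v1) (-v1) u1 u2 u3 - C' v3 x u1 u2 u3) →
    (∀ a b c d e, C a b c d e = C 0 0 0 0 0) ∧ (∀ a b c d e, C' a b c d e = C' 0 0 0 0 0)

theorem c6_complete {N : ℕ} {K : ℚ → ℚ → ℚ → ℚ → ℚ → ℚ → ℚ}
    (p0 : ∀ s x a b c, IsP N (fun z => K z s x a b c))
    (p1 : ∀ z x a b c, IsP N (fun s => K z s x a b c))
    (p2 : ∀ z s a b c, IsP N (fun x => K z s x a b c))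
    (p3 : ∀ z s x b c, IsP N (fun a => K z s x a b c))
    (p4 : ∀ z s x a c, IsP N (fun b => K z s x a b c))
    (p5 : ∀ z s x a b, IsP N (fun c => K z s x a b c))
    (h : ∀ f g a b c d, c6 N K f g a b c d = 0) : ∀ z s x a b c, K z s x a b c = 0 := by
  have h1 : ∀ z g a b c d, (cf N g fun s => cf N a fun x => cf N b fun v1 => cf N c fun v2 =>
      cf N d fun v3 => K z s x v1 v2 v3) = 0 := fun z g a b c d =>
    cf_complete (IsP.cf N g fun s => IsP.cf N a fun x => IsP.cf N b fun v1 => IsP.cf N c fun v2 =>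
      IsP.cf N d fun v3 => p0 s x v1 v2 v3) (fun f => h f g a b c d) z
  have h2 : ∀ z s a b c d, (cf N a fun x => cf N b fun v1 => cf N c fun v2 =>
      cf N d fun v3 => K z s x v1 v2 v3) = 0 := fun z s a b c d =>
    cf_complete (IsP.cf N a fun x => IsP.cf N b fun v1 => IsP.cf N c fun v2 =>
      IsP.cf N d fun v3 => p1 z x v1 v2 v3) (fun g => h1 z g a b c d) s
  have h3 : ∀ z s x b c d, (cf N b fun v1 => cf N c fun v2 =>
      cf N d fun v3 => K z s x v1 v2 v3) = 0 := fun z s x b c d =>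
    cf_complete (IsP.cf N b fun v1 => IsP.cf N c fun v2 =>
      IsP.cf N d fun v3 => p2 z s v1 v2 v3) (fun a => h2 z s a b c d) x
  have h4 : ∀ z s x v1 c d, (cf N c fun v2 => cf N d fun v3 => K z s x v1 v2 v3) = 0 :=
    fun z s x v1 c d =>
    cf_complete (IsP.cf N c fun v2 => IsP.cf N d fun v3 => p3 z s x v2 v3)
      (fun b => h3 z s x b c d) v1
  have h5 : ∀ z s x v1 v2 d, (cf N d fun v3 => K z s x v1 v2 v3) = 0 :=
    fun z s x v1 v2 d =>
    cf_complete (IsP.cf N d fun v3 => p4 z s x v1 v3) (fun c => h4 z s x v1 c d) v2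
  exact fun z s x v1 v2 v3 => cf_complete (p5 z s x v1 v2) (fun d => h5 z s x v1 v2 d) v3

/-- if the coefficients with `f ≥ 1` vanish, the first variable does not occur -/
theorem noz {C : ℚ → ℚ → ℚ → ℚ → ℚ → ℚ → ℚ}
    {M N : ℕ} (hMN : M ≤ N) (hN : 1 ≤ N)
    (pM : ∀ (u : ℕ → ℚ) (k : ℕ), IsP M (fun t => (fun e : ℕ → ℚ =>
      C (e 0) (e 1) (e 2) (e 3) (e 4) (e 5)) (Function.update u k t)))
    (h : ∀ f g a b c d, 1 ≤ f → c6 N C f g a b c d = 0) :
    ∀ z s x a b c, C z s x a b c = C 0 s x a b c := by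
  have q0 : ∀ s x a b c, IsP N (fun z => C z s x a b c) := fun s x a b c => by
    simpa using (pM (fun i => [0, s, x, a, b, c].getD i 0) 0).mono hMN
  have q1 : ∀ z x a b c, IsP N (fun s => C z s x a b c) := fun z x a b c => by
    simpa using (pM (fun i => [z, 0, x, a, b, c].getD i 0) 1).mono hMN
  have q2 : ∀ z s a b c, IsP N (fun x => C z s x a b c) := fun z s a b c => by
    simpa using (pM (fun i => [z, s, 0, a, b, c].getD i 0) 2).mono hMN
  have q3 : ∀ z s x b c, IsP N (fun a => C z s x a b c) := fun z s x b c => by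
    simpa using (pM (fun i => [z, s, x, 0, b, c].getD i 0) 3).mono hMN
  have q4 : ∀ z s x a c, IsP N (fun b => C z s x a b c) := fun z s x a c => by
    simpa using (pM (fun i => [z, s, x, a, 0, c].getD i 0) 4).mono hMN
  have q5 : ∀ z s x a b, IsP N (fun c => C z s x a b c) := fun z s x a b => by
    simpa using (pM (fun i => [z, s, x, a, b, 0].getD i 0) 5).mono hMN
  have cst : ∀ c : ℚ, IsP N (fun _ => c) := fun c =>
    ⟨Polynomial.C c, lt_of_le_of_lt Polynomial.degree_C_le (by exact_mod_cast hN),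
      fun t => by simp⟩
  intro z s x a b c
  have hK := c6_complete (N := N) (K := fun z s x a b c => C z s x a b c - C 0 s x a b c)
    (fun s x a b c => (q0 s x a b c).sub (cst _))
    (fun z x a b c => (q1 z x a b c).sub (q1 0 x a b c))
    (fun z s a b c => (q2 z s a b c).sub (q2 0 s a b c))
    (fun z s x b c => (q3 z s x b c).sub (q3 0 s x b c))
    (fun z s x a c => (q4 z s x a c).sub (q4 0 s x a c))
    (fun z s x a b => (q5 z s x a b).sub (q5 0 s x a b)) ?_ z s x a b c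
  · exact sub_eq_zero.mp hK
  · intro f g a b c d
    rcases Nat.eq_zero_or_pos f with rfl | hf
    · unfold c6
      rw [cf_zero hN]
      simp only [sub_self]
      unfold cf
      simp
    · have h0 : c6 N (fun _ s x v1 v2 v3 => C 0 s x v1 v2 v3) f g a b c d = 0 := by
        unfold c6
        exact cf_const hN _ f hf
      have h1 : c6 N (fun z s x a b c => C z s x a b c - C 0 s x a b c) f g a b c d
          = c6 N C f g a b c d - c6 N (fun _ s x v1 v2 v3 => C 0 s x v1 v2 v3) f g a b c d := by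
        unfold c6
        simp only [cf_sub]
      rw [h1, h0, h f g a b c d hf, sub_zero]

/-- if `C` is constant then `G` does not depend on `u1` -/
theorem nou (G : ℚ → ℚ → ℚ → ℚ → ℚ → ℚ → ℚ → ℚ)
    (p1 : ∀ a b c t z s, IsP1 (fun x => G x a b c t z s))
    (p2 : ∀ x a b c z s, IsP1 (fun t => G x a b c t z s))
    (h : ∀ x a b c t z s, G x a b c t z s = G c x a b (t + x) z s) :
    ∀ x a b c t z s, G x a b c t z s = G x a b c 0 z s := by
  have w4 : ∀ x a b c t z s, G x a b c t z s = G x a b c (t + (x + c + b + a)) z s := by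
    intro x a b c t z s
    rw [h x a b c t z s, h c x a b (t + x) z s, h b c x a (t + x + c) z s,
      h a b c x (t + x + c + b) z s]
    congr 1
    ring
  have g0 : ∀ x a b c t z s, x + c + b + a ≠ 0 → G x a b c t z s = G x a b c 0 z s :=
    fun x a b c t z s hS => (p2 x a b c z s).per _ hS (fun t => w4 x a b c t z s) t
  intro x a b c t z s
  have h := IsP1.zero ((p1 a b c t z s).sub (p1 a b c 0 z s))
      {y | y ≠ -(c + b + a)} (infinite_ne _) (fun y hy => by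
        have : y + c + b + a ≠ 0 := fun h0 => hy (by linarith)
        rw [g0 y a b c t z s this, sub_self]) x
  linarith

theorem ED6fn (hSA : S_A) (hSB : S_B)
    (C C' : ℚ → ℚ → ℚ → ℚ → ℚ → ℚ → ℚ) (G : ℚ → ℚ → ℚ → ℚ → ℚ → ℚ → ℚ → ℚ)
    (pC : IsPoly (fun e => C (e 0) (e 1) (e 2) (e 3) (e 4) (e 5)))
    (pC' : IsPoly (fun e => C' (e 0) (e 1) (e 2) (e 3) (e 4) (e 5)))
    (pG : IsPoly (fun e => G (e 0) (e 1) (e 2) (e 3) (e 4) (e 5) (e 6)))
    (cC : ∀ z a b c d e, C z a b c d e = C z b c d e a)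
    (cC' : ∀ z a b c d e, C' z a b c d e = C' z b c d e a)
    (h1 : E1 C G) (h2 : E1 C' (fun x v1 v2 v3 u1 u2 u3 => G x u1 u2 u3 v1 v2 v3)) :
    (∀ z a b c d e, C z a b c d e = C 0 0 0 0 0 0) ∧
    (∀ z a b c d e, C' z a b c d e = C' 0 0 0 0 0 0) ∧
    (∀ x a b c t z s, G x a b c t z s = G 0 0 0 0 0 0 0) := by
  obtain ⟨M1, hM1⟩ := pC.deg
  obtain ⟨M2, hM2⟩ := pC'.deg
  obtain ⟨M3, hM3⟩ := pG.deg
  obtain ⟨N, hN1, hN2, hN3, hN4⟩ : ∃ N, M1 ≤ N ∧ M2 ≤ N ∧ M3 < N ∧ 2 ≤ N :=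
    ⟨M1 + M2 + M3 + 2, by omega, by omega, by omega, by omega⟩
  have hN : 1 ≤ N := by omega
  have g0 : ∀ a b c t z s, IsP M3 (fun x => G x a b c t z s) := fun a b c t z s => by
    simpa using hM3 (fun i => [0, a, b, c, t, z, s].getD i 0) 0
  have g1 : ∀ x b c t z s, IsP M3 (fun a => G x a b c t z s) := fun x b c t z s => by
    simpa using hM3 (fun i => [x, 0, b, c, t, z, s].getD i 0) 1
  have g4 : ∀ x a b c z s, IsP M3 (fun t => G x a b c t z s) := fun x a b c z s => by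
    simpa using hM3 (fun i => [x, a, b, c, 0, z, s].getD i 0) 4
  obtain ⟨van, cyc, al0, al1, z0⟩ := sideC C G M3 N hN3 hN4 g0
    (fun x a b c z s => (g4 x a b c z s).one) h1
  obtain ⟨van', cyc', al0', al1', z0'⟩ := sideC C'
    (fun x v1 v2 v3 u1 u2 u3 => G x u1 u2 u3 v1 v2 v3) M3 N hN3 hN4
    (fun a b c t z s => g0 t z s a b c) (fun x a b c z s => (g1 x z s a b c).one) h2
  simp only [c7_mirror] at van' cyc' al0' al1' z0'
  have kC := hSA (c7 N G) (c6 N C) (c6 N C') (c6_cyc N C cC) (c6_cyc N C' cC')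
    van cyc al0 al1
    (fun a b c d e f g hc hb => van' a e f g b c d hc hb)
    (fun a c d e f g hc => cyc' a e f g c d hc)
    (fun c d e f g hc => al0' e f g c d hc)
    (fun a c d e f g hc => al1' a e f g c d hc) z0 (fun e f g => z0' e f g)
  obtain ⟨G', hG'⟩ : ∃ G' : ℕ → ℕ → ℕ → ℕ → ℕ → ℕ → ℕ → ℚ, ∀ a b c d e f g,
      G' a b c d e f g = c7 N G a e f g b c d := ⟨_, fun _ _ _ _ _ _ _ => rfl⟩
  have kC' := hSA G' (c6 N C') (c6 N C)
    (c6_cyc N C' cC') (c6_cyc N C cC)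
    (fun a b c d e f g hf he => by rw [hG']; exact van' a b c d e f g hf he)
    (fun a b c d f g hf => by rw [hG', hG']; exact cyc' a b c d f g hf)
    (fun b c d f g hf => by rw [hG', hG']; exact al0' b c d f g hf)
    (fun a b c d f g hf => by
      rw [hG', hG', hG']; exact al1' a b c d f g hf)
    (fun a b c d e f g hc hb => by rw [hG']; exact van a e f g b c d hc hb)
    (fun a c d e f g hc => by rw [hG', hG']; exact cyc a e f g c d hc)
    (fun c d e f g hc => by rw [hG', hG']; exact al0 e f g c d hc)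
    (fun a c d e f g hc => by
      rw [hG', hG', hG']; exact al1 a e f g c d hc)
    (fun b c d => by rw [hG', hG']; exact z0' b c d)
    (fun e f g => by rw [hG', hG']; exact z0 e f g)
  have nz := noz hN1 hN hM1 kC
  have nz' := noz hN2 hN hM2 kC'
  -- step B
  obtain ⟨FC, hFC⟩ := pC
  obtain ⟨FC', hFC'⟩ := pC'
  obtain ⟨FG, hFG⟩ := pG
  have c5 : ∀ {K : ℚ → ℚ → ℚ → ℚ → ℚ → ℚ → ℚ}, IsPoly (fun e => K (e 0) (e 1) (e 2) (e 3)
      (e 4) (e 5)) → ∃ F : MvPolynomial ℕ ℚ, ∀ a b c d e,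
      K 0 a b c d e = MvPolynomial.eval (fun i => [a, b, c, d, e].getD i 0) F := by
    intro K hK
    obtain ⟨F, hF⟩ := hK.comp (g := fun i e => if i = 0 then 0 else e (i - 1)) (by
      intro i
      by_cases hi : i = 0
      · subst hi
        simpa using IsPoly.const 0
      · simpa [hi] using IsPoly.var (i - 1))
    refine ⟨F, fun a b c d e => ?_⟩
    have := hF (fun i => [a, b, c, d, e].getD i 0)
    simpa using this
  obtain ⟨eC, eC'⟩ := hSB (fun a b c d e => C 0 a b c d e) (fun a b c d e => C' 0 a b c d e) G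
    (c5 ⟨FC, hFC⟩) (c5 ⟨FC', hFC'⟩)
    ⟨FG, fun x v1 v2 v3 u1 u2 u3 => by
      have := hFG (fun i => [x, v1, v2, v3, u1, u2, u3].getD i 0)
      simpa using this⟩
    (fun a b c d e => cC 0 a b c d e) (fun a b c d e => cC' 0 a b c d e)
    (fun x v1 v2 v3 u1 u2 u3 => by
      have h := h1 x v1 v2 v3 u1 u2 u3
      rw [nz u3, nz u2] at h
      exact h)
    (fun x v1 v2 v3 u1 u2 u3 => by
      have h := h2 x u1 u2 u3 v1 v2 v3
      rw [nz' v3, nz' v2, add_comm v1 x] at h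
      exact h)
  have kc : ∀ z a b c d e, C z a b c d e = C 0 0 0 0 0 0 := fun z a b c d e => by
    rw [nz]; exact eC a b c d e
  have kc' : ∀ z a b c d e, C' z a b c d e = C' 0 0 0 0 0 0 := fun z a b c d e => by
    rw [nz']; exact eC' a b c d e
  refine ⟨kc, kc', ?_⟩
  -- `G`
  have r1 : ∀ x a b c t z s, G x a b c t z s = G c x a b (t + x) z s := by
    intro x a b c t z s
    have h := h1 x a b c t z s
    rw [kc s, kc z] at h
    linarith
  have r2 : ∀ x a b c t z s, G x t z s a b c = G c (t + x) z s x a b := by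
    intro x a b c t z s
    have h := h2 x a b c t z s
    rw [kc' s, kc' z] at h
    beta_reduce at h
    linarith
  have f1 := nou G (fun a b c t z s => (g0 a b c t z s).one)
    (fun x a b c z s => (g4 x a b c z s).one) r1
  have f2 := nou (fun x v1 v2 v3 u1 u2 u3 => G x u1 u2 u3 v1 v2 v3)
    (fun a b c t z s => (g0 t z s a b c).one) (fun x a b c z s => (g1 x z s a b c).one) r2
  beta_reduce at f2
  -- the cyclic symmetry moves every variable to `v1`
  have s1 : ∀ x a b c t z s, G x a b c t z s = G c x a b 0 z s := by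
    intro x a b c t z s
    rw [r1 x a b c t z s, f1 c x a b (t + x) z s]
  have s2 : ∀ x a b c t z s, G x t z s a b c = G c 0 z s x a b := by
    intro x a b c t z s
    rw [r2 x a b c t z s, f2 c x a b (t + x) z s]
  have q1 : ∀ x a b c t z s, G x a b c t z s = G 0 0 0 0 0 z s := by
    intro x a b c t z s
    rw [s1 x a b c t z s, f2 c 0 z s x a b, s1 c 0 a b 0 z s, f2 b 0 z s c 0 a,
      s1 b 0 0 a 0 z s, f2 a 0 z s b 0 0, s1 a 0 0 0 0 z s, f2 0 0 z s a 0 0]
  have q2 : ∀ z s, G 0 0 0 0 0 z s = G 0 0 0 0 0 0 0 := by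
    intro z s
    rw [s2 0 0 z s 0 0 0, q1 s 0 0 0 0 0 z, s2 0 0 0 z 0 0 0, q1 z 0 0 0 0 0 0]
  intro x a b c t z s
  rw [q1, q2]

end Pent.E6
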