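import Pool.Agent.Lib.MP_a57f33_nt.PN.ED45
import Pool.Agent.Lib.MP_a57f33_nt.PN.ED6B

/-!
# Pentagon project (MP_a57f33_nt): (ED) for n = 6, all degrees
-/

namespace Pent.E6

variable {y : ℚ → List ℚ → List ℚ → ℚ}

/-- the functions attached to the shapes are polynomial -/
theorem polyY {p q : ℕ} (hP : PolyED y) (W : (ℕ → ℚ) → ℚ) (A B : (ℕ → ℚ) → List ℚ)
    (hA : ∀ e, (A e).length = p) (hB : ∀ e, (B e).length = q)
    (pW : IsPoly W) (pA : ∀ i, IsPoly (fun e => (A e).getD i 0))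
    (pB : ∀ i, IsPoly (fun e => (B e).getD i 0)) : IsPoly (fun e => y (W e) (A e) (B e)) := by
  obtain ⟨F, hF⟩ := hP p q
  have h1 : ∀ e, y (W e) (A e) (B e)
      = MvPolynomial.eval (fun i => (W e :: (A e ++ B e)).getD i 0) F := by
    intro e
    have h := hF (W e :: (A e ++ B e)) (by simp [hA, hB]; omega)
    rw [← h]
    simp only [List.headD_cons, List.drop_succ_cons, List.drop_zero]
    rw [← hA e, List.take_left, List.drop_left]
  have h2 : IsPoly (fun e => (fun f : ℕ → ℚ => MvPolynomial.eval f F)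
      (fun i => (W e :: (A e ++ B e)).getD i 0)) := by
    refine IsPoly.comp (F := fun f : ℕ → ℚ => MvPolynomial.eval f F) ⟨F, fun _ => rfl⟩
      (g := fun i e => (W e :: (A e ++ B e)).getD i 0) ?_
    intro i
    rcases i with _ | i
    · simpa using pW
    · by_cases hi : i < p
      · have e1 : (fun e => (W e :: (A e ++ B e)).getD (i + 1) 0) = fun e => (A e).getD i 0 := by
          funext e
          rw [List.getD_cons_succ, List.getD_append _ _ _ _ (by rw [hA]; exact hi)]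
        rw [e1]
        exact pA i
      · have e1 : (fun e => (W e :: (A e ++ B e)).getD (i + 1) 0)
            = fun e => (B e).getD (i - p) 0 := by
          funext e
          rw [List.getD_cons_succ, List.getD_append_right _ _ _ _ (by rw [hA]; omega), hA]
        rw [e1]
        exact pB (i - p)
  have : (fun e => y (W e) (A e) (B e)) = fun e => (fun f : ℕ → ℚ => MvPolynomial.eval f F)
      (fun i => (W e :: (A e ++ B e)).getD i 0) := by
    funext e
    exact h1 e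
  rw [this]
  exact h2

theorem getD2 {a b : (ℕ → ℚ) → ℚ} (ha : IsPoly a) (hb : IsPoly b) (i : ℕ) :
    IsPoly (fun e => ([a e, b e] : List ℚ).getD i 0) := by
  rcases i with _ | _ | i
  · simpa using ha
  · simpa using hb
  · simpa using IsPoly.const 0

theorem getD3 {a b c : (ℕ → ℚ) → ℚ} (ha : IsPoly a) (hb : IsPoly b) (hc : IsPoly c) (i : ℕ) :
    IsPoly (fun e => ([a e, b e, c e] : List ℚ).getD i 0) := by
  rcases i with _ | _ | _ | i
  · simpa using ha
  · simpa using hb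
  · simpa using hc
  · simpa using IsPoly.const 0

theorem getD4 {a b c d : (ℕ → ℚ) → ℚ} (ha : IsPoly a) (hb : IsPoly b) (hc : IsPoly c)
    (hd : IsPoly d) (i : ℕ) :
    IsPoly (fun e => ([a e, b e, c e, d e] : List ℚ).getD i 0) := by
  rcases i with _ | _ | _ | _ | i
  · simpa using ha
  · simpa using hb
  · simpa using hc
  · simpa using hd
  · simpa using IsPoly.const 0

theorem ED6 (hSA : S_A) (hSB : S_B) (hP : PolyED y) (hE : EDeq y 6) : EDconst y 6 := by
  have h52 : ∀ a0 a1 a2 a3 a4 b0 b1,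
      y a0 [a1, a2, a3, a4] [b0, b1] = y (a4 + b0) [a0, a1, a2, a3] [b0, b1] := by
    intro a0 a1 a2 a3 a4 b0 b1
    have h := hE [a0, a1, a2, a3, a4] [b0, b1] (by simp) (by simp) (by simp)
    simp only [EDsum, List.length_cons, List.length_nil, List.headD_cons, List.tail_cons] at h
    norm_num [List.dropLast, List.getLastD] at h
    linarith
  have h25 : ∀ a0 a1 b0 b1 b2 b3 b4,
      y (a1 + b0) [a0, a1] [b1, b2, b3, b4] = y b4 [a0, a1] [b0, b1, b2, b3] := by
    intro a0 a1 b0 b1 b2 b3 b4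
    have h := hE [a0, a1] [b0, b1, b2, b3, b4] (by simp) (by simp) (by simp)
    simp only [EDsum, List.length_cons, List.length_nil, List.headD_cons, List.tail_cons] at h
    norm_num [List.dropLast, List.getLastD] at h
    linarith
  have h43 : ∀ a0 a1 a2 a3 b0 b1 b2,
      y a0 [a1, a2, a3] [b0, b1, b2] - y (a3 + b0) [a0, a1, a2] [b0, b1, b2]
        + y (a3 + b0) [a0, a1, a2, a3] [b1, b2] - y b2 [a0, a1, a2, a3] [b0, b1] = 0 := by
    intro a0 a1 a2 a3 b0 b1 b2
    have h := hE [a0, a1, a2, a3] [b0, b1, b2] (by simp) (by simp) (by simp)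
    simp only [EDsum, List.length_cons, List.length_nil, List.headD_cons, List.tail_cons] at h
    norm_num [List.dropLast, List.getLastD] at h
    linarith
  have h34 : ∀ a0 a1 a2 b0 b1 b2 b3,
      y a0 [a1, a2] [b0, b1, b2, b3] - y (a2 + b0) [a0, a1] [b0, b1, b2, b3]
        + y (a2 + b0) [a0, a1, a2] [b1, b2, b3] - y b3 [a0, a1, a2] [b0, b1, b2] = 0 := by
    intro a0 a1 a2 b0 b1 b2 b3
    have h := hE [a0, a1, a2] [b0, b1, b2, b3] (by simp) (by simp) (by simp)
    simp only [EDsum, List.length_cons, List.length_nil, List.headD_cons, List.tail_cons] at h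
    norm_num [List.dropLast, List.getLastD] at h
    linarith
  have hp : PolyL 7 (fun l => y (l.headD 0) ((l.drop 1).take 2) ((l.drop 1).drop 2)) := hP 2 4
  have hq : PolyL 7 (fun l => y (l.headD 0) ((l.drop 1).take 4) ((l.drop 1).drop 4)) := hP 4 2
  -- translation invariances
  have T1 : ∀ s w a0 a1 a2 a3 b0 b1,
      y (w + s) [a0 + s, a1 + s, a2 + s, a3 + s] [b0, b1] = y w [a0, a1, a2, a3] [b0, b1] := by
    have step : ∀ w a0 a1 a2 a3 b0 b1,
        y (w + b0) [a0 + b0, a1 + b0, a2 + b0, a3 + b0] [b0, b1]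
        = y w [a0, a1, a2, a3] [b0, b1] := by
      intro w a0 a1 a2 a3 b0 b1
      rw [h52 w a0 a1 a2 a3 b0 b1, h52 (a3 + b0) w a0 a1 a2 b0 b1,
        h52 (a2 + b0) (a3 + b0) w a0 a1 b0 b1, h52 (a1 + b0) (a2 + b0) (a3 + b0) w a0 b0 b1,
        h52 (a0 + b0) (a1 + b0) (a2 + b0) (a3 + b0) w b0 b1]
    have it : ∀ (k : ℕ) w a0 a1 a2 a3 b0 b1,
        y (w + k * b0) [a0 + k * b0, a1 + k * b0, a2 + k * b0, a3 + k * b0] [b0, b1]
          = y w [a0, a1, a2, a3] [b0, b1] := by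
      intro k
      induction k with
      | zero => intro w a0 a1 a2 a3 b0 b1; simp
      | succ k ih =>
          intro w a0 a1 a2 a3 b0 b1
          rw [← ih w a0 a1 a2 a3 b0 b1,
            ← step (w + k * b0) (a0 + k * b0) (a1 + k * b0) (a2 + k * b0) (a3 + k * b0)]
          push_cast
          ring_nf
    have gen : ∀ s w a0 a1 a2 a3 b0 b1, b0 ≠ 0 →
        y (w + s) [a0 + s, a1 + s, a2 + s, a3 + s] [b0, b1] = y w [a0, a1, a2, a3] [b0, b1] := by
      intro s w a0 a1 a2 a3 b0 b1 hb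
      have := poly_agree hq [w, a0, a1, a2, a3, b0, b1] [1, 1, 1, 1, 1, 0, 0]
        [w, a0, a1, a2, a3, b0, b1]
        [0, 0, 0, 0, 0, 0, 0] rfl rfl rfl rfl _ (mul_infinite b0 hb) (by
          rintro _ ⟨k, rfl⟩
          simpa [ln] using it k w a0 a1 a2 a3 b0 b1) s
      simpa [ln] using this
    intro s w a0 a1 a2 a3 b0 b1
    by_cases hb : b0 = 0
    · subst hb
      have := poly_agree hq [w + s, a0 + s, a1 + s, a2 + s, a3 + s, 0, b1] [0, 0, 0, 0, 0, 1, 0]
        [w, a0, a1, a2, a3, 0, b1] [0, 0, 0, 0, 0, 1, 0] rfl rfl rfl rfl _ ne_infinite (by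
          intro t ht
          simpa [ln] using gen s w a0 a1 a2 a3 t b1 ht) 0
      simpa [ln] using this
    · exact gen s w a0 a1 a2 a3 b0 b1 hb
  have T2 : ∀ s w a0 a1 b0 b1 b2 b3,
      y (w + s) [a0, a1] [b0 + s, b1 + s, b2 + s, b3 + s] = y w [a0, a1] [b0, b1, b2, b3] := by
    have step : ∀ w a0 a1 b0 b1 b2 b3, y (w + a1) [a0, a1] [b0 + a1, b1 + a1, b2 + a1, b3 + a1]
        = y w [a0, a1] [b0, b1, b2, b3] := by
      intro w a0 a1 b0 b1 b2 b3
      have h1 := h25 a0 a1 b0 b1 b2 b3 w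
      have h2 := h25 a0 a1 b1 b2 b3 w (a1 + b0)
      have h3 := h25 a0 a1 b2 b3 w (a1 + b0) (a1 + b1)
      have h4 := h25 a0 a1 b3 w (a1 + b0) (a1 + b1) (a1 + b2)
      have h5 := h25 a0 a1 w (a1 + b0) (a1 + b1) (a1 + b2) (a1 + b3)
      rw [add_comm w a1, add_comm b0 a1, add_comm b1 a1, add_comm b2 a1, add_comm b3 a1,
        h5, h4, h3, h2, h1]
    have it : ∀ (k : ℕ) w a0 a1 b0 b1 b2 b3,
        y (w + k * a1) [a0, a1] [b0 + k * a1, b1 + k * a1, b2 + k * a1, b3 + k * a1]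
          = y w [a0, a1] [b0, b1, b2, b3] := by
      intro k
      induction k with
      | zero => intro w a0 a1 b0 b1 b2 b3; simp
      | succ k ih =>
          intro w a0 a1 b0 b1 b2 b3
          rw [← ih w a0 a1 b0 b1 b2 b3,
            ← step (w + k * a1) a0 a1 (b0 + k * a1) (b1 + k * a1) (b2 + k * a1) (b3 + k * a1)]
          push_cast
          ring_nf
    have gen : ∀ s w a0 a1 b0 b1 b2 b3, a1 ≠ 0 →
        y (w + s) [a0, a1] [b0 + s, b1 + s, b2 + s, b3 + s]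
          = y w [a0, a1] [b0, b1, b2, b3] := by
      intro s w a0 a1 b0 b1 b2 b3 hb
      have := poly_agree hp [w, a0, a1, b0, b1, b2, b3] [1, 0, 0, 1, 1, 1, 1]
        [w, a0, a1, b0, b1, b2, b3]
        [0, 0, 0, 0, 0, 0, 0] rfl rfl rfl rfl _ (mul_infinite a1 hb) (by
          rintro _ ⟨k, rfl⟩
          simpa [ln] using it k w a0 a1 b0 b1 b2 b3) s
      simpa [ln] using this
    intro s w a0 a1 b0 b1 b2 b3
    by_cases hb : a1 = 0
    · subst hb
      have := poly_agree hp [w + s, a0, 0, b0 + s, b1 + s, b2 + s, b3 + s] [0, 0, 1, 0, 0, 0, 0]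
        [w, a0, 0, b0, b1, b2, b3] [0, 0, 1, 0, 0, 0, 0] rfl rfl rfl rfl _ ne_infinite (by
          intro t ht
          simpa [ln] using gen s w a0 t b0 b1 b2 b3 ht) 0
      simpa [ln] using this
    · exact gen s w a0 a1 b0 b1 b2 b3 hb
  -- the functions
  obtain ⟨C, hCd⟩ : ∃ C : ℚ → ℚ → ℚ → ℚ → ℚ → ℚ → ℚ, ∀ z c1 c2 c3 c4 c5, C z c1 c2 c3 c4 c5
      = y 0 [c2, c2 + c3, c2 + c3 + c4, c2 + c3 + c4 + c5]
        [-(c1 + c2 + c3 + c4 + c5), -(c1 + c2 + c3 + c4 + c5) - z] :=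
    ⟨_, fun _ _ _ _ _ _ => rfl⟩
  obtain ⟨C', hCd'⟩ : ∃ C : ℚ → ℚ → ℚ → ℚ → ℚ → ℚ → ℚ, ∀ z c1 c2 c3 c4 c5, C z c1 c2 c3 c4 c5
      = y (-(c5 + c4 + c3 + c2)) [-(c5 + c4 + c3 + c2 + c1) - z, -(c5 + c4 + c3 + c2 + c1)]
        [0, -c5, -(c5 + c4), -(c5 + c4 + c3)] :=
    ⟨_, fun _ _ _ _ _ _ => rfl⟩
  obtain ⟨G, hGd⟩ : ∃ G : ℚ → ℚ → ℚ → ℚ → ℚ → ℚ → ℚ → ℚ, ∀ x v1 v2 v3 u1 u2 u3,
      G x v1 v2 v3 u1 u2 u3 = y (-(x + v1 + v2 + v3 + u1 + u2 + u3))
        [-(x + v2 + v3 + u1 + u2 + u3), -(x + v3 + u1 + u2 + u3), -(x + u1 + u2 + u3)]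
        [-(x + v1 + v2 + v3), -(x + v1 + v2 + v3 + u3), -(x + v1 + v2 + v3 + u2 + u3)] :=
    ⟨_, fun _ _ _ _ _ _ _ => rfl⟩
  have f42 : ∀ w a0 a1 a2 a3 b0 b1, y w [a0, a1, a2, a3] [b0, b1]
      = C (b0 - b1) (w - b0 - a3) (a0 - w) (a1 - a0) (a2 - a1) (a3 - a2) := by
    intro w a0 a1 a2 a3 b0 b1
    rw [hCd, ← T1 (-w) w a0 a1 a2 a3 b0 b1]
    congr 1
    · ring
    · congr 1
      · ring
      · congr 1
        · ring
        · congr 1
          · ring
          · congr 1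
            ring
    · congr 1
      · ring
      · congr 1
        ring
  have f24 : ∀ w a0 a1 b0 b1 b2 b3, y w [a0, a1] [b0, b1, b2, b3]
      = C' (a1 - a0) (w - a1 - b0) (b3 - w) (b2 - b3) (b1 - b2) (b0 - b1) := by
    intro w a0 a1 b0 b1 b2 b3
    rw [hCd', ← T2 (-b0) w a0 a1 b0 b1 b2 b3]
    congr 1
    · ring
    · congr 1
      · ring
      · congr 1
        ring
    · congr 1
      · ring
      · congr 1
        · ring
        · congr 1
          · ring
          · congr 1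
            ring
  have f33 : ∀ w a0 a1 a2 b0 b1 b2, y w [a0, a1, a2] [b0, b1, b2]
      = G (w - b0 - a2) (a0 - w) (a1 - a0) (a2 - a1) (b2 - w) (b1 - b2) (b0 - b1) := by
    intro w a0 a1 a2 b0 b1 b2
    rw [hGd]
    congr 1
    · ring
    · congr 1
      · ring
      · congr 1
        · ring
        · congr 1
          ring
    · congr 1
      · ring
      · congr 1
        · ring
        · congr 1
          ring
  have cyc : ∀ z a b c d e, C z a b c d e = C z b c d e a := by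
    intro z a b c d e
    have h := h52 0 c (c + d) (c + d + e) (c + d + e + a) (-(a + b + c + d + e))
      (-(a + b + c + d + e) - z)
    rw [f42, f42] at h
    convert h.symm using 6 <;> ring
  have cyc' : ∀ z a b c d e, C' z a b c d e = C' z b c d e a := by
    intro z a b c d e
    have h := h25 (-(a + b + c + d + e) - z) (-(a + b + c + d + e)) 0 (-a) (-(a + e))
      (-(a + e + d)) (-(a + e + d + c))
    rw [f24, f24] at h
    convert h using 6 <;> ring
  have e1 : E1 C G := by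
    intro x a b c t z s
    have h := h43 (-(x + a + b + c + t + z + s)) (-(x + b + c + t + z + s))
      (-(x + c + t + z + s)) (-(x + t + z + s)) (-(x + a + b + c)) (-(x + a + b + c + s))
      (-(x + a + b + c + z + s))
    rw [f33, f33, f42, f42] at h
    ring_nf at h ⊢
    linarith
  have e2 : E1 C' (fun x v1 v2 v3 u1 u2 u3 => G x u1 u2 u3 v1 v2 v3) := by
    intro x u1 u2 u3 v1 v2 v3
    beta_reduce
    -- `w = b3`
    have h := h34 (v1 + (-(x + v1 + v2 + v3 + u1 + u2 + u3)))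
      (v1 + v2 + (-(x + v1 + v2 + v3 + u1 + u2 + u3)))
      (v1 + v2 + v3 + (-(x + v1 + v2 + v3 + u1 + u2 + u3)))
      (u1 + u2 + u3 + (-(x + v1 + v2 + v3 + u1 + u2 + u3)))
      (u1 + u2 + (-(x + v1 + v2 + v3 + u1 + u2 + u3)))
      (u1 + (-(x + v1 + v2 + v3 + u1 + u2 + u3)))
      (-(x + v1 + v2 + v3 + u1 + u2 + u3))
    rw [f33, f33, f24, f24] at h
    ring_nf at h ⊢
    linarith
  have v : ∀ i, IsPoly (fun e => e i) := IsPoly.var
  have pC : IsPoly (fun e => C (e 0) (e 1) (e 2) (e 3) (e 4) (e 5)) := by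
    simp only [hCd]
    refine polyY (p := 4) (q := 2) hP (fun _ => 0) (fun e => [e 2, e 2 + e 3, e 2 + e 3 + e 4,
      e 2 + e 3 + e 4 + e 5]) (fun e => [-(e 1 + e 2 + e 3 + e 4 + e 5),
      -(e 1 + e 2 + e 3 + e 4 + e 5) - e 0]) (fun _ => rfl) (fun _ => rfl) (IsPoly.const 0)
      (getD4 (v 2) ((v 2).add (v 3)) (((v 2).add (v 3)).add (v 4))
        ((((v 2).add (v 3)).add (v 4)).add (v 5)))
      (getD2 (((((v 1).add (v 2)).add (v 3)).add (v 4)).add (v 5)).neg
        ((((((v 1).add (v 2)).add (v 3)).add (v 4)).add (v 5)).neg.sub (v 0)))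
  have pC' : IsPoly (fun e => C' (e 0) (e 1) (e 2) (e 3) (e 4) (e 5)) := by
    simp only [hCd']
    refine polyY (p := 2) (q := 4) hP (fun e => -(e 5 + e 4 + e 3 + e 2))
      (fun e => [-(e 5 + e 4 + e 3 + e 2 + e 1) - e 0, -(e 5 + e 4 + e 3 + e 2 + e 1)])
      (fun e => [0, -e 5, -(e 5 + e 4), -(e 5 + e 4 + e 3)]) (fun _ => rfl) (fun _ => rfl)
      ((((v 5).add (v 4)).add (v 3)).add (v 2)).neg
      (getD2 ((((((v 5).add (v 4)).add (v 3)).add (v 2)).add (v 1)).neg.sub (v 0))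
        (((((v 5).add (v 4)).add (v 3)).add (v 2)).add (v 1)).neg)
      (getD4 (IsPoly.const 0) (v 5).neg ((v 5).add (v 4)).neg (((v 5).add (v 4)).add (v 3)).neg)
  have pG : IsPoly (fun e => G (e 0) (e 1) (e 2) (e 3) (e 4) (e 5) (e 6)) := by
    simp only [hGd]
    refine polyY (p := 3) (q := 3) hP (fun e => -(e 0 + e 1 + e 2 + e 3 + e 4 + e 5 + e 6))
      (fun e => [-(e 0 + e 2 + e 3 + e 4 + e 5 + e 6), -(e 0 + e 3 + e 4 + e 5 + e 6),
        -(e 0 + e 4 + e 5 + e 6)])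
      (fun e => [-(e 0 + e 1 + e 2 + e 3), -(e 0 + e 1 + e 2 + e 3 + e 6),
        -(e 0 + e 1 + e 2 + e 3 + e 5 + e 6)]) (fun _ => rfl) (fun _ => rfl)
      (((((((v 0).add (v 1)).add (v 2)).add (v 3)).add (v 4)).add (v 5)).add (v 6)).neg
      (getD3 ((((((v 0).add (v 2)).add (v 3)).add (v 4)).add (v 5)).add (v 6)).neg
        (((((v 0).add (v 3)).add (v 4)).add (v 5)).add (v 6)).neg
        ((((v 0).add (v 4)).add (v 5)).add (v 6)).neg)
      (getD3 ((((v 0).add (v 1)).add (v 2)).add (v 3)).neg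
        (((((v 0).add (v 1)).add (v 2)).add (v 3)).add (v 6)).neg
        ((((((v 0).add (v 1)).add (v 2)).add (v 3)).add (v 5)).add (v 6)).neg)
  obtain ⟨mC, mC', mG⟩ := ED6fn hSA hSB C C' G pC pC' pG cyc cyc' e1 e2
  intro w w' A A' B B' hA hB hAA hBB hn
  have hcase : (A.length = 4 ∧ B.length = 2) ∨ (A.length = 2 ∧ B.length = 4) ∨
    (A.length = 3 ∧ B.length = 3) := by omega
  have four : ∀ l : List ℚ, l.length = 4 → ∃ a b c d, l = [a, b, c, d] := by
    intro l hl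
    match l, hl with
    | [a, b, c, d], _ => exact ⟨a, b, c, d, rfl⟩
  rcases hcase with ⟨lA, lB⟩ | ⟨lA, lB⟩ | ⟨lA, lB⟩
  · obtain ⟨a0, a1, a2, a3, rfl⟩ := four A lA
    obtain ⟨b0, b1, rfl⟩ := List.length_eq_two.mp lB
    obtain ⟨a0', a1', a2', a3', rfl⟩ := four A' (hAA ▸ lA : A'.length = 4)
    obtain ⟨b0', b1', rfl⟩ := List.length_eq_two.mp (hBB ▸ lB : B'.length = 2)
    rw [f42, f42, mC, mC (b0' - b1')]
  · obtain ⟨a0, a1, rfl⟩ := List.length_eq_two.mp lA
    obtain ⟨b0, b1, b2, b3, rfl⟩ := four B lB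
    obtain ⟨a0', a1', rfl⟩ := List.length_eq_two.mp (hAA ▸ lA : A'.length = 2)
    obtain ⟨b0', b1', b2', b3', rfl⟩ := four B' (hBB ▸ lB : B'.length = 4)
    rw [f24, f24, mC', mC' (a1' - a0')]
  · obtain ⟨a0, a1, a2, rfl⟩ := List.length_eq_three.mp lA
    obtain ⟨b0, b1, b2, rfl⟩ := List.length_eq_three.mp lB
    obtain ⟨a0', a1', a2', rfl⟩ := List.length_eq_three.mp (hAA ▸ lA : A'.length = 3)
    obtain ⟨b0', b1', b2', rfl⟩ := List.length_eq_three.mp (hBB ▸ lB : B'.length = 3)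
    rw [f33, f33, mG, mG (w' - b0' - a2')]

end Pent.E6
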