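import Pool.Agent.Lib.MP_a57f33_nt.PN.Stm2

/-!
# Pentagon project (MP_a57f33_nt), Half II: the assembly
-/

namespace Pent

open Pool.Agent.MP_a57f33_nt.Cyc (shuffle)

section shuffles

variable {α : Type}

theorem shuffle_mem_perm : ∀ (u v w : List α), w ∈ shuffle u v → w.Perm (u ++ v)
  | [], v, w, h => by
      rw [shuffle] at h
      simp at h
      simp [h]
  | a :: u, [], w, h => by
      rw [shuffle] at h
      simp at h
      simp [h]
  | a :: u, b :: v, w, h => by
      rw [shuffle] at h
      simp only [List.mem_append, List.mem_map] at h
      rcases h with ⟨t, ht, rfl⟩ | ⟨t, ht, rfl⟩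
      · exact (shuffle_mem_perm u (b :: v) t ht).cons a
      · have := (shuffle_mem_perm (a :: u) v t ht).cons b
        refine this.trans ?_
        exact (List.perm_middle (a := b) (l₁ := a :: u) (l₂ := v)).symm
termination_by u v => u.length + v.length

end shuffles

/-- the letters of a list of slots -/
def lets {K : Type} (gs : List (List K × List K)) : List (Bool × K) :=
  gs.flatMap fun g => bw g.1 ++ cw g.2

theorem ostep_perm {K : Type} (ws : List (List (Bool × K))) (g : List K × List K)
    (L : List (Bool × K)) (h : ∀ w ∈ ws, w.Perm L) :
    ∀ w ∈ ostep ws g, w.Perm (L ++ (bw g.1 ++ cw g.2)) := by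
  intro w hw
  simp only [ostep, List.mem_flatMap, List.mem_map] at hw
  obtain ⟨w1, hw1, w2, ⟨w3, hw3, hw2⟩, rfl⟩ := hw
  have p1 := h w1 hw1
  have p3 := shuffle_mem_perm _ _ _ hw3
  have p2 := shuffle_mem_perm _ _ _ hw2
  have e : cw g.2 = cw g.2.dropLast ++ cw (g.2.drop (g.2.length - 1)) := by
    unfold cw
    rw [← List.map_append]
    congr 1
    rw [List.dropLast_eq_take, List.take_append_drop]
  rw [e]
  have q1 : w3.Perm (L ++ bw g.1) := p3.trans (p1.append_right _)
  have q2 : w2.Perm ((L ++ bw g.1) ++ cw g.2.dropLast) := p2.trans (q1.append_right _)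
  have q3 := q2.append_right (cw (g.2.drop (g.2.length - 1)))
  simpa [List.append_assoc] using q3

theorem foldl_ostep_perm {K : Type} (gs : List (List K × List K)) :
    ∀ (ws : List (List (Bool × K))) (L : List (Bool × K)), (∀ w ∈ ws, w.Perm L) →
      ∀ w ∈ gs.foldl ostep ws, w.Perm (L ++ lets gs) := by
  induction gs with
  | nil => intro ws L h w hw; simpa [lets] using h w hw
  | cons g gs ih =>
    intro ws L h w hw
    have := ih (ostep ws g) _ (ostep_perm ws g L h) w hw
    simpa [lets, List.append_assoc] using this

theorem OS_perm {K : Type} (gs : List (List K × List K)) (w : List (Bool × K))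
    (hw : w ∈ OS gs) : w.Perm (lets gs) := by
  have := foldl_ostep_perm gs [[]] [] (by intro w hw; simp at hw; simp [hw]) w hw
  simpa using this

theorem length_lets (gs : List Sl) : (lets gs).length = nl gs := by
  simp [lets, nl, bw, cw, List.length_flatMap]

theorem tot_lets (gs : List Sl) : tot (lets gs) = (flat gs).sum := by
  have : (lets gs).map (fun y => y.2) = flat gs := by
    induction gs with
    | nil => rfl
    | cons g gs ih =>
      simp only [lets, flat, List.flatMap_cons, List.map_append] at ih ⊢
      rw [ih]
      congr 2 <;> simp [bw, cw, Function.comp_def]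
  rw [tot, this]

theorem csum_lets (gs : List Sl) : csum (lets gs) = vsum gs := by
  induction gs with
  | nil => rfl
  | cons g gs ih =>
    have e : csum (lets (g :: gs)) = csum (bw g.1) + csum (cw g.2) + csum (lets gs) := by
      simp [lets, csum]
      ring
    rw [e, ih]
    have h1 : csum (bw g.1) = 0 := by
      simp [csum, bw, Function.comp_def]
    have h2 : csum (cw g.2) = g.2.sum := by
      simp [csum, cw, Function.comp_def]
    rw [h1, h2]
    simp [vsum]

theorem tot_perm {w w' : Wd} (h : w.Perm w') : tot w = tot w' := (h.map _).sum_eq
theorem csum_perm {w w' : Wd} (h : w.Perm w') : csum w = csum w' := (h.map _).sum_eq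

theorem LL_congr {f g : Wd → ℚ} (gs : List Sl) (h : ∀ w ∈ OS gs, f w = g w) :
    LL f gs = LL g gs := by
  unfold LL
  rw [List.map_congr_left h]

theorem LL_add (f g : Wd → ℚ) (gs : List Sl) :
    LL (fun t => f t + g t) gs = LL f gs + LL g gs := by
  unfold LL
  rw [← List.sum_map_add]

theorem LL_zero (f : Wd → ℚ) (gs : List Sl) (h : ∀ w ∈ OS gs, f w = 0) : LL f gs = 0 := by
  rw [LL_congr (g := fun _ => 0) gs h]
  simp [LL]

theorem osum_add (md : Sl → List (ℚ × Sl)) (gs : List Sl) :
    ∀ F G : ℚ → List Sl → ℚ,
      osum md (fun r t => F r t + G r t) gs = osum md F gs + osum md G gs := by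
  induction gs with
  | nil => intro F G; simp [osum]
  | cons g gs ih =>
    intro F G
    simp only [osum]
    rw [ih (fun r t => F r (g :: t)) (fun r t => G r (g :: t)), List.sum_map_add]
    ring

/-- **Half II from its pieces.** -/
theorem II_of (htri : S_tri) (hone : S_one) (hO2 : S_O2) (hO3 : S_O3) (hO4 : S_O4)
    (hO6 : S_O6) (hpol : S_pol) (hB : S_B) : S_II := by
  intro hED m P R h
  have pureR : ∀ (x : Bool) (w : Wd), (∀ y ∈ w, y.1 = x) → R w = 0 := by
    intro x w hw
    have e : w = if x then cw (w.map fun y => y.2) else bw (w.map fun y => y.2) := by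
      cases x
      · simp only [Bool.false_eq_true, if_false, bw, List.map_map]
        conv_lhs => rw [← List.map_id w]
        apply List.map_congr_left
        intro y hy
        simp [Prod.ext_iff, hw y hy]
      · simp only [if_true, cw, List.map_map]
        conv_lhs => rw [← List.map_id w]
        apply List.map_congr_left
        intro y hy
        simp [Prod.ext_iff, hw y hy]
    rw [e]
    cases x
    · simpa [cw] using h.cbR [] (w.map fun y => y.2)
    · simpa [bw] using h.cbR (w.map fun y => y.2) []
  have key : ∀ p : ℕ, 1 ≤ p → ∀ gs : List Sl, gs.length = p → vok gs →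
      LL P gs = 0 ∧ LL R gs = 0 := by
    intro p hp
    induction p, hp using Nat.le_induction with
    | base =>
      intro gs hgs hv
      obtain ⟨g, rfl⟩ := List.length_eq_one_iff.mp hgs
      exact hone m P R h g (hv g (by simp))
    | succ p hp ih =>
      have iP : ∀ gs : List Sl, gs.length = p → vok gs → LL P gs = 0 :=
        fun gs h1 h2 => (ih gs h1 h2).1
      have iR : ∀ gs : List Sl, gs.length = p → vok gs → LL R gs = 0 :=
        fun gs h1 h2 => (ih gs h1 h2).2
      intro gs hgs hv
      by_cases hu : uvok gs
      swap
      · have : ∃ g ∈ gs, g.1 = [] := by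
          by_contra hcon
          push Not at hcon
          exact hu fun g hg => ⟨hcon g hg, hv g hg⟩
        exact ⟨hO2 p P hp h.lieP iP gs hgs hv this, hO2 p R hp h.lieR iR gs hgs hv this⟩
      by_cases hm : nl gs = m
      swap
      · have hl : ∀ w ∈ OS gs, w.length ≠ m := by
          intro w hw
          rw [(OS_perm gs w hw).length_eq, length_lets]
          exact hm
        exact ⟨LL_zero P gs fun w hw => h.suppP w (hl w hw),
          LL_zero R gs fun w hw => h.suppR w (hl w hw)⟩
      have hKK : KK (p + 1) m (LL P) (LL R) := by
        refine ⟨hpol P h.polP, hpol R h.polR, ?_, ?_, ?_, ?_⟩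
        · intro gs hz
          apply LL_zero
          intro w hw
          apply h.zeroP
          intro y hy
          have hy2 : y ∈ lets gs := (OS_perm gs w hw).subset hy
          apply hz
          simp only [lets, List.mem_flatMap, List.mem_append, bw, cw, List.mem_map] at hy2
          obtain ⟨g, hg, h1⟩ := hy2
          simp only [flat, List.mem_flatMap, List.mem_append]
          refine ⟨g, hg, ?_⟩
          rcases h1 with ⟨a, ha, rfl⟩ | ⟨a, ha, rfl⟩
          · exact Or.inl ha
          · exact Or.inr ha
        · intro gs hz
          apply LL_zero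
          intro w hw
          apply h.zeroR
          intro y hy
          have hy2 : y ∈ lets gs := (OS_perm gs w hw).subset hy
          apply hz
          simp only [lets, List.mem_flatMap, List.mem_append, bw, cw, List.mem_map] at hy2
          obtain ⟨g, hg, h1⟩ := hy2
          simp only [flat, List.mem_flatMap, List.mem_append]
          refine ⟨g, hg, ?_⟩
          rcases h1 with ⟨a, ha, rfl⟩ | ⟨a, ha, rfl⟩
          · exact Or.inl ha
          · exact Or.inr ha
        · intro gs h1 h2 h3 h4
          rw [← hO4 p R hp h.lieR gs h1 h2, ← hO3 p P hp h.lieP iP gs h1 h2]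
          apply LL_congr
          intro w hw
          have pw := OS_perm gs w hw
          apply h.K2
          · rw [pw.length_eq, length_lets, h3]
          · rw [tot_perm pw, tot_lets, h4]
        · intro gs h1 h2 h3 h4
          have e1 : osum dv (fun _ t => LL P t + LL R t) gs
              = LL (brk true (fun t => P t + R t)) gs := by
            rw [osum_add, ← hO4 p P hp h.lieP gs h1 h2, ← hO4 p R hp h.lieR gs h1 h2,
              ← LL_add]
            apply LL_congr
            intro w _
            have : ∀ w : Wd, fstL true (fun t => P t + R t) w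
                = fstL true P w + fstL true R w := by
              intro w
              cases w with
              | nil => simp [fstL]
              | cons y w => simp only [fstL]; split_ifs <;> simp
            have e2 : ∀ w : Wd, lstL true (fun t => P t + R t) w
                = lstL true P w + lstL true R w := by
              intro w
              unfold lstL
              cases w.reverse with
              | nil => simp [fstL]
              | cons y w => simp only [fstL]; split_ifs <;> simp
            simp only [brk]
            rw [this, e2]
            ring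
          have e3 := hO6 p P hp h.lieP iP gs h1 h2
          have e4 : LL (brk true (fun t => P t + R t)) gs + LL (mrg P) gs = 0 := by
            rw [← LL_add]
            apply LL_zero
            intro w hw
            have pw := OS_perm gs w hw
            apply h.K4
            · rw [pw.length_eq, length_lets, h3]
            · rw [csum_perm pw, csum_lets, h4]
          rw [e1]
          linarith
      exact hB hED (p + 1) m (LL P) (LL R) (by omega) hKK gs hgs hu hm
  have fin : ∀ f : Wd → ℚ, LieFn f → (∀ (x : Bool) (w : Wd), (∀ y ∈ w, y.1 = x) → f w = 0) →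
      (∀ p : ℕ, 1 ≤ p → ∀ gs : List Sl, gs.length = p → vok gs → LL f gs = 0) →
      ∀ w, f w = 0 := by
    intro f h1 h2 h3
    apply htri f h1 h2
    intro gs hne hv
    exact h3 gs.length (List.length_pos_iff.mpr hne) gs rfl hv
  intro w
  exact ⟨fin P h.lieP h.pureP (fun p hp gs h1 h2 => (key p hp gs h1 h2).1) w,
    fin R h.lieR pureR (fun p hp gs h1 h2 => (key p hp gs h1 h2).2) w⟩

end Pent
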