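import Pool.Agent.Lib.MP_a57f33_nt.PN.Glue1
import Pool.Agent.Lib.MP_a57f33_nt.PN.Glue2
import Pool.Agent.Lib.MP_a57f33_nt.PN.P.tri
import Pool.Agent.Lib.MP_a57f33_nt.PN.P.one
import Pool.Agent.Lib.MP_a57f33_nt.PN.P.free
import Pool.Agent.Lib.MP_a57f33_nt.PN.P.O2
import Pool.Agent.Lib.MP_a57f33_nt.PN.P.O3
import Pool.Agent.Lib.MP_a57f33_nt.PN.P.O4
import Pool.Agent.Lib.MP_a57f33_nt.PN.P.O6
import Pool.Agent.Lib.MP_a57f33_nt.PN.P.pol
import Pool.Agent.Lib.MP_a57f33_nt.PN.P.B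
import Pool.Agent.Lib.MP_a57f33_nt.PN.P.clie
import Pool.Agent.Lib.MP_a57f33_nt.PN.P.mov
import Pool.Agent.Lib.MP_a57f33_nt.PN.P.tau
import Pool.Agent.Lib.MP_a57f33_nt.PN.P.univ
import Pool.Agent.Lib.MP_a57f33_nt.PN.P.lieR
import Pool.Agent.Lib.MP_a57f33_nt.PN.P.forg
import Pool.Agent.Lib.MP_a57f33_nt.PN.P.coc
import Pool.Agent.Lib.MP_a57f33_nt.PN.P.abc
import Pool.Agent.Lib.MP_a57f33_nt.PN.P.F1
import Pool.Agent.Lib.MP_a57f33_nt.PN.P.few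
import Pool.Agent.Lib.MP_a57f33_nt.PN.P.Rp
import Pool.Agent.Lib.MP_a57f33_nt.PN.P.dual
import Pool.Agent.Lib.MP_a57f33_nt.PN.P.FF
import Pool.Agent.Lib.MP_a57f33_nt.PN.P.SP
import Pool.Agent.Lib.MP_a57f33_nt.PN.P.tra
import Pool.Agent.Lib.MP_a57f33_nt.PN.P.mlie
import Pool.Agent.Lib.MP_a57f33_nt.PN.P.mwrd
import Pool.Agent.Lib.MP_a57f33_nt.PN.P.mder
import Pool.Agent.Lib.MP_a57f33_nt.PN.P.minj
import Pool.Agent.Lib.MP_a57f33_nt.PN.P.mV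
import Pool.Agent.Lib.MP_a57f33_nt.PN.P.van
import Pool.Agent.Lib.MP_a57f33_nt.PN.P.dep

/-!
# Pentagon project (MP_a57f33_nt): the pentagon equation for `dm₀`, given the lemma (ED)
-/

namespace Pent

universe v

theorem s_II : S_II :=
  II_of p_tri p_one (p_O2 p_free) (p_O3 (p_O2 p_free)) p_O4 (p_O6 p_free (p_O2 p_free)) p_pol p_B

theorem s_forg : S_forg := p_forg p_univ.{0} p_tau

theorem s_coc : S_coc := p_coc p_univ.{0} p_tau p_lieR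

theorem s_abc : S_abc := p_abc s_coc p_lieR p_clie p_mov

theorem s_F1 : S_F1 := p_F1 p_lieR s_forg p_mov p_clie (p_Rp p_tau) p_dual p_FF

/-- **The lemma (ED) implies the pentagon equation for all elements of `dm₀`.** -/
theorem pentagon_of_ED (hED : S_ED) : S_main.{v} :=
  main_of hED s_II p_lieR s_forg p_univ.{v} s_abc s_F1 (p_few p_clie p_mov) (p_SP p_clie p_mov)
    (p_tra p_univ.{0} p_tau) p_mlie p_mwrd p_mder (p_minj p_clie p_mov) p_mV p_van p_dep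

end Pent
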