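import Mathlib

/-!
# Pentagon project (MP_a57f33_nt): the coefficient system of (ED) for n = 6

`stepA`: the coefficients `C f g a b c d` with `f ≥ 1` vanish. The relations are those of the
structure `Sys6`; each lemma `L_...` settles one class of exponents (`e k` = exponent equal to `k`,
`g k` = exponent at least `k`) by an explicit linear combination.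
-/

namespace Pent

structure Sys6 (G : ℕ → ℕ → ℕ → ℕ → ℕ → ℕ → ℕ → ℚ) (C D : ℕ → ℕ → ℕ → ℕ → ℕ → ℕ → ℚ) : Prop where
  cC : ∀ z a b c d e, C z a b c d e = C z b c d e a
  cD : ∀ z a b c d e, D z a b c d e = D z b c d e a
  van : ∀ a b c d e f g, G a b c d (e + 2) (f + 1) g = 0
  r1 : ∀ a b c d f g, G a b c d 1 (f + 1) g = G d a b c 1 (f + 1) g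
  al0 : ∀ b c d f g, C (f + 1) g 0 b c d = G d 0 b c 0 (f + 1) g - G 0 b c d 0 (f + 1) g
  al1 : ∀ a b c d f g, C (f + 1) g (a + 1) b c d
    = G d (a + 1) b c 0 (f + 1) g - G (a + 1) b c d 0 (f + 1) g + G a b c d 1 (f + 1) g
  van' : ∀ a b c d e f g, G a (b + 2) (c + 1) d e f g = 0
  m1 : ∀ a c d e f g, G a 1 (c + 1) d e f g = G g 1 (c + 1) d a e f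
  al0' : ∀ c d e f g, D (c + 1) d 0 e f g = G g 0 (c + 1) d 0 e f - G 0 0 (c + 1) d e f g
  al1' : ∀ a c d e f g, D (c + 1) d (a + 1) e f g
    = G g 0 (c + 1) d (a + 1) e f - G (a + 1) 0 (c + 1) d e f g + G a 1 (c + 1) d e f g
  z0 : ∀ b c d, G 0 b c d 0 0 0 = G d 0 b c 0 0 0
  z0' : ∀ e f g, G 0 0 0 0 e f g = G g 0 0 0 0 e f

namespace Sys6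

variable {G : ℕ → ℕ → ℕ → ℕ → ℕ → ℕ → ℕ → ℚ} {C D : ℕ → ℕ → ℕ → ℕ → ℕ → ℕ → ℚ}

theorem r2 (S : Sys6 G C D) (a b c d f g : ℕ) :
    G a b c d 1 (f + 1) g = G c d a b 1 (f + 1) g := by
  rw [S.r1, S.r1]

theorem r3 (S : Sys6 G C D) (a b c d f g : ℕ) :
    G a b c d 1 (f + 1) g = G b c d a 1 (f + 1) g := by
  rw [S.r1, S.r1, S.r1]

theorem m2 (S : Sys6 G C D) (a c d e f g : ℕ) :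
    G a 1 (c + 1) d e f g = G f 1 (c + 1) d g a e := by
  rw [S.m1, S.m1]

theorem m3 (S : Sys6 G C D) (a c d e f g : ℕ) :
    G a 1 (c + 1) d e f g = G e 1 (c + 1) d f g a := by
  rw [S.m1, S.m1, S.m1]

theorem c1 (S : Sys6 G C D) (z a b c d e : ℕ) : C z a b c d e = C z b c d e a := S.cC z a b c d e
theorem c2 (S : Sys6 G C D) (z a b c d e : ℕ) : C z a b c d e = C z c d e a b := by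
  rw [S.cC, S.cC]
theorem c3 (S : Sys6 G C D) (z a b c d e : ℕ) : C z a b c d e = C z d e a b c := by
  rw [S.cC, S.cC, S.cC]
theorem c4 (S : Sys6 G C D) (z a b c d e : ℕ) : C z a b c d e = C z e a b c d := by
  rw [S.cC, S.cC, S.cC, S.cC]
theorem d1 (S : Sys6 G C D) (z a b c d e : ℕ) : D z a b c d e = D z b c d e a := S.cD z a b c d e
theorem d2 (S : Sys6 G C D) (z a b c d e : ℕ) : D z a b c d e = D z c d e a b := by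
  rw [S.cD, S.cD]
theorem d3 (S : Sys6 G C D) (z a b c d e : ℕ) : D z a b c d e = D z d e a b c := by
  rw [S.cD, S.cD, S.cD]
theorem d4 (S : Sys6 G C D) (z a b c d e : ℕ) : D z a b c d e = D z e a b c d := by
  rw [S.cD, S.cD, S.cD, S.cD]

theorem mirror (S : Sys6 G C D) : Sys6 (fun a b c d e f g => G a e f g b c d) D C where
  cC := S.cD
  cD := S.cC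
  van := fun a b c d e f g => S.van' a e f g b c d
  r1 := fun a b c d f g => S.m1 a f g b c d
  al0 := fun b c d f g => S.al0' f g b c d
  al1 := fun a b c d f g => S.al1' a f g b c d
  van' := fun a b c d e f g => S.van a e f g b c d
  m1 := fun a c d e f g => S.r1 a e f g c d
  al0' := fun c d e f g => S.al0 e f g c d
  al1' := fun a c d e f g => S.al1 a e f g c d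
  z0 := fun b c d => S.z0' b c d
  z0' := fun e f g => S.z0 e f g

end Sys6

namespace SA

variable {G : ℕ → ℕ → ℕ → ℕ → ℕ → ℕ → ℕ → ℚ} {C D : ℕ → ℕ → ℕ → ℕ → ℕ → ℕ → ℚ}

theorem L_g1_e1_e1_e1_e1_g2 (S : Sys6 G C D) (n6 n5 : ℕ) : C (n6 + 1) 1 1 1 1 (n5 + 2) = 0 := by
  have r0 : C (n6 + 1) 1 1 (n5 + 2) 1 1 = G 1 1 (n5 + 2) 1 0 (n6 + 1) 1 - G 1 (n5 + 2) 1 1 0 (n6 + 1) 1 + G 0 (n5 + 2) 1 1 1 (n6 + 1) 1 := S.al1 0 (n5 + 2) 1 1 n6 1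
  have z0 : G 0 (n5 + 2) 1 1 1 (n6 + 1) 1 = 0 := S.van' 0 n5 0 1 1 (n6 + 1) 1
  have z1 : G 1 1 (n5 + 2) 1 0 (n6 + 1) 1 = G (n6 + 1) 1 (n5 + 2) 1 1 1 0 := S.m2 1 (n5 + 1) 1 0 (n6 + 1) 1
  have z2 : G (n6 + 1) 1 (n5 + 2) 1 1 1 0 = G 1 (n5 + 2) 1 (n6 + 1) 1 1 0 := S.r3 (n6 + 1) 1 (n5 + 2) 1 0 0
  have z3 : G 1 (n5 + 2) 1 (n6 + 1) 1 1 0 = 0 := S.van' 1 n5 0 (n6 + 1) 1 1 0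
  have z4 : G 1 (n5 + 2) 1 1 0 (n6 + 1) 1 = 0 := S.van' 1 n5 0 1 0 (n6 + 1) 1
  have z5 : C (n6 + 1) 1 1 1 1 (n5 + 2) = C (n6 + 1) 1 1 (n5 + 2) 1 1 := S.c2 (n6 + 1) 1 1 1 1 (n5 + 2)
  linear_combination (1 : ℚ) * r0 + (1 : ℚ) * z0 + (1 : ℚ) * z1 + (1 : ℚ) * z2 + (1 : ℚ) * z3 + (-1 : ℚ) * z4 + (1 : ℚ) * z5

theorem L_g1_e1_e1_e1_g2_g2 (S : Sys6 G C D) (n6 n4 n5 : ℕ) : C (n6 + 1) 1 1 1 (n4 + 2) (n5 + 2) = 0 := by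
  have r0 : C (n6 + 1) 1 (n4 + 2) (n5 + 2) 1 1 = G 1 (n4 + 2) (n5 + 2) 1 0 (n6 + 1) 1 - G (n4 + 2) (n5 + 2) 1 1 0 (n6 + 1) 1 + G (n4 + 1) (n5 + 2) 1 1 1 (n6 + 1) 1 := S.al1 (n4 + 1) (n5 + 2) 1 1 n6 1
  have z0 : G 1 (n4 + 2) (n5 + 2) 1 0 (n6 + 1) 1 = 0 := S.van' 1 n4 (n5 + 1) 1 0 (n6 + 1) 1
  have z1 : G (n4 + 1) (n5 + 2) 1 1 1 (n6 + 1) 1 = 0 := S.van' (n4 + 1) n5 0 1 1 (n6 + 1) 1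
  have z2 : G (n4 + 2) (n5 + 2) 1 1 0 (n6 + 1) 1 = 0 := S.van' (n4 + 2) n5 0 1 0 (n6 + 1) 1
  have z3 : C (n6 + 1) 1 1 1 (n4 + 2) (n5 + 2) = C (n6 + 1) 1 (n4 + 2) (n5 + 2) 1 1 := S.c2 (n6 + 1) 1 1 1 (n4 + 2) (n5 + 2)
  linear_combination (1 : ℚ) * r0 + (1 : ℚ) * z0 + (1 : ℚ) * z1 + (-1 : ℚ) * z2 + (1 : ℚ) * z3

theorem L_g1_e1_e1_g2_e1_g2 (S : Sys6 G C D) (n6 n3 n5 : ℕ) : C (n6 + 1) 1 1 (n3 + 2) 1 (n5 + 2) = 0 := by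
  have r0 : C (n6 + 1) 1 (n5 + 2) 1 1 (n3 + 2) = G (n3 + 2) (n5 + 2) 1 1 0 (n6 + 1) 1 - G (n5 + 2) 1 1 (n3 + 2) 0 (n6 + 1) 1 + G (n5 + 1) 1 1 (n3 + 2) 1 (n6 + 1) 1 := S.al1 (n5 + 1) 1 1 (n3 + 2) n6 1
  have z0 : G (n3 + 2) (n5 + 2) 1 1 0 (n6 + 1) 1 = 0 := S.van' (n3 + 2) n5 0 1 0 (n6 + 1) 1
  have z1 : G (n5 + 1) 1 1 (n3 + 2) 1 (n6 + 1) 1 = G 1 (n3 + 2) (n5 + 1) 1 1 (n6 + 1) 1 := S.r2 (n5 + 1) 1 1 (n3 + 2) n6 1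
  have z2 : G 1 (n3 + 2) (n5 + 1) 1 1 (n6 + 1) 1 = 0 := S.van' 1 n3 n5 1 1 (n6 + 1) 1
  have z3 : G (n5 + 2) 1 1 (n3 + 2) 0 (n6 + 1) 1 = G (n6 + 1) 1 1 (n3 + 2) 1 (n5 + 2) 0 := S.m2 (n5 + 2) 0 (n3 + 2) 0 (n6 + 1) 1
  have z4 : G (n6 + 1) 1 1 (n3 + 2) 1 (n5 + 2) 0 = G 1 (n3 + 2) (n6 + 1) 1 1 (n5 + 2) 0 := S.r2 (n6 + 1) 1 1 (n3 + 2) (n5 + 1) 0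
  have z5 : G 1 (n3 + 2) (n6 + 1) 1 1 (n5 + 2) 0 = 0 := S.van' 1 n3 n6 1 1 (n5 + 2) 0
  have z6 : C (n6 + 1) 1 1 (n3 + 2) 1 (n5 + 2) = C (n6 + 1) 1 (n5 + 2) 1 1 (n3 + 2) := S.c3 (n6 + 1) 1 1 (n3 + 2) 1 (n5 + 2)
  linear_combination (1 : ℚ) * r0 + (1 : ℚ) * z0 + (1 : ℚ) * z1 + (1 : ℚ) * z2 + (-1 : ℚ) * z3 + (-1 : ℚ) * z4 + (-1 : ℚ) * z5 + (1 : ℚ) * z6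

theorem L_g1_e1_e1_g2_g2_g2 (S : Sys6 G C D) (n6 n3 n4 n5 : ℕ) : C (n6 + 1) 1 1 (n3 + 2) (n4 + 2) (n5 + 2) = 0 := by
  have r0 : C (n6 + 1) (n3 + 2) (n4 + 2) (n5 + 2) 1 1 = G 1 (n4 + 2) (n5 + 2) 1 0 (n6 + 1) (n3 + 2) - G (n4 + 2) (n5 + 2) 1 1 0 (n6 + 1) (n3 + 2) + G (n4 + 1) (n5 + 2) 1 1 1 (n6 + 1) (n3 + 2) := S.al1 (n4 + 1) (n5 + 2) 1 1 n6 (n3 + 2)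
  have z0 : G 1 (n4 + 2) (n5 + 2) 1 0 (n6 + 1) (n3 + 2) = 0 := S.van' 1 n4 (n5 + 1) 1 0 (n6 + 1) (n3 + 2)
  have z1 : G (n4 + 1) (n5 + 2) 1 1 1 (n6 + 1) (n3 + 2) = 0 := S.van' (n4 + 1) n5 0 1 1 (n6 + 1) (n3 + 2)
  have z2 : G (n4 + 2) (n5 + 2) 1 1 0 (n6 + 1) (n3 + 2) = 0 := S.van' (n4 + 2) n5 0 1 0 (n6 + 1) (n3 + 2)
  have z3 : C (n6 + 1) 1 1 (n3 + 2) (n4 + 2) (n5 + 2) = C (n6 + 1) (n3 + 2) (n4 + 2) (n5 + 2) 1 1 := S.c2 (n6 + 1) 1 1 (n3 + 2) (n4 + 2) (n5 + 2)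
  linear_combination (1 : ℚ) * r0 + (1 : ℚ) * z0 + (1 : ℚ) * z1 + (-1 : ℚ) * z2 + (1 : ℚ) * z3

theorem L_g1_e1_g2_e1_g2_g2 (S : Sys6 G C D) (n6 n2 n4 n5 : ℕ) : C (n6 + 1) 1 (n2 + 2) 1 (n4 + 2) (n5 + 2) = 0 := by
  have r0 : C (n6 + 1) (n2 + 2) 1 (n4 + 2) (n5 + 2) 1 = G 1 1 (n4 + 2) (n5 + 2) 0 (n6 + 1) (n2 + 2) - G 1 (n4 + 2) (n5 + 2) 1 0 (n6 + 1) (n2 + 2) + G 0 (n4 + 2) (n5 + 2) 1 1 (n6 + 1) (n2 + 2) := S.al1 0 (n4 + 2) (n5 + 2) 1 n6 (n2 + 2)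
  have z0 : G 0 (n4 + 2) (n5 + 2) 1 1 (n6 + 1) (n2 + 2) = 0 := S.van' 0 n4 (n5 + 1) 1 1 (n6 + 1) (n2 + 2)
  have z1 : G 1 1 (n4 + 2) (n5 + 2) 0 (n6 + 1) (n2 + 2) = G (n6 + 1) 1 (n4 + 2) (n5 + 2) (n2 + 2) 1 0 := S.m2 1 (n4 + 1) (n5 + 2) 0 (n6 + 1) (n2 + 2)
  have z2 : G (n6 + 1) 1 (n4 + 2) (n5 + 2) (n2 + 2) 1 0 = 0 := S.van (n6 + 1) 1 (n4 + 2) (n5 + 2) n2 0 0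
  have z3 : G 1 (n4 + 2) (n5 + 2) 1 0 (n6 + 1) (n2 + 2) = 0 := S.van' 1 n4 (n5 + 1) 1 0 (n6 + 1) (n2 + 2)
  have z4 : C (n6 + 1) 1 (n2 + 2) 1 (n4 + 2) (n5 + 2) = C (n6 + 1) (n2 + 2) 1 (n4 + 2) (n5 + 2) 1 := S.c1 (n6 + 1) 1 (n2 + 2) 1 (n4 + 2) (n5 + 2)
  linear_combination (1 : ℚ) * r0 + (1 : ℚ) * z0 + (1 : ℚ) * z1 + (1 : ℚ) * z2 + (-1 : ℚ) * z3 + (1 : ℚ) * z4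

theorem L_g1_e1_g2_g2_g2_g2 (S : Sys6 G C D) (n6 n2 n3 n4 n5 : ℕ) : C (n6 + 1) 1 (n2 + 2) (n3 + 2) (n4 + 2) (n5 + 2) = 0 := by
  have r0 : C (n6 + 1) (n3 + 2) (n4 + 2) (n5 + 2) 1 (n2 + 2) = G (n2 + 2) (n4 + 2) (n5 + 2) 1 0 (n6 + 1) (n3 + 2) - G (n4 + 2) (n5 + 2) 1 (n2 + 2) 0 (n6 + 1) (n3 + 2) + G (n4 + 1) (n5 + 2) 1 (n2 + 2) 1 (n6 + 1) (n3 + 2) := S.al1 (n4 + 1) (n5 + 2) 1 (n2 + 2) n6 (n3 + 2)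
  have z0 : G (n2 + 2) (n4 + 2) (n5 + 2) 1 0 (n6 + 1) (n3 + 2) = 0 := S.van' (n2 + 2) n4 (n5 + 1) 1 0 (n6 + 1) (n3 + 2)
  have z1 : G (n4 + 1) (n5 + 2) 1 (n2 + 2) 1 (n6 + 1) (n3 + 2) = 0 := S.van' (n4 + 1) n5 0 (n2 + 2) 1 (n6 + 1) (n3 + 2)
  have z2 : G (n4 + 2) (n5 + 2) 1 (n2 + 2) 0 (n6 + 1) (n3 + 2) = 0 := S.van' (n4 + 2) n5 0 (n2 + 2) 0 (n6 + 1) (n3 + 2)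
  have z3 : C (n6 + 1) 1 (n2 + 2) (n3 + 2) (n4 + 2) (n5 + 2) = C (n6 + 1) (n3 + 2) (n4 + 2) (n5 + 2) 1 (n2 + 2) := S.c2 (n6 + 1) 1 (n2 + 2) (n3 + 2) (n4 + 2) (n5 + 2)
  linear_combination (1 : ℚ) * r0 + (1 : ℚ) * z0 + (1 : ℚ) * z1 + (-1 : ℚ) * z2 + (1 : ℚ) * z3

theorem L_g1_g2_g2_g2_g2_g2 (S : Sys6 G C D) (n6 n1 n2 n3 n4 n5 : ℕ) : C (n6 + 1) (n1 + 2) (n2 + 2) (n3 + 2) (n4 + 2) (n5 + 2) = 0 := by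
  have r0 : C (n6 + 1) (n3 + 2) (n4 + 2) (n5 + 2) (n1 + 2) (n2 + 2) = G (n2 + 2) (n4 + 2) (n5 + 2) (n1 + 2) 0 (n6 + 1) (n3 + 2) - G (n4 + 2) (n5 + 2) (n1 + 2) (n2 + 2) 0 (n6 + 1) (n3 + 2) + G (n4 + 1) (n5 + 2) (n1 + 2) (n2 + 2) 1 (n6 + 1) (n3 + 2) := S.al1 (n4 + 1) (n5 + 2) (n1 + 2) (n2 + 2) n6 (n3 + 2)
  have z0 : G (n2 + 2) (n4 + 2) (n5 + 2) (n1 + 2) 0 (n6 + 1) (n3 + 2) = 0 := S.van' (n2 + 2) n4 (n5 + 1) (n1 + 2) 0 (n6 + 1) (n3 + 2)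
  have z1 : G (n4 + 1) (n5 + 2) (n1 + 2) (n2 + 2) 1 (n6 + 1) (n3 + 2) = 0 := S.van' (n4 + 1) n5 (n1 + 1) (n2 + 2) 1 (n6 + 1) (n3 + 2)
  have z2 : G (n4 + 2) (n5 + 2) (n1 + 2) (n2 + 2) 0 (n6 + 1) (n3 + 2) = 0 := S.van' (n4 + 2) n5 (n1 + 1) (n2 + 2) 0 (n6 + 1) (n3 + 2)
  have z3 : C (n6 + 1) (n1 + 2) (n2 + 2) (n3 + 2) (n4 + 2) (n5 + 2) = C (n6 + 1) (n3 + 2) (n4 + 2) (n5 + 2) (n1 + 2) (n2 + 2) := S.c2 (n6 + 1) (n1 + 2) (n2 + 2) (n3 + 2) (n4 + 2) (n5 + 2)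
  linear_combination (1 : ℚ) * r0 + (1 : ℚ) * z0 + (1 : ℚ) * z1 + (-1 : ℚ) * z2 + (1 : ℚ) * z3

theorem L_g1_e1_e1_e1_e1_e1 (S : Sys6 G C D) (n6 : ℕ) : C (n6 + 1) 1 1 1 1 1 = 0 := by
  have r0 : D (n6 + 2) 1 0 1 1 1 = G 1 0 (n6 + 2) 1 0 1 1 - G 0 0 (n6 + 2) 1 1 1 1 := S.al0' (n6 + 1) 1 1 1 1
  have r1 : D (n6 + 2) 1 1 0 1 1 = G 1 0 (n6 + 2) 1 1 0 1 - G 1 0 (n6 + 2) 1 0 1 1 + G 0 1 (n6 + 2) 1 0 1 1 := S.al1' 0 (n6 + 1) 1 0 1 1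
  have r2 : D (n6 + 2) 1 1 1 0 1 = G 1 0 (n6 + 2) 1 1 1 0 - G 1 0 (n6 + 2) 1 1 0 1 + G 0 1 (n6 + 2) 1 1 0 1 := S.al1' 0 (n6 + 1) 1 1 0 1
  have r3 : D (n6 + 2) 1 1 1 1 0 = G 0 0 (n6 + 2) 1 1 1 1 - G 1 0 (n6 + 2) 1 1 1 0 + G 0 1 (n6 + 2) 1 1 1 0 := S.al1' 0 (n6 + 1) 1 1 1 0
  have r4 : C 1 0 1 (n6 + 2) 1 1 = G 1 1 (n6 + 2) 1 0 1 0 - G 1 (n6 + 2) 1 1 0 1 0 + G 0 (n6 + 2) 1 1 1 1 0 := S.al1 0 (n6 + 2) 1 1 0 0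
  have r5 : C 1 1 0 (n6 + 2) 1 1 = G 1 0 (n6 + 2) 1 0 1 1 - G 0 (n6 + 2) 1 1 0 1 1 := S.al0 (n6 + 2) 1 1 0 1
  have r6 : C 1 1 (n6 + 2) 1 1 0 = G 0 (n6 + 2) 1 1 0 1 1 - G (n6 + 2) 1 1 0 0 1 1 + G (n6 + 1) 1 1 0 1 1 1 := S.al1 (n6 + 1) 1 1 0 0 1
  have r7 : C 1 (n6 + 2) 1 1 1 0 = G 0 1 1 1 0 1 (n6 + 2) - G 1 1 1 0 0 1 (n6 + 2) + G 0 1 1 0 1 1 (n6 + 2) := S.al1 0 1 1 0 0 (n6 + 2)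
  have r8 : C (n6 + 1) 1 1 1 1 1 = G 1 1 1 1 0 (n6 + 1) 1 - G 1 1 1 1 0 (n6 + 1) 1 + G 0 1 1 1 1 (n6 + 1) 1 := S.al1 0 1 1 1 n6 1
  have z0 : G 0 0 (n6 + 2) 1 1 1 1 = G 0 (n6 + 2) 1 0 1 1 1 := S.r3 0 0 (n6 + 2) 1 0 1
  have z1 : G 0 (n6 + 2) 1 0 1 1 1 = 0 := S.van' 0 n6 0 0 1 1 1
  have z2 : G 0 1 1 1 0 1 (n6 + 2) = G 0 1 1 1 1 (n6 + 2) 0 := S.m3 0 0 1 0 1 (n6 + 2)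
  have z3 : G 0 1 1 1 1 (n6 + 2) 0 = G 1 1 1 0 1 (n6 + 2) 0 := S.r3 0 1 1 1 (n6 + 1) 0
  have z4 : G (n6 + 2) 1 1 0 0 1 1 = G 0 1 1 0 1 1 (n6 + 2) := S.m3 (n6 + 2) 0 0 0 1 1
  have z5 : G 1 1 1 0 1 (n6 + 2) 0 = G 0 1 1 0 1 1 (n6 + 2) := S.m1 1 0 0 1 (n6 + 2) 0
  have z6 : G 0 1 1 1 1 (n6 + 1) 1 = G 1 1 1 0 1 (n6 + 1) 1 := S.r3 0 1 1 1 n6 1
  have z7 : G (n6 + 1) 1 1 0 1 1 1 = G 1 1 1 0 1 1 (n6 + 1) := S.m3 (n6 + 1) 0 0 1 1 1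
  have z8 : G 1 1 1 0 1 (n6 + 1) 1 = G 1 1 1 0 1 1 (n6 + 1) := S.m1 1 0 0 1 (n6 + 1) 1
  have z9 : G 0 1 (n6 + 2) 1 0 1 1 = G 0 1 (n6 + 2) 1 1 1 0 := S.m3 0 (n6 + 1) 1 0 1 1
  have z10 : G 0 1 (n6 + 2) 1 1 1 0 = G 1 (n6 + 2) 1 0 1 1 0 := S.r3 0 1 (n6 + 2) 1 0 0
  have z11 : G 1 (n6 + 2) 1 0 1 1 0 = 0 := S.van' 1 n6 0 0 1 1 0
  have z12 : G 1 1 (n6 + 2) 1 0 1 0 = G 0 1 (n6 + 2) 1 1 0 1 := S.m1 1 (n6 + 1) 1 0 1 0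
  have z13 : G 0 (n6 + 2) 1 1 0 1 1 = 0 := S.van' 0 n6 0 1 0 1 1
  have z14 : G 1 0 (n6 + 2) 1 1 1 0 = G 0 (n6 + 2) 1 1 1 1 0 := S.r3 1 0 (n6 + 2) 1 0 0
  have z15 : G 0 (n6 + 2) 1 1 1 1 0 = 0 := S.van' 0 n6 0 1 1 1 0
  have z16 : G 1 1 1 0 0 1 (n6 + 2) = G 1 1 1 0 (n6 + 2) 1 0 := S.m2 1 0 0 0 1 (n6 + 2)
  have z17 : G 1 1 1 0 (n6 + 2) 1 0 = 0 := S.van 1 1 1 0 n6 0 0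
  have z18 : G 1 (n6 + 2) 1 1 0 1 0 = 0 := S.van' 1 n6 0 1 0 1 0
  have z19 : D (n6 + 2) 1 1 0 1 1 = D (n6 + 2) 1 0 1 1 1 := S.d1 (n6 + 2) 1 1 0 1 1
  have z20 : D (n6 + 2) 1 1 1 0 1 = D (n6 + 2) 1 0 1 1 1 := S.d2 (n6 + 2) 1 1 1 0 1
  have z21 : D (n6 + 2) 1 1 1 1 0 = D (n6 + 2) 1 0 1 1 1 := S.d3 (n6 + 2) 1 1 1 1 0
  have z22 : C 1 1 (n6 + 2) 1 1 0 = C 1 0 1 (n6 + 2) 1 1 := S.c4 1 1 (n6 + 2) 1 1 0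
  have z23 : C 1 (n6 + 2) 1 1 1 0 = C 1 1 0 (n6 + 2) 1 1 := S.c3 1 (n6 + 2) 1 1 1 0
  linear_combination ((((-3 / 2 : ℚ) * r0 + (-1 : ℚ) * r1 + (-1 : ℚ) * r2 + (7 / 2 : ℚ) * r3 + (1 : ℚ) * r4)
    + ((1 / 2 : ℚ) * r5 + (-1 : ℚ) * r6 + (-1 / 2 : ℚ) * r7 + (1 : ℚ) * r8))
    + ((5 : ℚ) * z0 + (5 : ℚ) * z1 + (-1 / 2 : ℚ) * z2 + (-1 / 2 : ℚ) * z3 + (1 : ℚ) * z4 + (-1 / 2 : ℚ) * z5 + (1 : ℚ) * z6 + (-1 : ℚ) * z7))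
    + (((1 : ℚ) * z8 + (-1 : ℚ) * z9 + (5 / 2 : ℚ) * z10 + (5 / 2 : ℚ) * z11 + (1 : ℚ) * z12 + (-3 / 2 : ℚ) * z13 + (-9 / 2 : ℚ) * z14 + (-7 / 2 : ℚ) * z15)
    + ((1 / 2 : ℚ) * z16 + (1 / 2 : ℚ) * z17 + (-1 : ℚ) * z18 + (1 : ℚ) * z19 + (1 : ℚ) * z20 + (-7 / 2 : ℚ) * z21 + (1 : ℚ) * z22 + (1 / 2 : ℚ) * z23))

theorem S_p5 (S : Sys6 G C D) :
    ∀ n6 n1 n2 n3 n4 n5 : ℕ, C (n6 + 1) (n1 + 1) (n2 + 1) (n3 + 1) (n4 + 1) (n5 + 1) = 0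
  | n6, 0, 0, 0, 0, 0 => L_g1_e1_e1_e1_e1_e1 S n6
  | n6, 0, 0, 0, 0, n5 + 1 => L_g1_e1_e1_e1_e1_g2 S n6 n5
  | n6, 0, 0, 0, n4 + 1, 0 => (S.c4 (n6 + 1) 1 1 1 (n4 + 2) 1).trans (L_g1_e1_e1_e1_e1_g2 S n6 n4)
  | n6, 0, 0, 0, n4 + 1, n5 + 1 => L_g1_e1_e1_e1_g2_g2 S n6 n4 n5
  | n6, 0, 0, n3 + 1, 0, 0 => (S.c3 (n6 + 1) 1 1 (n3 + 2) 1 1).trans (L_g1_e1_e1_e1_e1_g2 S n6 n3)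
  | n6, 0, 0, n3 + 1, 0, n5 + 1 => L_g1_e1_e1_g2_e1_g2 S n6 n3 n5
  | n6, 0, 0, n3 + 1, n4 + 1, 0 => (S.c4 (n6 + 1) 1 1 (n3 + 2) (n4 + 2) 1).trans (L_g1_e1_e1_e1_g2_g2 S n6 n3 n4)
  | n6, 0, 0, n3 + 1, n4 + 1, n5 + 1 => L_g1_e1_e1_g2_g2_g2 S n6 n3 n4 n5
  | n6, 0, n2 + 1, 0, 0, 0 => (S.c2 (n6 + 1) 1 (n2 + 2) 1 1 1).trans (L_g1_e1_e1_e1_e1_g2 S n6 n2)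
  | n6, 0, n2 + 1, 0, 0, n5 + 1 => (S.c2 (n6 + 1) 1 (n2 + 2) 1 1 (n5 + 2)).trans (L_g1_e1_e1_g2_e1_g2 S n6 n5 n2)
  | n6, 0, n2 + 1, 0, n4 + 1, 0 => (S.c4 (n6 + 1) 1 (n2 + 2) 1 (n4 + 2) 1).trans (L_g1_e1_e1_g2_e1_g2 S n6 n2 n4)
  | n6, 0, n2 + 1, 0, n4 + 1, n5 + 1 => L_g1_e1_g2_e1_g2_g2 S n6 n2 n4 n5
  | n6, 0, n2 + 1, n3 + 1, 0, 0 => (S.c3 (n6 + 1) 1 (n2 + 2) (n3 + 2) 1 1).trans (L_g1_e1_e1_e1_g2_g2 S n6 n2 n3)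
  | n6, 0, n2 + 1, n3 + 1, 0, n5 + 1 => (S.c3 (n6 + 1) 1 (n2 + 2) (n3 + 2) 1 (n5 + 2)).trans (L_g1_e1_g2_e1_g2_g2 S n6 n5 n2 n3)
  | n6, 0, n2 + 1, n3 + 1, n4 + 1, 0 => (S.c4 (n6 + 1) 1 (n2 + 2) (n3 + 2) (n4 + 2) 1).trans (L_g1_e1_e1_g2_g2_g2 S n6 n2 n3 n4)
  | n6, 0, n2 + 1, n3 + 1, n4 + 1, n5 + 1 => L_g1_e1_g2_g2_g2_g2 S n6 n2 n3 n4 n5
  | n6, n1 + 1, 0, 0, 0, 0 => (S.c1 (n6 + 1) (n1 + 2) 1 1 1 1).trans (L_g1_e1_e1_e1_e1_g2 S n6 n1)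
  | n6, n1 + 1, 0, 0, 0, n5 + 1 => (S.c1 (n6 + 1) (n1 + 2) 1 1 1 (n5 + 2)).trans (L_g1_e1_e1_e1_g2_g2 S n6 n5 n1)
  | n6, n1 + 1, 0, 0, n4 + 1, 0 => (S.c1 (n6 + 1) (n1 + 2) 1 1 (n4 + 2) 1).trans (L_g1_e1_e1_g2_e1_g2 S n6 n4 n1)
  | n6, n1 + 1, 0, 0, n4 + 1, n5 + 1 => (S.c1 (n6 + 1) (n1 + 2) 1 1 (n4 + 2) (n5 + 2)).trans (L_g1_e1_e1_g2_g2_g2 S n6 n4 n5 n1)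
  | n6, n1 + 1, 0, n3 + 1, 0, 0 => (S.c3 (n6 + 1) (n1 + 2) 1 (n3 + 2) 1 1).trans (L_g1_e1_e1_g2_e1_g2 S n6 n1 n3)
  | n6, n1 + 1, 0, n3 + 1, 0, n5 + 1 => (S.c1 (n6 + 1) (n1 + 2) 1 (n3 + 2) 1 (n5 + 2)).trans (L_g1_e1_g2_e1_g2_g2 S n6 n3 n5 n1)
  | n6, n1 + 1, 0, n3 + 1, n4 + 1, 0 => (S.c4 (n6 + 1) (n1 + 2) 1 (n3 + 2) (n4 + 2) 1).trans (L_g1_e1_g2_e1_g2_g2 S n6 n1 n3 n4)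
  | n6, n1 + 1, 0, n3 + 1, n4 + 1, n5 + 1 => (S.c1 (n6 + 1) (n1 + 2) 1 (n3 + 2) (n4 + 2) (n5 + 2)).trans (L_g1_e1_g2_g2_g2_g2 S n6 n3 n4 n5 n1)
  | n6, n1 + 1, n2 + 1, 0, 0, 0 => (S.c2 (n6 + 1) (n1 + 2) (n2 + 2) 1 1 1).trans (L_g1_e1_e1_e1_g2_g2 S n6 n1 n2)
  | n6, n1 + 1, n2 + 1, 0, 0, n5 + 1 => (S.c2 (n6 + 1) (n1 + 2) (n2 + 2) 1 1 (n5 + 2)).trans (L_g1_e1_e1_g2_g2_g2 S n6 n5 n1 n2)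
  | n6, n1 + 1, n2 + 1, 0, n4 + 1, 0 => (S.c2 (n6 + 1) (n1 + 2) (n2 + 2) 1 (n4 + 2) 1).trans (L_g1_e1_g2_e1_g2_g2 S n6 n4 n1 n2)
  | n6, n1 + 1, n2 + 1, 0, n4 + 1, n5 + 1 => (S.c2 (n6 + 1) (n1 + 2) (n2 + 2) 1 (n4 + 2) (n5 + 2)).trans (L_g1_e1_g2_g2_g2_g2 S n6 n4 n5 n1 n2)
  | n6, n1 + 1, n2 + 1, n3 + 1, 0, 0 => (S.c3 (n6 + 1) (n1 + 2) (n2 + 2) (n3 + 2) 1 1).trans (L_g1_e1_e1_g2_g2_g2 S n6 n1 n2 n3)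
  | n6, n1 + 1, n2 + 1, n3 + 1, 0, n5 + 1 => (S.c3 (n6 + 1) (n1 + 2) (n2 + 2) (n3 + 2) 1 (n5 + 2)).trans (L_g1_e1_g2_g2_g2_g2 S n6 n5 n1 n2 n3)
  | n6, n1 + 1, n2 + 1, n3 + 1, n4 + 1, 0 => (S.c4 (n6 + 1) (n1 + 2) (n2 + 2) (n3 + 2) (n4 + 2) 1).trans (L_g1_e1_g2_g2_g2_g2 S n6 n1 n2 n3 n4)
  | n6, n1 + 1, n2 + 1, n3 + 1, n4 + 1, n5 + 1 => L_g1_g2_g2_g2_g2_g2 S n6 n1 n2 n3 n4 n5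

theorem L_g1_e1_g2_e1_g2_e0 (S : Sys6 G C D) (n6 n2 n4 : ℕ) : C (n6 + 1) 1 (n2 + 2) 1 (n4 + 2) 0 = 0 := by
  have r0 : C (n4 + 2) 0 1 (n2 + 2) 1 (n6 + 1) = G (n6 + 1) 1 (n2 + 2) 1 0 (n4 + 2) 0 - G 1 (n2 + 2) 1 (n6 + 1) 0 (n4 + 2) 0 + G 0 (n2 + 2) 1 (n6 + 1) 1 (n4 + 2) 0 := S.al1 0 (n2 + 2) 1 (n6 + 1) (n4 + 1) 0
  have r1 : C (n4 + 2) 1 (n2 + 2) 1 (n6 + 1) 0 = G 0 (n2 + 2) 1 (n6 + 1) 0 (n4 + 2) 1 - G (n2 + 2) 1 (n6 + 1) 0 0 (n4 + 2) 1 + G (n2 + 1) 1 (n6 + 1) 0 1 (n4 + 2) 1 := S.al1 (n2 + 1) 1 (n6 + 1) 0 (n4 + 1) 1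
  have r2 : C (n6 + 1) 0 1 (n2 + 2) 1 (n4 + 2) = G (n4 + 2) 1 (n2 + 2) 1 0 (n6 + 1) 0 - G 1 (n2 + 2) 1 (n4 + 2) 0 (n6 + 1) 0 + G 0 (n2 + 2) 1 (n4 + 2) 1 (n6 + 1) 0 := S.al1 0 (n2 + 2) 1 (n4 + 2) n6 0
  have z0 : G 0 (n2 + 2) 1 (n4 + 2) 1 (n6 + 1) 0 = 0 := S.van' 0 n2 0 (n4 + 2) 1 (n6 + 1) 0
  have z1 : G 0 (n2 + 2) 1 (n6 + 1) 0 (n4 + 2) 1 = 0 := S.van' 0 n2 0 (n6 + 1) 0 (n4 + 2) 1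
  have z2 : G 0 (n2 + 2) 1 (n6 + 1) 1 (n4 + 2) 0 = 0 := S.van' 0 n2 0 (n6 + 1) 1 (n4 + 2) 0
  have z3 : G 1 (n2 + 2) 1 (n4 + 2) 0 (n6 + 1) 0 = 0 := S.van' 1 n2 0 (n4 + 2) 0 (n6 + 1) 0
  have z4 : G 1 (n2 + 2) 1 (n6 + 1) 0 (n4 + 2) 0 = 0 := S.van' 1 n2 0 (n6 + 1) 0 (n4 + 2) 0
  have z5 : G (n2 + 1) 1 (n6 + 1) 0 1 (n4 + 2) 1 = G 1 1 (n6 + 1) 0 (n4 + 2) 1 (n2 + 1) := S.m3 (n2 + 1) n6 0 1 (n4 + 2) 1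
  have z6 : G 1 1 (n6 + 1) 0 (n4 + 2) 1 (n2 + 1) = 0 := S.van 1 1 (n6 + 1) 0 n4 0 (n2 + 1)
  have z7 : G (n2 + 2) 1 (n6 + 1) 0 0 (n4 + 2) 1 = G 0 1 (n6 + 1) 0 (n4 + 2) 1 (n2 + 2) := S.m3 (n2 + 2) n6 0 0 (n4 + 2) 1
  have z8 : G 0 1 (n6 + 1) 0 (n4 + 2) 1 (n2 + 2) = 0 := S.van 0 1 (n6 + 1) 0 n4 0 (n2 + 2)
  have z9 : G (n6 + 1) 1 (n2 + 2) 1 0 (n4 + 2) 0 = G 0 1 (n2 + 2) 1 (n4 + 2) 0 (n6 + 1) := S.m3 (n6 + 1) (n2 + 1) 1 0 (n4 + 2) 0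
  have z10 : G (n4 + 2) 1 (n2 + 2) 1 0 (n6 + 1) 0 = G 0 1 (n2 + 2) 1 (n4 + 2) 0 (n6 + 1) := S.m1 (n4 + 2) (n2 + 1) 1 0 (n6 + 1) 0
  have z11 : C (n4 + 2) 1 (n2 + 2) 1 (n6 + 1) 0 = C (n4 + 2) 0 1 (n2 + 2) 1 (n6 + 1) := S.c4 (n4 + 2) 1 (n2 + 2) 1 (n6 + 1) 0
  have z12 : C (n6 + 1) 1 (n2 + 2) 1 (n4 + 2) 0 = C (n6 + 1) 0 1 (n2 + 2) 1 (n4 + 2) := S.c4 (n6 + 1) 1 (n2 + 2) 1 (n4 + 2) 0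
  linear_combination ((-1 : ℚ) * r0 + (1 : ℚ) * r1 + (1 : ℚ) * r2 + (1 : ℚ) * z0 + (1 : ℚ) * z1 + (-1 : ℚ) * z2 + (-1 : ℚ) * z3 + (1 : ℚ) * z4)
    + ((1 : ℚ) * z5 + (1 : ℚ) * z6 + (-1 : ℚ) * z7 + (-1 : ℚ) * z8 + (-1 : ℚ) * z9 + (1 : ℚ) * z10 + (-1 : ℚ) * z11 + (1 : ℚ) * z12)

theorem L_g1_e1_g2_g2_e1_e0 (S : Sys6 G C D) (n6 n2 n3 : ℕ) : C (n6 + 1) 1 (n2 + 2) (n3 + 2) 1 0 = 0 := by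
  have r0 : C (n6 + 1) 1 (n2 + 2) (n3 + 2) 1 0 = G 0 (n2 + 2) (n3 + 2) 1 0 (n6 + 1) 1 - G (n2 + 2) (n3 + 2) 1 0 0 (n6 + 1) 1 + G (n2 + 1) (n3 + 2) 1 0 1 (n6 + 1) 1 := S.al1 (n2 + 1) (n3 + 2) 1 0 n6 1
  have z0 : G 0 (n2 + 2) (n3 + 2) 1 0 (n6 + 1) 1 = 0 := S.van' 0 n2 (n3 + 1) 1 0 (n6 + 1) 1
  have z1 : G (n2 + 1) (n3 + 2) 1 0 1 (n6 + 1) 1 = 0 := S.van' (n2 + 1) n3 0 0 1 (n6 + 1) 1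
  have z2 : G (n2 + 2) (n3 + 2) 1 0 0 (n6 + 1) 1 = 0 := S.van' (n2 + 2) n3 0 0 0 (n6 + 1) 1
  linear_combination (1 : ℚ) * r0 + (1 : ℚ) * z0 + (1 : ℚ) * z1 + (-1 : ℚ) * z2

theorem L_g1_e1_g2_g2_g2_e0 (S : Sys6 G C D) (n6 n2 n3 n4 : ℕ) : C (n6 + 1) 1 (n2 + 2) (n3 + 2) (n4 + 2) 0 = 0 := by
  have r0 : C (n6 + 1) 1 (n2 + 2) (n3 + 2) (n4 + 2) 0 = G 0 (n2 + 2) (n3 + 2) (n4 + 2) 0 (n6 + 1) 1 - G (n2 + 2) (n3 + 2) (n4 + 2) 0 0 (n6 + 1) 1 + G (n2 + 1) (n3 + 2) (n4 + 2) 0 1 (n6 + 1) 1 := S.al1 (n2 + 1) (n3 + 2) (n4 + 2) 0 n6 1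
  have z0 : G 0 (n2 + 2) (n3 + 2) (n4 + 2) 0 (n6 + 1) 1 = 0 := S.van' 0 n2 (n3 + 1) (n4 + 2) 0 (n6 + 1) 1
  have z1 : G (n2 + 1) (n3 + 2) (n4 + 2) 0 1 (n6 + 1) 1 = 0 := S.van' (n2 + 1) n3 (n4 + 1) 0 1 (n6 + 1) 1
  have z2 : G (n2 + 2) (n3 + 2) (n4 + 2) 0 0 (n6 + 1) 1 = 0 := S.van' (n2 + 2) n3 (n4 + 1) 0 0 (n6 + 1) 1
  linear_combination (1 : ℚ) * r0 + (1 : ℚ) * z0 + (1 : ℚ) * z1 + (-1 : ℚ) * z2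

theorem L_g1_g2_e1_g2_e1_e0 (S : Sys6 G C D) (n6 n1 n3 : ℕ) : C (n6 + 1) (n1 + 2) 1 (n3 + 2) 1 0 = 0 := by
  have r0 : C (n1 + 2) 0 1 (n3 + 2) 1 (n6 + 1) = G (n6 + 1) 1 (n3 + 2) 1 0 (n1 + 2) 0 - G 1 (n3 + 2) 1 (n6 + 1) 0 (n1 + 2) 0 + G 0 (n3 + 2) 1 (n6 + 1) 1 (n1 + 2) 0 := S.al1 0 (n3 + 2) 1 (n6 + 1) (n1 + 1) 0
  have r1 : C (n1 + 2) 1 (n3 + 2) 1 (n6 + 1) 0 = G 0 (n3 + 2) 1 (n6 + 1) 0 (n1 + 2) 1 - G (n3 + 2) 1 (n6 + 1) 0 0 (n1 + 2) 1 + G (n3 + 1) 1 (n6 + 1) 0 1 (n1 + 2) 1 := S.al1 (n3 + 1) 1 (n6 + 1) 0 (n1 + 1) 1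
  have r2 : C (n6 + 1) 0 (n1 + 2) 1 (n3 + 2) 1 = G 1 (n1 + 2) 1 (n3 + 2) 0 (n6 + 1) 0 - G (n1 + 2) 1 (n3 + 2) 1 0 (n6 + 1) 0 + G (n1 + 1) 1 (n3 + 2) 1 1 (n6 + 1) 0 := S.al1 (n1 + 1) 1 (n3 + 2) 1 n6 0
  have z0 : G 0 (n3 + 2) 1 (n6 + 1) 0 (n1 + 2) 1 = 0 := S.van' 0 n3 0 (n6 + 1) 0 (n1 + 2) 1
  have z1 : G 0 (n3 + 2) 1 (n6 + 1) 1 (n1 + 2) 0 = 0 := S.van' 0 n3 0 (n6 + 1) 1 (n1 + 2) 0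
  have z2 : G 1 (n1 + 2) 1 (n3 + 2) 0 (n6 + 1) 0 = 0 := S.van' 1 n1 0 (n3 + 2) 0 (n6 + 1) 0
  have z3 : G 1 (n3 + 2) 1 (n6 + 1) 0 (n1 + 2) 0 = 0 := S.van' 1 n3 0 (n6 + 1) 0 (n1 + 2) 0
  have z4 : G (n1 + 1) 1 (n3 + 2) 1 1 (n6 + 1) 0 = G 1 (n3 + 2) 1 (n1 + 1) 1 (n6 + 1) 0 := S.r3 (n1 + 1) 1 (n3 + 2) 1 n6 0
  have z5 : G 1 (n3 + 2) 1 (n1 + 1) 1 (n6 + 1) 0 = 0 := S.van' 1 n3 0 (n1 + 1) 1 (n6 + 1) 0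
  have z6 : G (n6 + 1) 1 (n3 + 2) 1 0 (n1 + 2) 0 = G 0 1 (n3 + 2) 1 (n1 + 2) 0 (n6 + 1) := S.m3 (n6 + 1) (n3 + 1) 1 0 (n1 + 2) 0
  have z7 : G (n1 + 2) 1 (n3 + 2) 1 0 (n6 + 1) 0 = G 0 1 (n3 + 2) 1 (n1 + 2) 0 (n6 + 1) := S.m1 (n1 + 2) (n3 + 1) 1 0 (n6 + 1) 0
  have z8 : G (n3 + 1) 1 (n6 + 1) 0 1 (n1 + 2) 1 = G 1 1 (n6 + 1) 0 (n1 + 2) 1 (n3 + 1) := S.m3 (n3 + 1) n6 0 1 (n1 + 2) 1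
  have z9 : G 1 1 (n6 + 1) 0 (n1 + 2) 1 (n3 + 1) = 0 := S.van 1 1 (n6 + 1) 0 n1 0 (n3 + 1)
  have z10 : G (n3 + 2) 1 (n6 + 1) 0 0 (n1 + 2) 1 = G 0 1 (n6 + 1) 0 (n1 + 2) 1 (n3 + 2) := S.m3 (n3 + 2) n6 0 0 (n1 + 2) 1
  have z11 : G 0 1 (n6 + 1) 0 (n1 + 2) 1 (n3 + 2) = 0 := S.van 0 1 (n6 + 1) 0 n1 0 (n3 + 2)
  have z12 : C (n1 + 2) 1 (n3 + 2) 1 (n6 + 1) 0 = C (n1 + 2) 0 1 (n3 + 2) 1 (n6 + 1) := S.c4 (n1 + 2) 1 (n3 + 2) 1 (n6 + 1) 0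
  have z13 : C (n6 + 1) (n1 + 2) 1 (n3 + 2) 1 0 = C (n6 + 1) 0 (n1 + 2) 1 (n3 + 2) 1 := S.c4 (n6 + 1) (n1 + 2) 1 (n3 + 2) 1 0
  linear_combination (((1 : ℚ) * r0 + (-1 : ℚ) * r1 + (1 : ℚ) * r2 + (-1 : ℚ) * z0 + (1 : ℚ) * z1)
    + ((1 : ℚ) * z2 + (-1 : ℚ) * z3 + (1 : ℚ) * z4 + (1 : ℚ) * z5))
    + ((1 : ℚ) * z6 + (-1 : ℚ) * z7 + (-1 : ℚ) * z8 + (-1 : ℚ) * z9 + (1 : ℚ) * z10 + (1 : ℚ) * z11 + (1 : ℚ) * z12 + (1 : ℚ) * z13)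

theorem L_g1_g2_e1_g2_g2_e0 (S : Sys6 G C D) (n6 n1 n3 n4 : ℕ) : C (n6 + 1) (n1 + 2) 1 (n3 + 2) (n4 + 2) 0 = 0 := by
  have r0 : C (n1 + 2) 0 1 (n3 + 2) (n4 + 2) (n6 + 1) = G (n6 + 1) 1 (n3 + 2) (n4 + 2) 0 (n1 + 2) 0 - G 1 (n3 + 2) (n4 + 2) (n6 + 1) 0 (n1 + 2) 0 + G 0 (n3 + 2) (n4 + 2) (n6 + 1) 1 (n1 + 2) 0 := S.al1 0 (n3 + 2) (n4 + 2) (n6 + 1) (n1 + 1) 0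
  have r1 : C (n1 + 2) 1 (n3 + 2) (n4 + 2) (n6 + 1) 0 = G 0 (n3 + 2) (n4 + 2) (n6 + 1) 0 (n1 + 2) 1 - G (n3 + 2) (n4 + 2) (n6 + 1) 0 0 (n1 + 2) 1 + G (n3 + 1) (n4 + 2) (n6 + 1) 0 1 (n1 + 2) 1 := S.al1 (n3 + 1) (n4 + 2) (n6 + 1) 0 (n1 + 1) 1
  have r2 : C (n6 + 1) 0 (n1 + 2) 1 (n3 + 2) (n4 + 2) = G (n4 + 2) (n1 + 2) 1 (n3 + 2) 0 (n6 + 1) 0 - G (n1 + 2) 1 (n3 + 2) (n4 + 2) 0 (n6 + 1) 0 + G (n1 + 1) 1 (n3 + 2) (n4 + 2) 1 (n6 + 1) 0 := S.al1 (n1 + 1) 1 (n3 + 2) (n4 + 2) n6 0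
  have z0 : G 0 (n3 + 2) (n4 + 2) (n6 + 1) 0 (n1 + 2) 1 = 0 := S.van' 0 n3 (n4 + 1) (n6 + 1) 0 (n1 + 2) 1
  have z1 : G 0 (n3 + 2) (n4 + 2) (n6 + 1) 1 (n1 + 2) 0 = 0 := S.van' 0 n3 (n4 + 1) (n6 + 1) 1 (n1 + 2) 0
  have z2 : G 1 (n3 + 2) (n4 + 2) (n6 + 1) 0 (n1 + 2) 0 = 0 := S.van' 1 n3 (n4 + 1) (n6 + 1) 0 (n1 + 2) 0
  have z3 : G (n1 + 1) 1 (n3 + 2) (n4 + 2) 1 (n6 + 1) 0 = G 1 (n3 + 2) (n4 + 2) (n1 + 1) 1 (n6 + 1) 0 := S.r3 (n1 + 1) 1 (n3 + 2) (n4 + 2) n6 0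
  have z4 : G 1 (n3 + 2) (n4 + 2) (n1 + 1) 1 (n6 + 1) 0 = 0 := S.van' 1 n3 (n4 + 1) (n1 + 1) 1 (n6 + 1) 0
  have z5 : G (n6 + 1) 1 (n3 + 2) (n4 + 2) 0 (n1 + 2) 0 = G 0 1 (n3 + 2) (n4 + 2) (n1 + 2) 0 (n6 + 1) := S.m3 (n6 + 1) (n3 + 1) (n4 + 2) 0 (n1 + 2) 0
  have z6 : G (n1 + 2) 1 (n3 + 2) (n4 + 2) 0 (n6 + 1) 0 = G 0 1 (n3 + 2) (n4 + 2) (n1 + 2) 0 (n6 + 1) := S.m1 (n1 + 2) (n3 + 1) (n4 + 2) 0 (n6 + 1) 0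
  have z7 : G (n3 + 1) (n4 + 2) (n6 + 1) 0 1 (n1 + 2) 1 = 0 := S.van' (n3 + 1) n4 n6 0 1 (n1 + 2) 1
  have z8 : G (n3 + 2) (n4 + 2) (n6 + 1) 0 0 (n1 + 2) 1 = 0 := S.van' (n3 + 2) n4 n6 0 0 (n1 + 2) 1
  have z9 : G (n4 + 2) (n1 + 2) 1 (n3 + 2) 0 (n6 + 1) 0 = 0 := S.van' (n4 + 2) n1 0 (n3 + 2) 0 (n6 + 1) 0
  have z10 : C (n1 + 2) 1 (n3 + 2) (n4 + 2) (n6 + 1) 0 = C (n1 + 2) 0 1 (n3 + 2) (n4 + 2) (n6 + 1) := S.c4 (n1 + 2) 1 (n3 + 2) (n4 + 2) (n6 + 1) 0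
  have z11 : C (n6 + 1) (n1 + 2) 1 (n3 + 2) (n4 + 2) 0 = C (n6 + 1) 0 (n1 + 2) 1 (n3 + 2) (n4 + 2) := S.c4 (n6 + 1) (n1 + 2) 1 (n3 + 2) (n4 + 2) 0
  linear_combination ((1 : ℚ) * r0 + (-1 : ℚ) * r1 + (1 : ℚ) * r2 + (-1 : ℚ) * z0 + (1 : ℚ) * z1 + (-1 : ℚ) * z2 + (1 : ℚ) * z3 + (1 : ℚ) * z4)
    + ((1 : ℚ) * z5 + (-1 : ℚ) * z6 + (-1 : ℚ) * z7 + (1 : ℚ) * z8 + (1 : ℚ) * z9 + (1 : ℚ) * z10 + (1 : ℚ) * z11)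

theorem L_g1_g2_g2_e1_e1_e0 (S : Sys6 G C D) (n6 n1 n2 : ℕ) : C (n6 + 1) (n1 + 2) (n2 + 2) 1 1 0 = 0 := by
  have r0 : C (n6 + 1) 0 (n1 + 2) (n2 + 2) 1 1 = G 1 (n1 + 2) (n2 + 2) 1 0 (n6 + 1) 0 - G (n1 + 2) (n2 + 2) 1 1 0 (n6 + 1) 0 + G (n1 + 1) (n2 + 2) 1 1 1 (n6 + 1) 0 := S.al1 (n1 + 1) (n2 + 2) 1 1 n6 0
  have z0 : G 1 (n1 + 2) (n2 + 2) 1 0 (n6 + 1) 0 = 0 := S.van' 1 n1 (n2 + 1) 1 0 (n6 + 1) 0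
  have z1 : G (n1 + 1) (n2 + 2) 1 1 1 (n6 + 1) 0 = 0 := S.van' (n1 + 1) n2 0 1 1 (n6 + 1) 0
  have z2 : G (n1 + 2) (n2 + 2) 1 1 0 (n6 + 1) 0 = 0 := S.van' (n1 + 2) n2 0 1 0 (n6 + 1) 0
  have z3 : C (n6 + 1) (n1 + 2) (n2 + 2) 1 1 0 = C (n6 + 1) 0 (n1 + 2) (n2 + 2) 1 1 := S.c4 (n6 + 1) (n1 + 2) (n2 + 2) 1 1 0
  linear_combination (1 : ℚ) * r0 + (1 : ℚ) * z0 + (1 : ℚ) * z1 + (-1 : ℚ) * z2 + (1 : ℚ) * z3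

theorem L_g1_g2_g2_e1_g2_e0 (S : Sys6 G C D) (n6 n1 n2 n4 : ℕ) : C (n6 + 1) (n1 + 2) (n2 + 2) 1 (n4 + 2) 0 = 0 := by
  have r0 : C (n6 + 1) 0 (n1 + 2) (n2 + 2) 1 (n4 + 2) = G (n4 + 2) (n1 + 2) (n2 + 2) 1 0 (n6 + 1) 0 - G (n1 + 2) (n2 + 2) 1 (n4 + 2) 0 (n6 + 1) 0 + G (n1 + 1) (n2 + 2) 1 (n4 + 2) 1 (n6 + 1) 0 := S.al1 (n1 + 1) (n2 + 2) 1 (n4 + 2) n6 0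
  have z0 : G (n1 + 1) (n2 + 2) 1 (n4 + 2) 1 (n6 + 1) 0 = 0 := S.van' (n1 + 1) n2 0 (n4 + 2) 1 (n6 + 1) 0
  have z1 : G (n1 + 2) (n2 + 2) 1 (n4 + 2) 0 (n6 + 1) 0 = 0 := S.van' (n1 + 2) n2 0 (n4 + 2) 0 (n6 + 1) 0
  have z2 : G (n4 + 2) (n1 + 2) (n2 + 2) 1 0 (n6 + 1) 0 = 0 := S.van' (n4 + 2) n1 (n2 + 1) 1 0 (n6 + 1) 0
  have z3 : C (n6 + 1) (n1 + 2) (n2 + 2) 1 (n4 + 2) 0 = C (n6 + 1) 0 (n1 + 2) (n2 + 2) 1 (n4 + 2) := S.c4 (n6 + 1) (n1 + 2) (n2 + 2) 1 (n4 + 2) 0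
  linear_combination (1 : ℚ) * r0 + (1 : ℚ) * z0 + (-1 : ℚ) * z1 + (1 : ℚ) * z2 + (1 : ℚ) * z3

theorem L_g1_g2_g2_g2_e1_e0 (S : Sys6 G C D) (n6 n1 n2 n3 : ℕ) : C (n6 + 1) (n1 + 2) (n2 + 2) (n3 + 2) 1 0 = 0 := by
  have r0 : C (n6 + 1) 0 (n1 + 2) (n2 + 2) (n3 + 2) 1 = G 1 (n1 + 2) (n2 + 2) (n3 + 2) 0 (n6 + 1) 0 - G (n1 + 2) (n2 + 2) (n3 + 2) 1 0 (n6 + 1) 0 + G (n1 + 1) (n2 + 2) (n3 + 2) 1 1 (n6 + 1) 0 := S.al1 (n1 + 1) (n2 + 2) (n3 + 2) 1 n6 0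
  have z0 : G 1 (n1 + 2) (n2 + 2) (n3 + 2) 0 (n6 + 1) 0 = 0 := S.van' 1 n1 (n2 + 1) (n3 + 2) 0 (n6 + 1) 0
  have z1 : G (n1 + 1) (n2 + 2) (n3 + 2) 1 1 (n6 + 1) 0 = 0 := S.van' (n1 + 1) n2 (n3 + 1) 1 1 (n6 + 1) 0
  have z2 : G (n1 + 2) (n2 + 2) (n3 + 2) 1 0 (n6 + 1) 0 = 0 := S.van' (n1 + 2) n2 (n3 + 1) 1 0 (n6 + 1) 0
  have z3 : C (n6 + 1) (n1 + 2) (n2 + 2) (n3 + 2) 1 0 = C (n6 + 1) 0 (n1 + 2) (n2 + 2) (n3 + 2) 1 := S.c4 (n6 + 1) (n1 + 2) (n2 + 2) (n3 + 2) 1 0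
  linear_combination (1 : ℚ) * r0 + (1 : ℚ) * z0 + (1 : ℚ) * z1 + (-1 : ℚ) * z2 + (1 : ℚ) * z3

theorem L_g1_g2_g2_g2_g2_e0 (S : Sys6 G C D) (n6 n1 n2 n3 n4 : ℕ) : C (n6 + 1) (n1 + 2) (n2 + 2) (n3 + 2) (n4 + 2) 0 = 0 := by
  have r0 : C (n6 + 1) 0 (n1 + 2) (n2 + 2) (n3 + 2) (n4 + 2) = G (n4 + 2) (n1 + 2) (n2 + 2) (n3 + 2) 0 (n6 + 1) 0 - G (n1 + 2) (n2 + 2) (n3 + 2) (n4 + 2) 0 (n6 + 1) 0 + G (n1 + 1) (n2 + 2) (n3 + 2) (n4 + 2) 1 (n6 + 1) 0 := S.al1 (n1 + 1) (n2 + 2) (n3 + 2) (n4 + 2) n6 0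
  have z0 : G (n1 + 1) (n2 + 2) (n3 + 2) (n4 + 2) 1 (n6 + 1) 0 = 0 := S.van' (n1 + 1) n2 (n3 + 1) (n4 + 2) 1 (n6 + 1) 0
  have z1 : G (n1 + 2) (n2 + 2) (n3 + 2) (n4 + 2) 0 (n6 + 1) 0 = 0 := S.van' (n1 + 2) n2 (n3 + 1) (n4 + 2) 0 (n6 + 1) 0
  have z2 : G (n4 + 2) (n1 + 2) (n2 + 2) (n3 + 2) 0 (n6 + 1) 0 = 0 := S.van' (n4 + 2) n1 (n2 + 1) (n3 + 2) 0 (n6 + 1) 0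
  have z3 : C (n6 + 1) (n1 + 2) (n2 + 2) (n3 + 2) (n4 + 2) 0 = C (n6 + 1) 0 (n1 + 2) (n2 + 2) (n3 + 2) (n4 + 2) := S.c4 (n6 + 1) (n1 + 2) (n2 + 2) (n3 + 2) (n4 + 2) 0
  linear_combination (1 : ℚ) * r0 + (1 : ℚ) * z0 + (-1 : ℚ) * z1 + (1 : ℚ) * z2 + (1 : ℚ) * z3

theorem L_g1_e1_e1_g2_g2_e0 (S : Sys6 G C D) (n6 n3 n4 : ℕ) : C (n6 + 1) 1 1 (n3 + 2) (n4 + 2) 0 = 0 := by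
  have r0 : C 1 (n6 + 1) 1 1 (n3 + 1) (n4 + 2) = G (n4 + 2) 1 1 (n3 + 1) 0 1 (n6 + 1) - G 1 1 (n3 + 1) (n4 + 2) 0 1 (n6 + 1) + G 0 1 (n3 + 1) (n4 + 2) 1 1 (n6 + 1) := S.al1 0 1 (n3 + 1) (n4 + 2) 0 (n6 + 1)
  have r1 : C (n6 + 1) 1 0 1 (n3 + 2) (n4 + 2) = G (n4 + 2) 0 1 (n3 + 2) 0 (n6 + 1) 1 - G 0 1 (n3 + 2) (n4 + 2) 0 (n6 + 1) 1 := S.al0 1 (n3 + 2) (n4 + 2) n6 1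
  have r2 : C (n6 + 1) 1 1 (n3 + 2) (n4 + 2) 0 = G 0 1 (n3 + 2) (n4 + 2) 0 (n6 + 1) 1 - G 1 (n3 + 2) (n4 + 2) 0 0 (n6 + 1) 1 + G 0 (n3 + 2) (n4 + 2) 0 1 (n6 + 1) 1 := S.al1 0 (n3 + 2) (n4 + 2) 0 n6 1
  have r3 : C (n6 + 1) 1 (n3 + 2) (n4 + 2) 0 1 = G 1 (n3 + 2) (n4 + 2) 0 0 (n6 + 1) 1 - G (n3 + 2) (n4 + 2) 0 1 0 (n6 + 1) 1 + G (n3 + 1) (n4 + 2) 0 1 1 (n6 + 1) 1 := S.al1 (n3 + 1) (n4 + 2) 0 1 n6 1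
  have r4 : C (n6 + 1) 1 (n4 + 2) 0 1 (n3 + 2) = G (n3 + 2) (n4 + 2) 0 1 0 (n6 + 1) 1 - G (n4 + 2) 0 1 (n3 + 2) 0 (n6 + 1) 1 + G (n4 + 1) 0 1 (n3 + 2) 1 (n6 + 1) 1 := S.al1 (n4 + 1) 0 1 (n3 + 2) n6 1
  have z0 : G 0 1 (n3 + 1) (n4 + 2) 1 1 (n6 + 1) = G 1 1 (n3 + 1) (n4 + 2) 1 (n6 + 1) 0 := S.m3 0 n3 (n4 + 2) 1 1 (n6 + 1)
  have z1 : G 1 1 (n3 + 1) (n4 + 2) 1 (n6 + 1) 0 = G (n3 + 1) (n4 + 2) 1 1 1 (n6 + 1) 0 := S.r2 1 1 (n3 + 1) (n4 + 2) n6 0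
  have z2 : G (n3 + 1) (n4 + 2) 1 1 1 (n6 + 1) 0 = 0 := S.van' (n3 + 1) n4 0 1 1 (n6 + 1) 0
  have z3 : G 0 (n3 + 2) (n4 + 2) 0 1 (n6 + 1) 1 = 0 := S.van' 0 n3 (n4 + 1) 0 1 (n6 + 1) 1
  have z4 : G (n3 + 1) (n4 + 2) 0 1 1 (n6 + 1) 1 = G 0 1 (n3 + 1) (n4 + 2) 1 (n6 + 1) 1 := S.r2 (n3 + 1) (n4 + 2) 0 1 n6 1
  have z5 : G 1 1 (n3 + 1) (n4 + 2) 0 1 (n6 + 1) = G 0 1 (n3 + 1) (n4 + 2) 1 (n6 + 1) 1 := S.m3 1 n3 (n4 + 2) 0 1 (n6 + 1)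
  have z6 : G (n4 + 1) 0 1 (n3 + 2) 1 (n6 + 1) 1 = G 1 (n3 + 2) (n4 + 1) 0 1 (n6 + 1) 1 := S.r2 (n4 + 1) 0 1 (n3 + 2) n6 1
  have z7 : G 1 (n3 + 2) (n4 + 1) 0 1 (n6 + 1) 1 = 0 := S.van' 1 n3 n4 0 1 (n6 + 1) 1
  have z8 : G (n4 + 2) 1 1 (n3 + 1) 0 1 (n6 + 1) = G 0 1 1 (n3 + 1) 1 (n6 + 1) (n4 + 2) := S.m3 (n4 + 2) 0 (n3 + 1) 0 1 (n6 + 1)
  have z9 : G 0 1 1 (n3 + 1) 1 (n6 + 1) (n4 + 2) = G 1 1 (n3 + 1) 0 1 (n6 + 1) (n4 + 2) := S.r3 0 1 1 (n3 + 1) n6 (n4 + 2)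
  have z10 : G 1 1 (n3 + 1) 0 1 (n6 + 1) (n4 + 2) = G (n6 + 1) 1 (n3 + 1) 0 (n4 + 2) 1 1 := S.m2 1 n3 0 1 (n6 + 1) (n4 + 2)
  have z11 : G (n6 + 1) 1 (n3 + 1) 0 (n4 + 2) 1 1 = 0 := S.van (n6 + 1) 1 (n3 + 1) 0 n4 0 1
  have z12 : C 1 (n6 + 1) 1 1 (n3 + 1) (n4 + 2) = 0 := S_p5 S 0 n6 0 0 n3 (n4 + 1)
  have z13 : C (n6 + 1) 1 0 1 (n3 + 2) (n4 + 2) = 0 := (S.c2 (n6 + 1) 1 0 1 (n3 + 2) (n4 + 2)).trans (L_g1_e1_g2_g2_e1_e0 S n6 n3 n4)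
  have z14 : C (n6 + 1) 1 (n3 + 2) (n4 + 2) 0 1 = C (n6 + 1) 1 1 (n3 + 2) (n4 + 2) 0 := S.c4 (n6 + 1) 1 (n3 + 2) (n4 + 2) 0 1
  have z15 : C (n6 + 1) 1 (n4 + 2) 0 1 (n3 + 2) = 0 := (S.c3 (n6 + 1) 1 (n4 + 2) 0 1 (n3 + 2)).trans (L_g1_e1_g2_e1_g2_e0 S n6 n3 n4)
  linear_combination (((1 / 2 : ℚ) * r0 + (1 / 2 : ℚ) * r1 + (1 / 2 : ℚ) * r2 + (1 / 2 : ℚ) * r3 + (1 / 2 : ℚ) * r4 + (1 / 2 : ℚ) * z0)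
    + ((1 / 2 : ℚ) * z1 + (1 / 2 : ℚ) * z2 + (1 / 2 : ℚ) * z3 + (1 / 2 : ℚ) * z4 + (-1 / 2 : ℚ) * z5))
    + (((1 / 2 : ℚ) * z6 + (1 / 2 : ℚ) * z7 + (1 / 2 : ℚ) * z8 + (1 / 2 : ℚ) * z9 + (1 / 2 : ℚ) * z10)
    + ((1 / 2 : ℚ) * z11 + (-1 / 2 : ℚ) * z12 + (-1 / 2 : ℚ) * z13 + (-1 / 2 : ℚ) * z14 + (-1 / 2 : ℚ) * z15))

theorem L_g1_g2_e1_e1_g2_e0 (S : Sys6 G C D) (n6 n1 n4 : ℕ) : C (n6 + 1) (n1 + 2) 1 1 (n4 + 2) 0 = 0 := by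
  have r0 : C (n6 + 1) 0 1 1 (n4 + 2) (n1 + 2) = G (n1 + 2) 1 1 (n4 + 2) 0 (n6 + 1) 0 - G 1 1 (n4 + 2) (n1 + 2) 0 (n6 + 1) 0 + G 0 1 (n4 + 2) (n1 + 2) 1 (n6 + 1) 0 := S.al1 0 1 (n4 + 2) (n1 + 2) n6 0
  have r1 : C (n6 + 1) 0 1 (n4 + 2) (n1 + 2) 1 = G 1 1 (n4 + 2) (n1 + 2) 0 (n6 + 1) 0 - G 1 (n4 + 2) (n1 + 2) 1 0 (n6 + 1) 0 + G 0 (n4 + 2) (n1 + 2) 1 1 (n6 + 1) 0 := S.al1 0 (n4 + 2) (n1 + 2) 1 n6 0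
  have r2 : C (n6 + 1) 0 (n1 + 2) 1 1 (n4 + 2) = G (n4 + 2) (n1 + 2) 1 1 0 (n6 + 1) 0 - G (n1 + 2) 1 1 (n4 + 2) 0 (n6 + 1) 0 + G (n1 + 1) 1 1 (n4 + 2) 1 (n6 + 1) 0 := S.al1 (n1 + 1) 1 1 (n4 + 2) n6 0
  have z0 : G 0 1 (n4 + 2) (n1 + 2) 1 (n6 + 1) 0 = G 1 (n4 + 2) (n1 + 2) 0 1 (n6 + 1) 0 := S.r3 0 1 (n4 + 2) (n1 + 2) n6 0
  have z1 : G 1 (n4 + 2) (n1 + 2) 0 1 (n6 + 1) 0 = 0 := S.van' 1 n4 (n1 + 1) 0 1 (n6 + 1) 0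
  have z2 : G 0 (n4 + 2) (n1 + 2) 1 1 (n6 + 1) 0 = 0 := S.van' 0 n4 (n1 + 1) 1 1 (n6 + 1) 0
  have z3 : G 1 (n4 + 2) (n1 + 2) 1 0 (n6 + 1) 0 = 0 := S.van' 1 n4 (n1 + 1) 1 0 (n6 + 1) 0
  have z4 : G (n1 + 1) 1 1 (n4 + 2) 1 (n6 + 1) 0 = G 1 (n4 + 2) (n1 + 1) 1 1 (n6 + 1) 0 := S.r2 (n1 + 1) 1 1 (n4 + 2) n6 0
  have z5 : G 1 (n4 + 2) (n1 + 1) 1 1 (n6 + 1) 0 = 0 := S.van' 1 n4 n1 1 1 (n6 + 1) 0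
  have z6 : G (n4 + 2) (n1 + 2) 1 1 0 (n6 + 1) 0 = 0 := S.van' (n4 + 2) n1 0 1 0 (n6 + 1) 0
  have z7 : C (n6 + 1) 0 1 1 (n4 + 2) (n1 + 2) = 0 := (S.c1 (n6 + 1) 0 1 1 (n4 + 2) (n1 + 2)).trans (L_g1_e1_e1_g2_g2_e0 S n6 n4 n1)
  have z8 : C (n6 + 1) 0 1 (n4 + 2) (n1 + 2) 1 = 0 := (S.c1 (n6 + 1) 0 1 (n4 + 2) (n1 + 2) 1).trans (L_g1_e1_g2_g2_e1_e0 S n6 n4 n1)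
  have z9 : C (n6 + 1) (n1 + 2) 1 1 (n4 + 2) 0 = C (n6 + 1) 0 (n1 + 2) 1 1 (n4 + 2) := S.c4 (n6 + 1) (n1 + 2) 1 1 (n4 + 2) 0
  linear_combination ((1 : ℚ) * r0 + (1 : ℚ) * r1 + (1 : ℚ) * r2 + (1 : ℚ) * z0 + (1 : ℚ) * z1 + (1 : ℚ) * z2 + (-1 : ℚ) * z3)
    + ((1 : ℚ) * z4 + (1 : ℚ) * z5 + (1 : ℚ) * z6 + (-1 : ℚ) * z7 + (-1 : ℚ) * z8 + (1 : ℚ) * z9)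

theorem L_g1_g2_e1_e1_e1_e0 (S : Sys6 G C D) (n6 n1 : ℕ) : C (n6 + 1) (n1 + 2) 1 1 1 0 = 0 := by
  have r0 : D 1 (n6 + 1) 1 1 1 (n1 + 1) = G (n1 + 1) 0 1 (n6 + 1) 1 1 1 - G 1 0 1 (n6 + 1) 1 1 (n1 + 1) + G 0 1 1 (n6 + 1) 1 1 (n1 + 1) := S.al1' 0 0 (n6 + 1) 1 1 (n1 + 1)
  have r1 : D (n1 + 2) 1 0 1 (n6 + 1) 1 = G 1 0 (n1 + 2) 1 0 1 (n6 + 1) - G 0 0 (n1 + 2) 1 1 (n6 + 1) 1 := S.al0' (n1 + 1) 1 1 (n6 + 1) 1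
  have r2 : D (n1 + 2) 1 0 (n6 + 1) 1 1 = G 1 0 (n1 + 2) 1 0 (n6 + 1) 1 - G 0 0 (n1 + 2) 1 (n6 + 1) 1 1 := S.al0' (n1 + 1) 1 (n6 + 1) 1 1
  have r3 : D (n1 + 2) 1 (n6 + 1) 1 1 0 = G 0 0 (n1 + 2) 1 (n6 + 1) 1 1 - G (n6 + 1) 0 (n1 + 2) 1 1 1 0 + G n6 1 (n1 + 2) 1 1 1 0 := S.al1' n6 (n1 + 1) 1 1 1 0
  have r4 : D (n1 + 2) (n6 + 1) 1 1 1 0 = G 0 0 (n1 + 2) (n6 + 1) 1 1 1 - G 1 0 (n1 + 2) (n6 + 1) 1 1 0 + G 0 1 (n1 + 2) (n6 + 1) 1 1 0 := S.al1' 0 (n1 + 1) (n6 + 1) 1 1 0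
  have r5 : C 1 0 (n1 + 2) 1 1 (n6 + 1) = G (n6 + 1) (n1 + 2) 1 1 0 1 0 - G (n1 + 2) 1 1 (n6 + 1) 0 1 0 + G (n1 + 1) 1 1 (n6 + 1) 1 1 0 := S.al1 (n1 + 1) 1 1 (n6 + 1) 0 0
  have r6 : C 1 1 1 1 (n1 + 1) (n6 + 1) = G (n6 + 1) 1 1 (n1 + 1) 0 1 1 - G 1 1 (n1 + 1) (n6 + 1) 0 1 1 + G 0 1 (n1 + 1) (n6 + 1) 1 1 1 := S.al1 0 1 (n1 + 1) (n6 + 1) 0 1
  have r7 : C 1 (n1 + 2) 1 1 (n6 + 1) 0 = G 0 1 1 (n6 + 1) 0 1 (n1 + 2) - G 1 1 (n6 + 1) 0 0 1 (n1 + 2) + G 0 1 (n6 + 1) 0 1 1 (n1 + 2) := S.al1 0 1 (n6 + 1) 0 0 (n1 + 2)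
  have r8 : C 1 (n6 + 1) 0 (n1 + 2) 1 1 = G 1 0 (n1 + 2) 1 0 1 (n6 + 1) - G 0 (n1 + 2) 1 1 0 1 (n6 + 1) := S.al0 (n1 + 2) 1 1 0 (n6 + 1)
  have r9 : C (n1 + 2) 0 1 1 1 (n6 + 1) = G (n6 + 1) 1 1 1 0 (n1 + 2) 0 - G 1 1 1 (n6 + 1) 0 (n1 + 2) 0 + G 0 1 1 (n6 + 1) 1 (n1 + 2) 0 := S.al1 0 1 1 (n6 + 1) (n1 + 1) 0
  have r10 : C (n1 + 2) 1 1 1 (n6 + 1) 0 = G 0 1 1 (n6 + 1) 0 (n1 + 2) 1 - G 1 1 (n6 + 1) 0 0 (n1 + 2) 1 + G 0 1 (n6 + 1) 0 1 (n1 + 2) 1 := S.al1 0 1 (n6 + 1) 0 (n1 + 1) 1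
  have r11 : C (n6 + 1) 0 (n1 + 2) 1 1 1 = G 1 (n1 + 2) 1 1 0 (n6 + 1) 0 - G (n1 + 2) 1 1 1 0 (n6 + 1) 0 + G (n1 + 1) 1 1 1 1 (n6 + 1) 0 := S.al1 (n1 + 1) 1 1 1 n6 0
  have r12 : C (n6 + 1) 1 0 (n1 + 2) 1 1 = G 1 0 (n1 + 2) 1 0 (n6 + 1) 1 - G 0 (n1 + 2) 1 1 0 (n6 + 1) 1 := S.al0 (n1 + 2) 1 1 n6 1
  have z0 : G 0 0 (n1 + 2) 1 1 (n6 + 1) 1 = G 0 (n1 + 2) 1 0 1 (n6 + 1) 1 := S.r3 0 0 (n1 + 2) 1 n6 1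
  have z1 : G 0 (n1 + 2) 1 0 1 (n6 + 1) 1 = 0 := S.van' 0 n1 0 0 1 (n6 + 1) 1
  have z2 : G 0 0 (n1 + 2) (n6 + 1) 1 1 1 = G 0 (n1 + 2) (n6 + 1) 0 1 1 1 := S.r3 0 0 (n1 + 2) (n6 + 1) 0 1
  have z3 : G 0 (n1 + 2) (n6 + 1) 0 1 1 1 = 0 := S.van' 0 n1 n6 0 1 1 1
  have z4 : G 0 1 1 (n6 + 1) 0 1 (n1 + 2) = G 0 1 1 (n6 + 1) 1 (n1 + 2) 0 := S.m3 0 0 (n6 + 1) 0 1 (n1 + 2)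
  have z5 : G 0 1 1 (n6 + 1) 1 (n1 + 2) 0 = G 1 1 (n6 + 1) 0 1 (n1 + 2) 0 := S.r3 0 1 1 (n6 + 1) (n1 + 1) 0
  have z6 : G 1 1 (n6 + 1) 0 1 (n1 + 2) 0 = G 0 1 (n6 + 1) 0 1 1 (n1 + 2) := S.m1 1 n6 0 1 (n1 + 2) 0
  have z7 : G 0 1 1 (n6 + 1) 0 (n1 + 2) 1 = G 0 1 1 (n6 + 1) (n1 + 2) 1 0 := S.m3 0 0 (n6 + 1) 0 (n1 + 2) 1
  have z8 : G 0 1 1 (n6 + 1) (n1 + 2) 1 0 = 0 := S.van 0 1 1 (n6 + 1) n1 0 0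
  have z9 : G 1 0 1 (n6 + 1) 1 1 (n1 + 1) = G 0 1 (n6 + 1) 1 1 1 (n1 + 1) := S.r3 1 0 1 (n6 + 1) 0 (n1 + 1)
  have z10 : G 0 1 (n6 + 1) 1 1 1 (n1 + 1) = G 1 1 (n6 + 1) 1 1 (n1 + 1) 0 := S.m3 0 n6 1 1 1 (n1 + 1)
  have z11 : G 0 1 1 (n6 + 1) 1 1 (n1 + 1) = G 1 1 1 (n6 + 1) 1 (n1 + 1) 0 := S.m3 0 0 (n6 + 1) 1 1 (n1 + 1)
  have z12 : G 1 1 (n6 + 1) 1 1 (n1 + 1) 0 = G (n6 + 1) 1 1 1 1 (n1 + 1) 0 := S.r2 1 1 (n6 + 1) 1 n1 0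
  have z13 : G 1 1 1 (n6 + 1) 1 (n1 + 1) 0 = G (n6 + 1) 1 1 1 1 (n1 + 1) 0 := S.r1 1 1 1 (n6 + 1) n1 0
  have z14 : G 0 1 (n1 + 1) (n6 + 1) 1 1 1 = G 1 1 (n1 + 1) (n6 + 1) 1 1 0 := S.m3 0 n1 (n6 + 1) 1 1 1
  have z15 : G 1 1 (n1 + 1) (n6 + 1) 0 1 1 = G 1 1 (n1 + 1) (n6 + 1) 1 1 0 := S.m2 1 n1 (n6 + 1) 0 1 1
  have z16 : G 0 1 (n1 + 2) (n6 + 1) 1 1 0 = G 1 (n1 + 2) (n6 + 1) 0 1 1 0 := S.r3 0 1 (n1 + 2) (n6 + 1) 0 0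
  have z17 : G 1 (n1 + 2) (n6 + 1) 0 1 1 0 = 0 := S.van' 1 n1 n6 0 1 1 0
  have z18 : G 0 1 (n6 + 1) 0 1 (n1 + 2) 1 = G 1 1 (n6 + 1) 0 (n1 + 2) 1 0 := S.m3 0 n6 0 1 (n1 + 2) 1
  have z19 : G 1 1 (n6 + 1) 0 0 1 (n1 + 2) = G 1 1 (n6 + 1) 0 (n1 + 2) 1 0 := S.m2 1 n6 0 0 1 (n1 + 2)
  have z20 : G 1 1 (n6 + 1) 0 (n1 + 2) 1 0 = 0 := S.van 1 1 (n6 + 1) 0 n1 0 0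
  have z21 : G 0 (n1 + 2) 1 1 0 1 (n6 + 1) = 0 := S.van' 0 n1 0 1 0 1 (n6 + 1)
  have z22 : G 0 (n1 + 2) 1 1 0 (n6 + 1) 1 = 0 := S.van' 0 n1 0 1 0 (n6 + 1) 1
  have z23 : G 1 0 (n1 + 2) (n6 + 1) 1 1 0 = G 0 (n1 + 2) (n6 + 1) 1 1 1 0 := S.r3 1 0 (n1 + 2) (n6 + 1) 0 0
  have z24 : G 0 (n1 + 2) (n6 + 1) 1 1 1 0 = 0 := S.van' 0 n1 n6 1 1 1 0
  have z25 : G (n1 + 2) 1 1 (n6 + 1) 0 1 0 = G 0 1 1 (n6 + 1) 1 0 (n1 + 2) := S.m3 (n1 + 2) 0 (n6 + 1) 0 1 0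
  have z26 : G 1 1 1 (n6 + 1) 0 (n1 + 2) 0 = G 0 1 1 (n6 + 1) 1 0 (n1 + 2) := S.m1 1 0 (n6 + 1) 0 (n1 + 2) 0
  have z27 : G 1 1 (n6 + 1) 0 0 (n1 + 2) 1 = G 0 1 (n6 + 1) 0 (n1 + 2) 1 1 := S.m3 1 n6 0 0 (n1 + 2) 1
  have z28 : G (n6 + 1) 0 (n1 + 2) 1 1 1 0 = G 0 (n1 + 2) 1 (n6 + 1) 1 1 0 := S.r3 (n6 + 1) 0 (n1 + 2) 1 0 0
  have z29 : G 0 1 (n6 + 1) 0 (n1 + 2) 1 1 = 0 := S.van 0 1 (n6 + 1) 0 n1 0 1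
  have z30 : G 0 (n1 + 2) 1 (n6 + 1) 1 1 0 = 0 := S.van' 0 n1 0 (n6 + 1) 1 1 0
  have z31 : G 1 (n1 + 2) 1 1 0 (n6 + 1) 0 = 0 := S.van' 1 n1 0 1 0 (n6 + 1) 0
  have z32 : G (n1 + 1) 0 1 (n6 + 1) 1 1 1 = G 0 1 (n6 + 1) (n1 + 1) 1 1 1 := S.r3 (n1 + 1) 0 1 (n6 + 1) 0 1
  have z33 : G 0 1 (n6 + 1) (n1 + 1) 1 1 1 = G 1 1 (n6 + 1) (n1 + 1) 1 1 0 := S.m3 0 n6 (n1 + 1) 1 1 1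
  have z34 : G 1 1 (n6 + 1) (n1 + 1) 1 1 0 = G (n1 + 1) 1 1 (n6 + 1) 1 1 0 := S.r1 1 1 (n6 + 1) (n1 + 1) 0 0
  have z35 : G (n6 + 1) 1 1 (n1 + 1) 0 1 1 = G 1 1 1 (n1 + 1) 1 (n6 + 1) 0 := S.m2 (n6 + 1) 0 (n1 + 1) 0 1 1
  have z36 : G 1 1 1 (n1 + 1) 1 (n6 + 1) 0 = G (n1 + 1) 1 1 1 1 (n6 + 1) 0 := S.r1 1 1 1 (n1 + 1) n6 0
  have z37 : G (n6 + 1) 1 1 1 0 (n1 + 2) 0 = G 0 1 1 1 (n1 + 2) 0 (n6 + 1) := S.m3 (n6 + 1) 0 1 0 (n1 + 2) 0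
  have z38 : G (n1 + 2) 1 1 1 0 (n6 + 1) 0 = G 0 1 1 1 (n1 + 2) 0 (n6 + 1) := S.m1 (n1 + 2) 0 1 0 (n6 + 1) 0
  have z39 : G n6 1 (n1 + 2) 1 1 1 0 = G 1 (n1 + 2) 1 n6 1 1 0 := S.r3 n6 1 (n1 + 2) 1 0 0
  have z40 : G 1 (n1 + 2) 1 n6 1 1 0 = 0 := S.van' 1 n1 0 n6 1 1 0
  have z41 : G (n6 + 1) (n1 + 2) 1 1 0 1 0 = 0 := S.van' (n6 + 1) n1 0 1 0 1 0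
  have z42 : D 1 (n6 + 1) 1 1 1 (n1 + 1) = 0 := S_p5 S.mirror 0 n6 0 0 0 n1
  have z43 : D (n1 + 2) 1 (n6 + 1) 1 1 0 = D (n1 + 2) 1 0 1 (n6 + 1) 1 := S.d3 (n1 + 2) 1 (n6 + 1) 1 1 0
  have z44 : D (n1 + 2) (n6 + 1) 1 1 1 0 = D (n1 + 2) 1 0 (n6 + 1) 1 1 := S.d3 (n1 + 2) (n6 + 1) 1 1 1 0
  have z45 : C 1 (n1 + 2) 1 1 (n6 + 1) 0 = C 1 0 (n1 + 2) 1 1 (n6 + 1) := S.c4 1 (n1 + 2) 1 1 (n6 + 1) 0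
  have z46 : C 1 (n6 + 1) 0 (n1 + 2) 1 1 = C 1 0 (n1 + 2) 1 1 (n6 + 1) := S.c1 1 (n6 + 1) 0 (n1 + 2) 1 1
  have z47 : C 1 1 1 1 (n1 + 1) (n6 + 1) = 0 := S_p5 S 0 0 0 0 n1 n6
  have z48 : C (n1 + 2) 1 1 1 (n6 + 1) 0 = C (n1 + 2) 0 1 1 1 (n6 + 1) := S.c4 (n1 + 2) 1 1 1 (n6 + 1) 0
  have z49 : C (n6 + 1) 1 0 (n1 + 2) 1 1 = C (n6 + 1) 0 (n1 + 2) 1 1 1 := S.c1 (n6 + 1) 1 0 (n1 + 2) 1 1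
  have z50 : C (n6 + 1) (n1 + 2) 1 1 1 0 = C (n6 + 1) 0 (n1 + 2) 1 1 1 := S.c4 (n6 + 1) (n1 + 2) 1 1 1 0
  linear_combination ((((-2 : ℚ) * r0 + (3 : ℚ) * r1 + (-3 : ℚ) * r2 + (-3 : ℚ) * r3 + (3 : ℚ) * r4 + (2 : ℚ) * r5 + (2 : ℚ) * r6 + (1 : ℚ) * r7)
    + ((-3 : ℚ) * r8 + (-2 : ℚ) * r9 + (2 : ℚ) * r10 + (-2 : ℚ) * r11 + (3 : ℚ) * r12 + (-3 : ℚ) * z0 + (-3 : ℚ) * z1 + (3 : ℚ) * z2))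
    + (((3 : ℚ) * z3 + (1 : ℚ) * z4 + (-1 : ℚ) * z5 + (-1 : ℚ) * z6 + (2 : ℚ) * z7 + (2 : ℚ) * z8 + (2 : ℚ) * z9 + (2 : ℚ) * z10)
    + ((-2 : ℚ) * z11 + (2 : ℚ) * z12 + (-2 : ℚ) * z13 + (2 : ℚ) * z14 + (-2 : ℚ) * z15 + (3 : ℚ) * z16 + (3 : ℚ) * z17 + (2 : ℚ) * z18)))
    + ((((-1 : ℚ) * z19 + (1 : ℚ) * z20 + (3 : ℚ) * z21 + (-3 : ℚ) * z22 + (-3 : ℚ) * z23 + (-3 : ℚ) * z24 + (-2 : ℚ) * z25 + (2 : ℚ) * z26)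
    + ((-2 : ℚ) * z27 + (3 : ℚ) * z28 + (-2 : ℚ) * z29 + (3 : ℚ) * z30 + (-2 : ℚ) * z31 + (-2 : ℚ) * z32 + (-2 : ℚ) * z33 + (-2 : ℚ) * z34))
    + (((2 : ℚ) * z35 + (2 : ℚ) * z36 + (-2 : ℚ) * z37 + (2 : ℚ) * z38 + (-3 : ℚ) * z39 + (-3 : ℚ) * z40 + (2 : ℚ) * z41 + (2 : ℚ) * z42)
    + ((3 : ℚ) * z43 + (-3 : ℚ) * z44 + (-1 : ℚ) * z45 + (3 : ℚ) * z46 + (-2 : ℚ) * z47 + (-2 : ℚ) * z48 + (-3 : ℚ) * z49 + (1 : ℚ) * z50)))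

theorem L_g1_e1_g2_e1_e1_e0 (S : Sys6 G C D) (n6 n2 : ℕ) : C (n6 + 1) 1 (n2 + 2) 1 1 0 = 0 := by
  have r0 : D 1 1 1 1 (n2 + 1) (n6 + 1) = G (n6 + 1) 0 1 1 1 1 (n2 + 1) - G 1 0 1 1 1 (n2 + 1) (n6 + 1) + G 0 1 1 1 1 (n2 + 1) (n6 + 1) := S.al1' 0 0 1 1 (n2 + 1) (n6 + 1)
  have r1 : C 1 0 1 (n2 + 2) 1 (n6 + 1) = G (n6 + 1) 1 (n2 + 2) 1 0 1 0 - G 1 (n2 + 2) 1 (n6 + 1) 0 1 0 + G 0 (n2 + 2) 1 (n6 + 1) 1 1 0 := S.al1 0 (n2 + 2) 1 (n6 + 1) 0 0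
  have r2 : C 1 0 (n2 + 2) 1 1 (n6 + 1) = G (n6 + 1) (n2 + 2) 1 1 0 1 0 - G (n2 + 2) 1 1 (n6 + 1) 0 1 0 + G (n2 + 1) 1 1 (n6 + 1) 1 1 0 := S.al1 (n2 + 1) 1 1 (n6 + 1) 0 0
  have r3 : C 1 1 (n2 + 2) 1 (n6 + 1) 0 = G 0 (n2 + 2) 1 (n6 + 1) 0 1 1 - G (n2 + 2) 1 (n6 + 1) 0 0 1 1 + G (n2 + 1) 1 (n6 + 1) 0 1 1 1 := S.al1 (n2 + 1) 1 (n6 + 1) 0 0 1
  have r4 : C 1 (n2 + 2) 1 1 (n6 + 1) 0 = G 0 1 1 (n6 + 1) 0 1 (n2 + 2) - G 1 1 (n6 + 1) 0 0 1 (n2 + 2) + G 0 1 (n6 + 1) 0 1 1 (n2 + 2) := S.al1 0 1 (n6 + 1) 0 0 (n2 + 2)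
  have r5 : C (n2 + 1) 1 1 1 1 (n6 + 1) = G (n6 + 1) 1 1 1 0 (n2 + 1) 1 - G 1 1 1 (n6 + 1) 0 (n2 + 1) 1 + G 0 1 1 (n6 + 1) 1 (n2 + 1) 1 := S.al1 0 1 1 (n6 + 1) n2 1
  have r6 : C (n2 + 2) 0 1 1 1 (n6 + 1) = G (n6 + 1) 1 1 1 0 (n2 + 2) 0 - G 1 1 1 (n6 + 1) 0 (n2 + 2) 0 + G 0 1 1 (n6 + 1) 1 (n2 + 2) 0 := S.al1 0 1 1 (n6 + 1) (n2 + 1) 0
  have r7 : C (n2 + 2) 1 1 1 (n6 + 1) 0 = G 0 1 1 (n6 + 1) 0 (n2 + 2) 1 - G 1 1 (n6 + 1) 0 0 (n2 + 2) 1 + G 0 1 (n6 + 1) 0 1 (n2 + 2) 1 := S.al1 0 1 (n6 + 1) 0 (n2 + 1) 1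
  have r8 : C (n6 + 1) 0 1 (n2 + 2) 1 1 = G 1 1 (n2 + 2) 1 0 (n6 + 1) 0 - G 1 (n2 + 2) 1 1 0 (n6 + 1) 0 + G 0 (n2 + 2) 1 1 1 (n6 + 1) 0 := S.al1 0 (n2 + 2) 1 1 n6 0
  have r9 : C (n6 + 1) 0 (n2 + 2) 1 1 1 = G 1 (n2 + 2) 1 1 0 (n6 + 1) 0 - G (n2 + 2) 1 1 1 0 (n6 + 1) 0 + G (n2 + 1) 1 1 1 1 (n6 + 1) 0 := S.al1 (n2 + 1) 1 1 1 n6 0
  have z0 : G 1 0 1 1 1 (n2 + 1) (n6 + 1) = G 0 1 1 1 1 (n2 + 1) (n6 + 1) := S.r3 1 0 1 1 n2 (n6 + 1)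
  have z1 : G 0 1 1 (n6 + 1) 0 1 (n2 + 2) = G 0 1 1 (n6 + 1) 1 (n2 + 2) 0 := S.m3 0 0 (n6 + 1) 0 1 (n2 + 2)
  have z2 : G 0 1 1 (n6 + 1) 1 (n2 + 2) 0 = G 1 1 (n6 + 1) 0 1 (n2 + 2) 0 := S.r3 0 1 1 (n6 + 1) (n2 + 1) 0
  have z3 : G (n2 + 2) 1 (n6 + 1) 0 0 1 1 = G 0 1 (n6 + 1) 0 1 1 (n2 + 2) := S.m3 (n2 + 2) n6 0 0 1 1
  have z4 : G 1 1 (n6 + 1) 0 1 (n2 + 2) 0 = G 0 1 (n6 + 1) 0 1 1 (n2 + 2) := S.m1 1 n6 0 1 (n2 + 2) 0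
  have z5 : G 0 1 1 (n6 + 1) 0 (n2 + 2) 1 = G 0 1 1 (n6 + 1) (n2 + 2) 1 0 := S.m3 0 0 (n6 + 1) 0 (n2 + 2) 1
  have z6 : G 0 1 1 (n6 + 1) (n2 + 2) 1 0 = 0 := S.van 0 1 1 (n6 + 1) n2 0 0
  have z7 : G 0 1 1 (n6 + 1) 1 (n2 + 1) 1 = G 1 1 (n6 + 1) 0 1 (n2 + 1) 1 := S.r3 0 1 1 (n6 + 1) n2 1
  have z8 : G (n2 + 1) 1 (n6 + 1) 0 1 1 1 = G 1 1 (n6 + 1) 0 1 1 (n2 + 1) := S.m3 (n2 + 1) n6 0 1 1 1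
  have z9 : G 1 1 (n6 + 1) 0 1 (n2 + 1) 1 = G 1 1 (n6 + 1) 0 1 1 (n2 + 1) := S.m1 1 n6 0 1 (n2 + 1) 1
  have z10 : G (n6 + 1) 0 1 1 1 1 (n2 + 1) = G 0 1 1 (n6 + 1) 1 1 (n2 + 1) := S.r3 (n6 + 1) 0 1 1 0 (n2 + 1)
  have z11 : G 1 1 (n6 + 1) 0 1 1 (n2 + 1) = G 0 1 1 (n6 + 1) 1 1 (n2 + 1) := S.r1 1 1 (n6 + 1) 0 0 (n2 + 1)
  have z12 : G 0 1 (n6 + 1) 0 1 (n2 + 2) 1 = G 1 1 (n6 + 1) 0 (n2 + 2) 1 0 := S.m3 0 n6 0 1 (n2 + 2) 1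
  have z13 : G 1 1 (n6 + 1) 0 0 1 (n2 + 2) = G 1 1 (n6 + 1) 0 (n2 + 2) 1 0 := S.m2 1 n6 0 0 1 (n2 + 2)
  have z14 : G 1 1 (n6 + 1) 0 (n2 + 2) 1 0 = 0 := S.van 1 1 (n6 + 1) 0 n2 0 0
  have z15 : G 0 (n2 + 2) 1 1 1 (n6 + 1) 0 = 0 := S.van' 0 n2 0 1 1 (n6 + 1) 0
  have z16 : G 0 (n2 + 2) 1 (n6 + 1) 0 1 1 = 0 := S.van' 0 n2 0 (n6 + 1) 0 1 1
  have z17 : G 1 1 (n6 + 1) 0 0 (n2 + 2) 1 = G 0 1 (n6 + 1) 0 (n2 + 2) 1 1 := S.m3 1 n6 0 0 (n2 + 2) 1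
  have z18 : G 0 1 (n6 + 1) 0 (n2 + 2) 1 1 = 0 := S.van 0 1 (n6 + 1) 0 n2 0 1
  have z19 : G 0 (n2 + 2) 1 (n6 + 1) 1 1 0 = 0 := S.van' 0 n2 0 (n6 + 1) 1 1 0
  have z20 : G 1 1 1 (n6 + 1) 0 (n2 + 1) 1 = G 0 1 1 (n6 + 1) (n2 + 1) 1 1 := S.m3 1 0 (n6 + 1) 0 (n2 + 1) 1
  have z21 : G (n2 + 1) 1 1 (n6 + 1) 1 1 0 = G 0 1 1 (n6 + 1) (n2 + 1) 1 1 := S.m1 (n2 + 1) 0 (n6 + 1) 1 1 0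
  have z22 : G (n2 + 2) 1 1 (n6 + 1) 0 1 0 = G 0 1 1 (n6 + 1) 1 0 (n2 + 2) := S.m3 (n2 + 2) 0 (n6 + 1) 0 1 0
  have z23 : G 1 1 1 (n6 + 1) 0 (n2 + 2) 0 = G 0 1 1 (n6 + 1) 1 0 (n2 + 2) := S.m1 1 0 (n6 + 1) 0 (n2 + 2) 0
  have z24 : G (n6 + 1) 1 (n2 + 2) 1 0 1 0 = G 0 1 (n2 + 2) 1 1 0 (n6 + 1) := S.m3 (n6 + 1) (n2 + 1) 1 0 1 0
  have z25 : G 1 1 (n2 + 2) 1 0 (n6 + 1) 0 = G 0 1 (n2 + 2) 1 1 0 (n6 + 1) := S.m1 1 (n2 + 1) 1 0 (n6 + 1) 0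
  have z26 : G 1 (n2 + 2) 1 1 0 (n6 + 1) 0 = 0 := S.van' 1 n2 0 1 0 (n6 + 1) 0
  have z27 : G 1 (n2 + 2) 1 (n6 + 1) 0 1 0 = 0 := S.van' 1 n2 0 (n6 + 1) 0 1 0
  have z28 : G (n6 + 1) 1 1 1 0 (n2 + 1) 1 = G 0 1 1 1 (n2 + 1) 1 (n6 + 1) := S.m3 (n6 + 1) 0 1 0 (n2 + 1) 1
  have z29 : G (n2 + 1) 1 1 1 1 (n6 + 1) 0 = G 0 1 1 1 (n2 + 1) 1 (n6 + 1) := S.m1 (n2 + 1) 0 1 1 (n6 + 1) 0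
  have z30 : G (n6 + 1) 1 1 1 0 (n2 + 2) 0 = G 0 1 1 1 (n2 + 2) 0 (n6 + 1) := S.m3 (n6 + 1) 0 1 0 (n2 + 2) 0
  have z31 : G (n2 + 2) 1 1 1 0 (n6 + 1) 0 = G 0 1 1 1 (n2 + 2) 0 (n6 + 1) := S.m1 (n2 + 2) 0 1 0 (n6 + 1) 0
  have z32 : G (n6 + 1) (n2 + 2) 1 1 0 1 0 = 0 := S.van' (n6 + 1) n2 0 1 0 1 0
  have z33 : D 1 1 1 1 (n2 + 1) (n6 + 1) = 0 := S_p5 S.mirror 0 0 0 0 n2 n6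
  have z34 : C 1 1 (n2 + 2) 1 (n6 + 1) 0 = C 1 0 1 (n2 + 2) 1 (n6 + 1) := S.c4 1 1 (n2 + 2) 1 (n6 + 1) 0
  have z35 : C 1 (n2 + 2) 1 1 (n6 + 1) 0 = C 1 0 (n2 + 2) 1 1 (n6 + 1) := S.c4 1 (n2 + 2) 1 1 (n6 + 1) 0
  have z36 : C (n2 + 1) 1 1 1 1 (n6 + 1) = 0 := S_p5 S n2 0 0 0 0 n6
  have z37 : C (n2 + 2) 1 1 1 (n6 + 1) 0 = C (n2 + 2) 0 1 1 1 (n6 + 1) := S.c4 (n2 + 2) 1 1 1 (n6 + 1) 0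
  have z38 : C (n6 + 1) 1 (n2 + 2) 1 1 0 = C (n6 + 1) 0 1 (n2 + 2) 1 1 := S.c4 (n6 + 1) 1 (n2 + 2) 1 1 0
  have z39 : C (n6 + 1) 0 (n2 + 2) 1 1 1 = 0 := (S.c1 (n6 + 1) 0 (n2 + 2) 1 1 1).trans (L_g1_g2_e1_e1_e1_e0 S n6 n2)
  linear_combination ((((-2 / 3 : ℚ) * r0 + (-1 : ℚ) * r1 + (-1 / 3 : ℚ) * r2 + (1 : ℚ) * r3 + (1 / 3 : ℚ) * r4 + (-1 / 3 : ℚ) * r5 + (1 / 3 : ℚ) * r6)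
    + ((-1 / 3 : ℚ) * r7 + (1 : ℚ) * r8 + (1 / 3 : ℚ) * r9 + (2 / 3 : ℚ) * z0 + (1 / 3 : ℚ) * z1 + (2 / 3 : ℚ) * z2))
    + (((-1 : ℚ) * z3 + (2 / 3 : ℚ) * z4 + (-1 / 3 : ℚ) * z5 + (-1 / 3 : ℚ) * z6 + (-1 / 3 : ℚ) * z7 + (1 : ℚ) * z8)
    + ((-1 / 3 : ℚ) * z9 + (-2 / 3 : ℚ) * z10 + (2 / 3 : ℚ) * z11 + (-1 / 3 : ℚ) * z12 + (-1 / 3 : ℚ) * z13 + (-2 / 3 : ℚ) * z14)))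
    + ((((1 : ℚ) * z15 + (1 : ℚ) * z16 + (1 / 3 : ℚ) * z17 + (1 / 3 : ℚ) * z18 + (-1 : ℚ) * z19 + (1 / 3 : ℚ) * z20 + (-1 / 3 : ℚ) * z21)
    + ((1 / 3 : ℚ) * z22 + (-1 / 3 : ℚ) * z23 + (-1 : ℚ) * z24 + (1 : ℚ) * z25 + (-2 / 3 : ℚ) * z26 + (1 : ℚ) * z27))
    + (((-1 / 3 : ℚ) * z28 + (1 / 3 : ℚ) * z29 + (1 / 3 : ℚ) * z30 + (-1 / 3 : ℚ) * z31 + (-1 / 3 : ℚ) * z32 + (2 / 3 : ℚ) * z33)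
    + ((-1 : ℚ) * z34 + (-1 / 3 : ℚ) * z35 + (1 / 3 : ℚ) * z36 + (1 / 3 : ℚ) * z37 + (1 : ℚ) * z38 + (-1 / 3 : ℚ) * z39)))

theorem L_g1_e1_e1_g2_e1_e0 (S : Sys6 G C D) (n6 n3 : ℕ) : C (n6 + 1) 1 1 (n3 + 2) 1 0 = 0 := by
  have r0 : D (n3 + 2) 1 1 0 (n6 + 1) 1 = G 1 0 (n3 + 2) 1 1 0 (n6 + 1) - G 1 0 (n3 + 2) 1 0 (n6 + 1) 1 + G 0 1 (n3 + 2) 1 0 (n6 + 1) 1 := S.al1' 0 (n3 + 1) 1 0 (n6 + 1) 1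
  have r1 : D (n3 + 2) 1 1 1 0 (n6 + 1) = G (n6 + 1) 0 (n3 + 2) 1 1 1 0 - G 1 0 (n3 + 2) 1 1 0 (n6 + 1) + G 0 1 (n3 + 2) 1 1 0 (n6 + 1) := S.al1' 0 (n3 + 1) 1 1 0 (n6 + 1)
  have r2 : D (n3 + 2) (n6 + 1) 1 1 1 0 = G 0 0 (n3 + 2) (n6 + 1) 1 1 1 - G 1 0 (n3 + 2) (n6 + 1) 1 1 0 + G 0 1 (n3 + 2) (n6 + 1) 1 1 0 := S.al1' 0 (n3 + 1) (n6 + 1) 1 1 0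
  have r3 : C (n6 + 1) 0 1 (n3 + 2) 1 1 = G 1 1 (n3 + 2) 1 0 (n6 + 1) 0 - G 1 (n3 + 2) 1 1 0 (n6 + 1) 0 + G 0 (n3 + 2) 1 1 1 (n6 + 1) 0 := S.al1 0 (n3 + 2) 1 1 n6 0
  have r4 : C (n6 + 1) 1 0 (n3 + 2) 1 1 = G 1 0 (n3 + 2) 1 0 (n6 + 1) 1 - G 0 (n3 + 2) 1 1 0 (n6 + 1) 1 := S.al0 (n3 + 2) 1 1 n6 1
  have r5 : C (n6 + 1) 1 1 (n3 + 2) 1 0 = G 0 1 (n3 + 2) 1 0 (n6 + 1) 1 - G 1 (n3 + 2) 1 0 0 (n6 + 1) 1 + G 0 (n3 + 2) 1 0 1 (n6 + 1) 1 := S.al1 0 (n3 + 2) 1 0 n6 1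
  have z0 : G 0 0 (n3 + 2) (n6 + 1) 1 1 1 = G 0 (n3 + 2) (n6 + 1) 0 1 1 1 := S.r3 0 0 (n3 + 2) (n6 + 1) 0 1
  have z1 : G 0 (n3 + 2) (n6 + 1) 0 1 1 1 = 0 := S.van' 0 n3 n6 0 1 1 1
  have z2 : G 1 1 (n3 + 2) 1 0 (n6 + 1) 0 = G 0 1 (n3 + 2) 1 1 0 (n6 + 1) := S.m1 1 (n3 + 1) 1 0 (n6 + 1) 0
  have z3 : G 0 1 (n3 + 2) (n6 + 1) 1 1 0 = G 1 (n3 + 2) (n6 + 1) 0 1 1 0 := S.r3 0 1 (n3 + 2) (n6 + 1) 0 0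
  have z4 : G 1 (n3 + 2) (n6 + 1) 0 1 1 0 = 0 := S.van' 1 n3 n6 0 1 1 0
  have z5 : G 0 (n3 + 2) 1 0 1 (n6 + 1) 1 = 0 := S.van' 0 n3 0 0 1 (n6 + 1) 1
  have z6 : G 0 (n3 + 2) 1 1 0 (n6 + 1) 1 = 0 := S.van' 0 n3 0 1 0 (n6 + 1) 1
  have z7 : G 0 (n3 + 2) 1 1 1 (n6 + 1) 0 = 0 := S.van' 0 n3 0 1 1 (n6 + 1) 0
  have z8 : G 1 0 (n3 + 2) (n6 + 1) 1 1 0 = G 0 (n3 + 2) (n6 + 1) 1 1 1 0 := S.r3 1 0 (n3 + 2) (n6 + 1) 0 0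
  have z9 : G 0 (n3 + 2) (n6 + 1) 1 1 1 0 = 0 := S.van' 0 n3 n6 1 1 1 0
  have z10 : G 1 (n3 + 2) 1 0 0 (n6 + 1) 1 = 0 := S.van' 1 n3 0 0 0 (n6 + 1) 1
  have z11 : G 1 (n3 + 2) 1 1 0 (n6 + 1) 0 = 0 := S.van' 1 n3 0 1 0 (n6 + 1) 0
  have z12 : G (n6 + 1) 0 (n3 + 2) 1 1 1 0 = G 0 (n3 + 2) 1 (n6 + 1) 1 1 0 := S.r3 (n6 + 1) 0 (n3 + 2) 1 0 0
  have z13 : G 0 (n3 + 2) 1 (n6 + 1) 1 1 0 = 0 := S.van' 0 n3 0 (n6 + 1) 1 1 0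
  have z14 : D (n3 + 2) 1 1 1 0 (n6 + 1) = D (n3 + 2) 1 1 0 (n6 + 1) 1 := S.d1 (n3 + 2) 1 1 1 0 (n6 + 1)
  have z15 : D (n3 + 2) (n6 + 1) 1 1 1 0 = D (n3 + 2) 1 1 0 (n6 + 1) 1 := S.d2 (n3 + 2) (n6 + 1) 1 1 1 0
  have z16 : C (n6 + 1) 0 1 (n3 + 2) 1 1 = 0 := (S.c1 (n6 + 1) 0 1 (n3 + 2) 1 1).trans (L_g1_e1_g2_e1_e1_e0 S n6 n3)
  have z17 : C (n6 + 1) 1 0 (n3 + 2) 1 1 = 0 := (S.c2 (n6 + 1) 1 0 (n3 + 2) 1 1).trans (L_g1_g2_e1_e1_e1_e0 S n6 n3)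
  linear_combination (((-1 : ℚ) * r0 + (-1 : ℚ) * r1 + (2 : ℚ) * r2 + (1 : ℚ) * r3 + (-1 : ℚ) * r4 + (1 : ℚ) * r5)
    + ((2 : ℚ) * z0 + (2 : ℚ) * z1 + (1 : ℚ) * z2 + (2 : ℚ) * z3 + (2 : ℚ) * z4 + (1 : ℚ) * z5))
    + (((1 : ℚ) * z6 + (1 : ℚ) * z7 + (-2 : ℚ) * z8 + (-2 : ℚ) * z9 + (-1 : ℚ) * z10 + (-1 : ℚ) * z11)
    + ((-1 : ℚ) * z12 + (-1 : ℚ) * z13 + (1 : ℚ) * z14 + (-2 : ℚ) * z15 + (-1 : ℚ) * z16 + (1 : ℚ) * z17))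

theorem L_g1_e1_e1_e1_g2_e0 (S : Sys6 G C D) (n6 n4 : ℕ) : C (n6 + 1) 1 1 1 (n4 + 2) 0 = 0 := by
  have r0 : D 1 0 1 (n4 + 2) 1 (n6 + 1) = G (n6 + 1) 0 1 0 1 (n4 + 2) 1 - G 1 0 1 0 (n4 + 2) 1 (n6 + 1) + G 0 1 1 0 (n4 + 2) 1 (n6 + 1) := S.al1' 0 0 0 (n4 + 2) 1 (n6 + 1)
  have r1 : D 1 1 1 1 (n6 + 1) (n4 + 1) = G (n4 + 1) 0 1 1 1 1 (n6 + 1) - G 1 0 1 1 1 (n6 + 1) (n4 + 1) + G 0 1 1 1 1 (n6 + 1) (n4 + 1) := S.al1' 0 0 1 1 (n6 + 1) (n4 + 1)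
  have r2 : D 1 1 (n4 + 2) 1 (n6 + 1) 0 = G 0 0 1 1 (n4 + 2) 1 (n6 + 1) - G (n4 + 2) 0 1 1 1 (n6 + 1) 0 + G (n4 + 1) 1 1 1 1 (n6 + 1) 0 := S.al1' (n4 + 1) 0 1 1 (n6 + 1) 0
  have r3 : D (n6 + 1) 0 1 (n4 + 2) 1 1 = G 1 0 (n6 + 1) 0 1 (n4 + 2) 1 - G 1 0 (n6 + 1) 0 (n4 + 2) 1 1 + G 0 1 (n6 + 1) 0 (n4 + 2) 1 1 := S.al1' 0 n6 0 (n4 + 2) 1 1
  have r4 : C (n6 + 1) 0 1 1 1 (n4 + 2) = G (n4 + 2) 1 1 1 0 (n6 + 1) 0 - G 1 1 1 (n4 + 2) 0 (n6 + 1) 0 + G 0 1 1 (n4 + 2) 1 (n6 + 1) 0 := S.al1 0 1 1 (n4 + 2) n6 0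
  have r5 : C (n6 + 1) 0 1 1 (n4 + 2) 1 = G 1 1 1 (n4 + 2) 0 (n6 + 1) 0 - G 1 1 (n4 + 2) 1 0 (n6 + 1) 0 + G 0 1 (n4 + 2) 1 1 (n6 + 1) 0 := S.al1 0 1 (n4 + 2) 1 n6 0
  have r6 : C (n6 + 1) 0 1 (n4 + 2) 1 1 = G 1 1 (n4 + 2) 1 0 (n6 + 1) 0 - G 1 (n4 + 2) 1 1 0 (n6 + 1) 0 + G 0 (n4 + 2) 1 1 1 (n6 + 1) 0 := S.al1 0 (n4 + 2) 1 1 n6 0
  have r7 : C (n6 + 1) 0 (n4 + 2) 1 1 1 = G 1 (n4 + 2) 1 1 0 (n6 + 1) 0 - G (n4 + 2) 1 1 1 0 (n6 + 1) 0 + G (n4 + 1) 1 1 1 1 (n6 + 1) 0 := S.al1 (n4 + 1) 1 1 1 n6 0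
  have z0 : G 0 0 1 1 (n4 + 2) 1 (n6 + 1) = 0 := S.van 0 0 1 1 n4 0 (n6 + 1)
  have z1 : G 0 1 1 0 (n4 + 2) 1 (n6 + 1) = 0 := S.van 0 1 1 0 n4 0 (n6 + 1)
  have z2 : G 0 (n4 + 2) 1 1 1 (n6 + 1) 0 = 0 := S.van' 0 n4 0 1 1 (n6 + 1) 0
  have z3 : G 1 0 1 1 1 (n6 + 1) (n4 + 1) = G 0 1 1 1 1 (n6 + 1) (n4 + 1) := S.r3 1 0 1 1 n6 (n4 + 1)
  have z4 : G 0 1 1 (n4 + 2) 1 (n6 + 1) 0 = G 1 1 (n4 + 2) 0 1 (n6 + 1) 0 := S.r3 0 1 1 (n4 + 2) n6 0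
  have z5 : G (n4 + 2) 0 1 1 1 (n6 + 1) 0 = G 1 1 (n4 + 2) 0 1 (n6 + 1) 0 := S.r2 (n4 + 2) 0 1 1 n6 0
  have z6 : G 0 1 (n4 + 2) 1 1 (n6 + 1) 0 = G 1 (n4 + 2) 1 0 1 (n6 + 1) 0 := S.r3 0 1 (n4 + 2) 1 n6 0
  have z7 : G 1 (n4 + 2) 1 0 1 (n6 + 1) 0 = 0 := S.van' 1 n4 0 0 1 (n6 + 1) 0
  have z8 : G 0 1 (n6 + 1) 0 (n4 + 2) 1 1 = 0 := S.van 0 1 (n6 + 1) 0 n4 0 1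
  have z9 : G 1 0 1 0 (n4 + 2) 1 (n6 + 1) = 0 := S.van 1 0 1 0 n4 0 (n6 + 1)
  have z10 : G (n6 + 1) 0 1 0 1 (n4 + 2) 1 = G 0 1 0 (n6 + 1) 1 (n4 + 2) 1 := S.r3 (n6 + 1) 0 1 0 (n4 + 1) 1
  have z11 : G 1 0 (n6 + 1) 0 1 (n4 + 2) 1 = G 0 1 0 (n6 + 1) 1 (n4 + 2) 1 := S.r1 1 0 (n6 + 1) 0 (n4 + 1) 1
  have z12 : G 1 0 (n6 + 1) 0 (n4 + 2) 1 1 = 0 := S.van 1 0 (n6 + 1) 0 n4 0 1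
  have z13 : G (n4 + 1) 0 1 1 1 1 (n6 + 1) = G 0 1 1 (n4 + 1) 1 1 (n6 + 1) := S.r3 (n4 + 1) 0 1 1 0 (n6 + 1)
  have z14 : G 0 1 1 (n4 + 1) 1 1 (n6 + 1) = G 1 1 1 (n4 + 1) 1 (n6 + 1) 0 := S.m3 0 0 (n4 + 1) 1 1 (n6 + 1)
  have z15 : G 1 1 1 (n4 + 1) 1 (n6 + 1) 0 = G (n4 + 1) 1 1 1 1 (n6 + 1) 0 := S.r1 1 1 1 (n4 + 1) n6 0
  have z16 : D 1 1 (n4 + 2) 1 (n6 + 1) 0 = D 1 0 1 (n4 + 2) 1 (n6 + 1) := S.d4 1 1 (n4 + 2) 1 (n6 + 1) 0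
  have z17 : D 1 1 1 1 (n6 + 1) (n4 + 1) = 0 := S_p5 S.mirror 0 0 0 0 n6 n4
  have z18 : D (n6 + 1) 0 1 (n4 + 2) 1 1 = 0 := (S.d1 (n6 + 1) 0 1 (n4 + 2) 1 1).trans (L_g1_e1_g2_e1_e1_e0 S.mirror n6 n4)
  have z19 : C (n6 + 1) 1 1 1 (n4 + 2) 0 = C (n6 + 1) 0 1 1 1 (n4 + 2) := S.c4 (n6 + 1) 1 1 1 (n4 + 2) 0
  have z20 : C (n6 + 1) 0 1 1 (n4 + 2) 1 = 0 := (S.c1 (n6 + 1) 0 1 1 (n4 + 2) 1).trans (L_g1_e1_e1_g2_e1_e0 S n6 n4)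
  have z21 : C (n6 + 1) 0 1 (n4 + 2) 1 1 = 0 := (S.c1 (n6 + 1) 0 1 (n4 + 2) 1 1).trans (L_g1_e1_g2_e1_e1_e0 S n6 n4)
  have z22 : C (n6 + 1) 0 (n4 + 2) 1 1 1 = 0 := (S.c1 (n6 + 1) 0 (n4 + 2) 1 1 1).trans (L_g1_g2_e1_e1_e1_e0 S n6 n4)
  linear_combination (((-1 : ℚ) * r0 + (-2 : ℚ) * r1 + (1 : ℚ) * r2 + (1 : ℚ) * r3 + (1 : ℚ) * r4 + (1 : ℚ) * r5 + (1 : ℚ) * r6 + (1 : ℚ) * r7)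
    + ((1 : ℚ) * z0 + (-1 : ℚ) * z1 + (1 : ℚ) * z2 + (2 : ℚ) * z3 + (1 : ℚ) * z4 + (-1 : ℚ) * z5 + (1 : ℚ) * z6 + (1 : ℚ) * z7))
    + (((1 : ℚ) * z8 + (1 : ℚ) * z9 + (-1 : ℚ) * z10 + (1 : ℚ) * z11 + (-1 : ℚ) * z12 + (-2 : ℚ) * z13 + (-2 : ℚ) * z14 + (-2 : ℚ) * z15)
    + ((-1 : ℚ) * z16 + (2 : ℚ) * z17 + (-1 : ℚ) * z18 + (1 : ℚ) * z19 + (-1 : ℚ) * z20 + (-1 : ℚ) * z21 + (-1 : ℚ) * z22))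

theorem L_g1_e1_e1_e1_e1_e0 (S : Sys6 G C D) (n6 : ℕ) : C (n6 + 1) 1 1 1 1 0 = 0 := by
  have r0 : C (n6 + 1) 0 0 0 0 4 = G 4 0 0 0 0 (n6 + 1) 0 - G 0 0 0 4 0 (n6 + 1) 0 := S.al0 0 0 4 n6 0
  have r1 : C (n6 + 1) 0 0 0 1 3 = G 3 0 0 1 0 (n6 + 1) 0 - G 0 0 1 3 0 (n6 + 1) 0 := S.al0 0 1 3 n6 0
  have r2 : C (n6 + 1) 0 0 0 2 2 = G 2 0 0 2 0 (n6 + 1) 0 - G 0 0 2 2 0 (n6 + 1) 0 := S.al0 0 2 2 n6 0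
  have r3 : C (n6 + 1) 0 0 0 3 1 = G 1 0 0 3 0 (n6 + 1) 0 - G 0 0 3 1 0 (n6 + 1) 0 := S.al0 0 3 1 n6 0
  have r4 : C (n6 + 1) 0 0 0 4 0 = G 0 0 0 4 0 (n6 + 1) 0 - G 0 0 4 0 0 (n6 + 1) 0 := S.al0 0 4 0 n6 0
  have r5 : C (n6 + 1) 0 0 1 0 3 = G 3 0 1 0 0 (n6 + 1) 0 - G 0 1 0 3 0 (n6 + 1) 0 := S.al0 1 0 3 n6 0
  have r6 : C (n6 + 1) 0 0 1 1 2 = G 2 0 1 1 0 (n6 + 1) 0 - G 0 1 1 2 0 (n6 + 1) 0 := S.al0 1 1 2 n6 0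
  have r7 : C (n6 + 1) 0 0 1 2 1 = G 1 0 1 2 0 (n6 + 1) 0 - G 0 1 2 1 0 (n6 + 1) 0 := S.al0 1 2 1 n6 0
  have r8 : C (n6 + 1) 0 0 1 3 0 = G 0 0 1 3 0 (n6 + 1) 0 - G 0 1 3 0 0 (n6 + 1) 0 := S.al0 1 3 0 n6 0
  have r9 : C (n6 + 1) 0 0 2 0 2 = G 2 0 2 0 0 (n6 + 1) 0 - G 0 2 0 2 0 (n6 + 1) 0 := S.al0 2 0 2 n6 0
  have r10 : C (n6 + 1) 0 0 2 1 1 = G 1 0 2 1 0 (n6 + 1) 0 - G 0 2 1 1 0 (n6 + 1) 0 := S.al0 2 1 1 n6 0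
  have r11 : C (n6 + 1) 0 0 2 2 0 = G 0 0 2 2 0 (n6 + 1) 0 - G 0 2 2 0 0 (n6 + 1) 0 := S.al0 2 2 0 n6 0
  have r12 : C (n6 + 1) 0 0 3 0 1 = G 1 0 3 0 0 (n6 + 1) 0 - G 0 3 0 1 0 (n6 + 1) 0 := S.al0 3 0 1 n6 0
  have r13 : C (n6 + 1) 0 0 3 1 0 = G 0 0 3 1 0 (n6 + 1) 0 - G 0 3 1 0 0 (n6 + 1) 0 := S.al0 3 1 0 n6 0
  have r14 : C (n6 + 1) 0 0 4 0 0 = G 0 0 4 0 0 (n6 + 1) 0 - G 0 4 0 0 0 (n6 + 1) 0 := S.al0 4 0 0 n6 0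
  have r15 : C (n6 + 1) 0 1 0 0 3 = G 3 1 0 0 0 (n6 + 1) 0 - G 1 0 0 3 0 (n6 + 1) 0 + G 0 0 0 3 1 (n6 + 1) 0 := S.al1 0 0 0 3 n6 0
  have r16 : C (n6 + 1) 0 1 0 1 2 = G 2 1 0 1 0 (n6 + 1) 0 - G 1 0 1 2 0 (n6 + 1) 0 + G 0 0 1 2 1 (n6 + 1) 0 := S.al1 0 0 1 2 n6 0
  have r17 : C (n6 + 1) 0 1 0 2 1 = G 1 1 0 2 0 (n6 + 1) 0 - G 1 0 2 1 0 (n6 + 1) 0 + G 0 0 2 1 1 (n6 + 1) 0 := S.al1 0 0 2 1 n6 0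
  have r18 : C (n6 + 1) 0 1 0 3 0 = G 0 1 0 3 0 (n6 + 1) 0 - G 1 0 3 0 0 (n6 + 1) 0 + G 0 0 3 0 1 (n6 + 1) 0 := S.al1 0 0 3 0 n6 0
  have r19 : C (n6 + 1) 0 1 1 0 2 = G 2 1 1 0 0 (n6 + 1) 0 - G 1 1 0 2 0 (n6 + 1) 0 + G 0 1 0 2 1 (n6 + 1) 0 := S.al1 0 1 0 2 n6 0
  have r20 : C (n6 + 1) 0 1 1 1 1 = G 1 1 1 1 0 (n6 + 1) 0 - G 1 1 1 1 0 (n6 + 1) 0 + G 0 1 1 1 1 (n6 + 1) 0 := S.al1 0 1 1 1 n6 0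
  have r21 : C (n6 + 1) 0 1 1 2 0 = G 0 1 1 2 0 (n6 + 1) 0 - G 1 1 2 0 0 (n6 + 1) 0 + G 0 1 2 0 1 (n6 + 1) 0 := S.al1 0 1 2 0 n6 0
  have r22 : C (n6 + 1) 0 1 2 0 1 = G 1 1 2 0 0 (n6 + 1) 0 - G 1 2 0 1 0 (n6 + 1) 0 + G 0 2 0 1 1 (n6 + 1) 0 := S.al1 0 2 0 1 n6 0
  have r23 : C (n6 + 1) 0 1 2 1 0 = G 0 1 2 1 0 (n6 + 1) 0 - G 1 2 1 0 0 (n6 + 1) 0 + G 0 2 1 0 1 (n6 + 1) 0 := S.al1 0 2 1 0 n6 0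
  have r24 : C (n6 + 1) 0 1 3 0 0 = G 0 1 3 0 0 (n6 + 1) 0 - G 1 3 0 0 0 (n6 + 1) 0 + G 0 3 0 0 1 (n6 + 1) 0 := S.al1 0 3 0 0 n6 0
  have r25 : C (n6 + 1) 0 2 0 0 2 = G 2 2 0 0 0 (n6 + 1) 0 - G 2 0 0 2 0 (n6 + 1) 0 + G 1 0 0 2 1 (n6 + 1) 0 := S.al1 1 0 0 2 n6 0
  have r26 : C (n6 + 1) 0 2 0 1 1 = G 1 2 0 1 0 (n6 + 1) 0 - G 2 0 1 1 0 (n6 + 1) 0 + G 1 0 1 1 1 (n6 + 1) 0 := S.al1 1 0 1 1 n6 0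
  have r27 : C (n6 + 1) 0 2 0 2 0 = G 0 2 0 2 0 (n6 + 1) 0 - G 2 0 2 0 0 (n6 + 1) 0 + G 1 0 2 0 1 (n6 + 1) 0 := S.al1 1 0 2 0 n6 0
  have r28 : C (n6 + 1) 0 2 1 0 1 = G 1 2 1 0 0 (n6 + 1) 0 - G 2 1 0 1 0 (n6 + 1) 0 + G 1 1 0 1 1 (n6 + 1) 0 := S.al1 1 1 0 1 n6 0
  have r29 : C (n6 + 1) 0 2 1 1 0 = G 0 2 1 1 0 (n6 + 1) 0 - G 2 1 1 0 0 (n6 + 1) 0 + G 1 1 1 0 1 (n6 + 1) 0 := S.al1 1 1 1 0 n6 0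
  have r30 : C (n6 + 1) 0 2 2 0 0 = G 0 2 2 0 0 (n6 + 1) 0 - G 2 2 0 0 0 (n6 + 1) 0 + G 1 2 0 0 1 (n6 + 1) 0 := S.al1 1 2 0 0 n6 0
  have r31 : C (n6 + 1) 0 3 0 0 1 = G 1 3 0 0 0 (n6 + 1) 0 - G 3 0 0 1 0 (n6 + 1) 0 + G 2 0 0 1 1 (n6 + 1) 0 := S.al1 2 0 0 1 n6 0
  have r32 : C (n6 + 1) 0 3 0 1 0 = G 0 3 0 1 0 (n6 + 1) 0 - G 3 0 1 0 0 (n6 + 1) 0 + G 2 0 1 0 1 (n6 + 1) 0 := S.al1 2 0 1 0 n6 0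
  have r33 : C (n6 + 1) 0 3 1 0 0 = G 0 3 1 0 0 (n6 + 1) 0 - G 3 1 0 0 0 (n6 + 1) 0 + G 2 1 0 0 1 (n6 + 1) 0 := S.al1 2 1 0 0 n6 0
  have r34 : C (n6 + 1) 0 4 0 0 0 = G 0 4 0 0 0 (n6 + 1) 0 - G 4 0 0 0 0 (n6 + 1) 0 + G 3 0 0 0 1 (n6 + 1) 0 := S.al1 3 0 0 0 n6 0
  have r35 : C (n6 + 1) 1 0 0 0 3 = G 3 0 0 0 0 (n6 + 1) 1 - G 0 0 0 3 0 (n6 + 1) 1 := S.al0 0 0 3 n6 1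
  have r36 : C (n6 + 1) 1 0 0 1 2 = G 2 0 0 1 0 (n6 + 1) 1 - G 0 0 1 2 0 (n6 + 1) 1 := S.al0 0 1 2 n6 1
  have r37 : C (n6 + 1) 1 0 0 2 1 = G 1 0 0 2 0 (n6 + 1) 1 - G 0 0 2 1 0 (n6 + 1) 1 := S.al0 0 2 1 n6 1
  have r38 : C (n6 + 1) 1 0 0 3 0 = G 0 0 0 3 0 (n6 + 1) 1 - G 0 0 3 0 0 (n6 + 1) 1 := S.al0 0 3 0 n6 1
  have r39 : C (n6 + 1) 1 0 1 0 2 = G 2 0 1 0 0 (n6 + 1) 1 - G 0 1 0 2 0 (n6 + 1) 1 := S.al0 1 0 2 n6 1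
  have r40 : C (n6 + 1) 1 0 1 1 1 = G 1 0 1 1 0 (n6 + 1) 1 - G 0 1 1 1 0 (n6 + 1) 1 := S.al0 1 1 1 n6 1
  have r41 : C (n6 + 1) 1 0 1 2 0 = G 0 0 1 2 0 (n6 + 1) 1 - G 0 1 2 0 0 (n6 + 1) 1 := S.al0 1 2 0 n6 1
  have r42 : C (n6 + 1) 1 0 2 0 1 = G 1 0 2 0 0 (n6 + 1) 1 - G 0 2 0 1 0 (n6 + 1) 1 := S.al0 2 0 1 n6 1
  have r43 : C (n6 + 1) 1 0 2 1 0 = G 0 0 2 1 0 (n6 + 1) 1 - G 0 2 1 0 0 (n6 + 1) 1 := S.al0 2 1 0 n6 1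
  have r44 : C (n6 + 1) 1 0 3 0 0 = G 0 0 3 0 0 (n6 + 1) 1 - G 0 3 0 0 0 (n6 + 1) 1 := S.al0 3 0 0 n6 1
  have r45 : C (n6 + 1) 1 1 0 0 2 = G 2 1 0 0 0 (n6 + 1) 1 - G 1 0 0 2 0 (n6 + 1) 1 + G 0 0 0 2 1 (n6 + 1) 1 := S.al1 0 0 0 2 n6 1
  have r46 : C (n6 + 1) 1 1 0 1 1 = G 1 1 0 1 0 (n6 + 1) 1 - G 1 0 1 1 0 (n6 + 1) 1 + G 0 0 1 1 1 (n6 + 1) 1 := S.al1 0 0 1 1 n6 1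
  have r47 : C (n6 + 1) 1 1 0 2 0 = G 0 1 0 2 0 (n6 + 1) 1 - G 1 0 2 0 0 (n6 + 1) 1 + G 0 0 2 0 1 (n6 + 1) 1 := S.al1 0 0 2 0 n6 1
  have r48 : C (n6 + 1) 1 1 1 0 1 = G 1 1 1 0 0 (n6 + 1) 1 - G 1 1 0 1 0 (n6 + 1) 1 + G 0 1 0 1 1 (n6 + 1) 1 := S.al1 0 1 0 1 n6 1
  have r49 : C (n6 + 1) 1 1 1 1 0 = G 0 1 1 1 0 (n6 + 1) 1 - G 1 1 1 0 0 (n6 + 1) 1 + G 0 1 1 0 1 (n6 + 1) 1 := S.al1 0 1 1 0 n6 1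
  have r50 : C (n6 + 1) 1 1 2 0 0 = G 0 1 2 0 0 (n6 + 1) 1 - G 1 2 0 0 0 (n6 + 1) 1 + G 0 2 0 0 1 (n6 + 1) 1 := S.al1 0 2 0 0 n6 1
  have r51 : C (n6 + 1) 1 2 0 0 1 = G 1 2 0 0 0 (n6 + 1) 1 - G 2 0 0 1 0 (n6 + 1) 1 + G 1 0 0 1 1 (n6 + 1) 1 := S.al1 1 0 0 1 n6 1
  have r52 : C (n6 + 1) 1 2 0 1 0 = G 0 2 0 1 0 (n6 + 1) 1 - G 2 0 1 0 0 (n6 + 1) 1 + G 1 0 1 0 1 (n6 + 1) 1 := S.al1 1 0 1 0 n6 1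
  have r53 : C (n6 + 1) 1 2 1 0 0 = G 0 2 1 0 0 (n6 + 1) 1 - G 2 1 0 0 0 (n6 + 1) 1 + G 1 1 0 0 1 (n6 + 1) 1 := S.al1 1 1 0 0 n6 1
  have r54 : C (n6 + 1) 1 3 0 0 0 = G 0 3 0 0 0 (n6 + 1) 1 - G 3 0 0 0 0 (n6 + 1) 1 + G 2 0 0 0 1 (n6 + 1) 1 := S.al1 2 0 0 0 n6 1
  have r55 : C (n6 + 1) 2 0 0 0 2 = G 2 0 0 0 0 (n6 + 1) 2 - G 0 0 0 2 0 (n6 + 1) 2 := S.al0 0 0 2 n6 2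
  have r56 : C (n6 + 1) 2 0 0 1 1 = G 1 0 0 1 0 (n6 + 1) 2 - G 0 0 1 1 0 (n6 + 1) 2 := S.al0 0 1 1 n6 2
  have r57 : C (n6 + 1) 2 0 0 2 0 = G 0 0 0 2 0 (n6 + 1) 2 - G 0 0 2 0 0 (n6 + 1) 2 := S.al0 0 2 0 n6 2
  have r58 : C (n6 + 1) 2 0 1 0 1 = G 1 0 1 0 0 (n6 + 1) 2 - G 0 1 0 1 0 (n6 + 1) 2 := S.al0 1 0 1 n6 2
  have r59 : C (n6 + 1) 2 0 1 1 0 = G 0 0 1 1 0 (n6 + 1) 2 - G 0 1 1 0 0 (n6 + 1) 2 := S.al0 1 1 0 n6 2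
  have r60 : C (n6 + 1) 2 0 2 0 0 = G 0 0 2 0 0 (n6 + 1) 2 - G 0 2 0 0 0 (n6 + 1) 2 := S.al0 2 0 0 n6 2
  have r61 : C (n6 + 1) 2 1 0 0 1 = G 1 1 0 0 0 (n6 + 1) 2 - G 1 0 0 1 0 (n6 + 1) 2 + G 0 0 0 1 1 (n6 + 1) 2 := S.al1 0 0 0 1 n6 2
  have r62 : C (n6 + 1) 2 1 0 1 0 = G 0 1 0 1 0 (n6 + 1) 2 - G 1 0 1 0 0 (n6 + 1) 2 + G 0 0 1 0 1 (n6 + 1) 2 := S.al1 0 0 1 0 n6 2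
  have r63 : C (n6 + 1) 2 1 1 0 0 = G 0 1 1 0 0 (n6 + 1) 2 - G 1 1 0 0 0 (n6 + 1) 2 + G 0 1 0 0 1 (n6 + 1) 2 := S.al1 0 1 0 0 n6 2
  have r64 : C (n6 + 1) 2 2 0 0 0 = G 0 2 0 0 0 (n6 + 1) 2 - G 2 0 0 0 0 (n6 + 1) 2 + G 1 0 0 0 1 (n6 + 1) 2 := S.al1 1 0 0 0 n6 2
  have r65 : C (n6 + 1) 4 0 0 0 0 = G 0 0 0 0 0 (n6 + 1) 4 - G 0 0 0 0 0 (n6 + 1) 4 := S.al0 0 0 0 n6 4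
  have z0 : G 1 0 0 0 1 (n6 + 1) 2 = G 0 0 0 1 1 (n6 + 1) 2 := S.r3 1 0 0 0 n6 2
  have z1 : G 0 1 0 0 1 (n6 + 1) 2 = G 0 0 0 1 1 (n6 + 1) 2 := S.r2 0 1 0 0 n6 2
  have z2 : G 0 0 1 0 1 (n6 + 1) 2 = G 0 0 0 1 1 (n6 + 1) 2 := S.r1 0 0 1 0 n6 2
  have z3 : G 2 0 0 0 1 (n6 + 1) 1 = G 0 0 0 2 1 (n6 + 1) 1 := S.r3 2 0 0 0 n6 1
  have z4 : G 0 2 0 0 1 (n6 + 1) 1 = G 0 0 0 2 1 (n6 + 1) 1 := S.r2 0 2 0 0 n6 1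
  have z5 : G 0 0 2 0 1 (n6 + 1) 1 = G 0 0 0 2 1 (n6 + 1) 1 := S.r1 0 0 2 0 n6 1
  have z6 : G 3 0 0 0 1 (n6 + 1) 0 = G 0 0 0 3 1 (n6 + 1) 0 := S.r3 3 0 0 0 n6 0
  have z7 : G 0 3 0 0 1 (n6 + 1) 0 = G 0 0 0 3 1 (n6 + 1) 0 := S.r2 0 3 0 0 n6 0
  have z8 : G 0 0 3 0 1 (n6 + 1) 0 = G 0 0 0 3 1 (n6 + 1) 0 := S.r1 0 0 3 0 n6 0
  have z9 : G 1 0 0 1 1 (n6 + 1) 1 = G 0 0 1 1 1 (n6 + 1) 1 := S.r3 1 0 0 1 n6 1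
  have z10 : G 1 1 0 0 1 (n6 + 1) 1 = G 0 0 1 1 1 (n6 + 1) 1 := S.r2 1 1 0 0 n6 1
  have z11 : G 0 1 1 0 1 (n6 + 1) 1 = G 0 0 1 1 1 (n6 + 1) 1 := S.r1 0 1 1 0 n6 1
  have z12 : G 2 0 0 1 1 (n6 + 1) 0 = G 0 0 1 2 1 (n6 + 1) 0 := S.r3 2 0 0 1 n6 0
  have z13 : G 1 2 0 0 1 (n6 + 1) 0 = G 0 0 1 2 1 (n6 + 1) 0 := S.r2 1 2 0 0 n6 0
  have z14 : G 0 1 2 0 1 (n6 + 1) 0 = G 0 0 1 2 1 (n6 + 1) 0 := S.r1 0 1 2 0 n6 0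
  have z15 : G 0 0 2 1 1 (n6 + 1) 0 = G 0 2 1 0 1 (n6 + 1) 0 := S.r3 0 0 2 1 n6 0
  have z16 : G 1 0 0 2 1 (n6 + 1) 0 = G 0 2 1 0 1 (n6 + 1) 0 := S.r2 1 0 0 2 n6 0
  have z17 : G 2 1 0 0 1 (n6 + 1) 0 = G 0 2 1 0 1 (n6 + 1) 0 := S.r1 2 1 0 0 n6 0
  have z18 : G 1 0 1 0 1 (n6 + 1) 1 = G 0 1 0 1 1 (n6 + 1) 1 := S.r1 1 0 1 0 n6 1
  have z19 : G 2 0 1 0 1 (n6 + 1) 0 = G 0 1 0 2 1 (n6 + 1) 0 := S.r3 2 0 1 0 n6 0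
  have z20 : G 0 2 0 1 1 (n6 + 1) 0 = G 0 1 0 2 1 (n6 + 1) 0 := S.r2 0 2 0 1 n6 0
  have z21 : G 1 0 2 0 1 (n6 + 1) 0 = G 0 1 0 2 1 (n6 + 1) 0 := S.r1 1 0 2 0 n6 0
  have z22 : G 0 1 1 1 1 (n6 + 1) 0 = G 1 1 1 0 1 (n6 + 1) 0 := S.r3 0 1 1 1 n6 0
  have z23 : G 1 0 1 1 1 (n6 + 1) 0 = G 1 1 1 0 1 (n6 + 1) 0 := S.r2 1 0 1 1 n6 0
  have z24 : G 1 1 0 1 1 (n6 + 1) 0 = G 1 1 1 0 1 (n6 + 1) 0 := S.r1 1 1 0 1 n6 0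
  have z25 : C (n6 + 1) 0 0 0 4 0 = C (n6 + 1) 0 0 0 0 4 := S.c4 (n6 + 1) 0 0 0 4 0
  have z26 : C (n6 + 1) 0 0 4 0 0 = C (n6 + 1) 0 0 0 0 4 := S.c3 (n6 + 1) 0 0 4 0 0
  have z27 : C (n6 + 1) 0 4 0 0 0 = C (n6 + 1) 0 0 0 0 4 := S.c2 (n6 + 1) 0 4 0 0 0
  have z28 : C (n6 + 1) 4 0 0 0 0 = C (n6 + 1) 0 0 0 0 4 := S.c1 (n6 + 1) 4 0 0 0 0
  have z29 : C (n6 + 1) 0 0 1 3 0 = C (n6 + 1) 0 0 0 1 3 := S.c4 (n6 + 1) 0 0 1 3 0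
  have z30 : C (n6 + 1) 0 1 3 0 0 = C (n6 + 1) 0 0 0 1 3 := S.c3 (n6 + 1) 0 1 3 0 0
  have z31 : C (n6 + 1) 1 3 0 0 0 = C (n6 + 1) 0 0 0 1 3 := S.c2 (n6 + 1) 1 3 0 0 0
  have z32 : C (n6 + 1) 0 0 2 2 0 = C (n6 + 1) 0 0 0 2 2 := S.c4 (n6 + 1) 0 0 2 2 0
  have z33 : C (n6 + 1) 0 2 2 0 0 = C (n6 + 1) 0 0 0 2 2 := S.c3 (n6 + 1) 0 2 2 0 0
  have z34 : C (n6 + 1) 2 0 0 0 2 = C (n6 + 1) 0 0 0 2 2 := S.c1 (n6 + 1) 2 0 0 0 2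
  have z35 : C (n6 + 1) 2 2 0 0 0 = C (n6 + 1) 0 0 0 2 2 := S.c2 (n6 + 1) 2 2 0 0 0
  have z36 : C (n6 + 1) 0 0 3 1 0 = C (n6 + 1) 0 0 0 3 1 := S.c4 (n6 + 1) 0 0 3 1 0
  have z37 : C (n6 + 1) 0 3 1 0 0 = C (n6 + 1) 0 0 0 3 1 := S.c3 (n6 + 1) 0 3 1 0 0
  have z38 : C (n6 + 1) 1 0 0 0 3 = C (n6 + 1) 0 0 0 3 1 := S.c1 (n6 + 1) 1 0 0 0 3
  have z39 : C (n6 + 1) 0 1 0 3 0 = C (n6 + 1) 0 0 1 0 3 := S.c4 (n6 + 1) 0 1 0 3 0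
  have z40 : C (n6 + 1) 0 3 0 0 1 = C (n6 + 1) 0 0 1 0 3 := S.c2 (n6 + 1) 0 3 0 0 1
  have z41 : C (n6 + 1) 1 0 3 0 0 = C (n6 + 1) 0 0 1 0 3 := S.c3 (n6 + 1) 1 0 3 0 0
  have z42 : C (n6 + 1) 0 1 1 2 0 = C (n6 + 1) 0 0 1 1 2 := S.c4 (n6 + 1) 0 1 1 2 0
  have z43 : C (n6 + 1) 1 1 2 0 0 = C (n6 + 1) 0 0 1 1 2 := S.c3 (n6 + 1) 1 1 2 0 0
  have z44 : C (n6 + 1) 1 2 0 0 1 = C (n6 + 1) 0 0 1 1 2 := S.c2 (n6 + 1) 1 2 0 0 1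
  have z45 : C (n6 + 1) 2 0 0 1 1 = C (n6 + 1) 0 0 1 1 2 := S.c1 (n6 + 1) 2 0 0 1 1
  have z46 : C (n6 + 1) 0 1 2 1 0 = C (n6 + 1) 0 0 1 2 1 := S.c4 (n6 + 1) 0 1 2 1 0
  have z47 : C (n6 + 1) 1 0 0 1 2 = C (n6 + 1) 0 0 1 2 1 := S.c1 (n6 + 1) 1 0 0 1 2
  have z48 : C (n6 + 1) 1 2 1 0 0 = C (n6 + 1) 0 0 1 2 1 := S.c3 (n6 + 1) 1 2 1 0 0
  have z49 : C (n6 + 1) 2 1 0 0 1 = C (n6 + 1) 0 0 1 2 1 := S.c2 (n6 + 1) 2 1 0 0 1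
  have z50 : C (n6 + 1) 0 2 0 0 2 = C (n6 + 1) 0 0 2 0 2 := S.c2 (n6 + 1) 0 2 0 0 2
  have z51 : C (n6 + 1) 0 2 0 2 0 = C (n6 + 1) 0 0 2 0 2 := S.c4 (n6 + 1) 0 2 0 2 0
  have z52 : C (n6 + 1) 2 0 0 2 0 = C (n6 + 1) 0 0 2 0 2 := S.c1 (n6 + 1) 2 0 0 2 0
  have z53 : C (n6 + 1) 2 0 2 0 0 = C (n6 + 1) 0 0 2 0 2 := S.c3 (n6 + 1) 2 0 2 0 0
  have z54 : C (n6 + 1) 0 2 1 1 0 = C (n6 + 1) 0 0 2 1 1 := S.c4 (n6 + 1) 0 2 1 1 0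
  have z55 : C (n6 + 1) 1 0 0 2 1 = C (n6 + 1) 0 0 2 1 1 := S.c1 (n6 + 1) 1 0 0 2 1
  have z56 : C (n6 + 1) 1 1 0 0 2 = C (n6 + 1) 0 0 2 1 1 := S.c2 (n6 + 1) 1 1 0 0 2
  have z57 : C (n6 + 1) 2 1 1 0 0 = C (n6 + 1) 0 0 2 1 1 := S.c3 (n6 + 1) 2 1 1 0 0
  have z58 : C (n6 + 1) 0 1 0 0 3 = C (n6 + 1) 0 0 3 0 1 := S.c2 (n6 + 1) 0 1 0 0 3
  have z59 : C (n6 + 1) 0 3 0 1 0 = C (n6 + 1) 0 0 3 0 1 := S.c4 (n6 + 1) 0 3 0 1 0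
  have z60 : C (n6 + 1) 1 0 0 3 0 = C (n6 + 1) 0 0 3 0 1 := S.c1 (n6 + 1) 1 0 0 3 0
  have z61 : C (n6 + 1) 0 1 2 0 1 = C (n6 + 1) 0 1 0 1 2 := S.c3 (n6 + 1) 0 1 2 0 1
  have z62 : C (n6 + 1) 1 0 1 2 0 = C (n6 + 1) 0 1 0 1 2 := S.c4 (n6 + 1) 1 0 1 2 0
  have z63 : C (n6 + 1) 1 2 0 1 0 = C (n6 + 1) 0 1 0 1 2 := S.c2 (n6 + 1) 1 2 0 1 0
  have z64 : C (n6 + 1) 2 0 1 0 1 = C (n6 + 1) 0 1 0 1 2 := S.c1 (n6 + 1) 2 0 1 0 1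
  have z65 : C (n6 + 1) 0 2 1 0 1 = C (n6 + 1) 0 1 0 2 1 := S.c3 (n6 + 1) 0 2 1 0 1
  have z66 : C (n6 + 1) 1 0 1 0 2 = C (n6 + 1) 0 1 0 2 1 := S.c1 (n6 + 1) 1 0 1 0 2
  have z67 : C (n6 + 1) 1 0 2 1 0 = C (n6 + 1) 0 1 0 2 1 := S.c4 (n6 + 1) 1 0 2 1 0
  have z68 : C (n6 + 1) 2 1 0 1 0 = C (n6 + 1) 0 1 0 2 1 := S.c2 (n6 + 1) 2 1 0 1 0
  have z69 : C (n6 + 1) 0 2 0 1 1 = C (n6 + 1) 0 1 1 0 2 := S.c2 (n6 + 1) 0 2 0 1 1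
  have z70 : C (n6 + 1) 1 0 2 0 1 = C (n6 + 1) 0 1 1 0 2 := S.c3 (n6 + 1) 1 0 2 0 1
  have z71 : C (n6 + 1) 1 1 0 2 0 = C (n6 + 1) 0 1 1 0 2 := S.c4 (n6 + 1) 1 1 0 2 0
  have z72 : C (n6 + 1) 2 0 1 1 0 = C (n6 + 1) 0 1 1 0 2 := S.c1 (n6 + 1) 2 0 1 1 0
  have z73 : C (n6 + 1) 1 0 1 1 1 = C (n6 + 1) 0 1 1 1 1 := S.c1 (n6 + 1) 1 0 1 1 1
  have z74 : C (n6 + 1) 1 1 0 1 1 = C (n6 + 1) 0 1 1 1 1 := S.c2 (n6 + 1) 1 1 0 1 1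
  have z75 : C (n6 + 1) 1 1 1 0 1 = C (n6 + 1) 0 1 1 1 1 := S.c3 (n6 + 1) 1 1 1 0 1
  have z76 : C (n6 + 1) 1 1 1 1 0 = C (n6 + 1) 0 1 1 1 1 := S.c4 (n6 + 1) 1 1 1 1 0
  linear_combination ((((((-6 : ℚ) * r0 + (2 : ℚ) * r1 + (4 : ℚ) * r2 + (2 : ℚ) * r3 + (-6 : ℚ) * r4)
    + ((2 : ℚ) * r5 + (-3 : ℚ) * r6 + (-3 : ℚ) * r7 + (2 : ℚ) * r8))
    + (((4 : ℚ) * r9 + (-3 : ℚ) * r10 + (4 : ℚ) * r11 + (2 : ℚ) * r12 + (2 : ℚ) * r13)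
    + ((-6 : ℚ) * r14 + (2 : ℚ) * r15 + (-3 : ℚ) * r16 + (-3 : ℚ) * r17)))
    + ((((2 : ℚ) * r18 + (-3 : ℚ) * r19 + (9 : ℚ) * r20 + (-3 : ℚ) * r21 + (-3 : ℚ) * r22)
    + ((-3 : ℚ) * r23 + (2 : ℚ) * r24 + (4 : ℚ) * r25 + (-3 : ℚ) * r26))
    + (((4 : ℚ) * r27 + (-3 : ℚ) * r28 + (-3 : ℚ) * r29 + (4 : ℚ) * r30 + (2 : ℚ) * r31)
    + ((2 : ℚ) * r32 + (2 : ℚ) * r33 + (-6 : ℚ) * r34 + (-6 : ℚ) * r35))))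
    + (((((2 : ℚ) * r36 + (2 : ℚ) * r37 + (-6 : ℚ) * r38 + (2 : ℚ) * r39 + (-2 : ℚ) * r40)
    + ((2 : ℚ) * r41 + (2 : ℚ) * r42 + (2 : ℚ) * r43 + (-6 : ℚ) * r44))
    + (((2 : ℚ) * r45 + (-2 : ℚ) * r46 + (2 : ℚ) * r47 + (-2 : ℚ) * r48 + (-2 : ℚ) * r49)
    + ((2 : ℚ) * r50 + (2 : ℚ) * r51 + (2 : ℚ) * r52 + (2 : ℚ) * r53)))
    + ((((-6 : ℚ) * r54 + (-6 : ℚ) * r55 + (2 : ℚ) * r56 + (-6 : ℚ) * r57 + (2 : ℚ) * r58)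
    + ((2 : ℚ) * r59 + (-6 : ℚ) * r60 + (2 : ℚ) * r61 + (2 : ℚ) * r62))
    + (((2 : ℚ) * r63 + (-6 : ℚ) * r64 + (24 : ℚ) * r65 + (-6 : ℚ) * z0 + (2 : ℚ) * z1)
    + ((2 : ℚ) * z2 + (-6 : ℚ) * z3 + (2 : ℚ) * z4 + (2 : ℚ) * z5)))))
    + ((((((-6 : ℚ) * z6 + (2 : ℚ) * z7 + (2 : ℚ) * z8 + (2 : ℚ) * z9 + (2 : ℚ) * z10)
    + ((-2 : ℚ) * z11 + (2 : ℚ) * z12 + (4 : ℚ) * z13 + (-3 : ℚ) * z14))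
    + (((-3 : ℚ) * z15 + (4 : ℚ) * z16 + (2 : ℚ) * z17 + (2 : ℚ) * z18 + (2 : ℚ) * z19)
    + ((-3 : ℚ) * z20 + (4 : ℚ) * z21 + (9 : ℚ) * z22 + (-3 : ℚ) * z23)))
    + ((((-3 : ℚ) * z24 + (6 : ℚ) * z25 + (6 : ℚ) * z26 + (6 : ℚ) * z27 + (-24 : ℚ) * z28)
    + ((-2 : ℚ) * z29 + (-2 : ℚ) * z30 + (6 : ℚ) * z31 + (-4 : ℚ) * z32))
    + (((-4 : ℚ) * z33 + (6 : ℚ) * z34 + (6 : ℚ) * z35 + (-2 : ℚ) * z36 + (-2 : ℚ) * z37)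
    + ((6 : ℚ) * z38 + (-2 : ℚ) * z39 + (-2 : ℚ) * z40 + (6 : ℚ) * z41))))
    + (((((3 : ℚ) * z42 + (-2 : ℚ) * z43 + (-2 : ℚ) * z44 + (-2 : ℚ) * z45 + (3 : ℚ) * z46)
    + ((-2 : ℚ) * z47 + (-2 : ℚ) * z48 + (-2 : ℚ) * z49 + (-4 : ℚ) * z50))
    + (((-4 : ℚ) * z51 + (6 : ℚ) * z52 + (6 : ℚ) * z53 + (3 : ℚ) * z54 + (-2 : ℚ) * z55)
    + ((-2 : ℚ) * z56 + (-2 : ℚ) * z57 + (-2 : ℚ) * z58 + (-2 : ℚ) * z59)))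
    + ((((6 : ℚ) * z60 + (3 : ℚ) * z61 + (-2 : ℚ) * z62 + (-2 : ℚ) * z63 + (-2 : ℚ) * z64)
    + ((3 : ℚ) * z65 + (-2 : ℚ) * z66 + (-2 : ℚ) * z67 + (-2 : ℚ) * z68))
    + ((3 : ℚ) * z69 + (-2 : ℚ) * z70 + (-2 : ℚ) * z71 + (-2 : ℚ) * z72 + (2 : ℚ) * z73 + (2 : ℚ) * z74 + (2 : ℚ) * z75 + (3 : ℚ) * z76))))

theorem S_p4 (S : Sys6 G C D) :
    ∀ n6 n1 n2 n3 n4 : ℕ, C (n6 + 1) (n1 + 1) (n2 + 1) (n3 + 1) (n4 + 1) 0 = 0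
  | n6, 0, 0, 0, 0 => L_g1_e1_e1_e1_e1_e0 S n6
  | n6, 0, 0, 0, n4 + 1 => L_g1_e1_e1_e1_g2_e0 S n6 n4
  | n6, 0, 0, n3 + 1, 0 => L_g1_e1_e1_g2_e1_e0 S n6 n3
  | n6, 0, 0, n3 + 1, n4 + 1 => L_g1_e1_e1_g2_g2_e0 S n6 n3 n4
  | n6, 0, n2 + 1, 0, 0 => L_g1_e1_g2_e1_e1_e0 S n6 n2
  | n6, 0, n2 + 1, 0, n4 + 1 => L_g1_e1_g2_e1_g2_e0 S n6 n2 n4
  | n6, 0, n2 + 1, n3 + 1, 0 => L_g1_e1_g2_g2_e1_e0 S n6 n2 n3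
  | n6, 0, n2 + 1, n3 + 1, n4 + 1 => L_g1_e1_g2_g2_g2_e0 S n6 n2 n3 n4
  | n6, n1 + 1, 0, 0, 0 => L_g1_g2_e1_e1_e1_e0 S n6 n1
  | n6, n1 + 1, 0, 0, n4 + 1 => L_g1_g2_e1_e1_g2_e0 S n6 n1 n4
  | n6, n1 + 1, 0, n3 + 1, 0 => L_g1_g2_e1_g2_e1_e0 S n6 n1 n3
  | n6, n1 + 1, 0, n3 + 1, n4 + 1 => L_g1_g2_e1_g2_g2_e0 S n6 n1 n3 n4
  | n6, n1 + 1, n2 + 1, 0, 0 => L_g1_g2_g2_e1_e1_e0 S n6 n1 n2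
  | n6, n1 + 1, n2 + 1, 0, n4 + 1 => L_g1_g2_g2_e1_g2_e0 S n6 n1 n2 n4
  | n6, n1 + 1, n2 + 1, n3 + 1, 0 => L_g1_g2_g2_g2_e1_e0 S n6 n1 n2 n3
  | n6, n1 + 1, n2 + 1, n3 + 1, n4 + 1 => L_g1_g2_g2_g2_g2_e0 S n6 n1 n2 n3 n4

theorem L_g1_g2_g2_g1_e0_e0 (S : Sys6 G C D) (n6 n1 n2 n3 : ℕ) : C (n6 + 1) (n1 + 2) (n2 + 2) (n3 + 1) 0 0 = 0 := by
  have r0 : C (n6 + 1) 0 (n1 + 2) (n2 + 2) (n3 + 1) 0 = G 0 (n1 + 2) (n2 + 2) (n3 + 1) 0 (n6 + 1) 0 - G (n1 + 2) (n2 + 2) (n3 + 1) 0 0 (n6 + 1) 0 + G (n1 + 1) (n2 + 2) (n3 + 1) 0 1 (n6 + 1) 0 := S.al1 (n1 + 1) (n2 + 2) (n3 + 1) 0 n6 0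
  have z0 : G 0 (n1 + 2) (n2 + 2) (n3 + 1) 0 (n6 + 1) 0 = 0 := S.van' 0 n1 (n2 + 1) (n3 + 1) 0 (n6 + 1) 0
  have z1 : G (n1 + 1) (n2 + 2) (n3 + 1) 0 1 (n6 + 1) 0 = 0 := S.van' (n1 + 1) n2 n3 0 1 (n6 + 1) 0
  have z2 : G (n1 + 2) (n2 + 2) (n3 + 1) 0 0 (n6 + 1) 0 = 0 := S.van' (n1 + 2) n2 n3 0 0 (n6 + 1) 0
  have z3 : C (n6 + 1) (n1 + 2) (n2 + 2) (n3 + 1) 0 0 = C (n6 + 1) 0 (n1 + 2) (n2 + 2) (n3 + 1) 0 := S.c4 (n6 + 1) (n1 + 2) (n2 + 2) (n3 + 1) 0 0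
  linear_combination (1 : ℚ) * r0 + (1 : ℚ) * z0 + (1 : ℚ) * z1 + (-1 : ℚ) * z2 + (1 : ℚ) * z3

theorem L_e1_e1_e1_e1_e0_e0 (S : Sys6 G C D) : C 1 1 1 1 0 0 = 0 := by
  have r0 : C 1 0 0 0 0 3 = G 3 0 0 0 0 1 0 - G 0 0 0 3 0 1 0 := S.al0 0 0 3 0 0
  have r1 : C 1 0 0 0 1 2 = G 2 0 0 1 0 1 0 - G 0 0 1 2 0 1 0 := S.al0 0 1 2 0 0
  have r2 : C 1 0 0 0 2 1 = G 1 0 0 2 0 1 0 - G 0 0 2 1 0 1 0 := S.al0 0 2 1 0 0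
  have r3 : C 1 0 0 0 3 0 = G 0 0 0 3 0 1 0 - G 0 0 3 0 0 1 0 := S.al0 0 3 0 0 0
  have r4 : C 1 0 0 1 0 2 = G 2 0 1 0 0 1 0 - G 0 1 0 2 0 1 0 := S.al0 1 0 2 0 0
  have r5 : C 1 0 0 1 1 1 = G 1 0 1 1 0 1 0 - G 0 1 1 1 0 1 0 := S.al0 1 1 1 0 0
  have r6 : C 1 0 0 1 2 0 = G 0 0 1 2 0 1 0 - G 0 1 2 0 0 1 0 := S.al0 1 2 0 0 0
  have r7 : C 1 0 0 2 0 1 = G 1 0 2 0 0 1 0 - G 0 2 0 1 0 1 0 := S.al0 2 0 1 0 0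
  have r8 : C 1 0 0 2 1 0 = G 0 0 2 1 0 1 0 - G 0 2 1 0 0 1 0 := S.al0 2 1 0 0 0
  have r9 : C 1 0 0 3 0 0 = G 0 0 3 0 0 1 0 - G 0 3 0 0 0 1 0 := S.al0 3 0 0 0 0
  have r10 : C 1 0 1 0 0 2 = G 2 1 0 0 0 1 0 - G 1 0 0 2 0 1 0 + G 0 0 0 2 1 1 0 := S.al1 0 0 0 2 0 0
  have r11 : C 1 0 1 0 1 1 = G 1 1 0 1 0 1 0 - G 1 0 1 1 0 1 0 + G 0 0 1 1 1 1 0 := S.al1 0 0 1 1 0 0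
  have r12 : C 1 0 1 0 2 0 = G 0 1 0 2 0 1 0 - G 1 0 2 0 0 1 0 + G 0 0 2 0 1 1 0 := S.al1 0 0 2 0 0 0
  have r13 : C 1 0 1 1 0 1 = G 1 1 1 0 0 1 0 - G 1 1 0 1 0 1 0 + G 0 1 0 1 1 1 0 := S.al1 0 1 0 1 0 0
  have r14 : C 1 0 1 1 1 0 = G 0 1 1 1 0 1 0 - G 1 1 1 0 0 1 0 + G 0 1 1 0 1 1 0 := S.al1 0 1 1 0 0 0
  have r15 : C 1 0 1 2 0 0 = G 0 1 2 0 0 1 0 - G 1 2 0 0 0 1 0 + G 0 2 0 0 1 1 0 := S.al1 0 2 0 0 0 0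
  have r16 : C 1 0 2 0 0 1 = G 1 2 0 0 0 1 0 - G 2 0 0 1 0 1 0 + G 1 0 0 1 1 1 0 := S.al1 1 0 0 1 0 0
  have r17 : C 1 0 2 0 1 0 = G 0 2 0 1 0 1 0 - G 2 0 1 0 0 1 0 + G 1 0 1 0 1 1 0 := S.al1 1 0 1 0 0 0
  have r18 : C 1 0 2 1 0 0 = G 0 2 1 0 0 1 0 - G 2 1 0 0 0 1 0 + G 1 1 0 0 1 1 0 := S.al1 1 1 0 0 0 0
  have r19 : C 1 0 3 0 0 0 = G 0 3 0 0 0 1 0 - G 3 0 0 0 0 1 0 + G 2 0 0 0 1 1 0 := S.al1 2 0 0 0 0 0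
  have r20 : C 1 1 0 0 0 2 = G 2 0 0 0 0 1 1 - G 0 0 0 2 0 1 1 := S.al0 0 0 2 0 1
  have r21 : C 1 1 0 0 1 1 = G 1 0 0 1 0 1 1 - G 0 0 1 1 0 1 1 := S.al0 0 1 1 0 1
  have r22 : C 1 1 0 0 2 0 = G 0 0 0 2 0 1 1 - G 0 0 2 0 0 1 1 := S.al0 0 2 0 0 1
  have r23 : C 1 1 0 1 0 1 = G 1 0 1 0 0 1 1 - G 0 1 0 1 0 1 1 := S.al0 1 0 1 0 1
  have r24 : C 1 1 0 1 1 0 = G 0 0 1 1 0 1 1 - G 0 1 1 0 0 1 1 := S.al0 1 1 0 0 1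
  have r25 : C 1 1 0 2 0 0 = G 0 0 2 0 0 1 1 - G 0 2 0 0 0 1 1 := S.al0 2 0 0 0 1
  have r26 : C 1 1 1 0 0 1 = G 1 1 0 0 0 1 1 - G 1 0 0 1 0 1 1 + G 0 0 0 1 1 1 1 := S.al1 0 0 0 1 0 1
  have r27 : C 1 1 1 0 1 0 = G 0 1 0 1 0 1 1 - G 1 0 1 0 0 1 1 + G 0 0 1 0 1 1 1 := S.al1 0 0 1 0 0 1
  have r28 : C 1 1 1 1 0 0 = G 0 1 1 0 0 1 1 - G 1 1 0 0 0 1 1 + G 0 1 0 0 1 1 1 := S.al1 0 1 0 0 0 1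
  have r29 : C 1 1 2 0 0 0 = G 0 2 0 0 0 1 1 - G 2 0 0 0 0 1 1 + G 1 0 0 0 1 1 1 := S.al1 1 0 0 0 0 1
  have r30 : C 1 3 0 0 0 0 = G 0 0 0 0 0 1 3 - G 0 0 0 0 0 1 3 := S.al0 0 0 0 0 3
  have z0 : G 1 0 0 0 1 1 1 = G 0 0 0 1 1 1 1 := S.r3 1 0 0 0 0 1
  have z1 : G 0 1 0 0 1 1 1 = G 0 0 0 1 1 1 1 := S.r2 0 1 0 0 0 1
  have z2 : G 0 0 1 0 1 1 1 = G 0 0 0 1 1 1 1 := S.r1 0 0 1 0 0 1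
  have z3 : G 2 0 0 0 1 1 0 = G 0 0 0 2 1 1 0 := S.r3 2 0 0 0 0 0
  have z4 : G 0 2 0 0 1 1 0 = G 0 0 0 2 1 1 0 := S.r2 0 2 0 0 0 0
  have z5 : G 0 0 2 0 1 1 0 = G 0 0 0 2 1 1 0 := S.r1 0 0 2 0 0 0
  have z6 : G 1 0 0 1 1 1 0 = G 0 0 1 1 1 1 0 := S.r3 1 0 0 1 0 0
  have z7 : G 1 1 0 0 1 1 0 = G 0 0 1 1 1 1 0 := S.r2 1 1 0 0 0 0
  have z8 : G 0 1 1 0 1 1 0 = G 0 0 1 1 1 1 0 := S.r1 0 1 1 0 0 0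
  have z9 : G 1 0 1 0 1 1 0 = G 0 1 0 1 1 1 0 := S.r1 1 0 1 0 0 0
  have z10 : C 1 0 0 0 3 0 = C 1 0 0 0 0 3 := S.c4 1 0 0 0 3 0
  have z11 : C 1 0 0 3 0 0 = C 1 0 0 0 0 3 := S.c3 1 0 0 3 0 0
  have z12 : C 1 0 3 0 0 0 = C 1 0 0 0 0 3 := S.c2 1 0 3 0 0 0
  have z13 : C 1 3 0 0 0 0 = C 1 0 0 0 0 3 := S.c1 1 3 0 0 0 0
  have z14 : C 1 0 0 1 2 0 = C 1 0 0 0 1 2 := S.c4 1 0 0 1 2 0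
  have z15 : C 1 0 1 2 0 0 = C 1 0 0 0 1 2 := S.c3 1 0 1 2 0 0
  have z16 : C 1 1 2 0 0 0 = C 1 0 0 0 1 2 := S.c2 1 1 2 0 0 0
  have z17 : C 1 0 0 2 1 0 = C 1 0 0 0 2 1 := S.c4 1 0 0 2 1 0
  have z18 : C 1 0 2 1 0 0 = C 1 0 0 0 2 1 := S.c3 1 0 2 1 0 0
  have z19 : C 1 1 0 0 0 2 = C 1 0 0 0 2 1 := S.c1 1 1 0 0 0 2
  have z20 : C 1 0 1 0 2 0 = C 1 0 0 1 0 2 := S.c4 1 0 1 0 2 0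
  have z21 : C 1 0 2 0 0 1 = C 1 0 0 1 0 2 := S.c2 1 0 2 0 0 1
  have z22 : C 1 1 0 2 0 0 = C 1 0 0 1 0 2 := S.c3 1 1 0 2 0 0
  have z23 : C 1 0 1 1 1 0 = C 1 0 0 1 1 1 := S.c4 1 0 1 1 1 0
  have z24 : C 1 1 0 0 1 1 = C 1 0 0 1 1 1 := S.c1 1 1 0 0 1 1
  have z25 : C 1 1 1 0 0 1 = C 1 0 0 1 1 1 := S.c2 1 1 1 0 0 1
  have z26 : C 1 1 1 1 0 0 = C 1 0 0 1 1 1 := S.c3 1 1 1 1 0 0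
  have z27 : C 1 0 1 0 0 2 = C 1 0 0 2 0 1 := S.c2 1 0 1 0 0 2
  have z28 : C 1 0 2 0 1 0 = C 1 0 0 2 0 1 := S.c4 1 0 2 0 1 0
  have z29 : C 1 1 0 0 2 0 = C 1 0 0 2 0 1 := S.c1 1 1 0 0 2 0
  have z30 : C 1 0 1 1 0 1 = C 1 0 1 0 1 1 := S.c3 1 0 1 1 0 1
  have z31 : C 1 1 0 1 0 1 = C 1 0 1 0 1 1 := S.c1 1 1 0 1 0 1
  have z32 : C 1 1 0 1 1 0 = C 1 0 1 0 1 1 := S.c4 1 1 0 1 1 0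
  have z33 : C 1 1 1 0 1 0 = C 1 0 1 0 1 1 := S.c2 1 1 1 0 1 0
  linear_combination (((((-3 / 2 : ℚ) * r0 + (1 / 2 : ℚ) * r1 + (1 / 2 : ℚ) * r2 + (-3 / 2 : ℚ) * r3 + (1 / 2 : ℚ) * r4)
    + ((-1 / 2 : ℚ) * r5 + (1 / 2 : ℚ) * r6 + (1 / 2 : ℚ) * r7 + (1 / 2 : ℚ) * r8))
    + ((-3 / 2 : ℚ) * r9 + (1 / 2 : ℚ) * r10 + (-1 / 2 : ℚ) * r11 + (1 / 2 : ℚ) * r12 + (-1 / 2 : ℚ) * r13 + (-1 / 2 : ℚ) * r14 + (1 / 2 : ℚ) * r15 + (1 / 2 : ℚ) * r16))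
    + (((1 / 2 : ℚ) * r17 + (1 / 2 : ℚ) * r18 + (-3 / 2 : ℚ) * r19 + (-3 / 2 : ℚ) * r20 + (2 / 3 : ℚ) * r21 + (-3 / 2 : ℚ) * r22 + (1 / 6 : ℚ) * r23 + (2 / 3 : ℚ) * r24)
    + ((-3 / 2 : ℚ) * r25 + (2 / 3 : ℚ) * r26 + (1 / 6 : ℚ) * r27 + (2 / 3 : ℚ) * r28 + (-3 / 2 : ℚ) * r29 + (6 : ℚ) * r30 + (-3 / 2 : ℚ) * z0 + (2 / 3 : ℚ) * z1)))
    + ((((1 / 6 : ℚ) * z2 + (-3 / 2 : ℚ) * z3 + (1 / 2 : ℚ) * z4 + (1 / 2 : ℚ) * z5 + (1 / 2 : ℚ) * z6 + (1 / 2 : ℚ) * z7 + (-1 / 2 : ℚ) * z8 + (1 / 2 : ℚ) * z9)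
    + ((3 / 2 : ℚ) * z10 + (3 / 2 : ℚ) * z11 + (3 / 2 : ℚ) * z12 + (-6 : ℚ) * z13 + (-1 / 2 : ℚ) * z14 + (-1 / 2 : ℚ) * z15 + (3 / 2 : ℚ) * z16 + (-1 / 2 : ℚ) * z17))
    + (((-1 / 2 : ℚ) * z18 + (3 / 2 : ℚ) * z19 + (-1 / 2 : ℚ) * z20 + (-1 / 2 : ℚ) * z21 + (3 / 2 : ℚ) * z22 + (1 / 2 : ℚ) * z23 + (-2 / 3 : ℚ) * z24 + (-2 / 3 : ℚ) * z25)
    + ((1 / 3 : ℚ) * z26 + (-1 / 2 : ℚ) * z27 + (-1 / 2 : ℚ) * z28 + (3 / 2 : ℚ) * z29 + (1 / 2 : ℚ) * z30 + (-1 / 6 : ℚ) * z31 + (-2 / 3 : ℚ) * z32 + (-1 / 6 : ℚ) * z33)))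

theorem L_e1_e1_e1_g2_e0_e0 (S : Sys6 G C D) (n3 : ℕ) : C 1 1 1 (n3 + 2) 0 0 = 0 := by
  have r0 : D 1 0 0 1 1 (n3 + 2) = G (n3 + 2) 0 1 0 0 1 1 - G 0 0 1 0 1 1 (n3 + 2) := S.al0' 0 0 1 1 (n3 + 2)
  have r1 : D 1 0 0 (n3 + 2) 1 1 = G 1 0 1 0 0 (n3 + 2) 1 - G 0 0 1 0 (n3 + 2) 1 1 := S.al0' 0 0 (n3 + 2) 1 1
  have r2 : D 1 0 1 0 (n3 + 2) 1 = G 1 0 1 0 1 0 (n3 + 2) - G 1 0 1 0 0 (n3 + 2) 1 + G 0 1 1 0 0 (n3 + 2) 1 := S.al1' 0 0 0 0 (n3 + 2) 1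
  have r3 : D 1 0 1 1 0 (n3 + 2) = G (n3 + 2) 0 1 0 1 1 0 - G 1 0 1 0 1 0 (n3 + 2) + G 0 1 1 0 1 0 (n3 + 2) := S.al1' 0 0 0 1 0 (n3 + 2)
  have r4 : D 1 0 1 (n3 + 2) 1 0 = G 0 0 1 0 1 (n3 + 2) 1 - G 1 0 1 0 (n3 + 2) 1 0 + G 0 1 1 0 (n3 + 2) 1 0 := S.al1' 0 0 0 (n3 + 2) 1 0
  have r5 : D 1 1 0 1 (n3 + 2) 0 = G 0 0 1 1 0 1 (n3 + 2) - G 0 0 1 1 1 (n3 + 2) 0 := S.al0' 0 1 1 (n3 + 2) 0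
  have r6 : D 1 1 0 (n3 + 2) 1 0 = G 0 0 1 1 0 (n3 + 2) 1 - G 0 0 1 1 (n3 + 2) 1 0 := S.al0' 0 1 (n3 + 2) 1 0
  have r7 : D 1 1 1 1 (n3 + 1) 0 = G 0 0 1 1 1 1 (n3 + 1) - G 1 0 1 1 1 (n3 + 1) 0 + G 0 1 1 1 1 (n3 + 1) 0 := S.al1' 0 0 1 1 (n3 + 1) 0
  have r8 : D 1 (n3 + 1) 1 1 1 0 = G 0 0 1 (n3 + 1) 1 1 1 - G 1 0 1 (n3 + 1) 1 1 0 + G 0 1 1 (n3 + 1) 1 1 0 := S.al1' 0 0 (n3 + 1) 1 1 0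
  have r9 : D 1 (n3 + 2) 0 0 1 1 = G 1 0 1 (n3 + 2) 0 0 1 - G 0 0 1 (n3 + 2) 0 1 1 := S.al0' 0 (n3 + 2) 0 1 1
  have r10 : D 1 (n3 + 2) 0 1 0 1 = G 1 0 1 (n3 + 2) 0 1 0 - G 0 0 1 (n3 + 2) 1 0 1 := S.al0' 0 (n3 + 2) 1 0 1
  have r11 : D 1 (n3 + 2) 0 1 1 0 = G 0 0 1 (n3 + 2) 0 1 1 - G 0 0 1 (n3 + 2) 1 1 0 := S.al0' 0 (n3 + 2) 1 1 0
  have r12 : D 1 (n3 + 2) 1 0 0 1 = G 1 0 1 (n3 + 2) 1 0 0 - G 1 0 1 (n3 + 2) 0 0 1 + G 0 1 1 (n3 + 2) 0 0 1 := S.al1' 0 0 (n3 + 2) 0 0 1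
  have r13 : D 1 (n3 + 2) 1 0 1 0 = G 0 0 1 (n3 + 2) 1 0 1 - G 1 0 1 (n3 + 2) 0 1 0 + G 0 1 1 (n3 + 2) 0 1 0 := S.al1' 0 0 (n3 + 2) 0 1 0
  have r14 : D 1 (n3 + 2) 1 1 0 0 = G 0 0 1 (n3 + 2) 1 1 0 - G 1 0 1 (n3 + 2) 1 0 0 + G 0 1 1 (n3 + 2) 1 0 0 := S.al1' 0 0 (n3 + 2) 1 0 0
  have r15 : D (n3 + 1) 1 0 1 1 1 = G 1 0 (n3 + 1) 1 0 1 1 - G 0 0 (n3 + 1) 1 1 1 1 := S.al0' n3 1 1 1 1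
  have r16 : D (n3 + 2) 0 1 0 1 1 = G 1 0 (n3 + 2) 0 1 0 1 - G 1 0 (n3 + 2) 0 0 1 1 + G 0 1 (n3 + 2) 0 0 1 1 := S.al1' 0 (n3 + 1) 0 0 1 1
  have r17 : D (n3 + 2) 0 1 1 0 1 = G 1 0 (n3 + 2) 0 1 1 0 - G 1 0 (n3 + 2) 0 1 0 1 + G 0 1 (n3 + 2) 0 1 0 1 := S.al1' 0 (n3 + 1) 0 1 0 1
  have r18 : D (n3 + 2) 1 0 1 0 1 = G 1 0 (n3 + 2) 1 0 1 0 - G 0 0 (n3 + 2) 1 1 0 1 := S.al0' (n3 + 1) 1 1 0 1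
  have r19 : D (n3 + 2) 1 1 0 1 0 = G 0 0 (n3 + 2) 1 1 0 1 - G 1 0 (n3 + 2) 1 0 1 0 + G 0 1 (n3 + 2) 1 0 1 0 := S.al1' 0 (n3 + 1) 1 0 1 0
  have r20 : C 1 0 0 1 1 (n3 + 2) = G (n3 + 2) 0 1 1 0 1 0 - G 0 1 1 (n3 + 2) 0 1 0 := S.al0 1 1 (n3 + 2) 0 0
  have r21 : C 1 0 0 1 (n3 + 2) 1 = G 1 0 1 (n3 + 2) 0 1 0 - G 0 1 (n3 + 2) 1 0 1 0 := S.al0 1 (n3 + 2) 1 0 0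
  have r22 : C 1 0 0 (n3 + 2) 1 1 = G 1 0 (n3 + 2) 1 0 1 0 - G 0 (n3 + 2) 1 1 0 1 0 := S.al0 (n3 + 2) 1 1 0 0
  have r23 : C 1 0 1 0 1 (n3 + 2) = G (n3 + 2) 1 0 1 0 1 0 - G 1 0 1 (n3 + 2) 0 1 0 + G 0 0 1 (n3 + 2) 1 1 0 := S.al1 0 0 1 (n3 + 2) 0 0
  have r24 : C 1 0 1 0 (n3 + 2) 1 = G 1 1 0 (n3 + 2) 0 1 0 - G 1 0 (n3 + 2) 1 0 1 0 + G 0 0 (n3 + 2) 1 1 1 0 := S.al1 0 0 (n3 + 2) 1 0 0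
  have r25 : C 1 0 1 1 0 (n3 + 2) = G (n3 + 2) 1 1 0 0 1 0 - G 1 1 0 (n3 + 2) 0 1 0 + G 0 1 0 (n3 + 2) 1 1 0 := S.al1 0 1 0 (n3 + 2) 0 0
  have r26 : C 1 0 1 1 1 (n3 + 1) = G (n3 + 1) 1 1 1 0 1 0 - G 1 1 1 (n3 + 1) 0 1 0 + G 0 1 1 (n3 + 1) 1 1 0 := S.al1 0 1 1 (n3 + 1) 0 0
  have r27 : C 1 0 1 1 (n3 + 1) 1 = G 1 1 1 (n3 + 1) 0 1 0 - G 1 1 (n3 + 1) 1 0 1 0 + G 0 1 (n3 + 1) 1 1 1 0 := S.al1 0 1 (n3 + 1) 1 0 0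
  have r28 : C 1 0 1 1 (n3 + 2) 0 = G 0 1 1 (n3 + 2) 0 1 0 - G 1 1 (n3 + 2) 0 0 1 0 + G 0 1 (n3 + 2) 0 1 1 0 := S.al1 0 1 (n3 + 2) 0 0 0
  have r29 : C 1 0 1 (n3 + 1) 1 1 = G 1 1 (n3 + 1) 1 0 1 0 - G 1 (n3 + 1) 1 1 0 1 0 + G 0 (n3 + 1) 1 1 1 1 0 := S.al1 0 (n3 + 1) 1 1 0 0
  have r30 : C 1 0 1 (n3 + 2) 0 1 = G 1 1 (n3 + 2) 0 0 1 0 - G 1 (n3 + 2) 0 1 0 1 0 + G 0 (n3 + 2) 0 1 1 1 0 := S.al1 0 (n3 + 2) 0 1 0 0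
  have r31 : C 1 0 1 (n3 + 2) 1 0 = G 0 1 (n3 + 2) 1 0 1 0 - G 1 (n3 + 2) 1 0 0 1 0 + G 0 (n3 + 2) 1 0 1 1 0 := S.al1 0 (n3 + 2) 1 0 0 0
  have r32 : C 1 0 (n3 + 1) 1 1 1 = G 1 (n3 + 1) 1 1 0 1 0 - G (n3 + 1) 1 1 1 0 1 0 + G n3 1 1 1 1 1 0 := S.al1 n3 1 1 1 0 0
  have r33 : C 1 0 (n3 + 2) 0 1 1 = G 1 (n3 + 2) 0 1 0 1 0 - G (n3 + 2) 0 1 1 0 1 0 + G (n3 + 1) 0 1 1 1 1 0 := S.al1 (n3 + 1) 0 1 1 0 0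
  have r34 : C 1 0 (n3 + 2) 1 0 1 = G 1 (n3 + 2) 1 0 0 1 0 - G (n3 + 2) 1 0 1 0 1 0 + G (n3 + 1) 1 0 1 1 1 0 := S.al1 (n3 + 1) 1 0 1 0 0
  have r35 : C 1 0 (n3 + 2) 1 1 0 = G 0 (n3 + 2) 1 1 0 1 0 - G (n3 + 2) 1 1 0 0 1 0 + G (n3 + 1) 1 1 0 1 1 0 := S.al1 (n3 + 1) 1 1 0 0 0
  have r36 : C 1 1 0 1 1 (n3 + 1) = G (n3 + 1) 0 1 1 0 1 1 - G 0 1 1 (n3 + 1) 0 1 1 := S.al0 1 1 (n3 + 1) 0 1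
  have r37 : C 1 1 0 (n3 + 2) 0 1 = G 1 0 (n3 + 2) 0 0 1 1 - G 0 (n3 + 2) 0 1 0 1 1 := S.al0 (n3 + 2) 0 1 0 1
  have r38 : C 1 1 1 0 (n3 + 1) 1 = G 1 1 0 (n3 + 1) 0 1 1 - G 1 0 (n3 + 1) 1 0 1 1 + G 0 0 (n3 + 1) 1 1 1 1 := S.al1 0 0 (n3 + 1) 1 0 1
  have r39 : C 1 1 1 1 0 (n3 + 1) = G (n3 + 1) 1 1 0 0 1 1 - G 1 1 0 (n3 + 1) 0 1 1 + G 0 1 0 (n3 + 1) 1 1 1 := S.al1 0 1 0 (n3 + 1) 0 1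
  have r40 : C 1 1 1 1 (n3 + 1) 0 = G 0 1 1 (n3 + 1) 0 1 1 - G 1 1 (n3 + 1) 0 0 1 1 + G 0 1 (n3 + 1) 0 1 1 1 := S.al1 0 1 (n3 + 1) 0 0 1
  have r41 : C 1 1 1 (n3 + 1) 0 1 = G 1 1 (n3 + 1) 0 0 1 1 - G 1 (n3 + 1) 0 1 0 1 1 + G 0 (n3 + 1) 0 1 1 1 1 := S.al1 0 (n3 + 1) 0 1 0 1
  have r42 : C 1 1 (n3 + 1) 0 1 1 = G 1 (n3 + 1) 0 1 0 1 1 - G (n3 + 1) 0 1 1 0 1 1 + G n3 0 1 1 1 1 1 := S.al1 n3 0 1 1 0 1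
  have r43 : C 1 1 (n3 + 2) 0 1 0 = G 0 (n3 + 2) 0 1 0 1 1 - G (n3 + 2) 0 1 0 0 1 1 + G (n3 + 1) 0 1 0 1 1 1 := S.al1 (n3 + 1) 0 1 0 0 1
  have r44 : C 1 (n3 + 2) 0 1 0 1 = G 1 0 1 0 0 1 (n3 + 2) - G 0 1 0 1 0 1 (n3 + 2) := S.al0 1 0 1 0 (n3 + 2)
  have r45 : C 1 (n3 + 2) 0 1 1 0 = G 0 0 1 1 0 1 (n3 + 2) - G 0 1 1 0 0 1 (n3 + 2) := S.al0 1 1 0 0 (n3 + 2)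
  have r46 : C 1 (n3 + 2) 1 0 1 0 = G 0 1 0 1 0 1 (n3 + 2) - G 1 0 1 0 0 1 (n3 + 2) + G 0 0 1 0 1 1 (n3 + 2) := S.al1 0 0 1 0 0 (n3 + 2)
  have r47 : C (n3 + 2) 1 0 1 0 1 = G 1 0 1 0 0 (n3 + 2) 1 - G 0 1 0 1 0 (n3 + 2) 1 := S.al0 1 0 1 (n3 + 1) 1
  have r48 : C (n3 + 2) 1 0 1 1 0 = G 0 0 1 1 0 (n3 + 2) 1 - G 0 1 1 0 0 (n3 + 2) 1 := S.al0 1 1 0 (n3 + 1) 1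
  have r49 : C (n3 + 2) 1 1 0 1 0 = G 0 1 0 1 0 (n3 + 2) 1 - G 1 0 1 0 0 (n3 + 2) 1 + G 0 0 1 0 1 (n3 + 2) 1 := S.al1 0 0 1 0 (n3 + 1) 1
  have z0 : G 0 0 1 0 (n3 + 2) 1 1 = 0 := S.van 0 0 1 0 n3 0 1
  have z1 : G 0 1 1 1 1 (n3 + 1) 0 = G 1 1 1 0 1 (n3 + 1) 0 := S.r3 0 1 1 1 n3 0
  have z2 : G 1 0 1 1 1 (n3 + 1) 0 = G 1 1 1 0 1 (n3 + 1) 0 := S.r2 1 0 1 1 n3 0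
  have z3 : G (n3 + 1) 1 1 0 0 1 1 = G 0 1 1 0 1 1 (n3 + 1) := S.m3 (n3 + 1) 0 0 0 1 1
  have z4 : G 0 1 1 0 1 1 (n3 + 1) = G 0 0 1 1 1 1 (n3 + 1) := S.r1 0 1 1 0 0 (n3 + 1)
  have z5 : G 0 1 1 0 0 1 (n3 + 2) = G 0 1 1 0 1 (n3 + 2) 0 := S.m3 0 0 0 0 1 (n3 + 2)
  have z6 : G 0 1 1 0 1 (n3 + 2) 0 = G 0 0 1 1 1 (n3 + 2) 0 := S.r1 0 1 1 0 (n3 + 1) 0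
  have z7 : G 0 0 1 1 (n3 + 2) 1 0 = 0 := S.van 0 0 1 1 n3 0 0
  have z8 : G 0 1 1 (n3 + 1) 0 1 1 = G 0 1 1 (n3 + 1) 1 1 0 := S.m3 0 0 (n3 + 1) 0 1 1
  have z9 : G 0 1 1 (n3 + 1) 1 1 0 = G 1 1 (n3 + 1) 0 1 1 0 := S.r3 0 1 1 (n3 + 1) 0 0
  have z10 : G (n3 + 1) 0 1 1 1 1 0 = G 1 1 (n3 + 1) 0 1 1 0 := S.r2 (n3 + 1) 0 1 1 0 0
  have z11 : G 1 1 (n3 + 1) 0 0 1 1 = G 0 1 (n3 + 1) 0 1 1 1 := S.m3 1 n3 0 0 1 1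
  have z12 : G 1 1 (n3 + 1) 0 1 1 0 = G 0 1 (n3 + 1) 0 1 1 1 := S.m1 1 n3 0 1 1 0
  have z13 : G 0 1 (n3 + 1) 0 1 1 1 = G 0 0 1 (n3 + 1) 1 1 1 := S.r1 0 1 (n3 + 1) 0 0 1
  have z14 : G 0 1 (n3 + 2) 0 0 1 1 = G 0 1 (n3 + 2) 0 1 1 0 := S.m3 0 (n3 + 1) 0 0 1 1
  have z15 : G 0 1 (n3 + 2) 0 1 1 0 = G 0 0 1 (n3 + 2) 1 1 0 := S.r1 0 1 (n3 + 2) 0 0 0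
  have z16 : G 0 0 (n3 + 2) 1 1 1 0 = G 0 (n3 + 2) 1 0 1 1 0 := S.r3 0 0 (n3 + 2) 1 0 0
  have z17 : G (n3 + 1) 0 1 0 1 1 1 = G 0 1 0 (n3 + 1) 1 1 1 := S.r3 (n3 + 1) 0 1 0 0 1
  have z18 : G 0 (n3 + 1) 0 1 1 1 1 = G 0 1 0 (n3 + 1) 1 1 1 := S.r2 0 (n3 + 1) 0 1 0 1
  have z19 : G (n3 + 2) 0 1 0 1 1 0 = G 0 1 0 (n3 + 2) 1 1 0 := S.r3 (n3 + 2) 0 1 0 0 0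
  have z20 : G 0 (n3 + 2) 0 1 1 1 0 = G 0 1 0 (n3 + 2) 1 1 0 := S.r2 0 (n3 + 2) 0 1 0 0
  have z21 : G 1 0 (n3 + 2) 0 1 1 0 = G 0 1 0 (n3 + 2) 1 1 0 := S.r1 1 0 (n3 + 2) 0 0 0
  have z22 : G 0 1 1 0 0 (n3 + 2) 1 = G 0 1 1 0 (n3 + 2) 1 0 := S.m3 0 0 0 0 (n3 + 2) 1
  have z23 : G (n3 + 2) 1 1 0 0 1 0 = G 0 1 1 0 1 0 (n3 + 2) := S.m3 (n3 + 2) 0 0 0 1 0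
  have z24 : G 0 1 1 (n3 + 2) 1 0 0 = G 0 1 1 (n3 + 2) 0 0 1 := S.m2 0 0 (n3 + 2) 1 0 0
  have z25 : G 0 1 1 (n3 + 2) 0 1 0 = G 0 1 1 (n3 + 2) 0 0 1 := S.m1 0 0 (n3 + 2) 0 1 0
  have z26 : G 1 0 1 (n3 + 1) 1 1 0 = G 0 1 (n3 + 1) 1 1 1 0 := S.r3 1 0 1 (n3 + 1) 0 0
  have z27 : G (n3 + 1) 1 0 1 1 1 0 = G 0 1 (n3 + 1) 1 1 1 0 := S.r2 (n3 + 1) 1 0 1 0 0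
  have z28 : G 1 1 (n3 + 2) 0 0 1 0 = G 0 1 (n3 + 2) 0 1 0 1 := S.m1 1 (n3 + 1) 0 0 1 0
  have z29 : G 0 (n3 + 1) 1 1 1 1 0 = G (n3 + 1) 1 1 0 1 1 0 := S.r3 0 (n3 + 1) 1 1 0 0
  have z30 : G 0 (n3 + 2) 1 1 0 1 0 = 0 := S.van' 0 n3 0 1 0 1 0
  have z31 : G 1 0 1 0 (n3 + 2) 1 0 = 0 := S.van 1 0 1 0 n3 0 0
  have z32 : G 1 (n3 + 2) 1 0 0 1 0 = 0 := S.van' 1 n3 0 0 0 1 0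
  have z33 : G n3 0 1 1 1 1 1 = G 0 1 1 n3 1 1 1 := S.r3 n3 0 1 1 0 1
  have z34 : G 0 1 1 n3 1 1 1 = G 1 1 1 n3 1 1 0 := S.m3 0 0 n3 1 1 1
  have z35 : G 1 1 1 n3 1 1 0 = G n3 1 1 1 1 1 0 := S.r1 1 1 1 n3 0 0
  have z36 : D 1 (n3 + 2) 0 0 1 1 = D 1 0 0 1 1 (n3 + 2) := S.d1 1 (n3 + 2) 0 0 1 1
  have z37 : D 1 (n3 + 2) 1 1 0 0 = D 1 0 0 (n3 + 2) 1 1 := S.d3 1 (n3 + 2) 1 1 0 0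
  have z38 : D 1 1 0 (n3 + 2) 1 0 = D 1 0 1 0 (n3 + 2) 1 := S.d4 1 1 0 (n3 + 2) 1 0
  have z39 : D 1 (n3 + 2) 1 0 1 0 = D 1 0 1 0 (n3 + 2) 1 := S.d2 1 (n3 + 2) 1 0 1 0
  have z40 : D 1 (n3 + 2) 0 1 1 0 = D 1 0 1 1 0 (n3 + 2) := S.d1 1 (n3 + 2) 0 1 1 0
  have z41 : D 1 (n3 + 2) 1 0 0 1 = D 1 0 1 (n3 + 2) 1 0 := S.d3 1 (n3 + 2) 1 0 0 1
  have z42 : D 1 (n3 + 2) 0 1 0 1 = D 1 1 0 1 (n3 + 2) 0 := S.d2 1 (n3 + 2) 0 1 0 1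
  have z43 : D 1 1 1 1 (n3 + 1) 0 = 0 := S_p4 S.mirror 0 0 0 0 n3
  have z44 : D 1 (n3 + 1) 1 1 1 0 = 0 := S_p4 S.mirror 0 n3 0 0 0
  have z45 : D (n3 + 1) 1 0 1 1 1 = 0 := (S.d2 (n3 + 1) 1 0 1 1 1).trans (S_p4 S.mirror n3 0 0 0 0)
  have z46 : D (n3 + 2) 0 1 1 0 1 = D (n3 + 2) 0 1 0 1 1 := S.d3 (n3 + 2) 0 1 1 0 1
  have z47 : D (n3 + 2) 1 0 1 0 1 = D (n3 + 2) 0 1 0 1 1 := S.d1 (n3 + 2) 1 0 1 0 1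
  have z48 : D (n3 + 2) 1 1 0 1 0 = D (n3 + 2) 0 1 0 1 1 := S.d2 (n3 + 2) 1 1 0 1 0
  have z49 : C 1 0 1 1 (n3 + 2) 0 = C 1 0 0 1 1 (n3 + 2) := S.c4 1 0 1 1 (n3 + 2) 0
  have z50 : C 1 1 1 (n3 + 2) 0 0 = C 1 0 0 1 1 (n3 + 2) := S.c3 1 1 1 (n3 + 2) 0 0
  have z51 : C 1 0 1 (n3 + 2) 1 0 = C 1 0 0 1 (n3 + 2) 1 := S.c4 1 0 1 (n3 + 2) 1 0
  have z52 : C 1 0 (n3 + 2) 1 1 0 = C 1 0 0 (n3 + 2) 1 1 := S.c4 1 0 (n3 + 2) 1 1 0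
  have z53 : C 1 0 1 (n3 + 2) 0 1 = C 1 0 1 0 1 (n3 + 2) := S.c3 1 0 1 (n3 + 2) 0 1
  have z54 : C 1 1 (n3 + 2) 0 1 0 = C 1 0 1 0 1 (n3 + 2) := S.c2 1 1 (n3 + 2) 0 1 0
  have z55 : C 1 (n3 + 2) 0 1 0 1 = C 1 0 1 0 1 (n3 + 2) := S.c1 1 (n3 + 2) 0 1 0 1
  have z56 : C 1 0 (n3 + 2) 1 0 1 = C 1 0 1 0 (n3 + 2) 1 := S.c3 1 0 (n3 + 2) 1 0 1
  have z57 : C 1 (n3 + 2) 1 0 1 0 = C 1 0 1 0 (n3 + 2) 1 := S.c2 1 (n3 + 2) 1 0 1 0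
  have z58 : C 1 0 (n3 + 2) 0 1 1 = C 1 0 1 1 0 (n3 + 2) := S.c2 1 0 (n3 + 2) 0 1 1
  have z59 : C 1 1 0 (n3 + 2) 0 1 = C 1 0 1 1 0 (n3 + 2) := S.c3 1 1 0 (n3 + 2) 0 1
  have z60 : C 1 (n3 + 2) 0 1 1 0 = C 1 0 1 1 0 (n3 + 2) := S.c1 1 (n3 + 2) 0 1 1 0
  have z61 : C 1 0 1 1 1 (n3 + 1) = 0 := (S.c1 1 0 1 1 1 (n3 + 1)).trans (S_p4 S 0 0 0 0 n3)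
  have z62 : C 1 1 1 1 (n3 + 1) 0 = 0 := S_p4 S 0 0 0 0 n3
  have z63 : C 1 1 1 (n3 + 1) 0 1 = 0 := (S.c4 1 1 1 (n3 + 1) 0 1).trans (S_p4 S 0 0 0 0 n3)
  have z64 : C 1 1 (n3 + 1) 0 1 1 = 0 := (S.c3 1 1 (n3 + 1) 0 1 1).trans (S_p4 S 0 0 0 0 n3)
  have z65 : C 1 0 1 1 (n3 + 1) 1 = 0 := (S.c1 1 0 1 1 (n3 + 1) 1).trans (S_p4 S 0 0 0 n3 0)
  have z66 : C 1 1 0 1 1 (n3 + 1) = 0 := (S.c2 1 1 0 1 1 (n3 + 1)).trans (S_p4 S 0 0 0 n3 0)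
  have z67 : C 1 0 1 (n3 + 1) 1 1 = 0 := (S.c1 1 0 1 (n3 + 1) 1 1).trans (S_p4 S 0 0 n3 0 0)
  have z68 : C 1 0 (n3 + 1) 1 1 1 = 0 := (S.c1 1 0 (n3 + 1) 1 1 1).trans (S_p4 S 0 n3 0 0 0)
  have z69 : C 1 1 1 0 (n3 + 1) 1 = 0 := (S.c3 1 1 1 0 (n3 + 1) 1).trans (S_p4 S 0 n3 0 0 0)
  have z70 : C 1 1 1 1 0 (n3 + 1) = 0 := (S.c4 1 1 1 1 0 (n3 + 1)).trans (S_p4 S 0 n3 0 0 0)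
  have z71 : C (n3 + 2) 1 0 1 1 0 = C (n3 + 2) 1 0 1 0 1 := S.c3 (n3 + 2) 1 0 1 1 0
  have z72 : C (n3 + 2) 1 1 0 1 0 = C (n3 + 2) 1 0 1 0 1 := S.c1 (n3 + 2) 1 1 0 1 0
  linear_combination (((((-1 / 2 : ℚ) * r0 + (-1 / 2 : ℚ) * r1 + (-1 / 2 : ℚ) * r2 + (-1 / 2 : ℚ) * r3 + (-1 / 2 : ℚ) * r4 + (1 / 2 : ℚ) * r5 + (1 : ℚ) * r6 + (-3 / 4 : ℚ) * r7)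
    + ((1 / 2 : ℚ) * r8 + (1 / 2 : ℚ) * r9 + (-1 / 2 : ℚ) * r10 + (1 / 2 : ℚ) * r11 + (1 / 2 : ℚ) * r12 + (-1 / 2 : ℚ) * r13 + (1 / 2 : ℚ) * r14 + (3 / 4 : ℚ) * r15))
    + (((-1 / 2 : ℚ) * r16 + (-1 / 2 : ℚ) * r17 + (1 / 2 : ℚ) * r18 + (1 / 2 : ℚ) * r19 + (3 / 4 : ℚ) * r20 + (1 / 4 : ℚ) * r21 + (1 / 4 : ℚ) * r22 + (1 / 4 : ℚ) * r23)
    + ((1 / 4 : ℚ) * r24 + (1 / 4 : ℚ) * r25 + (1 / 4 : ℚ) * r26 + (1 / 4 : ℚ) * r27 + (1 / 4 : ℚ) * r28 + (1 / 4 : ℚ) * r29 + (3 / 4 : ℚ) * r30)))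
    + ((((-1 / 4 : ℚ) * r31 + (1 / 4 : ℚ) * r32 + (3 / 4 : ℚ) * r33 + (1 / 4 : ℚ) * r34 + (-1 / 4 : ℚ) * r35 + (-1 / 4 : ℚ) * r36 + (-1 / 2 : ℚ) * r37 + (3 / 4 : ℚ) * r38)
    + ((3 / 4 : ℚ) * r39 + (-2 : ℚ) * r40 + (-1 / 4 : ℚ) * r41 + (-1 / 4 : ℚ) * r42 + (-1 / 2 : ℚ) * r43 + (-1 / 2 : ℚ) * r44 + (-1 / 2 : ℚ) * r45 + (-1 / 2 : ℚ) * r46))
    + (((1 / 2 : ℚ) * r47 + (-1 : ℚ) * r48 + (1 / 2 : ℚ) * r49 + (1 / 2 : ℚ) * z0 + (-3 / 4 : ℚ) * z1 + (3 / 4 : ℚ) * z2 + (3 / 4 : ℚ) * z3 + (3 / 4 : ℚ) * z4)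
    + ((1 / 2 : ℚ) * z5 + (1 / 2 : ℚ) * z6 + (-1 : ℚ) * z7 + (-7 / 4 : ℚ) * z8 + (-1 : ℚ) * z9 + (3 / 4 : ℚ) * z10 + (7 / 4 : ℚ) * z11))))
    + (((((-1 / 4 : ℚ) * z12 + (-1 / 2 : ℚ) * z13 + (-1 / 2 : ℚ) * z14 + (-1 / 4 : ℚ) * z15 + (1 / 4 : ℚ) * z16 + (-1 / 2 : ℚ) * z17 + (-1 / 4 : ℚ) * z18 + (-1 / 2 : ℚ) * z19)
    + ((3 / 4 : ℚ) * z20 + (-1 / 2 : ℚ) * z21 + (1 / 2 : ℚ) * z22 + (1 / 2 : ℚ) * z23 + (1 / 2 : ℚ) * z24 + (-1 : ℚ) * z25 + (-1 / 2 : ℚ) * z26 + (1 / 4 : ℚ) * z27))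
    + (((1 / 2 : ℚ) * z28 + (1 / 4 : ℚ) * z29 + (-1 / 2 : ℚ) * z30 + (1 / 2 : ℚ) * z31 + (1 / 2 : ℚ) * z32 + (-1 / 4 : ℚ) * z33 + (-1 / 4 : ℚ) * z34 + (-1 / 4 : ℚ) * z35)
    + ((-1 / 2 : ℚ) * z36 + (-1 / 2 : ℚ) * z37 + (-1 : ℚ) * z38 + (1 / 2 : ℚ) * z39 + (-1 / 2 : ℚ) * z40 + (-1 / 2 : ℚ) * z41 + (1 / 2 : ℚ) * z42)))
    + ((((3 / 4 : ℚ) * z43 + (-1 / 2 : ℚ) * z44 + (-3 / 4 : ℚ) * z45 + (1 / 2 : ℚ) * z46 + (-1 / 2 : ℚ) * z47 + (-1 / 2 : ℚ) * z48 + (-1 / 4 : ℚ) * z49 + (1 : ℚ) * z50)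
    + ((1 / 4 : ℚ) * z51 + (1 / 4 : ℚ) * z52 + (-3 / 4 : ℚ) * z53 + (1 / 2 : ℚ) * z54 + (1 / 2 : ℚ) * z55 + (-1 / 4 : ℚ) * z56 + (1 / 2 : ℚ) * z57))
    + (((-3 / 4 : ℚ) * z58 + (1 / 2 : ℚ) * z59 + (1 / 2 : ℚ) * z60 + (-1 / 4 : ℚ) * z61 + (2 : ℚ) * z62 + (1 / 4 : ℚ) * z63 + (1 / 4 : ℚ) * z64 + (-1 / 4 : ℚ) * z65)
    + ((1 / 4 : ℚ) * z66 + (-1 / 4 : ℚ) * z67 + (-1 / 4 : ℚ) * z68 + (-3 / 4 : ℚ) * z69 + (-3 / 4 : ℚ) * z70 + (1 : ℚ) * z71 + (-1 / 2 : ℚ) * z72))))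

theorem L_e1_e1_g2_e1_e0_e0 (S : Sys6 G C D) (n2 : ℕ) : C 1 1 (n2 + 2) 1 0 0 = 0 := by
  have r0 : D (n2 + 2) 0 0 0 0 3 = G 3 0 (n2 + 2) 0 0 0 0 - G 0 0 (n2 + 2) 0 0 0 3 := S.al0' (n2 + 1) 0 0 0 3
  have r1 : D (n2 + 2) 0 0 0 1 2 = G 2 0 (n2 + 2) 0 0 0 1 - G 0 0 (n2 + 2) 0 0 1 2 := S.al0' (n2 + 1) 0 0 1 2
  have r2 : D (n2 + 2) 0 0 0 2 1 = G 1 0 (n2 + 2) 0 0 0 2 - G 0 0 (n2 + 2) 0 0 2 1 := S.al0' (n2 + 1) 0 0 2 1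
  have r3 : D (n2 + 2) 0 0 0 3 0 = G 0 0 (n2 + 2) 0 0 0 3 - G 0 0 (n2 + 2) 0 0 3 0 := S.al0' (n2 + 1) 0 0 3 0
  have r4 : D (n2 + 2) 0 0 1 0 2 = G 2 0 (n2 + 2) 0 0 1 0 - G 0 0 (n2 + 2) 0 1 0 2 := S.al0' (n2 + 1) 0 1 0 2
  have r5 : D (n2 + 2) 0 0 1 1 1 = G 1 0 (n2 + 2) 0 0 1 1 - G 0 0 (n2 + 2) 0 1 1 1 := S.al0' (n2 + 1) 0 1 1 1
  have r6 : D (n2 + 2) 0 0 1 2 0 = G 0 0 (n2 + 2) 0 0 1 2 - G 0 0 (n2 + 2) 0 1 2 0 := S.al0' (n2 + 1) 0 1 2 0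
  have r7 : D (n2 + 2) 0 0 2 0 1 = G 1 0 (n2 + 2) 0 0 2 0 - G 0 0 (n2 + 2) 0 2 0 1 := S.al0' (n2 + 1) 0 2 0 1
  have r8 : D (n2 + 2) 0 0 2 1 0 = G 0 0 (n2 + 2) 0 0 2 1 - G 0 0 (n2 + 2) 0 2 1 0 := S.al0' (n2 + 1) 0 2 1 0
  have r9 : D (n2 + 2) 0 0 3 0 0 = G 0 0 (n2 + 2) 0 0 3 0 - G 0 0 (n2 + 2) 0 3 0 0 := S.al0' (n2 + 1) 0 3 0 0
  have r10 : D (n2 + 2) 0 1 0 0 2 = G 2 0 (n2 + 2) 0 1 0 0 - G 1 0 (n2 + 2) 0 0 0 2 + G 0 1 (n2 + 2) 0 0 0 2 := S.al1' 0 (n2 + 1) 0 0 0 2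
  have r11 : D (n2 + 2) 0 1 0 1 1 = G 1 0 (n2 + 2) 0 1 0 1 - G 1 0 (n2 + 2) 0 0 1 1 + G 0 1 (n2 + 2) 0 0 1 1 := S.al1' 0 (n2 + 1) 0 0 1 1
  have r12 : D (n2 + 2) 0 1 0 2 0 = G 0 0 (n2 + 2) 0 1 0 2 - G 1 0 (n2 + 2) 0 0 2 0 + G 0 1 (n2 + 2) 0 0 2 0 := S.al1' 0 (n2 + 1) 0 0 2 0
  have r13 : D (n2 + 2) 0 1 1 0 1 = G 1 0 (n2 + 2) 0 1 1 0 - G 1 0 (n2 + 2) 0 1 0 1 + G 0 1 (n2 + 2) 0 1 0 1 := S.al1' 0 (n2 + 1) 0 1 0 1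
  have r14 : D (n2 + 2) 0 1 1 1 0 = G 0 0 (n2 + 2) 0 1 1 1 - G 1 0 (n2 + 2) 0 1 1 0 + G 0 1 (n2 + 2) 0 1 1 0 := S.al1' 0 (n2 + 1) 0 1 1 0
  have r15 : D (n2 + 2) 0 1 2 0 0 = G 0 0 (n2 + 2) 0 1 2 0 - G 1 0 (n2 + 2) 0 2 0 0 + G 0 1 (n2 + 2) 0 2 0 0 := S.al1' 0 (n2 + 1) 0 2 0 0
  have r16 : D (n2 + 2) 0 2 0 0 1 = G 1 0 (n2 + 2) 0 2 0 0 - G 2 0 (n2 + 2) 0 0 0 1 + G 1 1 (n2 + 2) 0 0 0 1 := S.al1' 1 (n2 + 1) 0 0 0 1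
  have r17 : D (n2 + 2) 0 2 0 1 0 = G 0 0 (n2 + 2) 0 2 0 1 - G 2 0 (n2 + 2) 0 0 1 0 + G 1 1 (n2 + 2) 0 0 1 0 := S.al1' 1 (n2 + 1) 0 0 1 0
  have r18 : D (n2 + 2) 0 2 1 0 0 = G 0 0 (n2 + 2) 0 2 1 0 - G 2 0 (n2 + 2) 0 1 0 0 + G 1 1 (n2 + 2) 0 1 0 0 := S.al1' 1 (n2 + 1) 0 1 0 0
  have r19 : D (n2 + 2) 0 3 0 0 0 = G 0 0 (n2 + 2) 0 3 0 0 - G 3 0 (n2 + 2) 0 0 0 0 + G 2 1 (n2 + 2) 0 0 0 0 := S.al1' 2 (n2 + 1) 0 0 0 0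
  have r20 : D (n2 + 2) 1 0 0 0 2 = G 2 0 (n2 + 2) 1 0 0 0 - G 0 0 (n2 + 2) 1 0 0 2 := S.al0' (n2 + 1) 1 0 0 2
  have r21 : D (n2 + 2) 1 0 0 1 1 = G 1 0 (n2 + 2) 1 0 0 1 - G 0 0 (n2 + 2) 1 0 1 1 := S.al0' (n2 + 1) 1 0 1 1
  have r22 : D (n2 + 2) 1 0 0 2 0 = G 0 0 (n2 + 2) 1 0 0 2 - G 0 0 (n2 + 2) 1 0 2 0 := S.al0' (n2 + 1) 1 0 2 0
  have r23 : D (n2 + 2) 1 0 1 0 1 = G 1 0 (n2 + 2) 1 0 1 0 - G 0 0 (n2 + 2) 1 1 0 1 := S.al0' (n2 + 1) 1 1 0 1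
  have r24 : D (n2 + 2) 1 0 1 1 0 = G 0 0 (n2 + 2) 1 0 1 1 - G 0 0 (n2 + 2) 1 1 1 0 := S.al0' (n2 + 1) 1 1 1 0
  have r25 : D (n2 + 2) 1 0 2 0 0 = G 0 0 (n2 + 2) 1 0 2 0 - G 0 0 (n2 + 2) 1 2 0 0 := S.al0' (n2 + 1) 1 2 0 0
  have r26 : D (n2 + 2) 1 1 0 0 1 = G 1 0 (n2 + 2) 1 1 0 0 - G 1 0 (n2 + 2) 1 0 0 1 + G 0 1 (n2 + 2) 1 0 0 1 := S.al1' 0 (n2 + 1) 1 0 0 1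
  have r27 : D (n2 + 2) 1 1 0 1 0 = G 0 0 (n2 + 2) 1 1 0 1 - G 1 0 (n2 + 2) 1 0 1 0 + G 0 1 (n2 + 2) 1 0 1 0 := S.al1' 0 (n2 + 1) 1 0 1 0
  have r28 : D (n2 + 2) 1 1 1 0 0 = G 0 0 (n2 + 2) 1 1 1 0 - G 1 0 (n2 + 2) 1 1 0 0 + G 0 1 (n2 + 2) 1 1 0 0 := S.al1' 0 (n2 + 1) 1 1 0 0
  have r29 : D (n2 + 2) 1 2 0 0 0 = G 0 0 (n2 + 2) 1 2 0 0 - G 2 0 (n2 + 2) 1 0 0 0 + G 1 1 (n2 + 2) 1 0 0 0 := S.al1' 1 (n2 + 1) 1 0 0 0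
  have r30 : D (n2 + 2) 3 0 0 0 0 = G 0 0 (n2 + 2) 3 0 0 0 - G 0 0 (n2 + 2) 3 0 0 0 := S.al0' (n2 + 1) 3 0 0 0
  have r31 : C 1 0 1 (n2 + 2) 1 0 = G 0 1 (n2 + 2) 1 0 1 0 - G 1 (n2 + 2) 1 0 0 1 0 + G 0 (n2 + 2) 1 0 1 1 0 := S.al1 0 (n2 + 2) 1 0 0 0
  have z0 : G 2 1 (n2 + 2) 0 0 0 0 = G 0 1 (n2 + 2) 0 0 0 2 := S.m3 2 (n2 + 1) 0 0 0 0
  have z1 : G 0 1 (n2 + 2) 0 2 0 0 = G 0 1 (n2 + 2) 0 0 0 2 := S.m2 0 (n2 + 1) 0 2 0 0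
  have z2 : G 0 1 (n2 + 2) 0 0 2 0 = G 0 1 (n2 + 2) 0 0 0 2 := S.m1 0 (n2 + 1) 0 0 2 0
  have z3 : G 0 1 (n2 + 2) 0 0 1 1 = G 0 1 (n2 + 2) 0 1 1 0 := S.m3 0 (n2 + 1) 0 0 1 1
  have z4 : G 1 1 (n2 + 2) 0 0 0 1 = G 0 1 (n2 + 2) 0 1 1 0 := S.m2 1 (n2 + 1) 0 0 0 1
  have z5 : G 1 1 (n2 + 2) 0 1 0 0 = G 0 1 (n2 + 2) 0 1 1 0 := S.m1 1 (n2 + 1) 0 1 0 0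
  have z6 : G 1 1 (n2 + 2) 0 0 1 0 = G 0 1 (n2 + 2) 0 1 0 1 := S.m1 1 (n2 + 1) 0 0 1 0
  have z7 : G 1 1 (n2 + 2) 1 0 0 0 = G 0 1 (n2 + 2) 1 0 0 1 := S.m3 1 (n2 + 1) 1 0 0 0
  have z8 : G 0 1 (n2 + 2) 1 1 0 0 = G 0 1 (n2 + 2) 1 0 0 1 := S.m2 0 (n2 + 1) 1 1 0 0
  have z9 : G 0 1 (n2 + 2) 1 0 1 0 = G 0 1 (n2 + 2) 1 0 0 1 := S.m1 0 (n2 + 1) 1 0 1 0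
  have z10 : G 0 (n2 + 2) 1 0 1 1 0 = 0 := S.van' 0 n2 0 0 1 1 0
  have z11 : G 1 (n2 + 2) 1 0 0 1 0 = 0 := S.van' 1 n2 0 0 0 1 0
  have z12 : D (n2 + 2) 0 0 0 3 0 = D (n2 + 2) 0 0 0 0 3 := S.d4 (n2 + 2) 0 0 0 3 0
  have z13 : D (n2 + 2) 0 0 3 0 0 = D (n2 + 2) 0 0 0 0 3 := S.d3 (n2 + 2) 0 0 3 0 0
  have z14 : D (n2 + 2) 0 3 0 0 0 = D (n2 + 2) 0 0 0 0 3 := S.d2 (n2 + 2) 0 3 0 0 0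
  have z15 : D (n2 + 2) 3 0 0 0 0 = D (n2 + 2) 0 0 0 0 3 := S.d1 (n2 + 2) 3 0 0 0 0
  have z16 : D (n2 + 2) 0 0 1 2 0 = D (n2 + 2) 0 0 0 1 2 := S.d4 (n2 + 2) 0 0 1 2 0
  have z17 : D (n2 + 2) 0 1 2 0 0 = D (n2 + 2) 0 0 0 1 2 := S.d3 (n2 + 2) 0 1 2 0 0
  have z18 : D (n2 + 2) 1 2 0 0 0 = D (n2 + 2) 0 0 0 1 2 := S.d2 (n2 + 2) 1 2 0 0 0
  have z19 : D (n2 + 2) 0 0 2 1 0 = D (n2 + 2) 0 0 0 2 1 := S.d4 (n2 + 2) 0 0 2 1 0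
  have z20 : D (n2 + 2) 0 2 1 0 0 = D (n2 + 2) 0 0 0 2 1 := S.d3 (n2 + 2) 0 2 1 0 0
  have z21 : D (n2 + 2) 1 0 0 0 2 = D (n2 + 2) 0 0 0 2 1 := S.d1 (n2 + 2) 1 0 0 0 2
  have z22 : D (n2 + 2) 0 1 0 2 0 = D (n2 + 2) 0 0 1 0 2 := S.d4 (n2 + 2) 0 1 0 2 0
  have z23 : D (n2 + 2) 0 2 0 0 1 = D (n2 + 2) 0 0 1 0 2 := S.d2 (n2 + 2) 0 2 0 0 1
  have z24 : D (n2 + 2) 1 0 2 0 0 = D (n2 + 2) 0 0 1 0 2 := S.d3 (n2 + 2) 1 0 2 0 0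
  have z25 : D (n2 + 2) 0 1 1 1 0 = D (n2 + 2) 0 0 1 1 1 := S.d4 (n2 + 2) 0 1 1 1 0
  have z26 : D (n2 + 2) 1 0 0 1 1 = D (n2 + 2) 0 0 1 1 1 := S.d1 (n2 + 2) 1 0 0 1 1
  have z27 : D (n2 + 2) 1 1 0 0 1 = D (n2 + 2) 0 0 1 1 1 := S.d2 (n2 + 2) 1 1 0 0 1
  have z28 : D (n2 + 2) 1 1 1 0 0 = D (n2 + 2) 0 0 1 1 1 := S.d3 (n2 + 2) 1 1 1 0 0
  have z29 : D (n2 + 2) 0 1 0 0 2 = D (n2 + 2) 0 0 2 0 1 := S.d2 (n2 + 2) 0 1 0 0 2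
  have z30 : D (n2 + 2) 0 2 0 1 0 = D (n2 + 2) 0 0 2 0 1 := S.d4 (n2 + 2) 0 2 0 1 0
  have z31 : D (n2 + 2) 1 0 0 2 0 = D (n2 + 2) 0 0 2 0 1 := S.d1 (n2 + 2) 1 0 0 2 0
  have z32 : D (n2 + 2) 0 1 1 0 1 = D (n2 + 2) 0 1 0 1 1 := S.d3 (n2 + 2) 0 1 1 0 1
  have z33 : D (n2 + 2) 1 0 1 0 1 = D (n2 + 2) 0 1 0 1 1 := S.d1 (n2 + 2) 1 0 1 0 1
  have z34 : D (n2 + 2) 1 0 1 1 0 = D (n2 + 2) 0 1 0 1 1 := S.d4 (n2 + 2) 1 0 1 1 0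
  have z35 : D (n2 + 2) 1 1 0 1 0 = D (n2 + 2) 0 1 0 1 1 := S.d2 (n2 + 2) 1 1 0 1 0
  have z36 : C 1 1 (n2 + 2) 1 0 0 = C 1 0 1 (n2 + 2) 1 0 := S.c4 1 1 (n2 + 2) 1 0 0
  linear_combination (((((-3 : ℚ) * r0 + (1 : ℚ) * r1 + (1 : ℚ) * r2 + (-3 : ℚ) * r3 + (1 : ℚ) * r4)
    + ((-1 : ℚ) * r5 + (1 : ℚ) * r6 + (1 : ℚ) * r7 + (1 : ℚ) * r8))
    + (((-3 : ℚ) * r9 + (1 : ℚ) * r10 + (-1 : ℚ) * r11 + (1 : ℚ) * r12 + (-1 : ℚ) * r13)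
    + ((-1 : ℚ) * r14 + (1 : ℚ) * r15 + (1 : ℚ) * r16 + (1 : ℚ) * r17)))
    + ((((1 : ℚ) * r18 + (-3 : ℚ) * r19 + (-3 : ℚ) * r20 + (2 / 3 : ℚ) * r21 + (-3 : ℚ) * r22)
    + ((2 / 3 : ℚ) * r23 + (2 / 3 : ℚ) * r24 + (-3 : ℚ) * r25 + (2 / 3 : ℚ) * r26))
    + ((2 / 3 : ℚ) * r27 + (2 / 3 : ℚ) * r28 + (-3 : ℚ) * r29 + (12 : ℚ) * r30 + (1 : ℚ) * r31 + (-3 : ℚ) * z0 + (1 : ℚ) * z1 + (1 : ℚ) * z2)))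
    + (((((-1 : ℚ) * z3 + (1 : ℚ) * z4 + (1 : ℚ) * z5 + (1 : ℚ) * z6 + (-3 : ℚ) * z7)
    + ((2 / 3 : ℚ) * z8 + (5 / 3 : ℚ) * z9 + (1 : ℚ) * z10 + (-1 : ℚ) * z11))
    + ((3 : ℚ) * z12 + (3 : ℚ) * z13 + (3 : ℚ) * z14 + (-12 : ℚ) * z15 + (-1 : ℚ) * z16 + (-1 : ℚ) * z17 + (3 : ℚ) * z18 + (-1 : ℚ) * z19))
    + ((((-1 : ℚ) * z20 + (3 : ℚ) * z21 + (-1 : ℚ) * z22 + (-1 : ℚ) * z23 + (3 : ℚ) * z24)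
    + ((1 : ℚ) * z25 + (-2 / 3 : ℚ) * z26 + (-2 / 3 : ℚ) * z27 + (-2 / 3 : ℚ) * z28))
    + ((-1 : ℚ) * z29 + (-1 : ℚ) * z30 + (3 : ℚ) * z31 + (1 : ℚ) * z32 + (-2 / 3 : ℚ) * z33 + (-2 / 3 : ℚ) * z34 + (-2 / 3 : ℚ) * z35 + (1 : ℚ) * z36)))

theorem L_e1_e1_g2_g2_e0_e0 (S : Sys6 G C D) (n2 n3 : ℕ) : C 1 1 (n2 + 2) (n3 + 2) 0 0 = 0 := by
  have r0 : D 1 1 1 1 (n2 + 1) (n3 + 1) = G (n3 + 1) 0 1 1 1 1 (n2 + 1) - G 1 0 1 1 1 (n2 + 1) (n3 + 1) + G 0 1 1 1 1 (n2 + 1) (n3 + 1) := S.al1' 0 0 1 1 (n2 + 1) (n3 + 1)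
  have r1 : D 1 (n2 + 1) (n3 + 2) 1 1 0 = G 0 0 1 (n2 + 1) (n3 + 2) 1 1 - G (n3 + 2) 0 1 (n2 + 1) 1 1 0 + G (n3 + 1) 1 1 (n2 + 1) 1 1 0 := S.al1' (n3 + 1) 0 (n2 + 1) 1 1 0
  have r2 : D 1 (n3 + 1) 1 1 1 (n2 + 1) = G (n2 + 1) 0 1 (n3 + 1) 1 1 1 - G 1 0 1 (n3 + 1) 1 1 (n2 + 1) + G 0 1 1 (n3 + 1) 1 1 (n2 + 1) := S.al1' 0 0 (n3 + 1) 1 1 (n2 + 1)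
  have r3 : D 1 (n3 + 1) (n2 + 2) 1 1 0 = G 0 0 1 (n3 + 1) (n2 + 2) 1 1 - G (n2 + 2) 0 1 (n3 + 1) 1 1 0 + G (n2 + 1) 1 1 (n3 + 1) 1 1 0 := S.al1' (n2 + 1) 0 (n3 + 1) 1 1 0
  have r4 : D (n2 + 1) 0 (n3 + 2) 1 1 1 = G 1 0 (n2 + 1) 0 (n3 + 2) 1 1 - G (n3 + 2) 0 (n2 + 1) 0 1 1 1 + G (n3 + 1) 1 (n2 + 1) 0 1 1 1 := S.al1' (n3 + 1) n2 0 1 1 1
  have r5 : D (n2 + 1) (n3 + 1) 1 1 1 1 = G 1 0 (n2 + 1) (n3 + 1) 1 1 1 - G 1 0 (n2 + 1) (n3 + 1) 1 1 1 + G 0 1 (n2 + 1) (n3 + 1) 1 1 1 := S.al1' 0 n2 (n3 + 1) 1 1 1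
  have r6 : D (n2 + 1) (n3 + 2) 1 1 1 0 = G 0 0 (n2 + 1) (n3 + 2) 1 1 1 - G 1 0 (n2 + 1) (n3 + 2) 1 1 0 + G 0 1 (n2 + 1) (n3 + 2) 1 1 0 := S.al1' 0 n2 (n3 + 2) 1 1 0
  have r7 : D (n3 + 1) 0 1 1 1 (n2 + 2) = G (n2 + 2) 0 (n3 + 1) 0 1 1 1 - G 1 0 (n3 + 1) 0 1 1 (n2 + 2) + G 0 1 (n3 + 1) 0 1 1 (n2 + 2) := S.al1' 0 n3 0 1 1 (n2 + 2)
  have r8 : D (n3 + 1) 0 (n2 + 2) 1 1 1 = G 1 0 (n3 + 1) 0 (n2 + 2) 1 1 - G (n2 + 2) 0 (n3 + 1) 0 1 1 1 + G (n2 + 1) 1 (n3 + 1) 0 1 1 1 := S.al1' (n2 + 1) n3 0 1 1 1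
  have r9 : C 1 0 0 1 (n2 + 2) (n3 + 2) = G (n3 + 2) 0 1 (n2 + 2) 0 1 0 - G 0 1 (n2 + 2) (n3 + 2) 0 1 0 := S.al0 1 (n2 + 2) (n3 + 2) 0 0
  have r10 : C 1 0 0 1 (n3 + 2) (n2 + 2) = G (n2 + 2) 0 1 (n3 + 2) 0 1 0 - G 0 1 (n3 + 2) (n2 + 2) 0 1 0 := S.al0 1 (n3 + 2) (n2 + 2) 0 0
  have r11 : C 1 0 0 (n2 + 2) (n3 + 2) 1 = G 1 0 (n2 + 2) (n3 + 2) 0 1 0 - G 0 (n2 + 2) (n3 + 2) 1 0 1 0 := S.al0 (n2 + 2) (n3 + 2) 1 0 0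
  have r12 : C 1 0 0 (n3 + 2) (n2 + 2) 1 = G 1 0 (n3 + 2) (n2 + 2) 0 1 0 - G 0 (n3 + 2) (n2 + 2) 1 0 1 0 := S.al0 (n3 + 2) (n2 + 2) 1 0 0
  have r13 : C 1 0 1 0 (n2 + 2) (n3 + 2) = G (n3 + 2) 1 0 (n2 + 2) 0 1 0 - G 1 0 (n2 + 2) (n3 + 2) 0 1 0 + G 0 0 (n2 + 2) (n3 + 2) 1 1 0 := S.al1 0 0 (n2 + 2) (n3 + 2) 0 0
  have r14 : C 1 0 1 0 (n3 + 2) (n2 + 2) = G (n2 + 2) 1 0 (n3 + 2) 0 1 0 - G 1 0 (n3 + 2) (n2 + 2) 0 1 0 + G 0 0 (n3 + 2) (n2 + 2) 1 1 0 := S.al1 0 0 (n3 + 2) (n2 + 2) 0 0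
  have r15 : C 1 0 1 (n2 + 2) (n3 + 2) 0 = G 0 1 (n2 + 2) (n3 + 2) 0 1 0 - G 1 (n2 + 2) (n3 + 2) 0 0 1 0 + G 0 (n2 + 2) (n3 + 2) 0 1 1 0 := S.al1 0 (n2 + 2) (n3 + 2) 0 0 0
  have r16 : C 1 0 1 (n3 + 2) (n2 + 2) 0 = G 0 1 (n3 + 2) (n2 + 2) 0 1 0 - G 1 (n3 + 2) (n2 + 2) 0 0 1 0 + G 0 (n3 + 2) (n2 + 2) 0 1 1 0 := S.al1 0 (n3 + 2) (n2 + 2) 0 0 0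
  have r17 : C 1 0 (n2 + 2) 0 1 (n3 + 2) = G (n3 + 2) (n2 + 2) 0 1 0 1 0 - G (n2 + 2) 0 1 (n3 + 2) 0 1 0 + G (n2 + 1) 0 1 (n3 + 2) 1 1 0 := S.al1 (n2 + 1) 0 1 (n3 + 2) 0 0
  have r18 : C 1 0 (n2 + 2) 1 0 (n3 + 2) = G (n3 + 2) (n2 + 2) 1 0 0 1 0 - G (n2 + 2) 1 0 (n3 + 2) 0 1 0 + G (n2 + 1) 1 0 (n3 + 2) 1 1 0 := S.al1 (n2 + 1) 1 0 (n3 + 2) 0 0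
  have r19 : C 1 0 (n2 + 2) (n3 + 2) 0 1 = G 1 (n2 + 2) (n3 + 2) 0 0 1 0 - G (n2 + 2) (n3 + 2) 0 1 0 1 0 + G (n2 + 1) (n3 + 2) 0 1 1 1 0 := S.al1 (n2 + 1) (n3 + 2) 0 1 0 0
  have r20 : C 1 0 (n3 + 2) 0 1 (n2 + 2) = G (n2 + 2) (n3 + 2) 0 1 0 1 0 - G (n3 + 2) 0 1 (n2 + 2) 0 1 0 + G (n3 + 1) 0 1 (n2 + 2) 1 1 0 := S.al1 (n3 + 1) 0 1 (n2 + 2) 0 0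
  have r21 : C 1 0 (n3 + 2) 1 0 (n2 + 2) = G (n2 + 2) (n3 + 2) 1 0 0 1 0 - G (n3 + 2) 1 0 (n2 + 2) 0 1 0 + G (n3 + 1) 1 0 (n2 + 2) 1 1 0 := S.al1 (n3 + 1) 1 0 (n2 + 2) 0 0
  have r22 : C 1 0 (n3 + 2) (n2 + 2) 0 1 = G 1 (n3 + 2) (n2 + 2) 0 0 1 0 - G (n3 + 2) (n2 + 2) 0 1 0 1 0 + G (n3 + 1) (n2 + 2) 0 1 1 1 0 := S.al1 (n3 + 1) (n2 + 2) 0 1 0 0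
  have r23 : C 1 1 0 0 (n2 + 2) (n3 + 2) = G (n3 + 2) 0 0 (n2 + 2) 0 1 1 - G 0 0 (n2 + 2) (n3 + 2) 0 1 1 := S.al0 0 (n2 + 2) (n3 + 2) 0 1
  have r24 : C 1 1 0 (n2 + 2) 0 (n3 + 2) = G (n3 + 2) 0 (n2 + 2) 0 0 1 1 - G 0 (n2 + 2) 0 (n3 + 2) 0 1 1 := S.al0 (n2 + 2) 0 (n3 + 2) 0 1
  have r25 : C 1 1 0 (n2 + 2) (n3 + 2) 0 = G 0 0 (n2 + 2) (n3 + 2) 0 1 1 - G 0 (n2 + 2) (n3 + 2) 0 0 1 1 := S.al0 (n2 + 2) (n3 + 2) 0 0 1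
  have r26 : C 1 1 0 (n3 + 2) 0 (n2 + 2) = G (n2 + 2) 0 (n3 + 2) 0 0 1 1 - G 0 (n3 + 2) 0 (n2 + 2) 0 1 1 := S.al0 (n3 + 2) 0 (n2 + 2) 0 1
  have r27 : C 1 1 1 1 (n2 + 1) (n3 + 1) = G (n3 + 1) 1 1 (n2 + 1) 0 1 1 - G 1 1 (n2 + 1) (n3 + 1) 0 1 1 + G 0 1 (n2 + 1) (n3 + 1) 1 1 1 := S.al1 0 1 (n2 + 1) (n3 + 1) 0 1
  have r28 : C 1 1 (n2 + 2) 0 (n3 + 2) 0 = G 0 (n2 + 2) 0 (n3 + 2) 0 1 1 - G (n2 + 2) 0 (n3 + 2) 0 0 1 1 + G (n2 + 1) 0 (n3 + 2) 0 1 1 1 := S.al1 (n2 + 1) 0 (n3 + 2) 0 0 1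
  have r29 : C 1 1 (n2 + 2) (n3 + 2) 0 0 = G 0 (n2 + 2) (n3 + 2) 0 0 1 1 - G (n2 + 2) (n3 + 2) 0 0 0 1 1 + G (n2 + 1) (n3 + 2) 0 0 1 1 1 := S.al1 (n2 + 1) (n3 + 2) 0 0 0 1
  have r30 : C 1 1 (n3 + 2) 0 0 (n2 + 2) = G (n2 + 2) (n3 + 2) 0 0 0 1 1 - G (n3 + 2) 0 0 (n2 + 2) 0 1 1 + G (n3 + 1) 0 0 (n2 + 2) 1 1 1 := S.al1 (n3 + 1) 0 0 (n2 + 2) 0 1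
  have r31 : C 1 1 (n3 + 2) 0 (n2 + 2) 0 = G 0 (n3 + 2) 0 (n2 + 2) 0 1 1 - G (n3 + 2) 0 (n2 + 2) 0 0 1 1 + G (n3 + 1) 0 (n2 + 2) 0 1 1 1 := S.al1 (n3 + 1) 0 (n2 + 2) 0 0 1
  have r32 : C 1 (n2 + 2) 0 0 1 (n3 + 2) = G (n3 + 2) 0 0 1 0 1 (n2 + 2) - G 0 0 1 (n3 + 2) 0 1 (n2 + 2) := S.al0 0 1 (n3 + 2) 0 (n2 + 2)
  have r33 : C 1 (n2 + 2) 0 1 0 (n3 + 2) = G (n3 + 2) 0 1 0 0 1 (n2 + 2) - G 0 1 0 (n3 + 2) 0 1 (n2 + 2) := S.al0 1 0 (n3 + 2) 0 (n2 + 2)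
  have r34 : C 1 (n2 + 2) 0 1 (n3 + 2) 0 = G 0 0 1 (n3 + 2) 0 1 (n2 + 2) - G 0 1 (n3 + 2) 0 0 1 (n2 + 2) := S.al0 1 (n3 + 2) 0 0 (n2 + 2)
  have r35 : C 1 (n2 + 2) 0 (n3 + 2) 0 1 = G 1 0 (n3 + 2) 0 0 1 (n2 + 2) - G 0 (n3 + 2) 0 1 0 1 (n2 + 2) := S.al0 (n3 + 2) 0 1 0 (n2 + 2)
  have r36 : C 1 (n2 + 2) 1 0 (n3 + 2) 0 = G 0 1 0 (n3 + 2) 0 1 (n2 + 2) - G 1 0 (n3 + 2) 0 0 1 (n2 + 2) + G 0 0 (n3 + 2) 0 1 1 (n2 + 2) := S.al1 0 0 (n3 + 2) 0 0 (n2 + 2)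
  have r37 : C 1 (n2 + 2) 1 (n3 + 2) 0 0 = G 0 1 (n3 + 2) 0 0 1 (n2 + 2) - G 1 (n3 + 2) 0 0 0 1 (n2 + 2) + G 0 (n3 + 2) 0 0 1 1 (n2 + 2) := S.al1 0 (n3 + 2) 0 0 0 (n2 + 2)
  have r38 : C 1 (n2 + 2) (n3 + 2) 0 0 1 = G 1 (n3 + 2) 0 0 0 1 (n2 + 2) - G (n3 + 2) 0 0 1 0 1 (n2 + 2) + G (n3 + 1) 0 0 1 1 1 (n2 + 2) := S.al1 (n3 + 1) 0 0 1 0 (n2 + 2)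
  have r39 : C 1 (n2 + 2) (n3 + 2) 0 1 0 = G 0 (n3 + 2) 0 1 0 1 (n2 + 2) - G (n3 + 2) 0 1 0 0 1 (n2 + 2) + G (n3 + 1) 0 1 0 1 1 (n2 + 2) := S.al1 (n3 + 1) 0 1 0 0 (n2 + 2)
  have z0 : G 0 0 1 (n2 + 1) (n3 + 2) 1 1 = 0 := S.van 0 0 1 (n2 + 1) n3 0 1
  have z1 : G 0 0 1 (n3 + 1) (n2 + 2) 1 1 = 0 := S.van 0 0 1 (n3 + 1) n2 0 1
  have z2 : G (n2 + 1) (n3 + 2) 0 0 1 1 1 = G 0 0 (n2 + 1) (n3 + 2) 1 1 1 := S.r2 (n2 + 1) (n3 + 2) 0 0 0 1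
  have z3 : G 0 0 (n2 + 2) (n3 + 2) 1 1 0 = G 0 (n2 + 2) (n3 + 2) 0 1 1 0 := S.r3 0 0 (n2 + 2) (n3 + 2) 0 0
  have z4 : G 0 (n2 + 2) (n3 + 2) 0 1 1 0 = 0 := S.van' 0 n2 (n3 + 1) 0 1 1 0
  have z5 : G 0 (n3 + 2) 0 0 1 1 (n2 + 2) = G 0 0 0 (n3 + 2) 1 1 (n2 + 2) := S.r2 0 (n3 + 2) 0 0 0 (n2 + 2)
  have z6 : G 0 0 (n3 + 2) 0 1 1 (n2 + 2) = G 0 0 0 (n3 + 2) 1 1 (n2 + 2) := S.r1 0 0 (n3 + 2) 0 0 (n2 + 2)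
  have z7 : G 0 0 (n3 + 2) (n2 + 2) 1 1 0 = G 0 (n3 + 2) (n2 + 2) 0 1 1 0 := S.r3 0 0 (n3 + 2) (n2 + 2) 0 0
  have z8 : G 0 (n3 + 2) (n2 + 2) 0 1 1 0 = 0 := S.van' 0 n3 (n2 + 1) 0 1 1 0
  have z9 : G 1 0 1 1 1 (n2 + 1) (n3 + 1) = G 0 1 1 1 1 (n2 + 1) (n3 + 1) := S.r3 1 0 1 1 n2 (n3 + 1)
  have z10 : G (n2 + 1) 1 (n3 + 1) 0 1 1 1 = G 1 1 (n3 + 1) 0 1 1 (n2 + 1) := S.m3 (n2 + 1) n3 0 1 1 1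
  have z11 : G 1 0 1 (n3 + 1) 1 1 (n2 + 1) = G 0 1 (n3 + 1) 1 1 1 (n2 + 1) := S.r3 1 0 1 (n3 + 1) 0 (n2 + 1)
  have z12 : G (n3 + 1) 0 1 1 1 1 (n2 + 1) = G 0 1 1 (n3 + 1) 1 1 (n2 + 1) := S.r3 (n3 + 1) 0 1 1 0 (n2 + 1)
  have z13 : G 1 1 (n3 + 1) 0 1 1 (n2 + 1) = G 0 1 1 (n3 + 1) 1 1 (n2 + 1) := S.r1 1 1 (n3 + 1) 0 0 (n2 + 1)
  have z14 : G 0 1 (n3 + 1) 1 1 1 (n2 + 1) = G 1 1 (n3 + 1) 1 1 (n2 + 1) 0 := S.m3 0 n3 1 1 1 (n2 + 1)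
  have z15 : G 0 1 1 (n3 + 1) 1 1 (n2 + 1) = G 1 1 1 (n3 + 1) 1 (n2 + 1) 0 := S.m3 0 0 (n3 + 1) 1 1 (n2 + 1)
  have z16 : G 1 1 (n3 + 1) 1 1 (n2 + 1) 0 = G (n3 + 1) 1 1 1 1 (n2 + 1) 0 := S.r2 1 1 (n3 + 1) 1 n2 0
  have z17 : G 1 1 1 (n3 + 1) 1 (n2 + 1) 0 = G (n3 + 1) 1 1 1 1 (n2 + 1) 0 := S.r1 1 1 1 (n3 + 1) n2 0
  have z18 : G 0 1 (n2 + 1) (n3 + 1) 1 1 1 = G 1 1 (n2 + 1) (n3 + 1) 1 1 0 := S.m3 0 n2 (n3 + 1) 1 1 1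
  have z19 : G 1 1 (n2 + 1) (n3 + 1) 0 1 1 = G 1 1 (n2 + 1) (n3 + 1) 1 1 0 := S.m2 1 n2 (n3 + 1) 0 1 1
  have z20 : G 1 1 (n2 + 1) (n3 + 1) 1 1 0 = G (n3 + 1) 1 1 (n2 + 1) 1 1 0 := S.r1 1 1 (n2 + 1) (n3 + 1) 0 0
  have z21 : G (n3 + 2) 0 1 (n2 + 1) 1 1 0 = G 0 1 (n2 + 1) (n3 + 2) 1 1 0 := S.r3 (n3 + 2) 0 1 (n2 + 1) 0 0
  have z22 : G (n2 + 1) (n3 + 2) 0 1 1 1 0 = G 0 1 (n2 + 1) (n3 + 2) 1 1 0 := S.r2 (n2 + 1) (n3 + 2) 0 1 0 0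
  have z23 : G (n3 + 1) 0 0 1 1 1 (n2 + 2) = G 0 0 1 (n3 + 1) 1 1 (n2 + 2) := S.r3 (n3 + 1) 0 0 1 0 (n2 + 2)
  have z24 : G 0 1 (n3 + 1) 0 1 1 (n2 + 2) = G 0 0 1 (n3 + 1) 1 1 (n2 + 2) := S.r1 0 1 (n3 + 1) 0 0 (n2 + 2)
  have z25 : G 0 (n2 + 2) (n3 + 2) 1 0 1 0 = 0 := S.van' 0 n2 (n3 + 1) 1 0 1 0
  have z26 : G 0 (n3 + 2) (n2 + 2) 1 0 1 0 = 0 := S.van' 0 n3 (n2 + 1) 1 0 1 0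
  have z27 : G 1 0 (n2 + 1) 0 (n3 + 2) 1 1 = 0 := S.van 1 0 (n2 + 1) 0 n3 0 1
  have z28 : G 1 0 (n2 + 1) (n3 + 2) 1 1 0 = G (n2 + 1) (n3 + 2) 1 0 1 1 0 := S.r2 1 0 (n2 + 1) (n3 + 2) 0 0
  have z29 : G (n2 + 1) (n3 + 2) 1 0 1 1 0 = 0 := S.van' (n2 + 1) n3 0 0 1 1 0
  have z30 : G (n3 + 1) 0 1 0 1 1 (n2 + 2) = G 0 1 0 (n3 + 1) 1 1 (n2 + 2) := S.r3 (n3 + 1) 0 1 0 0 (n2 + 2)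
  have z31 : G 1 0 (n3 + 1) 0 1 1 (n2 + 2) = G 0 1 0 (n3 + 1) 1 1 (n2 + 2) := S.r1 1 0 (n3 + 1) 0 0 (n2 + 2)
  have z32 : G 1 0 (n3 + 1) 0 (n2 + 2) 1 1 = 0 := S.van 1 0 (n3 + 1) 0 n2 0 1
  have z33 : G (n2 + 1) 0 1 (n3 + 1) 1 1 1 = G 0 1 (n3 + 1) (n2 + 1) 1 1 1 := S.r3 (n2 + 1) 0 1 (n3 + 1) 0 1
  have z34 : G 0 1 (n3 + 1) (n2 + 1) 1 1 1 = G 1 1 (n3 + 1) (n2 + 1) 1 1 0 := S.m3 0 n3 (n2 + 1) 1 1 1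
  have z35 : G 1 1 (n3 + 1) (n2 + 1) 1 1 0 = G (n2 + 1) 1 1 (n3 + 1) 1 1 0 := S.r1 1 1 (n3 + 1) (n2 + 1) 0 0
  have z36 : G (n2 + 1) 0 1 (n3 + 2) 1 1 0 = G 1 (n3 + 2) (n2 + 1) 0 1 1 0 := S.r2 (n2 + 1) 0 1 (n3 + 2) 0 0
  have z37 : G 1 (n3 + 2) (n2 + 1) 0 1 1 0 = 0 := S.van' 1 n3 n2 0 1 1 0
  have z38 : G (n3 + 2) 0 (n2 + 1) 0 1 1 1 = G 0 (n2 + 1) 0 (n3 + 2) 1 1 1 := S.r3 (n3 + 2) 0 (n2 + 1) 0 0 1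
  have z39 : G (n2 + 1) 0 (n3 + 2) 0 1 1 1 = G 0 (n2 + 1) 0 (n3 + 2) 1 1 1 := S.r1 (n2 + 1) 0 (n3 + 2) 0 0 1
  have z40 : G (n2 + 1) 1 0 (n3 + 2) 1 1 0 = G 0 (n3 + 2) (n2 + 1) 1 1 1 0 := S.r2 (n2 + 1) 1 0 (n3 + 2) 0 0
  have z41 : G 0 (n3 + 2) (n2 + 1) 1 1 1 0 = 0 := S.van' 0 n3 n2 1 1 1 0
  have z42 : G (n2 + 2) 0 1 (n3 + 1) 1 1 0 = G 0 1 (n3 + 1) (n2 + 2) 1 1 0 := S.r3 (n2 + 2) 0 1 (n3 + 1) 0 0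
  have z43 : G (n3 + 1) (n2 + 2) 0 1 1 1 0 = G 0 1 (n3 + 1) (n2 + 2) 1 1 0 := S.r2 (n3 + 1) (n2 + 2) 0 1 0 0
  have z44 : G (n3 + 1) 0 (n2 + 2) 0 1 1 1 = G 0 (n2 + 2) 0 (n3 + 1) 1 1 1 := S.r3 (n3 + 1) 0 (n2 + 2) 0 0 1
  have z45 : G (n2 + 2) 0 (n3 + 1) 0 1 1 1 = G 0 (n2 + 2) 0 (n3 + 1) 1 1 1 := S.r1 (n2 + 2) 0 (n3 + 1) 0 0 1
  have z46 : G (n2 + 2) (n3 + 2) 1 0 0 1 0 = 0 := S.van' (n2 + 2) n3 0 0 0 1 0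
  have z47 : G (n3 + 1) 0 0 (n2 + 2) 1 1 1 = G 0 (n2 + 2) (n3 + 1) 0 1 1 1 := S.r2 (n3 + 1) 0 0 (n2 + 2) 0 1
  have z48 : G 0 (n2 + 2) (n3 + 1) 0 1 1 1 = 0 := S.van' 0 n2 n3 0 1 1 1
  have z49 : G (n3 + 1) 0 1 (n2 + 2) 1 1 0 = G 1 (n2 + 2) (n3 + 1) 0 1 1 0 := S.r2 (n3 + 1) 0 1 (n2 + 2) 0 0
  have z50 : G 1 (n2 + 2) (n3 + 1) 0 1 1 0 = 0 := S.van' 1 n2 n3 0 1 1 0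
  have z51 : G (n3 + 1) 1 0 (n2 + 2) 1 1 0 = G 0 (n2 + 2) (n3 + 1) 1 1 1 0 := S.r2 (n3 + 1) 1 0 (n2 + 2) 0 0
  have z52 : G 0 (n2 + 2) (n3 + 1) 1 1 1 0 = 0 := S.van' 0 n2 n3 1 1 1 0
  have z53 : G (n3 + 1) 1 (n2 + 1) 0 1 1 1 = G 1 1 (n2 + 1) 0 1 1 (n3 + 1) := S.m3 (n3 + 1) n2 0 1 1 1
  have z54 : G 1 1 (n2 + 1) 0 1 1 (n3 + 1) = G 0 1 1 (n2 + 1) 1 1 (n3 + 1) := S.r1 1 1 (n2 + 1) 0 0 (n3 + 1)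
  have z55 : G 0 1 1 (n2 + 1) 1 1 (n3 + 1) = G 1 1 1 (n2 + 1) 1 (n3 + 1) 0 := S.m3 0 0 (n2 + 1) 1 1 (n3 + 1)
  have z56 : G (n3 + 1) 1 1 (n2 + 1) 0 1 1 = G 1 1 1 (n2 + 1) 1 (n3 + 1) 0 := S.m2 (n3 + 1) 0 (n2 + 1) 0 1 1
  have z57 : G (n3 + 2) (n2 + 2) 1 0 0 1 0 = 0 := S.van' (n3 + 2) n2 0 0 0 1 0
  have z58 : D 1 1 1 1 (n2 + 1) (n3 + 1) = 0 := S_p5 S.mirror 0 0 0 0 n2 n3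
  have z59 : D 1 (n3 + 1) 1 1 1 (n2 + 1) = 0 := S_p5 S.mirror 0 n3 0 0 0 n2
  have z60 : D 1 (n2 + 1) (n3 + 2) 1 1 0 = 0 := S_p4 S.mirror 0 n2 (n3 + 1) 0 0
  have z61 : D 1 (n3 + 1) (n2 + 2) 1 1 0 = 0 := S_p4 S.mirror 0 n3 (n2 + 1) 0 0
  have z62 : D (n2 + 1) 0 (n3 + 2) 1 1 1 = 0 := (S.d1 (n2 + 1) 0 (n3 + 2) 1 1 1).trans (S_p4 S.mirror n2 (n3 + 1) 0 0 0)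
  have z63 : D (n2 + 1) (n3 + 2) 1 1 1 0 = 0 := S_p4 S.mirror n2 (n3 + 1) 0 0 0
  have z64 : D (n2 + 1) (n3 + 1) 1 1 1 1 = 0 := S_p5 S.mirror n2 n3 0 0 0 0
  have z65 : D (n3 + 1) 0 1 1 1 (n2 + 2) = 0 := (S.d1 (n3 + 1) 0 1 1 1 (n2 + 2)).trans (S_p4 S.mirror n3 0 0 0 (n2 + 1))
  have z66 : D (n3 + 1) 0 (n2 + 2) 1 1 1 = 0 := (S.d1 (n3 + 1) 0 (n2 + 2) 1 1 1).trans (S_p4 S.mirror n3 (n2 + 1) 0 0 0)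
  have z67 : C 1 0 1 (n2 + 2) (n3 + 2) 0 = C 1 0 0 1 (n2 + 2) (n3 + 2) := S.c4 1 0 1 (n2 + 2) (n3 + 2) 0
  have z68 : C 1 1 (n2 + 2) (n3 + 2) 0 0 = C 1 0 0 1 (n2 + 2) (n3 + 2) := S.c3 1 1 (n2 + 2) (n3 + 2) 0 0
  have z69 : C 1 (n2 + 2) (n3 + 2) 0 0 1 = C 1 0 0 1 (n2 + 2) (n3 + 2) := S.c2 1 (n2 + 2) (n3 + 2) 0 0 1
  have z70 : C 1 0 1 (n3 + 2) (n2 + 2) 0 = C 1 0 0 1 (n3 + 2) (n2 + 2) := S.c4 1 0 1 (n3 + 2) (n2 + 2) 0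
  have z71 : C 1 (n2 + 2) 0 0 1 (n3 + 2) = C 1 0 0 1 (n3 + 2) (n2 + 2) := S.c1 1 (n2 + 2) 0 0 1 (n3 + 2)
  have z72 : C 1 0 0 (n2 + 2) (n3 + 2) 1 = 0 := (S.c2 1 0 0 (n2 + 2) (n3 + 2) 1).trans (L_g1_g2_g2_g1_e0_e0 S 0 n2 n3 0)
  have z73 : C 1 1 0 0 (n2 + 2) (n3 + 2) = 0 := (S.c3 1 1 0 0 (n2 + 2) (n3 + 2)).trans (L_g1_g2_g2_g1_e0_e0 S 0 n2 n3 0)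
  have z74 : C 1 0 0 (n3 + 2) (n2 + 2) 1 = 0 := (S.c2 1 0 0 (n3 + 2) (n2 + 2) 1).trans (L_g1_g2_g2_g1_e0_e0 S 0 n3 n2 0)
  have z75 : C 1 0 (n2 + 2) (n3 + 2) 0 1 = C 1 0 1 0 (n2 + 2) (n3 + 2) := S.c3 1 0 (n2 + 2) (n3 + 2) 0 1
  have z76 : C 1 1 0 (n2 + 2) (n3 + 2) 0 = C 1 0 1 0 (n2 + 2) (n3 + 2) := S.c4 1 1 0 (n2 + 2) (n3 + 2) 0
  have z77 : C 1 (n2 + 2) (n3 + 2) 0 1 0 = C 1 0 1 0 (n2 + 2) (n3 + 2) := S.c2 1 (n2 + 2) (n3 + 2) 0 1 0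
  have z78 : C 1 0 (n3 + 2) (n2 + 2) 0 1 = C 1 0 1 0 (n3 + 2) (n2 + 2) := S.c3 1 0 (n3 + 2) (n2 + 2) 0 1
  have z79 : C 1 (n2 + 2) 0 1 0 (n3 + 2) = C 1 0 1 0 (n3 + 2) (n2 + 2) := S.c1 1 (n2 + 2) 0 1 0 (n3 + 2)
  have z80 : C 1 1 (n3 + 2) 0 (n2 + 2) 0 = C 1 0 (n2 + 2) 0 1 (n3 + 2) := S.c2 1 1 (n3 + 2) 0 (n2 + 2) 0
  have z81 : C 1 (n2 + 2) 0 1 (n3 + 2) 0 = C 1 0 (n2 + 2) 0 1 (n3 + 2) := S.c4 1 (n2 + 2) 0 1 (n3 + 2) 0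
  have z82 : C 1 1 0 (n3 + 2) 0 (n2 + 2) = C 1 0 (n2 + 2) 1 0 (n3 + 2) := S.c3 1 1 0 (n3 + 2) 0 (n2 + 2)
  have z83 : C 1 (n2 + 2) 1 0 (n3 + 2) 0 = C 1 0 (n2 + 2) 1 0 (n3 + 2) := S.c4 1 (n2 + 2) 1 0 (n3 + 2) 0
  have z84 : C 1 1 (n2 + 2) 0 (n3 + 2) 0 = C 1 0 (n3 + 2) 0 1 (n2 + 2) := S.c2 1 1 (n2 + 2) 0 (n3 + 2) 0
  have z85 : C 1 (n2 + 2) 0 (n3 + 2) 0 1 = C 1 0 (n3 + 2) 0 1 (n2 + 2) := S.c1 1 (n2 + 2) 0 (n3 + 2) 0 1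
  have z86 : C 1 1 0 (n2 + 2) 0 (n3 + 2) = C 1 0 (n3 + 2) 1 0 (n2 + 2) := S.c3 1 1 0 (n2 + 2) 0 (n3 + 2)
  have z87 : C 1 1 1 1 (n2 + 1) (n3 + 1) = 0 := S_p5 S 0 0 0 0 n2 n3
  have z88 : C 1 (n2 + 2) 1 (n3 + 2) 0 0 = C 1 1 (n3 + 2) 0 0 (n2 + 2) := S.c1 1 (n2 + 2) 1 (n3 + 2) 0 0
  linear_combination ((((((1 / 2 : ℚ) * r0 + (5 / 6 : ℚ) * r1 + (1 / 6 : ℚ) * r2 + (-1 / 6 : ℚ) * r3 + (-1 / 6 : ℚ) * r4)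
    + ((-5 / 6 : ℚ) * r5 + (1 / 3 : ℚ) * r6 + (-1 / 3 : ℚ) * r7 + (-1 / 2 : ℚ) * r8))
    + ((1 / 2 : ℚ) * r9 + (-1 / 6 : ℚ) * r10 + (1 / 6 : ℚ) * r11 + (1 / 2 : ℚ) * r12 + (1 / 6 : ℚ) * r13 + (1 / 2 : ℚ) * r14 + (1 / 2 : ℚ) * r15 + (-1 / 6 : ℚ) * r16))
    + (((-1 / 6 : ℚ) * r17 + (1 / 2 : ℚ) * r18 + (1 / 2 : ℚ) * r19 + (1 / 2 : ℚ) * r20 + (1 / 6 : ℚ) * r21 + (-1 / 6 : ℚ) * r22 + (-1 / 3 : ℚ) * r23 + (-1 / 6 : ℚ) * r24)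
    + ((-1 / 3 : ℚ) * r25 + (-1 / 6 : ℚ) * r26 + (1 / 6 : ℚ) * r27 + (-1 / 6 : ℚ) * r28 + (-1 / 3 : ℚ) * r29 + (-1 / 3 : ℚ) * r30 + (-1 / 6 : ℚ) * r31 + (1 / 3 : ℚ) * r32)))
    + ((((-1 / 3 : ℚ) * r33 + (1 / 3 : ℚ) * r34 + (-1 / 3 : ℚ) * r35 + (-1 / 3 : ℚ) * r36 + (1 / 3 : ℚ) * r37 + (1 / 3 : ℚ) * r38 + (-1 / 3 : ℚ) * r39 + (5 / 6 : ℚ) * z0)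
    + ((-1 / 6 : ℚ) * z1 + (-1 / 3 : ℚ) * z2 + (1 / 6 : ℚ) * z3 + (2 / 3 : ℚ) * z4 + (1 / 3 : ℚ) * z5 + (-1 / 3 : ℚ) * z6 + (1 / 2 : ℚ) * z7 + (1 / 3 : ℚ) * z8))
    + (((-1 / 2 : ℚ) * z9 + (-1 / 2 : ℚ) * z10 + (-1 / 6 : ℚ) * z11 + (1 / 2 : ℚ) * z12 + (-1 / 2 : ℚ) * z13 + (-1 / 6 : ℚ) * z14 + (1 / 6 : ℚ) * z15 + (-1 / 6 : ℚ) * z16)
    + ((1 / 6 : ℚ) * z17 + (-2 / 3 : ℚ) * z18 + (-1 / 6 : ℚ) * z19 + (-5 / 6 : ℚ) * z20 + (-5 / 6 : ℚ) * z21 + (1 / 2 : ℚ) * z22 + (1 / 3 : ℚ) * z23 + (-1 / 3 : ℚ) * z24))))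
    + (((((-1 / 6 : ℚ) * z25 + (-1 / 2 : ℚ) * z26 + (-1 / 6 : ℚ) * z27 + (-1 / 3 : ℚ) * z28 + (-1 / 3 : ℚ) * z29 + (-1 / 3 : ℚ) * z30 + (1 / 3 : ℚ) * z31 + (-1 / 2 : ℚ) * z32)
    + ((1 / 6 : ℚ) * z33 + (1 / 6 : ℚ) * z34 + (1 / 6 : ℚ) * z35 + (-1 / 6 : ℚ) * z36 + (-1 / 6 : ℚ) * z37 + (1 / 6 : ℚ) * z38 + (-1 / 6 : ℚ) * z39 + (1 / 2 : ℚ) * z40))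
    + (((1 / 2 : ℚ) * z41 + (1 / 6 : ℚ) * z42 + (-1 / 6 : ℚ) * z43 + (-1 / 6 : ℚ) * z44 + (1 / 6 : ℚ) * z45 + (1 / 6 : ℚ) * z46 + (-1 / 3 : ℚ) * z47 + (-1 / 3 : ℚ) * z48)
    + ((1 / 2 : ℚ) * z49 + (1 / 2 : ℚ) * z50 + (1 / 6 : ℚ) * z51 + (1 / 6 : ℚ) * z52 + (-1 / 6 : ℚ) * z53 + (-1 / 6 : ℚ) * z54 + (-1 / 6 : ℚ) * z55 + (1 / 6 : ℚ) * z56)))
    + ((((1 / 2 : ℚ) * z57 + (-1 / 2 : ℚ) * z58 + (-1 / 6 : ℚ) * z59 + (-5 / 6 : ℚ) * z60 + (1 / 6 : ℚ) * z61 + (1 / 6 : ℚ) * z62 + (-1 / 3 : ℚ) * z63 + (5 / 6 : ℚ) * z64)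
    + ((1 / 3 : ℚ) * z65 + (1 / 2 : ℚ) * z66 + (-1 / 2 : ℚ) * z67 + (4 / 3 : ℚ) * z68 + (-1 / 3 : ℚ) * z69 + (1 / 6 : ℚ) * z70 + (-1 / 3 : ℚ) * z71 + (-1 / 6 : ℚ) * z72))
    + (((1 / 3 : ℚ) * z73 + (-1 / 2 : ℚ) * z74 + (-1 / 2 : ℚ) * z75 + (1 / 3 : ℚ) * z76 + (1 / 3 : ℚ) * z77 + (1 / 6 : ℚ) * z78 + (1 / 3 : ℚ) * z79 + (1 / 6 : ℚ) * z80)
    + ((-1 / 3 : ℚ) * z81 + (1 / 6 : ℚ) * z82 + (1 / 3 : ℚ) * z83 + (1 / 6 : ℚ) * z84 + (1 / 3 : ℚ) * z85 + (1 / 6 : ℚ) * z86 + (-1 / 6 : ℚ) * z87 + (-1 / 3 : ℚ) * z88))))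

theorem L_e1_g2_e1_e1_e0_e0 (S : Sys6 G C D) (n1 : ℕ) : C 1 (n1 + 2) 1 1 0 0 = 0 := by
  have r0 : D 1 0 0 1 1 (n1 + 2) = G (n1 + 2) 0 1 0 0 1 1 - G 0 0 1 0 1 1 (n1 + 2) := S.al0' 0 0 1 1 (n1 + 2)
  have r1 : D 1 0 0 (n1 + 2) 1 1 = G 1 0 1 0 0 (n1 + 2) 1 - G 0 0 1 0 (n1 + 2) 1 1 := S.al0' 0 0 (n1 + 2) 1 1
  have r2 : D 1 0 1 0 (n1 + 2) 1 = G 1 0 1 0 1 0 (n1 + 2) - G 1 0 1 0 0 (n1 + 2) 1 + G 0 1 1 0 0 (n1 + 2) 1 := S.al1' 0 0 0 0 (n1 + 2) 1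
  have r3 : D 1 0 1 1 0 (n1 + 2) = G (n1 + 2) 0 1 0 1 1 0 - G 1 0 1 0 1 0 (n1 + 2) + G 0 1 1 0 1 0 (n1 + 2) := S.al1' 0 0 0 1 0 (n1 + 2)
  have r4 : D 1 0 1 1 (n1 + 2) 0 = G 0 0 1 0 1 1 (n1 + 2) - G 1 0 1 0 1 (n1 + 2) 0 + G 0 1 1 0 1 (n1 + 2) 0 := S.al1' 0 0 0 1 (n1 + 2) 0
  have r5 : D 1 0 1 (n1 + 2) 0 1 = G 1 0 1 0 1 (n1 + 2) 0 - G 1 0 1 0 (n1 + 2) 0 1 + G 0 1 1 0 (n1 + 2) 0 1 := S.al1' 0 0 0 (n1 + 2) 0 1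
  have r6 : D 1 0 1 (n1 + 2) 1 0 = G 0 0 1 0 1 (n1 + 2) 1 - G 1 0 1 0 (n1 + 2) 1 0 + G 0 1 1 0 (n1 + 2) 1 0 := S.al1' 0 0 0 (n1 + 2) 1 0
  have r7 : D 1 0 (n1 + 2) 0 1 1 = G 1 0 1 0 (n1 + 2) 0 1 - G (n1 + 2) 0 1 0 0 1 1 + G (n1 + 1) 1 1 0 0 1 1 := S.al1' (n1 + 1) 0 0 0 1 1
  have r8 : D 1 0 (n1 + 2) 1 1 0 = G 0 0 1 0 (n1 + 2) 1 1 - G (n1 + 2) 0 1 0 1 1 0 + G (n1 + 1) 1 1 0 1 1 0 := S.al1' (n1 + 1) 0 0 1 1 0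
  have r9 : D 1 1 0 0 1 (n1 + 2) = G (n1 + 2) 0 1 1 0 0 1 - G 0 0 1 1 0 1 (n1 + 2) := S.al0' 0 1 0 1 (n1 + 2)
  have r10 : D 1 1 0 0 (n1 + 2) 1 = G 1 0 1 1 0 0 (n1 + 2) - G 0 0 1 1 0 (n1 + 2) 1 := S.al0' 0 1 0 (n1 + 2) 1
  have r11 : D 1 1 0 1 0 (n1 + 2) = G (n1 + 2) 0 1 1 0 1 0 - G 0 0 1 1 1 0 (n1 + 2) := S.al0' 0 1 1 0 (n1 + 2)
  have r12 : D 1 1 0 1 (n1 + 2) 0 = G 0 0 1 1 0 1 (n1 + 2) - G 0 0 1 1 1 (n1 + 2) 0 := S.al0' 0 1 1 (n1 + 2) 0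
  have r13 : D 1 1 0 (n1 + 2) 1 0 = G 0 0 1 1 0 (n1 + 2) 1 - G 0 0 1 1 (n1 + 2) 1 0 := S.al0' 0 1 (n1 + 2) 1 0
  have r14 : D 1 1 1 0 0 (n1 + 2) = G (n1 + 2) 0 1 1 1 0 0 - G 1 0 1 1 0 0 (n1 + 2) + G 0 1 1 1 0 0 (n1 + 2) := S.al1' 0 0 1 0 0 (n1 + 2)
  have r15 : D 1 1 1 0 (n1 + 2) 0 = G 0 0 1 1 1 0 (n1 + 2) - G 1 0 1 1 0 (n1 + 2) 0 + G 0 1 1 1 0 (n1 + 2) 0 := S.al1' 0 0 1 0 (n1 + 2) 0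
  have r16 : D 1 1 1 (n1 + 2) 0 0 = G 0 0 1 1 1 (n1 + 2) 0 - G 1 0 1 1 (n1 + 2) 0 0 + G 0 1 1 1 (n1 + 2) 0 0 := S.al1' 0 0 1 (n1 + 2) 0 0
  have r17 : D 1 1 (n1 + 2) 0 0 1 = G 1 0 1 1 (n1 + 2) 0 0 - G (n1 + 2) 0 1 1 0 0 1 + G (n1 + 1) 1 1 1 0 0 1 := S.al1' (n1 + 1) 0 1 0 0 1
  have r18 : D 1 1 (n1 + 2) 1 0 0 = G 0 0 1 1 (n1 + 2) 1 0 - G (n1 + 2) 0 1 1 1 0 0 + G (n1 + 1) 1 1 1 1 0 0 := S.al1' (n1 + 1) 0 1 1 0 0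
  have r19 : D 1 (n1 + 2) 0 1 0 1 = G 1 0 1 (n1 + 2) 0 1 0 - G 0 0 1 (n1 + 2) 1 0 1 := S.al0' 0 (n1 + 2) 1 0 1
  have r20 : D 1 (n1 + 2) 0 1 1 0 = G 0 0 1 (n1 + 2) 0 1 1 - G 0 0 1 (n1 + 2) 1 1 0 := S.al0' 0 (n1 + 2) 1 1 0
  have r21 : D 1 (n1 + 2) 1 0 1 0 = G 0 0 1 (n1 + 2) 1 0 1 - G 1 0 1 (n1 + 2) 0 1 0 + G 0 1 1 (n1 + 2) 0 1 0 := S.al1' 0 0 (n1 + 2) 0 1 0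
  have r22 : D (n1 + 2) 1 0 1 0 1 = G 1 0 (n1 + 2) 1 0 1 0 - G 0 0 (n1 + 2) 1 1 0 1 := S.al0' (n1 + 1) 1 1 0 1
  have r23 : D (n1 + 2) 1 0 1 1 0 = G 0 0 (n1 + 2) 1 0 1 1 - G 0 0 (n1 + 2) 1 1 1 0 := S.al0' (n1 + 1) 1 1 1 0
  have r24 : D (n1 + 2) 1 1 0 1 0 = G 0 0 (n1 + 2) 1 1 0 1 - G 1 0 (n1 + 2) 1 0 1 0 + G 0 1 (n1 + 2) 1 0 1 0 := S.al1' 0 (n1 + 1) 1 0 1 0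
  have r25 : C 1 0 0 1 1 (n1 + 2) = G (n1 + 2) 0 1 1 0 1 0 - G 0 1 1 (n1 + 2) 0 1 0 := S.al0 1 1 (n1 + 2) 0 0
  have r26 : C 1 0 1 (n1 + 2) 1 0 = G 0 1 (n1 + 2) 1 0 1 0 - G 1 (n1 + 2) 1 0 0 1 0 + G 0 (n1 + 2) 1 0 1 1 0 := S.al1 0 (n1 + 2) 1 0 0 0
  have r27 : C 1 1 0 1 (n1 + 2) 0 = G 0 0 1 (n1 + 2) 0 1 1 - G 0 1 (n1 + 2) 0 0 1 1 := S.al0 1 (n1 + 2) 0 0 1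
  have r28 : C 1 1 0 (n1 + 2) 1 0 = G 0 0 (n1 + 2) 1 0 1 1 - G 0 (n1 + 2) 1 0 0 1 1 := S.al0 (n1 + 2) 1 0 0 1
  have r29 : C 1 (n1 + 1) 1 1 1 0 = G 0 1 1 1 0 1 (n1 + 1) - G 1 1 1 0 0 1 (n1 + 1) + G 0 1 1 0 1 1 (n1 + 1) := S.al1 0 1 1 0 0 (n1 + 1)
  have r30 : C 1 (n1 + 2) 0 0 1 1 = G 1 0 0 1 0 1 (n1 + 2) - G 0 0 1 1 0 1 (n1 + 2) := S.al0 0 1 1 0 (n1 + 2)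
  have r31 : C 1 (n1 + 2) 0 1 0 1 = G 1 0 1 0 0 1 (n1 + 2) - G 0 1 0 1 0 1 (n1 + 2) := S.al0 1 0 1 0 (n1 + 2)
  have r32 : C 1 (n1 + 2) 1 0 0 1 = G 1 1 0 0 0 1 (n1 + 2) - G 1 0 0 1 0 1 (n1 + 2) + G 0 0 0 1 1 1 (n1 + 2) := S.al1 0 0 0 1 0 (n1 + 2)
  have r33 : C 1 (n1 + 2) 1 0 1 0 = G 0 1 0 1 0 1 (n1 + 2) - G 1 0 1 0 0 1 (n1 + 2) + G 0 0 1 0 1 1 (n1 + 2) := S.al1 0 0 1 0 0 (n1 + 2)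
  have r34 : C 1 (n1 + 2) 1 1 0 0 = G 0 1 1 0 0 1 (n1 + 2) - G 1 1 0 0 0 1 (n1 + 2) + G 0 1 0 0 1 1 (n1 + 2) := S.al1 0 1 0 0 0 (n1 + 2)
  have r35 : C (n1 + 1) 0 1 1 1 1 = G 1 1 1 1 0 (n1 + 1) 0 - G 1 1 1 1 0 (n1 + 1) 0 + G 0 1 1 1 1 (n1 + 1) 0 := S.al1 0 1 1 1 n1 0
  have r36 : C (n1 + 1) 1 1 1 1 0 = G 0 1 1 1 0 (n1 + 1) 1 - G 1 1 1 0 0 (n1 + 1) 1 + G 0 1 1 0 1 (n1 + 1) 1 := S.al1 0 1 1 0 n1 1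
  have r37 : C (n1 + 2) 0 0 1 1 1 = G 1 0 1 1 0 (n1 + 2) 0 - G 0 1 1 1 0 (n1 + 2) 0 := S.al0 1 1 1 (n1 + 1) 0
  have r38 : C (n1 + 2) 0 1 1 1 0 = G 0 1 1 1 0 (n1 + 2) 0 - G 1 1 1 0 0 (n1 + 2) 0 + G 0 1 1 0 1 (n1 + 2) 0 := S.al1 0 1 1 0 (n1 + 1) 0
  have r39 : C (n1 + 2) 1 0 0 1 1 = G 1 0 0 1 0 (n1 + 2) 1 - G 0 0 1 1 0 (n1 + 2) 1 := S.al0 0 1 1 (n1 + 1) 1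
  have r40 : C (n1 + 2) 1 0 1 0 1 = G 1 0 1 0 0 (n1 + 2) 1 - G 0 1 0 1 0 (n1 + 2) 1 := S.al0 1 0 1 (n1 + 1) 1
  have r41 : C (n1 + 2) 1 0 1 1 0 = G 0 0 1 1 0 (n1 + 2) 1 - G 0 1 1 0 0 (n1 + 2) 1 := S.al0 1 1 0 (n1 + 1) 1
  have r42 : C (n1 + 2) 1 1 0 0 1 = G 1 1 0 0 0 (n1 + 2) 1 - G 1 0 0 1 0 (n1 + 2) 1 + G 0 0 0 1 1 (n1 + 2) 1 := S.al1 0 0 0 1 (n1 + 1) 1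
  have r43 : C (n1 + 2) 1 1 0 1 0 = G 0 1 0 1 0 (n1 + 2) 1 - G 1 0 1 0 0 (n1 + 2) 1 + G 0 0 1 0 1 (n1 + 2) 1 := S.al1 0 0 1 0 (n1 + 1) 1
  have r44 : C (n1 + 2) 1 1 1 0 0 = G 0 1 1 0 0 (n1 + 2) 1 - G 1 1 0 0 0 (n1 + 2) 1 + G 0 1 0 0 1 (n1 + 2) 1 := S.al1 0 1 0 0 (n1 + 1) 1
  have z0 : G 0 1 0 0 1 1 (n1 + 2) = G 0 0 0 1 1 1 (n1 + 2) := S.r2 0 1 0 0 0 (n1 + 2)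
  have z1 : G 0 0 1 0 1 1 (n1 + 2) = G 0 0 0 1 1 1 (n1 + 2) := S.r1 0 0 1 0 0 (n1 + 2)
  have z2 : G 0 1 0 0 1 (n1 + 2) 1 = G 0 0 0 1 1 (n1 + 2) 1 := S.r2 0 1 0 0 (n1 + 1) 1
  have z3 : G 0 0 1 0 1 (n1 + 2) 1 = G 0 0 0 1 1 (n1 + 2) 1 := S.r1 0 0 1 0 (n1 + 1) 1
  have z4 : G 0 1 1 0 0 1 (n1 + 2) = G 0 1 1 0 1 (n1 + 2) 0 := S.m3 0 0 0 0 1 (n1 + 2)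
  have z5 : G 0 1 1 0 1 (n1 + 2) 0 = G 0 0 1 1 1 (n1 + 2) 0 := S.r1 0 1 1 0 (n1 + 1) 0
  have z6 : G 0 1 (n1 + 2) 0 0 1 1 = G 0 1 (n1 + 2) 0 1 1 0 := S.m3 0 (n1 + 1) 0 0 1 1
  have z7 : G 0 1 (n1 + 2) 0 1 1 0 = G 0 0 1 (n1 + 2) 1 1 0 := S.r1 0 1 (n1 + 2) 0 0 0
  have z8 : G 0 0 (n1 + 2) 1 1 1 0 = G 0 (n1 + 2) 1 0 1 1 0 := S.r3 0 0 (n1 + 2) 1 0 0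
  have z9 : G 0 (n1 + 2) 1 0 1 1 0 = 0 := S.van' 0 n1 0 0 1 1 0
  have z10 : G 0 1 1 0 0 (n1 + 2) 1 = G 0 1 1 0 (n1 + 2) 1 0 := S.m3 0 0 0 0 (n1 + 2) 1
  have z11 : G 0 1 1 0 (n1 + 2) 1 0 = 0 := S.van 0 1 1 0 n1 0 0
  have z12 : G 0 1 1 0 (n1 + 2) 0 1 = G 0 1 1 0 1 0 (n1 + 2) := S.m2 0 0 0 (n1 + 2) 0 1
  have z13 : G 1 1 1 0 0 (n1 + 2) 0 = G 0 1 1 0 1 0 (n1 + 2) := S.m1 1 0 0 0 (n1 + 2) 0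
  have z14 : G 0 1 1 1 0 1 (n1 + 1) = G 0 1 1 1 1 (n1 + 1) 0 := S.m3 0 0 1 0 1 (n1 + 1)
  have z15 : G (n1 + 1) 1 1 1 0 0 1 = G 0 1 1 1 1 (n1 + 1) 0 := S.m2 (n1 + 1) 0 1 0 0 1
  have z16 : G 0 1 1 1 1 (n1 + 1) 0 = G 1 1 1 0 1 (n1 + 1) 0 := S.r3 0 1 1 1 n1 0
  have z17 : G (n1 + 1) 1 1 0 0 1 1 = G 0 1 1 0 1 1 (n1 + 1) := S.m3 (n1 + 1) 0 0 0 1 1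
  have z18 : G 1 1 1 0 1 (n1 + 1) 0 = G 0 1 1 0 1 1 (n1 + 1) := S.m1 1 0 0 1 (n1 + 1) 0
  have z19 : G 1 1 1 0 0 1 (n1 + 1) = G 0 1 1 0 1 (n1 + 1) 1 := S.m3 1 0 0 0 1 (n1 + 1)
  have z20 : G 0 1 1 1 (n1 + 2) 0 0 = G 0 1 1 1 0 0 (n1 + 2) := S.m2 0 0 1 (n1 + 2) 0 0
  have z21 : G 0 1 1 1 0 (n1 + 2) 0 = G 0 1 1 1 0 0 (n1 + 2) := S.m1 0 0 1 0 (n1 + 2) 0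
  have z22 : G (n1 + 1) 1 1 1 1 0 0 = G 0 1 1 1 0 (n1 + 1) 1 := S.m2 (n1 + 1) 0 1 1 0 0
  have z23 : G 0 (n1 + 2) 1 0 0 1 1 = 0 := S.van' 0 n1 0 0 0 1 1
  have z24 : G 1 0 1 0 (n1 + 2) 1 0 = 0 := S.van 1 0 1 0 n1 0 0
  have z25 : G 1 1 1 0 0 (n1 + 1) 1 = G 0 1 1 0 (n1 + 1) 1 1 := S.m3 1 0 0 0 (n1 + 1) 1
  have z26 : G (n1 + 1) 1 1 0 1 1 0 = G 0 1 1 0 (n1 + 1) 1 1 := S.m1 (n1 + 1) 0 0 1 1 0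
  have z27 : G 1 (n1 + 2) 1 0 0 1 0 = 0 := S.van' 1 n1 0 0 0 1 0
  have z28 : D 1 0 1 1 (n1 + 2) 0 = D 1 0 0 1 1 (n1 + 2) := S.d4 1 0 1 1 (n1 + 2) 0
  have z29 : D 1 1 1 (n1 + 2) 0 0 = D 1 0 0 1 1 (n1 + 2) := S.d3 1 1 1 (n1 + 2) 0 0
  have z30 : D 1 1 (n1 + 2) 0 0 1 = D 1 0 0 1 1 (n1 + 2) := S.d2 1 1 (n1 + 2) 0 0 1
  have z31 : D 1 0 (n1 + 2) 1 1 0 = D 1 0 0 (n1 + 2) 1 1 := S.d4 1 0 (n1 + 2) 1 1 0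
  have z32 : D 1 1 0 0 (n1 + 2) 1 = D 1 0 0 (n1 + 2) 1 1 := S.d1 1 1 0 0 (n1 + 2) 1
  have z33 : D 1 1 1 0 0 (n1 + 2) = D 1 0 0 (n1 + 2) 1 1 := S.d2 1 1 1 0 0 (n1 + 2)
  have z34 : D 1 1 0 1 0 (n1 + 2) = D 1 0 1 0 (n1 + 2) 1 := S.d1 1 1 0 1 0 (n1 + 2)
  have z35 : D 1 1 0 (n1 + 2) 1 0 = D 1 0 1 0 (n1 + 2) 1 := S.d4 1 1 0 (n1 + 2) 1 0
  have z36 : D 1 (n1 + 2) 1 0 1 0 = D 1 0 1 0 (n1 + 2) 1 := S.d2 1 (n1 + 2) 1 0 1 0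
  have z37 : D 1 0 (n1 + 2) 0 1 1 = D 1 0 1 1 0 (n1 + 2) := S.d2 1 0 (n1 + 2) 0 1 1
  have z38 : D 1 1 1 0 (n1 + 2) 0 = D 1 0 1 1 0 (n1 + 2) := S.d4 1 1 1 0 (n1 + 2) 0
  have z39 : D 1 (n1 + 2) 0 1 1 0 = D 1 0 1 1 0 (n1 + 2) := S.d1 1 (n1 + 2) 0 1 1 0
  have z40 : D 1 1 0 1 (n1 + 2) 0 = D 1 0 1 (n1 + 2) 0 1 := S.d1 1 1 0 1 (n1 + 2) 0
  have z41 : D 1 (n1 + 2) 0 1 0 1 = D 1 0 1 (n1 + 2) 0 1 := S.d3 1 (n1 + 2) 0 1 0 1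
  have z42 : D 1 1 0 0 1 (n1 + 2) = D 1 0 1 (n1 + 2) 1 0 := S.d2 1 1 0 0 1 (n1 + 2)
  have z43 : D 1 1 (n1 + 2) 1 0 0 = D 1 0 1 (n1 + 2) 1 0 := S.d4 1 1 (n1 + 2) 1 0 0
  have z44 : D (n1 + 2) 1 0 1 1 0 = D (n1 + 2) 1 0 1 0 1 := S.d3 (n1 + 2) 1 0 1 1 0
  have z45 : D (n1 + 2) 1 1 0 1 0 = D (n1 + 2) 1 0 1 0 1 := S.d1 (n1 + 2) 1 1 0 1 0
  have z46 : C 1 (n1 + 2) 0 0 1 1 = C 1 0 0 1 1 (n1 + 2) := S.c1 1 (n1 + 2) 0 0 1 1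
  have z47 : C 1 (n1 + 2) 1 0 0 1 = C 1 0 1 (n1 + 2) 1 0 := S.c3 1 (n1 + 2) 1 0 0 1
  have z48 : C 1 (n1 + 2) 0 1 0 1 = C 1 1 0 1 (n1 + 2) 0 := S.c2 1 (n1 + 2) 0 1 0 1
  have z49 : C 1 (n1 + 2) 1 0 1 0 = C 1 1 0 (n1 + 2) 1 0 := S.c3 1 (n1 + 2) 1 0 1 0
  have z50 : C 1 (n1 + 1) 1 1 1 0 = 0 := S_p4 S 0 n1 0 0 0
  have z51 : C (n1 + 1) 0 1 1 1 1 = 0 := (S.c1 (n1 + 1) 0 1 1 1 1).trans (S_p4 S n1 0 0 0 0)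
  have z52 : C (n1 + 1) 1 1 1 1 0 = 0 := S_p4 S n1 0 0 0 0
  have z53 : C (n1 + 2) 0 1 1 1 0 = C (n1 + 2) 0 0 1 1 1 := S.c4 (n1 + 2) 0 1 1 1 0
  have z54 : C (n1 + 2) 1 0 0 1 1 = C (n1 + 2) 0 0 1 1 1 := S.c1 (n1 + 2) 1 0 0 1 1
  have z55 : C (n1 + 2) 1 1 0 0 1 = C (n1 + 2) 0 0 1 1 1 := S.c2 (n1 + 2) 1 1 0 0 1
  have z56 : C (n1 + 2) 1 1 1 0 0 = C (n1 + 2) 0 0 1 1 1 := S.c3 (n1 + 2) 1 1 1 0 0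
  have z57 : C (n1 + 2) 1 0 1 1 0 = C (n1 + 2) 1 0 1 0 1 := S.c3 (n1 + 2) 1 0 1 1 0
  have z58 : C (n1 + 2) 1 1 0 1 0 = C (n1 + 2) 1 0 1 0 1 := S.c1 (n1 + 2) 1 1 0 1 0
  linear_combination (((((-1 : ℚ) * r0 + (2 : ℚ) * r1 + (2 : ℚ) * r2 + (2 : ℚ) * r3 + (-1 : ℚ) * r4 + (-1 : ℚ) * r5 + (1 : ℚ) * r6)
    + ((-1 : ℚ) * r7 + (2 : ℚ) * r8 + (1 : ℚ) * r9 + (-2 : ℚ) * r10 + (1 : ℚ) * r11 + (2 : ℚ) * r12))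
    + (((-2 : ℚ) * r13 + (-2 : ℚ) * r14 + (1 : ℚ) * r15 + (1 : ℚ) * r16 + (1 : ℚ) * r17 + (-2 : ℚ) * r18 + (-1 : ℚ) * r19)
    + ((-2 : ℚ) * r20 + (-1 : ℚ) * r21 + (1 : ℚ) * r22 + (-2 : ℚ) * r23 + (1 : ℚ) * r24 + (-1 : ℚ) * r25)))
    + ((((-1 : ℚ) * r26 + (2 : ℚ) * r27 + (2 : ℚ) * r28 + (2 : ℚ) * r29 + (1 : ℚ) * r30 + (-2 : ℚ) * r31 + (1 : ℚ) * r32)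
    + ((-2 : ℚ) * r33 + (1 : ℚ) * r34 + (-4 : ℚ) * r35 + (2 : ℚ) * r36 + (1 : ℚ) * r37 + (1 : ℚ) * r38))
    + (((-2 / 3 : ℚ) * r39 + (1 / 3 : ℚ) * r40 + (-2 / 3 : ℚ) * r41 + (-2 / 3 : ℚ) * r42 + (1 / 3 : ℚ) * r43 + (-2 / 3 : ℚ) * r44 + (1 : ℚ) * z0)
    + ((-2 : ℚ) * z1 + (-2 / 3 : ℚ) * z2 + (4 / 3 : ℚ) * z3 + (1 : ℚ) * z4 + (1 : ℚ) * z5 + (-2 : ℚ) * z6))))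
    + (((((-2 : ℚ) * z7 + (2 : ℚ) * z8 + (1 : ℚ) * z9 + (2 : ℚ) * z10 + (3 : ℚ) * z11 + (-1 : ℚ) * z12 + (-1 : ℚ) * z13)
    + ((2 : ℚ) * z14 + (1 : ℚ) * z15 + (-1 : ℚ) * z16 + (-1 : ℚ) * z17 + (-1 : ℚ) * z18 + (-2 : ℚ) * z19))
    + (((1 : ℚ) * z20 + (1 : ℚ) * z21 + (-2 : ℚ) * z22 + (-2 : ℚ) * z23 + (-1 : ℚ) * z24 + (-2 : ℚ) * z25 + (2 : ℚ) * z26)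
    + ((1 : ℚ) * z27 + (1 : ℚ) * z28 + (-1 : ℚ) * z29 + (-1 : ℚ) * z30 + (-2 : ℚ) * z31 + (2 : ℚ) * z32)))
    + ((((2 : ℚ) * z33 + (-1 : ℚ) * z34 + (2 : ℚ) * z35 + (1 : ℚ) * z36 + (1 : ℚ) * z37 + (-1 : ℚ) * z38 + (2 : ℚ) * z39)
    + ((-2 : ℚ) * z40 + (1 : ℚ) * z41 + (-1 : ℚ) * z42 + (2 : ℚ) * z43 + (2 : ℚ) * z44 + (-1 : ℚ) * z45))
    + (((-1 : ℚ) * z46 + (-1 : ℚ) * z47 + (2 : ℚ) * z48 + (2 : ℚ) * z49 + (-2 : ℚ) * z50 + (4 : ℚ) * z51 + (-2 : ℚ) * z52)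
    + ((-1 : ℚ) * z53 + (2 / 3 : ℚ) * z54 + (2 / 3 : ℚ) * z55 + (2 / 3 : ℚ) * z56 + (2 / 3 : ℚ) * z57 + (-1 / 3 : ℚ) * z58))))

theorem L_e1_g2_e1_g2_e0_e0 (S : Sys6 G C D) (n1 n3 : ℕ) : C 1 (n1 + 2) 1 (n3 + 2) 0 0 = 0 := by
  have r0 : D 1 1 1 1 (n1 + 1) (n3 + 1) = G (n3 + 1) 0 1 1 1 1 (n1 + 1) - G 1 0 1 1 1 (n1 + 1) (n3 + 1) + G 0 1 1 1 1 (n1 + 1) (n3 + 1) := S.al1' 0 0 1 1 (n1 + 1) (n3 + 1)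
  have r1 : D 1 (n1 + 1) 1 1 1 (n3 + 1) = G (n3 + 1) 0 1 (n1 + 1) 1 1 1 - G 1 0 1 (n1 + 1) 1 1 (n3 + 1) + G 0 1 1 (n1 + 1) 1 1 (n3 + 1) := S.al1' 0 0 (n1 + 1) 1 1 (n3 + 1)
  have r2 : D 1 (n1 + 1) (n3 + 2) 1 1 0 = G 0 0 1 (n1 + 1) (n3 + 2) 1 1 - G (n3 + 2) 0 1 (n1 + 1) 1 1 0 + G (n3 + 1) 1 1 (n1 + 1) 1 1 0 := S.al1' (n3 + 1) 0 (n1 + 1) 1 1 0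
  have r3 : D 1 (n3 + 1) 1 1 1 (n1 + 1) = G (n1 + 1) 0 1 (n3 + 1) 1 1 1 - G 1 0 1 (n3 + 1) 1 1 (n1 + 1) + G 0 1 1 (n3 + 1) 1 1 (n1 + 1) := S.al1' 0 0 (n3 + 1) 1 1 (n1 + 1)
  have r4 : D 1 (n3 + 1) 1 1 (n1 + 1) 1 = G 1 0 1 (n3 + 1) 1 1 (n1 + 1) - G 1 0 1 (n3 + 1) 1 (n1 + 1) 1 + G 0 1 1 (n3 + 1) 1 (n1 + 1) 1 := S.al1' 0 0 (n3 + 1) 1 (n1 + 1) 1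
  have r5 : D 1 (n3 + 1) (n1 + 2) 1 1 0 = G 0 0 1 (n3 + 1) (n1 + 2) 1 1 - G (n1 + 2) 0 1 (n3 + 1) 1 1 0 + G (n1 + 1) 1 1 (n3 + 1) 1 1 0 := S.al1' (n1 + 1) 0 (n3 + 1) 1 1 0
  have r6 : D (n1 + 1) 0 (n3 + 2) 1 1 1 = G 1 0 (n1 + 1) 0 (n3 + 2) 1 1 - G (n3 + 2) 0 (n1 + 1) 0 1 1 1 + G (n3 + 1) 1 (n1 + 1) 0 1 1 1 := S.al1' (n3 + 1) n1 0 1 1 1
  have r7 : D (n1 + 1) 1 (n3 + 2) 1 1 0 = G 0 0 (n1 + 1) 1 (n3 + 2) 1 1 - G (n3 + 2) 0 (n1 + 1) 1 1 1 0 + G (n3 + 1) 1 (n1 + 1) 1 1 1 0 := S.al1' (n3 + 1) n1 1 1 1 0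
  have r8 : D (n1 + 1) (n3 + 2) 1 1 1 0 = G 0 0 (n1 + 1) (n3 + 2) 1 1 1 - G 1 0 (n1 + 1) (n3 + 2) 1 1 0 + G 0 1 (n1 + 1) (n3 + 2) 1 1 0 := S.al1' 0 n1 (n3 + 2) 1 1 0
  have r9 : D (n3 + 1) 0 1 1 1 (n1 + 2) = G (n1 + 2) 0 (n3 + 1) 0 1 1 1 - G 1 0 (n3 + 1) 0 1 1 (n1 + 2) + G 0 1 (n3 + 1) 0 1 1 (n1 + 2) := S.al1' 0 n3 0 1 1 (n1 + 2)
  have r10 : D (n3 + 1) 0 (n1 + 2) 1 1 1 = G 1 0 (n3 + 1) 0 (n1 + 2) 1 1 - G (n1 + 2) 0 (n3 + 1) 0 1 1 1 + G (n1 + 1) 1 (n3 + 1) 0 1 1 1 := S.al1' (n1 + 1) n3 0 1 1 1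
  have r11 : D (n3 + 2) 0 0 (n1 + 2) 1 1 = G 1 0 (n3 + 2) 0 0 (n1 + 2) 1 - G 0 0 (n3 + 2) 0 (n1 + 2) 1 1 := S.al0' (n3 + 1) 0 (n1 + 2) 1 1
  have r12 : D (n3 + 2) 0 1 0 (n1 + 2) 1 = G 1 0 (n3 + 2) 0 1 0 (n1 + 2) - G 1 0 (n3 + 2) 0 0 (n1 + 2) 1 + G 0 1 (n3 + 2) 0 0 (n1 + 2) 1 := S.al1' 0 (n3 + 1) 0 0 (n1 + 2) 1
  have r13 : D (n3 + 2) 0 1 1 0 (n1 + 2) = G (n1 + 2) 0 (n3 + 2) 0 1 1 0 - G 1 0 (n3 + 2) 0 1 0 (n1 + 2) + G 0 1 (n3 + 2) 0 1 0 (n1 + 2) := S.al1' 0 (n3 + 1) 0 1 0 (n1 + 2)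
  have r14 : D (n3 + 2) 0 (n1 + 2) 1 1 0 = G 0 0 (n3 + 2) 0 (n1 + 2) 1 1 - G (n1 + 2) 0 (n3 + 2) 0 1 1 0 + G (n1 + 1) 1 (n3 + 2) 0 1 1 0 := S.al1' (n1 + 1) (n3 + 1) 0 1 1 0
  have r15 : D (n3 + 2) 1 0 1 (n1 + 2) 0 = G 0 0 (n3 + 2) 1 0 1 (n1 + 2) - G 0 0 (n3 + 2) 1 1 (n1 + 2) 0 := S.al0' (n3 + 1) 1 1 (n1 + 2) 0
  have r16 : D (n3 + 2) (n1 + 2) 0 1 0 1 = G 1 0 (n3 + 2) (n1 + 2) 0 1 0 - G 0 0 (n3 + 2) (n1 + 2) 1 0 1 := S.al0' (n3 + 1) (n1 + 2) 1 0 1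
  have r17 : D (n3 + 2) (n1 + 2) 0 1 1 0 = G 0 0 (n3 + 2) (n1 + 2) 0 1 1 - G 0 0 (n3 + 2) (n1 + 2) 1 1 0 := S.al0' (n3 + 1) (n1 + 2) 1 1 0
  have r18 : D (n3 + 2) (n1 + 2) 1 0 1 0 = G 0 0 (n3 + 2) (n1 + 2) 1 0 1 - G 1 0 (n3 + 2) (n1 + 2) 0 1 0 + G 0 1 (n3 + 2) (n1 + 2) 0 1 0 := S.al1' 0 (n3 + 1) (n1 + 2) 0 1 0
  have r19 : C 1 0 0 1 (n1 + 2) (n3 + 2) = G (n3 + 2) 0 1 (n1 + 2) 0 1 0 - G 0 1 (n1 + 2) (n3 + 2) 0 1 0 := S.al0 1 (n1 + 2) (n3 + 2) 0 0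
  have r20 : C 1 0 0 1 (n3 + 2) (n1 + 2) = G (n1 + 2) 0 1 (n3 + 2) 0 1 0 - G 0 1 (n3 + 2) (n1 + 2) 0 1 0 := S.al0 1 (n3 + 2) (n1 + 2) 0 0
  have r21 : C 1 0 0 (n1 + 2) 1 (n3 + 2) = G (n3 + 2) 0 (n1 + 2) 1 0 1 0 - G 0 (n1 + 2) 1 (n3 + 2) 0 1 0 := S.al0 (n1 + 2) 1 (n3 + 2) 0 0
  have r22 : C 1 0 0 (n1 + 2) (n3 + 2) 1 = G 1 0 (n1 + 2) (n3 + 2) 0 1 0 - G 0 (n1 + 2) (n3 + 2) 1 0 1 0 := S.al0 (n1 + 2) (n3 + 2) 1 0 0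
  have r23 : C 1 0 1 0 (n1 + 2) (n3 + 2) = G (n3 + 2) 1 0 (n1 + 2) 0 1 0 - G 1 0 (n1 + 2) (n3 + 2) 0 1 0 + G 0 0 (n1 + 2) (n3 + 2) 1 1 0 := S.al1 0 0 (n1 + 2) (n3 + 2) 0 0
  have r24 : C 1 0 1 (n1 + 2) (n3 + 2) 0 = G 0 1 (n1 + 2) (n3 + 2) 0 1 0 - G 1 (n1 + 2) (n3 + 2) 0 0 1 0 + G 0 (n1 + 2) (n3 + 2) 0 1 1 0 := S.al1 0 (n1 + 2) (n3 + 2) 0 0 0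
  have r25 : C 1 0 1 (n3 + 2) 0 (n1 + 2) = G (n1 + 2) 1 (n3 + 2) 0 0 1 0 - G 1 (n3 + 2) 0 (n1 + 2) 0 1 0 + G 0 (n3 + 2) 0 (n1 + 2) 1 1 0 := S.al1 0 (n3 + 2) 0 (n1 + 2) 0 0
  have r26 : C 1 0 1 (n3 + 2) (n1 + 2) 0 = G 0 1 (n3 + 2) (n1 + 2) 0 1 0 - G 1 (n3 + 2) (n1 + 2) 0 0 1 0 + G 0 (n3 + 2) (n1 + 2) 0 1 1 0 := S.al1 0 (n3 + 2) (n1 + 2) 0 0 0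
  have r27 : C 1 0 (n1 + 2) 0 1 (n3 + 2) = G (n3 + 2) (n1 + 2) 0 1 0 1 0 - G (n1 + 2) 0 1 (n3 + 2) 0 1 0 + G (n1 + 1) 0 1 (n3 + 2) 1 1 0 := S.al1 (n1 + 1) 0 1 (n3 + 2) 0 0
  have r28 : C 1 0 (n1 + 2) 1 (n3 + 2) 0 = G 0 (n1 + 2) 1 (n3 + 2) 0 1 0 - G (n1 + 2) 1 (n3 + 2) 0 0 1 0 + G (n1 + 1) 1 (n3 + 2) 0 1 1 0 := S.al1 (n1 + 1) 1 (n3 + 2) 0 0 0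
  have r29 : C 1 0 (n1 + 2) (n3 + 2) 0 1 = G 1 (n1 + 2) (n3 + 2) 0 0 1 0 - G (n1 + 2) (n3 + 2) 0 1 0 1 0 + G (n1 + 1) (n3 + 2) 0 1 1 1 0 := S.al1 (n1 + 1) (n3 + 2) 0 1 0 0
  have r30 : C 1 0 (n3 + 2) 0 1 (n1 + 2) = G (n1 + 2) (n3 + 2) 0 1 0 1 0 - G (n3 + 2) 0 1 (n1 + 2) 0 1 0 + G (n3 + 1) 0 1 (n1 + 2) 1 1 0 := S.al1 (n3 + 1) 0 1 (n1 + 2) 0 0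
  have r31 : C 1 0 (n3 + 2) 0 (n1 + 2) 1 = G 1 (n3 + 2) 0 (n1 + 2) 0 1 0 - G (n3 + 2) 0 (n1 + 2) 1 0 1 0 + G (n3 + 1) 0 (n1 + 2) 1 1 1 0 := S.al1 (n3 + 1) 0 (n1 + 2) 1 0 0
  have r32 : C 1 0 (n3 + 2) 1 0 (n1 + 2) = G (n1 + 2) (n3 + 2) 1 0 0 1 0 - G (n3 + 2) 1 0 (n1 + 2) 0 1 0 + G (n3 + 1) 1 0 (n1 + 2) 1 1 0 := S.al1 (n3 + 1) 1 0 (n1 + 2) 0 0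
  have r33 : C 1 0 (n3 + 2) (n1 + 2) 0 1 = G 1 (n3 + 2) (n1 + 2) 0 0 1 0 - G (n3 + 2) (n1 + 2) 0 1 0 1 0 + G (n3 + 1) (n1 + 2) 0 1 1 1 0 := S.al1 (n3 + 1) (n1 + 2) 0 1 0 0
  have r34 : C 1 1 0 0 (n1 + 2) (n3 + 2) = G (n3 + 2) 0 0 (n1 + 2) 0 1 1 - G 0 0 (n1 + 2) (n3 + 2) 0 1 1 := S.al0 0 (n1 + 2) (n3 + 2) 0 1
  have r35 : C 1 1 0 (n1 + 2) 0 (n3 + 2) = G (n3 + 2) 0 (n1 + 2) 0 0 1 1 - G 0 (n1 + 2) 0 (n3 + 2) 0 1 1 := S.al0 (n1 + 2) 0 (n3 + 2) 0 1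
  have r36 : C 1 1 0 (n1 + 2) (n3 + 2) 0 = G 0 0 (n1 + 2) (n3 + 2) 0 1 1 - G 0 (n1 + 2) (n3 + 2) 0 0 1 1 := S.al0 (n1 + 2) (n3 + 2) 0 0 1
  have r37 : C 1 1 0 (n3 + 2) 0 (n1 + 2) = G (n1 + 2) 0 (n3 + 2) 0 0 1 1 - G 0 (n3 + 2) 0 (n1 + 2) 0 1 1 := S.al0 (n3 + 2) 0 (n1 + 2) 0 1
  have r38 : C 1 1 0 (n3 + 2) (n1 + 2) 0 = G 0 0 (n3 + 2) (n1 + 2) 0 1 1 - G 0 (n3 + 2) (n1 + 2) 0 0 1 1 := S.al0 (n3 + 2) (n1 + 2) 0 0 1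
  have r39 : C 1 1 (n1 + 2) 0 (n3 + 2) 0 = G 0 (n1 + 2) 0 (n3 + 2) 0 1 1 - G (n1 + 2) 0 (n3 + 2) 0 0 1 1 + G (n1 + 1) 0 (n3 + 2) 0 1 1 1 := S.al1 (n1 + 1) 0 (n3 + 2) 0 0 1
  have r40 : C 1 1 (n1 + 2) (n3 + 2) 0 0 = G 0 (n1 + 2) (n3 + 2) 0 0 1 1 - G (n1 + 2) (n3 + 2) 0 0 0 1 1 + G (n1 + 1) (n3 + 2) 0 0 1 1 1 := S.al1 (n1 + 1) (n3 + 2) 0 0 0 1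
  have r41 : C 1 1 (n3 + 2) 0 0 (n1 + 2) = G (n1 + 2) (n3 + 2) 0 0 0 1 1 - G (n3 + 2) 0 0 (n1 + 2) 0 1 1 + G (n3 + 1) 0 0 (n1 + 2) 1 1 1 := S.al1 (n3 + 1) 0 0 (n1 + 2) 0 1
  have r42 : C 1 1 (n3 + 2) 0 (n1 + 2) 0 = G 0 (n3 + 2) 0 (n1 + 2) 0 1 1 - G (n3 + 2) 0 (n1 + 2) 0 0 1 1 + G (n3 + 1) 0 (n1 + 2) 0 1 1 1 := S.al1 (n3 + 1) 0 (n1 + 2) 0 0 1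
  have r43 : C 1 (n1 + 2) 0 0 1 (n3 + 2) = G (n3 + 2) 0 0 1 0 1 (n1 + 2) - G 0 0 1 (n3 + 2) 0 1 (n1 + 2) := S.al0 0 1 (n3 + 2) 0 (n1 + 2)
  have r44 : C 1 (n1 + 2) 0 1 0 (n3 + 2) = G (n3 + 2) 0 1 0 0 1 (n1 + 2) - G 0 1 0 (n3 + 2) 0 1 (n1 + 2) := S.al0 1 0 (n3 + 2) 0 (n1 + 2)
  have r45 : C 1 (n1 + 2) 0 1 (n3 + 2) 0 = G 0 0 1 (n3 + 2) 0 1 (n1 + 2) - G 0 1 (n3 + 2) 0 0 1 (n1 + 2) := S.al0 1 (n3 + 2) 0 0 (n1 + 2)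
  have r46 : C 1 (n1 + 2) 0 (n3 + 2) 0 1 = G 1 0 (n3 + 2) 0 0 1 (n1 + 2) - G 0 (n3 + 2) 0 1 0 1 (n1 + 2) := S.al0 (n3 + 2) 0 1 0 (n1 + 2)
  have r47 : C 1 (n1 + 2) 0 (n3 + 2) 1 0 = G 0 0 (n3 + 2) 1 0 1 (n1 + 2) - G 0 (n3 + 2) 1 0 0 1 (n1 + 2) := S.al0 (n3 + 2) 1 0 0 (n1 + 2)
  have r48 : C 1 (n1 + 2) 1 0 (n3 + 2) 0 = G 0 1 0 (n3 + 2) 0 1 (n1 + 2) - G 1 0 (n3 + 2) 0 0 1 (n1 + 2) + G 0 0 (n3 + 2) 0 1 1 (n1 + 2) := S.al1 0 0 (n3 + 2) 0 0 (n1 + 2)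
  have r49 : C 1 (n1 + 2) 1 (n3 + 2) 0 0 = G 0 1 (n3 + 2) 0 0 1 (n1 + 2) - G 1 (n3 + 2) 0 0 0 1 (n1 + 2) + G 0 (n3 + 2) 0 0 1 1 (n1 + 2) := S.al1 0 (n3 + 2) 0 0 0 (n1 + 2)
  have r50 : C 1 (n1 + 2) (n3 + 2) 0 0 1 = G 1 (n3 + 2) 0 0 0 1 (n1 + 2) - G (n3 + 2) 0 0 1 0 1 (n1 + 2) + G (n3 + 1) 0 0 1 1 1 (n1 + 2) := S.al1 (n3 + 1) 0 0 1 0 (n1 + 2)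
  have r51 : C 1 (n1 + 2) (n3 + 2) 0 1 0 = G 0 (n3 + 2) 0 1 0 1 (n1 + 2) - G (n3 + 2) 0 1 0 0 1 (n1 + 2) + G (n3 + 1) 0 1 0 1 1 (n1 + 2) := S.al1 (n3 + 1) 0 1 0 0 (n1 + 2)
  have r52 : C (n1 + 1) 1 1 1 (n3 + 1) 1 = G 1 1 1 (n3 + 1) 0 (n1 + 1) 1 - G 1 1 (n3 + 1) 1 0 (n1 + 1) 1 + G 0 1 (n3 + 1) 1 1 (n1 + 1) 1 := S.al1 0 1 (n3 + 1) 1 n1 1
  have r53 : C (n3 + 1) 1 1 1 1 (n1 + 1) = G (n1 + 1) 1 1 1 0 (n3 + 1) 1 - G 1 1 1 (n1 + 1) 0 (n3 + 1) 1 + G 0 1 1 (n1 + 1) 1 (n3 + 1) 1 := S.al1 0 1 1 (n1 + 1) n3 1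
  have z0 : G 0 0 1 (n1 + 1) (n3 + 2) 1 1 = 0 := S.van 0 0 1 (n1 + 1) n3 0 1
  have z1 : G 0 0 1 (n3 + 1) (n1 + 2) 1 1 = 0 := S.van 0 0 1 (n3 + 1) n1 0 1
  have z2 : G 0 0 (n1 + 1) 1 (n3 + 2) 1 1 = 0 := S.van 0 0 (n1 + 1) 1 n3 0 1
  have z3 : G (n1 + 1) (n3 + 2) 0 0 1 1 1 = G 0 0 (n1 + 1) (n3 + 2) 1 1 1 := S.r2 (n1 + 1) (n3 + 2) 0 0 0 1
  have z4 : G 0 0 (n1 + 2) (n3 + 2) 1 1 0 = G 0 (n1 + 2) (n3 + 2) 0 1 1 0 := S.r3 0 0 (n1 + 2) (n3 + 2) 0 0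
  have z5 : G 0 (n1 + 2) (n3 + 2) 0 1 1 0 = 0 := S.van' 0 n1 (n3 + 1) 0 1 1 0
  have z6 : G 0 (n3 + 2) 0 0 1 1 (n1 + 2) = G 0 0 0 (n3 + 2) 1 1 (n1 + 2) := S.r2 0 (n3 + 2) 0 0 0 (n1 + 2)
  have z7 : G 0 0 (n3 + 2) 0 1 1 (n1 + 2) = G 0 0 0 (n3 + 2) 1 1 (n1 + 2) := S.r1 0 0 (n3 + 2) 0 0 (n1 + 2)
  have z8 : G 0 0 (n3 + 2) 0 (n1 + 2) 1 1 = 0 := S.van 0 0 (n3 + 2) 0 n1 0 1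
  have z9 : G 0 0 (n3 + 2) 1 1 (n1 + 2) 0 = G 0 (n3 + 2) 1 0 1 (n1 + 2) 0 := S.r3 0 0 (n3 + 2) 1 (n1 + 1) 0
  have z10 : G 0 (n3 + 2) 1 0 1 (n1 + 2) 0 = 0 := S.van' 0 n3 0 0 1 (n1 + 2) 0
  have z11 : G 0 0 (n3 + 2) (n1 + 2) 1 1 0 = G 0 (n3 + 2) (n1 + 2) 0 1 1 0 := S.r3 0 0 (n3 + 2) (n1 + 2) 0 0
  have z12 : G 0 (n3 + 2) (n1 + 2) 0 1 1 0 = 0 := S.van' 0 n3 (n1 + 1) 0 1 1 0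
  have z13 : G 1 0 1 1 1 (n1 + 1) (n3 + 1) = G 0 1 1 1 1 (n1 + 1) (n3 + 1) := S.r3 1 0 1 1 n1 (n3 + 1)
  have z14 : G 0 1 1 (n1 + 1) 1 (n3 + 1) 1 = G 1 1 (n1 + 1) 0 1 (n3 + 1) 1 := S.r3 0 1 1 (n1 + 1) n3 1
  have z15 : G (n3 + 1) 1 (n1 + 1) 0 1 1 1 = G 1 1 (n1 + 1) 0 1 1 (n3 + 1) := S.m3 (n3 + 1) n1 0 1 1 1
  have z16 : G 1 1 (n1 + 1) 0 1 (n3 + 1) 1 = G 1 1 (n1 + 1) 0 1 1 (n3 + 1) := S.m1 1 n1 0 1 (n3 + 1) 1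
  have z17 : G 1 0 1 (n1 + 1) 1 1 (n3 + 1) = G 0 1 (n1 + 1) 1 1 1 (n3 + 1) := S.r3 1 0 1 (n1 + 1) 0 (n3 + 1)
  have z18 : G 0 1 (n1 + 1) 1 1 1 (n3 + 1) = G 1 1 (n1 + 1) 1 1 (n3 + 1) 0 := S.m3 0 n1 1 1 1 (n3 + 1)
  have z19 : G 0 1 1 (n1 + 1) 1 1 (n3 + 1) = G 1 1 1 (n1 + 1) 1 (n3 + 1) 0 := S.m3 0 0 (n1 + 1) 1 1 (n3 + 1)
  have z20 : G 1 1 (n1 + 1) 1 1 (n3 + 1) 0 = G (n1 + 1) 1 1 1 1 (n3 + 1) 0 := S.r2 1 1 (n1 + 1) 1 n3 0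
  have z21 : G 1 1 1 (n1 + 1) 1 (n3 + 1) 0 = G (n1 + 1) 1 1 1 1 (n3 + 1) 0 := S.r1 1 1 1 (n1 + 1) n3 0
  have z22 : G 0 1 1 (n3 + 1) 1 (n1 + 1) 1 = G 1 1 (n3 + 1) 0 1 (n1 + 1) 1 := S.r3 0 1 1 (n3 + 1) n1 1
  have z23 : G (n1 + 1) 1 (n3 + 1) 0 1 1 1 = G 1 1 (n3 + 1) 0 1 1 (n1 + 1) := S.m3 (n1 + 1) n3 0 1 1 1
  have z24 : G 1 1 (n3 + 1) 0 1 (n1 + 1) 1 = G 1 1 (n3 + 1) 0 1 1 (n1 + 1) := S.m1 1 n3 0 1 (n1 + 1) 1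
  have z25 : G 1 0 1 (n3 + 1) 1 1 (n1 + 1) = G 0 1 (n3 + 1) 1 1 1 (n1 + 1) := S.r3 1 0 1 (n3 + 1) 0 (n1 + 1)
  have z26 : G (n3 + 1) 0 1 1 1 1 (n1 + 1) = G 0 1 1 (n3 + 1) 1 1 (n1 + 1) := S.r3 (n3 + 1) 0 1 1 0 (n1 + 1)
  have z27 : G 0 1 (n3 + 1) 1 1 1 (n1 + 1) = G 1 1 (n3 + 1) 1 1 (n1 + 1) 0 := S.m3 0 n3 1 1 1 (n1 + 1)
  have z28 : G 0 1 1 (n3 + 1) 1 1 (n1 + 1) = G 1 1 1 (n3 + 1) 1 (n1 + 1) 0 := S.m3 0 0 (n3 + 1) 1 1 (n1 + 1)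
  have z29 : G 1 1 (n3 + 1) 1 1 (n1 + 1) 0 = G (n3 + 1) 1 1 1 1 (n1 + 1) 0 := S.r2 1 1 (n3 + 1) 1 n1 0
  have z30 : G 1 1 1 (n3 + 1) 1 (n1 + 1) 0 = G (n3 + 1) 1 1 1 1 (n1 + 1) 0 := S.r1 1 1 1 (n3 + 1) n1 0
  have z31 : G (n1 + 1) 1 1 1 0 (n3 + 1) 1 = G 0 1 1 1 (n3 + 1) 1 (n1 + 1) := S.m3 (n1 + 1) 0 1 0 (n3 + 1) 1
  have z32 : G (n3 + 1) 1 1 1 1 (n1 + 1) 0 = G 0 1 1 1 (n3 + 1) 1 (n1 + 1) := S.m1 (n3 + 1) 0 1 1 (n1 + 1) 0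
  have z33 : G (n3 + 2) 0 1 (n1 + 1) 1 1 0 = G 0 1 (n1 + 1) (n3 + 2) 1 1 0 := S.r3 (n3 + 2) 0 1 (n1 + 1) 0 0
  have z34 : G (n1 + 1) (n3 + 2) 0 1 1 1 0 = G 0 1 (n1 + 1) (n3 + 2) 1 1 0 := S.r2 (n1 + 1) (n3 + 2) 0 1 0 0
  have z35 : G (n3 + 1) 0 0 1 1 1 (n1 + 2) = G 0 0 1 (n3 + 1) 1 1 (n1 + 2) := S.r3 (n3 + 1) 0 0 1 0 (n1 + 2)
  have z36 : G 0 1 (n3 + 1) 0 1 1 (n1 + 2) = G 0 0 1 (n3 + 1) 1 1 (n1 + 2) := S.r1 0 1 (n3 + 1) 0 0 (n1 + 2)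
  have z37 : G 1 0 1 (n3 + 1) 1 (n1 + 1) 1 = G 0 1 (n3 + 1) 1 1 (n1 + 1) 1 := S.r3 1 0 1 (n3 + 1) n1 1
  have z38 : G 0 1 (n3 + 2) 0 0 (n1 + 2) 1 = G 0 1 (n3 + 2) 0 (n1 + 2) 1 0 := S.m3 0 (n3 + 1) 0 0 (n1 + 2) 1
  have z39 : G 0 1 (n3 + 2) 0 (n1 + 2) 1 0 = 0 := S.van 0 1 (n3 + 2) 0 n1 0 0
  have z40 : G (n1 + 2) 1 (n3 + 2) 0 0 1 0 = G 0 1 (n3 + 2) 0 1 0 (n1 + 2) := S.m3 (n1 + 2) (n3 + 1) 0 0 1 0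
  have z41 : G 0 (n1 + 2) 1 (n3 + 2) 0 1 0 = 0 := S.van' 0 n1 0 (n3 + 2) 0 1 0
  have z42 : G 0 (n1 + 2) (n3 + 2) 1 0 1 0 = 0 := S.van' 0 n1 (n3 + 1) 1 0 1 0
  have z43 : G 0 (n3 + 2) 0 (n1 + 2) 1 1 0 = G 0 (n1 + 2) 0 (n3 + 2) 1 1 0 := S.r2 0 (n3 + 2) 0 (n1 + 2) 0 0
  have z44 : G (n1 + 2) 0 (n3 + 2) 0 1 1 0 = G 0 (n1 + 2) 0 (n3 + 2) 1 1 0 := S.r1 (n1 + 2) 0 (n3 + 2) 0 0 0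
  have z45 : G 0 (n3 + 2) 1 0 0 1 (n1 + 2) = 0 := S.van' 0 n3 0 0 0 1 (n1 + 2)
  have z46 : G 0 (n3 + 2) (n1 + 2) 0 0 1 1 = 0 := S.van' 0 n3 (n1 + 1) 0 0 1 1
  have z47 : G 1 0 (n1 + 1) 0 (n3 + 2) 1 1 = 0 := S.van 1 0 (n1 + 1) 0 n3 0 1
  have z48 : G 1 0 (n1 + 1) (n3 + 2) 1 1 0 = G (n1 + 1) (n3 + 2) 1 0 1 1 0 := S.r2 1 0 (n1 + 1) (n3 + 2) 0 0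
  have z49 : G (n1 + 1) (n3 + 2) 1 0 1 1 0 = 0 := S.van' (n1 + 1) n3 0 0 1 1 0
  have z50 : G (n3 + 1) 0 1 0 1 1 (n1 + 2) = G 0 1 0 (n3 + 1) 1 1 (n1 + 2) := S.r3 (n3 + 1) 0 1 0 0 (n1 + 2)
  have z51 : G 1 0 (n3 + 1) 0 1 1 (n1 + 2) = G 0 1 0 (n3 + 1) 1 1 (n1 + 2) := S.r1 1 0 (n3 + 1) 0 0 (n1 + 2)
  have z52 : G 1 0 (n3 + 1) 0 (n1 + 2) 1 1 = 0 := S.van 1 0 (n3 + 1) 0 n1 0 1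
  have z53 : G (n3 + 1) 0 1 (n1 + 1) 1 1 1 = G 0 1 (n1 + 1) (n3 + 1) 1 1 1 := S.r3 (n3 + 1) 0 1 (n1 + 1) 0 1
  have z54 : G 0 1 (n1 + 1) (n3 + 1) 1 1 1 = G 1 1 (n1 + 1) (n3 + 1) 1 1 0 := S.m3 0 n1 (n3 + 1) 1 1 1
  have z55 : G 1 1 (n1 + 1) (n3 + 1) 1 1 0 = G (n3 + 1) 1 1 (n1 + 1) 1 1 0 := S.r1 1 1 (n1 + 1) (n3 + 1) 0 0
  have z56 : G 1 1 1 (n1 + 1) 0 (n3 + 1) 1 = G 0 1 1 (n1 + 1) (n3 + 1) 1 1 := S.m3 1 0 (n1 + 1) 0 (n3 + 1) 1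
  have z57 : G (n3 + 1) 1 1 (n1 + 1) 1 1 0 = G 0 1 1 (n1 + 1) (n3 + 1) 1 1 := S.m1 (n3 + 1) 0 (n1 + 1) 1 1 0
  have z58 : G (n1 + 1) 0 1 (n3 + 1) 1 1 1 = G 0 1 (n3 + 1) (n1 + 1) 1 1 1 := S.r3 (n1 + 1) 0 1 (n3 + 1) 0 1
  have z59 : G 0 1 (n3 + 1) (n1 + 1) 1 1 1 = G 1 1 (n3 + 1) (n1 + 1) 1 1 0 := S.m3 0 n3 (n1 + 1) 1 1 1
  have z60 : G 1 1 (n3 + 1) (n1 + 1) 1 1 0 = G (n1 + 1) 1 1 (n3 + 1) 1 1 0 := S.r1 1 1 (n3 + 1) (n1 + 1) 0 0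
  have z61 : G 1 1 1 (n3 + 1) 0 (n1 + 1) 1 = G 0 1 1 (n3 + 1) (n1 + 1) 1 1 := S.m3 1 0 (n3 + 1) 0 (n1 + 1) 1
  have z62 : G (n1 + 1) 1 1 (n3 + 1) 1 1 0 = G 0 1 1 (n3 + 1) (n1 + 1) 1 1 := S.m1 (n1 + 1) 0 (n3 + 1) 1 1 0
  have z63 : G 1 1 (n3 + 1) 1 0 (n1 + 1) 1 = G (n1 + 1) 1 (n3 + 1) 1 1 1 0 := S.m2 1 n3 1 0 (n1 + 1) 1
  have z64 : G (n1 + 1) 1 (n3 + 1) 1 1 1 0 = G (n3 + 1) 1 (n1 + 1) 1 1 1 0 := S.r2 (n1 + 1) 1 (n3 + 1) 1 0 0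
  have z65 : G 1 (n3 + 2) (n1 + 2) 0 0 1 0 = 0 := S.van' 1 n3 (n1 + 1) 0 0 1 0
  have z66 : G (n1 + 1) 0 1 (n3 + 2) 1 1 0 = G 1 (n3 + 2) (n1 + 1) 0 1 1 0 := S.r2 (n1 + 1) 0 1 (n3 + 2) 0 0
  have z67 : G 1 (n3 + 2) (n1 + 1) 0 1 1 0 = 0 := S.van' 1 n3 n1 0 1 1 0
  have z68 : G (n3 + 2) 0 (n1 + 1) 0 1 1 1 = G 0 (n1 + 1) 0 (n3 + 2) 1 1 1 := S.r3 (n3 + 2) 0 (n1 + 1) 0 0 1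
  have z69 : G (n1 + 1) 0 (n3 + 2) 0 1 1 1 = G 0 (n1 + 1) 0 (n3 + 2) 1 1 1 := S.r1 (n1 + 1) 0 (n3 + 2) 0 0 1
  have z70 : G (n3 + 2) 0 (n1 + 1) 1 1 1 0 = G (n1 + 1) 1 (n3 + 2) 0 1 1 0 := S.r2 (n3 + 2) 0 (n1 + 1) 1 0 0
  have z71 : G (n1 + 2) 0 1 (n3 + 1) 1 1 0 = G 0 1 (n3 + 1) (n1 + 2) 1 1 0 := S.r3 (n1 + 2) 0 1 (n3 + 1) 0 0
  have z72 : G (n3 + 1) (n1 + 2) 0 1 1 1 0 = G 0 1 (n3 + 1) (n1 + 2) 1 1 0 := S.r2 (n3 + 1) (n1 + 2) 0 1 0 0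
  have z73 : G (n3 + 1) 0 (n1 + 2) 0 1 1 1 = G 0 (n1 + 2) 0 (n3 + 1) 1 1 1 := S.r3 (n3 + 1) 0 (n1 + 2) 0 0 1
  have z74 : G (n1 + 2) 0 (n3 + 1) 0 1 1 1 = G 0 (n1 + 2) 0 (n3 + 1) 1 1 1 := S.r1 (n1 + 2) 0 (n3 + 1) 0 0 1
  have z75 : G (n1 + 2) (n3 + 2) 1 0 0 1 0 = 0 := S.van' (n1 + 2) n3 0 0 0 1 0
  have z76 : G (n3 + 1) 0 0 (n1 + 2) 1 1 1 = G 0 (n1 + 2) (n3 + 1) 0 1 1 1 := S.r2 (n3 + 1) 0 0 (n1 + 2) 0 1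
  have z77 : G 0 (n1 + 2) (n3 + 1) 0 1 1 1 = 0 := S.van' 0 n1 n3 0 1 1 1
  have z78 : G (n3 + 1) 0 1 (n1 + 2) 1 1 0 = G 1 (n1 + 2) (n3 + 1) 0 1 1 0 := S.r2 (n3 + 1) 0 1 (n1 + 2) 0 0
  have z79 : G 1 (n1 + 2) (n3 + 1) 0 1 1 0 = 0 := S.van' 1 n1 n3 0 1 1 0
  have z80 : G (n3 + 1) 0 (n1 + 2) 1 1 1 0 = G 0 (n1 + 2) 1 (n3 + 1) 1 1 0 := S.r3 (n3 + 1) 0 (n1 + 2) 1 0 0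
  have z81 : G 0 (n1 + 2) 1 (n3 + 1) 1 1 0 = 0 := S.van' 0 n1 0 (n3 + 1) 1 1 0
  have z82 : G (n3 + 1) 1 0 (n1 + 2) 1 1 0 = G 0 (n1 + 2) (n3 + 1) 1 1 1 0 := S.r2 (n3 + 1) 1 0 (n1 + 2) 0 0
  have z83 : G 0 (n1 + 2) (n3 + 1) 1 1 1 0 = 0 := S.van' 0 n1 n3 1 1 1 0
  have z84 : D 1 1 1 1 (n1 + 1) (n3 + 1) = 0 := S_p5 S.mirror 0 0 0 0 n1 n3
  have z85 : D 1 (n3 + 1) 1 1 1 (n1 + 1) = 0 := S_p5 S.mirror 0 n3 0 0 0 n1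
  have z86 : D 1 (n1 + 1) 1 1 1 (n3 + 1) = 0 := S_p5 S.mirror 0 n1 0 0 0 n3
  have z87 : D 1 (n1 + 1) (n3 + 2) 1 1 0 = 0 := S_p4 S.mirror 0 n1 (n3 + 1) 0 0
  have z88 : D 1 (n3 + 1) 1 1 (n1 + 1) 1 = 0 := S_p5 S.mirror 0 n3 0 0 n1 0
  have z89 : D 1 (n3 + 1) (n1 + 2) 1 1 0 = 0 := S_p4 S.mirror 0 n3 (n1 + 1) 0 0
  have z90 : D (n1 + 1) 0 (n3 + 2) 1 1 1 = 0 := (S.d1 (n1 + 1) 0 (n3 + 2) 1 1 1).trans (S_p4 S.mirror n1 (n3 + 1) 0 0 0)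
  have z91 : D (n1 + 1) (n3 + 2) 1 1 1 0 = 0 := S_p4 S.mirror n1 (n3 + 1) 0 0 0
  have z92 : D (n1 + 1) 1 (n3 + 2) 1 1 0 = 0 := S_p4 S.mirror n1 0 (n3 + 1) 0 0
  have z93 : D (n3 + 1) 0 1 1 1 (n1 + 2) = 0 := (S.d1 (n3 + 1) 0 1 1 1 (n1 + 2)).trans (S_p4 S.mirror n3 0 0 0 (n1 + 1))
  have z94 : D (n3 + 1) 0 (n1 + 2) 1 1 1 = 0 := (S.d1 (n3 + 1) 0 (n1 + 2) 1 1 1).trans (S_p4 S.mirror n3 (n1 + 1) 0 0 0)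
  have z95 : D (n3 + 2) 0 (n1 + 2) 1 1 0 = D (n3 + 2) 0 0 (n1 + 2) 1 1 := S.d4 (n3 + 2) 0 (n1 + 2) 1 1 0
  have z96 : D (n3 + 2) (n1 + 2) 1 0 1 0 = D (n3 + 2) 0 1 0 (n1 + 2) 1 := S.d2 (n3 + 2) (n1 + 2) 1 0 1 0
  have z97 : D (n3 + 2) (n1 + 2) 0 1 1 0 = D (n3 + 2) 0 1 1 0 (n1 + 2) := S.d1 (n3 + 2) (n1 + 2) 0 1 1 0
  have z98 : D (n3 + 2) (n1 + 2) 0 1 0 1 = D (n3 + 2) 1 0 1 (n1 + 2) 0 := S.d2 (n3 + 2) (n1 + 2) 0 1 0 1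
  have z99 : C 1 0 1 (n1 + 2) (n3 + 2) 0 = C 1 0 0 1 (n1 + 2) (n3 + 2) := S.c4 1 0 1 (n1 + 2) (n3 + 2) 0
  have z100 : C 1 1 (n1 + 2) (n3 + 2) 0 0 = C 1 0 0 1 (n1 + 2) (n3 + 2) := S.c3 1 1 (n1 + 2) (n3 + 2) 0 0
  have z101 : C 1 (n1 + 2) (n3 + 2) 0 0 1 = C 1 0 0 1 (n1 + 2) (n3 + 2) := S.c2 1 (n1 + 2) (n3 + 2) 0 0 1
  have z102 : C 1 0 1 (n3 + 2) (n1 + 2) 0 = C 1 0 0 1 (n3 + 2) (n1 + 2) := S.c4 1 0 1 (n3 + 2) (n1 + 2) 0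
  have z103 : C 1 (n1 + 2) 0 0 1 (n3 + 2) = C 1 0 0 1 (n3 + 2) (n1 + 2) := S.c1 1 (n1 + 2) 0 0 1 (n3 + 2)
  have z104 : C 1 0 (n1 + 2) 1 (n3 + 2) 0 = C 1 0 0 (n1 + 2) 1 (n3 + 2) := S.c4 1 0 (n1 + 2) 1 (n3 + 2) 0
  have z105 : C 1 1 (n3 + 2) 0 0 (n1 + 2) = C 1 0 0 (n1 + 2) 1 (n3 + 2) := S.c2 1 1 (n3 + 2) 0 0 (n1 + 2)
  have z106 : C 1 (n1 + 2) 1 (n3 + 2) 0 0 = C 1 0 0 (n1 + 2) 1 (n3 + 2) := S.c3 1 (n1 + 2) 1 (n3 + 2) 0 0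
  have z107 : C 1 0 0 (n1 + 2) (n3 + 2) 1 = 0 := (S.c2 1 0 0 (n1 + 2) (n3 + 2) 1).trans (L_g1_g2_g2_g1_e0_e0 S 0 n1 n3 0)
  have z108 : C 1 1 0 0 (n1 + 2) (n3 + 2) = 0 := (S.c3 1 1 0 0 (n1 + 2) (n3 + 2)).trans (L_g1_g2_g2_g1_e0_e0 S 0 n1 n3 0)
  have z109 : C 1 0 (n1 + 2) (n3 + 2) 0 1 = C 1 0 1 0 (n1 + 2) (n3 + 2) := S.c3 1 0 (n1 + 2) (n3 + 2) 0 1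
  have z110 : C 1 1 0 (n1 + 2) (n3 + 2) 0 = C 1 0 1 0 (n1 + 2) (n3 + 2) := S.c4 1 1 0 (n1 + 2) (n3 + 2) 0
  have z111 : C 1 (n1 + 2) (n3 + 2) 0 1 0 = C 1 0 1 0 (n1 + 2) (n3 + 2) := S.c2 1 (n1 + 2) (n3 + 2) 0 1 0
  have z112 : C 1 0 (n1 + 2) 0 1 (n3 + 2) = C 1 0 1 (n3 + 2) 0 (n1 + 2) := S.c2 1 0 (n1 + 2) 0 1 (n3 + 2)
  have z113 : C 1 1 (n3 + 2) 0 (n1 + 2) 0 = C 1 0 1 (n3 + 2) 0 (n1 + 2) := S.c4 1 1 (n3 + 2) 0 (n1 + 2) 0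
  have z114 : C 1 (n1 + 2) 0 1 (n3 + 2) 0 = C 1 0 1 (n3 + 2) 0 (n1 + 2) := S.c1 1 (n1 + 2) 0 1 (n3 + 2) 0
  have z115 : C 1 1 (n1 + 2) 0 (n3 + 2) 0 = C 1 0 (n3 + 2) 0 1 (n1 + 2) := S.c2 1 1 (n1 + 2) 0 (n3 + 2) 0
  have z116 : C 1 (n1 + 2) 0 (n3 + 2) 0 1 = C 1 0 (n3 + 2) 0 1 (n1 + 2) := S.c1 1 (n1 + 2) 0 (n3 + 2) 0 1
  have z117 : C 1 1 0 (n3 + 2) 0 (n1 + 2) = C 1 0 (n3 + 2) 0 (n1 + 2) 1 := S.c1 1 1 0 (n3 + 2) 0 (n1 + 2)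
  have z118 : C 1 (n1 + 2) 1 0 (n3 + 2) 0 = C 1 0 (n3 + 2) 0 (n1 + 2) 1 := S.c2 1 (n1 + 2) 1 0 (n3 + 2) 0
  have z119 : C 1 1 0 (n1 + 2) 0 (n3 + 2) = C 1 0 (n3 + 2) 1 0 (n1 + 2) := S.c3 1 1 0 (n1 + 2) 0 (n3 + 2)
  have z120 : C 1 (n1 + 2) 0 (n3 + 2) 1 0 = C 1 0 (n3 + 2) 1 0 (n1 + 2) := S.c1 1 (n1 + 2) 0 (n3 + 2) 1 0
  have z121 : C 1 1 0 (n3 + 2) (n1 + 2) 0 = C 1 0 (n3 + 2) (n1 + 2) 0 1 := S.c1 1 1 0 (n3 + 2) (n1 + 2) 0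
  have z122 : C 1 (n1 + 2) 0 1 0 (n3 + 2) = C 1 0 (n3 + 2) (n1 + 2) 0 1 := S.c3 1 (n1 + 2) 0 1 0 (n3 + 2)
  have z123 : C (n1 + 1) 1 1 1 (n3 + 1) 1 = 0 := S_p5 S n1 0 0 0 n3 0
  have z124 : C (n3 + 1) 1 1 1 1 (n1 + 1) = 0 := S_p5 S n3 0 0 0 0 n1
  linear_combination ((((((13 / 3 : ℚ) * r0 + (10 / 3 : ℚ) * r1 + (-17 / 3 : ℚ) * r2 + (8 / 3 : ℚ) * r3 + (-2 : ℚ) * r4 + (-2 / 3 : ℚ) * r5)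
    + ((7 / 3 : ℚ) * r6 + (-2 : ℚ) * r7 + (-11 / 3 : ℚ) * r8 + (-1 / 3 : ℚ) * r9 + (2 : ℚ) * r10 + (1 : ℚ) * r11))
    + (((1 : ℚ) * r12 + (1 : ℚ) * r13 + (-1 : ℚ) * r14 + (1 : ℚ) * r15 + (-1 : ℚ) * r16 + (-1 : ℚ) * r17)
    + ((-1 : ℚ) * r18 + (-2 : ℚ) * r19 + (-2 / 3 : ℚ) * r20 + (-2 : ℚ) * r21 + (-4 / 3 : ℚ) * r22)))
    + ((((-4 / 3 : ℚ) * r23 + (-2 : ℚ) * r24 + (-2 : ℚ) * r25 + (1 / 3 : ℚ) * r26 + (-2 / 3 : ℚ) * r27 + (-1 : ℚ) * r28)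
    + ((-2 : ℚ) * r29 + (-2 : ℚ) * r30 + (-2 : ℚ) * r31 + (-4 / 3 : ℚ) * r32 + (-2 / 3 : ℚ) * r33))
    + (((11 / 3 : ℚ) * r34 + (7 / 3 : ℚ) * r35 + (11 / 3 : ℚ) * r36 + (7 / 3 : ℚ) * r37 + (1 : ℚ) * r38 + (7 / 3 : ℚ) * r39)
    + ((11 / 3 : ℚ) * r40 + (11 / 3 : ℚ) * r41 + (7 / 3 : ℚ) * r42 + (1 / 3 : ℚ) * r43 + (-1 / 3 : ℚ) * r44))))
    + (((((1 / 3 : ℚ) * r45 + (-1 / 3 : ℚ) * r46 + (-1 : ℚ) * r47 + (-1 / 3 : ℚ) * r48 + (1 / 3 : ℚ) * r49 + (1 / 3 : ℚ) * r50)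
    + ((-1 / 3 : ℚ) * r51 + (-2 : ℚ) * r52 + (-7 / 3 : ℚ) * r53 + (-17 / 3 : ℚ) * z0 + (-2 / 3 : ℚ) * z1 + (-2 : ℚ) * z2))
    + (((11 / 3 : ℚ) * z3 + (-4 / 3 : ℚ) * z4 + (-10 / 3 : ℚ) * z5 + (1 / 3 : ℚ) * z6 + (-1 / 3 : ℚ) * z7 + (-2 : ℚ) * z8)
    + ((-1 : ℚ) * z9 + (-1 : ℚ) * z10 + (1 : ℚ) * z11 + (4 / 3 : ℚ) * z12 + (-13 / 3 : ℚ) * z13)))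
    + ((((-7 / 3 : ℚ) * z14 + (7 / 3 : ℚ) * z15 + (-7 / 3 : ℚ) * z16 + (-10 / 3 : ℚ) * z17 + (-10 / 3 : ℚ) * z18 + (10 / 3 : ℚ) * z19)
    + ((-10 / 3 : ℚ) * z20 + (10 / 3 : ℚ) * z21 + (-2 : ℚ) * z22 + (2 : ℚ) * z23 + (-2 : ℚ) * z24))
    + (((-14 / 3 : ℚ) * z25 + (13 / 3 : ℚ) * z26 + (-14 / 3 : ℚ) * z27 + (7 : ℚ) * z28 + (-14 / 3 : ℚ) * z29 + (7 : ℚ) * z30)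
    + ((-7 / 3 : ℚ) * z31 + (7 / 3 : ℚ) * z32 + (17 / 3 : ℚ) * z33 + (-2 : ℚ) * z34 + (1 / 3 : ℚ) * z35)))))
    + ((((((-1 / 3 : ℚ) * z36 + (2 : ℚ) * z37 + (1 : ℚ) * z38 + (1 : ℚ) * z39 + (-1 : ℚ) * z40 + (1 : ℚ) * z41)
    + ((4 / 3 : ℚ) * z42 + (-2 : ℚ) * z43 + (2 : ℚ) * z44 + (1 : ℚ) * z45 + (-1 : ℚ) * z46 + (7 / 3 : ℚ) * z47))
    + (((11 / 3 : ℚ) * z48 + (11 / 3 : ℚ) * z49 + (-1 / 3 : ℚ) * z50 + (1 / 3 : ℚ) * z51 + (2 : ℚ) * z52 + (10 / 3 : ℚ) * z53)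
    + ((10 / 3 : ℚ) * z54 + (10 / 3 : ℚ) * z55 + (7 / 3 : ℚ) * z56 + (-7 / 3 : ℚ) * z57 + (8 / 3 : ℚ) * z58)))
    + ((((8 / 3 : ℚ) * z59 + (8 / 3 : ℚ) * z60 + (-2 : ℚ) * z61 + (2 : ℚ) * z62 + (2 : ℚ) * z63 + (2 : ℚ) * z64)
    + ((-1 : ℚ) * z65 + (-2 / 3 : ℚ) * z66 + (-2 / 3 : ℚ) * z67 + (-7 / 3 : ℚ) * z68 + (7 / 3 : ℚ) * z69))
    + (((2 : ℚ) * z70 + (2 / 3 : ℚ) * z71 + (-2 / 3 : ℚ) * z72 + (7 / 3 : ℚ) * z73 + (-7 / 3 : ℚ) * z74 + (-4 / 3 : ℚ) * z75)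
    + ((11 / 3 : ℚ) * z76 + (11 / 3 : ℚ) * z77 + (-2 : ℚ) * z78 + (-2 : ℚ) * z79 + (-2 : ℚ) * z80))))
    + (((((-2 : ℚ) * z81 + (-4 / 3 : ℚ) * z82 + (-4 / 3 : ℚ) * z83 + (-13 / 3 : ℚ) * z84 + (-8 / 3 : ℚ) * z85 + (-10 / 3 : ℚ) * z86)
    + ((17 / 3 : ℚ) * z87 + (2 : ℚ) * z88 + (2 / 3 : ℚ) * z89 + (-7 / 3 : ℚ) * z90 + (11 / 3 : ℚ) * z91))
    + (((2 : ℚ) * z92 + (1 / 3 : ℚ) * z93 + (-2 : ℚ) * z94 + (1 : ℚ) * z95 + (1 : ℚ) * z96 + (1 : ℚ) * z97)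
    + ((1 : ℚ) * z98 + (2 : ℚ) * z99 + (-11 / 3 : ℚ) * z100 + (-1 / 3 : ℚ) * z101 + (-1 / 3 : ℚ) * z102)))
    + ((((-1 / 3 : ℚ) * z103 + (1 : ℚ) * z104 + (-11 / 3 : ℚ) * z105 + (2 / 3 : ℚ) * z106 + (4 / 3 : ℚ) * z107 + (-11 / 3 : ℚ) * z108)
    + ((2 : ℚ) * z109 + (-11 / 3 : ℚ) * z110 + (1 / 3 : ℚ) * z111 + (2 / 3 : ℚ) * z112 + (-7 / 3 : ℚ) * z113))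
    + (((-1 / 3 : ℚ) * z114 + (-7 / 3 : ℚ) * z115 + (1 / 3 : ℚ) * z116 + (-7 / 3 : ℚ) * z117 + (1 / 3 : ℚ) * z118 + (-7 / 3 : ℚ) * z119)
    + ((1 : ℚ) * z120 + (-1 : ℚ) * z121 + (1 / 3 : ℚ) * z122 + (2 : ℚ) * z123 + (7 / 3 : ℚ) * z124)))))

theorem L_g2_e1_e1_e1_e0_e0 (S : Sys6 G C D) (n6 : ℕ) : C (n6 + 2) 1 1 1 0 0 = 0 := by
  have r0 : C (n6 + 2) 0 0 0 0 3 = G 3 0 0 0 0 (n6 + 2) 0 - G 0 0 0 3 0 (n6 + 2) 0 := S.al0 0 0 3 (n6 + 1) 0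
  have r1 : C (n6 + 2) 0 0 0 1 2 = G 2 0 0 1 0 (n6 + 2) 0 - G 0 0 1 2 0 (n6 + 2) 0 := S.al0 0 1 2 (n6 + 1) 0
  have r2 : C (n6 + 2) 0 0 0 2 1 = G 1 0 0 2 0 (n6 + 2) 0 - G 0 0 2 1 0 (n6 + 2) 0 := S.al0 0 2 1 (n6 + 1) 0
  have r3 : C (n6 + 2) 0 0 0 3 0 = G 0 0 0 3 0 (n6 + 2) 0 - G 0 0 3 0 0 (n6 + 2) 0 := S.al0 0 3 0 (n6 + 1) 0
  have r4 : C (n6 + 2) 0 0 1 0 2 = G 2 0 1 0 0 (n6 + 2) 0 - G 0 1 0 2 0 (n6 + 2) 0 := S.al0 1 0 2 (n6 + 1) 0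
  have r5 : C (n6 + 2) 0 0 1 1 1 = G 1 0 1 1 0 (n6 + 2) 0 - G 0 1 1 1 0 (n6 + 2) 0 := S.al0 1 1 1 (n6 + 1) 0
  have r6 : C (n6 + 2) 0 0 1 2 0 = G 0 0 1 2 0 (n6 + 2) 0 - G 0 1 2 0 0 (n6 + 2) 0 := S.al0 1 2 0 (n6 + 1) 0
  have r7 : C (n6 + 2) 0 0 2 0 1 = G 1 0 2 0 0 (n6 + 2) 0 - G 0 2 0 1 0 (n6 + 2) 0 := S.al0 2 0 1 (n6 + 1) 0
  have r8 : C (n6 + 2) 0 0 2 1 0 = G 0 0 2 1 0 (n6 + 2) 0 - G 0 2 1 0 0 (n6 + 2) 0 := S.al0 2 1 0 (n6 + 1) 0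
  have r9 : C (n6 + 2) 0 0 3 0 0 = G 0 0 3 0 0 (n6 + 2) 0 - G 0 3 0 0 0 (n6 + 2) 0 := S.al0 3 0 0 (n6 + 1) 0
  have r10 : C (n6 + 2) 0 1 0 0 2 = G 2 1 0 0 0 (n6 + 2) 0 - G 1 0 0 2 0 (n6 + 2) 0 + G 0 0 0 2 1 (n6 + 2) 0 := S.al1 0 0 0 2 (n6 + 1) 0
  have r11 : C (n6 + 2) 0 1 0 1 1 = G 1 1 0 1 0 (n6 + 2) 0 - G 1 0 1 1 0 (n6 + 2) 0 + G 0 0 1 1 1 (n6 + 2) 0 := S.al1 0 0 1 1 (n6 + 1) 0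
  have r12 : C (n6 + 2) 0 1 0 2 0 = G 0 1 0 2 0 (n6 + 2) 0 - G 1 0 2 0 0 (n6 + 2) 0 + G 0 0 2 0 1 (n6 + 2) 0 := S.al1 0 0 2 0 (n6 + 1) 0
  have r13 : C (n6 + 2) 0 1 1 0 1 = G 1 1 1 0 0 (n6 + 2) 0 - G 1 1 0 1 0 (n6 + 2) 0 + G 0 1 0 1 1 (n6 + 2) 0 := S.al1 0 1 0 1 (n6 + 1) 0
  have r14 : C (n6 + 2) 0 1 1 1 0 = G 0 1 1 1 0 (n6 + 2) 0 - G 1 1 1 0 0 (n6 + 2) 0 + G 0 1 1 0 1 (n6 + 2) 0 := S.al1 0 1 1 0 (n6 + 1) 0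
  have r15 : C (n6 + 2) 0 1 2 0 0 = G 0 1 2 0 0 (n6 + 2) 0 - G 1 2 0 0 0 (n6 + 2) 0 + G 0 2 0 0 1 (n6 + 2) 0 := S.al1 0 2 0 0 (n6 + 1) 0
  have r16 : C (n6 + 2) 0 2 0 0 1 = G 1 2 0 0 0 (n6 + 2) 0 - G 2 0 0 1 0 (n6 + 2) 0 + G 1 0 0 1 1 (n6 + 2) 0 := S.al1 1 0 0 1 (n6 + 1) 0
  have r17 : C (n6 + 2) 0 2 0 1 0 = G 0 2 0 1 0 (n6 + 2) 0 - G 2 0 1 0 0 (n6 + 2) 0 + G 1 0 1 0 1 (n6 + 2) 0 := S.al1 1 0 1 0 (n6 + 1) 0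
  have r18 : C (n6 + 2) 0 2 1 0 0 = G 0 2 1 0 0 (n6 + 2) 0 - G 2 1 0 0 0 (n6 + 2) 0 + G 1 1 0 0 1 (n6 + 2) 0 := S.al1 1 1 0 0 (n6 + 1) 0
  have r19 : C (n6 + 2) 0 3 0 0 0 = G 0 3 0 0 0 (n6 + 2) 0 - G 3 0 0 0 0 (n6 + 2) 0 + G 2 0 0 0 1 (n6 + 2) 0 := S.al1 2 0 0 0 (n6 + 1) 0
  have r20 : C (n6 + 2) 1 0 0 0 2 = G 2 0 0 0 0 (n6 + 2) 1 - G 0 0 0 2 0 (n6 + 2) 1 := S.al0 0 0 2 (n6 + 1) 1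
  have r21 : C (n6 + 2) 1 0 0 1 1 = G 1 0 0 1 0 (n6 + 2) 1 - G 0 0 1 1 0 (n6 + 2) 1 := S.al0 0 1 1 (n6 + 1) 1
  have r22 : C (n6 + 2) 1 0 0 2 0 = G 0 0 0 2 0 (n6 + 2) 1 - G 0 0 2 0 0 (n6 + 2) 1 := S.al0 0 2 0 (n6 + 1) 1
  have r23 : C (n6 + 2) 1 0 1 0 1 = G 1 0 1 0 0 (n6 + 2) 1 - G 0 1 0 1 0 (n6 + 2) 1 := S.al0 1 0 1 (n6 + 1) 1
  have r24 : C (n6 + 2) 1 0 1 1 0 = G 0 0 1 1 0 (n6 + 2) 1 - G 0 1 1 0 0 (n6 + 2) 1 := S.al0 1 1 0 (n6 + 1) 1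
  have r25 : C (n6 + 2) 1 0 2 0 0 = G 0 0 2 0 0 (n6 + 2) 1 - G 0 2 0 0 0 (n6 + 2) 1 := S.al0 2 0 0 (n6 + 1) 1
  have r26 : C (n6 + 2) 1 1 0 0 1 = G 1 1 0 0 0 (n6 + 2) 1 - G 1 0 0 1 0 (n6 + 2) 1 + G 0 0 0 1 1 (n6 + 2) 1 := S.al1 0 0 0 1 (n6 + 1) 1
  have r27 : C (n6 + 2) 1 1 0 1 0 = G 0 1 0 1 0 (n6 + 2) 1 - G 1 0 1 0 0 (n6 + 2) 1 + G 0 0 1 0 1 (n6 + 2) 1 := S.al1 0 0 1 0 (n6 + 1) 1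
  have r28 : C (n6 + 2) 1 1 1 0 0 = G 0 1 1 0 0 (n6 + 2) 1 - G 1 1 0 0 0 (n6 + 2) 1 + G 0 1 0 0 1 (n6 + 2) 1 := S.al1 0 1 0 0 (n6 + 1) 1
  have r29 : C (n6 + 2) 1 2 0 0 0 = G 0 2 0 0 0 (n6 + 2) 1 - G 2 0 0 0 0 (n6 + 2) 1 + G 1 0 0 0 1 (n6 + 2) 1 := S.al1 1 0 0 0 (n6 + 1) 1
  have r30 : C (n6 + 2) 3 0 0 0 0 = G 0 0 0 0 0 (n6 + 2) 3 - G 0 0 0 0 0 (n6 + 2) 3 := S.al0 0 0 0 (n6 + 1) 3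
  have z0 : G 1 0 0 0 1 (n6 + 2) 1 = G 0 0 0 1 1 (n6 + 2) 1 := S.r3 1 0 0 0 (n6 + 1) 1
  have z1 : G 0 1 0 0 1 (n6 + 2) 1 = G 0 0 0 1 1 (n6 + 2) 1 := S.r2 0 1 0 0 (n6 + 1) 1
  have z2 : G 0 0 1 0 1 (n6 + 2) 1 = G 0 0 0 1 1 (n6 + 2) 1 := S.r1 0 0 1 0 (n6 + 1) 1
  have z3 : G 2 0 0 0 1 (n6 + 2) 0 = G 0 0 0 2 1 (n6 + 2) 0 := S.r3 2 0 0 0 (n6 + 1) 0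
  have z4 : G 0 2 0 0 1 (n6 + 2) 0 = G 0 0 0 2 1 (n6 + 2) 0 := S.r2 0 2 0 0 (n6 + 1) 0
  have z5 : G 0 0 2 0 1 (n6 + 2) 0 = G 0 0 0 2 1 (n6 + 2) 0 := S.r1 0 0 2 0 (n6 + 1) 0
  have z6 : G 1 0 0 1 1 (n6 + 2) 0 = G 0 0 1 1 1 (n6 + 2) 0 := S.r3 1 0 0 1 (n6 + 1) 0
  have z7 : G 1 1 0 0 1 (n6 + 2) 0 = G 0 0 1 1 1 (n6 + 2) 0 := S.r2 1 1 0 0 (n6 + 1) 0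
  have z8 : G 0 1 1 0 1 (n6 + 2) 0 = G 0 0 1 1 1 (n6 + 2) 0 := S.r1 0 1 1 0 (n6 + 1) 0
  have z9 : G 1 0 1 0 1 (n6 + 2) 0 = G 0 1 0 1 1 (n6 + 2) 0 := S.r1 1 0 1 0 (n6 + 1) 0
  have z10 : C (n6 + 2) 0 0 0 3 0 = C (n6 + 2) 0 0 0 0 3 := S.c4 (n6 + 2) 0 0 0 3 0
  have z11 : C (n6 + 2) 0 0 3 0 0 = C (n6 + 2) 0 0 0 0 3 := S.c3 (n6 + 2) 0 0 3 0 0
  have z12 : C (n6 + 2) 0 3 0 0 0 = C (n6 + 2) 0 0 0 0 3 := S.c2 (n6 + 2) 0 3 0 0 0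
  have z13 : C (n6 + 2) 3 0 0 0 0 = C (n6 + 2) 0 0 0 0 3 := S.c1 (n6 + 2) 3 0 0 0 0
  have z14 : C (n6 + 2) 0 0 1 2 0 = C (n6 + 2) 0 0 0 1 2 := S.c4 (n6 + 2) 0 0 1 2 0
  have z15 : C (n6 + 2) 0 1 2 0 0 = C (n6 + 2) 0 0 0 1 2 := S.c3 (n6 + 2) 0 1 2 0 0
  have z16 : C (n6 + 2) 1 2 0 0 0 = C (n6 + 2) 0 0 0 1 2 := S.c2 (n6 + 2) 1 2 0 0 0
  have z17 : C (n6 + 2) 0 0 2 1 0 = C (n6 + 2) 0 0 0 2 1 := S.c4 (n6 + 2) 0 0 2 1 0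
  have z18 : C (n6 + 2) 0 2 1 0 0 = C (n6 + 2) 0 0 0 2 1 := S.c3 (n6 + 2) 0 2 1 0 0
  have z19 : C (n6 + 2) 1 0 0 0 2 = C (n6 + 2) 0 0 0 2 1 := S.c1 (n6 + 2) 1 0 0 0 2
  have z20 : C (n6 + 2) 0 1 0 2 0 = C (n6 + 2) 0 0 1 0 2 := S.c4 (n6 + 2) 0 1 0 2 0
  have z21 : C (n6 + 2) 0 2 0 0 1 = C (n6 + 2) 0 0 1 0 2 := S.c2 (n6 + 2) 0 2 0 0 1
  have z22 : C (n6 + 2) 1 0 2 0 0 = C (n6 + 2) 0 0 1 0 2 := S.c3 (n6 + 2) 1 0 2 0 0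
  have z23 : C (n6 + 2) 0 1 1 1 0 = C (n6 + 2) 0 0 1 1 1 := S.c4 (n6 + 2) 0 1 1 1 0
  have z24 : C (n6 + 2) 1 0 0 1 1 = C (n6 + 2) 0 0 1 1 1 := S.c1 (n6 + 2) 1 0 0 1 1
  have z25 : C (n6 + 2) 1 1 0 0 1 = C (n6 + 2) 0 0 1 1 1 := S.c2 (n6 + 2) 1 1 0 0 1
  have z26 : C (n6 + 2) 1 1 1 0 0 = C (n6 + 2) 0 0 1 1 1 := S.c3 (n6 + 2) 1 1 1 0 0
  have z27 : C (n6 + 2) 0 1 0 0 2 = C (n6 + 2) 0 0 2 0 1 := S.c2 (n6 + 2) 0 1 0 0 2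
  have z28 : C (n6 + 2) 0 2 0 1 0 = C (n6 + 2) 0 0 2 0 1 := S.c4 (n6 + 2) 0 2 0 1 0
  have z29 : C (n6 + 2) 1 0 0 2 0 = C (n6 + 2) 0 0 2 0 1 := S.c1 (n6 + 2) 1 0 0 2 0
  have z30 : C (n6 + 2) 0 1 1 0 1 = C (n6 + 2) 0 1 0 1 1 := S.c3 (n6 + 2) 0 1 1 0 1
  have z31 : C (n6 + 2) 1 0 1 0 1 = C (n6 + 2) 0 1 0 1 1 := S.c1 (n6 + 2) 1 0 1 0 1
  have z32 : C (n6 + 2) 1 0 1 1 0 = C (n6 + 2) 0 1 0 1 1 := S.c4 (n6 + 2) 1 0 1 1 0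
  have z33 : C (n6 + 2) 1 1 0 1 0 = C (n6 + 2) 0 1 0 1 1 := S.c2 (n6 + 2) 1 1 0 1 0
  linear_combination (((((-3 / 2 : ℚ) * r0 + (1 / 2 : ℚ) * r1 + (1 / 2 : ℚ) * r2 + (-3 / 2 : ℚ) * r3 + (1 / 2 : ℚ) * r4)
    + ((-1 / 2 : ℚ) * r5 + (1 / 2 : ℚ) * r6 + (1 / 2 : ℚ) * r7 + (1 / 2 : ℚ) * r8))
    + ((-3 / 2 : ℚ) * r9 + (1 / 2 : ℚ) * r10 + (-1 / 2 : ℚ) * r11 + (1 / 2 : ℚ) * r12 + (-1 / 2 : ℚ) * r13 + (-1 / 2 : ℚ) * r14 + (1 / 2 : ℚ) * r15 + (1 / 2 : ℚ) * r16))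
    + (((1 / 2 : ℚ) * r17 + (1 / 2 : ℚ) * r18 + (-3 / 2 : ℚ) * r19 + (-3 / 2 : ℚ) * r20 + (2 / 3 : ℚ) * r21 + (-3 / 2 : ℚ) * r22 + (1 / 6 : ℚ) * r23 + (2 / 3 : ℚ) * r24)
    + ((-3 / 2 : ℚ) * r25 + (2 / 3 : ℚ) * r26 + (1 / 6 : ℚ) * r27 + (2 / 3 : ℚ) * r28 + (-3 / 2 : ℚ) * r29 + (6 : ℚ) * r30 + (-3 / 2 : ℚ) * z0 + (2 / 3 : ℚ) * z1)))
    + ((((1 / 6 : ℚ) * z2 + (-3 / 2 : ℚ) * z3 + (1 / 2 : ℚ) * z4 + (1 / 2 : ℚ) * z5 + (1 / 2 : ℚ) * z6 + (1 / 2 : ℚ) * z7 + (-1 / 2 : ℚ) * z8 + (1 / 2 : ℚ) * z9)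
    + ((3 / 2 : ℚ) * z10 + (3 / 2 : ℚ) * z11 + (3 / 2 : ℚ) * z12 + (-6 : ℚ) * z13 + (-1 / 2 : ℚ) * z14 + (-1 / 2 : ℚ) * z15 + (3 / 2 : ℚ) * z16 + (-1 / 2 : ℚ) * z17))
    + (((-1 / 2 : ℚ) * z18 + (3 / 2 : ℚ) * z19 + (-1 / 2 : ℚ) * z20 + (-1 / 2 : ℚ) * z21 + (3 / 2 : ℚ) * z22 + (1 / 2 : ℚ) * z23 + (-2 / 3 : ℚ) * z24 + (-2 / 3 : ℚ) * z25)
    + ((1 / 3 : ℚ) * z26 + (-1 / 2 : ℚ) * z27 + (-1 / 2 : ℚ) * z28 + (3 / 2 : ℚ) * z29 + (1 / 2 : ℚ) * z30 + (-1 / 6 : ℚ) * z31 + (-2 / 3 : ℚ) * z32 + (-1 / 6 : ℚ) * z33)))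

theorem L_g2_e1_e1_g2_e0_e0 (S : Sys6 G C D) (n6 n3 : ℕ) : C (n6 + 2) 1 1 (n3 + 2) 0 0 = 0 := by
  have r0 : D 1 0 0 1 (n6 + 2) (n3 + 2) = G (n3 + 2) 0 1 0 0 1 (n6 + 2) - G 0 0 1 0 1 (n6 + 2) (n3 + 2) := S.al0' 0 0 1 (n6 + 2) (n3 + 2)
  have r1 : D 1 1 0 0 (n6 + 2) (n3 + 2) = G (n3 + 2) 0 1 1 0 0 (n6 + 2) - G 0 0 1 1 0 (n6 + 2) (n3 + 2) := S.al0' 0 1 0 (n6 + 2) (n3 + 2)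
  have r2 : D 1 1 (n3 + 2) 0 0 (n6 + 2) = G (n6 + 2) 0 1 1 (n3 + 2) 0 0 - G (n3 + 2) 0 1 1 0 0 (n6 + 2) + G (n3 + 1) 1 1 1 0 0 (n6 + 2) := S.al1' (n3 + 1) 0 1 0 0 (n6 + 2)
  have r3 : D 1 1 (n3 + 2) 1 (n6 + 1) 0 = G 0 0 1 1 (n3 + 2) 1 (n6 + 1) - G (n3 + 2) 0 1 1 1 (n6 + 1) 0 + G (n3 + 1) 1 1 1 1 (n6 + 1) 0 := S.al1' (n3 + 1) 0 1 1 (n6 + 1) 0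
  have r4 : D 1 1 (n6 + 2) (n3 + 2) 0 0 = G 0 0 1 1 (n6 + 2) (n3 + 2) 0 - G (n6 + 2) 0 1 1 (n3 + 2) 0 0 + G (n6 + 1) 1 1 1 (n3 + 2) 0 0 := S.al1' (n6 + 1) 0 1 (n3 + 2) 0 0
  have r5 : D 1 (n3 + 1) 1 1 1 (n6 + 1) = G (n6 + 1) 0 1 (n3 + 1) 1 1 1 - G 1 0 1 (n3 + 1) 1 1 (n6 + 1) + G 0 1 1 (n3 + 1) 1 1 (n6 + 1) := S.al1' 0 0 (n3 + 1) 1 1 (n6 + 1)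
  have r6 : D 1 (n3 + 1) 1 1 (n6 + 1) 1 = G 1 0 1 (n3 + 1) 1 1 (n6 + 1) - G 1 0 1 (n3 + 1) 1 (n6 + 1) 1 + G 0 1 1 (n3 + 1) 1 (n6 + 1) 1 := S.al1' 0 0 (n3 + 1) 1 (n6 + 1) 1
  have r7 : D 1 (n3 + 1) 1 1 (n6 + 2) 0 = G 0 0 1 (n3 + 1) 1 1 (n6 + 2) - G 1 0 1 (n3 + 1) 1 (n6 + 2) 0 + G 0 1 1 (n3 + 1) 1 (n6 + 2) 0 := S.al1' 0 0 (n3 + 1) 1 (n6 + 2) 0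
  have r8 : D 1 (n3 + 2) 0 0 (n6 + 2) 1 = G 1 0 1 (n3 + 2) 0 0 (n6 + 2) - G 0 0 1 (n3 + 2) 0 (n6 + 2) 1 := S.al0' 0 (n3 + 2) 0 (n6 + 2) 1
  have r9 : D 1 (n3 + 2) 1 0 0 (n6 + 2) = G (n6 + 2) 0 1 (n3 + 2) 1 0 0 - G 1 0 1 (n3 + 2) 0 0 (n6 + 2) + G 0 1 1 (n3 + 2) 0 0 (n6 + 2) := S.al1' 0 0 (n3 + 2) 0 0 (n6 + 2)
  have r10 : D 1 (n3 + 2) (n6 + 2) 1 0 0 = G 0 0 1 (n3 + 2) (n6 + 2) 1 0 - G (n6 + 2) 0 1 (n3 + 2) 1 0 0 + G (n6 + 1) 1 1 (n3 + 2) 1 0 0 := S.al1' (n6 + 1) 0 (n3 + 2) 1 0 0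
  have r11 : D (n3 + 1) 1 1 1 (n6 + 2) 0 = G 0 0 (n3 + 1) 1 1 1 (n6 + 2) - G 1 0 (n3 + 1) 1 1 (n6 + 2) 0 + G 0 1 (n3 + 1) 1 1 (n6 + 2) 0 := S.al1' 0 n3 1 1 (n6 + 2) 0
  have r12 : D (n3 + 2) 0 0 1 1 (n6 + 2) = G (n6 + 2) 0 (n3 + 2) 0 0 1 1 - G 0 0 (n3 + 2) 0 1 1 (n6 + 2) := S.al0' (n3 + 1) 0 1 1 (n6 + 2)
  have r13 : D (n3 + 2) 0 0 1 (n6 + 2) 1 = G 1 0 (n3 + 2) 0 0 1 (n6 + 2) - G 0 0 (n3 + 2) 0 1 (n6 + 2) 1 := S.al0' (n3 + 1) 0 1 (n6 + 2) 1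
  have r14 : D (n3 + 2) 0 1 0 1 (n6 + 2) = G (n6 + 2) 0 (n3 + 2) 0 1 0 1 - G 1 0 (n3 + 2) 0 0 1 (n6 + 2) + G 0 1 (n3 + 2) 0 0 1 (n6 + 2) := S.al1' 0 (n3 + 1) 0 0 1 (n6 + 2)
  have r15 : D (n3 + 2) 0 1 1 (n6 + 2) 0 = G 0 0 (n3 + 2) 0 1 1 (n6 + 2) - G 1 0 (n3 + 2) 0 1 (n6 + 2) 0 + G 0 1 (n3 + 2) 0 1 (n6 + 2) 0 := S.al1' 0 (n3 + 1) 0 1 (n6 + 2) 0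
  have r16 : D (n3 + 2) 0 1 (n6 + 2) 0 1 = G 1 0 (n3 + 2) 0 1 (n6 + 2) 0 - G 1 0 (n3 + 2) 0 (n6 + 2) 0 1 + G 0 1 (n3 + 2) 0 (n6 + 2) 0 1 := S.al1' 0 (n3 + 1) 0 (n6 + 2) 0 1
  have r17 : D (n3 + 2) 0 1 (n6 + 2) 1 0 = G 0 0 (n3 + 2) 0 1 (n6 + 2) 1 - G 1 0 (n3 + 2) 0 (n6 + 2) 1 0 + G 0 1 (n3 + 2) 0 (n6 + 2) 1 0 := S.al1' 0 (n3 + 1) 0 (n6 + 2) 1 0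
  have r18 : D (n3 + 2) 0 (n6 + 2) 0 1 1 = G 1 0 (n3 + 2) 0 (n6 + 2) 0 1 - G (n6 + 2) 0 (n3 + 2) 0 0 1 1 + G (n6 + 1) 1 (n3 + 2) 0 0 1 1 := S.al1' (n6 + 1) (n3 + 1) 0 0 1 1
  have r19 : D (n3 + 2) 0 (n6 + 2) 1 0 1 = G 1 0 (n3 + 2) 0 (n6 + 2) 1 0 - G (n6 + 2) 0 (n3 + 2) 0 1 0 1 + G (n6 + 1) 1 (n3 + 2) 0 1 0 1 := S.al1' (n6 + 1) (n3 + 1) 0 1 0 1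
  have r20 : D (n3 + 2) 1 0 0 1 (n6 + 2) = G (n6 + 2) 0 (n3 + 2) 1 0 0 1 - G 0 0 (n3 + 2) 1 0 1 (n6 + 2) := S.al0' (n3 + 1) 1 0 1 (n6 + 2)
  have r21 : D (n3 + 2) 1 0 1 0 (n6 + 2) = G (n6 + 2) 0 (n3 + 2) 1 0 1 0 - G 0 0 (n3 + 2) 1 1 0 (n6 + 2) := S.al0' (n3 + 1) 1 1 0 (n6 + 2)
  have r22 : D (n3 + 2) 1 0 1 (n6 + 2) 0 = G 0 0 (n3 + 2) 1 0 1 (n6 + 2) - G 0 0 (n3 + 2) 1 1 (n6 + 2) 0 := S.al0' (n3 + 1) 1 1 (n6 + 2) 0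
  have r23 : D (n3 + 2) 1 1 0 (n6 + 2) 0 = G 0 0 (n3 + 2) 1 1 0 (n6 + 2) - G 1 0 (n3 + 2) 1 0 (n6 + 2) 0 + G 0 1 (n3 + 2) 1 0 (n6 + 2) 0 := S.al1' 0 (n3 + 1) 1 0 (n6 + 2) 0
  have r24 : D (n3 + 2) 1 1 (n6 + 2) 0 0 = G 0 0 (n3 + 2) 1 1 (n6 + 2) 0 - G 1 0 (n3 + 2) 1 (n6 + 2) 0 0 + G 0 1 (n3 + 2) 1 (n6 + 2) 0 0 := S.al1' 0 (n3 + 1) 1 (n6 + 2) 0 0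
  have r25 : D (n3 + 2) 1 (n6 + 2) 0 0 1 = G 1 0 (n3 + 2) 1 (n6 + 2) 0 0 - G (n6 + 2) 0 (n3 + 2) 1 0 0 1 + G (n6 + 1) 1 (n3 + 2) 1 0 0 1 := S.al1' (n6 + 1) (n3 + 1) 1 0 0 1
  have r26 : D (n6 + 1) 1 (n3 + 2) 1 1 0 = G 0 0 (n6 + 1) 1 (n3 + 2) 1 1 - G (n3 + 2) 0 (n6 + 1) 1 1 1 0 + G (n3 + 1) 1 (n6 + 1) 1 1 1 0 := S.al1' (n3 + 1) n6 1 1 1 0
  have r27 : C 1 0 0 (n3 + 2) 1 (n6 + 2) = G (n6 + 2) 0 (n3 + 2) 1 0 1 0 - G 0 (n3 + 2) 1 (n6 + 2) 0 1 0 := S.al0 (n3 + 2) 1 (n6 + 2) 0 0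
  have r28 : C 1 0 0 (n3 + 2) (n6 + 2) 1 = G 1 0 (n3 + 2) (n6 + 2) 0 1 0 - G 0 (n3 + 2) (n6 + 2) 1 0 1 0 := S.al0 (n3 + 2) (n6 + 2) 1 0 0
  have r29 : C 1 0 1 0 (n3 + 2) (n6 + 2) = G (n6 + 2) 1 0 (n3 + 2) 0 1 0 - G 1 0 (n3 + 2) (n6 + 2) 0 1 0 + G 0 0 (n3 + 2) (n6 + 2) 1 1 0 := S.al1 0 0 (n3 + 2) (n6 + 2) 0 0
  have r30 : C 1 0 (n6 + 2) 1 0 (n3 + 2) = G (n3 + 2) (n6 + 2) 1 0 0 1 0 - G (n6 + 2) 1 0 (n3 + 2) 0 1 0 + G (n6 + 1) 1 0 (n3 + 2) 1 1 0 := S.al1 (n6 + 1) 1 0 (n3 + 2) 0 0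
  have r31 : C 1 1 (n6 + 2) 1 (n3 + 1) 0 = G 0 (n6 + 2) 1 (n3 + 1) 0 1 1 - G (n6 + 2) 1 (n3 + 1) 0 0 1 1 + G (n6 + 1) 1 (n3 + 1) 0 1 1 1 := S.al1 (n6 + 1) 1 (n3 + 1) 0 0 1
  have r32 : C 1 (n6 + 1) 1 1 1 (n3 + 1) = G (n3 + 1) 1 1 1 0 1 (n6 + 1) - G 1 1 1 (n3 + 1) 0 1 (n6 + 1) + G 0 1 1 (n3 + 1) 1 1 (n6 + 1) := S.al1 0 1 1 (n3 + 1) 0 (n6 + 1)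
  have r33 : C 1 (n6 + 1) 1 1 (n3 + 2) 0 = G 0 1 1 (n3 + 2) 0 1 (n6 + 1) - G 1 1 (n3 + 2) 0 0 1 (n6 + 1) + G 0 1 (n3 + 2) 0 1 1 (n6 + 1) := S.al1 0 1 (n3 + 2) 0 0 (n6 + 1)
  have r34 : C 1 (n6 + 1) (n3 + 2) 1 1 0 = G 0 (n3 + 2) 1 1 0 1 (n6 + 1) - G (n3 + 2) 1 1 0 0 1 (n6 + 1) + G (n3 + 1) 1 1 0 1 1 (n6 + 1) := S.al1 (n3 + 1) 1 1 0 0 (n6 + 1)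
  have r35 : C 1 (n6 + 2) 0 0 (n3 + 2) 1 = G 1 0 0 (n3 + 2) 0 1 (n6 + 2) - G 0 0 (n3 + 2) 1 0 1 (n6 + 2) := S.al0 0 (n3 + 2) 1 0 (n6 + 2)
  have r36 : C 1 (n6 + 2) 0 1 0 (n3 + 2) = G (n3 + 2) 0 1 0 0 1 (n6 + 2) - G 0 1 0 (n3 + 2) 0 1 (n6 + 2) := S.al0 1 0 (n3 + 2) 0 (n6 + 2)
  have r37 : C 1 (n6 + 2) 1 0 0 (n3 + 2) = G (n3 + 2) 1 0 0 0 1 (n6 + 2) - G 1 0 0 (n3 + 2) 0 1 (n6 + 2) + G 0 0 0 (n3 + 2) 1 1 (n6 + 2) := S.al1 0 0 0 (n3 + 2) 0 (n6 + 2)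
  have r38 : C 1 (n6 + 2) 1 0 (n3 + 2) 0 = G 0 1 0 (n3 + 2) 0 1 (n6 + 2) - G 1 0 (n3 + 2) 0 0 1 (n6 + 2) + G 0 0 (n3 + 2) 0 1 1 (n6 + 2) := S.al1 0 0 (n3 + 2) 0 0 (n6 + 2)
  have r39 : C 1 (n6 + 2) (n3 + 2) 1 0 0 = G 0 (n3 + 2) 1 0 0 1 (n6 + 2) - G (n3 + 2) 1 0 0 0 1 (n6 + 2) + G (n3 + 1) 1 0 0 1 1 (n6 + 2) := S.al1 (n3 + 1) 1 0 0 0 (n6 + 2)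
  have r40 : C (n6 + 1) 1 1 1 (n3 + 1) 1 = G 1 1 1 (n3 + 1) 0 (n6 + 1) 1 - G 1 1 (n3 + 1) 1 0 (n6 + 1) 1 + G 0 1 (n3 + 1) 1 1 (n6 + 1) 1 := S.al1 0 1 (n3 + 1) 1 n6 1
  have r41 : C (n6 + 1) 1 1 1 (n3 + 2) 0 = G 0 1 1 (n3 + 2) 0 (n6 + 1) 1 - G 1 1 (n3 + 2) 0 0 (n6 + 1) 1 + G 0 1 (n3 + 2) 0 1 (n6 + 1) 1 := S.al1 0 1 (n3 + 2) 0 n6 1
  have r42 : C (n6 + 1) (n3 + 2) 1 1 1 0 = G 0 1 1 1 0 (n6 + 1) (n3 + 2) - G 1 1 1 0 0 (n6 + 1) (n3 + 2) + G 0 1 1 0 1 (n6 + 1) (n3 + 2) := S.al1 0 1 1 0 n6 (n3 + 2)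
  have r43 : C (n6 + 2) 0 0 1 1 (n3 + 2) = G (n3 + 2) 0 1 1 0 (n6 + 2) 0 - G 0 1 1 (n3 + 2) 0 (n6 + 2) 0 := S.al0 1 1 (n3 + 2) (n6 + 1) 0
  have r44 : C (n6 + 2) 0 0 1 (n3 + 2) 1 = G 1 0 1 (n3 + 2) 0 (n6 + 2) 0 - G 0 1 (n3 + 2) 1 0 (n6 + 2) 0 := S.al0 1 (n3 + 2) 1 (n6 + 1) 0
  have r45 : C (n6 + 2) 0 1 0 1 (n3 + 2) = G (n3 + 2) 1 0 1 0 (n6 + 2) 0 - G 1 0 1 (n3 + 2) 0 (n6 + 2) 0 + G 0 0 1 (n3 + 2) 1 (n6 + 2) 0 := S.al1 0 0 1 (n3 + 2) (n6 + 1) 0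
  have r46 : C (n6 + 2) 0 1 0 (n3 + 2) 1 = G 1 1 0 (n3 + 2) 0 (n6 + 2) 0 - G 1 0 (n3 + 2) 1 0 (n6 + 2) 0 + G 0 0 (n3 + 2) 1 1 (n6 + 2) 0 := S.al1 0 0 (n3 + 2) 1 (n6 + 1) 0
  have r47 : C (n6 + 2) 0 1 1 0 (n3 + 2) = G (n3 + 2) 1 1 0 0 (n6 + 2) 0 - G 1 1 0 (n3 + 2) 0 (n6 + 2) 0 + G 0 1 0 (n3 + 2) 1 (n6 + 2) 0 := S.al1 0 1 0 (n3 + 2) (n6 + 1) 0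
  have r48 : C (n6 + 2) 0 1 (n3 + 2) 0 1 = G 1 1 (n3 + 2) 0 0 (n6 + 2) 0 - G 1 (n3 + 2) 0 1 0 (n6 + 2) 0 + G 0 (n3 + 2) 0 1 1 (n6 + 2) 0 := S.al1 0 (n3 + 2) 0 1 (n6 + 1) 0
  have r49 : C (n6 + 2) 0 (n3 + 2) 0 1 1 = G 1 (n3 + 2) 0 1 0 (n6 + 2) 0 - G (n3 + 2) 0 1 1 0 (n6 + 2) 0 + G (n3 + 1) 0 1 1 1 (n6 + 2) 0 := S.al1 (n3 + 1) 0 1 1 (n6 + 1) 0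
  have r50 : C (n6 + 2) 0 (n3 + 2) 1 0 1 = G 1 (n3 + 2) 1 0 0 (n6 + 2) 0 - G (n3 + 2) 1 0 1 0 (n6 + 2) 0 + G (n3 + 1) 1 0 1 1 (n6 + 2) 0 := S.al1 (n3 + 1) 1 0 1 (n6 + 1) 0
  have r51 : C (n6 + 2) 0 (n3 + 2) 1 1 0 = G 0 (n3 + 2) 1 1 0 (n6 + 2) 0 - G (n3 + 2) 1 1 0 0 (n6 + 2) 0 + G (n3 + 1) 1 1 0 1 (n6 + 2) 0 := S.al1 (n3 + 1) 1 1 0 (n6 + 1) 0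
  have r52 : C (n6 + 2) 1 0 0 1 (n3 + 2) = G (n3 + 2) 0 0 1 0 (n6 + 2) 1 - G 0 0 1 (n3 + 2) 0 (n6 + 2) 1 := S.al0 0 1 (n3 + 2) (n6 + 1) 1
  have r53 : C (n6 + 2) 1 0 1 (n3 + 2) 0 = G 0 0 1 (n3 + 2) 0 (n6 + 2) 1 - G 0 1 (n3 + 2) 0 0 (n6 + 2) 1 := S.al0 1 (n3 + 2) 0 (n6 + 1) 1
  have r54 : C (n6 + 2) 1 1 (n3 + 2) 0 0 = G 0 1 (n3 + 2) 0 0 (n6 + 2) 1 - G 1 (n3 + 2) 0 0 0 (n6 + 2) 1 + G 0 (n3 + 2) 0 0 1 (n6 + 2) 1 := S.al1 0 (n3 + 2) 0 0 (n6 + 1) 1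
  have r55 : C (n6 + 2) 1 (n3 + 2) 0 0 1 = G 1 (n3 + 2) 0 0 0 (n6 + 2) 1 - G (n3 + 2) 0 0 1 0 (n6 + 2) 1 + G (n3 + 1) 0 0 1 1 (n6 + 2) 1 := S.al1 (n3 + 1) 0 0 1 (n6 + 1) 1
  have r56 : C (n6 + 2) (n3 + 2) 0 0 1 1 = G 1 0 0 1 0 (n6 + 2) (n3 + 2) - G 0 0 1 1 0 (n6 + 2) (n3 + 2) := S.al0 0 1 1 (n6 + 1) (n3 + 2)
  have r57 : C (n6 + 2) (n3 + 2) 0 1 0 1 = G 1 0 1 0 0 (n6 + 2) (n3 + 2) - G 0 1 0 1 0 (n6 + 2) (n3 + 2) := S.al0 1 0 1 (n6 + 1) (n3 + 2)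
  have r58 : C (n6 + 2) (n3 + 2) 1 0 0 1 = G 1 1 0 0 0 (n6 + 2) (n3 + 2) - G 1 0 0 1 0 (n6 + 2) (n3 + 2) + G 0 0 0 1 1 (n6 + 2) (n3 + 2) := S.al1 0 0 0 1 (n6 + 1) (n3 + 2)
  have r59 : C (n6 + 2) (n3 + 2) 1 0 1 0 = G 0 1 0 1 0 (n6 + 2) (n3 + 2) - G 1 0 1 0 0 (n6 + 2) (n3 + 2) + G 0 0 1 0 1 (n6 + 2) (n3 + 2) := S.al1 0 0 1 0 (n6 + 1) (n3 + 2)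
  have r60 : C (n6 + 2) (n3 + 2) 1 1 0 0 = G 0 1 1 0 0 (n6 + 2) (n3 + 2) - G 1 1 0 0 0 (n6 + 2) (n3 + 2) + G 0 1 0 0 1 (n6 + 2) (n3 + 2) := S.al1 0 1 0 0 (n6 + 1) (n3 + 2)
  have z0 : G 0 1 0 0 1 (n6 + 2) (n3 + 2) = G 0 0 0 1 1 (n6 + 2) (n3 + 2) := S.r2 0 1 0 0 (n6 + 1) (n3 + 2)
  have z1 : G 0 0 1 0 1 (n6 + 2) (n3 + 2) = G 0 0 0 1 1 (n6 + 2) (n3 + 2) := S.r1 0 0 1 0 (n6 + 1) (n3 + 2)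
  have z2 : G 0 0 (n3 + 2) 0 1 1 (n6 + 2) = G 0 0 0 (n3 + 2) 1 1 (n6 + 2) := S.r1 0 0 (n3 + 2) 0 0 (n6 + 2)
  have z3 : G 0 0 1 1 (n3 + 2) 1 (n6 + 1) = 0 := S.van 0 0 1 1 n3 0 (n6 + 1)
  have z4 : G 0 0 1 1 (n6 + 2) (n3 + 2) 0 = 0 := S.van 0 0 1 1 n6 (n3 + 1) 0
  have z5 : G 0 1 1 (n3 + 1) 1 (n6 + 2) 0 = G 1 1 (n3 + 1) 0 1 (n6 + 2) 0 := S.r3 0 1 1 (n3 + 1) (n6 + 1) 0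
  have z6 : G (n3 + 1) 0 1 1 1 (n6 + 2) 0 = G 1 1 (n3 + 1) 0 1 (n6 + 2) 0 := S.r2 (n3 + 1) 0 1 1 (n6 + 1) 0
  have z7 : G (n6 + 2) 1 (n3 + 1) 0 0 1 1 = G 0 1 (n3 + 1) 0 1 1 (n6 + 2) := S.m3 (n6 + 2) n3 0 0 1 1
  have z8 : G 1 1 (n3 + 1) 0 1 (n6 + 2) 0 = G 0 1 (n3 + 1) 0 1 1 (n6 + 2) := S.m1 1 n3 0 1 (n6 + 2) 0
  have z9 : G 0 1 (n3 + 1) 0 1 1 (n6 + 2) = G 0 0 1 (n3 + 1) 1 1 (n6 + 2) := S.r1 0 1 (n3 + 1) 0 0 (n6 + 2)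
  have z10 : G 0 1 (n3 + 2) 0 0 1 (n6 + 2) = G 0 1 (n3 + 2) 0 1 (n6 + 2) 0 := S.m3 0 (n3 + 1) 0 0 1 (n6 + 2)
  have z11 : G 0 1 (n3 + 2) 0 1 (n6 + 2) 0 = G 0 0 1 (n3 + 2) 1 (n6 + 2) 0 := S.r1 0 1 (n3 + 2) 0 (n6 + 1) 0
  have z12 : G 0 0 1 (n3 + 2) (n6 + 2) 1 0 = 0 := S.van 0 0 1 (n3 + 2) n6 0 0
  have z13 : G (n3 + 1) 1 0 0 1 1 (n6 + 2) = G 0 0 (n3 + 1) 1 1 1 (n6 + 2) := S.r2 (n3 + 1) 1 0 0 0 (n6 + 2)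
  have z14 : G 0 (n3 + 2) 0 0 1 (n6 + 2) 1 = G 0 0 0 (n3 + 2) 1 (n6 + 2) 1 := S.r2 0 (n3 + 2) 0 0 (n6 + 1) 1
  have z15 : G 0 0 (n3 + 2) 0 1 (n6 + 2) 1 = G 0 0 0 (n3 + 2) 1 (n6 + 2) 1 := S.r1 0 0 (n3 + 2) 0 (n6 + 1) 1
  have z16 : G 0 0 (n3 + 2) 1 1 (n6 + 2) 0 = G 0 (n3 + 2) 1 0 1 (n6 + 2) 0 := S.r3 0 0 (n3 + 2) 1 (n6 + 1) 0
  have z17 : G 0 (n3 + 2) 1 0 1 (n6 + 2) 0 = 0 := S.van' 0 n3 0 0 1 (n6 + 2) 0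
  have z18 : G 0 0 (n3 + 2) (n6 + 2) 1 1 0 = G 0 (n3 + 2) (n6 + 2) 0 1 1 0 := S.r3 0 0 (n3 + 2) (n6 + 2) 0 0
  have z19 : G 0 (n3 + 2) (n6 + 2) 0 1 1 0 = 0 := S.van' 0 n3 (n6 + 1) 0 1 1 0
  have z20 : G 0 0 (n6 + 1) 1 (n3 + 2) 1 1 = 0 := S.van 0 0 (n6 + 1) 1 n3 0 1
  have z21 : G 0 (n3 + 2) 0 1 1 (n6 + 2) 0 = G 0 1 0 (n3 + 2) 1 (n6 + 2) 0 := S.r2 0 (n3 + 2) 0 1 (n6 + 1) 0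
  have z22 : G 0 1 1 0 0 (n6 + 2) (n3 + 2) = G 0 1 1 0 (n6 + 2) (n3 + 2) 0 := S.m3 0 0 0 0 (n6 + 2) (n3 + 2)
  have z23 : G 0 1 1 0 (n6 + 2) (n3 + 2) 0 = 0 := S.van 0 1 1 0 n6 (n3 + 1) 0
  have z24 : G (n3 + 2) 1 1 0 0 1 (n6 + 1) = G 0 1 1 0 1 (n6 + 1) (n3 + 2) := S.m3 (n3 + 2) 0 0 0 1 (n6 + 1)
  have z25 : G (n6 + 1) 1 1 1 (n3 + 2) 0 0 = G 0 1 1 1 0 (n6 + 1) (n3 + 2) := S.m2 (n6 + 1) 0 1 (n3 + 2) 0 0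
  have z26 : G 1 1 1 (n3 + 1) 0 1 (n6 + 1) = G 0 1 1 (n3 + 1) 1 (n6 + 1) 1 := S.m3 1 0 (n3 + 1) 0 1 (n6 + 1)
  have z27 : G 0 1 1 (n3 + 1) 1 (n6 + 1) 1 = G 1 1 (n3 + 1) 0 1 (n6 + 1) 1 := S.r3 0 1 1 (n3 + 1) n6 1
  have z28 : G (n6 + 1) 1 (n3 + 1) 0 1 1 1 = G 1 1 (n3 + 1) 0 1 1 (n6 + 1) := S.m3 (n6 + 1) n3 0 1 1 1
  have z29 : G 1 1 (n3 + 1) 0 1 (n6 + 1) 1 = G 1 1 (n3 + 1) 0 1 1 (n6 + 1) := S.m1 1 n3 0 1 (n6 + 1) 1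
  have z30 : G 1 0 1 (n3 + 1) 1 1 (n6 + 1) = G 0 1 (n3 + 1) 1 1 1 (n6 + 1) := S.r3 1 0 1 (n3 + 1) 0 (n6 + 1)
  have z31 : G 1 1 (n3 + 1) 0 1 1 (n6 + 1) = G 0 1 1 (n3 + 1) 1 1 (n6 + 1) := S.r1 1 1 (n3 + 1) 0 0 (n6 + 1)
  have z32 : G 0 1 (n3 + 1) 1 1 1 (n6 + 1) = G 1 1 (n3 + 1) 1 1 (n6 + 1) 0 := S.m3 0 n3 1 1 1 (n6 + 1)
  have z33 : G 0 1 1 (n3 + 1) 1 1 (n6 + 1) = G 1 1 1 (n3 + 1) 1 (n6 + 1) 0 := S.m3 0 0 (n3 + 1) 1 1 (n6 + 1)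
  have z34 : G 1 1 (n3 + 1) 1 1 (n6 + 1) 0 = G (n3 + 1) 1 1 1 1 (n6 + 1) 0 := S.r2 1 1 (n3 + 1) 1 n6 0
  have z35 : G 1 1 1 (n3 + 1) 1 (n6 + 1) 0 = G (n3 + 1) 1 1 1 1 (n6 + 1) 0 := S.r1 1 1 1 (n3 + 1) n6 0
  have z36 : G 0 1 1 (n3 + 2) 0 (n6 + 2) 0 = G 0 1 1 (n3 + 2) 0 0 (n6 + 2) := S.m1 0 0 (n3 + 2) 0 (n6 + 2) 0
  have z37 : G 0 1 1 (n3 + 2) 0 1 (n6 + 1) = G 0 1 1 (n3 + 2) 1 (n6 + 1) 0 := S.m3 0 0 (n3 + 2) 0 1 (n6 + 1)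
  have z38 : G 0 1 1 (n3 + 2) 1 (n6 + 1) 0 = G 1 1 (n3 + 2) 0 1 (n6 + 1) 0 := S.r3 0 1 1 (n3 + 2) n6 0
  have z39 : G (n3 + 2) 0 1 1 1 (n6 + 1) 0 = G 1 1 (n3 + 2) 0 1 (n6 + 1) 0 := S.r2 (n3 + 2) 0 1 1 n6 0
  have z40 : G (n6 + 1) 1 (n3 + 2) 0 0 1 1 = G 0 1 (n3 + 2) 0 1 1 (n6 + 1) := S.m3 (n6 + 1) (n3 + 1) 0 0 1 1
  have z41 : G 1 1 (n3 + 2) 0 1 (n6 + 1) 0 = G 0 1 (n3 + 2) 0 1 1 (n6 + 1) := S.m1 1 (n3 + 1) 0 1 (n6 + 1) 0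
  have z42 : G (n6 + 1) 1 1 (n3 + 2) 1 0 0 = G 0 1 1 (n3 + 2) 0 (n6 + 1) 1 := S.m2 (n6 + 1) 0 (n3 + 2) 1 0 0
  have z43 : G 1 0 1 (n3 + 1) 1 (n6 + 1) 1 = G 0 1 (n3 + 1) 1 1 (n6 + 1) 1 := S.r3 1 0 1 (n3 + 1) n6 1
  have z44 : G 1 0 1 (n3 + 1) 1 (n6 + 2) 0 = G 0 1 (n3 + 1) 1 1 (n6 + 2) 0 := S.r3 1 0 1 (n3 + 1) (n6 + 1) 0
  have z45 : G (n3 + 1) 1 0 1 1 (n6 + 2) 0 = G 0 1 (n3 + 1) 1 1 (n6 + 2) 0 := S.r2 (n3 + 1) 1 0 1 (n6 + 1) 0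
  have z46 : G 0 1 (n3 + 2) 0 0 (n6 + 2) 1 = G 0 1 (n3 + 2) 0 (n6 + 2) 1 0 := S.m3 0 (n3 + 1) 0 0 (n6 + 2) 1
  have z47 : G 1 1 (n3 + 2) 0 0 1 (n6 + 1) = G 0 1 (n3 + 2) 0 1 (n6 + 1) 1 := S.m3 1 (n3 + 1) 0 0 1 (n6 + 1)
  have z48 : G (n6 + 1) 1 (n3 + 2) 0 1 0 1 = G 0 1 (n3 + 2) 0 1 (n6 + 1) 1 := S.m2 (n6 + 1) (n3 + 1) 0 1 0 1
  have z49 : G 0 1 (n3 + 2) 0 (n6 + 2) 0 1 = G 0 1 (n3 + 2) 0 1 0 (n6 + 2) := S.m2 0 (n3 + 1) 0 (n6 + 2) 0 1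
  have z50 : G 1 1 (n3 + 2) 0 0 (n6 + 2) 0 = G 0 1 (n3 + 2) 0 1 0 (n6 + 2) := S.m1 1 (n3 + 1) 0 0 (n6 + 2) 0
  have z51 : G 0 1 (n3 + 2) 1 (n6 + 2) 0 0 = G 0 1 (n3 + 2) 1 0 0 (n6 + 2) := S.m2 0 (n3 + 1) 1 (n6 + 2) 0 0
  have z52 : G 0 1 (n3 + 2) 1 0 (n6 + 2) 0 = G 0 1 (n3 + 2) 1 0 0 (n6 + 2) := S.m1 0 (n3 + 1) 1 0 (n6 + 2) 0
  have z53 : G 0 (n3 + 2) 1 0 0 1 (n6 + 2) = 0 := S.van' 0 n3 0 0 0 1 (n6 + 2)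
  have z54 : G 0 (n3 + 2) 1 1 0 1 (n6 + 1) = 0 := S.van' 0 n3 0 1 0 1 (n6 + 1)
  have z55 : G 0 (n3 + 2) 1 1 0 (n6 + 2) 0 = 0 := S.van' 0 n3 0 1 0 (n6 + 2) 0
  have z56 : G 0 (n3 + 2) 1 (n6 + 2) 0 1 0 = 0 := S.van' 0 n3 0 (n6 + 2) 0 1 0
  have z57 : G 0 (n3 + 2) (n6 + 2) 1 0 1 0 = 0 := S.van' 0 n3 (n6 + 1) 1 0 1 0
  have z58 : G 0 (n6 + 2) 1 (n3 + 1) 0 1 1 = 0 := S.van' 0 n6 0 (n3 + 1) 0 1 1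
  have z59 : G 1 0 (n3 + 1) 1 1 (n6 + 2) 0 = G (n3 + 1) 1 1 0 1 (n6 + 2) 0 := S.r2 1 0 (n3 + 1) 1 (n6 + 1) 0
  have z60 : G 1 0 (n3 + 2) 0 (n6 + 2) 1 0 = 0 := S.van 1 0 (n3 + 2) 0 n6 0 0
  have z61 : G 1 1 1 0 0 (n6 + 1) (n3 + 2) = G (n6 + 1) 1 1 0 (n3 + 2) 1 0 := S.m2 1 0 0 0 (n6 + 1) (n3 + 2)
  have z62 : G (n6 + 1) 1 1 0 (n3 + 2) 1 0 = 0 := S.van (n6 + 1) 1 1 0 n3 0 0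
  have z63 : G (n6 + 1) 0 1 (n3 + 1) 1 1 1 = G 0 1 (n3 + 1) (n6 + 1) 1 1 1 := S.r3 (n6 + 1) 0 1 (n3 + 1) 0 1
  have z64 : G 0 1 (n3 + 1) (n6 + 1) 1 1 1 = G 1 1 (n3 + 1) (n6 + 1) 1 1 0 := S.m3 0 n3 (n6 + 1) 1 1 1
  have z65 : G 1 1 (n3 + 1) (n6 + 1) 1 1 0 = G (n6 + 1) 1 1 (n3 + 1) 1 1 0 := S.r1 1 1 (n3 + 1) (n6 + 1) 0 0
  have z66 : G 1 1 1 (n3 + 1) 0 (n6 + 1) 1 = G 0 1 1 (n3 + 1) (n6 + 1) 1 1 := S.m3 1 0 (n3 + 1) 0 (n6 + 1) 1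
  have z67 : G (n6 + 1) 1 1 (n3 + 1) 1 1 0 = G 0 1 1 (n3 + 1) (n6 + 1) 1 1 := S.m1 (n6 + 1) 0 (n3 + 1) 1 1 0
  have z68 : G (n3 + 1) 1 (n6 + 1) 1 1 1 0 = G (n6 + 1) 1 (n3 + 1) 1 1 1 0 := S.r2 (n3 + 1) 1 (n6 + 1) 1 0 0
  have z69 : G 1 1 (n3 + 1) 1 0 (n6 + 1) 1 = G 0 1 (n3 + 1) 1 (n6 + 1) 1 1 := S.m3 1 n3 1 0 (n6 + 1) 1
  have z70 : G (n6 + 1) 1 (n3 + 1) 1 1 1 0 = G 0 1 (n3 + 1) 1 (n6 + 1) 1 1 := S.m1 (n6 + 1) n3 1 1 1 0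
  have z71 : G (n3 + 2) 0 (n6 + 1) 1 1 1 0 = G (n6 + 1) 1 (n3 + 2) 0 1 1 0 := S.r2 (n3 + 2) 0 (n6 + 1) 1 0 0
  have z72 : G 1 1 (n3 + 2) 0 0 (n6 + 1) 1 = G 0 1 (n3 + 2) 0 (n6 + 1) 1 1 := S.m3 1 (n3 + 1) 0 0 (n6 + 1) 1
  have z73 : G (n6 + 1) 1 (n3 + 2) 0 1 1 0 = G 0 1 (n3 + 2) 0 (n6 + 1) 1 1 := S.m1 (n6 + 1) (n3 + 1) 0 1 1 0
  have z74 : G 1 (n3 + 2) 1 0 0 (n6 + 2) 0 = 0 := S.van' 1 n3 0 0 0 (n6 + 2) 0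
  have z75 : G (n3 + 1) 0 0 1 1 (n6 + 2) 1 = G 0 1 (n3 + 1) 0 1 (n6 + 2) 1 := S.r2 (n3 + 1) 0 0 1 (n6 + 1) 1
  have z76 : G 0 1 (n3 + 1) 0 1 (n6 + 2) 1 = G 1 1 (n3 + 1) 0 (n6 + 2) 1 0 := S.m3 0 n3 0 1 (n6 + 2) 1
  have z77 : G 1 1 (n3 + 1) 0 (n6 + 2) 1 0 = 0 := S.van 1 1 (n3 + 1) 0 n6 0 0
  have z78 : G (n3 + 1) 1 1 0 1 1 (n6 + 1) = G 1 1 1 0 1 (n6 + 1) (n3 + 1) := S.m3 (n3 + 1) 0 0 1 1 (n6 + 1)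
  have z79 : G 1 1 1 0 1 (n6 + 1) (n3 + 1) = G 0 1 1 1 1 (n6 + 1) (n3 + 1) := S.r1 1 1 1 0 n6 (n3 + 1)
  have z80 : G (n3 + 1) 1 1 1 0 1 (n6 + 1) = G 0 1 1 1 1 (n6 + 1) (n3 + 1) := S.m3 (n3 + 1) 0 1 0 1 (n6 + 1)
  have z81 : G (n3 + 1) 1 1 1 0 0 (n6 + 2) = G 0 1 1 1 (n6 + 2) (n3 + 1) 0 := S.m2 (n3 + 1) 0 1 0 0 (n6 + 2)
  have z82 : G 0 1 1 1 (n6 + 2) (n3 + 1) 0 = 0 := S.van 0 1 1 1 n6 n3 0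
  have z83 : G (n3 + 2) (n6 + 2) 1 0 0 1 0 = 0 := S.van' (n3 + 2) n6 0 0 0 1 0
  have z84 : G (n6 + 1) 1 0 (n3 + 2) 1 1 0 = G 0 (n3 + 2) (n6 + 1) 1 1 1 0 := S.r2 (n6 + 1) 1 0 (n3 + 2) 0 0
  have z85 : G 0 (n3 + 2) (n6 + 1) 1 1 1 0 = 0 := S.van' 0 n3 n6 1 1 1 0
  have z86 : G (n6 + 1) 1 (n3 + 2) 1 0 0 1 = G 0 1 (n3 + 2) 1 1 (n6 + 1) 0 := S.m2 (n6 + 1) (n3 + 1) 1 0 0 1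
  have z87 : G 0 1 (n3 + 2) 1 1 (n6 + 1) 0 = G 1 (n3 + 2) 1 0 1 (n6 + 1) 0 := S.r3 0 1 (n3 + 2) 1 n6 0
  have z88 : G 1 (n3 + 2) 1 0 1 (n6 + 1) 0 = 0 := S.van' 1 n3 0 0 1 (n6 + 1) 0
  have z89 : D 1 1 (n6 + 2) (n3 + 2) 0 0 = D 1 0 0 1 (n6 + 2) (n3 + 2) := S.d3 1 1 (n6 + 2) (n3 + 2) 0 0
  have z90 : D 1 1 0 0 (n6 + 2) (n3 + 2) = 0 := (S.d3 1 1 0 0 (n6 + 2) (n3 + 2)).trans (L_g1_g2_g2_g1_e0_e0 S.mirror 0 n6 n3 0)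
  have z91 : D 1 (n3 + 2) 1 0 0 (n6 + 2) = 0 := (S.d4 1 (n3 + 2) 1 0 0 (n6 + 2)).trans (L_g1_g2_g2_g1_e0_e0 S.mirror 0 n6 n3 0)
  have z92 : D 1 (n3 + 2) 0 0 (n6 + 2) 1 = D 1 1 (n3 + 2) 0 0 (n6 + 2) := S.d4 1 (n3 + 2) 0 0 (n6 + 2) 1
  have z93 : D 1 1 (n3 + 2) 1 (n6 + 1) 0 = 0 := S_p4 S.mirror 0 0 (n3 + 1) 0 n6
  have z94 : D 1 (n3 + 1) 1 1 1 (n6 + 1) = 0 := S_p5 S.mirror 0 n3 0 0 0 n6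
  have z95 : D 1 (n3 + 1) 1 1 (n6 + 1) 1 = 0 := S_p5 S.mirror 0 n3 0 0 n6 0
  have z96 : D 1 (n3 + 1) 1 1 (n6 + 2) 0 = 0 := S_p4 S.mirror 0 n3 0 0 (n6 + 1)
  have z97 : D 1 (n3 + 2) (n6 + 2) 1 0 0 = 0 := L_g1_g2_g2_g1_e0_e0 S.mirror 0 n3 n6 0
  have z98 : D (n3 + 1) 1 1 1 (n6 + 2) 0 = 0 := S_p4 S.mirror n3 0 0 0 (n6 + 1)
  have z99 : D (n3 + 2) 0 1 1 (n6 + 2) 0 = D (n3 + 2) 0 0 1 1 (n6 + 2) := S.d4 (n3 + 2) 0 1 1 (n6 + 2) 0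
  have z100 : D (n3 + 2) 1 1 (n6 + 2) 0 0 = D (n3 + 2) 0 0 1 1 (n6 + 2) := S.d3 (n3 + 2) 1 1 (n6 + 2) 0 0
  have z101 : D (n3 + 2) 1 (n6 + 2) 0 0 1 = D (n3 + 2) 0 0 1 1 (n6 + 2) := S.d2 (n3 + 2) 1 (n6 + 2) 0 0 1
  have z102 : D (n3 + 2) 0 1 (n6 + 2) 1 0 = D (n3 + 2) 0 0 1 (n6 + 2) 1 := S.d4 (n3 + 2) 0 1 (n6 + 2) 1 0
  have z103 : D (n3 + 2) 1 0 0 1 (n6 + 2) = D (n3 + 2) 0 0 1 (n6 + 2) 1 := S.d1 (n3 + 2) 1 0 0 1 (n6 + 2)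
  have z104 : D (n3 + 2) 0 1 (n6 + 2) 0 1 = D (n3 + 2) 0 1 0 1 (n6 + 2) := S.d3 (n3 + 2) 0 1 (n6 + 2) 0 1
  have z105 : D (n3 + 2) 1 0 1 (n6 + 2) 0 = D (n3 + 2) 0 1 0 1 (n6 + 2) := S.d4 (n3 + 2) 1 0 1 (n6 + 2) 0
  have z106 : D (n3 + 2) 1 1 0 (n6 + 2) 0 = D (n3 + 2) 0 (n6 + 2) 0 1 1 := S.d2 (n3 + 2) 1 1 0 (n6 + 2) 0
  have z107 : D (n3 + 2) 1 0 1 0 (n6 + 2) = D (n3 + 2) 0 (n6 + 2) 1 0 1 := S.d3 (n3 + 2) 1 0 1 0 (n6 + 2)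
  have z108 : D (n6 + 1) 1 (n3 + 2) 1 1 0 = 0 := S_p4 S.mirror n6 0 (n3 + 1) 0 0
  have z109 : C 1 (n6 + 2) 0 0 (n3 + 2) 1 = C 1 0 0 (n3 + 2) 1 (n6 + 2) := S.c1 1 (n6 + 2) 0 0 (n3 + 2) 1
  have z110 : C 1 0 0 (n3 + 2) (n6 + 2) 1 = 0 := (S.c2 1 0 0 (n3 + 2) (n6 + 2) 1).trans (L_g1_g2_g2_g1_e0_e0 S 0 n3 n6 0)
  have z111 : C 1 (n6 + 2) 1 0 0 (n3 + 2) = 0 := (S.c4 1 (n6 + 2) 1 0 0 (n3 + 2)).trans (L_g1_g2_g2_g1_e0_e0 S 0 n3 n6 0)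
  have z112 : C 1 (n6 + 2) 0 1 0 (n3 + 2) = C 1 0 1 0 (n3 + 2) (n6 + 2) := S.c1 1 (n6 + 2) 0 1 0 (n3 + 2)
  have z113 : C 1 (n6 + 2) 1 0 (n3 + 2) 0 = C 1 0 (n6 + 2) 1 0 (n3 + 2) := S.c4 1 (n6 + 2) 1 0 (n3 + 2) 0
  have z114 : C 1 1 (n6 + 2) 1 (n3 + 1) 0 = 0 := S_p4 S 0 0 (n6 + 1) 0 n3
  have z115 : C 1 (n6 + 1) 1 1 1 (n3 + 1) = 0 := S_p5 S 0 n6 0 0 0 n3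
  have z116 : C 1 (n6 + 1) 1 1 (n3 + 2) 0 = 0 := S_p4 S 0 n6 0 0 (n3 + 1)
  have z117 : C 1 (n6 + 1) (n3 + 2) 1 1 0 = 0 := S_p4 S 0 n6 (n3 + 1) 0 0
  have z118 : C 1 (n6 + 2) (n3 + 2) 1 0 0 = 0 := L_g1_g2_g2_g1_e0_e0 S 0 n6 n3 0
  have z119 : C (n6 + 1) 1 1 1 (n3 + 1) 1 = 0 := S_p5 S n6 0 0 0 n3 0
  have z120 : C (n6 + 1) 1 1 1 (n3 + 2) 0 = 0 := S_p4 S n6 0 0 0 (n3 + 1)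
  have z121 : C (n6 + 1) (n3 + 2) 1 1 1 0 = 0 := S_p4 S n6 (n3 + 1) 0 0 0
  have z122 : C (n6 + 2) 1 1 (n3 + 2) 0 0 = C (n6 + 2) 0 0 1 1 (n3 + 2) := S.c3 (n6 + 2) 1 1 (n3 + 2) 0 0
  have z123 : C (n6 + 2) 1 (n3 + 2) 0 0 1 = C (n6 + 2) 0 0 1 1 (n3 + 2) := S.c2 (n6 + 2) 1 (n3 + 2) 0 0 1
  have z124 : C (n6 + 2) (n3 + 2) 0 0 1 1 = C (n6 + 2) 0 0 1 1 (n3 + 2) := S.c1 (n6 + 2) (n3 + 2) 0 0 1 1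
  have z125 : C (n6 + 2) 1 0 0 1 (n3 + 2) = C (n6 + 2) 0 0 1 (n3 + 2) 1 := S.c1 (n6 + 2) 1 0 0 1 (n3 + 2)
  have z126 : C (n6 + 2) (n3 + 2) 1 0 0 1 = C (n6 + 2) 0 0 1 (n3 + 2) 1 := S.c2 (n6 + 2) (n3 + 2) 1 0 0 1
  have z127 : C (n6 + 2) 0 1 (n3 + 2) 0 1 = C (n6 + 2) 0 1 0 1 (n3 + 2) := S.c3 (n6 + 2) 0 1 (n3 + 2) 0 1
  have z128 : C (n6 + 2) 1 0 1 (n3 + 2) 0 = C (n6 + 2) 0 1 0 1 (n3 + 2) := S.c4 (n6 + 2) 1 0 1 (n3 + 2) 0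
  have z129 : C (n6 + 2) (n3 + 2) 0 1 0 1 = C (n6 + 2) 0 1 0 1 (n3 + 2) := S.c1 (n6 + 2) (n3 + 2) 0 1 0 1
  have z130 : C (n6 + 2) 0 (n3 + 2) 1 0 1 = C (n6 + 2) 0 1 0 (n3 + 2) 1 := S.c3 (n6 + 2) 0 (n3 + 2) 1 0 1
  have z131 : C (n6 + 2) (n3 + 2) 1 0 1 0 = C (n6 + 2) 0 1 0 (n3 + 2) 1 := S.c2 (n6 + 2) (n3 + 2) 1 0 1 0
  have z132 : C (n6 + 2) 0 (n3 + 2) 0 1 1 = C (n6 + 2) 0 1 1 0 (n3 + 2) := S.c2 (n6 + 2) 0 (n3 + 2) 0 1 1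
  have z133 : C (n6 + 2) (n3 + 2) 1 1 0 0 = C (n6 + 2) 0 (n3 + 2) 1 1 0 := S.c4 (n6 + 2) (n3 + 2) 1 1 0 0
  linear_combination ((((((-1 / 4 : ℚ) * r0 + (1 / 4 : ℚ) * r1 + (1 / 4 : ℚ) * r2 + (5 / 4 : ℚ) * r3 + (1 / 4 : ℚ) * r4 + (1 / 4 : ℚ) * r5 + (-1 / 4 : ℚ) * r6)
    + ((-1 / 4 : ℚ) * r7 + (-1 / 4 : ℚ) * r8 + (-1 / 4 : ℚ) * r9 + (-1 / 4 : ℚ) * r10 + (1 / 4 : ℚ) * r11 + (1 / 4 : ℚ) * r12))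
    + (((1 / 2 : ℚ) * r13 + (1 / 4 : ℚ) * r14 + (1 / 4 : ℚ) * r15 + (1 / 4 : ℚ) * r16 + (-1 / 4 : ℚ) * r17 + (1 / 4 : ℚ) * r18)
    + ((1 / 4 : ℚ) * r19 + (-1 / 4 : ℚ) * r20 + (-1 / 4 : ℚ) * r21 + (-1 / 2 : ℚ) * r22 + (-1 / 4 : ℚ) * r23 + (-1 / 4 : ℚ) * r24)))
    + ((((-1 / 4 : ℚ) * r25 + (-1 / 4 : ℚ) * r26 + (1 / 4 : ℚ) * r27 + (-1 / 4 : ℚ) * r28 + (-1 / 4 : ℚ) * r29 + (-1 / 4 : ℚ) * r30)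
    + ((-3 / 4 : ℚ) * r31 + (1 / 4 : ℚ) * r32 + (1 / 2 : ℚ) * r33 + (-1 / 4 : ℚ) * r34 + (-1 / 4 : ℚ) * r35 + (1 / 4 : ℚ) * r36))
    + (((-1 / 4 : ℚ) * r37 + (1 / 4 : ℚ) * r38 + (-1 / 4 : ℚ) * r39 + (-1 / 4 : ℚ) * r40 + (1 / 4 : ℚ) * r41 + (-1 / 4 : ℚ) * r42)
    + ((-1 / 4 : ℚ) * r43 + (-1 / 2 : ℚ) * r44 + (-1 / 2 : ℚ) * r45 + (1 / 4 : ℚ) * r46 + (1 / 4 : ℚ) * r47 + (-1 / 4 : ℚ) * r48))))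
    + (((((-1 / 4 : ℚ) * r49 + (-1 / 2 : ℚ) * r50 + (1 / 4 : ℚ) * r51 + (3 / 4 : ℚ) * r52 + (1 / 2 : ℚ) * r53 + (3 / 4 : ℚ) * r54 + (3 / 4 : ℚ) * r55)
    + ((-1 / 4 : ℚ) * r56 + (1 / 4 : ℚ) * r57 + (-1 / 4 : ℚ) * r58 + (1 / 4 : ℚ) * r59 + (-1 / 4 : ℚ) * r60 + (-1 / 4 : ℚ) * z0))
    + (((1 / 2 : ℚ) * z1 + (1 / 4 : ℚ) * z2 + (5 / 4 : ℚ) * z3 + (1 / 4 : ℚ) * z4 + (-1 / 4 : ℚ) * z5 + (-1 / 4 : ℚ) * z6)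
    + ((3 / 4 : ℚ) * z7 + (-1 / 2 : ℚ) * z8 + (1 / 4 : ℚ) * z9 + (1 / 4 : ℚ) * z10 + (1 / 2 : ℚ) * z11 + (-1 / 4 : ℚ) * z12)))
    + ((((-1 / 4 : ℚ) * z13 + (3 / 4 : ℚ) * z14 + (-3 / 4 : ℚ) * z15 + (1 / 2 : ℚ) * z16 + (1 / 2 : ℚ) * z17 + (-1 / 4 : ℚ) * z18)
    + ((-1 / 4 : ℚ) * z19 + (-1 / 4 : ℚ) * z20 + (-1 / 4 : ℚ) * z21 + (-1 / 4 : ℚ) * z22 + (-1 / 4 : ℚ) * z23 + (1 / 4 : ℚ) * z24))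
    + (((1 / 4 : ℚ) * z25 + (-1 / 4 : ℚ) * z26 + (-1 / 2 : ℚ) * z27 + (-3 / 4 : ℚ) * z28 + (-1 / 2 : ℚ) * z29 + (-1 / 2 : ℚ) * z30)
    + ((-5 / 4 : ℚ) * z31 + (-1 / 2 : ℚ) * z32 + (-3 / 4 : ℚ) * z33 + (-1 / 2 : ℚ) * z34 + (-3 / 4 : ℚ) * z35 + (1 / 4 : ℚ) * z36)))))
    + ((((((1 / 2 : ℚ) * z37 + (1 / 2 : ℚ) * z38 + (-5 / 4 : ℚ) * z39 + (1 / 4 : ℚ) * z40 + (-3 / 4 : ℚ) * z41 + (-1 / 4 : ℚ) * z42 + (1 / 4 : ℚ) * z43)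
    + ((1 / 4 : ℚ) * z44 + (-1 / 2 : ℚ) * z45 + (1 / 4 : ℚ) * z46 + (-1 / 2 : ℚ) * z47 + (1 / 4 : ℚ) * z48 + (1 / 4 : ℚ) * z49))
    + (((-1 / 4 : ℚ) * z50 + (-1 / 4 : ℚ) * z51 + (1 / 4 : ℚ) * z52 + (-1 / 4 : ℚ) * z53 + (-1 / 4 : ℚ) * z54 + (1 / 4 : ℚ) * z55)
    + ((-1 / 4 : ℚ) * z56 + (1 / 4 : ℚ) * z57 + (-3 / 4 : ℚ) * z58 + (-1 / 4 : ℚ) * z59 + (1 / 2 : ℚ) * z60 + (1 / 4 : ℚ) * z61)))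
    + ((((1 / 4 : ℚ) * z62 + (1 / 4 : ℚ) * z63 + (1 / 4 : ℚ) * z64 + (1 / 4 : ℚ) * z65 + (-1 / 4 : ℚ) * z66 + (1 / 4 : ℚ) * z67)
    + ((-1 / 4 : ℚ) * z68 + (1 / 4 : ℚ) * z69 + (-1 / 4 : ℚ) * z70 + (1 / 4 : ℚ) * z71 + (-1 / 4 : ℚ) * z72 + (1 / 4 : ℚ) * z73))
    + (((-1 / 2 : ℚ) * z74 + (3 / 4 : ℚ) * z75 + (3 / 4 : ℚ) * z76 + (3 / 4 : ℚ) * z77 + (-1 / 4 : ℚ) * z78 + (-1 / 4 : ℚ) * z79)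
    + ((1 / 4 : ℚ) * z80 + (1 / 4 : ℚ) * z81 + (1 / 4 : ℚ) * z82 + (-1 / 4 : ℚ) * z83 + (-1 / 4 : ℚ) * z84 + (-1 / 4 : ℚ) * z85))))
    + (((((-1 / 4 : ℚ) * z86 + (-1 / 4 : ℚ) * z87 + (-1 / 4 : ℚ) * z88 + (-1 / 4 : ℚ) * z89 + (-1 / 4 : ℚ) * z90 + (1 / 4 : ℚ) * z91)
    + ((1 / 4 : ℚ) * z92 + (-5 / 4 : ℚ) * z93 + (-1 / 4 : ℚ) * z94 + (1 / 4 : ℚ) * z95 + (1 / 4 : ℚ) * z96 + (1 / 4 : ℚ) * z97))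
    + (((-1 / 4 : ℚ) * z98 + (-1 / 4 : ℚ) * z99 + (1 / 4 : ℚ) * z100 + (1 / 4 : ℚ) * z101 + (1 / 4 : ℚ) * z102 + (1 / 4 : ℚ) * z103)
    + ((-1 / 4 : ℚ) * z104 + (1 / 2 : ℚ) * z105 + (1 / 4 : ℚ) * z106 + (1 / 4 : ℚ) * z107 + (1 / 4 : ℚ) * z108 + (1 / 4 : ℚ) * z109)))
    + ((((1 / 4 : ℚ) * z110 + (1 / 4 : ℚ) * z111 + (-1 / 4 : ℚ) * z112 + (-1 / 4 : ℚ) * z113 + (3 / 4 : ℚ) * z114 + (-1 / 4 : ℚ) * z115)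
    + ((-1 / 2 : ℚ) * z116 + (1 / 4 : ℚ) * z117 + (1 / 4 : ℚ) * z118 + (1 / 4 : ℚ) * z119 + (-1 / 4 : ℚ) * z120 + (1 / 4 : ℚ) * z121))
    + (((1 / 4 : ℚ) * z122 + (-3 / 4 : ℚ) * z123 + (1 / 4 : ℚ) * z124 + (-3 / 4 : ℚ) * z125 + (1 / 4 : ℚ) * z126 + (1 / 4 : ℚ) * z127)
    + ((-1 / 2 : ℚ) * z128 + (-1 / 4 : ℚ) * z129 + (1 / 2 : ℚ) * z130 + (-1 / 4 : ℚ) * z131 + (1 / 4 : ℚ) * z132 + (1 / 4 : ℚ) * z133)))))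

theorem L_g2_e1_g2_e1_e0_e0 (S : Sys6 G C D) (n6 n2 : ℕ) : C (n6 + 2) 1 (n2 + 2) 1 0 0 = 0 := by
  have r0 : D 1 0 (n2 + 2) 0 1 (n6 + 2) = G (n6 + 2) 0 1 0 (n2 + 2) 0 1 - G (n2 + 2) 0 1 0 0 1 (n6 + 2) + G (n2 + 1) 1 1 0 0 1 (n6 + 2) := S.al1' (n2 + 1) 0 0 0 1 (n6 + 2)
  have r1 : D 1 0 (n6 + 2) (n2 + 2) 0 1 = G 1 0 1 0 (n6 + 2) (n2 + 2) 0 - G (n6 + 2) 0 1 0 (n2 + 2) 0 1 + G (n6 + 1) 1 1 0 (n2 + 2) 0 1 := S.al1' (n6 + 1) 0 0 (n2 + 2) 0 1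
  have r2 : D 1 1 0 1 (n6 + 1) (n2 + 2) = G (n2 + 2) 0 1 1 0 1 (n6 + 1) - G 0 0 1 1 1 (n6 + 1) (n2 + 2) := S.al0' 0 1 1 (n6 + 1) (n2 + 2)
  have r3 : D 1 1 0 (n6 + 2) (n2 + 2) 0 = G 0 0 1 1 0 (n6 + 2) (n2 + 2) - G 0 0 1 1 (n6 + 2) (n2 + 2) 0 := S.al0' 0 1 (n6 + 2) (n2 + 2) 0
  have r4 : D 1 (n2 + 2) 0 1 (n6 + 2) 0 = G 0 0 1 (n2 + 2) 0 1 (n6 + 2) - G 0 0 1 (n2 + 2) 1 (n6 + 2) 0 := S.al0' 0 (n2 + 2) 1 (n6 + 2) 0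
  have r5 : D 1 (n2 + 2) 1 1 (n6 + 1) 0 = G 0 0 1 (n2 + 2) 1 1 (n6 + 1) - G 1 0 1 (n2 + 2) 1 (n6 + 1) 0 + G 0 1 1 (n2 + 2) 1 (n6 + 1) 0 := S.al1' 0 0 (n2 + 2) 1 (n6 + 1) 0
  have r6 : D (n2 + 2) 0 0 1 1 (n6 + 2) = G (n6 + 2) 0 (n2 + 2) 0 0 1 1 - G 0 0 (n2 + 2) 0 1 1 (n6 + 2) := S.al0' (n2 + 1) 0 1 1 (n6 + 2)
  have r7 : D (n2 + 2) 0 0 1 (n6 + 2) 1 = G 1 0 (n2 + 2) 0 0 1 (n6 + 2) - G 0 0 (n2 + 2) 0 1 (n6 + 2) 1 := S.al0' (n2 + 1) 0 1 (n6 + 2) 1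
  have r8 : D (n2 + 2) 0 1 1 (n6 + 2) 0 = G 0 0 (n2 + 2) 0 1 1 (n6 + 2) - G 1 0 (n2 + 2) 0 1 (n6 + 2) 0 + G 0 1 (n2 + 2) 0 1 (n6 + 2) 0 := S.al1' 0 (n2 + 1) 0 1 (n6 + 2) 0
  have r9 : D (n2 + 2) 0 1 (n6 + 2) 0 1 = G 1 0 (n2 + 2) 0 1 (n6 + 2) 0 - G 1 0 (n2 + 2) 0 (n6 + 2) 0 1 + G 0 1 (n2 + 2) 0 (n6 + 2) 0 1 := S.al1' 0 (n2 + 1) 0 (n6 + 2) 0 1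
  have r10 : D (n2 + 2) 0 (n6 + 2) 0 1 1 = G 1 0 (n2 + 2) 0 (n6 + 2) 0 1 - G (n6 + 2) 0 (n2 + 2) 0 0 1 1 + G (n6 + 1) 1 (n2 + 2) 0 0 1 1 := S.al1' (n6 + 1) (n2 + 1) 0 0 1 1
  have r11 : D (n2 + 2) 0 (n6 + 2) 1 1 0 = G 0 0 (n2 + 2) 0 (n6 + 2) 1 1 - G (n6 + 2) 0 (n2 + 2) 0 1 1 0 + G (n6 + 1) 1 (n2 + 2) 0 1 1 0 := S.al1' (n6 + 1) (n2 + 1) 0 1 1 0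
  have r12 : D (n2 + 2) 1 0 0 1 (n6 + 2) = G (n6 + 2) 0 (n2 + 2) 1 0 0 1 - G 0 0 (n2 + 2) 1 0 1 (n6 + 2) := S.al0' (n2 + 1) 1 0 1 (n6 + 2)
  have r13 : D (n2 + 2) 1 0 0 (n6 + 2) 1 = G 1 0 (n2 + 2) 1 0 0 (n6 + 2) - G 0 0 (n2 + 2) 1 0 (n6 + 2) 1 := S.al0' (n2 + 1) 1 0 (n6 + 2) 1
  have r14 : D (n2 + 2) 1 0 1 0 (n6 + 2) = G (n6 + 2) 0 (n2 + 2) 1 0 1 0 - G 0 0 (n2 + 2) 1 1 0 (n6 + 2) := S.al0' (n2 + 1) 1 1 0 (n6 + 2)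
  have r15 : D (n2 + 2) 1 0 1 (n6 + 2) 0 = G 0 0 (n2 + 2) 1 0 1 (n6 + 2) - G 0 0 (n2 + 2) 1 1 (n6 + 2) 0 := S.al0' (n2 + 1) 1 1 (n6 + 2) 0
  have r16 : D (n2 + 2) 1 0 (n6 + 2) 0 1 = G 1 0 (n2 + 2) 1 0 (n6 + 2) 0 - G 0 0 (n2 + 2) 1 (n6 + 2) 0 1 := S.al0' (n2 + 1) 1 (n6 + 2) 0 1
  have r17 : D (n2 + 2) 1 0 (n6 + 2) 1 0 = G 0 0 (n2 + 2) 1 0 (n6 + 2) 1 - G 0 0 (n2 + 2) 1 (n6 + 2) 1 0 := S.al0' (n2 + 1) 1 (n6 + 2) 1 0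
  have r18 : D (n2 + 2) 1 1 0 0 (n6 + 2) = G (n6 + 2) 0 (n2 + 2) 1 1 0 0 - G 1 0 (n2 + 2) 1 0 0 (n6 + 2) + G 0 1 (n2 + 2) 1 0 0 (n6 + 2) := S.al1' 0 (n2 + 1) 1 0 0 (n6 + 2)
  have r19 : D (n2 + 2) 1 1 0 (n6 + 2) 0 = G 0 0 (n2 + 2) 1 1 0 (n6 + 2) - G 1 0 (n2 + 2) 1 0 (n6 + 2) 0 + G 0 1 (n2 + 2) 1 0 (n6 + 2) 0 := S.al1' 0 (n2 + 1) 1 0 (n6 + 2) 0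
  have r20 : D (n2 + 2) 1 1 (n6 + 2) 0 0 = G 0 0 (n2 + 2) 1 1 (n6 + 2) 0 - G 1 0 (n2 + 2) 1 (n6 + 2) 0 0 + G 0 1 (n2 + 2) 1 (n6 + 2) 0 0 := S.al1' 0 (n2 + 1) 1 (n6 + 2) 0 0
  have r21 : D (n2 + 2) 1 (n6 + 2) 0 0 1 = G 1 0 (n2 + 2) 1 (n6 + 2) 0 0 - G (n6 + 2) 0 (n2 + 2) 1 0 0 1 + G (n6 + 1) 1 (n2 + 2) 1 0 0 1 := S.al1' (n6 + 1) (n2 + 1) 1 0 0 1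
  have r22 : D (n2 + 2) 1 (n6 + 2) 0 1 0 = G 0 0 (n2 + 2) 1 (n6 + 2) 0 1 - G (n6 + 2) 0 (n2 + 2) 1 0 1 0 + G (n6 + 1) 1 (n2 + 2) 1 0 1 0 := S.al1' (n6 + 1) (n2 + 1) 1 0 1 0
  have r23 : D (n2 + 2) 1 (n6 + 2) 1 0 0 = G 0 0 (n2 + 2) 1 (n6 + 2) 1 0 - G (n6 + 2) 0 (n2 + 2) 1 1 0 0 + G (n6 + 1) 1 (n2 + 2) 1 1 0 0 := S.al1' (n6 + 1) (n2 + 1) 1 1 0 0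
  have r24 : D (n2 + 2) (n6 + 2) 0 0 1 1 = G 1 0 (n2 + 2) (n6 + 2) 0 0 1 - G 0 0 (n2 + 2) (n6 + 2) 0 1 1 := S.al0' (n2 + 1) (n6 + 2) 0 1 1
  have r25 : D (n2 + 2) (n6 + 2) 0 1 0 1 = G 1 0 (n2 + 2) (n6 + 2) 0 1 0 - G 0 0 (n2 + 2) (n6 + 2) 1 0 1 := S.al0' (n2 + 1) (n6 + 2) 1 0 1
  have r26 : D (n2 + 2) (n6 + 2) 0 1 1 0 = G 0 0 (n2 + 2) (n6 + 2) 0 1 1 - G 0 0 (n2 + 2) (n6 + 2) 1 1 0 := S.al0' (n2 + 1) (n6 + 2) 1 1 0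
  have r27 : D (n2 + 2) (n6 + 2) 1 0 0 1 = G 1 0 (n2 + 2) (n6 + 2) 1 0 0 - G 1 0 (n2 + 2) (n6 + 2) 0 0 1 + G 0 1 (n2 + 2) (n6 + 2) 0 0 1 := S.al1' 0 (n2 + 1) (n6 + 2) 0 0 1
  have r28 : D (n2 + 2) (n6 + 2) 1 0 1 0 = G 0 0 (n2 + 2) (n6 + 2) 1 0 1 - G 1 0 (n2 + 2) (n6 + 2) 0 1 0 + G 0 1 (n2 + 2) (n6 + 2) 0 1 0 := S.al1' 0 (n2 + 1) (n6 + 2) 0 1 0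
  have r29 : D (n2 + 2) (n6 + 2) 1 1 0 0 = G 0 0 (n2 + 2) (n6 + 2) 1 1 0 - G 1 0 (n2 + 2) (n6 + 2) 1 0 0 + G 0 1 (n2 + 2) (n6 + 2) 1 0 0 := S.al1' 0 (n2 + 1) (n6 + 2) 1 0 0
  have r30 : C 1 0 0 (n6 + 2) 1 (n2 + 2) = G (n2 + 2) 0 (n6 + 2) 1 0 1 0 - G 0 (n6 + 2) 1 (n2 + 2) 0 1 0 := S.al0 (n6 + 2) 1 (n2 + 2) 0 0
  have r31 : C 1 0 1 (n2 + 2) 0 (n6 + 2) = G (n6 + 2) 1 (n2 + 2) 0 0 1 0 - G 1 (n2 + 2) 0 (n6 + 2) 0 1 0 + G 0 (n2 + 2) 0 (n6 + 2) 1 1 0 := S.al1 0 (n2 + 2) 0 (n6 + 2) 0 0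
  have r32 : C 1 0 (n2 + 2) 0 (n6 + 2) 1 = G 1 (n2 + 2) 0 (n6 + 2) 0 1 0 - G (n2 + 2) 0 (n6 + 2) 1 0 1 0 + G (n2 + 1) 0 (n6 + 2) 1 1 1 0 := S.al1 (n2 + 1) 0 (n6 + 2) 1 0 0
  have r33 : C 1 0 (n6 + 2) 1 (n2 + 2) 0 = G 0 (n6 + 2) 1 (n2 + 2) 0 1 0 - G (n6 + 2) 1 (n2 + 2) 0 0 1 0 + G (n6 + 1) 1 (n2 + 2) 0 1 1 0 := S.al1 (n6 + 1) 1 (n2 + 2) 0 0 0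
  have r34 : C 1 1 0 (n2 + 2) (n6 + 2) 0 = G 0 0 (n2 + 2) (n6 + 2) 0 1 1 - G 0 (n2 + 2) (n6 + 2) 0 0 1 1 := S.al0 (n2 + 2) (n6 + 2) 0 0 1
  have r35 : C 1 (n6 + 1) 0 1 1 (n2 + 2) = G (n2 + 2) 0 1 1 0 1 (n6 + 1) - G 0 1 1 (n2 + 2) 0 1 (n6 + 1) := S.al0 1 1 (n2 + 2) 0 (n6 + 1)
  have r36 : C 1 (n6 + 2) 0 1 0 (n2 + 2) = G (n2 + 2) 0 1 0 0 1 (n6 + 2) - G 0 1 0 (n2 + 2) 0 1 (n6 + 2) := S.al0 1 0 (n2 + 2) 0 (n6 + 2)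
  have r37 : C 1 (n6 + 2) 0 1 (n2 + 2) 0 = G 0 0 1 (n2 + 2) 0 1 (n6 + 2) - G 0 1 (n2 + 2) 0 0 1 (n6 + 2) := S.al0 1 (n2 + 2) 0 0 (n6 + 2)
  have r38 : C 1 (n6 + 2) 1 0 (n2 + 2) 0 = G 0 1 0 (n2 + 2) 0 1 (n6 + 2) - G 1 0 (n2 + 2) 0 0 1 (n6 + 2) + G 0 0 (n2 + 2) 0 1 1 (n6 + 2) := S.al1 0 0 (n2 + 2) 0 0 (n6 + 2)
  have r39 : C 1 (n6 + 2) 1 1 (n2 + 1) 0 = G 0 1 1 (n2 + 1) 0 1 (n6 + 2) - G 1 1 (n2 + 1) 0 0 1 (n6 + 2) + G 0 1 (n2 + 1) 0 1 1 (n6 + 2) := S.al1 0 1 (n2 + 1) 0 0 (n6 + 2)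
  have r40 : C (n6 + 1) 0 1 (n2 + 2) 1 1 = G 1 1 (n2 + 2) 1 0 (n6 + 1) 0 - G 1 (n2 + 2) 1 1 0 (n6 + 1) 0 + G 0 (n2 + 2) 1 1 1 (n6 + 1) 0 := S.al1 0 (n2 + 2) 1 1 n6 0
  have r41 : C (n6 + 1) 1 1 (n2 + 2) 1 0 = G 0 1 (n2 + 2) 1 0 (n6 + 1) 1 - G 1 (n2 + 2) 1 0 0 (n6 + 1) 1 + G 0 (n2 + 2) 1 0 1 (n6 + 1) 1 := S.al1 0 (n2 + 2) 1 0 n6 1
  have r42 : C (n6 + 2) 0 0 1 1 (n2 + 2) = G (n2 + 2) 0 1 1 0 (n6 + 2) 0 - G 0 1 1 (n2 + 2) 0 (n6 + 2) 0 := S.al0 1 1 (n2 + 2) (n6 + 1) 0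
  have r43 : C (n6 + 2) 0 1 1 (n2 + 2) 0 = G 0 1 1 (n2 + 2) 0 (n6 + 2) 0 - G 1 1 (n2 + 2) 0 0 (n6 + 2) 0 + G 0 1 (n2 + 2) 0 1 (n6 + 2) 0 := S.al1 0 1 (n2 + 2) 0 (n6 + 1) 0
  have r44 : C (n6 + 2) 0 1 (n2 + 2) 0 1 = G 1 1 (n2 + 2) 0 0 (n6 + 2) 0 - G 1 (n2 + 2) 0 1 0 (n6 + 2) 0 + G 0 (n2 + 2) 0 1 1 (n6 + 2) 0 := S.al1 0 (n2 + 2) 0 1 (n6 + 1) 0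
  have r45 : C (n6 + 2) 0 1 (n2 + 2) 1 0 = G 0 1 (n2 + 2) 1 0 (n6 + 2) 0 - G 1 (n2 + 2) 1 0 0 (n6 + 2) 0 + G 0 (n2 + 2) 1 0 1 (n6 + 2) 0 := S.al1 0 (n2 + 2) 1 0 (n6 + 1) 0
  have r46 : C (n6 + 2) 0 (n2 + 2) 0 1 1 = G 1 (n2 + 2) 0 1 0 (n6 + 2) 0 - G (n2 + 2) 0 1 1 0 (n6 + 2) 0 + G (n2 + 1) 0 1 1 1 (n6 + 2) 0 := S.al1 (n2 + 1) 0 1 1 (n6 + 1) 0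
  have r47 : C (n6 + 2) 1 0 0 1 (n2 + 2) = G (n2 + 2) 0 0 1 0 (n6 + 2) 1 - G 0 0 1 (n2 + 2) 0 (n6 + 2) 1 := S.al0 0 1 (n2 + 2) (n6 + 1) 1
  have r48 : C (n6 + 2) 1 0 1 (n2 + 2) 0 = G 0 0 1 (n2 + 2) 0 (n6 + 2) 1 - G 0 1 (n2 + 2) 0 0 (n6 + 2) 1 := S.al0 1 (n2 + 2) 0 (n6 + 1) 1
  have r49 : C (n6 + 2) 1 1 (n2 + 2) 0 0 = G 0 1 (n2 + 2) 0 0 (n6 + 2) 1 - G 1 (n2 + 2) 0 0 0 (n6 + 2) 1 + G 0 (n2 + 2) 0 0 1 (n6 + 2) 1 := S.al1 0 (n2 + 2) 0 0 (n6 + 1) 1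
  have r50 : C (n6 + 2) 1 (n2 + 2) 0 0 1 = G 1 (n2 + 2) 0 0 0 (n6 + 2) 1 - G (n2 + 2) 0 0 1 0 (n6 + 2) 1 + G (n2 + 1) 0 0 1 1 (n6 + 2) 1 := S.al1 (n2 + 1) 0 0 1 (n6 + 1) 1
  have r51 : C (n6 + 2) (n2 + 2) 0 1 1 0 = G 0 0 1 1 0 (n6 + 2) (n2 + 2) - G 0 1 1 0 0 (n6 + 2) (n2 + 2) := S.al0 1 1 0 (n6 + 1) (n2 + 2)
  have z0 : G (n6 + 1) 1 1 0 (n2 + 2) 0 1 = G 0 1 1 0 1 (n6 + 1) (n2 + 2) := S.m2 (n6 + 1) 0 0 (n2 + 2) 0 1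
  have z1 : G 0 1 1 0 1 (n6 + 1) (n2 + 2) = G 0 0 1 1 1 (n6 + 1) (n2 + 2) := S.r1 0 1 1 0 n6 (n2 + 2)
  have z2 : G 0 0 1 1 (n6 + 2) (n2 + 2) 0 = 0 := S.van 0 0 1 1 n6 (n2 + 1) 0
  have z3 : G 0 1 1 (n2 + 2) 0 1 (n6 + 1) = G 0 1 1 (n2 + 2) 1 (n6 + 1) 0 := S.m3 0 0 (n2 + 2) 0 1 (n6 + 1)
  have z4 : G 0 1 1 (n2 + 2) 1 (n6 + 1) 0 = G 1 1 (n2 + 2) 0 1 (n6 + 1) 0 := S.r3 0 1 1 (n2 + 2) n6 0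
  have z5 : G (n6 + 1) 1 (n2 + 2) 0 0 1 1 = G 0 1 (n2 + 2) 0 1 1 (n6 + 1) := S.m3 (n6 + 1) (n2 + 1) 0 0 1 1
  have z6 : G 1 1 (n2 + 2) 0 1 (n6 + 1) 0 = G 0 1 (n2 + 2) 0 1 1 (n6 + 1) := S.m1 1 (n2 + 1) 0 1 (n6 + 1) 0
  have z7 : G 0 1 (n2 + 2) 0 1 1 (n6 + 1) = G 0 0 1 (n2 + 2) 1 1 (n6 + 1) := S.r1 0 1 (n2 + 2) 0 0 (n6 + 1)
  have z8 : G 0 1 (n2 + 2) 0 0 1 (n6 + 2) = G 0 1 (n2 + 2) 0 1 (n6 + 2) 0 := S.m3 0 (n2 + 1) 0 0 1 (n6 + 2)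
  have z9 : G 0 1 (n2 + 2) 0 1 (n6 + 2) 0 = G 0 0 1 (n2 + 2) 1 (n6 + 2) 0 := S.r1 0 1 (n2 + 2) 0 (n6 + 1) 0
  have z10 : G 0 (n2 + 2) 0 0 1 (n6 + 2) 1 = G 0 0 0 (n2 + 2) 1 (n6 + 2) 1 := S.r2 0 (n2 + 2) 0 0 (n6 + 1) 1
  have z11 : G 0 0 (n2 + 2) 0 1 (n6 + 2) 1 = G 0 0 0 (n2 + 2) 1 (n6 + 2) 1 := S.r1 0 0 (n2 + 2) 0 (n6 + 1) 1
  have z12 : G 0 0 (n2 + 2) 0 (n6 + 2) 1 1 = 0 := S.van 0 0 (n2 + 2) 0 n6 0 1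
  have z13 : G 0 0 (n2 + 2) (n6 + 2) 1 1 0 = G 0 (n2 + 2) (n6 + 2) 0 1 1 0 := S.r3 0 0 (n2 + 2) (n6 + 2) 0 0
  have z14 : G 0 (n2 + 2) (n6 + 2) 0 1 1 0 = 0 := S.van' 0 n2 (n6 + 1) 0 1 1 0
  have z15 : G 0 1 1 0 0 (n6 + 2) (n2 + 2) = G 0 1 1 0 (n6 + 2) (n2 + 2) 0 := S.m3 0 0 0 0 (n6 + 2) (n2 + 2)
  have z16 : G 0 1 1 0 (n6 + 2) (n2 + 2) 0 = 0 := S.van 0 1 1 0 n6 (n2 + 1) 0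
  have z17 : G 0 1 1 (n2 + 1) 0 1 (n6 + 2) = G 0 1 1 (n2 + 1) 1 (n6 + 2) 0 := S.m3 0 0 (n2 + 1) 0 1 (n6 + 2)
  have z18 : G 0 1 1 (n2 + 1) 1 (n6 + 2) 0 = G 1 1 (n2 + 1) 0 1 (n6 + 2) 0 := S.r3 0 1 1 (n2 + 1) (n6 + 1) 0
  have z19 : G (n2 + 1) 0 1 1 1 (n6 + 2) 0 = G 1 1 (n2 + 1) 0 1 (n6 + 2) 0 := S.r2 (n2 + 1) 0 1 1 (n6 + 1) 0
  have z20 : G 1 1 (n2 + 1) 0 1 (n6 + 2) 0 = G 0 1 (n2 + 1) 0 1 1 (n6 + 2) := S.m1 1 n2 0 1 (n6 + 2) 0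
  have z21 : G (n6 + 2) 1 (n2 + 2) 0 0 1 0 = G 0 1 (n2 + 2) 0 1 0 (n6 + 2) := S.m3 (n6 + 2) (n2 + 1) 0 0 1 0
  have z22 : G 0 1 (n2 + 2) 0 (n6 + 2) 0 1 = G 0 1 (n2 + 2) 0 1 0 (n6 + 2) := S.m2 0 (n2 + 1) 0 (n6 + 2) 0 1
  have z23 : G 0 1 (n2 + 2) 1 (n6 + 2) 0 0 = G 0 1 (n2 + 2) 1 0 0 (n6 + 2) := S.m2 0 (n2 + 1) 1 (n6 + 2) 0 0
  have z24 : G 0 1 (n2 + 2) 1 0 (n6 + 2) 0 = G 0 1 (n2 + 2) 1 0 0 (n6 + 2) := S.m1 0 (n2 + 1) 1 0 (n6 + 2) 0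
  have z25 : G (n6 + 1) 1 (n2 + 2) 1 1 0 0 = G 0 1 (n2 + 2) 1 0 (n6 + 1) 1 := S.m2 (n6 + 1) (n2 + 1) 1 1 0 0
  have z26 : G 0 1 (n2 + 2) (n6 + 2) 1 0 0 = G 0 1 (n2 + 2) (n6 + 2) 0 0 1 := S.m2 0 (n2 + 1) (n6 + 2) 1 0 0
  have z27 : G 0 1 (n2 + 2) (n6 + 2) 0 1 0 = G 0 1 (n2 + 2) (n6 + 2) 0 0 1 := S.m1 0 (n2 + 1) (n6 + 2) 0 1 0
  have z28 : G 0 (n2 + 2) 0 1 1 (n6 + 2) 0 = G 0 1 0 (n2 + 2) 1 (n6 + 2) 0 := S.r2 0 (n2 + 2) 0 1 (n6 + 1) 0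
  have z29 : G 1 0 (n2 + 2) 0 1 (n6 + 2) 0 = G 0 1 0 (n2 + 2) 1 (n6 + 2) 0 := S.r1 1 0 (n2 + 2) 0 (n6 + 1) 0
  have z30 : G (n6 + 2) 0 (n2 + 2) 0 1 1 0 = G 0 (n2 + 2) 0 (n6 + 2) 1 1 0 := S.r3 (n6 + 2) 0 (n2 + 2) 0 0 0
  have z31 : G 0 (n2 + 2) 1 0 1 (n6 + 1) 1 = 0 := S.van' 0 n2 0 0 1 (n6 + 1) 1
  have z32 : G 0 (n2 + 2) 1 0 1 (n6 + 2) 0 = 0 := S.van' 0 n2 0 0 1 (n6 + 2) 0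
  have z33 : G 0 (n2 + 2) 1 1 1 (n6 + 1) 0 = 0 := S.van' 0 n2 0 1 1 (n6 + 1) 0
  have z34 : G 0 (n2 + 2) (n6 + 2) 0 0 1 1 = 0 := S.van' 0 n2 (n6 + 1) 0 0 1 1
  have z35 : G 0 (n6 + 2) 1 (n2 + 2) 0 1 0 = 0 := S.van' 0 n6 0 (n2 + 2) 0 1 0
  have z36 : G 1 0 1 0 (n6 + 2) (n2 + 2) 0 = 0 := S.van 1 0 1 0 n6 (n2 + 1) 0
  have z37 : G (n6 + 1) 1 (n2 + 2) 1 0 0 1 = G 0 1 (n2 + 2) 1 1 (n6 + 1) 0 := S.m2 (n6 + 1) (n2 + 1) 1 0 0 1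
  have z38 : G 0 1 (n2 + 2) 1 1 (n6 + 1) 0 = G 1 (n2 + 2) 1 0 1 (n6 + 1) 0 := S.r3 0 1 (n2 + 2) 1 n6 0
  have z39 : G 1 0 1 (n2 + 2) 1 (n6 + 1) 0 = G 1 (n2 + 2) 1 0 1 (n6 + 1) 0 := S.r2 1 0 1 (n2 + 2) n6 0
  have z40 : G 1 (n2 + 2) 1 0 1 (n6 + 1) 0 = 0 := S.van' 1 n2 0 0 1 (n6 + 1) 0
  have z41 : G (n2 + 1) 0 0 1 1 (n6 + 2) 1 = G 0 1 (n2 + 1) 0 1 (n6 + 2) 1 := S.r2 (n2 + 1) 0 0 1 (n6 + 1) 1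
  have z42 : G 0 1 (n2 + 1) 0 1 (n6 + 2) 1 = G 1 1 (n2 + 1) 0 (n6 + 2) 1 0 := S.m3 0 n2 0 1 (n6 + 2) 1
  have z43 : G 1 1 (n2 + 1) 0 0 1 (n6 + 2) = G 1 1 (n2 + 1) 0 (n6 + 2) 1 0 := S.m2 1 n2 0 0 1 (n6 + 2)
  have z44 : G 1 1 (n2 + 1) 0 (n6 + 2) 1 0 = 0 := S.van 1 1 (n2 + 1) 0 n6 0 0
  have z45 : G (n6 + 1) 1 (n2 + 2) 1 0 1 0 = G 0 1 (n2 + 2) 1 1 0 (n6 + 1) := S.m3 (n6 + 1) (n2 + 1) 1 0 1 0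
  have z46 : G 1 1 (n2 + 2) 1 0 (n6 + 1) 0 = G 0 1 (n2 + 2) 1 1 0 (n6 + 1) := S.m1 1 (n2 + 1) 1 0 (n6 + 1) 0
  have z47 : G 1 (n2 + 2) 1 0 0 (n6 + 1) 1 = 0 := S.van' 1 n2 0 0 0 (n6 + 1) 1
  have z48 : G 1 (n2 + 2) 1 0 0 (n6 + 2) 0 = 0 := S.van' 1 n2 0 0 0 (n6 + 2) 0
  have z49 : G 1 (n2 + 2) 1 1 0 (n6 + 1) 0 = 0 := S.van' 1 n2 0 1 0 (n6 + 1) 0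
  have z50 : G (n2 + 1) 0 (n6 + 2) 1 1 1 0 = G 0 (n6 + 2) 1 (n2 + 1) 1 1 0 := S.r3 (n2 + 1) 0 (n6 + 2) 1 0 0
  have z51 : G 0 (n6 + 2) 1 (n2 + 1) 1 1 0 = 0 := S.van' 0 n6 0 (n2 + 1) 1 1 0
  have z52 : G (n2 + 1) 1 1 0 0 1 (n6 + 2) = G 1 1 1 0 (n6 + 2) (n2 + 1) 0 := S.m2 (n2 + 1) 0 0 0 1 (n6 + 2)
  have z53 : G 1 1 1 0 (n6 + 2) (n2 + 1) 0 = 0 := S.van 1 1 1 0 n6 n2 0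
  have z54 : D 1 (n2 + 2) 0 1 (n6 + 2) 0 = D 1 0 (n2 + 2) 0 1 (n6 + 2) := S.d4 1 (n2 + 2) 0 1 (n6 + 2) 0
  have z55 : D 1 1 0 (n6 + 2) (n2 + 2) 0 = D 1 0 (n6 + 2) (n2 + 2) 0 1 := S.d1 1 1 0 (n6 + 2) (n2 + 2) 0
  have z56 : D 1 1 0 1 (n6 + 1) (n2 + 2) = 0 := (S.d2 1 1 0 1 (n6 + 1) (n2 + 2)).trans (S_p4 S.mirror 0 0 n6 (n2 + 1) 0)
  have z57 : D 1 (n2 + 2) 1 1 (n6 + 1) 0 = 0 := S_p4 S.mirror 0 (n2 + 1) 0 0 n6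
  have z58 : D (n2 + 2) 0 1 1 (n6 + 2) 0 = D (n2 + 2) 0 0 1 1 (n6 + 2) := S.d4 (n2 + 2) 0 1 1 (n6 + 2) 0
  have z59 : D (n2 + 2) 1 1 (n6 + 2) 0 0 = D (n2 + 2) 0 0 1 1 (n6 + 2) := S.d3 (n2 + 2) 1 1 (n6 + 2) 0 0
  have z60 : D (n2 + 2) 1 (n6 + 2) 0 0 1 = D (n2 + 2) 0 0 1 1 (n6 + 2) := S.d2 (n2 + 2) 1 (n6 + 2) 0 0 1
  have z61 : D (n2 + 2) (n6 + 2) 0 0 1 1 = D (n2 + 2) 0 0 1 1 (n6 + 2) := S.d1 (n2 + 2) (n6 + 2) 0 0 1 1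
  have z62 : D (n2 + 2) 1 0 0 1 (n6 + 2) = D (n2 + 2) 0 0 1 (n6 + 2) 1 := S.d1 (n2 + 2) 1 0 0 1 (n6 + 2)
  have z63 : D (n2 + 2) 1 (n6 + 2) 1 0 0 = D (n2 + 2) 0 0 1 (n6 + 2) 1 := S.d3 (n2 + 2) 1 (n6 + 2) 1 0 0
  have z64 : D (n2 + 2) (n6 + 2) 1 0 0 1 = D (n2 + 2) 0 0 1 (n6 + 2) 1 := S.d2 (n2 + 2) (n6 + 2) 1 0 0 1
  have z65 : D (n2 + 2) 1 0 1 (n6 + 2) 0 = D (n2 + 2) 0 1 (n6 + 2) 0 1 := S.d1 (n2 + 2) 1 0 1 (n6 + 2) 0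
  have z66 : D (n2 + 2) 1 (n6 + 2) 0 1 0 = D (n2 + 2) 0 1 (n6 + 2) 0 1 := S.d4 (n2 + 2) 1 (n6 + 2) 0 1 0
  have z67 : D (n2 + 2) (n6 + 2) 0 1 0 1 = D (n2 + 2) 0 1 (n6 + 2) 0 1 := S.d3 (n2 + 2) (n6 + 2) 0 1 0 1
  have z68 : D (n2 + 2) 1 0 (n6 + 2) 0 1 = D (n2 + 2) 0 (n6 + 2) 0 1 1 := S.d1 (n2 + 2) 1 0 (n6 + 2) 0 1
  have z69 : D (n2 + 2) 1 1 0 (n6 + 2) 0 = D (n2 + 2) 0 (n6 + 2) 0 1 1 := S.d2 (n2 + 2) 1 1 0 (n6 + 2) 0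
  have z70 : D (n2 + 2) (n6 + 2) 0 1 1 0 = D (n2 + 2) 0 (n6 + 2) 0 1 1 := S.d4 (n2 + 2) (n6 + 2) 0 1 1 0
  have z71 : D (n2 + 2) 1 0 0 (n6 + 2) 1 = D (n2 + 2) 0 (n6 + 2) 1 1 0 := S.d2 (n2 + 2) 1 0 0 (n6 + 2) 1
  have z72 : D (n2 + 2) 1 1 0 0 (n6 + 2) = D (n2 + 2) 0 (n6 + 2) 1 1 0 := S.d3 (n2 + 2) 1 1 0 0 (n6 + 2)
  have z73 : D (n2 + 2) (n6 + 2) 1 1 0 0 = D (n2 + 2) 0 (n6 + 2) 1 1 0 := S.d4 (n2 + 2) (n6 + 2) 1 1 0 0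
  have z74 : D (n2 + 2) 1 0 (n6 + 2) 1 0 = D (n2 + 2) 1 0 1 0 (n6 + 2) := S.d3 (n2 + 2) 1 0 (n6 + 2) 1 0
  have z75 : D (n2 + 2) (n6 + 2) 1 0 1 0 = D (n2 + 2) 1 0 1 0 (n6 + 2) := S.d1 (n2 + 2) (n6 + 2) 1 0 1 0
  have z76 : C 1 0 (n6 + 2) 1 (n2 + 2) 0 = C 1 0 0 (n6 + 2) 1 (n2 + 2) := S.c4 1 0 (n6 + 2) 1 (n2 + 2) 0
  have z77 : C 1 (n6 + 2) 0 1 (n2 + 2) 0 = C 1 0 1 (n2 + 2) 0 (n6 + 2) := S.c1 1 (n6 + 2) 0 1 (n2 + 2) 0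
  have z78 : C 1 (n6 + 2) 1 0 (n2 + 2) 0 = C 1 0 (n2 + 2) 0 (n6 + 2) 1 := S.c2 1 (n6 + 2) 1 0 (n2 + 2) 0
  have z79 : C 1 (n6 + 2) 0 1 0 (n2 + 2) = C 1 1 0 (n2 + 2) (n6 + 2) 0 := S.c2 1 (n6 + 2) 0 1 0 (n2 + 2)
  have z80 : C 1 (n6 + 1) 0 1 1 (n2 + 2) = 0 := (S.c2 1 (n6 + 1) 0 1 1 (n2 + 2)).trans (S_p4 S 0 0 0 (n2 + 1) n6)
  have z81 : C 1 (n6 + 2) 1 1 (n2 + 1) 0 = 0 := S_p4 S 0 (n6 + 1) 0 0 n2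
  have z82 : C (n6 + 1) 0 1 (n2 + 2) 1 1 = 0 := (S.c1 (n6 + 1) 0 1 (n2 + 2) 1 1).trans (S_p4 S n6 0 (n2 + 1) 0 0)
  have z83 : C (n6 + 1) 1 1 (n2 + 2) 1 0 = 0 := S_p4 S n6 0 0 (n2 + 1) 0
  have z84 : C (n6 + 2) 0 1 1 (n2 + 2) 0 = C (n6 + 2) 0 0 1 1 (n2 + 2) := S.c4 (n6 + 2) 0 1 1 (n2 + 2) 0
  have z85 : C (n6 + 2) 1 1 (n2 + 2) 0 0 = C (n6 + 2) 0 0 1 1 (n2 + 2) := S.c3 (n6 + 2) 1 1 (n2 + 2) 0 0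
  have z86 : C (n6 + 2) 1 (n2 + 2) 0 0 1 = C (n6 + 2) 0 0 1 1 (n2 + 2) := S.c2 (n6 + 2) 1 (n2 + 2) 0 0 1
  have z87 : C (n6 + 2) 1 0 1 (n2 + 2) 0 = C (n6 + 2) 0 1 (n2 + 2) 0 1 := S.c1 (n6 + 2) 1 0 1 (n2 + 2) 0
  have z88 : C (n6 + 2) 1 0 0 1 (n2 + 2) = C (n6 + 2) 0 1 (n2 + 2) 1 0 := S.c2 (n6 + 2) 1 0 0 1 (n2 + 2)
  have z89 : C (n6 + 2) 1 (n2 + 2) 1 0 0 = C (n6 + 2) 0 1 (n2 + 2) 1 0 := S.c4 (n6 + 2) 1 (n2 + 2) 1 0 0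
  have z90 : C (n6 + 2) (n2 + 2) 0 1 1 0 = C (n6 + 2) 0 (n2 + 2) 0 1 1 := S.c4 (n6 + 2) (n2 + 2) 0 1 1 0
  linear_combination ((((((1 / 3 : ℚ) * r0 + (1 / 3 : ℚ) * r1 + (1 / 3 : ℚ) * r2 + (-1 / 3 : ℚ) * r3 + (-1 / 3 : ℚ) * r4)
    + ((-1 / 2 : ℚ) * r5 + (2 / 3 : ℚ) * r6 + (1 / 3 : ℚ) * r7 + (1 / 3 : ℚ) * r8))
    + (((2 / 3 : ℚ) * r9 + (2 / 3 : ℚ) * r10 + (-1 / 3 : ℚ) * r11 + (-4 / 9 : ℚ) * r12 + (2 / 9 : ℚ) * r13)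
    + ((-4 / 9 : ℚ) * r14 + (-4 / 9 : ℚ) * r15 + (-4 / 9 : ℚ) * r16 + (2 / 9 : ℚ) * r17)))
    + ((((2 / 9 : ℚ) * r18 + (-4 / 9 : ℚ) * r19 + (-4 / 9 : ℚ) * r20 + (-4 / 9 : ℚ) * r21 + (-4 / 9 : ℚ) * r22)
    + ((2 / 9 : ℚ) * r23 + (-1 / 9 : ℚ) * r24 + (2 / 9 : ℚ) * r25 + (2 / 9 : ℚ) * r26))
    + (((-1 / 9 : ℚ) * r27 + (2 / 9 : ℚ) * r28 + (-1 / 9 : ℚ) * r29 + (-1 / 3 : ℚ) * r30 + (-1 / 3 : ℚ) * r31)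
    + ((-1 / 3 : ℚ) * r32 + (1 / 3 : ℚ) * r33 + (-1 / 3 : ℚ) * r34 + (-1 / 3 : ℚ) * r35))))
    + (((((1 / 3 : ℚ) * r36 + (1 / 3 : ℚ) * r37 + (1 / 3 : ℚ) * r38 + (1 / 6 : ℚ) * r39 + (4 / 9 : ℚ) * r40)
    + ((-2 / 9 : ℚ) * r41 + (-1 / 3 : ℚ) * r42 + (-1 / 3 : ℚ) * r43 + (-1 / 3 : ℚ) * r44))
    + (((2 / 3 : ℚ) * r45 + (-1 / 3 : ℚ) * r46 + (1 / 3 : ℚ) * r47 + (1 / 3 : ℚ) * r48 + (1 / 3 : ℚ) * r49)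
    + ((1 / 3 : ℚ) * r50 + (1 / 3 : ℚ) * r51 + (1 / 3 : ℚ) * z0 + (1 / 3 : ℚ) * z1)))
    + ((((1 / 3 : ℚ) * z2 + (1 / 3 : ℚ) * z3 + (-1 / 6 : ℚ) * z4 + (2 / 3 : ℚ) * z5 + (-1 / 6 : ℚ) * z6)
    + ((1 / 2 : ℚ) * z7 + (-1 / 3 : ℚ) * z8 + (-1 / 3 : ℚ) * z9 + (1 / 3 : ℚ) * z10))
    + (((-1 / 3 : ℚ) * z11 + (-1 / 3 : ℚ) * z12 + (-1 / 3 : ℚ) * z13 + (-1 / 3 : ℚ) * z14 + (-1 / 3 : ℚ) * z15)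
    + ((-1 / 3 : ℚ) * z16 + (1 / 6 : ℚ) * z17 + (1 / 6 : ℚ) * z18 + (-1 / 3 : ℚ) * z19)))))
    + ((((((-1 / 6 : ℚ) * z20 + (-2 / 3 : ℚ) * z21 + (2 / 3 : ℚ) * z22 + (-4 / 9 : ℚ) * z23 + (2 / 9 : ℚ) * z24)
    + ((2 / 9 : ℚ) * z25 + (-1 / 9 : ℚ) * z26 + (2 / 9 : ℚ) * z27 + (-1 / 3 : ℚ) * z28))
    + (((1 / 3 : ℚ) * z29 + (1 / 3 : ℚ) * z30 + (-2 / 9 : ℚ) * z31 + (2 / 3 : ℚ) * z32 + (4 / 9 : ℚ) * z33)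
    + ((1 / 3 : ℚ) * z34 + (2 / 3 : ℚ) * z35 + (1 / 3 : ℚ) * z36 + (-4 / 9 : ℚ) * z37)))
    + ((((-4 / 9 : ℚ) * z38 + (1 / 2 : ℚ) * z39 + (1 / 18 : ℚ) * z40 + (1 / 3 : ℚ) * z41 + (1 / 3 : ℚ) * z42)
    + ((-1 / 6 : ℚ) * z43 + (1 / 6 : ℚ) * z44 + (-4 / 9 : ℚ) * z45 + (4 / 9 : ℚ) * z46))
    + (((2 / 9 : ℚ) * z47 + (-2 / 3 : ℚ) * z48 + (-4 / 9 : ℚ) * z49 + (-1 / 3 : ℚ) * z50 + (-1 / 3 : ℚ) * z51)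
    + ((1 / 3 : ℚ) * z52 + (1 / 3 : ℚ) * z53 + (1 / 3 : ℚ) * z54 + (1 / 3 : ℚ) * z55))))
    + (((((-1 / 3 : ℚ) * z56 + (1 / 2 : ℚ) * z57 + (-1 / 3 : ℚ) * z58 + (4 / 9 : ℚ) * z59 + (4 / 9 : ℚ) * z60)
    + ((1 / 9 : ℚ) * z61 + (4 / 9 : ℚ) * z62 + (-2 / 9 : ℚ) * z63 + (1 / 9 : ℚ) * z64))
    + (((4 / 9 : ℚ) * z65 + (4 / 9 : ℚ) * z66 + (-2 / 9 : ℚ) * z67 + (4 / 9 : ℚ) * z68 + (4 / 9 : ℚ) * z69)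
    + ((-2 / 9 : ℚ) * z70 + (-2 / 9 : ℚ) * z71 + (-2 / 9 : ℚ) * z72 + (1 / 9 : ℚ) * z73)))
    + ((((-2 / 9 : ℚ) * z74 + (-2 / 9 : ℚ) * z75 + (-1 / 3 : ℚ) * z76 + (-1 / 3 : ℚ) * z77 + (-1 / 3 : ℚ) * z78)
    + ((-1 / 3 : ℚ) * z79 + (1 / 3 : ℚ) * z80 + (-1 / 6 : ℚ) * z81 + (-4 / 9 : ℚ) * z82))
    + ((2 / 9 : ℚ) * z83 + (1 / 3 : ℚ) * z84 + (-1 / 3 : ℚ) * z85 + (-1 / 3 : ℚ) * z86 + (-1 / 3 : ℚ) * z87 + (-1 / 3 : ℚ) * z88 + (1 : ℚ) * z89 + (-1 / 3 : ℚ) * z90))))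

theorem L_g2_e1_g2_g2_e0_e0 (S : Sys6 G C D) (n6 n2 n3 : ℕ) : C (n6 + 2) 1 (n2 + 2) (n3 + 2) 0 0 = 0 := by
  have r0 : D (n2 + 2) 0 0 (n6 + 2) (n3 + 2) 1 = G 1 0 (n2 + 2) 0 0 (n6 + 2) (n3 + 2) - G 0 0 (n2 + 2) 0 (n6 + 2) (n3 + 2) 1 := S.al0' (n2 + 1) 0 (n6 + 2) (n3 + 2) 1
  have r1 : D (n2 + 2) 0 1 0 (n6 + 2) (n3 + 2) = G (n3 + 2) 0 (n2 + 2) 0 1 0 (n6 + 2) - G 1 0 (n2 + 2) 0 0 (n6 + 2) (n3 + 2) + G 0 1 (n2 + 2) 0 0 (n6 + 2) (n3 + 2) := S.al1' 0 (n2 + 1) 0 0 (n6 + 2) (n3 + 2)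
  have r2 : D (n2 + 2) 0 (n3 + 2) 1 0 (n6 + 2) = G (n6 + 2) 0 (n2 + 2) 0 (n3 + 2) 1 0 - G (n3 + 2) 0 (n2 + 2) 0 1 0 (n6 + 2) + G (n3 + 1) 1 (n2 + 2) 0 1 0 (n6 + 2) := S.al1' (n3 + 1) (n2 + 1) 0 1 0 (n6 + 2)
  have r3 : D (n2 + 2) (n3 + 2) 0 1 0 (n6 + 2) = G (n6 + 2) 0 (n2 + 2) (n3 + 2) 0 1 0 - G 0 0 (n2 + 2) (n3 + 2) 1 0 (n6 + 2) := S.al0' (n2 + 1) (n3 + 2) 1 0 (n6 + 2)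
  have r4 : D (n2 + 2) (n3 + 2) 1 0 (n6 + 2) 0 = G 0 0 (n2 + 2) (n3 + 2) 1 0 (n6 + 2) - G 1 0 (n2 + 2) (n3 + 2) 0 (n6 + 2) 0 + G 0 1 (n2 + 2) (n3 + 2) 0 (n6 + 2) 0 := S.al1' 0 (n2 + 1) (n3 + 2) 0 (n6 + 2) 0
  have r5 : C 1 0 0 (n2 + 2) (n3 + 2) (n6 + 2) = G (n6 + 2) 0 (n2 + 2) (n3 + 2) 0 1 0 - G 0 (n2 + 2) (n3 + 2) (n6 + 2) 0 1 0 := S.al0 (n2 + 2) (n3 + 2) (n6 + 2) 0 0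
  have r6 : C (n6 + 2) 0 0 (n2 + 2) (n3 + 2) 1 = G 1 0 (n2 + 2) (n3 + 2) 0 (n6 + 2) 0 - G 0 (n2 + 2) (n3 + 2) 1 0 (n6 + 2) 0 := S.al0 (n2 + 2) (n3 + 2) 1 (n6 + 1) 0
  have r7 : C (n6 + 2) 0 1 (n2 + 2) (n3 + 2) 0 = G 0 1 (n2 + 2) (n3 + 2) 0 (n6 + 2) 0 - G 1 (n2 + 2) (n3 + 2) 0 0 (n6 + 2) 0 + G 0 (n2 + 2) (n3 + 2) 0 1 (n6 + 2) 0 := S.al1 0 (n2 + 2) (n3 + 2) 0 (n6 + 1) 0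
  have z0 : G 0 0 (n2 + 2) 0 (n6 + 2) (n3 + 2) 1 = 0 := S.van 0 0 (n2 + 2) 0 n6 (n3 + 1) 1
  have z1 : G 0 1 (n2 + 2) 0 0 (n6 + 2) (n3 + 2) = G 0 1 (n2 + 2) 0 (n6 + 2) (n3 + 2) 0 := S.m3 0 (n2 + 1) 0 0 (n6 + 2) (n3 + 2)
  have z2 : G 0 1 (n2 + 2) 0 (n6 + 2) (n3 + 2) 0 = 0 := S.van 0 1 (n2 + 2) 0 n6 (n3 + 1) 0
  have z3 : G 0 (n2 + 2) (n3 + 2) 0 1 (n6 + 2) 0 = 0 := S.van' 0 n2 (n3 + 1) 0 1 (n6 + 2) 0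
  have z4 : G 0 (n2 + 2) (n3 + 2) 1 0 (n6 + 2) 0 = 0 := S.van' 0 n2 (n3 + 1) 1 0 (n6 + 2) 0
  have z5 : G 0 (n2 + 2) (n3 + 2) (n6 + 2) 0 1 0 = 0 := S.van' 0 n2 (n3 + 1) (n6 + 2) 0 1 0
  have z6 : G 1 (n2 + 2) (n3 + 2) 0 0 (n6 + 2) 0 = 0 := S.van' 1 n2 (n3 + 1) 0 0 (n6 + 2) 0
  have z7 : G (n3 + 1) 1 (n2 + 2) 0 1 0 (n6 + 2) = G 0 1 (n2 + 2) 0 (n6 + 2) (n3 + 1) 1 := S.m2 (n3 + 1) (n2 + 1) 0 1 0 (n6 + 2)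
  have z8 : G 0 1 (n2 + 2) 0 (n6 + 2) (n3 + 1) 1 = 0 := S.van 0 1 (n2 + 2) 0 n6 n3 1
  have z9 : G (n6 + 2) 0 (n2 + 2) 0 (n3 + 2) 1 0 = 0 := S.van (n6 + 2) 0 (n2 + 2) 0 n3 0 0
  have z10 : D (n2 + 2) 0 0 (n6 + 2) (n3 + 2) 1 = 0 := (S.d2 (n2 + 2) 0 0 (n6 + 2) (n3 + 2) 1).trans (L_g1_g2_g2_g1_e0_e0 S.mirror (n2 + 1) n6 n3 0)
  have z11 : D (n2 + 2) (n3 + 2) 0 1 0 (n6 + 2) = D (n2 + 2) 0 1 0 (n6 + 2) (n3 + 2) := S.d1 (n2 + 2) (n3 + 2) 0 1 0 (n6 + 2)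
  have z12 : D (n2 + 2) (n3 + 2) 1 0 (n6 + 2) 0 = D (n2 + 2) 0 (n3 + 2) 1 0 (n6 + 2) := S.d4 (n2 + 2) (n3 + 2) 1 0 (n6 + 2) 0
  have z13 : C 1 0 0 (n2 + 2) (n3 + 2) (n6 + 2) = 0 := (S.c2 1 0 0 (n2 + 2) (n3 + 2) (n6 + 2)).trans (L_g1_g2_g2_g1_e0_e0 S 0 n2 n3 (n6 + 1))
  have z14 : C (n6 + 2) 0 0 (n2 + 2) (n3 + 2) 1 = 0 := (S.c2 (n6 + 2) 0 0 (n2 + 2) (n3 + 2) 1).trans (L_g1_g2_g2_g1_e0_e0 S (n6 + 1) n2 n3 0)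
  have z15 : C (n6 + 2) 1 (n2 + 2) (n3 + 2) 0 0 = C (n6 + 2) 0 1 (n2 + 2) (n3 + 2) 0 := S.c4 (n6 + 2) 1 (n2 + 2) (n3 + 2) 0 0
  linear_combination (((1 : ℚ) * r0 + (1 : ℚ) * r1 + (1 : ℚ) * r2 + (-1 : ℚ) * r3 + (-1 : ℚ) * r4 + (1 : ℚ) * r5)
    + ((-1 : ℚ) * r6 + (1 : ℚ) * r7 + (-1 : ℚ) * z0 + (1 : ℚ) * z1 + (1 : ℚ) * z2 + (1 : ℚ) * z3))
    + (((1 : ℚ) * z4 + (-1 : ℚ) * z5 + (-1 : ℚ) * z6 + (1 : ℚ) * z7 + (1 : ℚ) * z8 + (1 : ℚ) * z9)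
    + ((-1 : ℚ) * z10 + (1 : ℚ) * z11 + (1 : ℚ) * z12 + (-1 : ℚ) * z13 + (1 : ℚ) * z14 + (1 : ℚ) * z15))

theorem L_g2_g2_e1_e1_e0_e0 (S : Sys6 G C D) (n6 n1 : ℕ) : C (n6 + 2) (n1 + 2) 1 1 0 0 = 0 := by
  have r0 : D 1 0 0 (n6 + 2) 1 (n1 + 2) = G (n1 + 2) 0 1 0 0 (n6 + 2) 1 - G 0 0 1 0 (n6 + 2) 1 (n1 + 2) := S.al0' 0 0 (n6 + 2) 1 (n1 + 2)
  have r1 : D 1 0 1 (n6 + 2) 1 (n1 + 1) = G (n1 + 1) 0 1 0 1 (n6 + 2) 1 - G 1 0 1 0 (n6 + 2) 1 (n1 + 1) + G 0 1 1 0 (n6 + 2) 1 (n1 + 1) := S.al1' 0 0 0 (n6 + 2) 1 (n1 + 1)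
  have r2 : D 1 0 1 (n6 + 2) (n1 + 2) 0 = G 0 0 1 0 1 (n6 + 2) (n1 + 2) - G 1 0 1 0 (n6 + 2) (n1 + 2) 0 + G 0 1 1 0 (n6 + 2) (n1 + 2) 0 := S.al1' 0 0 0 (n6 + 2) (n1 + 2) 0
  have r3 : D 1 1 0 0 (n6 + 2) (n1 + 2) = G (n1 + 2) 0 1 1 0 0 (n6 + 2) - G 0 0 1 1 0 (n6 + 2) (n1 + 2) := S.al0' 0 1 0 (n6 + 2) (n1 + 2)
  have r4 : D 1 1 (n1 + 2) 0 0 (n6 + 2) = G (n6 + 2) 0 1 1 (n1 + 2) 0 0 - G (n1 + 2) 0 1 1 0 0 (n6 + 2) + G (n1 + 1) 1 1 1 0 0 (n6 + 2) := S.al1' (n1 + 1) 0 1 0 0 (n6 + 2)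
  have r5 : D 1 1 (n6 + 2) (n1 + 2) 0 0 = G 0 0 1 1 (n6 + 2) (n1 + 2) 0 - G (n6 + 2) 0 1 1 (n1 + 2) 0 0 + G (n6 + 1) 1 1 1 (n1 + 2) 0 0 := S.al1' (n6 + 1) 0 1 (n1 + 2) 0 0
  have r6 : D (n1 + 1) 1 1 (n6 + 2) 1 0 = G 0 0 (n1 + 1) 1 1 (n6 + 2) 1 - G 1 0 (n1 + 1) 1 (n6 + 2) 1 0 + G 0 1 (n1 + 1) 1 (n6 + 2) 1 0 := S.al1' 0 n1 1 (n6 + 2) 1 0
  have r7 : D (n1 + 2) 0 0 (n6 + 2) 1 1 = G 1 0 (n1 + 2) 0 0 (n6 + 2) 1 - G 0 0 (n1 + 2) 0 (n6 + 2) 1 1 := S.al0' (n1 + 1) 0 (n6 + 2) 1 1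
  have r8 : D (n1 + 2) 0 1 (n6 + 2) 1 0 = G 0 0 (n1 + 2) 0 1 (n6 + 2) 1 - G 1 0 (n1 + 2) 0 (n6 + 2) 1 0 + G 0 1 (n1 + 2) 0 (n6 + 2) 1 0 := S.al1' 0 (n1 + 1) 0 (n6 + 2) 1 0
  have r9 : D (n1 + 2) 1 0 0 (n6 + 2) 1 = G 1 0 (n1 + 2) 1 0 0 (n6 + 2) - G 0 0 (n1 + 2) 1 0 (n6 + 2) 1 := S.al0' (n1 + 1) 1 0 (n6 + 2) 1
  have r10 : D (n1 + 2) 1 1 0 0 (n6 + 2) = G (n6 + 2) 0 (n1 + 2) 1 1 0 0 - G 1 0 (n1 + 2) 1 0 0 (n6 + 2) + G 0 1 (n1 + 2) 1 0 0 (n6 + 2) := S.al1' 0 (n1 + 1) 1 0 0 (n6 + 2)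
  have r11 : D (n1 + 2) 1 (n6 + 2) 1 0 0 = G 0 0 (n1 + 2) 1 (n6 + 2) 1 0 - G (n6 + 2) 0 (n1 + 2) 1 1 0 0 + G (n6 + 1) 1 (n1 + 2) 1 1 0 0 := S.al1' (n6 + 1) (n1 + 1) 1 1 0 0
  have r12 : C 1 (n6 + 1) 1 1 1 (n1 + 1) = G (n1 + 1) 1 1 1 0 1 (n6 + 1) - G 1 1 1 (n1 + 1) 0 1 (n6 + 1) + G 0 1 1 (n1 + 1) 1 1 (n6 + 1) := S.al1 0 1 1 (n1 + 1) 0 (n6 + 1)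
  have r13 : C 1 (n6 + 1) (n1 + 2) 1 1 0 = G 0 (n1 + 2) 1 1 0 1 (n6 + 1) - G (n1 + 2) 1 1 0 0 1 (n6 + 1) + G (n1 + 1) 1 1 0 1 1 (n6 + 1) := S.al1 (n1 + 1) 1 1 0 0 (n6 + 1)
  have r14 : C (n6 + 1) 1 1 (n1 + 2) 1 0 = G 0 1 (n1 + 2) 1 0 (n6 + 1) 1 - G 1 (n1 + 2) 1 0 0 (n6 + 1) 1 + G 0 (n1 + 2) 1 0 1 (n6 + 1) 1 := S.al1 0 (n1 + 2) 1 0 n6 1
  have r15 : C (n6 + 1) (n1 + 2) 1 1 1 0 = G 0 1 1 1 0 (n6 + 1) (n1 + 2) - G 1 1 1 0 0 (n6 + 1) (n1 + 2) + G 0 1 1 0 1 (n6 + 1) (n1 + 2) := S.al1 0 1 1 0 n6 (n1 + 2)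
  have r16 : C (n6 + 2) 0 1 (n1 + 2) 1 0 = G 0 1 (n1 + 2) 1 0 (n6 + 2) 0 - G 1 (n1 + 2) 1 0 0 (n6 + 2) 0 + G 0 (n1 + 2) 1 0 1 (n6 + 2) 0 := S.al1 0 (n1 + 2) 1 0 (n6 + 1) 0
  have r17 : C (n6 + 2) 1 0 0 (n1 + 2) 1 = G 1 0 0 (n1 + 2) 0 (n6 + 2) 1 - G 0 0 (n1 + 2) 1 0 (n6 + 2) 1 := S.al0 0 (n1 + 2) 1 (n6 + 1) 1
  have r18 : C (n6 + 2) 1 0 (n1 + 2) 0 1 = G 1 0 (n1 + 2) 0 0 (n6 + 2) 1 - G 0 (n1 + 2) 0 1 0 (n6 + 2) 1 := S.al0 (n1 + 2) 0 1 (n6 + 1) 1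
  have r19 : C (n6 + 2) 1 0 (n1 + 2) 1 0 = G 0 0 (n1 + 2) 1 0 (n6 + 2) 1 - G 0 (n1 + 2) 1 0 0 (n6 + 2) 1 := S.al0 (n1 + 2) 1 0 (n6 + 1) 1
  have r20 : C (n6 + 2) 1 1 0 0 (n1 + 2) = G (n1 + 2) 1 0 0 0 (n6 + 2) 1 - G 1 0 0 (n1 + 2) 0 (n6 + 2) 1 + G 0 0 0 (n1 + 2) 1 (n6 + 2) 1 := S.al1 0 0 0 (n1 + 2) (n6 + 1) 1
  have r21 : C (n6 + 2) 1 (n1 + 2) 0 1 0 = G 0 (n1 + 2) 0 1 0 (n6 + 2) 1 - G (n1 + 2) 0 1 0 0 (n6 + 2) 1 + G (n1 + 1) 0 1 0 1 (n6 + 2) 1 := S.al1 (n1 + 1) 0 1 0 (n6 + 1) 1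
  have r22 : C (n6 + 2) 1 (n1 + 2) 1 0 0 = G 0 (n1 + 2) 1 0 0 (n6 + 2) 1 - G (n1 + 2) 1 0 0 0 (n6 + 2) 1 + G (n1 + 1) 1 0 0 1 (n6 + 2) 1 := S.al1 (n1 + 1) 1 0 0 (n6 + 1) 1
  have r23 : C (n6 + 2) (n1 + 2) 0 1 0 1 = G 1 0 1 0 0 (n6 + 2) (n1 + 2) - G 0 1 0 1 0 (n6 + 2) (n1 + 2) := S.al0 1 0 1 (n6 + 1) (n1 + 2)
  have r24 : C (n6 + 2) (n1 + 2) 0 1 1 0 = G 0 0 1 1 0 (n6 + 2) (n1 + 2) - G 0 1 1 0 0 (n6 + 2) (n1 + 2) := S.al0 1 1 0 (n6 + 1) (n1 + 2)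
  have r25 : C (n6 + 2) (n1 + 2) 1 0 1 0 = G 0 1 0 1 0 (n6 + 2) (n1 + 2) - G 1 0 1 0 0 (n6 + 2) (n1 + 2) + G 0 0 1 0 1 (n6 + 2) (n1 + 2) := S.al1 0 0 1 0 (n6 + 1) (n1 + 2)
  have z0 : G 0 0 (n1 + 2) 0 1 (n6 + 2) 1 = G 0 0 0 (n1 + 2) 1 (n6 + 2) 1 := S.r1 0 0 (n1 + 2) 0 (n6 + 1) 1
  have z1 : G 0 0 1 0 (n6 + 2) 1 (n1 + 2) = 0 := S.van 0 0 1 0 n6 0 (n1 + 2)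
  have z2 : G 0 0 1 1 (n6 + 2) (n1 + 2) 0 = 0 := S.van 0 0 1 1 n6 (n1 + 1) 0
  have z3 : G (n1 + 1) 1 0 0 1 (n6 + 2) 1 = G 0 0 (n1 + 1) 1 1 (n6 + 2) 1 := S.r2 (n1 + 1) 1 0 0 (n6 + 1) 1
  have z4 : G 0 0 (n1 + 2) 0 (n6 + 2) 1 1 = 0 := S.van 0 0 (n1 + 2) 0 n6 0 1
  have z5 : G 0 0 (n1 + 2) 1 (n6 + 2) 1 0 = 0 := S.van 0 0 (n1 + 2) 1 n6 0 0
  have z6 : G 0 1 1 0 0 (n6 + 2) (n1 + 2) = G 0 1 1 0 (n6 + 2) (n1 + 2) 0 := S.m3 0 0 0 0 (n6 + 2) (n1 + 2)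
  have z7 : G 0 1 1 0 (n6 + 2) (n1 + 2) 0 = 0 := S.van 0 1 1 0 n6 (n1 + 1) 0
  have z8 : G (n1 + 2) 1 1 0 0 1 (n6 + 1) = G 0 1 1 0 1 (n6 + 1) (n1 + 2) := S.m3 (n1 + 2) 0 0 0 1 (n6 + 1)
  have z9 : G 0 1 1 0 (n6 + 2) 1 (n1 + 1) = 0 := S.van 0 1 1 0 n6 0 (n1 + 1)
  have z10 : G (n6 + 1) 1 1 1 (n1 + 2) 0 0 = G 0 1 1 1 0 (n6 + 1) (n1 + 2) := S.m2 (n6 + 1) 0 1 (n1 + 2) 0 0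
  have z11 : G 1 1 1 (n1 + 1) 0 1 (n6 + 1) = G 0 1 1 (n1 + 1) 1 (n6 + 1) 1 := S.m3 1 0 (n1 + 1) 0 1 (n6 + 1)
  have z12 : G 0 1 1 (n1 + 1) 1 (n6 + 1) 1 = G 1 1 (n1 + 1) 0 1 (n6 + 1) 1 := S.r3 0 1 1 (n1 + 1) n6 1
  have z13 : G 1 1 (n1 + 1) 0 1 (n6 + 1) 1 = G 1 1 (n1 + 1) 0 1 1 (n6 + 1) := S.m1 1 n1 0 1 (n6 + 1) 1
  have z14 : G 1 1 (n1 + 1) 0 1 1 (n6 + 1) = G 0 1 1 (n1 + 1) 1 1 (n6 + 1) := S.r1 1 1 (n1 + 1) 0 0 (n6 + 1)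
  have z15 : G 0 1 (n1 + 1) 1 (n6 + 2) 1 0 = 0 := S.van 0 1 (n1 + 1) 1 n6 0 0
  have z16 : G 0 1 (n1 + 2) 0 (n6 + 2) 1 0 = 0 := S.van 0 1 (n1 + 2) 0 n6 0 0
  have z17 : G 0 1 (n1 + 2) 1 0 (n6 + 2) 0 = G 0 1 (n1 + 2) 1 0 0 (n6 + 2) := S.m1 0 (n1 + 1) 1 0 (n6 + 2) 0
  have z18 : G (n6 + 1) 1 (n1 + 2) 1 1 0 0 = G 0 1 (n1 + 2) 1 0 (n6 + 1) 1 := S.m2 (n6 + 1) (n1 + 1) 1 1 0 0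
  have z19 : G 0 (n1 + 2) 1 0 0 (n6 + 2) 1 = 0 := S.van' 0 n1 0 0 0 (n6 + 2) 1
  have z20 : G 0 (n1 + 2) 1 0 1 (n6 + 1) 1 = 0 := S.van' 0 n1 0 0 1 (n6 + 1) 1
  have z21 : G 0 (n1 + 2) 1 0 1 (n6 + 2) 0 = 0 := S.van' 0 n1 0 0 1 (n6 + 2) 0
  have z22 : G 0 (n1 + 2) 1 1 0 1 (n6 + 1) = 0 := S.van' 0 n1 0 1 0 1 (n6 + 1)
  have z23 : G 1 0 1 0 (n6 + 2) 1 (n1 + 1) = 0 := S.van 1 0 1 0 n6 0 (n1 + 1)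
  have z24 : G 1 0 1 0 (n6 + 2) (n1 + 2) 0 = 0 := S.van 1 0 1 0 n6 (n1 + 1) 0
  have z25 : G 1 0 (n1 + 1) 1 (n6 + 2) 1 0 = 0 := S.van 1 0 (n1 + 1) 1 n6 0 0
  have z26 : G 1 0 (n1 + 2) 0 (n6 + 2) 1 0 = 0 := S.van 1 0 (n1 + 2) 0 n6 0 0
  have z27 : G 1 1 1 0 0 (n6 + 1) (n1 + 2) = G (n6 + 1) 1 1 0 (n1 + 2) 1 0 := S.m2 1 0 0 0 (n6 + 1) (n1 + 2)
  have z28 : G (n6 + 1) 1 1 0 (n1 + 2) 1 0 = 0 := S.van (n6 + 1) 1 1 0 n1 0 0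
  have z29 : G 1 (n1 + 2) 1 0 0 (n6 + 1) 1 = 0 := S.van' 1 n1 0 0 0 (n6 + 1) 1
  have z30 : G 1 (n1 + 2) 1 0 0 (n6 + 2) 0 = 0 := S.van' 1 n1 0 0 0 (n6 + 2) 0
  have z31 : G (n1 + 1) 1 1 0 1 1 (n6 + 1) = G 1 1 1 0 1 (n6 + 1) (n1 + 1) := S.m3 (n1 + 1) 0 0 1 1 (n6 + 1)
  have z32 : G 1 1 1 0 1 (n6 + 1) (n1 + 1) = G 0 1 1 1 1 (n6 + 1) (n1 + 1) := S.r1 1 1 1 0 n6 (n1 + 1)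
  have z33 : G (n1 + 1) 1 1 1 0 1 (n6 + 1) = G 0 1 1 1 1 (n6 + 1) (n1 + 1) := S.m3 (n1 + 1) 0 1 0 1 (n6 + 1)
  have z34 : G (n1 + 1) 1 1 1 0 0 (n6 + 2) = G 0 1 1 1 (n6 + 2) (n1 + 1) 0 := S.m2 (n1 + 1) 0 1 0 0 (n6 + 2)
  have z35 : G 0 1 1 1 (n6 + 2) (n1 + 1) 0 = 0 := S.van 0 1 1 1 n6 n1 0
  have z36 : D 1 1 (n1 + 2) 0 0 (n6 + 2) = D 1 0 0 (n6 + 2) 1 (n1 + 2) := S.d2 1 1 (n1 + 2) 0 0 (n6 + 2)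
  have z37 : D 1 0 1 (n6 + 2) 1 (n1 + 1) = 0 := (S.d1 1 0 1 (n6 + 2) 1 (n1 + 1)).trans (S_p4 S.mirror 0 0 (n6 + 1) 0 n1)
  have z38 : D 1 1 (n6 + 2) (n1 + 2) 0 0 = D 1 0 1 (n6 + 2) (n1 + 2) 0 := S.d4 1 1 (n6 + 2) (n1 + 2) 0 0
  have z39 : D 1 1 0 0 (n6 + 2) (n1 + 2) = 0 := (S.d3 1 1 0 0 (n6 + 2) (n1 + 2)).trans (L_g1_g2_g2_g1_e0_e0 S.mirror 0 n6 n1 0)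
  have z40 : D (n1 + 1) 1 1 (n6 + 2) 1 0 = 0 := S_p4 S.mirror n1 0 0 (n6 + 1) 0
  have z41 : D (n1 + 2) 1 0 0 (n6 + 2) 1 = D (n1 + 2) 0 0 (n6 + 2) 1 1 := S.d1 (n1 + 2) 1 0 0 (n6 + 2) 1
  have z42 : D (n1 + 2) 1 1 0 0 (n6 + 2) = D (n1 + 2) 0 0 (n6 + 2) 1 1 := S.d2 (n1 + 2) 1 1 0 0 (n6 + 2)
  have z43 : D (n1 + 2) 1 (n6 + 2) 1 0 0 = D (n1 + 2) 0 1 (n6 + 2) 1 0 := S.d4 (n1 + 2) 1 (n6 + 2) 1 0 0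
  have z44 : C 1 (n6 + 1) 1 1 1 (n1 + 1) = 0 := S_p5 S 0 n6 0 0 0 n1
  have z45 : C 1 (n6 + 1) (n1 + 2) 1 1 0 = 0 := S_p4 S 0 n6 (n1 + 1) 0 0
  have z46 : C (n6 + 1) 1 1 (n1 + 2) 1 0 = 0 := S_p4 S n6 0 0 (n1 + 1) 0
  have z47 : C (n6 + 1) (n1 + 2) 1 1 1 0 = 0 := S_p4 S n6 (n1 + 1) 0 0 0
  have z48 : C (n6 + 2) 1 (n1 + 2) 1 0 0 = C (n6 + 2) 0 1 (n1 + 2) 1 0 := S.c4 (n6 + 2) 1 (n1 + 2) 1 0 0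
  have z49 : C (n6 + 2) 1 1 0 0 (n1 + 2) = C (n6 + 2) 1 0 0 (n1 + 2) 1 := S.c1 (n6 + 2) 1 1 0 0 (n1 + 2)
  have z50 : C (n6 + 2) (n1 + 2) 1 1 0 0 = C (n6 + 2) 1 0 0 (n1 + 2) 1 := S.c2 (n6 + 2) (n1 + 2) 1 1 0 0
  have z51 : C (n6 + 2) (n1 + 2) 0 1 1 0 = C (n6 + 2) 1 0 (n1 + 2) 0 1 := S.c3 (n6 + 2) (n1 + 2) 0 1 1 0
  have z52 : C (n6 + 2) (n1 + 2) 1 0 1 0 = C (n6 + 2) 1 0 (n1 + 2) 1 0 := S.c3 (n6 + 2) (n1 + 2) 1 0 1 0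
  have z53 : C (n6 + 2) (n1 + 2) 0 1 0 1 = C (n6 + 2) 1 (n1 + 2) 0 1 0 := S.c4 (n6 + 2) (n1 + 2) 0 1 0 1
  linear_combination (((((1 : ℚ) * r0 + (-1 : ℚ) * r1 + (1 : ℚ) * r2 + (-1 : ℚ) * r3 + (-1 : ℚ) * r4)
    + ((-1 : ℚ) * r5 + (-1 / 2 : ℚ) * r6 + (-1 : ℚ) * r7 + (-1 / 2 : ℚ) * r8 + (1 / 2 : ℚ) * r9))
    + (((1 / 2 : ℚ) * r10 + (1 / 2 : ℚ) * r11 + (-1 : ℚ) * r12 + (1 : ℚ) * r13 + (-1 / 2 : ℚ) * r14)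
    + ((1 : ℚ) * r15 + (-1 / 2 : ℚ) * r16 + (1 / 2 : ℚ) * r17 + (1 : ℚ) * r18 + (1 : ℚ) * r19)))
    + ((((1 / 2 : ℚ) * r20 + (1 : ℚ) * r21 + (1 / 2 : ℚ) * r22 + (-1 : ℚ) * r23 + (-1 : ℚ) * r24)
    + ((-1 : ℚ) * r25 + (-1 / 2 : ℚ) * z0 + (-1 : ℚ) * z1 + (-1 : ℚ) * z2 + (1 / 2 : ℚ) * z3))
    + (((1 : ℚ) * z4 + (1 / 2 : ℚ) * z5 + (1 : ℚ) * z6 + (2 : ℚ) * z7 + (-1 : ℚ) * z8)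
    + ((-1 : ℚ) * z9 + (-1 : ℚ) * z10 + (1 : ℚ) * z11 + (1 : ℚ) * z12 + (1 : ℚ) * z13))))
    + (((((1 : ℚ) * z14 + (-1 / 2 : ℚ) * z15 + (-1 / 2 : ℚ) * z16 + (-1 / 2 : ℚ) * z17 + (1 / 2 : ℚ) * z18)
    + ((-1 / 2 : ℚ) * z19 + (-1 / 2 : ℚ) * z20 + (-1 / 2 : ℚ) * z21 + (1 : ℚ) * z22 + (1 : ℚ) * z23))
    + (((-1 : ℚ) * z24 + (1 / 2 : ℚ) * z25 + (1 / 2 : ℚ) * z26 + (-1 : ℚ) * z27 + (-1 : ℚ) * z28)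
    + ((1 / 2 : ℚ) * z29 + (1 / 2 : ℚ) * z30 + (1 : ℚ) * z31 + (1 : ℚ) * z32 + (-1 : ℚ) * z33)))
    + ((((-1 : ℚ) * z34 + (-1 : ℚ) * z35 + (1 : ℚ) * z36 + (1 : ℚ) * z37 + (1 : ℚ) * z38)
    + ((1 : ℚ) * z39 + (1 / 2 : ℚ) * z40 + (-1 / 2 : ℚ) * z41 + (-1 / 2 : ℚ) * z42 + (-1 / 2 : ℚ) * z43))
    + (((1 : ℚ) * z44 + (-1 : ℚ) * z45 + (1 / 2 : ℚ) * z46 + (-1 : ℚ) * z47 + (-1 / 2 : ℚ) * z48)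
    + ((-1 / 2 : ℚ) * z49 + (1 : ℚ) * z50 + (1 : ℚ) * z51 + (1 : ℚ) * z52 + (1 : ℚ) * z53))))

theorem L_g2_g2_e1_g2_e0_e0 (S : Sys6 G C D) (n6 n1 n3 : ℕ) : C (n6 + 2) (n1 + 2) 1 (n3 + 2) 0 0 = 0 := by
  have r0 : D 1 0 0 (n6 + 2) (n1 + 2) (n3 + 2) = G (n3 + 2) 0 1 0 0 (n6 + 2) (n1 + 2) - G 0 0 1 0 (n6 + 2) (n1 + 2) (n3 + 2) := S.al0' 0 0 (n6 + 2) (n1 + 2) (n3 + 2)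
  have r1 : D 1 (n1 + 2) 0 0 (n6 + 2) (n3 + 2) = G (n3 + 2) 0 1 (n1 + 2) 0 0 (n6 + 2) - G 0 0 1 (n1 + 2) 0 (n6 + 2) (n3 + 2) := S.al0' 0 (n1 + 2) 0 (n6 + 2) (n3 + 2)
  have r2 : D 1 (n1 + 2) 1 1 (n6 + 1) (n3 + 1) = G (n3 + 1) 0 1 (n1 + 2) 1 1 (n6 + 1) - G 1 0 1 (n1 + 2) 1 (n6 + 1) (n3 + 1) + G 0 1 1 (n1 + 2) 1 (n6 + 1) (n3 + 1) := S.al1' 0 0 (n1 + 2) 1 (n6 + 1) (n3 + 1)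
  have r3 : D 1 (n1 + 2) (n3 + 2) 0 0 (n6 + 2) = G (n6 + 2) 0 1 (n1 + 2) (n3 + 2) 0 0 - G (n3 + 2) 0 1 (n1 + 2) 0 0 (n6 + 2) + G (n3 + 1) 1 1 (n1 + 2) 0 0 (n6 + 2) := S.al1' (n3 + 1) 0 (n1 + 2) 0 0 (n6 + 2)
  have r4 : D 1 (n1 + 2) (n6 + 2) (n3 + 2) 0 0 = G 0 0 1 (n1 + 2) (n6 + 2) (n3 + 2) 0 - G (n6 + 2) 0 1 (n1 + 2) (n3 + 2) 0 0 + G (n6 + 1) 1 1 (n1 + 2) (n3 + 2) 0 0 := S.al1' (n6 + 1) 0 (n1 + 2) (n3 + 2) 0 0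
  have r5 : D (n1 + 1) (n3 + 2) 1 (n6 + 2) 1 0 = G 0 0 (n1 + 1) (n3 + 2) 1 (n6 + 2) 1 - G 1 0 (n1 + 1) (n3 + 2) (n6 + 2) 1 0 + G 0 1 (n1 + 1) (n3 + 2) (n6 + 2) 1 0 := S.al1' 0 n1 (n3 + 2) (n6 + 2) 1 0
  have r6 : D (n1 + 2) 0 0 (n6 + 2) (n3 + 2) 1 = G 1 0 (n1 + 2) 0 0 (n6 + 2) (n3 + 2) - G 0 0 (n1 + 2) 0 (n6 + 2) (n3 + 2) 1 := S.al0' (n1 + 1) 0 (n6 + 2) (n3 + 2) 1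
  have r7 : D (n1 + 2) 0 1 0 (n6 + 2) (n3 + 2) = G (n3 + 2) 0 (n1 + 2) 0 1 0 (n6 + 2) - G 1 0 (n1 + 2) 0 0 (n6 + 2) (n3 + 2) + G 0 1 (n1 + 2) 0 0 (n6 + 2) (n3 + 2) := S.al1' 0 (n1 + 1) 0 0 (n6 + 2) (n3 + 2)
  have r8 : D (n1 + 2) 0 (n3 + 2) 1 0 (n6 + 2) = G (n6 + 2) 0 (n1 + 2) 0 (n3 + 2) 1 0 - G (n3 + 2) 0 (n1 + 2) 0 1 0 (n6 + 2) + G (n3 + 1) 1 (n1 + 2) 0 1 0 (n6 + 2) := S.al1' (n3 + 1) (n1 + 1) 0 1 0 (n6 + 2)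
  have r9 : D (n1 + 2) (n3 + 2) 0 1 0 (n6 + 2) = G (n6 + 2) 0 (n1 + 2) (n3 + 2) 0 1 0 - G 0 0 (n1 + 2) (n3 + 2) 1 0 (n6 + 2) := S.al0' (n1 + 1) (n3 + 2) 1 0 (n6 + 2)
  have r10 : D (n1 + 2) (n3 + 2) 1 0 (n6 + 2) 0 = G 0 0 (n1 + 2) (n3 + 2) 1 0 (n6 + 2) - G 1 0 (n1 + 2) (n3 + 2) 0 (n6 + 2) 0 + G 0 1 (n1 + 2) (n3 + 2) 0 (n6 + 2) 0 := S.al1' 0 (n1 + 1) (n3 + 2) 0 (n6 + 2) 0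
  have r11 : D (n3 + 1) 0 1 (n6 + 2) (n1 + 2) 1 = G 1 0 (n3 + 1) 0 1 (n6 + 2) (n1 + 2) - G 1 0 (n3 + 1) 0 (n6 + 2) (n1 + 2) 1 + G 0 1 (n3 + 1) 0 (n6 + 2) (n1 + 2) 1 := S.al1' 0 n3 0 (n6 + 2) (n1 + 2) 1
  have r12 : D (n3 + 2) 0 0 (n6 + 2) (n1 + 2) 1 = G 1 0 (n3 + 2) 0 0 (n6 + 2) (n1 + 2) - G 0 0 (n3 + 2) 0 (n6 + 2) (n1 + 2) 1 := S.al0' (n3 + 1) 0 (n6 + 2) (n1 + 2) 1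
  have r13 : C 1 0 0 (n1 + 2) (n3 + 2) (n6 + 2) = G (n6 + 2) 0 (n1 + 2) (n3 + 2) 0 1 0 - G 0 (n1 + 2) (n3 + 2) (n6 + 2) 0 1 0 := S.al0 (n1 + 2) (n3 + 2) (n6 + 2) 0 0
  have r14 : C 1 (n6 + 1) (n3 + 2) 1 (n1 + 2) 0 = G 0 (n3 + 2) 1 (n1 + 2) 0 1 (n6 + 1) - G (n3 + 2) 1 (n1 + 2) 0 0 1 (n6 + 1) + G (n3 + 1) 1 (n1 + 2) 0 1 1 (n6 + 1) := S.al1 (n3 + 1) 1 (n1 + 2) 0 0 (n6 + 1)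
  have r15 : C (n6 + 1) (n3 + 2) 1 1 (n1 + 2) 0 = G 0 1 1 (n1 + 2) 0 (n6 + 1) (n3 + 2) - G 1 1 (n1 + 2) 0 0 (n6 + 1) (n3 + 2) + G 0 1 (n1 + 2) 0 1 (n6 + 1) (n3 + 2) := S.al1 0 1 (n1 + 2) 0 n6 (n3 + 2)
  have r16 : C (n6 + 2) 0 0 (n1 + 2) (n3 + 2) 1 = G 1 0 (n1 + 2) (n3 + 2) 0 (n6 + 2) 0 - G 0 (n1 + 2) (n3 + 2) 1 0 (n6 + 2) 0 := S.al0 (n1 + 2) (n3 + 2) 1 (n6 + 1) 0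
  have r17 : C (n6 + 2) 0 1 (n1 + 2) (n3 + 2) 0 = G 0 1 (n1 + 2) (n3 + 2) 0 (n6 + 2) 0 - G 1 (n1 + 2) (n3 + 2) 0 0 (n6 + 2) 0 + G 0 (n1 + 2) (n3 + 2) 0 1 (n6 + 2) 0 := S.al1 0 (n1 + 2) (n3 + 2) 0 (n6 + 1) 0
  have r18 : C (n6 + 2) 1 0 0 (n1 + 2) (n3 + 2) = G (n3 + 2) 0 0 (n1 + 2) 0 (n6 + 2) 1 - G 0 0 (n1 + 2) (n3 + 2) 0 (n6 + 2) 1 := S.al0 0 (n1 + 2) (n3 + 2) (n6 + 1) 1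
  have r19 : C (n6 + 2) 1 0 (n1 + 2) (n3 + 2) 0 = G 0 0 (n1 + 2) (n3 + 2) 0 (n6 + 2) 1 - G 0 (n1 + 2) (n3 + 2) 0 0 (n6 + 2) 1 := S.al0 (n1 + 2) (n3 + 2) 0 (n6 + 1) 1
  have r20 : C (n6 + 2) 1 (n1 + 2) (n3 + 2) 0 0 = G 0 (n1 + 2) (n3 + 2) 0 0 (n6 + 2) 1 - G (n1 + 2) (n3 + 2) 0 0 0 (n6 + 2) 1 + G (n1 + 1) (n3 + 2) 0 0 1 (n6 + 2) 1 := S.al1 (n1 + 1) (n3 + 2) 0 0 (n6 + 1) 1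
  have r21 : C (n6 + 2) 1 (n3 + 2) 0 0 (n1 + 2) = G (n1 + 2) (n3 + 2) 0 0 0 (n6 + 2) 1 - G (n3 + 2) 0 0 (n1 + 2) 0 (n6 + 2) 1 + G (n3 + 1) 0 0 (n1 + 2) 1 (n6 + 2) 1 := S.al1 (n3 + 1) 0 0 (n1 + 2) (n6 + 1) 1
  have r22 : C (n6 + 2) (n1 + 2) 0 (n3 + 2) 0 1 = G 1 0 (n3 + 2) 0 0 (n6 + 2) (n1 + 2) - G 0 (n3 + 2) 0 1 0 (n6 + 2) (n1 + 2) := S.al0 (n3 + 2) 0 1 (n6 + 1) (n1 + 2)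
  have r23 : C (n6 + 2) (n1 + 2) (n3 + 2) 0 1 0 = G 0 (n3 + 2) 0 1 0 (n6 + 2) (n1 + 2) - G (n3 + 2) 0 1 0 0 (n6 + 2) (n1 + 2) + G (n3 + 1) 0 1 0 1 (n6 + 2) (n1 + 2) := S.al1 (n3 + 1) 0 1 0 (n6 + 1) (n1 + 2)
  have r24 : C (n6 + 2) (n3 + 2) 0 1 (n1 + 2) 0 = G 0 0 1 (n1 + 2) 0 (n6 + 2) (n3 + 2) - G 0 1 (n1 + 2) 0 0 (n6 + 2) (n3 + 2) := S.al0 1 (n1 + 2) 0 (n6 + 1) (n3 + 2)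
  have z0 : G 0 0 1 0 (n6 + 2) (n1 + 2) (n3 + 2) = 0 := S.van 0 0 1 0 n6 (n1 + 1) (n3 + 2)
  have z1 : G 0 0 1 (n1 + 2) (n6 + 2) (n3 + 2) 0 = 0 := S.van 0 0 1 (n1 + 2) n6 (n3 + 1) 0
  have z2 : G (n1 + 1) (n3 + 2) 0 0 1 (n6 + 2) 1 = G 0 0 (n1 + 1) (n3 + 2) 1 (n6 + 2) 1 := S.r2 (n1 + 1) (n3 + 2) 0 0 (n6 + 1) 1
  have z3 : G 0 0 (n1 + 2) 0 (n6 + 2) (n3 + 2) 1 = 0 := S.van 0 0 (n1 + 2) 0 n6 (n3 + 1) 1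
  have z4 : G 0 0 (n3 + 2) 0 (n6 + 2) (n1 + 2) 1 = 0 := S.van 0 0 (n3 + 2) 0 n6 (n1 + 1) 1
  have z5 : G (n6 + 1) 1 1 (n1 + 2) (n3 + 2) 0 0 = G 0 1 1 (n1 + 2) 0 (n6 + 1) (n3 + 2) := S.m2 (n6 + 1) 0 (n1 + 2) (n3 + 2) 0 0
  have z6 : G (n3 + 1) 1 (n1 + 2) 0 1 1 (n6 + 1) = G 1 1 (n1 + 2) 0 1 (n6 + 1) (n3 + 1) := S.m3 (n3 + 1) (n1 + 1) 0 1 1 (n6 + 1)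
  have z7 : G 1 1 (n1 + 2) 0 1 (n6 + 1) (n3 + 1) = G 0 1 1 (n1 + 2) 1 (n6 + 1) (n3 + 1) := S.r1 1 1 (n1 + 2) 0 n6 (n3 + 1)
  have z8 : G 0 1 (n1 + 1) (n3 + 2) (n6 + 2) 1 0 = 0 := S.van 0 1 (n1 + 1) (n3 + 2) n6 0 0
  have z9 : G 0 1 (n1 + 2) 0 0 (n6 + 2) (n3 + 2) = G 0 1 (n1 + 2) 0 (n6 + 2) (n3 + 2) 0 := S.m3 0 (n1 + 1) 0 0 (n6 + 2) (n3 + 2)
  have z10 : G 0 1 (n1 + 2) 0 (n6 + 2) (n3 + 2) 0 = 0 := S.van 0 1 (n1 + 2) 0 n6 (n3 + 1) 0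
  have z11 : G (n3 + 2) 1 (n1 + 2) 0 0 1 (n6 + 1) = G 0 1 (n1 + 2) 0 1 (n6 + 1) (n3 + 2) := S.m3 (n3 + 2) (n1 + 1) 0 0 1 (n6 + 1)
  have z12 : G 0 1 (n3 + 1) 0 (n6 + 2) (n1 + 2) 1 = 0 := S.van 0 1 (n3 + 1) 0 n6 (n1 + 1) 1
  have z13 : G 0 (n1 + 2) (n3 + 2) 0 1 (n6 + 2) 0 = 0 := S.van' 0 n1 (n3 + 1) 0 1 (n6 + 2) 0
  have z14 : G 0 (n1 + 2) (n3 + 2) 1 0 (n6 + 2) 0 = 0 := S.van' 0 n1 (n3 + 1) 1 0 (n6 + 2) 0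
  have z15 : G 0 (n1 + 2) (n3 + 2) (n6 + 2) 0 1 0 = 0 := S.van' 0 n1 (n3 + 1) (n6 + 2) 0 1 0
  have z16 : G 0 (n3 + 2) 1 (n1 + 2) 0 1 (n6 + 1) = 0 := S.van' 0 n3 0 (n1 + 2) 0 1 (n6 + 1)
  have z17 : G 1 0 1 (n1 + 2) 1 (n6 + 1) (n3 + 1) = G 1 (n1 + 2) 1 0 1 (n6 + 1) (n3 + 1) := S.r2 1 0 1 (n1 + 2) n6 (n3 + 1)
  have z18 : G 1 (n1 + 2) 1 0 1 (n6 + 1) (n3 + 1) = 0 := S.van' 1 n1 0 0 1 (n6 + 1) (n3 + 1)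
  have z19 : G 1 0 (n1 + 1) (n3 + 2) (n6 + 2) 1 0 = 0 := S.van 1 0 (n1 + 1) (n3 + 2) n6 0 0
  have z20 : G (n3 + 1) 0 1 0 1 (n6 + 2) (n1 + 2) = G 0 1 0 (n3 + 1) 1 (n6 + 2) (n1 + 2) := S.r3 (n3 + 1) 0 1 0 (n6 + 1) (n1 + 2)
  have z21 : G 1 0 (n3 + 1) 0 1 (n6 + 2) (n1 + 2) = G 0 1 0 (n3 + 1) 1 (n6 + 2) (n1 + 2) := S.r1 1 0 (n3 + 1) 0 (n6 + 1) (n1 + 2)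
  have z22 : G 1 0 (n3 + 1) 0 (n6 + 2) (n1 + 2) 1 = 0 := S.van 1 0 (n3 + 1) 0 n6 (n1 + 1) 1
  have z23 : G 1 1 (n1 + 2) 0 0 (n6 + 1) (n3 + 2) = G (n6 + 1) 1 (n1 + 2) 0 (n3 + 2) 1 0 := S.m2 1 (n1 + 1) 0 0 (n6 + 1) (n3 + 2)
  have z24 : G (n6 + 1) 1 (n1 + 2) 0 (n3 + 2) 1 0 = 0 := S.van (n6 + 1) 1 (n1 + 2) 0 n3 0 0
  have z25 : G 1 (n1 + 2) (n3 + 2) 0 0 (n6 + 2) 0 = 0 := S.van' 1 n1 (n3 + 1) 0 0 (n6 + 2) 0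
  have z26 : G (n3 + 1) 0 0 (n1 + 2) 1 (n6 + 2) 1 = G 0 (n1 + 2) (n3 + 1) 0 1 (n6 + 2) 1 := S.r2 (n3 + 1) 0 0 (n1 + 2) (n6 + 1) 1
  have z27 : G 0 (n1 + 2) (n3 + 1) 0 1 (n6 + 2) 1 = 0 := S.van' 0 n1 n3 0 1 (n6 + 2) 1
  have z28 : G (n3 + 1) 0 1 (n1 + 2) 1 1 (n6 + 1) = G 1 (n1 + 2) (n3 + 1) 0 1 1 (n6 + 1) := S.r2 (n3 + 1) 0 1 (n1 + 2) 0 (n6 + 1)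
  have z29 : G 1 (n1 + 2) (n3 + 1) 0 1 1 (n6 + 1) = 0 := S.van' 1 n1 n3 0 1 1 (n6 + 1)
  have z30 : G (n3 + 1) 1 1 (n1 + 2) 0 0 (n6 + 2) = G 0 1 1 (n1 + 2) (n6 + 2) (n3 + 1) 0 := S.m2 (n3 + 1) 0 (n1 + 2) 0 0 (n6 + 2)
  have z31 : G 0 1 1 (n1 + 2) (n6 + 2) (n3 + 1) 0 = 0 := S.van 0 1 1 (n1 + 2) n6 n3 0
  have z32 : G (n3 + 1) 1 (n1 + 2) 0 1 0 (n6 + 2) = G 0 1 (n1 + 2) 0 (n6 + 2) (n3 + 1) 1 := S.m2 (n3 + 1) (n1 + 1) 0 1 0 (n6 + 2)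
  have z33 : G 0 1 (n1 + 2) 0 (n6 + 2) (n3 + 1) 1 = 0 := S.van 0 1 (n1 + 2) 0 n6 n3 1
  have z34 : G (n6 + 2) 0 (n1 + 2) 0 (n3 + 2) 1 0 = 0 := S.van (n6 + 2) 0 (n1 + 2) 0 n3 0 0
  have z35 : D 1 0 0 (n6 + 2) (n1 + 2) (n3 + 2) = 0 := (S.d2 1 0 0 (n6 + 2) (n1 + 2) (n3 + 2)).trans (L_g1_g2_g2_g1_e0_e0 S.mirror 0 n6 n1 (n3 + 1))
  have z36 : D 1 (n1 + 2) (n3 + 2) 0 0 (n6 + 2) = 0 := (S.d4 1 (n1 + 2) (n3 + 2) 0 0 (n6 + 2)).trans (L_g1_g2_g2_g1_e0_e0 S.mirror 0 n6 n1 (n3 + 1))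
  have z37 : D 1 (n1 + 2) 0 0 (n6 + 2) (n3 + 2) = 0 := (S.d3 1 (n1 + 2) 0 0 (n6 + 2) (n3 + 2)).trans (L_g1_g2_g2_g1_e0_e0 S.mirror 0 n6 n3 (n1 + 1))
  have z38 : D 1 (n1 + 2) 1 1 (n6 + 1) (n3 + 1) = 0 := S_p5 S.mirror 0 (n1 + 1) 0 0 n6 n3
  have z39 : D 1 (n1 + 2) (n6 + 2) (n3 + 2) 0 0 = 0 := L_g1_g2_g2_g1_e0_e0 S.mirror 0 n1 n6 (n3 + 1)
  have z40 : D (n1 + 1) (n3 + 2) 1 (n6 + 2) 1 0 = 0 := S_p4 S.mirror n1 (n3 + 1) 0 (n6 + 1) 0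
  have z41 : D (n1 + 2) 0 0 (n6 + 2) (n3 + 2) 1 = 0 := (S.d2 (n1 + 2) 0 0 (n6 + 2) (n3 + 2) 1).trans (L_g1_g2_g2_g1_e0_e0 S.mirror (n1 + 1) n6 n3 0)
  have z42 : D (n1 + 2) (n3 + 2) 0 1 0 (n6 + 2) = D (n1 + 2) 0 1 0 (n6 + 2) (n3 + 2) := S.d1 (n1 + 2) (n3 + 2) 0 1 0 (n6 + 2)
  have z43 : D (n1 + 2) (n3 + 2) 1 0 (n6 + 2) 0 = D (n1 + 2) 0 (n3 + 2) 1 0 (n6 + 2) := S.d4 (n1 + 2) (n3 + 2) 1 0 (n6 + 2) 0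
  have z44 : D (n3 + 1) 0 1 (n6 + 2) (n1 + 2) 1 = 0 := (S.d1 (n3 + 1) 0 1 (n6 + 2) (n1 + 2) 1).trans (S_p4 S.mirror n3 0 (n6 + 1) (n1 + 1) 0)
  have z45 : D (n3 + 2) 0 0 (n6 + 2) (n1 + 2) 1 = 0 := (S.d2 (n3 + 2) 0 0 (n6 + 2) (n1 + 2) 1).trans (L_g1_g2_g2_g1_e0_e0 S.mirror (n3 + 1) n6 n1 0)
  have z46 : C 1 0 0 (n1 + 2) (n3 + 2) (n6 + 2) = 0 := (S.c2 1 0 0 (n1 + 2) (n3 + 2) (n6 + 2)).trans (L_g1_g2_g2_g1_e0_e0 S 0 n1 n3 (n6 + 1))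
  have z47 : C 1 (n6 + 1) (n3 + 2) 1 (n1 + 2) 0 = 0 := S_p4 S 0 n6 (n3 + 1) 0 (n1 + 1)
  have z48 : C (n6 + 1) (n3 + 2) 1 1 (n1 + 2) 0 = 0 := S_p4 S n6 (n3 + 1) 0 0 (n1 + 1)
  have z49 : C (n6 + 2) 0 0 (n1 + 2) (n3 + 2) 1 = 0 := (S.c2 (n6 + 2) 0 0 (n1 + 2) (n3 + 2) 1).trans (L_g1_g2_g2_g1_e0_e0 S (n6 + 1) n1 n3 0)
  have z50 : C (n6 + 2) 1 0 0 (n1 + 2) (n3 + 2) = 0 := (S.c3 (n6 + 2) 1 0 0 (n1 + 2) (n3 + 2)).trans (L_g1_g2_g2_g1_e0_e0 S (n6 + 1) n1 n3 0)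
  have z51 : C (n6 + 2) 1 (n1 + 2) (n3 + 2) 0 0 = C (n6 + 2) 0 1 (n1 + 2) (n3 + 2) 0 := S.c4 (n6 + 2) 1 (n1 + 2) (n3 + 2) 0 0
  have z52 : C (n6 + 2) (n1 + 2) (n3 + 2) 0 1 0 = C (n6 + 2) 1 0 (n1 + 2) (n3 + 2) 0 := S.c3 (n6 + 2) (n1 + 2) (n3 + 2) 0 1 0
  have z53 : C (n6 + 2) (n1 + 2) 1 (n3 + 2) 0 0 = C (n6 + 2) 1 (n3 + 2) 0 0 (n1 + 2) := S.c1 (n6 + 2) (n1 + 2) 1 (n3 + 2) 0 0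
  have z54 : C (n6 + 2) (n3 + 2) 0 1 (n1 + 2) 0 = C (n6 + 2) (n1 + 2) 0 (n3 + 2) 0 1 := S.c3 (n6 + 2) (n3 + 2) 0 1 (n1 + 2) 0
  linear_combination (((((-1 : ℚ) * r0 + (1 : ℚ) * r1 + (1 : ℚ) * r2 + (1 : ℚ) * r3 + (1 : ℚ) * r4)
    + ((-1 : ℚ) * r5 + (-1 : ℚ) * r6 + (-1 : ℚ) * r7 + (-1 : ℚ) * r8 + (1 : ℚ) * r9))
    + (((1 : ℚ) * r10 + (1 : ℚ) * r11 + (1 : ℚ) * r12 + (-1 : ℚ) * r13 + (-1 : ℚ) * r14)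
    + ((-1 : ℚ) * r15 + (1 : ℚ) * r16 + (-1 : ℚ) * r17 + (1 : ℚ) * r18 + (1 : ℚ) * r19)))
    + ((((1 : ℚ) * r20 + (1 : ℚ) * r21 + (-1 : ℚ) * r22 + (-1 : ℚ) * r23 + (1 : ℚ) * r24)
    + ((1 : ℚ) * z0 + (1 : ℚ) * z1 + (1 : ℚ) * z2 + (1 : ℚ) * z3 + (-1 : ℚ) * z4))
    + (((1 : ℚ) * z5 + (-1 : ℚ) * z6 + (-1 : ℚ) * z7 + (-1 : ℚ) * z8 + (-2 : ℚ) * z9)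
    + ((-2 : ℚ) * z10 + (1 : ℚ) * z11 + (1 : ℚ) * z12 + (-1 : ℚ) * z13 + (-1 : ℚ) * z14))))
    + (((((1 : ℚ) * z15 + (-1 : ℚ) * z16 + (-1 : ℚ) * z17 + (-1 : ℚ) * z18 + (1 : ℚ) * z19)
    + ((-1 : ℚ) * z20 + (1 : ℚ) * z21 + (-1 : ℚ) * z22 + (1 : ℚ) * z23 + (1 : ℚ) * z24))
    + (((1 : ℚ) * z25 + (1 : ℚ) * z26 + (1 : ℚ) * z27 + (1 : ℚ) * z28 + (1 : ℚ) * z29)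
    + ((1 : ℚ) * z30 + (1 : ℚ) * z31 + (-1 : ℚ) * z32 + (-1 : ℚ) * z33 + (-1 : ℚ) * z34)))
    + ((((1 : ℚ) * z35 + (-1 : ℚ) * z36 + (-1 : ℚ) * z37 + (-1 : ℚ) * z38 + (-1 : ℚ) * z39)
    + ((1 : ℚ) * z40 + (1 : ℚ) * z41 + (-1 : ℚ) * z42 + (-1 : ℚ) * z43 + (-1 : ℚ) * z44))
    + (((-1 : ℚ) * z45 + (1 : ℚ) * z46 + (1 : ℚ) * z47 + (1 : ℚ) * z48 + (-1 : ℚ) * z49)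
    + ((-1 : ℚ) * z50 + (-1 : ℚ) * z51 + (1 : ℚ) * z52 + (1 : ℚ) * z53 + (-1 : ℚ) * z54))))

theorem S_p3a (S : Sys6 G C D) :
    ∀ n6 n1 n2 n3 : ℕ, C (n6 + 1) (n1 + 1) (n2 + 1) (n3 + 1) 0 0 = 0
  | 0, 0, 0, 0 => L_e1_e1_e1_e1_e0_e0 S 
  | 0, 0, 0, n3 + 1 => L_e1_e1_e1_g2_e0_e0 S n3
  | 0, 0, n2 + 1, 0 => L_e1_e1_g2_e1_e0_e0 S n2
  | 0, 0, n2 + 1, n3 + 1 => L_e1_e1_g2_g2_e0_e0 S n2 n3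
  | 0, n1 + 1, 0, 0 => L_e1_g2_e1_e1_e0_e0 S n1
  | 0, n1 + 1, 0, n3 + 1 => L_e1_g2_e1_g2_e0_e0 S n1 n3
  | 0, n1 + 1, n2 + 1, 0 => L_g1_g2_g2_g1_e0_e0 S 0 n1 n2 0
  | 0, n1 + 1, n2 + 1, n3 + 1 => L_g1_g2_g2_g1_e0_e0 S 0 n1 n2 (n3 + 1)
  | n6 + 1, 0, 0, 0 => L_g2_e1_e1_e1_e0_e0 S n6
  | n6 + 1, 0, 0, n3 + 1 => L_g2_e1_e1_g2_e0_e0 S n6 n3
  | n6 + 1, 0, n2 + 1, 0 => L_g2_e1_g2_e1_e0_e0 S n6 n2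
  | n6 + 1, 0, n2 + 1, n3 + 1 => L_g2_e1_g2_g2_e0_e0 S n6 n2 n3
  | n6 + 1, n1 + 1, 0, 0 => L_g2_g2_e1_e1_e0_e0 S n6 n1
  | n6 + 1, n1 + 1, 0, n3 + 1 => L_g2_g2_e1_g2_e0_e0 S n6 n1 n3
  | n6 + 1, n1 + 1, n2 + 1, 0 => L_g1_g2_g2_g1_e0_e0 S (n6 + 1) n1 n2 0
  | n6 + 1, n1 + 1, n2 + 1, n3 + 1 => L_g1_g2_g2_g1_e0_e0 S (n6 + 1) n1 n2 (n3 + 1)

theorem L_e1_e1_e1_e0_e1_e0 (S : Sys6 G C D) : C 1 1 1 0 1 0 = 0 := by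
  have r0 : C 1 1 0 0 1 1 = G 1 0 0 1 0 1 1 - G 0 0 1 1 0 1 1 := S.al0 0 1 1 0 1
  have r1 : C 1 1 0 1 0 1 = G 1 0 1 0 0 1 1 - G 0 1 0 1 0 1 1 := S.al0 1 0 1 0 1
  have r2 : C 1 1 0 1 1 0 = G 0 0 1 1 0 1 1 - G 0 1 1 0 0 1 1 := S.al0 1 1 0 0 1
  have r3 : C 1 1 1 0 0 1 = G 1 1 0 0 0 1 1 - G 1 0 0 1 0 1 1 + G 0 0 0 1 1 1 1 := S.al1 0 0 0 1 0 1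
  have r4 : C 1 1 1 0 1 0 = G 0 1 0 1 0 1 1 - G 1 0 1 0 0 1 1 + G 0 0 1 0 1 1 1 := S.al1 0 0 1 0 0 1
  have r5 : C 1 1 1 1 0 0 = G 0 1 1 0 0 1 1 - G 1 1 0 0 0 1 1 + G 0 1 0 0 1 1 1 := S.al1 0 1 0 0 0 1
  have z0 : G 0 1 0 0 1 1 1 = G 0 0 0 1 1 1 1 := S.r2 0 1 0 0 0 1
  have z1 : G 0 0 1 0 1 1 1 = G 0 0 0 1 1 1 1 := S.r1 0 0 1 0 0 1
  have z2 : C 1 1 0 0 1 1 = 0 := (S.c3 1 1 0 0 1 1).trans (S_p3a S 0 0 0 0)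
  have z3 : C 1 1 1 0 0 1 = 0 := (S.c4 1 1 1 0 0 1).trans (S_p3a S 0 0 0 0)
  have z4 : C 1 1 1 1 0 0 = 0 := S_p3a S 0 0 0 0
  have z5 : C 1 1 0 1 1 0 = C 1 1 0 1 0 1 := S.c3 1 1 0 1 1 0
  have z6 : C 1 1 1 0 1 0 = C 1 1 0 1 0 1 := S.c1 1 1 1 0 1 0
  linear_combination ((-1 / 3 : ℚ) * r0 + (2 / 3 : ℚ) * r1 + (-1 / 3 : ℚ) * r2 + (-1 / 3 : ℚ) * r3 + (2 / 3 : ℚ) * r4 + (-1 / 3 : ℚ) * r5 + (-1 / 3 : ℚ) * z0)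
    + ((2 / 3 : ℚ) * z1 + (1 / 3 : ℚ) * z2 + (1 / 3 : ℚ) * z3 + (1 / 3 : ℚ) * z4 + (1 / 3 : ℚ) * z5 + (1 / 3 : ℚ) * z6)

theorem L_e1_g2_e1_e0_e1_e0 (S : Sys6 G C D) (n1 : ℕ) : C 1 (n1 + 2) 1 0 1 0 = 0 := by
  have r0 : D (n1 + 2) 1 0 0 1 1 = G 1 0 (n1 + 2) 1 0 0 1 - G 0 0 (n1 + 2) 1 0 1 1 := S.al0' (n1 + 1) 1 0 1 1
  have r1 : D (n1 + 2) 1 1 0 0 1 = G 1 0 (n1 + 2) 1 1 0 0 - G 1 0 (n1 + 2) 1 0 0 1 + G 0 1 (n1 + 2) 1 0 0 1 := S.al1' 0 (n1 + 1) 1 0 0 1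
  have r2 : D (n1 + 2) 1 1 1 0 0 = G 0 0 (n1 + 2) 1 1 1 0 - G 1 0 (n1 + 2) 1 1 0 0 + G 0 1 (n1 + 2) 1 1 0 0 := S.al1' 0 (n1 + 1) 1 1 0 0
  have r3 : C 1 0 1 (n1 + 2) 1 0 = G 0 1 (n1 + 2) 1 0 1 0 - G 1 (n1 + 2) 1 0 0 1 0 + G 0 (n1 + 2) 1 0 1 1 0 := S.al1 0 (n1 + 2) 1 0 0 0
  have r4 : C 1 1 0 (n1 + 2) 1 0 = G 0 0 (n1 + 2) 1 0 1 1 - G 0 (n1 + 2) 1 0 0 1 1 := S.al0 (n1 + 2) 1 0 0 1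
  have z0 : G 0 0 (n1 + 2) 1 1 1 0 = G 0 (n1 + 2) 1 0 1 1 0 := S.r3 0 0 (n1 + 2) 1 0 0
  have z1 : G 0 (n1 + 2) 1 0 1 1 0 = 0 := S.van' 0 n1 0 0 1 1 0
  have z2 : G 0 1 (n1 + 2) 1 1 0 0 = G 0 1 (n1 + 2) 1 0 0 1 := S.m2 0 (n1 + 1) 1 1 0 0
  have z3 : G 0 1 (n1 + 2) 1 0 1 0 = G 0 1 (n1 + 2) 1 0 0 1 := S.m1 0 (n1 + 1) 1 0 1 0
  have z4 : G 0 (n1 + 2) 1 0 0 1 1 = 0 := S.van' 0 n1 0 0 0 1 1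
  have z5 : G 1 (n1 + 2) 1 0 0 1 0 = 0 := S.van' 1 n1 0 0 0 1 0
  have z6 : D (n1 + 2) 1 0 0 1 1 = 0 := (S.d3 (n1 + 2) 1 0 0 1 1).trans (S_p3a S.mirror (n1 + 1) 0 0 0)
  have z7 : D (n1 + 2) 1 1 0 0 1 = 0 := (S.d4 (n1 + 2) 1 1 0 0 1).trans (S_p3a S.mirror (n1 + 1) 0 0 0)
  have z8 : D (n1 + 2) 1 1 1 0 0 = 0 := S_p3a S.mirror (n1 + 1) 0 0 0
  have z9 : C 1 0 1 (n1 + 2) 1 0 = 0 := (S.c1 1 0 1 (n1 + 2) 1 0).trans (S_p3a S 0 0 (n1 + 1) 0)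
  have z10 : C 1 (n1 + 2) 1 0 1 0 = C 1 1 0 (n1 + 2) 1 0 := S.c3 1 (n1 + 2) 1 0 1 0
  linear_combination ((1 : ℚ) * r0 + (1 : ℚ) * r1 + (1 : ℚ) * r2 + (-2 : ℚ) * r3 + (1 : ℚ) * r4 + (1 : ℚ) * z0 + (-1 : ℚ) * z1 + (1 : ℚ) * z2)
    + ((-2 : ℚ) * z3 + (-1 : ℚ) * z4 + (2 : ℚ) * z5 + (-1 : ℚ) * z6 + (-1 : ℚ) * z7 + (-1 : ℚ) * z8 + (2 : ℚ) * z9 + (1 : ℚ) * z10)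

theorem L_e1_g2_e1_e0_g2_e0 (S : Sys6 G C D) (n1 n4 : ℕ) : C 1 (n1 + 2) 1 0 (n4 + 2) 0 = 0 := by
  have r0 : D (n1 + 2) 1 0 0 1 (n4 + 2) = G (n4 + 2) 0 (n1 + 2) 1 0 0 1 - G 0 0 (n1 + 2) 1 0 1 (n4 + 2) := S.al0' (n1 + 1) 1 0 1 (n4 + 2)
  have r1 : D (n1 + 2) 1 1 (n4 + 2) 0 0 = G 0 0 (n1 + 2) 1 1 (n4 + 2) 0 - G 1 0 (n1 + 2) 1 (n4 + 2) 0 0 + G 0 1 (n1 + 2) 1 (n4 + 2) 0 0 := S.al1' 0 (n1 + 1) 1 (n4 + 2) 0 0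
  have r2 : D (n1 + 2) 1 (n4 + 2) 0 0 1 = G 1 0 (n1 + 2) 1 (n4 + 2) 0 0 - G (n4 + 2) 0 (n1 + 2) 1 0 0 1 + G (n4 + 1) 1 (n1 + 2) 1 0 0 1 := S.al1' (n4 + 1) (n1 + 1) 1 0 0 1
  have r3 : C 1 (n4 + 2) 0 (n1 + 2) 1 0 = G 0 0 (n1 + 2) 1 0 1 (n4 + 2) - G 0 (n1 + 2) 1 0 0 1 (n4 + 2) := S.al0 (n1 + 2) 1 0 0 (n4 + 2)
  have r4 : C (n4 + 2) 0 1 (n1 + 2) 1 0 = G 0 1 (n1 + 2) 1 0 (n4 + 2) 0 - G 1 (n1 + 2) 1 0 0 (n4 + 2) 0 + G 0 (n1 + 2) 1 0 1 (n4 + 2) 0 := S.al1 0 (n1 + 2) 1 0 (n4 + 1) 0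
  have z0 : G 0 0 (n1 + 2) 1 1 (n4 + 2) 0 = G 0 (n1 + 2) 1 0 1 (n4 + 2) 0 := S.r3 0 0 (n1 + 2) 1 (n4 + 1) 0
  have z1 : G 0 1 (n1 + 2) 1 (n4 + 2) 0 0 = G 0 1 (n1 + 2) 1 0 0 (n4 + 2) := S.m2 0 (n1 + 1) 1 (n4 + 2) 0 0
  have z2 : G 0 1 (n1 + 2) 1 0 (n4 + 2) 0 = G 0 1 (n1 + 2) 1 0 0 (n4 + 2) := S.m1 0 (n1 + 1) 1 0 (n4 + 2) 0
  have z3 : G 0 (n1 + 2) 1 0 0 1 (n4 + 2) = 0 := S.van' 0 n1 0 0 0 1 (n4 + 2)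
  have z4 : G 1 (n1 + 2) 1 0 0 (n4 + 2) 0 = 0 := S.van' 1 n1 0 0 0 (n4 + 2) 0
  have z5 : G (n4 + 1) 1 (n1 + 2) 1 0 0 1 = G 0 1 (n1 + 2) 1 1 (n4 + 1) 0 := S.m2 (n4 + 1) (n1 + 1) 1 0 0 1
  have z6 : G 0 1 (n1 + 2) 1 1 (n4 + 1) 0 = G 1 (n1 + 2) 1 0 1 (n4 + 1) 0 := S.r3 0 1 (n1 + 2) 1 n4 0
  have z7 : G 1 (n1 + 2) 1 0 1 (n4 + 1) 0 = 0 := S.van' 1 n1 0 0 1 (n4 + 1) 0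
  have z8 : D (n1 + 2) 1 0 0 1 (n4 + 2) = 0 := (S.d3 (n1 + 2) 1 0 0 1 (n4 + 2)).trans (S_p3a S.mirror (n1 + 1) 0 (n4 + 1) 0)
  have z9 : D (n1 + 2) 1 1 (n4 + 2) 0 0 = 0 := S_p3a S.mirror (n1 + 1) 0 0 (n4 + 1)
  have z10 : D (n1 + 2) 1 (n4 + 2) 0 0 1 = 0 := (S.d4 (n1 + 2) 1 (n4 + 2) 0 0 1).trans (S_p3a S.mirror (n1 + 1) 0 0 (n4 + 1))
  have z11 : C 1 (n1 + 2) 1 0 (n4 + 2) 0 = C 1 (n4 + 2) 0 (n1 + 2) 1 0 := S.c3 1 (n1 + 2) 1 0 (n4 + 2) 0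
  have z12 : C (n4 + 2) 0 1 (n1 + 2) 1 0 = 0 := (S.c1 (n4 + 2) 0 1 (n1 + 2) 1 0).trans (S_p3a S (n4 + 1) 0 (n1 + 1) 0)
  linear_combination (((1 : ℚ) * r0 + (1 : ℚ) * r1 + (1 : ℚ) * r2 + (1 : ℚ) * r3 + (-1 : ℚ) * r4)
    + ((1 : ℚ) * z0 + (1 : ℚ) * z1 + (-1 : ℚ) * z2 + (-1 : ℚ) * z3))
    + (((1 : ℚ) * z4 + (1 : ℚ) * z5 + (1 : ℚ) * z6 + (1 : ℚ) * z7 + (-1 : ℚ) * z8)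
    + ((-1 : ℚ) * z9 + (-1 : ℚ) * z10 + (1 : ℚ) * z11 + (1 : ℚ) * z12))

theorem L_e1_g2_g2_e0_e1_e0 (S : Sys6 G C D) (n1 n2 : ℕ) : C 1 (n1 + 2) (n2 + 2) 0 1 0 = 0 := by
  have r0 : D (n1 + 2) (n2 + 2) 0 0 1 1 = G 1 0 (n1 + 2) (n2 + 2) 0 0 1 - G 0 0 (n1 + 2) (n2 + 2) 0 1 1 := S.al0' (n1 + 1) (n2 + 2) 0 1 1
  have r1 : D (n1 + 2) (n2 + 2) 1 0 0 1 = G 1 0 (n1 + 2) (n2 + 2) 1 0 0 - G 1 0 (n1 + 2) (n2 + 2) 0 0 1 + G 0 1 (n1 + 2) (n2 + 2) 0 0 1 := S.al1' 0 (n1 + 1) (n2 + 2) 0 0 1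
  have r2 : D (n1 + 2) (n2 + 2) 1 1 0 0 = G 0 0 (n1 + 2) (n2 + 2) 1 1 0 - G 1 0 (n1 + 2) (n2 + 2) 1 0 0 + G 0 1 (n1 + 2) (n2 + 2) 1 0 0 := S.al1' 0 (n1 + 1) (n2 + 2) 1 0 0
  have r3 : C 1 0 1 (n1 + 2) (n2 + 2) 0 = G 0 1 (n1 + 2) (n2 + 2) 0 1 0 - G 1 (n1 + 2) (n2 + 2) 0 0 1 0 + G 0 (n1 + 2) (n2 + 2) 0 1 1 0 := S.al1 0 (n1 + 2) (n2 + 2) 0 0 0
  have r4 : C 1 1 0 (n1 + 2) (n2 + 2) 0 = G 0 0 (n1 + 2) (n2 + 2) 0 1 1 - G 0 (n1 + 2) (n2 + 2) 0 0 1 1 := S.al0 (n1 + 2) (n2 + 2) 0 0 1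
  have z0 : G 0 0 (n1 + 2) (n2 + 2) 1 1 0 = G 0 (n1 + 2) (n2 + 2) 0 1 1 0 := S.r3 0 0 (n1 + 2) (n2 + 2) 0 0
  have z1 : G 0 (n1 + 2) (n2 + 2) 0 1 1 0 = 0 := S.van' 0 n1 (n2 + 1) 0 1 1 0
  have z2 : G 0 1 (n1 + 2) (n2 + 2) 1 0 0 = G 0 1 (n1 + 2) (n2 + 2) 0 0 1 := S.m2 0 (n1 + 1) (n2 + 2) 1 0 0
  have z3 : G 0 1 (n1 + 2) (n2 + 2) 0 1 0 = G 0 1 (n1 + 2) (n2 + 2) 0 0 1 := S.m1 0 (n1 + 1) (n2 + 2) 0 1 0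
  have z4 : G 0 (n1 + 2) (n2 + 2) 0 0 1 1 = 0 := S.van' 0 n1 (n2 + 1) 0 0 1 1
  have z5 : G 1 (n1 + 2) (n2 + 2) 0 0 1 0 = 0 := S.van' 1 n1 (n2 + 1) 0 0 1 0
  have z6 : D (n1 + 2) (n2 + 2) 0 0 1 1 = 0 := (S.d3 (n1 + 2) (n2 + 2) 0 0 1 1).trans (S_p3a S.mirror (n1 + 1) 0 0 (n2 + 1))
  have z7 : D (n1 + 2) (n2 + 2) 1 0 0 1 = 0 := (S.d4 (n1 + 2) (n2 + 2) 1 0 0 1).trans (S_p3a S.mirror (n1 + 1) 0 (n2 + 1) 0)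
  have z8 : D (n1 + 2) (n2 + 2) 1 1 0 0 = 0 := S_p3a S.mirror (n1 + 1) (n2 + 1) 0 0
  have z9 : C 1 0 1 (n1 + 2) (n2 + 2) 0 = 0 := (S.c1 1 0 1 (n1 + 2) (n2 + 2) 0).trans (S_p3a S 0 0 (n1 + 1) (n2 + 1))
  have z10 : C 1 (n1 + 2) (n2 + 2) 0 1 0 = C 1 1 0 (n1 + 2) (n2 + 2) 0 := S.c3 1 (n1 + 2) (n2 + 2) 0 1 0
  linear_combination ((1 : ℚ) * r0 + (1 : ℚ) * r1 + (1 : ℚ) * r2 + (-2 : ℚ) * r3 + (1 : ℚ) * r4 + (1 : ℚ) * z0 + (-1 : ℚ) * z1 + (1 : ℚ) * z2)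
    + ((-2 : ℚ) * z3 + (-1 : ℚ) * z4 + (2 : ℚ) * z5 + (-1 : ℚ) * z6 + (-1 : ℚ) * z7 + (-1 : ℚ) * z8 + (2 : ℚ) * z9 + (1 : ℚ) * z10)

theorem L_g2_e1_e1_e0_e1_e0 (S : Sys6 G C D) (n6 : ℕ) : C (n6 + 2) 1 1 0 1 0 = 0 := by
  have r0 : D 1 0 1 (n6 + 2) 1 0 = G 0 0 1 0 1 (n6 + 2) 1 - G 1 0 1 0 (n6 + 2) 1 0 + G 0 1 1 0 (n6 + 2) 1 0 := S.al1' 0 0 0 (n6 + 2) 1 0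
  have r1 : C (n6 + 2) 1 0 1 0 1 = G 1 0 1 0 0 (n6 + 2) 1 - G 0 1 0 1 0 (n6 + 2) 1 := S.al0 1 0 1 (n6 + 1) 1
  have r2 : C (n6 + 2) 1 1 0 1 0 = G 0 1 0 1 0 (n6 + 2) 1 - G 1 0 1 0 0 (n6 + 2) 1 + G 0 0 1 0 1 (n6 + 2) 1 := S.al1 0 0 1 0 (n6 + 1) 1
  have z0 : G 0 1 1 0 (n6 + 2) 1 0 = 0 := S.van 0 1 1 0 n6 0 0
  have z1 : G 1 0 1 0 (n6 + 2) 1 0 = 0 := S.van 1 0 1 0 n6 0 0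
  have z2 : D 1 0 1 (n6 + 2) 1 0 = 0 := (S.d1 1 0 1 (n6 + 2) 1 0).trans (S_p3a S.mirror 0 0 (n6 + 1) 0)
  have z3 : C (n6 + 2) 1 1 0 1 0 = C (n6 + 2) 1 0 1 0 1 := S.c1 (n6 + 2) 1 1 0 1 0
  linear_combination (-1 / 2 : ℚ) * r0 + (1 / 2 : ℚ) * r1 + (1 / 2 : ℚ) * r2 + (-1 / 2 : ℚ) * z0 + (1 / 2 : ℚ) * z1 + (1 / 2 : ℚ) * z2 + (1 / 2 : ℚ) * z3

theorem L_g2_e1_e1_e0_g2_e0 (S : Sys6 G C D) (n6 n4 : ℕ) : C (n6 + 2) 1 1 0 (n4 + 2) 0 = 0 := by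
  have r0 : D 1 0 1 (n6 + 2) (n4 + 2) 0 = G 0 0 1 0 1 (n6 + 2) (n4 + 2) - G 1 0 1 0 (n6 + 2) (n4 + 2) 0 + G 0 1 1 0 (n6 + 2) (n4 + 2) 0 := S.al1' 0 0 0 (n6 + 2) (n4 + 2) 0
  have r1 : C (n6 + 2) (n4 + 2) 0 0 1 1 = G 1 0 0 1 0 (n6 + 2) (n4 + 2) - G 0 0 1 1 0 (n6 + 2) (n4 + 2) := S.al0 0 1 1 (n6 + 1) (n4 + 2)
  have r2 : C (n6 + 2) (n4 + 2) 0 1 1 0 = G 0 0 1 1 0 (n6 + 2) (n4 + 2) - G 0 1 1 0 0 (n6 + 2) (n4 + 2) := S.al0 1 1 0 (n6 + 1) (n4 + 2)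
  have r3 : C (n6 + 2) (n4 + 2) 1 0 0 1 = G 1 1 0 0 0 (n6 + 2) (n4 + 2) - G 1 0 0 1 0 (n6 + 2) (n4 + 2) + G 0 0 0 1 1 (n6 + 2) (n4 + 2) := S.al1 0 0 0 1 (n6 + 1) (n4 + 2)
  have r4 : C (n6 + 2) (n4 + 2) 1 1 0 0 = G 0 1 1 0 0 (n6 + 2) (n4 + 2) - G 1 1 0 0 0 (n6 + 2) (n4 + 2) + G 0 1 0 0 1 (n6 + 2) (n4 + 2) := S.al1 0 1 0 0 (n6 + 1) (n4 + 2)
  have z0 : G 0 1 0 0 1 (n6 + 2) (n4 + 2) = G 0 0 0 1 1 (n6 + 2) (n4 + 2) := S.r2 0 1 0 0 (n6 + 1) (n4 + 2)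
  have z1 : G 0 0 1 0 1 (n6 + 2) (n4 + 2) = G 0 0 0 1 1 (n6 + 2) (n4 + 2) := S.r1 0 0 1 0 (n6 + 1) (n4 + 2)
  have z2 : G 0 1 1 0 (n6 + 2) (n4 + 2) 0 = 0 := S.van 0 1 1 0 n6 (n4 + 1) 0
  have z3 : G 1 0 1 0 (n6 + 2) (n4 + 2) 0 = 0 := S.van 1 0 1 0 n6 (n4 + 1) 0
  have z4 : D 1 0 1 (n6 + 2) (n4 + 2) 0 = 0 := (S.d1 1 0 1 (n6 + 2) (n4 + 2) 0).trans (S_p3a S.mirror 0 0 (n6 + 1) (n4 + 1))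
  have z5 : C (n6 + 2) (n4 + 2) 0 0 1 1 = 0 := (S.c3 (n6 + 2) (n4 + 2) 0 0 1 1).trans (S_p3a S (n6 + 1) 0 0 (n4 + 1))
  have z6 : C (n6 + 2) 1 1 0 (n4 + 2) 0 = C (n6 + 2) (n4 + 2) 0 1 1 0 := S.c3 (n6 + 2) 1 1 0 (n4 + 2) 0
  have z7 : C (n6 + 2) (n4 + 2) 1 0 0 1 = 0 := (S.c4 (n6 + 2) (n4 + 2) 1 0 0 1).trans (S_p3a S (n6 + 1) 0 (n4 + 1) 0)
  have z8 : C (n6 + 2) (n4 + 2) 1 1 0 0 = 0 := S_p3a S (n6 + 1) (n4 + 1) 0 0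
  linear_combination ((-2 : ℚ) * r0 + (1 : ℚ) * r1 + (1 : ℚ) * r2 + (1 : ℚ) * r3 + (1 : ℚ) * r4 + (1 : ℚ) * z0 + (-2 : ℚ) * z1)
    + ((-2 : ℚ) * z2 + (2 : ℚ) * z3 + (2 : ℚ) * z4 + (-1 : ℚ) * z5 + (1 : ℚ) * z6 + (-1 : ℚ) * z7 + (-1 : ℚ) * z8)

theorem L_g2_e1_g2_e0_e1_e0 (S : Sys6 G C D) (n6 n2 : ℕ) : C (n6 + 2) 1 (n2 + 2) 0 1 0 = 0 := by
  have r0 : D (n2 + 2) 0 1 (n6 + 2) 1 0 = G 0 0 (n2 + 2) 0 1 (n6 + 2) 1 - G 1 0 (n2 + 2) 0 (n6 + 2) 1 0 + G 0 1 (n2 + 2) 0 (n6 + 2) 1 0 := S.al1' 0 (n2 + 1) 0 (n6 + 2) 1 0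
  have r1 : C (n6 + 2) 1 0 0 1 (n2 + 2) = G (n2 + 2) 0 0 1 0 (n6 + 2) 1 - G 0 0 1 (n2 + 2) 0 (n6 + 2) 1 := S.al0 0 1 (n2 + 2) (n6 + 1) 1
  have r2 : C (n6 + 2) 1 0 1 (n2 + 2) 0 = G 0 0 1 (n2 + 2) 0 (n6 + 2) 1 - G 0 1 (n2 + 2) 0 0 (n6 + 2) 1 := S.al0 1 (n2 + 2) 0 (n6 + 1) 1
  have r3 : C (n6 + 2) 1 1 (n2 + 2) 0 0 = G 0 1 (n2 + 2) 0 0 (n6 + 2) 1 - G 1 (n2 + 2) 0 0 0 (n6 + 2) 1 + G 0 (n2 + 2) 0 0 1 (n6 + 2) 1 := S.al1 0 (n2 + 2) 0 0 (n6 + 1) 1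
  have r4 : C (n6 + 2) 1 (n2 + 2) 0 0 1 = G 1 (n2 + 2) 0 0 0 (n6 + 2) 1 - G (n2 + 2) 0 0 1 0 (n6 + 2) 1 + G (n2 + 1) 0 0 1 1 (n6 + 2) 1 := S.al1 (n2 + 1) 0 0 1 (n6 + 1) 1
  have z0 : G 0 (n2 + 2) 0 0 1 (n6 + 2) 1 = G 0 0 0 (n2 + 2) 1 (n6 + 2) 1 := S.r2 0 (n2 + 2) 0 0 (n6 + 1) 1
  have z1 : G 0 0 (n2 + 2) 0 1 (n6 + 2) 1 = G 0 0 0 (n2 + 2) 1 (n6 + 2) 1 := S.r1 0 0 (n2 + 2) 0 (n6 + 1) 1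
  have z2 : G 0 1 (n2 + 2) 0 (n6 + 2) 1 0 = 0 := S.van 0 1 (n2 + 2) 0 n6 0 0
  have z3 : G 1 0 (n2 + 2) 0 (n6 + 2) 1 0 = 0 := S.van 1 0 (n2 + 2) 0 n6 0 0
  have z4 : G (n2 + 1) 0 0 1 1 (n6 + 2) 1 = G 0 1 (n2 + 1) 0 1 (n6 + 2) 1 := S.r2 (n2 + 1) 0 0 1 (n6 + 1) 1
  have z5 : G 0 1 (n2 + 1) 0 1 (n6 + 2) 1 = G 1 1 (n2 + 1) 0 (n6 + 2) 1 0 := S.m3 0 n2 0 1 (n6 + 2) 1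
  have z6 : G 1 1 (n2 + 1) 0 (n6 + 2) 1 0 = 0 := S.van 1 1 (n2 + 1) 0 n6 0 0
  have z7 : D (n2 + 2) 0 1 (n6 + 2) 1 0 = 0 := (S.d1 (n2 + 2) 0 1 (n6 + 2) 1 0).trans (S_p3a S.mirror (n2 + 1) 0 (n6 + 1) 0)
  have z8 : C (n6 + 2) 1 0 0 1 (n2 + 2) = 0 := (S.c3 (n6 + 2) 1 0 0 1 (n2 + 2)).trans (S_p3a S (n6 + 1) 0 (n2 + 1) 0)
  have z9 : C (n6 + 2) 1 (n2 + 2) 0 1 0 = C (n6 + 2) 1 0 1 (n2 + 2) 0 := S.c3 (n6 + 2) 1 (n2 + 2) 0 1 0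
  have z10 : C (n6 + 2) 1 1 (n2 + 2) 0 0 = 0 := S_p3a S (n6 + 1) 0 0 (n2 + 1)
  have z11 : C (n6 + 2) 1 (n2 + 2) 0 0 1 = 0 := (S.c4 (n6 + 2) 1 (n2 + 2) 0 0 1).trans (S_p3a S (n6 + 1) 0 0 (n2 + 1))
  linear_combination (((-1 : ℚ) * r0 + (1 : ℚ) * r1 + (1 : ℚ) * r2 + (1 : ℚ) * r3 + (1 : ℚ) * r4)
    + ((1 : ℚ) * z0 + (-1 : ℚ) * z1 + (-1 : ℚ) * z2 + (1 : ℚ) * z3))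
    + ((1 : ℚ) * z4 + (1 : ℚ) * z5 + (1 : ℚ) * z6 + (1 : ℚ) * z7 + (-1 : ℚ) * z8 + (1 : ℚ) * z9 + (-1 : ℚ) * z10 + (-1 : ℚ) * z11)

theorem L_e1_e1_e1_e0_g2_e0 (S : Sys6 G C D) (n4 : ℕ) : C 1 1 1 0 (n4 + 2) 0 = 0 := by
  have r0 : D 1 0 0 1 1 (n4 + 2) = G (n4 + 2) 0 1 0 0 1 1 - G 0 0 1 0 1 1 (n4 + 2) := S.al0' 0 0 1 1 (n4 + 2)
  have r1 : D (n4 + 2) 0 0 1 1 1 = G 1 0 (n4 + 2) 0 0 1 1 - G 0 0 (n4 + 2) 0 1 1 1 := S.al0' (n4 + 1) 0 1 1 1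
  have r2 : C 1 1 0 1 0 (n4 + 2) = G (n4 + 2) 0 1 0 0 1 1 - G 0 1 0 (n4 + 2) 0 1 1 := S.al0 1 0 (n4 + 2) 0 1
  have r3 : C 1 1 1 0 (n4 + 2) 0 = G 0 1 0 (n4 + 2) 0 1 1 - G 1 0 (n4 + 2) 0 0 1 1 + G 0 0 (n4 + 2) 0 1 1 1 := S.al1 0 0 (n4 + 2) 0 0 1
  have r4 : C 1 (n4 + 2) 0 0 1 1 = G 1 0 0 1 0 1 (n4 + 2) - G 0 0 1 1 0 1 (n4 + 2) := S.al0 0 1 1 0 (n4 + 2)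
  have r5 : C 1 (n4 + 2) 0 1 1 0 = G 0 0 1 1 0 1 (n4 + 2) - G 0 1 1 0 0 1 (n4 + 2) := S.al0 1 1 0 0 (n4 + 2)
  have r6 : C 1 (n4 + 2) 1 0 0 1 = G 1 1 0 0 0 1 (n4 + 2) - G 1 0 0 1 0 1 (n4 + 2) + G 0 0 0 1 1 1 (n4 + 2) := S.al1 0 0 0 1 0 (n4 + 2)
  have r7 : C 1 (n4 + 2) 1 1 0 0 = G 0 1 1 0 0 1 (n4 + 2) - G 1 1 0 0 0 1 (n4 + 2) + G 0 1 0 0 1 1 (n4 + 2) := S.al1 0 1 0 0 0 (n4 + 2)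
  have z0 : G 0 1 0 0 1 1 (n4 + 2) = G 0 0 0 1 1 1 (n4 + 2) := S.r2 0 1 0 0 0 (n4 + 2)
  have z1 : G 0 0 1 0 1 1 (n4 + 2) = G 0 0 0 1 1 1 (n4 + 2) := S.r1 0 0 1 0 0 (n4 + 2)
  have z2 : D 1 0 0 1 1 (n4 + 2) = 0 := (S.d2 1 0 0 1 1 (n4 + 2)).trans (S_p3a S.mirror 0 0 0 (n4 + 1))
  have z3 : D (n4 + 2) 0 0 1 1 1 = 0 := (S.d2 (n4 + 2) 0 0 1 1 1).trans (S_p3a S.mirror (n4 + 1) 0 0 0)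
  have z4 : C 1 1 0 1 0 (n4 + 2) = 0 := (S.c4 1 1 0 1 0 (n4 + 2)).trans (L_e1_g2_e1_e0_e1_e0 S n4)
  have z5 : C 1 (n4 + 2) 0 1 1 0 = C 1 1 1 0 (n4 + 2) 0 := S.c2 1 (n4 + 2) 0 1 1 0
  have z6 : C 1 (n4 + 2) 0 0 1 1 = 0 := (S.c3 1 (n4 + 2) 0 0 1 1).trans (S_p3a S 0 0 0 (n4 + 1))
  have z7 : C 1 (n4 + 2) 1 0 0 1 = 0 := (S.c4 1 (n4 + 2) 1 0 0 1).trans (S_p3a S 0 0 (n4 + 1) 0)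
  have z8 : C 1 (n4 + 2) 1 1 0 0 = 0 := S_p3a S 0 (n4 + 1) 0 0
  linear_combination (((-2 : ℚ) * r0 + (2 : ℚ) * r1 + (2 : ℚ) * r2 + (2 : ℚ) * r3 + (-1 : ℚ) * r4)
    + ((-1 : ℚ) * r5 + (-1 : ℚ) * r6 + (-1 : ℚ) * r7 + (-1 : ℚ) * z0))
    + ((2 : ℚ) * z1 + (2 : ℚ) * z2 + (-2 : ℚ) * z3 + (-2 : ℚ) * z4 + (1 : ℚ) * z5 + (1 : ℚ) * z6 + (1 : ℚ) * z7 + (1 : ℚ) * z8)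

theorem L_g2_g2_e1_e0_e1_e0 (S : Sys6 G C D) (n6 n1 : ℕ) : C (n6 + 2) (n1 + 2) 1 0 1 0 = 0 := by
  have r0 : D 1 0 1 (n6 + 2) (n1 + 2) 0 = G 0 0 1 0 1 (n6 + 2) (n1 + 2) - G 1 0 1 0 (n6 + 2) (n1 + 2) 0 + G 0 1 1 0 (n6 + 2) (n1 + 2) 0 := S.al1' 0 0 0 (n6 + 2) (n1 + 2) 0
  have r1 : C (n6 + 2) (n1 + 2) 0 1 0 1 = G 1 0 1 0 0 (n6 + 2) (n1 + 2) - G 0 1 0 1 0 (n6 + 2) (n1 + 2) := S.al0 1 0 1 (n6 + 1) (n1 + 2)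
  have r2 : C (n6 + 2) (n1 + 2) 1 0 1 0 = G 0 1 0 1 0 (n6 + 2) (n1 + 2) - G 1 0 1 0 0 (n6 + 2) (n1 + 2) + G 0 0 1 0 1 (n6 + 2) (n1 + 2) := S.al1 0 0 1 0 (n6 + 1) (n1 + 2)
  have z0 : G 0 1 1 0 (n6 + 2) (n1 + 2) 0 = 0 := S.van 0 1 1 0 n6 (n1 + 1) 0
  have z1 : G 1 0 1 0 (n6 + 2) (n1 + 2) 0 = 0 := S.van 1 0 1 0 n6 (n1 + 1) 0
  have z2 : D 1 0 1 (n6 + 2) (n1 + 2) 0 = 0 := (S.d1 1 0 1 (n6 + 2) (n1 + 2) 0).trans (S_p3a S.mirror 0 0 (n6 + 1) (n1 + 1))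
  have z3 : C (n6 + 2) (n1 + 2) 0 1 0 1 = 0 := (S.c4 (n6 + 2) (n1 + 2) 0 1 0 1).trans (L_g2_e1_g2_e0_e1_e0 S n6 n1)
  linear_combination (-1 : ℚ) * r0 + (1 : ℚ) * r1 + (1 : ℚ) * r2 + (-1 : ℚ) * z0 + (1 : ℚ) * z1 + (1 : ℚ) * z2 + (-1 : ℚ) * z3

theorem L_e1_e1_g2_e0_e1_e0 (S : Sys6 G C D) (n2 : ℕ) : C 1 1 (n2 + 2) 0 1 0 = 0 := by
  have r0 : D 1 (n2 + 2) 0 1 1 0 = G 0 0 1 (n2 + 2) 0 1 1 - G 0 0 1 (n2 + 2) 1 1 0 := S.al0' 0 (n2 + 2) 1 1 0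
  have r1 : C 1 1 0 1 (n2 + 2) 0 = G 0 0 1 (n2 + 2) 0 1 1 - G 0 1 (n2 + 2) 0 0 1 1 := S.al0 1 (n2 + 2) 0 0 1
  have z0 : G 0 1 (n2 + 2) 0 0 1 1 = G 0 1 (n2 + 2) 0 1 1 0 := S.m3 0 (n2 + 1) 0 0 1 1
  have z1 : G 0 1 (n2 + 2) 0 1 1 0 = G 0 0 1 (n2 + 2) 1 1 0 := S.r1 0 1 (n2 + 2) 0 0 0
  have z2 : D 1 (n2 + 2) 0 1 1 0 = 0 := (S.d2 1 (n2 + 2) 0 1 1 0).trans (L_e1_e1_e1_e0_g2_e0 S.mirror n2)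
  have z3 : C 1 1 (n2 + 2) 0 1 0 = C 1 1 0 1 (n2 + 2) 0 := S.c3 1 1 (n2 + 2) 0 1 0
  linear_combination (-1 : ℚ) * r0 + (1 : ℚ) * r1 + (-1 : ℚ) * z0 + (-1 : ℚ) * z1 + (1 : ℚ) * z2 + (1 : ℚ) * z3

theorem L_e1_g2_g2_e0_g2_e0 (S : Sys6 G C D) (n1 n2 n4 : ℕ) : C 1 (n1 + 2) (n2 + 2) 0 (n4 + 2) 0 = 0 := by
  have r0 : C 1 0 0 (n1 + 2) (n2 + 2) (n4 + 2) = G (n4 + 2) 0 (n1 + 2) (n2 + 2) 0 1 0 - G 0 (n1 + 2) (n2 + 2) (n4 + 2) 0 1 0 := S.al0 (n1 + 2) (n2 + 2) (n4 + 2) 0 0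
  have r1 : C 1 0 0 (n2 + 2) (n4 + 2) (n1 + 2) = G (n1 + 2) 0 (n2 + 2) (n4 + 2) 0 1 0 - G 0 (n2 + 2) (n4 + 2) (n1 + 2) 0 1 0 := S.al0 (n2 + 2) (n4 + 2) (n1 + 2) 0 0
  have r2 : C 1 0 0 (n4 + 2) (n1 + 2) (n2 + 2) = G (n2 + 2) 0 (n4 + 2) (n1 + 2) 0 1 0 - G 0 (n4 + 2) (n1 + 2) (n2 + 2) 0 1 0 := S.al0 (n4 + 2) (n1 + 2) (n2 + 2) 0 0
  have r3 : C 1 0 (n1 + 2) 0 (n2 + 2) (n4 + 2) = G (n4 + 2) (n1 + 2) 0 (n2 + 2) 0 1 0 - G (n1 + 2) 0 (n2 + 2) (n4 + 2) 0 1 0 + G (n1 + 1) 0 (n2 + 2) (n4 + 2) 1 1 0 := S.al1 (n1 + 1) 0 (n2 + 2) (n4 + 2) 0 0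
  have r4 : C 1 0 (n1 + 2) (n2 + 2) 0 (n4 + 2) = G (n4 + 2) (n1 + 2) (n2 + 2) 0 0 1 0 - G (n1 + 2) (n2 + 2) 0 (n4 + 2) 0 1 0 + G (n1 + 1) (n2 + 2) 0 (n4 + 2) 1 1 0 := S.al1 (n1 + 1) (n2 + 2) 0 (n4 + 2) 0 0
  have r5 : C 1 0 (n2 + 2) 0 (n4 + 2) (n1 + 2) = G (n1 + 2) (n2 + 2) 0 (n4 + 2) 0 1 0 - G (n2 + 2) 0 (n4 + 2) (n1 + 2) 0 1 0 + G (n2 + 1) 0 (n4 + 2) (n1 + 2) 1 1 0 := S.al1 (n2 + 1) 0 (n4 + 2) (n1 + 2) 0 0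
  have r6 : C 1 0 (n2 + 2) (n4 + 2) 0 (n1 + 2) = G (n1 + 2) (n2 + 2) (n4 + 2) 0 0 1 0 - G (n2 + 2) (n4 + 2) 0 (n1 + 2) 0 1 0 + G (n2 + 1) (n4 + 2) 0 (n1 + 2) 1 1 0 := S.al1 (n2 + 1) (n4 + 2) 0 (n1 + 2) 0 0
  have r7 : C 1 0 (n4 + 2) 0 (n1 + 2) (n2 + 2) = G (n2 + 2) (n4 + 2) 0 (n1 + 2) 0 1 0 - G (n4 + 2) 0 (n1 + 2) (n2 + 2) 0 1 0 + G (n4 + 1) 0 (n1 + 2) (n2 + 2) 1 1 0 := S.al1 (n4 + 1) 0 (n1 + 2) (n2 + 2) 0 0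
  have r8 : C 1 0 (n4 + 2) (n1 + 2) 0 (n2 + 2) = G (n2 + 2) (n4 + 2) (n1 + 2) 0 0 1 0 - G (n4 + 2) (n1 + 2) 0 (n2 + 2) 0 1 0 + G (n4 + 1) (n1 + 2) 0 (n2 + 2) 1 1 0 := S.al1 (n4 + 1) (n1 + 2) 0 (n2 + 2) 0 0
  have z0 : G 0 (n1 + 2) (n2 + 2) (n4 + 2) 0 1 0 = 0 := S.van' 0 n1 (n2 + 1) (n4 + 2) 0 1 0
  have z1 : G 0 (n2 + 2) (n4 + 2) (n1 + 2) 0 1 0 = 0 := S.van' 0 n2 (n4 + 1) (n1 + 2) 0 1 0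
  have z2 : G 0 (n4 + 2) (n1 + 2) (n2 + 2) 0 1 0 = 0 := S.van' 0 n4 (n1 + 1) (n2 + 2) 0 1 0
  have z3 : G (n1 + 1) 0 (n2 + 2) (n4 + 2) 1 1 0 = G 0 (n2 + 2) (n4 + 2) (n1 + 1) 1 1 0 := S.r3 (n1 + 1) 0 (n2 + 2) (n4 + 2) 0 0
  have z4 : G 0 (n2 + 2) (n4 + 2) (n1 + 1) 1 1 0 = 0 := S.van' 0 n2 (n4 + 1) (n1 + 1) 1 1 0
  have z5 : G (n1 + 1) (n2 + 2) 0 (n4 + 2) 1 1 0 = G 0 (n4 + 2) (n1 + 1) (n2 + 2) 1 1 0 := S.r2 (n1 + 1) (n2 + 2) 0 (n4 + 2) 0 0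
  have z6 : G 0 (n4 + 2) (n1 + 1) (n2 + 2) 1 1 0 = 0 := S.van' 0 n4 n1 (n2 + 2) 1 1 0
  have z7 : G (n1 + 2) (n2 + 2) (n4 + 2) 0 0 1 0 = 0 := S.van' (n1 + 2) n2 (n4 + 1) 0 0 1 0
  have z8 : G (n2 + 1) 0 (n4 + 2) (n1 + 2) 1 1 0 = G 0 (n4 + 2) (n1 + 2) (n2 + 1) 1 1 0 := S.r3 (n2 + 1) 0 (n4 + 2) (n1 + 2) 0 0
  have z9 : G 0 (n4 + 2) (n1 + 2) (n2 + 1) 1 1 0 = 0 := S.van' 0 n4 (n1 + 1) (n2 + 1) 1 1 0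
  have z10 : G (n2 + 1) (n4 + 2) 0 (n1 + 2) 1 1 0 = G 0 (n1 + 2) (n2 + 1) (n4 + 2) 1 1 0 := S.r2 (n2 + 1) (n4 + 2) 0 (n1 + 2) 0 0
  have z11 : G 0 (n1 + 2) (n2 + 1) (n4 + 2) 1 1 0 = 0 := S.van' 0 n1 n2 (n4 + 2) 1 1 0
  have z12 : G (n2 + 2) (n4 + 2) (n1 + 2) 0 0 1 0 = 0 := S.van' (n2 + 2) n4 (n1 + 1) 0 0 1 0
  have z13 : G (n4 + 1) 0 (n1 + 2) (n2 + 2) 1 1 0 = G 0 (n1 + 2) (n2 + 2) (n4 + 1) 1 1 0 := S.r3 (n4 + 1) 0 (n1 + 2) (n2 + 2) 0 0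
  have z14 : G 0 (n1 + 2) (n2 + 2) (n4 + 1) 1 1 0 = 0 := S.van' 0 n1 (n2 + 1) (n4 + 1) 1 1 0
  have z15 : G (n4 + 1) (n1 + 2) 0 (n2 + 2) 1 1 0 = G 0 (n2 + 2) (n4 + 1) (n1 + 2) 1 1 0 := S.r2 (n4 + 1) (n1 + 2) 0 (n2 + 2) 0 0
  have z16 : G 0 (n2 + 2) (n4 + 1) (n1 + 2) 1 1 0 = 0 := S.van' 0 n2 n4 (n1 + 2) 1 1 0
  have z17 : G (n4 + 2) (n1 + 2) (n2 + 2) 0 0 1 0 = 0 := S.van' (n4 + 2) n1 (n2 + 1) 0 0 1 0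
  have z18 : C 1 0 0 (n1 + 2) (n2 + 2) (n4 + 2) = 0 := (S.c2 1 0 0 (n1 + 2) (n2 + 2) (n4 + 2)).trans (S_p3a S 0 (n1 + 1) (n2 + 1) (n4 + 1))
  have z19 : C 1 0 0 (n2 + 2) (n4 + 2) (n1 + 2) = 0 := (S.c2 1 0 0 (n2 + 2) (n4 + 2) (n1 + 2)).trans (S_p3a S 0 (n2 + 1) (n4 + 1) (n1 + 1))
  have z20 : C 1 0 0 (n4 + 2) (n1 + 2) (n2 + 2) = 0 := (S.c2 1 0 0 (n4 + 2) (n1 + 2) (n2 + 2)).trans (S_p3a S 0 (n4 + 1) (n1 + 1) (n2 + 1))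
  have z21 : C 1 0 (n2 + 2) (n4 + 2) 0 (n1 + 2) = C 1 0 (n1 + 2) 0 (n2 + 2) (n4 + 2) := S.c3 1 0 (n2 + 2) (n4 + 2) 0 (n1 + 2)
  have z22 : C 1 0 (n4 + 2) 0 (n1 + 2) (n2 + 2) = C 1 0 (n1 + 2) (n2 + 2) 0 (n4 + 2) := S.c2 1 0 (n4 + 2) 0 (n1 + 2) (n2 + 2)
  have z23 : C 1 (n1 + 2) (n2 + 2) 0 (n4 + 2) 0 = C 1 0 (n1 + 2) (n2 + 2) 0 (n4 + 2) := S.c4 1 (n1 + 2) (n2 + 2) 0 (n4 + 2) 0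
  have z24 : C 1 0 (n4 + 2) (n1 + 2) 0 (n2 + 2) = C 1 0 (n2 + 2) 0 (n4 + 2) (n1 + 2) := S.c3 1 0 (n4 + 2) (n1 + 2) 0 (n2 + 2)
  linear_combination ((((1 / 2 : ℚ) * r0 + (-1 / 2 : ℚ) * r1 + (1 / 2 : ℚ) * r2 + (-1 / 2 : ℚ) * r3 + (1 / 2 : ℚ) * r4)
    + ((1 / 2 : ℚ) * r5 + (1 / 2 : ℚ) * r6 + (1 / 2 : ℚ) * r7 + (-1 / 2 : ℚ) * r8))
    + ((-1 / 2 : ℚ) * z0 + (1 / 2 : ℚ) * z1 + (-1 / 2 : ℚ) * z2 + (-1 / 2 : ℚ) * z3 + (-1 / 2 : ℚ) * z4 + (1 / 2 : ℚ) * z5 + (1 / 2 : ℚ) * z6 + (1 / 2 : ℚ) * z7))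
    + ((((1 / 2 : ℚ) * z8 + (1 / 2 : ℚ) * z9 + (1 / 2 : ℚ) * z10 + (1 / 2 : ℚ) * z11 + (-1 / 2 : ℚ) * z12)
    + ((1 / 2 : ℚ) * z13 + (1 / 2 : ℚ) * z14 + (-1 / 2 : ℚ) * z15 + (-1 / 2 : ℚ) * z16))
    + ((1 / 2 : ℚ) * z17 + (-1 / 2 : ℚ) * z18 + (1 / 2 : ℚ) * z19 + (-1 / 2 : ℚ) * z20 + (-1 / 2 : ℚ) * z21 + (-1 / 2 : ℚ) * z22 + (1 : ℚ) * z23 + (1 / 2 : ℚ) * z24))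

theorem L_g2_e1_g2_e0_g2_e0 (S : Sys6 G C D) (n6 n2 n4 : ℕ) : C (n6 + 2) 1 (n2 + 2) 0 (n4 + 2) 0 = 0 := by
  have r0 : D 1 (n2 + 2) 0 (n6 + 2) (n4 + 2) 0 = G 0 0 1 (n2 + 2) 0 (n6 + 2) (n4 + 2) - G 0 0 1 (n2 + 2) (n6 + 2) (n4 + 2) 0 := S.al0' 0 (n2 + 2) (n6 + 2) (n4 + 2) 0
  have r1 : C (n6 + 2) (n4 + 2) 0 1 (n2 + 2) 0 = G 0 0 1 (n2 + 2) 0 (n6 + 2) (n4 + 2) - G 0 1 (n2 + 2) 0 0 (n6 + 2) (n4 + 2) := S.al0 1 (n2 + 2) 0 (n6 + 1) (n4 + 2)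
  have z0 : G 0 0 1 (n2 + 2) (n6 + 2) (n4 + 2) 0 = 0 := S.van 0 0 1 (n2 + 2) n6 (n4 + 1) 0
  have z1 : G 0 1 (n2 + 2) 0 0 (n6 + 2) (n4 + 2) = G 0 1 (n2 + 2) 0 (n6 + 2) (n4 + 2) 0 := S.m3 0 (n2 + 1) 0 0 (n6 + 2) (n4 + 2)
  have z2 : G 0 1 (n2 + 2) 0 (n6 + 2) (n4 + 2) 0 = 0 := S.van 0 1 (n2 + 2) 0 n6 (n4 + 1) 0
  have z3 : D 1 (n2 + 2) 0 (n6 + 2) (n4 + 2) 0 = 0 := (S.d2 1 (n2 + 2) 0 (n6 + 2) (n4 + 2) 0).trans (L_e1_g2_g2_e0_g2_e0 S.mirror n6 n4 n2)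
  have z4 : C (n6 + 2) 1 (n2 + 2) 0 (n4 + 2) 0 = C (n6 + 2) (n4 + 2) 0 1 (n2 + 2) 0 := S.c3 (n6 + 2) 1 (n2 + 2) 0 (n4 + 2) 0
  linear_combination (-1 : ℚ) * r0 + (1 : ℚ) * r1 + (1 : ℚ) * z0 + (-1 : ℚ) * z1 + (-1 : ℚ) * z2 + (1 : ℚ) * z3 + (1 : ℚ) * z4

theorem L_g2_g2_g2_e0_e1_e0 (S : Sys6 G C D) (n6 n1 n2 : ℕ) : C (n6 + 2) (n1 + 2) (n2 + 2) 0 1 0 = 0 := by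
  have r0 : D 1 0 0 (n6 + 2) (n1 + 2) (n2 + 2) = G (n2 + 2) 0 1 0 0 (n6 + 2) (n1 + 2) - G 0 0 1 0 (n6 + 2) (n1 + 2) (n2 + 2) := S.al0' 0 0 (n6 + 2) (n1 + 2) (n2 + 2)
  have r1 : D 1 (n1 + 2) 0 (n6 + 2) (n2 + 2) 0 = G 0 0 1 (n1 + 2) 0 (n6 + 2) (n2 + 2) - G 0 0 1 (n1 + 2) (n6 + 2) (n2 + 2) 0 := S.al0' 0 (n1 + 2) (n6 + 2) (n2 + 2) 0
  have r2 : D (n2 + 1) 0 1 (n6 + 2) (n1 + 2) 1 = G 1 0 (n2 + 1) 0 1 (n6 + 2) (n1 + 2) - G 1 0 (n2 + 1) 0 (n6 + 2) (n1 + 2) 1 + G 0 1 (n2 + 1) 0 (n6 + 2) (n1 + 2) 1 := S.al1' 0 n2 0 (n6 + 2) (n1 + 2) 1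
  have r3 : D (n2 + 1) 1 (n6 + 2) (n1 + 2) 1 0 = G 0 0 (n2 + 1) 1 (n6 + 2) (n1 + 2) 1 - G (n6 + 2) 0 (n2 + 1) 1 (n1 + 2) 1 0 + G (n6 + 1) 1 (n2 + 1) 1 (n1 + 2) 1 0 := S.al1' (n6 + 1) n2 1 (n1 + 2) 1 0
  have r4 : D (n2 + 2) 0 0 (n6 + 2) (n1 + 2) 1 = G 1 0 (n2 + 2) 0 0 (n6 + 2) (n1 + 2) - G 0 0 (n2 + 2) 0 (n6 + 2) (n1 + 2) 1 := S.al0' (n2 + 1) 0 (n6 + 2) (n1 + 2) 1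
  have r5 : C (n6 + 2) (n1 + 2) 0 (n2 + 2) 0 1 = G 1 0 (n2 + 2) 0 0 (n6 + 2) (n1 + 2) - G 0 (n2 + 2) 0 1 0 (n6 + 2) (n1 + 2) := S.al0 (n2 + 2) 0 1 (n6 + 1) (n1 + 2)
  have r6 : C (n6 + 2) (n1 + 2) (n2 + 2) 0 1 0 = G 0 (n2 + 2) 0 1 0 (n6 + 2) (n1 + 2) - G (n2 + 2) 0 1 0 0 (n6 + 2) (n1 + 2) + G (n2 + 1) 0 1 0 1 (n6 + 2) (n1 + 2) := S.al1 (n2 + 1) 0 1 0 (n6 + 1) (n1 + 2)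
  have r7 : C (n6 + 2) (n2 + 2) 0 1 (n1 + 2) 0 = G 0 0 1 (n1 + 2) 0 (n6 + 2) (n2 + 2) - G 0 1 (n1 + 2) 0 0 (n6 + 2) (n2 + 2) := S.al0 1 (n1 + 2) 0 (n6 + 1) (n2 + 2)
  have z0 : G 0 0 1 0 (n6 + 2) (n1 + 2) (n2 + 2) = 0 := S.van 0 0 1 0 n6 (n1 + 1) (n2 + 2)
  have z1 : G 0 0 1 (n1 + 2) (n6 + 2) (n2 + 2) 0 = 0 := S.van 0 0 1 (n1 + 2) n6 (n2 + 1) 0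
  have z2 : G 0 0 (n2 + 1) 1 (n6 + 2) (n1 + 2) 1 = 0 := S.van 0 0 (n2 + 1) 1 n6 (n1 + 1) 1
  have z3 : G 0 0 (n2 + 2) 0 (n6 + 2) (n1 + 2) 1 = 0 := S.van 0 0 (n2 + 2) 0 n6 (n1 + 1) 1
  have z4 : G 0 1 (n1 + 2) 0 0 (n6 + 2) (n2 + 2) = G 0 1 (n1 + 2) 0 (n6 + 2) (n2 + 2) 0 := S.m3 0 (n1 + 1) 0 0 (n6 + 2) (n2 + 2)
  have z5 : G 0 1 (n1 + 2) 0 (n6 + 2) (n2 + 2) 0 = 0 := S.van 0 1 (n1 + 2) 0 n6 (n2 + 1) 0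
  have z6 : G 0 1 (n2 + 1) 0 (n6 + 2) (n1 + 2) 1 = 0 := S.van 0 1 (n2 + 1) 0 n6 (n1 + 1) 1
  have z7 : G (n2 + 1) 0 1 0 1 (n6 + 2) (n1 + 2) = G 0 1 0 (n2 + 1) 1 (n6 + 2) (n1 + 2) := S.r3 (n2 + 1) 0 1 0 (n6 + 1) (n1 + 2)
  have z8 : G 1 0 (n2 + 1) 0 1 (n6 + 2) (n1 + 2) = G 0 1 0 (n2 + 1) 1 (n6 + 2) (n1 + 2) := S.r1 1 0 (n2 + 1) 0 (n6 + 1) (n1 + 2)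
  have z9 : G 1 0 (n2 + 1) 0 (n6 + 2) (n1 + 2) 1 = 0 := S.van 1 0 (n2 + 1) 0 n6 (n1 + 1) 1
  have z10 : G (n6 + 1) 1 (n2 + 1) 1 (n1 + 2) 1 0 = 0 := S.van (n6 + 1) 1 (n2 + 1) 1 n1 0 0
  have z11 : G (n6 + 2) 0 (n2 + 1) 1 (n1 + 2) 1 0 = 0 := S.van (n6 + 2) 0 (n2 + 1) 1 n1 0 0
  have z12 : D 1 0 0 (n6 + 2) (n1 + 2) (n2 + 2) = 0 := (S.d2 1 0 0 (n6 + 2) (n1 + 2) (n2 + 2)).trans (S_p3a S.mirror 0 (n6 + 1) (n1 + 1) (n2 + 1))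
  have z13 : D 1 (n1 + 2) 0 (n6 + 2) (n2 + 2) 0 = 0 := (S.d2 1 (n1 + 2) 0 (n6 + 2) (n2 + 2) 0).trans (L_e1_g2_g2_e0_g2_e0 S.mirror n6 n2 n1)
  have z14 : D (n2 + 1) 0 1 (n6 + 2) (n1 + 2) 1 = 0 := (S.d1 (n2 + 1) 0 1 (n6 + 2) (n1 + 2) 1).trans (S_p4 S.mirror n2 0 (n6 + 1) (n1 + 1) 0)
  have z15 : D (n2 + 1) 1 (n6 + 2) (n1 + 2) 1 0 = 0 := S_p4 S.mirror n2 0 (n6 + 1) (n1 + 1) 0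
  have z16 : D (n2 + 2) 0 0 (n6 + 2) (n1 + 2) 1 = 0 := (S.d2 (n2 + 2) 0 0 (n6 + 2) (n1 + 2) 1).trans (S_p3a S.mirror (n2 + 1) (n6 + 1) (n1 + 1) 0)
  have z17 : C (n6 + 2) (n2 + 2) 0 1 (n1 + 2) 0 = C (n6 + 2) (n1 + 2) 0 (n2 + 2) 0 1 := S.c3 (n6 + 2) (n2 + 2) 0 1 (n1 + 2) 0
  linear_combination (((1 : ℚ) * r0 + (1 : ℚ) * r1 + (-1 : ℚ) * r2 + (1 : ℚ) * r3 + (-1 : ℚ) * r4 + (1 : ℚ) * r5 + (1 : ℚ) * r6)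
    + ((-1 : ℚ) * r7 + (-1 : ℚ) * z0 + (-1 : ℚ) * z1 + (1 : ℚ) * z2 + (1 : ℚ) * z3 + (1 : ℚ) * z4))
    + (((1 : ℚ) * z5 + (-1 : ℚ) * z6 + (1 : ℚ) * z7 + (-1 : ℚ) * z8 + (1 : ℚ) * z9 + (1 : ℚ) * z10 + (-1 : ℚ) * z11)
    + ((-1 : ℚ) * z12 + (-1 : ℚ) * z13 + (1 : ℚ) * z14 + (-1 : ℚ) * z15 + (1 : ℚ) * z16 + (1 : ℚ) * z17))

theorem L_g2_g2_e1_e0_g2_e0 (S : Sys6 G C D) (n6 n1 n4 : ℕ) : C (n6 + 2) (n1 + 2) 1 0 (n4 + 2) 0 = 0 := by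
  have r0 : D (n1 + 2) 1 0 (n6 + 2) (n4 + 2) 0 = G 0 0 (n1 + 2) 1 0 (n6 + 2) (n4 + 2) - G 0 0 (n1 + 2) 1 (n6 + 2) (n4 + 2) 0 := S.al0' (n1 + 1) 1 (n6 + 2) (n4 + 2) 0
  have r1 : C (n6 + 2) (n4 + 2) 0 (n1 + 2) 1 0 = G 0 0 (n1 + 2) 1 0 (n6 + 2) (n4 + 2) - G 0 (n1 + 2) 1 0 0 (n6 + 2) (n4 + 2) := S.al0 (n1 + 2) 1 0 (n6 + 1) (n4 + 2)
  have z0 : G 0 0 (n1 + 2) 1 (n6 + 2) (n4 + 2) 0 = 0 := S.van 0 0 (n1 + 2) 1 n6 (n4 + 1) 0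
  have z1 : G 0 (n1 + 2) 1 0 0 (n6 + 2) (n4 + 2) = 0 := S.van' 0 n1 0 0 0 (n6 + 2) (n4 + 2)
  have z2 : D (n1 + 2) 1 0 (n6 + 2) (n4 + 2) 0 = 0 := (S.d2 (n1 + 2) 1 0 (n6 + 2) (n4 + 2) 0).trans (L_g2_g2_g2_e0_e1_e0 S.mirror n1 n6 n4)
  have z3 : C (n6 + 2) (n1 + 2) 1 0 (n4 + 2) 0 = C (n6 + 2) (n4 + 2) 0 (n1 + 2) 1 0 := S.c3 (n6 + 2) (n1 + 2) 1 0 (n4 + 2) 0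
  linear_combination (-1 : ℚ) * r0 + (1 : ℚ) * r1 + (1 : ℚ) * z0 + (-1 : ℚ) * z1 + (1 : ℚ) * z2 + (1 : ℚ) * z3

theorem L_g2_g2_g2_e0_g2_e0 (S : Sys6 G C D) (n6 n1 n2 n4 : ℕ) : C (n6 + 2) (n1 + 2) (n2 + 2) 0 (n4 + 2) 0 = 0 := by
  have r0 : C (n6 + 2) 0 0 (n1 + 2) (n2 + 2) (n4 + 2) = G (n4 + 2) 0 (n1 + 2) (n2 + 2) 0 (n6 + 2) 0 - G 0 (n1 + 2) (n2 + 2) (n4 + 2) 0 (n6 + 2) 0 := S.al0 (n1 + 2) (n2 + 2) (n4 + 2) (n6 + 1) 0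
  have r1 : C (n6 + 2) 0 0 (n2 + 2) (n4 + 2) (n1 + 2) = G (n1 + 2) 0 (n2 + 2) (n4 + 2) 0 (n6 + 2) 0 - G 0 (n2 + 2) (n4 + 2) (n1 + 2) 0 (n6 + 2) 0 := S.al0 (n2 + 2) (n4 + 2) (n1 + 2) (n6 + 1) 0
  have r2 : C (n6 + 2) 0 0 (n4 + 2) (n1 + 2) (n2 + 2) = G (n2 + 2) 0 (n4 + 2) (n1 + 2) 0 (n6 + 2) 0 - G 0 (n4 + 2) (n1 + 2) (n2 + 2) 0 (n6 + 2) 0 := S.al0 (n4 + 2) (n1 + 2) (n2 + 2) (n6 + 1) 0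
  have r3 : C (n6 + 2) 0 (n1 + 2) 0 (n2 + 2) (n4 + 2) = G (n4 + 2) (n1 + 2) 0 (n2 + 2) 0 (n6 + 2) 0 - G (n1 + 2) 0 (n2 + 2) (n4 + 2) 0 (n6 + 2) 0 + G (n1 + 1) 0 (n2 + 2) (n4 + 2) 1 (n6 + 2) 0 := S.al1 (n1 + 1) 0 (n2 + 2) (n4 + 2) (n6 + 1) 0
  have r4 : C (n6 + 2) 0 (n1 + 2) (n2 + 2) 0 (n4 + 2) = G (n4 + 2) (n1 + 2) (n2 + 2) 0 0 (n6 + 2) 0 - G (n1 + 2) (n2 + 2) 0 (n4 + 2) 0 (n6 + 2) 0 + G (n1 + 1) (n2 + 2) 0 (n4 + 2) 1 (n6 + 2) 0 := S.al1 (n1 + 1) (n2 + 2) 0 (n4 + 2) (n6 + 1) 0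
  have r5 : C (n6 + 2) 0 (n2 + 2) 0 (n4 + 2) (n1 + 2) = G (n1 + 2) (n2 + 2) 0 (n4 + 2) 0 (n6 + 2) 0 - G (n2 + 2) 0 (n4 + 2) (n1 + 2) 0 (n6 + 2) 0 + G (n2 + 1) 0 (n4 + 2) (n1 + 2) 1 (n6 + 2) 0 := S.al1 (n2 + 1) 0 (n4 + 2) (n1 + 2) (n6 + 1) 0
  have r6 : C (n6 + 2) 0 (n2 + 2) (n4 + 2) 0 (n1 + 2) = G (n1 + 2) (n2 + 2) (n4 + 2) 0 0 (n6 + 2) 0 - G (n2 + 2) (n4 + 2) 0 (n1 + 2) 0 (n6 + 2) 0 + G (n2 + 1) (n4 + 2) 0 (n1 + 2) 1 (n6 + 2) 0 := S.al1 (n2 + 1) (n4 + 2) 0 (n1 + 2) (n6 + 1) 0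
  have r7 : C (n6 + 2) 0 (n4 + 2) 0 (n1 + 2) (n2 + 2) = G (n2 + 2) (n4 + 2) 0 (n1 + 2) 0 (n6 + 2) 0 - G (n4 + 2) 0 (n1 + 2) (n2 + 2) 0 (n6 + 2) 0 + G (n4 + 1) 0 (n1 + 2) (n2 + 2) 1 (n6 + 2) 0 := S.al1 (n4 + 1) 0 (n1 + 2) (n2 + 2) (n6 + 1) 0
  have r8 : C (n6 + 2) 0 (n4 + 2) (n1 + 2) 0 (n2 + 2) = G (n2 + 2) (n4 + 2) (n1 + 2) 0 0 (n6 + 2) 0 - G (n4 + 2) (n1 + 2) 0 (n2 + 2) 0 (n6 + 2) 0 + G (n4 + 1) (n1 + 2) 0 (n2 + 2) 1 (n6 + 2) 0 := S.al1 (n4 + 1) (n1 + 2) 0 (n2 + 2) (n6 + 1) 0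
  have z0 : G 0 (n1 + 2) (n2 + 2) (n4 + 2) 0 (n6 + 2) 0 = 0 := S.van' 0 n1 (n2 + 1) (n4 + 2) 0 (n6 + 2) 0
  have z1 : G 0 (n2 + 2) (n4 + 2) (n1 + 2) 0 (n6 + 2) 0 = 0 := S.van' 0 n2 (n4 + 1) (n1 + 2) 0 (n6 + 2) 0
  have z2 : G 0 (n4 + 2) (n1 + 2) (n2 + 2) 0 (n6 + 2) 0 = 0 := S.van' 0 n4 (n1 + 1) (n2 + 2) 0 (n6 + 2) 0
  have z3 : G (n1 + 1) 0 (n2 + 2) (n4 + 2) 1 (n6 + 2) 0 = G 0 (n2 + 2) (n4 + 2) (n1 + 1) 1 (n6 + 2) 0 := S.r3 (n1 + 1) 0 (n2 + 2) (n4 + 2) (n6 + 1) 0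
  have z4 : G 0 (n2 + 2) (n4 + 2) (n1 + 1) 1 (n6 + 2) 0 = 0 := S.van' 0 n2 (n4 + 1) (n1 + 1) 1 (n6 + 2) 0
  have z5 : G (n1 + 1) (n2 + 2) 0 (n4 + 2) 1 (n6 + 2) 0 = G 0 (n4 + 2) (n1 + 1) (n2 + 2) 1 (n6 + 2) 0 := S.r2 (n1 + 1) (n2 + 2) 0 (n4 + 2) (n6 + 1) 0
  have z6 : G 0 (n4 + 2) (n1 + 1) (n2 + 2) 1 (n6 + 2) 0 = 0 := S.van' 0 n4 n1 (n2 + 2) 1 (n6 + 2) 0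
  have z7 : G (n1 + 2) (n2 + 2) (n4 + 2) 0 0 (n6 + 2) 0 = 0 := S.van' (n1 + 2) n2 (n4 + 1) 0 0 (n6 + 2) 0
  have z8 : G (n2 + 1) 0 (n4 + 2) (n1 + 2) 1 (n6 + 2) 0 = G 0 (n4 + 2) (n1 + 2) (n2 + 1) 1 (n6 + 2) 0 := S.r3 (n2 + 1) 0 (n4 + 2) (n1 + 2) (n6 + 1) 0
  have z9 : G 0 (n4 + 2) (n1 + 2) (n2 + 1) 1 (n6 + 2) 0 = 0 := S.van' 0 n4 (n1 + 1) (n2 + 1) 1 (n6 + 2) 0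
  have z10 : G (n2 + 1) (n4 + 2) 0 (n1 + 2) 1 (n6 + 2) 0 = G 0 (n1 + 2) (n2 + 1) (n4 + 2) 1 (n6 + 2) 0 := S.r2 (n2 + 1) (n4 + 2) 0 (n1 + 2) (n6 + 1) 0
  have z11 : G 0 (n1 + 2) (n2 + 1) (n4 + 2) 1 (n6 + 2) 0 = 0 := S.van' 0 n1 n2 (n4 + 2) 1 (n6 + 2) 0
  have z12 : G (n2 + 2) (n4 + 2) (n1 + 2) 0 0 (n6 + 2) 0 = 0 := S.van' (n2 + 2) n4 (n1 + 1) 0 0 (n6 + 2) 0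
  have z13 : G (n4 + 1) 0 (n1 + 2) (n2 + 2) 1 (n6 + 2) 0 = G 0 (n1 + 2) (n2 + 2) (n4 + 1) 1 (n6 + 2) 0 := S.r3 (n4 + 1) 0 (n1 + 2) (n2 + 2) (n6 + 1) 0
  have z14 : G 0 (n1 + 2) (n2 + 2) (n4 + 1) 1 (n6 + 2) 0 = 0 := S.van' 0 n1 (n2 + 1) (n4 + 1) 1 (n6 + 2) 0
  have z15 : G (n4 + 1) (n1 + 2) 0 (n2 + 2) 1 (n6 + 2) 0 = G 0 (n2 + 2) (n4 + 1) (n1 + 2) 1 (n6 + 2) 0 := S.r2 (n4 + 1) (n1 + 2) 0 (n2 + 2) (n6 + 1) 0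
  have z16 : G 0 (n2 + 2) (n4 + 1) (n1 + 2) 1 (n6 + 2) 0 = 0 := S.van' 0 n2 n4 (n1 + 2) 1 (n6 + 2) 0
  have z17 : G (n4 + 2) (n1 + 2) (n2 + 2) 0 0 (n6 + 2) 0 = 0 := S.van' (n4 + 2) n1 (n2 + 1) 0 0 (n6 + 2) 0
  have z18 : C (n6 + 2) 0 0 (n1 + 2) (n2 + 2) (n4 + 2) = 0 := (S.c2 (n6 + 2) 0 0 (n1 + 2) (n2 + 2) (n4 + 2)).trans (S_p3a S (n6 + 1) (n1 + 1) (n2 + 1) (n4 + 1))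
  have z19 : C (n6 + 2) 0 0 (n2 + 2) (n4 + 2) (n1 + 2) = 0 := (S.c2 (n6 + 2) 0 0 (n2 + 2) (n4 + 2) (n1 + 2)).trans (S_p3a S (n6 + 1) (n2 + 1) (n4 + 1) (n1 + 1))
  have z20 : C (n6 + 2) 0 0 (n4 + 2) (n1 + 2) (n2 + 2) = 0 := (S.c2 (n6 + 2) 0 0 (n4 + 2) (n1 + 2) (n2 + 2)).trans (S_p3a S (n6 + 1) (n4 + 1) (n1 + 1) (n2 + 1))
  have z21 : C (n6 + 2) 0 (n2 + 2) (n4 + 2) 0 (n1 + 2) = C (n6 + 2) 0 (n1 + 2) 0 (n2 + 2) (n4 + 2) := S.c3 (n6 + 2) 0 (n2 + 2) (n4 + 2) 0 (n1 + 2)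
  have z22 : C (n6 + 2) 0 (n4 + 2) 0 (n1 + 2) (n2 + 2) = C (n6 + 2) 0 (n1 + 2) (n2 + 2) 0 (n4 + 2) := S.c2 (n6 + 2) 0 (n4 + 2) 0 (n1 + 2) (n2 + 2)
  have z23 : C (n6 + 2) (n1 + 2) (n2 + 2) 0 (n4 + 2) 0 = C (n6 + 2) 0 (n1 + 2) (n2 + 2) 0 (n4 + 2) := S.c4 (n6 + 2) (n1 + 2) (n2 + 2) 0 (n4 + 2) 0
  have z24 : C (n6 + 2) 0 (n4 + 2) (n1 + 2) 0 (n2 + 2) = C (n6 + 2) 0 (n2 + 2) 0 (n4 + 2) (n1 + 2) := S.c3 (n6 + 2) 0 (n4 + 2) (n1 + 2) 0 (n2 + 2)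
  linear_combination ((((1 / 2 : ℚ) * r0 + (-1 / 2 : ℚ) * r1 + (1 / 2 : ℚ) * r2 + (-1 / 2 : ℚ) * r3 + (1 / 2 : ℚ) * r4)
    + ((1 / 2 : ℚ) * r5 + (1 / 2 : ℚ) * r6 + (1 / 2 : ℚ) * r7 + (-1 / 2 : ℚ) * r8))
    + ((-1 / 2 : ℚ) * z0 + (1 / 2 : ℚ) * z1 + (-1 / 2 : ℚ) * z2 + (-1 / 2 : ℚ) * z3 + (-1 / 2 : ℚ) * z4 + (1 / 2 : ℚ) * z5 + (1 / 2 : ℚ) * z6 + (1 / 2 : ℚ) * z7))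
    + ((((1 / 2 : ℚ) * z8 + (1 / 2 : ℚ) * z9 + (1 / 2 : ℚ) * z10 + (1 / 2 : ℚ) * z11 + (-1 / 2 : ℚ) * z12)
    + ((1 / 2 : ℚ) * z13 + (1 / 2 : ℚ) * z14 + (-1 / 2 : ℚ) * z15 + (-1 / 2 : ℚ) * z16))
    + ((1 / 2 : ℚ) * z17 + (-1 / 2 : ℚ) * z18 + (1 / 2 : ℚ) * z19 + (-1 / 2 : ℚ) * z20 + (-1 / 2 : ℚ) * z21 + (-1 / 2 : ℚ) * z22 + (1 : ℚ) * z23 + (1 / 2 : ℚ) * z24))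

theorem L_e1_e1_g2_e0_g2_e0 (S : Sys6 G C D) (n2 n4 : ℕ) : C 1 1 (n2 + 2) 0 (n4 + 2) 0 = 0 := by
  have r0 : D 1 (n2 + 2) 0 0 1 (n4 + 2) = G (n4 + 2) 0 1 (n2 + 2) 0 0 1 - G 0 0 1 (n2 + 2) 0 1 (n4 + 2) := S.al0' 0 (n2 + 2) 0 1 (n4 + 2)
  have r1 : D 1 (n2 + 2) 0 1 0 (n4 + 2) = G (n4 + 2) 0 1 (n2 + 2) 0 1 0 - G 0 0 1 (n2 + 2) 1 0 (n4 + 2) := S.al0' 0 (n2 + 2) 1 0 (n4 + 2)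
  have r2 : D 1 (n2 + 2) 1 0 (n4 + 2) 0 = G 0 0 1 (n2 + 2) 1 0 (n4 + 2) - G 1 0 1 (n2 + 2) 0 (n4 + 2) 0 + G 0 1 1 (n2 + 2) 0 (n4 + 2) 0 := S.al1' 0 0 (n2 + 2) 0 (n4 + 2) 0
  have r3 : D 1 (n2 + 2) 1 (n4 + 2) 0 0 = G 0 0 1 (n2 + 2) 1 (n4 + 2) 0 - G 1 0 1 (n2 + 2) (n4 + 2) 0 0 + G 0 1 1 (n2 + 2) (n4 + 2) 0 0 := S.al1' 0 0 (n2 + 2) (n4 + 2) 0 0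
  have r4 : D 1 (n2 + 2) (n4 + 2) 0 0 1 = G 1 0 1 (n2 + 2) (n4 + 2) 0 0 - G (n4 + 2) 0 1 (n2 + 2) 0 0 1 + G (n4 + 1) 1 1 (n2 + 2) 0 0 1 := S.al1' (n4 + 1) 0 (n2 + 2) 0 0 1
  have r5 : D (n2 + 2) 0 0 1 1 (n4 + 2) = G (n4 + 2) 0 (n2 + 2) 0 0 1 1 - G 0 0 (n2 + 2) 0 1 1 (n4 + 2) := S.al0' (n2 + 1) 0 1 1 (n4 + 2)
  have r6 : D (n2 + 2) 0 1 1 (n4 + 2) 0 = G 0 0 (n2 + 2) 0 1 1 (n4 + 2) - G 1 0 (n2 + 2) 0 1 (n4 + 2) 0 + G 0 1 (n2 + 2) 0 1 (n4 + 2) 0 := S.al1' 0 (n2 + 1) 0 1 (n4 + 2) 0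
  have r7 : D (n2 + 2) 0 1 (n4 + 2) 0 1 = G 1 0 (n2 + 2) 0 1 (n4 + 2) 0 - G 1 0 (n2 + 2) 0 (n4 + 2) 0 1 + G 0 1 (n2 + 2) 0 (n4 + 2) 0 1 := S.al1' 0 (n2 + 1) 0 (n4 + 2) 0 1
  have r8 : D (n2 + 2) 0 (n4 + 2) 0 1 1 = G 1 0 (n2 + 2) 0 (n4 + 2) 0 1 - G (n4 + 2) 0 (n2 + 2) 0 0 1 1 + G (n4 + 1) 1 (n2 + 2) 0 0 1 1 := S.al1' (n4 + 1) (n2 + 1) 0 0 1 1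
  have r9 : D (n2 + 2) 0 (n4 + 2) 1 1 0 = G 0 0 (n2 + 2) 0 (n4 + 2) 1 1 - G (n4 + 2) 0 (n2 + 2) 0 1 1 0 + G (n4 + 1) 1 (n2 + 2) 0 1 1 0 := S.al1' (n4 + 1) (n2 + 1) 0 1 1 0
  have r10 : D (n4 + 2) 0 0 (n2 + 2) 1 1 = G 1 0 (n4 + 2) 0 0 (n2 + 2) 1 - G 0 0 (n4 + 2) 0 (n2 + 2) 1 1 := S.al0' (n4 + 1) 0 (n2 + 2) 1 1
  have r11 : D (n4 + 2) 0 1 0 (n2 + 2) 1 = G 1 0 (n4 + 2) 0 1 0 (n2 + 2) - G 1 0 (n4 + 2) 0 0 (n2 + 2) 1 + G 0 1 (n4 + 2) 0 0 (n2 + 2) 1 := S.al1' 0 (n4 + 1) 0 0 (n2 + 2) 1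
  have r12 : D (n4 + 2) 0 1 1 0 (n2 + 2) = G (n2 + 2) 0 (n4 + 2) 0 1 1 0 - G 1 0 (n4 + 2) 0 1 0 (n2 + 2) + G 0 1 (n4 + 2) 0 1 0 (n2 + 2) := S.al1' 0 (n4 + 1) 0 1 0 (n2 + 2)
  have r13 : D (n4 + 2) 0 (n2 + 2) 1 1 0 = G 0 0 (n4 + 2) 0 (n2 + 2) 1 1 - G (n2 + 2) 0 (n4 + 2) 0 1 1 0 + G (n2 + 1) 1 (n4 + 2) 0 1 1 0 := S.al1' (n2 + 1) (n4 + 1) 0 1 1 0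
  have r14 : C 1 0 0 1 (n2 + 2) (n4 + 2) = G (n4 + 2) 0 1 (n2 + 2) 0 1 0 - G 0 1 (n2 + 2) (n4 + 2) 0 1 0 := S.al0 1 (n2 + 2) (n4 + 2) 0 0
  have r15 : C 1 0 1 (n2 + 2) (n4 + 2) 0 = G 0 1 (n2 + 2) (n4 + 2) 0 1 0 - G 1 (n2 + 2) (n4 + 2) 0 0 1 0 + G 0 (n2 + 2) (n4 + 2) 0 1 1 0 := S.al1 0 (n2 + 2) (n4 + 2) 0 0 0
  have r16 : C 1 0 (n2 + 2) 1 (n4 + 2) 0 = G 0 (n2 + 2) 1 (n4 + 2) 0 1 0 - G (n2 + 2) 1 (n4 + 2) 0 0 1 0 + G (n2 + 1) 1 (n4 + 2) 0 1 1 0 := S.al1 (n2 + 1) 1 (n4 + 2) 0 0 0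
  have r17 : C 1 0 (n4 + 2) 1 (n2 + 2) 0 = G 0 (n4 + 2) 1 (n2 + 2) 0 1 0 - G (n4 + 2) 1 (n2 + 2) 0 0 1 0 + G (n4 + 1) 1 (n2 + 2) 0 1 1 0 := S.al1 (n4 + 1) 1 (n2 + 2) 0 0 0
  have r18 : C 1 (n4 + 2) 0 1 (n2 + 2) 0 = G 0 0 1 (n2 + 2) 0 1 (n4 + 2) - G 0 1 (n2 + 2) 0 0 1 (n4 + 2) := S.al0 1 (n2 + 2) 0 0 (n4 + 2)
  have r19 : C (n4 + 2) 0 0 1 (n2 + 2) 1 = G 1 0 1 (n2 + 2) 0 (n4 + 2) 0 - G 0 1 (n2 + 2) 1 0 (n4 + 2) 0 := S.al0 1 (n2 + 2) 1 (n4 + 1) 0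
  have r20 : C (n4 + 2) 0 1 1 (n2 + 2) 0 = G 0 1 1 (n2 + 2) 0 (n4 + 2) 0 - G 1 1 (n2 + 2) 0 0 (n4 + 2) 0 + G 0 1 (n2 + 2) 0 1 (n4 + 2) 0 := S.al1 0 1 (n2 + 2) 0 (n4 + 1) 0
  have r21 : C (n4 + 2) 0 1 (n2 + 2) 1 0 = G 0 1 (n2 + 2) 1 0 (n4 + 2) 0 - G 1 (n2 + 2) 1 0 0 (n4 + 2) 0 + G 0 (n2 + 2) 1 0 1 (n4 + 2) 0 := S.al1 0 (n2 + 2) 1 0 (n4 + 1) 0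
  have z0 : G 0 1 (n2 + 2) 0 0 1 (n4 + 2) = G 0 1 (n2 + 2) 0 1 (n4 + 2) 0 := S.m3 0 (n2 + 1) 0 0 1 (n4 + 2)
  have z1 : G 0 1 (n2 + 2) 0 1 (n4 + 2) 0 = G 0 0 1 (n2 + 2) 1 (n4 + 2) 0 := S.r1 0 1 (n2 + 2) 0 (n4 + 1) 0
  have z2 : G 0 0 (n2 + 2) 0 (n4 + 2) 1 1 = 0 := S.van 0 0 (n2 + 2) 0 n4 0 1
  have z3 : G 0 0 (n4 + 2) 0 (n2 + 2) 1 1 = 0 := S.van 0 0 (n4 + 2) 0 n2 0 1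
  have z4 : G 0 1 1 (n2 + 2) (n4 + 2) 0 0 = G 0 1 1 (n2 + 2) 0 0 (n4 + 2) := S.m2 0 0 (n2 + 2) (n4 + 2) 0 0
  have z5 : G 0 1 1 (n2 + 2) 0 (n4 + 2) 0 = G 0 1 1 (n2 + 2) 0 0 (n4 + 2) := S.m1 0 0 (n2 + 2) 0 (n4 + 2) 0
  have z6 : G (n4 + 2) 1 (n2 + 2) 0 0 1 0 = G 0 1 (n2 + 2) 0 1 0 (n4 + 2) := S.m3 (n4 + 2) (n2 + 1) 0 0 1 0
  have z7 : G 0 1 (n2 + 2) 0 (n4 + 2) 0 1 = G 0 1 (n2 + 2) 0 1 0 (n4 + 2) := S.m2 0 (n2 + 1) 0 (n4 + 2) 0 1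
  have z8 : G 1 1 (n2 + 2) 0 0 (n4 + 2) 0 = G 0 1 (n2 + 2) 0 1 0 (n4 + 2) := S.m1 1 (n2 + 1) 0 0 (n4 + 2) 0
  have z9 : G 0 1 (n4 + 2) 0 0 (n2 + 2) 1 = G 0 1 (n4 + 2) 0 (n2 + 2) 1 0 := S.m3 0 (n4 + 1) 0 0 (n2 + 2) 1
  have z10 : G 0 1 (n4 + 2) 0 (n2 + 2) 1 0 = 0 := S.van 0 1 (n4 + 2) 0 n2 0 0
  have z11 : G (n2 + 2) 1 (n4 + 2) 0 0 1 0 = G 0 1 (n4 + 2) 0 1 0 (n2 + 2) := S.m3 (n2 + 2) (n4 + 1) 0 0 1 0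
  have z12 : G 0 (n2 + 2) 1 0 1 (n4 + 2) 0 = 0 := S.van' 0 n2 0 0 1 (n4 + 2) 0
  have z13 : G 0 (n2 + 2) 1 (n4 + 2) 0 1 0 = 0 := S.van' 0 n2 0 (n4 + 2) 0 1 0
  have z14 : G 0 (n2 + 2) (n4 + 2) 0 1 1 0 = 0 := S.van' 0 n2 (n4 + 1) 0 1 1 0
  have z15 : G 0 (n4 + 2) 1 (n2 + 2) 0 1 0 = 0 := S.van' 0 n4 0 (n2 + 2) 0 1 0
  have z16 : G 1 (n2 + 2) 1 0 0 (n4 + 2) 0 = 0 := S.van' 1 n2 0 0 0 (n4 + 2) 0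
  have z17 : G 1 (n2 + 2) (n4 + 2) 0 0 1 0 = 0 := S.van' 1 n2 (n4 + 1) 0 0 1 0
  have z18 : G (n4 + 2) 0 (n2 + 2) 0 1 1 0 = G 0 (n2 + 2) 0 (n4 + 2) 1 1 0 := S.r3 (n4 + 2) 0 (n2 + 2) 0 0 0
  have z19 : G (n2 + 2) 0 (n4 + 2) 0 1 1 0 = G 0 (n2 + 2) 0 (n4 + 2) 1 1 0 := S.r1 (n2 + 2) 0 (n4 + 2) 0 0 0
  have z20 : G (n4 + 1) 1 1 (n2 + 2) 0 0 1 = G 0 1 1 (n2 + 2) 1 (n4 + 1) 0 := S.m2 (n4 + 1) 0 (n2 + 2) 0 0 1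
  have z21 : G 0 1 1 (n2 + 2) 1 (n4 + 1) 0 = G 1 1 (n2 + 2) 0 1 (n4 + 1) 0 := S.r3 0 1 1 (n2 + 2) n4 0
  have z22 : G (n4 + 1) 1 (n2 + 2) 0 0 1 1 = G 0 1 (n2 + 2) 0 1 1 (n4 + 1) := S.m3 (n4 + 1) (n2 + 1) 0 0 1 1
  have z23 : G 1 1 (n2 + 2) 0 1 (n4 + 1) 0 = G 0 1 (n2 + 2) 0 1 1 (n4 + 1) := S.m1 1 (n2 + 1) 0 1 (n4 + 1) 0
  have z24 : D 1 (n2 + 2) 0 0 1 (n4 + 2) = 0 := (S.d3 1 (n2 + 2) 0 0 1 (n4 + 2)).trans (S_p3a S.mirror 0 0 (n4 + 1) (n2 + 1))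
  have z25 : D 1 (n2 + 2) 0 1 0 (n4 + 2) = 0 := (S.d4 1 (n2 + 2) 0 1 0 (n4 + 2)).trans (L_e1_g2_g2_e0_e1_e0 S.mirror n4 n2)
  have z26 : D 1 (n2 + 2) 1 0 (n4 + 2) 0 = 0 := L_e1_g2_e1_e0_g2_e0 S.mirror n2 n4
  have z27 : D 1 (n2 + 2) 1 (n4 + 2) 0 0 = 0 := S_p3a S.mirror 0 (n2 + 1) 0 (n4 + 1)
  have z28 : D 1 (n2 + 2) (n4 + 2) 0 0 1 = 0 := (S.d4 1 (n2 + 2) (n4 + 2) 0 0 1).trans (S_p3a S.mirror 0 0 (n2 + 1) (n4 + 1))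
  have z29 : D (n2 + 2) 0 0 1 1 (n4 + 2) = 0 := (S.d2 (n2 + 2) 0 0 1 1 (n4 + 2)).trans (S_p3a S.mirror (n2 + 1) 0 0 (n4 + 1))
  have z30 : D (n2 + 2) 0 1 1 (n4 + 2) 0 = 0 := (S.d1 (n2 + 2) 0 1 1 (n4 + 2) 0).trans (S_p3a S.mirror (n2 + 1) 0 0 (n4 + 1))
  have z31 : D (n2 + 2) 0 1 (n4 + 2) 0 1 = 0 := (S.d1 (n2 + 2) 0 1 (n4 + 2) 0 1).trans (L_g2_e1_g2_e0_e1_e0 S.mirror n2 n4)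
  have z32 : D (n2 + 2) 0 (n4 + 2) 0 1 1 = 0 := (S.d3 (n2 + 2) 0 (n4 + 2) 0 1 1).trans (L_g2_e1_e1_e0_g2_e0 S.mirror n2 n4)
  have z33 : D (n2 + 2) 0 (n4 + 2) 1 1 0 = 0 := (S.d1 (n2 + 2) 0 (n4 + 2) 1 1 0).trans (S_p3a S.mirror (n2 + 1) (n4 + 1) 0 0)
  have z34 : D (n4 + 2) 0 0 (n2 + 2) 1 1 = 0 := (S.d2 (n4 + 2) 0 0 (n2 + 2) 1 1).trans (S_p3a S.mirror (n4 + 1) (n2 + 1) 0 0)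
  have z35 : D (n4 + 2) 0 (n2 + 2) 1 1 0 = 0 := (S.d1 (n4 + 2) 0 (n2 + 2) 1 1 0).trans (S_p3a S.mirror (n4 + 1) (n2 + 1) 0 0)
  have z36 : D (n4 + 2) 0 1 0 (n2 + 2) 1 = 0 := (S.d3 (n4 + 2) 0 1 0 (n2 + 2) 1).trans (L_g2_g2_e1_e0_e1_e0 S.mirror n4 n2)
  have z37 : D (n4 + 2) 0 1 1 0 (n2 + 2) = 0 := (S.d1 (n4 + 2) 0 1 1 0 (n2 + 2)).trans (L_g2_e1_e1_e0_g2_e0 S.mirror n4 n2)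
  have z38 : C 1 0 0 1 (n2 + 2) (n4 + 2) = 0 := (S.c2 1 0 0 1 (n2 + 2) (n4 + 2)).trans (S_p3a S 0 0 (n2 + 1) (n4 + 1))
  have z39 : C 1 0 1 (n2 + 2) (n4 + 2) 0 = 0 := (S.c1 1 0 1 (n2 + 2) (n4 + 2) 0).trans (S_p3a S 0 0 (n2 + 1) (n4 + 1))
  have z40 : C 1 0 (n2 + 2) 1 (n4 + 2) 0 = 0 := (S.c1 1 0 (n2 + 2) 1 (n4 + 2) 0).trans (S_p3a S 0 (n2 + 1) 0 (n4 + 1))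
  have z41 : C 1 0 (n4 + 2) 1 (n2 + 2) 0 = 0 := (S.c1 1 0 (n4 + 2) 1 (n2 + 2) 0).trans (S_p3a S 0 (n4 + 1) 0 (n2 + 1))
  have z42 : C 1 1 (n2 + 2) 0 (n4 + 2) 0 = C 1 (n4 + 2) 0 1 (n2 + 2) 0 := S.c3 1 1 (n2 + 2) 0 (n4 + 2) 0
  have z43 : C (n4 + 2) 0 0 1 (n2 + 2) 1 = 0 := (S.c2 (n4 + 2) 0 0 1 (n2 + 2) 1).trans (S_p3a S (n4 + 1) 0 (n2 + 1) 0)
  have z44 : C (n4 + 2) 0 1 (n2 + 2) 1 0 = 0 := (S.c1 (n4 + 2) 0 1 (n2 + 2) 1 0).trans (S_p3a S (n4 + 1) 0 (n2 + 1) 0)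
  have z45 : C (n4 + 2) 0 1 1 (n2 + 2) 0 = 0 := (S.c1 (n4 + 2) 0 1 1 (n2 + 2) 0).trans (S_p3a S (n4 + 1) 0 0 (n2 + 1))
  linear_combination (((((1 : ℚ) * r0 + (-2 : ℚ) * r1 + (-2 : ℚ) * r2 + (1 : ℚ) * r3 + (1 : ℚ) * r4)
    + ((-1 : ℚ) * r5 + (-1 : ℚ) * r6 + (-1 : ℚ) * r7 + (-1 : ℚ) * r8))
    + ((2 : ℚ) * r9 + (1 : ℚ) * r10 + (1 : ℚ) * r11 + (1 : ℚ) * r12 + (-1 : ℚ) * r13 + (2 : ℚ) * r14 + (2 : ℚ) * r15 + (1 : ℚ) * r16))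
    + ((((-2 : ℚ) * r17 + (1 : ℚ) * r18 + (-2 : ℚ) * r19 + (1 : ℚ) * r20 + (-2 : ℚ) * r21)
    + ((-1 : ℚ) * z0 + (-1 : ℚ) * z1 + (2 : ℚ) * z2 + (-2 : ℚ) * z3))
    + ((1 : ℚ) * z4 + (-1 : ℚ) * z5 + (2 : ℚ) * z6 + (-1 : ℚ) * z7 + (-1 : ℚ) * z8 + (1 : ℚ) * z9 + (1 : ℚ) * z10 + (-1 : ℚ) * z11)))
    + (((((-2 : ℚ) * z12 + (1 : ℚ) * z13 + (2 : ℚ) * z14 + (-2 : ℚ) * z15 + (2 : ℚ) * z16)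
    + ((-2 : ℚ) * z17 + (-2 : ℚ) * z18 + (2 : ℚ) * z19 + (1 : ℚ) * z20))
    + ((1 : ℚ) * z21 + (-1 : ℚ) * z22 + (1 : ℚ) * z23 + (-1 : ℚ) * z24 + (2 : ℚ) * z25 + (2 : ℚ) * z26 + (-1 : ℚ) * z27 + (-1 : ℚ) * z28))
    + ((((1 : ℚ) * z29 + (1 : ℚ) * z30 + (1 : ℚ) * z31 + (1 : ℚ) * z32 + (-2 : ℚ) * z33)
    + ((-1 : ℚ) * z34 + (1 : ℚ) * z35 + (-1 : ℚ) * z36 + (-1 : ℚ) * z37))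
    + ((-2 : ℚ) * z38 + (-2 : ℚ) * z39 + (-1 : ℚ) * z40 + (2 : ℚ) * z41 + (1 : ℚ) * z42 + (2 : ℚ) * z43 + (2 : ℚ) * z44 + (-1 : ℚ) * z45)))

theorem S_p3b (S : Sys6 G C D) :
    ∀ n6 n1 n2 n4 : ℕ, C (n6 + 1) (n1 + 1) (n2 + 1) 0 (n4 + 1) 0 = 0
  | 0, 0, 0, 0 => L_e1_e1_e1_e0_e1_e0 S 
  | 0, 0, 0, n4 + 1 => L_e1_e1_e1_e0_g2_e0 S n4
  | 0, 0, n2 + 1, 0 => L_e1_e1_g2_e0_e1_e0 S n2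
  | 0, 0, n2 + 1, n4 + 1 => L_e1_e1_g2_e0_g2_e0 S n2 n4
  | 0, n1 + 1, 0, 0 => L_e1_g2_e1_e0_e1_e0 S n1
  | 0, n1 + 1, 0, n4 + 1 => L_e1_g2_e1_e0_g2_e0 S n1 n4
  | 0, n1 + 1, n2 + 1, 0 => L_e1_g2_g2_e0_e1_e0 S n1 n2
  | 0, n1 + 1, n2 + 1, n4 + 1 => L_e1_g2_g2_e0_g2_e0 S n1 n2 n4
  | n6 + 1, 0, 0, 0 => L_g2_e1_e1_e0_e1_e0 S n6
  | n6 + 1, 0, 0, n4 + 1 => L_g2_e1_e1_e0_g2_e0 S n6 n4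
  | n6 + 1, 0, n2 + 1, 0 => L_g2_e1_g2_e0_e1_e0 S n6 n2
  | n6 + 1, 0, n2 + 1, n4 + 1 => L_g2_e1_g2_e0_g2_e0 S n6 n2 n4
  | n6 + 1, n1 + 1, 0, 0 => L_g2_g2_e1_e0_e1_e0 S n6 n1
  | n6 + 1, n1 + 1, 0, n4 + 1 => L_g2_g2_e1_e0_g2_e0 S n6 n1 n4
  | n6 + 1, n1 + 1, n2 + 1, 0 => L_g2_g2_g2_e0_e1_e0 S n6 n1 n2
  | n6 + 1, n1 + 1, n2 + 1, n4 + 1 => L_g2_g2_g2_e0_g2_e0 S n6 n1 n2 n4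

theorem L_e2_g3_e2_e0_e0_e0 (S : Sys6 G C D) (n1 : ℕ) : C 2 (n1 + 3) 2 0 0 0 = 0 := by
  have r0 : D (n1 + 3) 2 0 0 0 2 = G 2 0 (n1 + 3) 2 0 0 0 - G 0 0 (n1 + 3) 2 0 0 2 := S.al0' (n1 + 2) 2 0 0 2
  have r1 : D (n1 + 3) 2 0 0 2 0 = G 0 0 (n1 + 3) 2 0 0 2 - G 0 0 (n1 + 3) 2 0 2 0 := S.al0' (n1 + 2) 2 0 2 0
  have r2 : D (n1 + 3) 2 0 2 0 0 = G 0 0 (n1 + 3) 2 0 2 0 - G 0 0 (n1 + 3) 2 2 0 0 := S.al0' (n1 + 2) 2 2 0 0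
  have r3 : D (n1 + 3) 2 2 0 0 0 = G 0 0 (n1 + 3) 2 2 0 0 - G 2 0 (n1 + 3) 2 0 0 0 + G 1 1 (n1 + 3) 2 0 0 0 := S.al1' 1 (n1 + 2) 2 0 0 0
  have r4 : G 0 (n1 + 3) 2 2 0 0 0 = G 2 0 (n1 + 3) 2 0 0 0 := S.z0 (n1 + 3) 2 2
  have r5 : C 1 0 1 (n1 + 3) 2 0 = G 0 1 (n1 + 3) 2 0 1 0 - G 1 (n1 + 3) 2 0 0 1 0 + G 0 (n1 + 3) 2 0 1 1 0 := S.al1 0 (n1 + 3) 2 0 0 0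
  have r6 : C 2 0 0 (n1 + 3) 2 0 = G 0 0 (n1 + 3) 2 0 2 0 - G 0 (n1 + 3) 2 0 0 2 0 := S.al0 (n1 + 3) 2 0 1 0
  have z0 : G 1 1 (n1 + 3) 2 0 0 0 = G 0 1 (n1 + 3) 2 0 0 1 := S.m3 1 (n1 + 2) 2 0 0 0
  have z1 : G 0 1 (n1 + 3) 2 0 1 0 = G 0 1 (n1 + 3) 2 0 0 1 := S.m1 0 (n1 + 2) 2 0 1 0
  have z2 : G 0 (n1 + 3) 2 0 0 2 0 = 0 := S.van' 0 (n1 + 1) 1 0 0 2 0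
  have z3 : G 0 (n1 + 3) 2 0 1 1 0 = 0 := S.van' 0 (n1 + 1) 1 0 1 1 0
  have z4 : G 0 (n1 + 3) 2 2 0 0 0 = 0 := S.van' 0 (n1 + 1) 1 2 0 0 0
  have z5 : G 1 (n1 + 3) 2 0 0 1 0 = 0 := S.van' 1 (n1 + 1) 1 0 0 1 0
  have z6 : D (n1 + 3) 2 2 0 0 0 = D (n1 + 3) 2 0 0 0 2 := S.d1 (n1 + 3) 2 2 0 0 0
  have z7 : D (n1 + 3) 2 0 2 0 0 = D (n1 + 3) 2 0 0 2 0 := S.d2 (n1 + 3) 2 0 2 0 0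
  have z8 : C 1 0 1 (n1 + 3) 2 0 = 0 := (S.c1 1 0 1 (n1 + 3) 2 0).trans (S_p3a S 0 0 (n1 + 2) 1)
  have z9 : C 2 (n1 + 3) 2 0 0 0 = C 2 0 0 (n1 + 3) 2 0 := S.c3 2 (n1 + 3) 2 0 0 0
  linear_combination (((1 / 2 : ℚ) * r0 + (1 / 2 : ℚ) * r1 + (-1 / 2 : ℚ) * r2 + (-1 / 2 : ℚ) * r3 + (-1 : ℚ) * r4)
    + ((1 / 2 : ℚ) * r5 + (1 : ℚ) * r6 + (-1 / 2 : ℚ) * z0 + (1 / 2 : ℚ) * z1))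
    + ((-1 : ℚ) * z2 + (1 / 2 : ℚ) * z3 + (1 : ℚ) * z4 + (-1 / 2 : ℚ) * z5 + (1 / 2 : ℚ) * z6 + (1 / 2 : ℚ) * z7 + (-1 / 2 : ℚ) * z8 + (1 : ℚ) * z9)

theorem L_e1_e1_e1_e0_e0_e0 (S : Sys6 G C D) : C 1 1 1 0 0 0 = 0 := by
  have r0 : C 1 0 0 0 0 2 = G 2 0 0 0 0 1 0 - G 0 0 0 2 0 1 0 := S.al0 0 0 2 0 0
  have r1 : C 1 0 0 0 1 1 = G 1 0 0 1 0 1 0 - G 0 0 1 1 0 1 0 := S.al0 0 1 1 0 0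
  have r2 : C 1 0 0 0 2 0 = G 0 0 0 2 0 1 0 - G 0 0 2 0 0 1 0 := S.al0 0 2 0 0 0
  have r3 : C 1 0 0 1 0 1 = G 1 0 1 0 0 1 0 - G 0 1 0 1 0 1 0 := S.al0 1 0 1 0 0
  have r4 : C 1 0 0 1 1 0 = G 0 0 1 1 0 1 0 - G 0 1 1 0 0 1 0 := S.al0 1 1 0 0 0
  have r5 : C 1 0 0 2 0 0 = G 0 0 2 0 0 1 0 - G 0 2 0 0 0 1 0 := S.al0 2 0 0 0 0
  have r6 : C 1 0 1 0 0 1 = G 1 1 0 0 0 1 0 - G 1 0 0 1 0 1 0 + G 0 0 0 1 1 1 0 := S.al1 0 0 0 1 0 0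
  have r7 : C 1 0 1 0 1 0 = G 0 1 0 1 0 1 0 - G 1 0 1 0 0 1 0 + G 0 0 1 0 1 1 0 := S.al1 0 0 1 0 0 0
  have r8 : C 1 0 1 1 0 0 = G 0 1 1 0 0 1 0 - G 1 1 0 0 0 1 0 + G 0 1 0 0 1 1 0 := S.al1 0 1 0 0 0 0
  have r9 : C 1 0 2 0 0 0 = G 0 2 0 0 0 1 0 - G 2 0 0 0 0 1 0 + G 1 0 0 0 1 1 0 := S.al1 1 0 0 0 0 0
  have r10 : C 1 2 0 0 0 0 = G 0 0 0 0 0 1 2 - G 0 0 0 0 0 1 2 := S.al0 0 0 0 0 2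
  have z0 : G 1 0 0 0 1 1 0 = G 0 0 0 1 1 1 0 := S.r3 1 0 0 0 0 0
  have z1 : G 0 1 0 0 1 1 0 = G 0 0 0 1 1 1 0 := S.r2 0 1 0 0 0 0
  have z2 : G 0 0 1 0 1 1 0 = G 0 0 0 1 1 1 0 := S.r1 0 0 1 0 0 0
  have z3 : C 1 0 0 0 2 0 = C 1 0 0 0 0 2 := S.c4 1 0 0 0 2 0
  have z4 : C 1 0 0 2 0 0 = C 1 0 0 0 0 2 := S.c3 1 0 0 2 0 0
  have z5 : C 1 0 2 0 0 0 = C 1 0 0 0 0 2 := S.c2 1 0 2 0 0 0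
  have z6 : C 1 2 0 0 0 0 = C 1 0 0 0 0 2 := S.c1 1 2 0 0 0 0
  have z7 : C 1 0 0 1 1 0 = C 1 0 0 0 1 1 := S.c4 1 0 0 1 1 0
  have z8 : C 1 0 1 1 0 0 = C 1 0 0 0 1 1 := S.c3 1 0 1 1 0 0
  have z9 : C 1 1 1 0 0 0 = C 1 0 0 0 1 1 := S.c2 1 1 1 0 0 0
  have z10 : C 1 0 1 0 0 1 = C 1 0 0 1 0 1 := S.c2 1 0 1 0 0 1
  have z11 : C 1 0 1 0 1 0 = C 1 0 0 1 0 1 := S.c4 1 0 1 0 1 0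
  linear_combination (((-1 / 2 : ℚ) * r0 + (1 / 3 : ℚ) * r1 + (-1 / 2 : ℚ) * r2 + (-1 / 6 : ℚ) * r3 + (1 / 3 : ℚ) * r4 + (-1 / 2 : ℚ) * r5)
    + ((1 / 3 : ℚ) * r6 + (-1 / 6 : ℚ) * r7 + (1 / 3 : ℚ) * r8 + (-1 / 2 : ℚ) * r9 + (2 : ℚ) * r10 + (-1 / 2 : ℚ) * z0))
    + (((1 / 3 : ℚ) * z1 + (-1 / 6 : ℚ) * z2 + (1 / 2 : ℚ) * z3 + (1 / 2 : ℚ) * z4 + (1 / 2 : ℚ) * z5 + (-2 : ℚ) * z6)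
    + ((-1 / 3 : ℚ) * z7 + (-1 / 3 : ℚ) * z8 + (1 : ℚ) * z9 + (-1 / 3 : ℚ) * z10 + (1 / 6 : ℚ) * z11))

theorem L_e2_e1_e1_e0_e0_e0 (S : Sys6 G C D) : C 2 1 1 0 0 0 = 0 := by
  have r0 : C 2 0 0 0 0 2 = G 2 0 0 0 0 2 0 - G 0 0 0 2 0 2 0 := S.al0 0 0 2 1 0
  have r1 : C 2 0 0 0 1 1 = G 1 0 0 1 0 2 0 - G 0 0 1 1 0 2 0 := S.al0 0 1 1 1 0
  have r2 : C 2 0 0 0 2 0 = G 0 0 0 2 0 2 0 - G 0 0 2 0 0 2 0 := S.al0 0 2 0 1 0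
  have r3 : C 2 0 0 1 0 1 = G 1 0 1 0 0 2 0 - G 0 1 0 1 0 2 0 := S.al0 1 0 1 1 0
  have r4 : C 2 0 0 1 1 0 = G 0 0 1 1 0 2 0 - G 0 1 1 0 0 2 0 := S.al0 1 1 0 1 0
  have r5 : C 2 0 0 2 0 0 = G 0 0 2 0 0 2 0 - G 0 2 0 0 0 2 0 := S.al0 2 0 0 1 0
  have r6 : C 2 0 1 0 0 1 = G 1 1 0 0 0 2 0 - G 1 0 0 1 0 2 0 + G 0 0 0 1 1 2 0 := S.al1 0 0 0 1 1 0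
  have r7 : C 2 0 1 0 1 0 = G 0 1 0 1 0 2 0 - G 1 0 1 0 0 2 0 + G 0 0 1 0 1 2 0 := S.al1 0 0 1 0 1 0
  have r8 : C 2 0 1 1 0 0 = G 0 1 1 0 0 2 0 - G 1 1 0 0 0 2 0 + G 0 1 0 0 1 2 0 := S.al1 0 1 0 0 1 0
  have r9 : C 2 0 2 0 0 0 = G 0 2 0 0 0 2 0 - G 2 0 0 0 0 2 0 + G 1 0 0 0 1 2 0 := S.al1 1 0 0 0 1 0
  have r10 : C 2 2 0 0 0 0 = G 0 0 0 0 0 2 2 - G 0 0 0 0 0 2 2 := S.al0 0 0 0 1 2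
  have z0 : G 1 0 0 0 1 2 0 = G 0 0 0 1 1 2 0 := S.r3 1 0 0 0 1 0
  have z1 : G 0 1 0 0 1 2 0 = G 0 0 0 1 1 2 0 := S.r2 0 1 0 0 1 0
  have z2 : G 0 0 1 0 1 2 0 = G 0 0 0 1 1 2 0 := S.r1 0 0 1 0 1 0
  have z3 : C 2 0 0 0 2 0 = C 2 0 0 0 0 2 := S.c4 2 0 0 0 2 0
  have z4 : C 2 0 0 2 0 0 = C 2 0 0 0 0 2 := S.c3 2 0 0 2 0 0
  have z5 : C 2 0 2 0 0 0 = C 2 0 0 0 0 2 := S.c2 2 0 2 0 0 0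
  have z6 : C 2 2 0 0 0 0 = C 2 0 0 0 0 2 := S.c1 2 2 0 0 0 0
  have z7 : C 2 0 0 1 1 0 = C 2 0 0 0 1 1 := S.c4 2 0 0 1 1 0
  have z8 : C 2 0 1 1 0 0 = C 2 0 0 0 1 1 := S.c3 2 0 1 1 0 0
  have z9 : C 2 1 1 0 0 0 = C 2 0 0 0 1 1 := S.c2 2 1 1 0 0 0
  have z10 : C 2 0 1 0 0 1 = C 2 0 0 1 0 1 := S.c2 2 0 1 0 0 1
  have z11 : C 2 0 1 0 1 0 = C 2 0 0 1 0 1 := S.c4 2 0 1 0 1 0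
  linear_combination (((-1 / 2 : ℚ) * r0 + (1 / 3 : ℚ) * r1 + (-1 / 2 : ℚ) * r2 + (-1 / 6 : ℚ) * r3 + (1 / 3 : ℚ) * r4 + (-1 / 2 : ℚ) * r5)
    + ((1 / 3 : ℚ) * r6 + (-1 / 6 : ℚ) * r7 + (1 / 3 : ℚ) * r8 + (-1 / 2 : ℚ) * r9 + (2 : ℚ) * r10 + (-1 / 2 : ℚ) * z0))
    + (((1 / 3 : ℚ) * z1 + (-1 / 6 : ℚ) * z2 + (1 / 2 : ℚ) * z3 + (1 / 2 : ℚ) * z4 + (1 / 2 : ℚ) * z5 + (-2 : ℚ) * z6)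
    + ((-1 / 3 : ℚ) * z7 + (-1 / 3 : ℚ) * z8 + (1 : ℚ) * z9 + (-1 / 3 : ℚ) * z10 + (1 / 6 : ℚ) * z11))

theorem L_g3_e1_e1_e0_e0_e0 (S : Sys6 G C D) (n6 : ℕ) : C (n6 + 3) 1 1 0 0 0 = 0 := by
  have r0 : C (n6 + 3) 0 0 0 0 2 = G 2 0 0 0 0 (n6 + 3) 0 - G 0 0 0 2 0 (n6 + 3) 0 := S.al0 0 0 2 (n6 + 2) 0
  have r1 : C (n6 + 3) 0 0 0 1 1 = G 1 0 0 1 0 (n6 + 3) 0 - G 0 0 1 1 0 (n6 + 3) 0 := S.al0 0 1 1 (n6 + 2) 0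
  have r2 : C (n6 + 3) 0 0 0 2 0 = G 0 0 0 2 0 (n6 + 3) 0 - G 0 0 2 0 0 (n6 + 3) 0 := S.al0 0 2 0 (n6 + 2) 0
  have r3 : C (n6 + 3) 0 0 1 0 1 = G 1 0 1 0 0 (n6 + 3) 0 - G 0 1 0 1 0 (n6 + 3) 0 := S.al0 1 0 1 (n6 + 2) 0
  have r4 : C (n6 + 3) 0 0 1 1 0 = G 0 0 1 1 0 (n6 + 3) 0 - G 0 1 1 0 0 (n6 + 3) 0 := S.al0 1 1 0 (n6 + 2) 0
  have r5 : C (n6 + 3) 0 0 2 0 0 = G 0 0 2 0 0 (n6 + 3) 0 - G 0 2 0 0 0 (n6 + 3) 0 := S.al0 2 0 0 (n6 + 2) 0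
  have r6 : C (n6 + 3) 0 1 0 0 1 = G 1 1 0 0 0 (n6 + 3) 0 - G 1 0 0 1 0 (n6 + 3) 0 + G 0 0 0 1 1 (n6 + 3) 0 := S.al1 0 0 0 1 (n6 + 2) 0
  have r7 : C (n6 + 3) 0 1 0 1 0 = G 0 1 0 1 0 (n6 + 3) 0 - G 1 0 1 0 0 (n6 + 3) 0 + G 0 0 1 0 1 (n6 + 3) 0 := S.al1 0 0 1 0 (n6 + 2) 0
  have r8 : C (n6 + 3) 0 1 1 0 0 = G 0 1 1 0 0 (n6 + 3) 0 - G 1 1 0 0 0 (n6 + 3) 0 + G 0 1 0 0 1 (n6 + 3) 0 := S.al1 0 1 0 0 (n6 + 2) 0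
  have r9 : C (n6 + 3) 0 2 0 0 0 = G 0 2 0 0 0 (n6 + 3) 0 - G 2 0 0 0 0 (n6 + 3) 0 + G 1 0 0 0 1 (n6 + 3) 0 := S.al1 1 0 0 0 (n6 + 2) 0
  have r10 : C (n6 + 3) 2 0 0 0 0 = G 0 0 0 0 0 (n6 + 3) 2 - G 0 0 0 0 0 (n6 + 3) 2 := S.al0 0 0 0 (n6 + 2) 2
  have z0 : G 1 0 0 0 1 (n6 + 3) 0 = G 0 0 0 1 1 (n6 + 3) 0 := S.r3 1 0 0 0 (n6 + 2) 0
  have z1 : G 0 1 0 0 1 (n6 + 3) 0 = G 0 0 0 1 1 (n6 + 3) 0 := S.r2 0 1 0 0 (n6 + 2) 0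
  have z2 : G 0 0 1 0 1 (n6 + 3) 0 = G 0 0 0 1 1 (n6 + 3) 0 := S.r1 0 0 1 0 (n6 + 2) 0
  have z3 : C (n6 + 3) 0 0 0 2 0 = C (n6 + 3) 0 0 0 0 2 := S.c4 (n6 + 3) 0 0 0 2 0
  have z4 : C (n6 + 3) 0 0 2 0 0 = C (n6 + 3) 0 0 0 0 2 := S.c3 (n6 + 3) 0 0 2 0 0
  have z5 : C (n6 + 3) 0 2 0 0 0 = C (n6 + 3) 0 0 0 0 2 := S.c2 (n6 + 3) 0 2 0 0 0
  have z6 : C (n6 + 3) 2 0 0 0 0 = C (n6 + 3) 0 0 0 0 2 := S.c1 (n6 + 3) 2 0 0 0 0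
  have z7 : C (n6 + 3) 0 0 1 1 0 = C (n6 + 3) 0 0 0 1 1 := S.c4 (n6 + 3) 0 0 1 1 0
  have z8 : C (n6 + 3) 0 1 1 0 0 = C (n6 + 3) 0 0 0 1 1 := S.c3 (n6 + 3) 0 1 1 0 0
  have z9 : C (n6 + 3) 1 1 0 0 0 = C (n6 + 3) 0 0 0 1 1 := S.c2 (n6 + 3) 1 1 0 0 0
  have z10 : C (n6 + 3) 0 1 0 0 1 = C (n6 + 3) 0 0 1 0 1 := S.c2 (n6 + 3) 0 1 0 0 1
  have z11 : C (n6 + 3) 0 1 0 1 0 = C (n6 + 3) 0 0 1 0 1 := S.c4 (n6 + 3) 0 1 0 1 0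
  linear_combination (((-1 / 2 : ℚ) * r0 + (1 / 3 : ℚ) * r1 + (-1 / 2 : ℚ) * r2 + (-1 / 6 : ℚ) * r3 + (1 / 3 : ℚ) * r4 + (-1 / 2 : ℚ) * r5)
    + ((1 / 3 : ℚ) * r6 + (-1 / 6 : ℚ) * r7 + (1 / 3 : ℚ) * r8 + (-1 / 2 : ℚ) * r9 + (2 : ℚ) * r10 + (-1 / 2 : ℚ) * z0))
    + (((1 / 3 : ℚ) * z1 + (-1 / 6 : ℚ) * z2 + (1 / 2 : ℚ) * z3 + (1 / 2 : ℚ) * z4 + (1 / 2 : ℚ) * z5 + (-2 : ℚ) * z6)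
    + ((-1 / 3 : ℚ) * z7 + (-1 / 3 : ℚ) * z8 + (1 : ℚ) * z9 + (-1 / 3 : ℚ) * z10 + (1 / 6 : ℚ) * z11))

theorem L_e1_g3_e1_e0_e0_e0 (S : Sys6 G C D) (n1 : ℕ) : C 1 (n1 + 3) 1 0 0 0 = 0 := by
  have r0 : D (n1 + 3) 0 0 0 1 1 = G 1 0 (n1 + 3) 0 0 0 1 - G 0 0 (n1 + 3) 0 0 1 1 := S.al0' (n1 + 2) 0 0 1 1
  have r1 : D (n1 + 3) 0 0 1 0 1 = G 1 0 (n1 + 3) 0 0 1 0 - G 0 0 (n1 + 3) 0 1 0 1 := S.al0' (n1 + 2) 0 1 0 1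
  have r2 : D (n1 + 3) 0 0 1 1 0 = G 0 0 (n1 + 3) 0 0 1 1 - G 0 0 (n1 + 3) 0 1 1 0 := S.al0' (n1 + 2) 0 1 1 0
  have r3 : D (n1 + 3) 0 1 0 0 1 = G 1 0 (n1 + 3) 0 1 0 0 - G 1 0 (n1 + 3) 0 0 0 1 + G 0 1 (n1 + 3) 0 0 0 1 := S.al1' 0 (n1 + 2) 0 0 0 1
  have r4 : D (n1 + 3) 0 1 0 1 0 = G 0 0 (n1 + 3) 0 1 0 1 - G 1 0 (n1 + 3) 0 0 1 0 + G 0 1 (n1 + 3) 0 0 1 0 := S.al1' 0 (n1 + 2) 0 0 1 0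
  have r5 : D (n1 + 3) 0 1 1 0 0 = G 0 0 (n1 + 3) 0 1 1 0 - G 1 0 (n1 + 3) 0 1 0 0 + G 0 1 (n1 + 3) 0 1 0 0 := S.al1' 0 (n1 + 2) 0 1 0 0
  have r6 : D (n1 + 3) 1 0 0 0 1 = G 1 0 (n1 + 3) 1 0 0 0 - G 0 0 (n1 + 3) 1 0 0 1 := S.al0' (n1 + 2) 1 0 0 1
  have r7 : D (n1 + 3) 1 0 0 1 0 = G 0 0 (n1 + 3) 1 0 0 1 - G 0 0 (n1 + 3) 1 0 1 0 := S.al0' (n1 + 2) 1 0 1 0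
  have r8 : G 0 (n1 + 3) 1 1 0 0 0 = G 1 0 (n1 + 3) 1 0 0 0 := S.z0 (n1 + 3) 1 1
  have r9 : C 1 0 0 (n1 + 3) 1 0 = G 0 0 (n1 + 3) 1 0 1 0 - G 0 (n1 + 3) 1 0 0 1 0 := S.al0 (n1 + 3) 1 0 0 0
  have z0 : G 0 1 (n1 + 3) 0 1 0 0 = G 0 1 (n1 + 3) 0 0 0 1 := S.m2 0 (n1 + 2) 0 1 0 0
  have z1 : G 0 1 (n1 + 3) 0 0 1 0 = G 0 1 (n1 + 3) 0 0 0 1 := S.m1 0 (n1 + 2) 0 0 1 0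
  have z2 : G 0 (n1 + 3) 1 0 0 1 0 = 0 := S.van' 0 (n1 + 1) 0 0 0 1 0
  have z3 : G 0 (n1 + 3) 1 1 0 0 0 = 0 := S.van' 0 (n1 + 1) 0 1 0 0 0
  have z4 : D (n1 + 3) 0 0 0 1 1 = 0 := (S.d3 (n1 + 3) 0 0 0 1 1).trans (L_g3_e1_e1_e0_e0_e0 S.mirror n1)
  have z5 : D (n1 + 3) 0 0 1 1 0 = 0 := (S.d2 (n1 + 3) 0 0 1 1 0).trans (L_g3_e1_e1_e0_e0_e0 S.mirror n1)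
  have z6 : D (n1 + 3) 0 1 1 0 0 = 0 := (S.d1 (n1 + 3) 0 1 1 0 0).trans (L_g3_e1_e1_e0_e0_e0 S.mirror n1)
  have z7 : D (n1 + 3) 1 0 0 0 1 = 0 := (S.d4 (n1 + 3) 1 0 0 0 1).trans (L_g3_e1_e1_e0_e0_e0 S.mirror n1)
  have z8 : D (n1 + 3) 0 1 0 0 1 = D (n1 + 3) 0 0 1 0 1 := S.d2 (n1 + 3) 0 1 0 0 1
  have z9 : D (n1 + 3) 0 1 0 1 0 = D (n1 + 3) 0 0 1 0 1 := S.d4 (n1 + 3) 0 1 0 1 0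
  have z10 : D (n1 + 3) 1 0 0 1 0 = D (n1 + 3) 0 0 1 0 1 := S.d1 (n1 + 3) 1 0 0 1 0
  have z11 : C 1 (n1 + 3) 1 0 0 0 = C 1 0 0 (n1 + 3) 1 0 := S.c3 1 (n1 + 3) 1 0 0 0
  linear_combination (((1 / 3 : ℚ) * r0 + (-2 / 3 : ℚ) * r1 + (1 / 3 : ℚ) * r2 + (1 / 3 : ℚ) * r3 + (-2 / 3 : ℚ) * r4 + (1 / 3 : ℚ) * r5)
    + ((1 : ℚ) * r6 + (1 : ℚ) * r7 + (-1 : ℚ) * r8 + (1 : ℚ) * r9 + (1 / 3 : ℚ) * z0))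
    + (((-2 / 3 : ℚ) * z1 + (-1 : ℚ) * z2 + (1 : ℚ) * z3 + (-1 / 3 : ℚ) * z4 + (-1 / 3 : ℚ) * z5 + (-1 / 3 : ℚ) * z6)
    + ((-1 : ℚ) * z7 + (-1 / 3 : ℚ) * z8 + (2 / 3 : ℚ) * z9 + (-1 : ℚ) * z10 + (1 : ℚ) * z11))

theorem L_g3_e2_e2_e0_e0_e0 (S : Sys6 G C D) (n6 : ℕ) : C (n6 + 3) 2 2 0 0 0 = 0 := by
  have r0 : D 1 0 0 1 (n6 + 3) 2 = G 2 0 1 0 0 1 (n6 + 3) - G 0 0 1 0 1 (n6 + 3) 2 := S.al0' 0 0 1 (n6 + 3) 2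
  have r1 : D 1 0 1 (n6 + 3) 2 0 = G 0 0 1 0 1 (n6 + 3) 2 - G 1 0 1 0 (n6 + 3) 2 0 + G 0 1 1 0 (n6 + 3) 2 0 := S.al1' 0 0 0 (n6 + 3) 2 0
  have r2 : D 2 0 1 0 1 (n6 + 3) = G (n6 + 3) 0 2 0 1 0 1 - G 1 0 2 0 0 1 (n6 + 3) + G 0 1 2 0 0 1 (n6 + 3) := S.al1' 0 1 0 0 1 (n6 + 3)
  have r3 : D 2 0 1 1 (n6 + 3) 0 = G 0 0 2 0 1 1 (n6 + 3) - G 1 0 2 0 1 (n6 + 3) 0 + G 0 1 2 0 1 (n6 + 3) 0 := S.al1' 0 1 0 1 (n6 + 3) 0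
  have r4 : D 2 0 (n6 + 3) 1 0 1 = G 1 0 2 0 (n6 + 3) 1 0 - G (n6 + 3) 0 2 0 1 0 1 + G (n6 + 2) 1 2 0 1 0 1 := S.al1' (n6 + 2) 1 0 1 0 1
  have r5 : C 1 (n6 + 3) 0 1 0 2 = G 2 0 1 0 0 1 (n6 + 3) - G 0 1 0 2 0 1 (n6 + 3) := S.al0 1 0 2 0 (n6 + 3)
  have r6 : C 1 (n6 + 3) 1 0 2 0 = G 0 1 0 2 0 1 (n6 + 3) - G 1 0 2 0 0 1 (n6 + 3) + G 0 0 2 0 1 1 (n6 + 3) := S.al1 0 0 2 0 0 (n6 + 3)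
  have r7 : C (n6 + 3) 0 0 0 2 2 = G 2 0 0 2 0 (n6 + 3) 0 - G 0 0 2 2 0 (n6 + 3) 0 := S.al0 0 2 2 (n6 + 2) 0
  have r8 : C (n6 + 3) 0 0 2 0 2 = G 2 0 2 0 0 (n6 + 3) 0 - G 0 2 0 2 0 (n6 + 3) 0 := S.al0 2 0 2 (n6 + 2) 0
  have r9 : C (n6 + 3) 0 0 2 2 0 = G 0 0 2 2 0 (n6 + 3) 0 - G 0 2 2 0 0 (n6 + 3) 0 := S.al0 2 2 0 (n6 + 2) 0
  have r10 : C (n6 + 3) 0 2 0 0 2 = G 2 2 0 0 0 (n6 + 3) 0 - G 2 0 0 2 0 (n6 + 3) 0 + G 1 0 0 2 1 (n6 + 3) 0 := S.al1 1 0 0 2 (n6 + 2) 0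
  have r11 : C (n6 + 3) 0 2 0 2 0 = G 0 2 0 2 0 (n6 + 3) 0 - G 2 0 2 0 0 (n6 + 3) 0 + G 1 0 2 0 1 (n6 + 3) 0 := S.al1 1 0 2 0 (n6 + 2) 0
  have r12 : C (n6 + 3) 0 2 2 0 0 = G 0 2 2 0 0 (n6 + 3) 0 - G 2 2 0 0 0 (n6 + 3) 0 + G 1 2 0 0 1 (n6 + 3) 0 := S.al1 1 2 0 0 (n6 + 2) 0
  have z0 : G 0 1 1 0 (n6 + 3) 2 0 = 0 := S.van 0 1 1 0 (n6 + 1) 1 0
  have z1 : G 0 1 2 0 0 1 (n6 + 3) = G 0 1 2 0 1 (n6 + 3) 0 := S.m3 0 1 0 0 1 (n6 + 3)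
  have z2 : G 1 2 0 0 1 (n6 + 3) 0 = G 0 0 1 2 1 (n6 + 3) 0 := S.r2 1 2 0 0 (n6 + 2) 0
  have z3 : G 0 1 2 0 1 (n6 + 3) 0 = G 0 0 1 2 1 (n6 + 3) 0 := S.r1 0 1 2 0 (n6 + 2) 0
  have z4 : G 1 0 0 2 1 (n6 + 3) 0 = G 0 2 1 0 1 (n6 + 3) 0 := S.r2 1 0 0 2 (n6 + 2) 0
  have z5 : G 0 2 1 0 1 (n6 + 3) 0 = 0 := S.van' 0 0 0 0 1 (n6 + 3) 0
  have z6 : G 1 0 1 0 (n6 + 3) 2 0 = 0 := S.van 1 0 1 0 (n6 + 1) 1 0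
  have z7 : G 1 0 2 0 (n6 + 3) 1 0 = 0 := S.van 1 0 2 0 (n6 + 1) 0 0
  have z8 : G (n6 + 2) 1 2 0 1 0 1 = G 1 1 2 0 (n6 + 2) 1 0 := S.m1 (n6 + 2) 1 0 1 0 1
  have z9 : G 1 1 2 0 (n6 + 2) 1 0 = 0 := S.van 1 1 2 0 n6 0 0
  have z10 : D 1 0 0 1 (n6 + 3) 2 = 0 := (S.d2 1 0 0 1 (n6 + 3) 2).trans (S_p3a S.mirror 0 0 (n6 + 2) 1)
  have z11 : D 1 0 1 (n6 + 3) 2 0 = 0 := (S.d1 1 0 1 (n6 + 3) 2 0).trans (S_p3a S.mirror 0 0 (n6 + 2) 1)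
  have z12 : D 2 0 1 0 1 (n6 + 3) = 0 := (S.d3 2 0 1 0 1 (n6 + 3)).trans (S_p3b S.mirror 1 0 (n6 + 2) 0)
  have z13 : D 2 0 1 1 (n6 + 3) 0 = 0 := (S.d1 2 0 1 1 (n6 + 3) 0).trans (S_p3a S.mirror 1 0 0 (n6 + 2))
  have z14 : D 2 0 (n6 + 3) 1 0 1 = 0 := (S.d1 2 0 (n6 + 3) 1 0 1).trans (S_p3b S.mirror 1 (n6 + 2) 0 0)
  have z15 : C 1 (n6 + 3) 0 1 0 2 = 0 := (S.c4 1 (n6 + 3) 0 1 0 2).trans (S_p3b S 0 1 (n6 + 2) 0)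
  have z16 : C 1 (n6 + 3) 1 0 2 0 = 0 := S_p3b S 0 (n6 + 2) 0 1
  have z17 : C (n6 + 3) 0 0 2 2 0 = C (n6 + 3) 0 0 0 2 2 := S.c4 (n6 + 3) 0 0 2 2 0
  have z18 : C (n6 + 3) 0 2 2 0 0 = C (n6 + 3) 0 0 0 2 2 := S.c3 (n6 + 3) 0 2 2 0 0
  have z19 : C (n6 + 3) 2 2 0 0 0 = C (n6 + 3) 0 0 0 2 2 := S.c2 (n6 + 3) 2 2 0 0 0
  have z20 : C (n6 + 3) 0 2 0 0 2 = C (n6 + 3) 0 0 2 0 2 := S.c2 (n6 + 3) 0 2 0 0 2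
  have z21 : C (n6 + 3) 0 2 0 2 0 = C (n6 + 3) 0 0 2 0 2 := S.c4 (n6 + 3) 0 2 0 2 0
  linear_combination ((((-1 / 6 : ℚ) * r0 + (-1 / 6 : ℚ) * r1 + (-1 / 6 : ℚ) * r2 + (-1 / 6 : ℚ) * r3 + (-1 / 6 : ℚ) * r4)
    + ((1 / 6 : ℚ) * r5 + (1 / 6 : ℚ) * r6 + (1 / 3 : ℚ) * r7 + (-1 / 6 : ℚ) * r8))
    + (((1 / 3 : ℚ) * r9 + (1 / 3 : ℚ) * r10 + (-1 / 6 : ℚ) * r11 + (1 / 3 : ℚ) * r12 + (-1 / 6 : ℚ) * z0)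
    + ((-1 / 6 : ℚ) * z1 + (1 / 3 : ℚ) * z2 + (-1 / 3 : ℚ) * z3 + (1 / 3 : ℚ) * z4)))
    + ((((1 / 3 : ℚ) * z5 + (1 / 6 : ℚ) * z6 + (-1 / 6 : ℚ) * z7 + (-1 / 6 : ℚ) * z8 + (-1 / 6 : ℚ) * z9)
    + ((1 / 6 : ℚ) * z10 + (1 / 6 : ℚ) * z11 + (1 / 6 : ℚ) * z12 + (1 / 6 : ℚ) * z13))
    + ((1 / 6 : ℚ) * z14 + (-1 / 6 : ℚ) * z15 + (-1 / 6 : ℚ) * z16 + (-1 / 3 : ℚ) * z17 + (-1 / 3 : ℚ) * z18 + (1 : ℚ) * z19 + (-1 / 3 : ℚ) * z20 + (1 / 6 : ℚ) * z21))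

theorem L_e2_e2_g3_e0_e0_e0 (S : Sys6 G C D) (n2 : ℕ) : C 2 2 (n2 + 3) 0 0 0 = 0 := by
  have r0 : G 0 0 0 0 2 2 (n2 + 3) = G (n2 + 3) 0 0 0 0 2 2 := S.z0' 2 2 (n2 + 3)
  have r1 : D (n2 + 2) 0 1 2 2 0 = G 0 0 (n2 + 2) 0 1 2 2 - G 1 0 (n2 + 2) 0 2 2 0 + G 0 1 (n2 + 2) 0 2 2 0 := S.al1' 0 (n2 + 1) 0 2 2 0
  have r2 : D (n2 + 3) 0 0 2 2 0 = G 0 0 (n2 + 3) 0 0 2 2 - G 0 0 (n2 + 3) 0 2 2 0 := S.al0' (n2 + 2) 0 2 2 0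
  have r3 : C 2 0 0 0 2 (n2 + 3) = G (n2 + 3) 0 0 2 0 2 0 - G 0 0 2 (n2 + 3) 0 2 0 := S.al0 0 2 (n2 + 3) 1 0
  have r4 : C 2 0 0 1 (n2 + 3) 1 = G 1 0 1 (n2 + 3) 0 2 0 - G 0 1 (n2 + 3) 1 0 2 0 := S.al0 1 (n2 + 3) 1 1 0
  have r5 : C 2 0 0 2 (n2 + 3) 0 = G 0 0 2 (n2 + 3) 0 2 0 - G 0 2 (n2 + 3) 0 0 2 0 := S.al0 2 (n2 + 3) 0 1 0
  have r6 : C 2 0 1 0 1 (n2 + 3) = G (n2 + 3) 1 0 1 0 2 0 - G 1 0 1 (n2 + 3) 0 2 0 + G 0 0 1 (n2 + 3) 1 2 0 := S.al1 0 0 1 (n2 + 3) 1 0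
  have r7 : C 2 0 1 (n2 + 3) 1 0 = G 0 1 (n2 + 3) 1 0 2 0 - G 1 (n2 + 3) 1 0 0 2 0 + G 0 (n2 + 3) 1 0 1 2 0 := S.al1 0 (n2 + 3) 1 0 1 0
  have r8 : C 2 0 2 (n2 + 3) 0 0 = G 0 2 (n2 + 3) 0 0 2 0 - G 2 (n2 + 3) 0 0 0 2 0 + G 1 (n2 + 3) 0 0 1 2 0 := S.al1 1 (n2 + 3) 0 0 1 0
  have r9 : C 2 0 (n2 + 3) 0 0 2 = G 2 (n2 + 3) 0 0 0 2 0 - G (n2 + 3) 0 0 2 0 2 0 + G (n2 + 2) 0 0 2 1 2 0 := S.al1 (n2 + 2) 0 0 2 1 0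
  have r10 : C 2 0 (n2 + 3) 1 0 1 = G 1 (n2 + 3) 1 0 0 2 0 - G (n2 + 3) 1 0 1 0 2 0 + G (n2 + 2) 1 0 1 1 2 0 := S.al1 (n2 + 2) 1 0 1 1 0
  have r11 : C 2 2 0 (n2 + 3) 0 0 = G 0 0 (n2 + 3) 0 0 2 2 - G 0 (n2 + 3) 0 0 0 2 2 := S.al0 (n2 + 3) 0 0 1 2
  have r12 : C 2 2 (n2 + 3) 0 0 0 = G 0 (n2 + 3) 0 0 0 2 2 - G (n2 + 3) 0 0 0 0 2 2 + G (n2 + 2) 0 0 0 1 2 2 := S.al1 (n2 + 2) 0 0 0 1 2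
  have z0 : G 0 0 0 0 2 2 (n2 + 3) = 0 := S.van 0 0 0 0 0 1 (n2 + 3)
  have z1 : G 1 (n2 + 3) 0 0 1 2 0 = G 0 0 1 (n2 + 3) 1 2 0 := S.r2 1 (n2 + 3) 0 0 1 0
  have z2 : G (n2 + 2) 0 0 0 1 2 2 = G 0 0 0 (n2 + 2) 1 2 2 := S.r3 (n2 + 2) 0 0 0 1 2
  have z3 : G 0 0 (n2 + 2) 0 1 2 2 = G 0 0 0 (n2 + 2) 1 2 2 := S.r1 0 0 (n2 + 2) 0 1 2
  have z4 : G 0 0 (n2 + 3) 0 2 2 0 = 0 := S.van 0 0 (n2 + 3) 0 0 1 0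
  have z5 : G 0 1 (n2 + 2) 0 2 2 0 = 0 := S.van 0 1 (n2 + 2) 0 0 1 0
  have z6 : G 0 (n2 + 3) 1 0 1 2 0 = 0 := S.van' 0 (n2 + 1) 0 0 1 2 0
  have z7 : G 1 0 (n2 + 2) 0 2 2 0 = 0 := S.van 1 0 (n2 + 2) 0 0 1 0
  have z8 : G (n2 + 2) 0 0 2 1 2 0 = G 0 2 (n2 + 2) 0 1 2 0 := S.r2 (n2 + 2) 0 0 2 1 0
  have z9 : G 0 2 (n2 + 2) 0 1 2 0 = 0 := S.van' 0 0 (n2 + 1) 0 1 2 0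
  have z10 : G (n2 + 2) 1 0 1 1 2 0 = G 1 (n2 + 2) 1 0 1 2 0 := S.r1 (n2 + 2) 1 0 1 1 0
  have z11 : G 1 (n2 + 2) 1 0 1 2 0 = 0 := S.van' 1 n2 0 0 1 2 0
  have z12 : D (n2 + 2) 0 1 2 2 0 = 0 := (S.d1 (n2 + 2) 0 1 2 2 0).trans (S_p3a S.mirror (n2 + 1) 0 1 1)
  have z13 : D (n2 + 3) 0 0 2 2 0 = 0 := (S.d2 (n2 + 3) 0 0 2 2 0).trans (L_g3_e2_e2_e0_e0_e0 S.mirror n2)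
  have z14 : C 2 0 0 2 (n2 + 3) 0 = C 2 0 0 0 2 (n2 + 3) := S.c4 2 0 0 2 (n2 + 3) 0
  have z15 : C 2 0 2 (n2 + 3) 0 0 = C 2 0 0 0 2 (n2 + 3) := S.c3 2 0 2 (n2 + 3) 0 0
  have z16 : C 2 2 (n2 + 3) 0 0 0 = C 2 0 0 0 2 (n2 + 3) := S.c2 2 2 (n2 + 3) 0 0 0
  have z17 : C 2 0 0 1 (n2 + 3) 1 = 0 := (S.c2 2 0 0 1 (n2 + 3) 1).trans (S_p3a S 1 0 (n2 + 2) 0)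
  have z18 : C 2 0 1 (n2 + 3) 1 0 = 0 := (S.c1 2 0 1 (n2 + 3) 1 0).trans (S_p3a S 1 0 (n2 + 2) 0)
  have z19 : C 2 0 1 0 1 (n2 + 3) = 0 := (S.c3 2 0 1 0 1 (n2 + 3)).trans (S_p3b S 1 0 (n2 + 2) 0)
  have z20 : C 2 2 0 (n2 + 3) 0 0 = C 2 0 (n2 + 3) 0 0 2 := S.c1 2 2 0 (n2 + 3) 0 0
  have z21 : C 2 0 (n2 + 3) 1 0 1 = 0 := (S.c1 2 0 (n2 + 3) 1 0 1).trans (S_p3b S 1 (n2 + 2) 0 0)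
  linear_combination ((((-1 / 2 : ℚ) * r0 + (1 / 2 : ℚ) * r1 + (1 / 2 : ℚ) * r2 + (1 / 2 : ℚ) * r3 + (-1 / 2 : ℚ) * r4)
    + ((1 / 2 : ℚ) * r5 + (-1 / 2 : ℚ) * r6 + (-1 / 2 : ℚ) * r7 + (1 / 2 : ℚ) * r8))
    + (((1 / 2 : ℚ) * r9 + (-1 / 2 : ℚ) * r10 + (-1 / 2 : ℚ) * r11 + (-1 / 2 : ℚ) * r12 + (1 / 2 : ℚ) * z0)
    + ((1 / 2 : ℚ) * z1 + (-1 / 2 : ℚ) * z2 + (1 / 2 : ℚ) * z3 + (-1 / 2 : ℚ) * z4)))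
    + ((((1 / 2 : ℚ) * z5 + (-1 / 2 : ℚ) * z6 + (-1 / 2 : ℚ) * z7 + (1 / 2 : ℚ) * z8 + (1 / 2 : ℚ) * z9)
    + ((-1 / 2 : ℚ) * z10 + (-1 / 2 : ℚ) * z11 + (-1 / 2 : ℚ) * z12 + (-1 / 2 : ℚ) * z13))
    + ((-1 / 2 : ℚ) * z14 + (-1 / 2 : ℚ) * z15 + (3 / 2 : ℚ) * z16 + (1 / 2 : ℚ) * z17 + (1 / 2 : ℚ) * z18 + (1 / 2 : ℚ) * z19 + (1 / 2 : ℚ) * z20 + (1 / 2 : ℚ) * z21))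

theorem L_g3_g3_e2_e0_e0_e0 (S : Sys6 G C D) (n6 n1 : ℕ) : C (n6 + 3) (n1 + 3) 2 0 0 0 = 0 := by
  have r0 : G 0 0 0 0 (n6 + 3) 2 (n1 + 3) = G (n1 + 3) 0 0 0 0 (n6 + 3) 2 := S.z0' (n6 + 3) 2 (n1 + 3)
  have r1 : D (n1 + 3) 0 0 0 (n6 + 3) 2 = G 2 0 (n1 + 3) 0 0 0 (n6 + 3) - G 0 0 (n1 + 3) 0 0 (n6 + 3) 2 := S.al0' (n1 + 2) 0 0 (n6 + 3) 2
  have r2 : D (n1 + 3) 0 0 (n6 + 3) 2 0 = G 0 0 (n1 + 3) 0 0 (n6 + 3) 2 - G 0 0 (n1 + 3) 0 (n6 + 3) 2 0 := S.al0' (n1 + 2) 0 (n6 + 3) 2 0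
  have r3 : D (n1 + 3) 0 2 0 0 (n6 + 3) = G (n6 + 3) 0 (n1 + 3) 0 2 0 0 - G 2 0 (n1 + 3) 0 0 0 (n6 + 3) + G 1 1 (n1 + 3) 0 0 0 (n6 + 3) := S.al1' 1 (n1 + 2) 0 0 0 (n6 + 3)
  have r4 : D (n1 + 3) 0 (n6 + 3) 2 0 0 = G 0 0 (n1 + 3) 0 (n6 + 3) 2 0 - G (n6 + 3) 0 (n1 + 3) 0 2 0 0 + G (n6 + 2) 1 (n1 + 3) 0 2 0 0 := S.al1' (n6 + 2) (n1 + 2) 0 2 0 0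
  have r5 : D (n1 + 3) 2 0 0 0 (n6 + 3) = G (n6 + 3) 0 (n1 + 3) 2 0 0 0 - G 0 0 (n1 + 3) 2 0 0 (n6 + 3) := S.al0' (n1 + 2) 2 0 0 (n6 + 3)
  have r6 : D (n1 + 3) 2 0 0 (n6 + 3) 0 = G 0 0 (n1 + 3) 2 0 0 (n6 + 3) - G 0 0 (n1 + 3) 2 0 (n6 + 3) 0 := S.al0' (n1 + 2) 2 0 (n6 + 3) 0
  have r7 : G 0 (n1 + 3) 2 (n6 + 3) 0 0 0 = G (n6 + 3) 0 (n1 + 3) 2 0 0 0 := S.z0 (n1 + 3) 2 (n6 + 3)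
  have r8 : C (n6 + 3) 0 0 0 (n1 + 3) 2 = G 2 0 0 (n1 + 3) 0 (n6 + 3) 0 - G 0 0 (n1 + 3) 2 0 (n6 + 3) 0 := S.al0 0 (n1 + 3) 2 (n6 + 2) 0
  have r9 : C (n6 + 3) 0 0 (n1 + 3) 2 0 = G 0 0 (n1 + 3) 2 0 (n6 + 3) 0 - G 0 (n1 + 3) 2 0 0 (n6 + 3) 0 := S.al0 (n1 + 3) 2 0 (n6 + 2) 0
  have r10 : C (n6 + 3) 0 2 0 0 (n1 + 3) = G (n1 + 3) 2 0 0 0 (n6 + 3) 0 - G 2 0 0 (n1 + 3) 0 (n6 + 3) 0 + G 1 0 0 (n1 + 3) 1 (n6 + 3) 0 := S.al1 1 0 0 (n1 + 3) (n6 + 2) 0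
  have r11 : C (n6 + 3) 0 (n1 + 3) 2 0 0 = G 0 (n1 + 3) 2 0 0 (n6 + 3) 0 - G (n1 + 3) 2 0 0 0 (n6 + 3) 0 + G (n1 + 2) 2 0 0 1 (n6 + 3) 0 := S.al1 (n1 + 2) 2 0 0 (n6 + 2) 0
  have r12 : C (n6 + 3) 2 0 0 0 (n1 + 3) = G (n1 + 3) 0 0 0 0 (n6 + 3) 2 - G 0 0 0 (n1 + 3) 0 (n6 + 3) 2 := S.al0 0 0 (n1 + 3) (n6 + 2) 2
  have r13 : C (n6 + 3) 2 0 0 (n1 + 3) 0 = G 0 0 0 (n1 + 3) 0 (n6 + 3) 2 - G 0 0 (n1 + 3) 0 0 (n6 + 3) 2 := S.al0 0 (n1 + 3) 0 (n6 + 2) 2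
  have z0 : G 0 0 0 0 (n6 + 3) 2 (n1 + 3) = 0 := S.van 0 0 0 0 (n6 + 1) 1 (n1 + 3)
  have z1 : G 0 0 (n1 + 3) 0 (n6 + 3) 2 0 = 0 := S.van 0 0 (n1 + 3) 0 (n6 + 1) 1 0
  have z2 : G 0 (n1 + 3) 2 0 0 (n6 + 3) 0 = 0 := S.van' 0 (n1 + 1) 1 0 0 (n6 + 3) 0
  have z3 : G 0 (n1 + 3) 2 (n6 + 3) 0 0 0 = 0 := S.van' 0 (n1 + 1) 1 (n6 + 3) 0 0 0
  have z4 : G 1 0 0 (n1 + 3) 1 (n6 + 3) 0 = G 0 (n1 + 3) 1 0 1 (n6 + 3) 0 := S.r2 1 0 0 (n1 + 3) (n6 + 2) 0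
  have z5 : G 0 (n1 + 3) 1 0 1 (n6 + 3) 0 = 0 := S.van' 0 (n1 + 1) 0 0 1 (n6 + 3) 0
  have z6 : G 1 1 (n1 + 3) 0 0 0 (n6 + 3) = G 0 1 (n1 + 3) 0 (n6 + 3) 1 0 := S.m2 1 (n1 + 2) 0 0 0 (n6 + 3)
  have z7 : G 0 1 (n1 + 3) 0 (n6 + 3) 1 0 = 0 := S.van 0 1 (n1 + 3) 0 (n6 + 1) 0 0
  have z8 : G (n1 + 2) 2 0 0 1 (n6 + 3) 0 = G 0 (n1 + 2) 2 0 1 (n6 + 3) 0 := S.r1 (n1 + 2) 2 0 0 (n6 + 2) 0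
  have z9 : G 0 (n1 + 2) 2 0 1 (n6 + 3) 0 = 0 := S.van' 0 n1 1 0 1 (n6 + 3) 0
  have z10 : G (n6 + 2) 1 (n1 + 3) 0 2 0 0 = G 0 1 (n1 + 3) 0 (n6 + 2) 2 0 := S.m1 (n6 + 2) (n1 + 2) 0 2 0 0
  have z11 : G 0 1 (n1 + 3) 0 (n6 + 2) 2 0 = 0 := S.van 0 1 (n1 + 3) 0 n6 1 0
  have z12 : D (n1 + 3) 0 0 (n6 + 3) 2 0 = D (n1 + 3) 0 0 0 (n6 + 3) 2 := S.d4 (n1 + 3) 0 0 (n6 + 3) 2 0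
  have z13 : D (n1 + 3) 0 (n6 + 3) 2 0 0 = D (n1 + 3) 0 0 0 (n6 + 3) 2 := S.d3 (n1 + 3) 0 (n6 + 3) 2 0 0
  have z14 : D (n1 + 3) 2 0 0 0 (n6 + 3) = D (n1 + 3) 0 0 0 (n6 + 3) 2 := S.d1 (n1 + 3) 2 0 0 0 (n6 + 3)
  have z15 : D (n1 + 3) 2 0 0 (n6 + 3) 0 = D (n1 + 3) 0 2 0 0 (n6 + 3) := S.d4 (n1 + 3) 2 0 0 (n6 + 3) 0
  have z16 : C (n6 + 3) 0 0 (n1 + 3) 2 0 = C (n6 + 3) 0 0 0 (n1 + 3) 2 := S.c4 (n6 + 3) 0 0 (n1 + 3) 2 0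
  have z17 : C (n6 + 3) 0 (n1 + 3) 2 0 0 = C (n6 + 3) 0 0 0 (n1 + 3) 2 := S.c3 (n6 + 3) 0 (n1 + 3) 2 0 0
  have z18 : C (n6 + 3) 2 0 0 0 (n1 + 3) = C (n6 + 3) 0 0 0 (n1 + 3) 2 := S.c1 (n6 + 3) 2 0 0 0 (n1 + 3)
  have z19 : C (n6 + 3) (n1 + 3) 2 0 0 0 = C (n6 + 3) 0 0 0 (n1 + 3) 2 := S.c2 (n6 + 3) (n1 + 3) 2 0 0 0
  have z20 : C (n6 + 3) 2 0 0 (n1 + 3) 0 = C (n6 + 3) 0 2 0 0 (n1 + 3) := S.c4 (n6 + 3) 2 0 0 (n1 + 3) 0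
  linear_combination ((((2 / 3 : ℚ) * r0 + (1 / 3 : ℚ) * r1 + (-1 / 3 : ℚ) * r2 + (1 / 3 : ℚ) * r3 + (1 / 3 : ℚ) * r4)
    + ((-1 / 3 : ℚ) * r5 + (-1 / 3 : ℚ) * r6 + (1 / 3 : ℚ) * r7 + (2 / 3 : ℚ) * r8))
    + (((1 / 3 : ℚ) * r9 + (2 / 3 : ℚ) * r10 + (2 / 3 : ℚ) * r11 + (-2 / 3 : ℚ) * r12 + (-2 / 3 : ℚ) * r13)
    + ((-2 / 3 : ℚ) * z0 + (2 / 3 : ℚ) * z1 + (1 / 3 : ℚ) * z2 + (-1 / 3 : ℚ) * z3)))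
    + ((((2 / 3 : ℚ) * z4 + (2 / 3 : ℚ) * z5 + (1 / 3 : ℚ) * z6 + (1 / 3 : ℚ) * z7 + (2 / 3 : ℚ) * z8)
    + ((2 / 3 : ℚ) * z9 + (1 / 3 : ℚ) * z10 + (1 / 3 : ℚ) * z11 + (1 / 3 : ℚ) * z12))
    + ((-1 / 3 : ℚ) * z13 + (1 / 3 : ℚ) * z14 + (1 / 3 : ℚ) * z15 + (-1 / 3 : ℚ) * z16 + (-2 / 3 : ℚ) * z17 + (2 / 3 : ℚ) * z18 + (1 : ℚ) * z19 + (2 / 3 : ℚ) * z20))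

theorem L_e2_g3_g3_e0_e0_e0 (S : Sys6 G C D) (n1 n2 : ℕ) : C 2 (n1 + 3) (n2 + 3) 0 0 0 = 0 := by
  have r0 : D (n1 + 3) 2 0 0 0 (n2 + 3) = G (n2 + 3) 0 (n1 + 3) 2 0 0 0 - G 0 0 (n1 + 3) 2 0 0 (n2 + 3) := S.al0' (n1 + 2) 2 0 0 (n2 + 3)
  have r1 : D (n1 + 3) 2 0 0 (n2 + 3) 0 = G 0 0 (n1 + 3) 2 0 0 (n2 + 3) - G 0 0 (n1 + 3) 2 0 (n2 + 3) 0 := S.al0' (n1 + 2) 2 0 (n2 + 3) 0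
  have r2 : D (n1 + 3) (n2 + 3) 0 2 0 0 = G 0 0 (n1 + 3) (n2 + 3) 0 2 0 - G 0 0 (n1 + 3) (n2 + 3) 2 0 0 := S.al0' (n1 + 2) (n2 + 3) 2 0 0
  have r3 : D (n1 + 3) (n2 + 3) 2 0 0 0 = G 0 0 (n1 + 3) (n2 + 3) 2 0 0 - G 2 0 (n1 + 3) (n2 + 3) 0 0 0 + G 1 1 (n1 + 3) (n2 + 3) 0 0 0 := S.al1' 1 (n1 + 2) (n2 + 3) 0 0 0
  have r4 : G 0 (n1 + 3) 2 (n2 + 3) 0 0 0 = G (n2 + 3) 0 (n1 + 3) 2 0 0 0 := S.z0 (n1 + 3) 2 (n2 + 3)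
  have r5 : G 0 (n1 + 3) (n2 + 3) 2 0 0 0 = G 2 0 (n1 + 3) (n2 + 3) 0 0 0 := S.z0 (n1 + 3) (n2 + 3) 2
  have r6 : C 1 0 1 (n1 + 3) (n2 + 3) 0 = G 0 1 (n1 + 3) (n2 + 3) 0 1 0 - G 1 (n1 + 3) (n2 + 3) 0 0 1 0 + G 0 (n1 + 3) (n2 + 3) 0 1 1 0 := S.al1 0 (n1 + 3) (n2 + 3) 0 0 0
  have r7 : C 2 0 0 (n1 + 3) (n2 + 3) 0 = G 0 0 (n1 + 3) (n2 + 3) 0 2 0 - G 0 (n1 + 3) (n2 + 3) 0 0 2 0 := S.al0 (n1 + 3) (n2 + 3) 0 1 0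
  have r8 : C (n2 + 3) 0 0 (n1 + 3) 2 0 = G 0 0 (n1 + 3) 2 0 (n2 + 3) 0 - G 0 (n1 + 3) 2 0 0 (n2 + 3) 0 := S.al0 (n1 + 3) 2 0 (n2 + 2) 0
  have z0 : G 1 1 (n1 + 3) (n2 + 3) 0 0 0 = G 0 1 (n1 + 3) (n2 + 3) 0 0 1 := S.m3 1 (n1 + 2) (n2 + 3) 0 0 0
  have z1 : G 0 1 (n1 + 3) (n2 + 3) 0 1 0 = G 0 1 (n1 + 3) (n2 + 3) 0 0 1 := S.m1 0 (n1 + 2) (n2 + 3) 0 1 0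
  have z2 : G 0 (n1 + 3) 2 0 0 (n2 + 3) 0 = 0 := S.van' 0 (n1 + 1) 1 0 0 (n2 + 3) 0
  have z3 : G 0 (n1 + 3) 2 (n2 + 3) 0 0 0 = 0 := S.van' 0 (n1 + 1) 1 (n2 + 3) 0 0 0
  have z4 : G 0 (n1 + 3) (n2 + 3) 0 0 2 0 = 0 := S.van' 0 (n1 + 1) (n2 + 2) 0 0 2 0
  have z5 : G 0 (n1 + 3) (n2 + 3) 0 1 1 0 = 0 := S.van' 0 (n1 + 1) (n2 + 2) 0 1 1 0
  have z6 : G 0 (n1 + 3) (n2 + 3) 2 0 0 0 = 0 := S.van' 0 (n1 + 1) (n2 + 2) 2 0 0 0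
  have z7 : G 1 (n1 + 3) (n2 + 3) 0 0 1 0 = 0 := S.van' 1 (n1 + 1) (n2 + 2) 0 0 1 0
  have z8 : D (n1 + 3) 2 0 0 0 (n2 + 3) = 0 := (S.d4 (n1 + 3) 2 0 0 0 (n2 + 3)).trans (L_g3_g3_e2_e0_e0_e0 S.mirror n1 n2)
  have z9 : D (n1 + 3) (n2 + 3) 2 0 0 0 = 0 := L_g3_g3_e2_e0_e0_e0 S.mirror n1 n2
  have z10 : D (n1 + 3) (n2 + 3) 0 2 0 0 = D (n1 + 3) 2 0 0 (n2 + 3) 0 := S.d2 (n1 + 3) (n2 + 3) 0 2 0 0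
  have z11 : C 1 0 1 (n1 + 3) (n2 + 3) 0 = 0 := (S.c1 1 0 1 (n1 + 3) (n2 + 3) 0).trans (S_p3a S 0 0 (n1 + 2) (n2 + 2))
  have z12 : C 2 (n1 + 3) (n2 + 3) 0 0 0 = C 2 0 0 (n1 + 3) (n2 + 3) 0 := S.c3 2 (n1 + 3) (n2 + 3) 0 0 0
  have z13 : C (n2 + 3) 0 0 (n1 + 3) 2 0 = 0 := (S.c2 (n2 + 3) 0 0 (n1 + 3) 2 0).trans (L_g3_g3_e2_e0_e0_e0 S n2 n1)
  linear_combination (((1 : ℚ) * r0 + (1 : ℚ) * r1 + (-1 : ℚ) * r2 + (-1 : ℚ) * r3 + (-1 : ℚ) * r4 + (-1 : ℚ) * r5)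
    + ((1 : ℚ) * r6 + (1 : ℚ) * r7 + (1 : ℚ) * r8 + (-1 : ℚ) * z0 + (1 : ℚ) * z1 + (-1 : ℚ) * z2))
    + (((1 : ℚ) * z3 + (-1 : ℚ) * z4 + (1 : ℚ) * z5 + (1 : ℚ) * z6 + (-1 : ℚ) * z7 + (-1 : ℚ) * z8)
    + ((1 : ℚ) * z9 + (1 : ℚ) * z10 + (-1 : ℚ) * z11 + (1 : ℚ) * z12 + (-1 : ℚ) * z13))

theorem L_g3_e2_g3_e0_e0_e0 (S : Sys6 G C D) (n6 n2 : ℕ) : C (n6 + 3) 2 (n2 + 3) 0 0 0 = 0 := by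
  have r0 : D 2 0 0 0 (n6 + 3) (n2 + 3) = G (n2 + 3) 0 2 0 0 0 (n6 + 3) - G 0 0 2 0 0 (n6 + 3) (n2 + 3) := S.al0' 1 0 0 (n6 + 3) (n2 + 3)
  have r1 : D 2 0 0 (n6 + 3) (n2 + 3) 0 = G 0 0 2 0 0 (n6 + 3) (n2 + 3) - G 0 0 2 0 (n6 + 3) (n2 + 3) 0 := S.al0' 1 0 (n6 + 3) (n2 + 3) 0
  have r2 : D 2 0 (n2 + 3) 0 0 (n6 + 3) = G (n6 + 3) 0 2 0 (n2 + 3) 0 0 - G (n2 + 3) 0 2 0 0 0 (n6 + 3) + G (n2 + 2) 1 2 0 0 0 (n6 + 3) := S.al1' (n2 + 2) 1 0 0 0 (n6 + 3)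
  have r3 : D 2 0 (n6 + 3) (n2 + 3) 0 0 = G 0 0 2 0 (n6 + 3) (n2 + 3) 0 - G (n6 + 3) 0 2 0 (n2 + 3) 0 0 + G (n6 + 2) 1 2 0 (n2 + 3) 0 0 := S.al1' (n6 + 2) 1 0 (n2 + 3) 0 0
  have r4 : D 2 (n2 + 3) 0 0 0 (n6 + 3) = G (n6 + 3) 0 2 (n2 + 3) 0 0 0 - G 0 0 2 (n2 + 3) 0 0 (n6 + 3) := S.al0' 1 (n2 + 3) 0 0 (n6 + 3)
  have r5 : D 2 (n2 + 3) 0 0 (n6 + 3) 0 = G 0 0 2 (n2 + 3) 0 0 (n6 + 3) - G 0 0 2 (n2 + 3) 0 (n6 + 3) 0 := S.al0' 1 (n2 + 3) 0 (n6 + 3) 0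
  have r6 : G 0 2 (n2 + 3) (n6 + 3) 0 0 0 = G (n6 + 3) 0 2 (n2 + 3) 0 0 0 := S.z0 2 (n2 + 3) (n6 + 3)
  have r7 : C (n6 + 3) 0 0 2 (n2 + 3) 0 = G 0 0 2 (n2 + 3) 0 (n6 + 3) 0 - G 0 2 (n2 + 3) 0 0 (n6 + 3) 0 := S.al0 2 (n2 + 3) 0 (n6 + 2) 0
  have z0 : G 0 2 (n2 + 3) 0 0 (n6 + 3) 0 = 0 := S.van' 0 0 (n2 + 2) 0 0 (n6 + 3) 0
  have z1 : G 0 2 (n2 + 3) (n6 + 3) 0 0 0 = 0 := S.van' 0 0 (n2 + 2) (n6 + 3) 0 0 0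
  have z2 : G (n2 + 2) 1 2 0 0 0 (n6 + 3) = G 0 1 2 0 (n6 + 3) (n2 + 2) 0 := S.m2 (n2 + 2) 1 0 0 0 (n6 + 3)
  have z3 : G 0 1 2 0 (n6 + 3) (n2 + 2) 0 = 0 := S.van 0 1 2 0 (n6 + 1) (n2 + 1) 0
  have z4 : G (n6 + 2) 1 2 0 (n2 + 3) 0 0 = G 0 1 2 0 (n6 + 2) (n2 + 3) 0 := S.m1 (n6 + 2) 1 0 (n2 + 3) 0 0
  have z5 : G 0 1 2 0 (n6 + 2) (n2 + 3) 0 = 0 := S.van 0 1 2 0 n6 (n2 + 2) 0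
  have z6 : D 2 0 0 0 (n6 + 3) (n2 + 3) = 0 := (S.d3 2 0 0 0 (n6 + 3) (n2 + 3)).trans (L_e2_g3_g3_e0_e0_e0 S.mirror n6 n2)
  have z7 : D 2 0 0 (n6 + 3) (n2 + 3) 0 = 0 := (S.d2 2 0 0 (n6 + 3) (n2 + 3) 0).trans (L_e2_g3_g3_e0_e0_e0 S.mirror n6 n2)
  have z8 : D 2 0 (n6 + 3) (n2 + 3) 0 0 = 0 := (S.d1 2 0 (n6 + 3) (n2 + 3) 0 0).trans (L_e2_g3_g3_e0_e0_e0 S.mirror n6 n2)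
  have z9 : D 2 (n2 + 3) 0 0 0 (n6 + 3) = 0 := (S.d4 2 (n2 + 3) 0 0 0 (n6 + 3)).trans (L_e2_g3_g3_e0_e0_e0 S.mirror n6 n2)
  have z10 : D 2 (n2 + 3) 0 0 (n6 + 3) 0 = D 2 0 (n2 + 3) 0 0 (n6 + 3) := S.d4 2 (n2 + 3) 0 0 (n6 + 3) 0
  have z11 : C (n6 + 3) 2 (n2 + 3) 0 0 0 = C (n6 + 3) 0 0 2 (n2 + 3) 0 := S.c3 (n6 + 3) 2 (n2 + 3) 0 0 0
  linear_combination (((-1 : ℚ) * r0 + (-1 : ℚ) * r1 + (-1 : ℚ) * r2 + (-1 : ℚ) * r3 + (1 : ℚ) * r4)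
    + ((1 : ℚ) * r5 + (-1 : ℚ) * r6 + (1 : ℚ) * r7 + (-1 : ℚ) * z0 + (1 : ℚ) * z1))
    + (((-1 : ℚ) * z2 + (-1 : ℚ) * z3 + (-1 : ℚ) * z4 + (-1 : ℚ) * z5 + (1 : ℚ) * z6)
    + ((1 : ℚ) * z7 + (1 : ℚ) * z8 + (-1 : ℚ) * z9 + (-1 : ℚ) * z10 + (1 : ℚ) * z11))

theorem L_g3_g3_g3_e0_e0_e0 (S : Sys6 G C D) (n6 n1 n2 : ℕ) : C (n6 + 3) (n1 + 3) (n2 + 3) 0 0 0 = 0 := by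
  have r0 : G 0 0 0 0 (n6 + 3) (n2 + 3) (n1 + 3) = G (n1 + 3) 0 0 0 0 (n6 + 3) (n2 + 3) := S.z0' (n6 + 3) (n2 + 3) (n1 + 3)
  have r1 : D (n1 + 3) 0 0 0 (n6 + 3) (n2 + 3) = G (n2 + 3) 0 (n1 + 3) 0 0 0 (n6 + 3) - G 0 0 (n1 + 3) 0 0 (n6 + 3) (n2 + 3) := S.al0' (n1 + 2) 0 0 (n6 + 3) (n2 + 3)
  have r2 : D (n1 + 3) 0 0 (n6 + 3) (n2 + 3) 0 = G 0 0 (n1 + 3) 0 0 (n6 + 3) (n2 + 3) - G 0 0 (n1 + 3) 0 (n6 + 3) (n2 + 3) 0 := S.al0' (n1 + 2) 0 (n6 + 3) (n2 + 3) 0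
  have r3 : D (n1 + 3) 0 (n2 + 3) 0 0 (n6 + 3) = G (n6 + 3) 0 (n1 + 3) 0 (n2 + 3) 0 0 - G (n2 + 3) 0 (n1 + 3) 0 0 0 (n6 + 3) + G (n2 + 2) 1 (n1 + 3) 0 0 0 (n6 + 3) := S.al1' (n2 + 2) (n1 + 2) 0 0 0 (n6 + 3)
  have r4 : D (n1 + 3) 0 (n6 + 3) (n2 + 3) 0 0 = G 0 0 (n1 + 3) 0 (n6 + 3) (n2 + 3) 0 - G (n6 + 3) 0 (n1 + 3) 0 (n2 + 3) 0 0 + G (n6 + 2) 1 (n1 + 3) 0 (n2 + 3) 0 0 := S.al1' (n6 + 2) (n1 + 2) 0 (n2 + 3) 0 0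
  have r5 : D (n1 + 3) (n2 + 3) 0 0 0 (n6 + 3) = G (n6 + 3) 0 (n1 + 3) (n2 + 3) 0 0 0 - G 0 0 (n1 + 3) (n2 + 3) 0 0 (n6 + 3) := S.al0' (n1 + 2) (n2 + 3) 0 0 (n6 + 3)
  have r6 : D (n1 + 3) (n2 + 3) 0 0 (n6 + 3) 0 = G 0 0 (n1 + 3) (n2 + 3) 0 0 (n6 + 3) - G 0 0 (n1 + 3) (n2 + 3) 0 (n6 + 3) 0 := S.al0' (n1 + 2) (n2 + 3) 0 (n6 + 3) 0
  have r7 : G 0 (n1 + 3) (n2 + 3) (n6 + 3) 0 0 0 = G (n6 + 3) 0 (n1 + 3) (n2 + 3) 0 0 0 := S.z0 (n1 + 3) (n2 + 3) (n6 + 3)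
  have r8 : C (n6 + 3) 0 0 0 (n1 + 3) (n2 + 3) = G (n2 + 3) 0 0 (n1 + 3) 0 (n6 + 3) 0 - G 0 0 (n1 + 3) (n2 + 3) 0 (n6 + 3) 0 := S.al0 0 (n1 + 3) (n2 + 3) (n6 + 2) 0
  have r9 : C (n6 + 3) 0 0 (n1 + 3) (n2 + 3) 0 = G 0 0 (n1 + 3) (n2 + 3) 0 (n6 + 3) 0 - G 0 (n1 + 3) (n2 + 3) 0 0 (n6 + 3) 0 := S.al0 (n1 + 3) (n2 + 3) 0 (n6 + 2) 0
  have r10 : C (n6 + 3) 0 (n1 + 3) (n2 + 3) 0 0 = G 0 (n1 + 3) (n2 + 3) 0 0 (n6 + 3) 0 - G (n1 + 3) (n2 + 3) 0 0 0 (n6 + 3) 0 + G (n1 + 2) (n2 + 3) 0 0 1 (n6 + 3) 0 := S.al1 (n1 + 2) (n2 + 3) 0 0 (n6 + 2) 0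
  have r11 : C (n6 + 3) 0 (n2 + 3) 0 0 (n1 + 3) = G (n1 + 3) (n2 + 3) 0 0 0 (n6 + 3) 0 - G (n2 + 3) 0 0 (n1 + 3) 0 (n6 + 3) 0 + G (n2 + 2) 0 0 (n1 + 3) 1 (n6 + 3) 0 := S.al1 (n2 + 2) 0 0 (n1 + 3) (n6 + 2) 0
  have r12 : C (n6 + 3) (n2 + 3) 0 0 0 (n1 + 3) = G (n1 + 3) 0 0 0 0 (n6 + 3) (n2 + 3) - G 0 0 0 (n1 + 3) 0 (n6 + 3) (n2 + 3) := S.al0 0 0 (n1 + 3) (n6 + 2) (n2 + 3)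
  have r13 : C (n6 + 3) (n2 + 3) 0 0 (n1 + 3) 0 = G 0 0 0 (n1 + 3) 0 (n6 + 3) (n2 + 3) - G 0 0 (n1 + 3) 0 0 (n6 + 3) (n2 + 3) := S.al0 0 (n1 + 3) 0 (n6 + 2) (n2 + 3)
  have z0 : G 0 0 0 0 (n6 + 3) (n2 + 3) (n1 + 3) = 0 := S.van 0 0 0 0 (n6 + 1) (n2 + 2) (n1 + 3)
  have z1 : G 0 0 (n1 + 3) 0 (n6 + 3) (n2 + 3) 0 = 0 := S.van 0 0 (n1 + 3) 0 (n6 + 1) (n2 + 2) 0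
  have z2 : G 0 (n1 + 3) (n2 + 3) 0 0 (n6 + 3) 0 = 0 := S.van' 0 (n1 + 1) (n2 + 2) 0 0 (n6 + 3) 0
  have z3 : G 0 (n1 + 3) (n2 + 3) (n6 + 3) 0 0 0 = 0 := S.van' 0 (n1 + 1) (n2 + 2) (n6 + 3) 0 0 0
  have z4 : G (n1 + 2) (n2 + 3) 0 0 1 (n6 + 3) 0 = G 0 (n1 + 2) (n2 + 3) 0 1 (n6 + 3) 0 := S.r1 (n1 + 2) (n2 + 3) 0 0 (n6 + 2) 0
  have z5 : G 0 (n1 + 2) (n2 + 3) 0 1 (n6 + 3) 0 = 0 := S.van' 0 n1 (n2 + 2) 0 1 (n6 + 3) 0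
  have z6 : G (n2 + 2) 0 0 (n1 + 3) 1 (n6 + 3) 0 = G 0 (n1 + 3) (n2 + 2) 0 1 (n6 + 3) 0 := S.r2 (n2 + 2) 0 0 (n1 + 3) (n6 + 2) 0
  have z7 : G 0 (n1 + 3) (n2 + 2) 0 1 (n6 + 3) 0 = 0 := S.van' 0 (n1 + 1) (n2 + 1) 0 1 (n6 + 3) 0
  have z8 : G (n2 + 2) 1 (n1 + 3) 0 0 0 (n6 + 3) = G 0 1 (n1 + 3) 0 (n6 + 3) (n2 + 2) 0 := S.m2 (n2 + 2) (n1 + 2) 0 0 0 (n6 + 3)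
  have z9 : G 0 1 (n1 + 3) 0 (n6 + 3) (n2 + 2) 0 = 0 := S.van 0 1 (n1 + 3) 0 (n6 + 1) (n2 + 1) 0
  have z10 : G (n6 + 2) 1 (n1 + 3) 0 (n2 + 3) 0 0 = G 0 1 (n1 + 3) 0 (n6 + 2) (n2 + 3) 0 := S.m1 (n6 + 2) (n1 + 2) 0 (n2 + 3) 0 0
  have z11 : G 0 1 (n1 + 3) 0 (n6 + 2) (n2 + 3) 0 = 0 := S.van 0 1 (n1 + 3) 0 n6 (n2 + 2) 0
  have z12 : D (n1 + 3) 0 0 (n6 + 3) (n2 + 3) 0 = D (n1 + 3) 0 0 0 (n6 + 3) (n2 + 3) := S.d4 (n1 + 3) 0 0 (n6 + 3) (n2 + 3) 0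
  have z13 : D (n1 + 3) 0 (n6 + 3) (n2 + 3) 0 0 = D (n1 + 3) 0 0 0 (n6 + 3) (n2 + 3) := S.d3 (n1 + 3) 0 (n6 + 3) (n2 + 3) 0 0
  have z14 : D (n1 + 3) (n2 + 3) 0 0 0 (n6 + 3) = D (n1 + 3) 0 0 0 (n6 + 3) (n2 + 3) := S.d1 (n1 + 3) (n2 + 3) 0 0 0 (n6 + 3)
  have z15 : D (n1 + 3) (n2 + 3) 0 0 (n6 + 3) 0 = D (n1 + 3) 0 (n2 + 3) 0 0 (n6 + 3) := S.d4 (n1 + 3) (n2 + 3) 0 0 (n6 + 3) 0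
  have z16 : C (n6 + 3) 0 0 (n1 + 3) (n2 + 3) 0 = C (n6 + 3) 0 0 0 (n1 + 3) (n2 + 3) := S.c4 (n6 + 3) 0 0 (n1 + 3) (n2 + 3) 0
  have z17 : C (n6 + 3) 0 (n1 + 3) (n2 + 3) 0 0 = C (n6 + 3) 0 0 0 (n1 + 3) (n2 + 3) := S.c3 (n6 + 3) 0 (n1 + 3) (n2 + 3) 0 0
  have z18 : C (n6 + 3) (n2 + 3) 0 0 0 (n1 + 3) = C (n6 + 3) 0 0 0 (n1 + 3) (n2 + 3) := S.c1 (n6 + 3) (n2 + 3) 0 0 0 (n1 + 3)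
  have z19 : C (n6 + 3) (n1 + 3) (n2 + 3) 0 0 0 = C (n6 + 3) 0 0 0 (n1 + 3) (n2 + 3) := S.c2 (n6 + 3) (n1 + 3) (n2 + 3) 0 0 0
  have z20 : C (n6 + 3) (n2 + 3) 0 0 (n1 + 3) 0 = C (n6 + 3) 0 (n2 + 3) 0 0 (n1 + 3) := S.c4 (n6 + 3) (n2 + 3) 0 0 (n1 + 3) 0
  linear_combination ((((2 / 3 : ℚ) * r0 + (1 / 3 : ℚ) * r1 + (-1 / 3 : ℚ) * r2 + (1 / 3 : ℚ) * r3 + (1 / 3 : ℚ) * r4)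
    + ((-1 / 3 : ℚ) * r5 + (-1 / 3 : ℚ) * r6 + (1 / 3 : ℚ) * r7 + (2 / 3 : ℚ) * r8))
    + (((1 / 3 : ℚ) * r9 + (2 / 3 : ℚ) * r10 + (2 / 3 : ℚ) * r11 + (-2 / 3 : ℚ) * r12 + (-2 / 3 : ℚ) * r13)
    + ((-2 / 3 : ℚ) * z0 + (2 / 3 : ℚ) * z1 + (1 / 3 : ℚ) * z2 + (-1 / 3 : ℚ) * z3)))
    + ((((2 / 3 : ℚ) * z4 + (2 / 3 : ℚ) * z5 + (2 / 3 : ℚ) * z6 + (2 / 3 : ℚ) * z7 + (1 / 3 : ℚ) * z8)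
    + ((1 / 3 : ℚ) * z9 + (1 / 3 : ℚ) * z10 + (1 / 3 : ℚ) * z11 + (1 / 3 : ℚ) * z12))
    + ((-1 / 3 : ℚ) * z13 + (1 / 3 : ℚ) * z14 + (1 / 3 : ℚ) * z15 + (-1 / 3 : ℚ) * z16 + (-2 / 3 : ℚ) * z17 + (2 / 3 : ℚ) * z18 + (1 : ℚ) * z19 + (2 / 3 : ℚ) * z20))

theorem L_e1_e2_e2_e0_e0_e0 (S : Sys6 G C D) : C 1 2 2 0 0 0 = 0 := by
  have r0 : D 1 2 0 1 0 1 = G 1 0 1 2 0 1 0 - G 0 0 1 2 1 0 1 := S.al0' 0 2 1 0 1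
  have r1 : D 1 2 1 0 1 0 = G 0 0 1 2 1 0 1 - G 1 0 1 2 0 1 0 + G 0 1 1 2 0 1 0 := S.al1' 0 0 2 0 1 0
  have r2 : D 2 0 0 1 1 1 = G 1 0 2 0 0 1 1 - G 0 0 2 0 1 1 1 := S.al0' 1 0 1 1 1
  have r3 : D 2 0 1 0 1 1 = G 1 0 2 0 1 0 1 - G 1 0 2 0 0 1 1 + G 0 1 2 0 0 1 1 := S.al1' 0 1 0 0 1 1
  have r4 : D 2 0 1 1 0 1 = G 1 0 2 0 1 1 0 - G 1 0 2 0 1 0 1 + G 0 1 2 0 1 0 1 := S.al1' 0 1 0 1 0 1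
  have r5 : D 2 0 1 1 1 0 = G 0 0 2 0 1 1 1 - G 1 0 2 0 1 1 0 + G 0 1 2 0 1 1 0 := S.al1' 0 1 0 1 1 0
  have r6 : C 1 0 0 0 2 2 = G 2 0 0 2 0 1 0 - G 0 0 2 2 0 1 0 := S.al0 0 2 2 0 0
  have r7 : C 1 0 0 2 2 0 = G 0 0 2 2 0 1 0 - G 0 2 2 0 0 1 0 := S.al0 2 2 0 0 0
  have r8 : C 1 0 1 1 2 0 = G 0 1 1 2 0 1 0 - G 1 1 2 0 0 1 0 + G 0 1 2 0 1 1 0 := S.al1 0 1 2 0 0 0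
  have r9 : C 1 0 2 0 0 2 = G 2 2 0 0 0 1 0 - G 2 0 0 2 0 1 0 + G 1 0 0 2 1 1 0 := S.al1 1 0 0 2 0 0
  have r10 : C 1 0 2 2 0 0 = G 0 2 2 0 0 1 0 - G 2 2 0 0 0 1 0 + G 1 2 0 0 1 1 0 := S.al1 1 2 0 0 0 0
  have r11 : C 1 2 0 0 0 2 = G 2 0 0 0 0 1 2 - G 0 0 0 2 0 1 2 := S.al0 0 0 2 0 2
  have r12 : C 1 2 0 0 2 0 = G 0 0 0 2 0 1 2 - G 0 0 2 0 0 1 2 := S.al0 0 2 0 0 2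
  have r13 : C 1 2 0 1 0 1 = G 1 0 1 0 0 1 2 - G 0 1 0 1 0 1 2 := S.al0 1 0 1 0 2
  have r14 : C 1 2 0 2 0 0 = G 0 0 2 0 0 1 2 - G 0 2 0 0 0 1 2 := S.al0 2 0 0 0 2
  have r15 : C 1 2 1 0 1 0 = G 0 1 0 1 0 1 2 - G 1 0 1 0 0 1 2 + G 0 0 1 0 1 1 2 := S.al1 0 0 1 0 0 2
  have r16 : C 1 2 2 0 0 0 = G 0 2 0 0 0 1 2 - G 2 0 0 0 0 1 2 + G 1 0 0 0 1 1 2 := S.al1 1 0 0 0 0 2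
  have z0 : G 1 0 0 0 1 1 2 = G 0 0 0 1 1 1 2 := S.r3 1 0 0 0 0 2
  have z1 : G 0 0 1 0 1 1 2 = G 0 0 0 1 1 1 2 := S.r1 0 0 1 0 0 2
  have z2 : G 0 1 2 0 0 1 1 = G 0 1 2 0 1 1 0 := S.m3 0 1 0 0 1 1
  have z3 : G 1 2 0 0 1 1 0 = G 0 0 1 2 1 1 0 := S.r2 1 2 0 0 0 0
  have z4 : G 0 1 2 0 1 1 0 = G 0 0 1 2 1 1 0 := S.r1 0 1 2 0 0 0
  have z5 : G 1 1 2 0 0 1 0 = G 0 1 2 0 1 0 1 := S.m1 1 1 0 0 1 0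
  have z6 : G 1 0 0 2 1 1 0 = G 0 2 1 0 1 1 0 := S.r2 1 0 0 2 0 0
  have z7 : G 0 2 1 0 1 1 0 = 0 := S.van' 0 0 0 0 1 1 0
  have z8 : D 1 2 0 1 0 1 = 0 := (S.d4 1 2 0 1 0 1).trans (S_p3b S.mirror 0 0 1 0)
  have z9 : D 1 2 1 0 1 0 = 0 := S_p3b S.mirror 0 1 0 0
  have z10 : D 2 0 0 1 1 1 = 0 := (S.d2 2 0 0 1 1 1).trans (S_p3a S.mirror 1 0 0 0)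
  have z11 : D 2 0 1 1 1 0 = 0 := (S.d1 2 0 1 1 1 0).trans (S_p3a S.mirror 1 0 0 0)
  have z12 : D 2 0 1 0 1 1 = 0 := (S.d3 2 0 1 0 1 1).trans (S_p3b S.mirror 1 0 0 0)
  have z13 : D 2 0 1 1 0 1 = 0 := (S.d1 2 0 1 1 0 1).trans (S_p3b S.mirror 1 0 0 0)
  have z14 : C 1 0 0 2 2 0 = C 1 0 0 0 2 2 := S.c4 1 0 0 2 2 0
  have z15 : C 1 0 2 2 0 0 = C 1 0 0 0 2 2 := S.c3 1 0 2 2 0 0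
  have z16 : C 1 2 0 0 0 2 = C 1 0 0 0 2 2 := S.c1 1 2 0 0 0 2
  have z17 : C 1 2 2 0 0 0 = C 1 0 0 0 2 2 := S.c2 1 2 2 0 0 0
  have z18 : C 1 0 1 1 2 0 = 0 := (S.c1 1 0 1 1 2 0).trans (S_p3a S 0 0 0 1)
  have z19 : C 1 2 0 0 2 0 = C 1 0 2 0 0 2 := S.c4 1 2 0 0 2 0
  have z20 : C 1 2 0 2 0 0 = C 1 0 2 0 0 2 := S.c1 1 2 0 2 0 0
  have z21 : C 1 2 0 1 0 1 = 0 := (S.c4 1 2 0 1 0 1).trans (S_p3b S 0 0 1 0)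
  have z22 : C 1 2 1 0 1 0 = 0 := S_p3b S 0 1 0 0
  linear_combination ((((1 / 6 : ℚ) * r0 + (1 / 6 : ℚ) * r1 + (-1 / 6 : ℚ) * r2 + (-1 / 6 : ℚ) * r3 + (-1 / 6 : ℚ) * r4)
    + ((-1 / 6 : ℚ) * r5 + (1 / 2 : ℚ) * r6 + (1 / 2 : ℚ) * r7 + (-1 / 6 : ℚ) * r8 + (1 / 2 : ℚ) * r9))
    + (((1 / 2 : ℚ) * r10 + (-1 / 4 : ℚ) * r11 + (-1 / 4 : ℚ) * r12 + (1 / 4 : ℚ) * r13 + (-1 / 4 : ℚ) * r14)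
    + ((1 / 4 : ℚ) * r15 + (-1 / 4 : ℚ) * r16 + (-1 / 4 : ℚ) * z0 + (1 / 4 : ℚ) * z1 + (-1 / 6 : ℚ) * z2)))
    + ((((1 / 2 : ℚ) * z3 + (-1 / 2 : ℚ) * z4 + (1 / 6 : ℚ) * z5 + (1 / 2 : ℚ) * z6 + (1 / 2 : ℚ) * z7)
    + ((-1 / 6 : ℚ) * z8 + (-1 / 6 : ℚ) * z9 + (1 / 6 : ℚ) * z10 + (1 / 6 : ℚ) * z11 + (1 / 6 : ℚ) * z12))
    + (((1 / 6 : ℚ) * z13 + (-1 / 2 : ℚ) * z14 + (-1 / 2 : ℚ) * z15 + (1 / 4 : ℚ) * z16 + (5 / 4 : ℚ) * z17)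
    + ((1 / 6 : ℚ) * z18 + (1 / 4 : ℚ) * z19 + (1 / 4 : ℚ) * z20 + (-1 / 4 : ℚ) * z21 + (-1 / 4 : ℚ) * z22)))

theorem L_e2_e2_e2_e0_e0_e0 (S : Sys6 G C D) : C 2 2 2 0 0 0 = 0 := by
  have r0 : D 1 0 1 2 2 0 = G 0 0 1 0 1 2 2 - G 1 0 1 0 2 2 0 + G 0 1 1 0 2 2 0 := S.al1' 0 0 0 2 2 0
  have r1 : D 1 0 2 1 2 0 = G 0 0 1 0 2 1 2 - G 2 0 1 0 1 2 0 + G 1 1 1 0 1 2 0 := S.al1' 1 0 0 1 2 0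
  have r2 : D 2 0 1 1 2 0 = G 0 0 2 0 1 1 2 - G 1 0 2 0 1 2 0 + G 0 1 2 0 1 2 0 := S.al1' 0 1 0 1 2 0
  have r3 : C 1 2 0 0 1 2 = G 2 0 0 1 0 1 2 - G 0 0 1 2 0 1 2 := S.al0 0 1 2 0 2
  have r4 : C 1 2 0 1 2 0 = G 0 0 1 2 0 1 2 - G 0 1 2 0 0 1 2 := S.al0 1 2 0 0 2
  have r5 : C 1 2 1 2 0 0 = G 0 1 2 0 0 1 2 - G 1 2 0 0 0 1 2 + G 0 2 0 0 1 1 2 := S.al1 0 2 0 0 0 2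
  have r6 : C 1 2 2 0 0 1 = G 1 2 0 0 0 1 2 - G 2 0 0 1 0 1 2 + G 1 0 0 1 1 1 2 := S.al1 1 0 0 1 0 2
  have r7 : C 2 0 0 0 2 2 = G 2 0 0 2 0 2 0 - G 0 0 2 2 0 2 0 := S.al0 0 2 2 1 0
  have r8 : C 2 0 0 2 0 2 = G 2 0 2 0 0 2 0 - G 0 2 0 2 0 2 0 := S.al0 2 0 2 1 0
  have r9 : C 2 0 0 2 2 0 = G 0 0 2 2 0 2 0 - G 0 2 2 0 0 2 0 := S.al0 2 2 0 1 0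
  have r10 : C 2 0 2 0 0 2 = G 2 2 0 0 0 2 0 - G 2 0 0 2 0 2 0 + G 1 0 0 2 1 2 0 := S.al1 1 0 0 2 1 0
  have r11 : C 2 0 2 0 2 0 = G 0 2 0 2 0 2 0 - G 2 0 2 0 0 2 0 + G 1 0 2 0 1 2 0 := S.al1 1 0 2 0 1 0
  have r12 : C 2 0 2 2 0 0 = G 0 2 2 0 0 2 0 - G 2 2 0 0 0 2 0 + G 1 2 0 0 1 2 0 := S.al1 1 2 0 0 1 0
  have r13 : C 2 2 0 0 0 2 = G 2 0 0 0 0 2 2 - G 0 0 0 2 0 2 2 := S.al0 0 0 2 1 2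
  have r14 : C 2 2 0 0 2 0 = G 0 0 0 2 0 2 2 - G 0 0 2 0 0 2 2 := S.al0 0 2 0 1 2
  have r15 : C 2 2 0 2 0 0 = G 0 0 2 0 0 2 2 - G 0 2 0 0 0 2 2 := S.al0 2 0 0 1 2
  have r16 : C 2 2 2 0 0 0 = G 0 2 0 0 0 2 2 - G 2 0 0 0 0 2 2 + G 1 0 0 0 1 2 2 := S.al1 1 0 0 0 1 2
  have z0 : G 1 0 0 0 1 2 2 = G 0 0 0 1 1 2 2 := S.r3 1 0 0 0 1 2
  have z1 : G 0 0 1 0 1 2 2 = G 0 0 0 1 1 2 2 := S.r1 0 0 1 0 1 2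
  have z2 : G 0 0 1 0 2 1 2 = 0 := S.van 0 0 1 0 0 0 2
  have z3 : G 0 2 0 0 1 1 2 = G 0 0 0 2 1 1 2 := S.r2 0 2 0 0 0 2
  have z4 : G 0 0 2 0 1 1 2 = G 0 0 0 2 1 1 2 := S.r1 0 0 2 0 0 2
  have z5 : G 0 1 1 0 2 2 0 = 0 := S.van 0 1 1 0 0 1 0
  have z6 : G 1 2 0 0 1 2 0 = G 0 0 1 2 1 2 0 := S.r2 1 2 0 0 1 0
  have z7 : G 0 1 2 0 1 2 0 = G 0 0 1 2 1 2 0 := S.r1 0 1 2 0 1 0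
  have z8 : G 1 1 1 0 1 2 0 = G 0 1 1 0 1 1 2 := S.m1 1 0 0 1 2 0
  have z9 : G 1 0 0 1 1 1 2 = G 0 0 1 1 1 1 2 := S.r3 1 0 0 1 0 2
  have z10 : G 0 1 1 0 1 1 2 = G 0 0 1 1 1 1 2 := S.r1 0 1 1 0 0 2
  have z11 : G 1 0 0 2 1 2 0 = G 0 2 1 0 1 2 0 := S.r2 1 0 0 2 1 0
  have z12 : G 0 2 1 0 1 2 0 = 0 := S.van' 0 0 0 0 1 2 0
  have z13 : G 1 0 1 0 2 2 0 = 0 := S.van 1 0 1 0 0 1 0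
  have z14 : G 2 0 1 0 1 2 0 = G 0 1 0 2 1 2 0 := S.r3 2 0 1 0 1 0
  have z15 : G 1 0 2 0 1 2 0 = G 0 1 0 2 1 2 0 := S.r1 1 0 2 0 1 0
  have z16 : D 1 0 1 2 2 0 = 0 := (S.d1 1 0 1 2 2 0).trans (S_p3a S.mirror 0 0 1 1)
  have z17 : D 1 0 2 1 2 0 = 0 := (S.d1 1 0 2 1 2 0).trans (S_p3a S.mirror 0 1 0 1)
  have z18 : D 2 0 1 1 2 0 = 0 := (S.d1 2 0 1 1 2 0).trans (S_p3a S.mirror 1 0 0 1)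
  have z19 : C 1 2 0 0 1 2 = 0 := (S.c3 1 2 0 0 1 2).trans (S_p3a S 0 0 1 1)
  have z20 : C 1 2 2 0 0 1 = 0 := (S.c4 1 2 2 0 0 1).trans (S_p3a S 0 0 1 1)
  have z21 : C 1 2 0 1 2 0 = 0 := (S.c2 1 2 0 1 2 0).trans (S_p3b S 0 0 1 1)
  have z22 : C 1 2 1 2 0 0 = 0 := S_p3a S 0 1 0 1
  have z23 : C 2 0 0 2 2 0 = C 2 0 0 0 2 2 := S.c4 2 0 0 2 2 0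
  have z24 : C 2 0 2 2 0 0 = C 2 0 0 0 2 2 := S.c3 2 0 2 2 0 0
  have z25 : C 2 2 0 0 0 2 = C 2 0 0 0 2 2 := S.c1 2 2 0 0 0 2
  have z26 : C 2 2 2 0 0 0 = C 2 0 0 0 2 2 := S.c2 2 2 2 0 0 0
  have z27 : C 2 0 2 0 0 2 = C 2 0 0 2 0 2 := S.c2 2 0 2 0 0 2
  have z28 : C 2 0 2 0 2 0 = C 2 0 0 2 0 2 := S.c4 2 0 2 0 2 0
  have z29 : C 2 2 0 0 2 0 = C 2 0 0 2 0 2 := S.c1 2 2 0 0 2 0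
  have z30 : C 2 2 0 2 0 0 = C 2 0 0 2 0 2 := S.c3 2 2 0 2 0 0
  linear_combination ((((-1 / 4 : ℚ) * r0 + (-1 / 6 : ℚ) * r1 + (-1 / 6 : ℚ) * r2 + (1 / 6 : ℚ) * r3 + (1 / 6 : ℚ) * r4 + (1 / 6 : ℚ) * r5)
    + ((1 / 6 : ℚ) * r6 + (1 / 6 : ℚ) * r7 + (-1 / 3 : ℚ) * r8 + (1 / 6 : ℚ) * r9 + (1 / 6 : ℚ) * r10 + (-1 / 3 : ℚ) * r11))
    + (((1 / 6 : ℚ) * r12 + (1 / 4 : ℚ) * r13 + (1 / 4 : ℚ) * r14 + (1 / 4 : ℚ) * r15 + (1 / 4 : ℚ) * r16 + (1 / 4 : ℚ) * z0)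
    + ((-1 / 4 : ℚ) * z1 + (-1 / 6 : ℚ) * z2 + (1 / 6 : ℚ) * z3 + (-1 / 6 : ℚ) * z4 + (-1 / 4 : ℚ) * z5 + (1 / 6 : ℚ) * z6)))
    + ((((-1 / 6 : ℚ) * z7 + (-1 / 6 : ℚ) * z8 + (1 / 6 : ℚ) * z9 + (-1 / 6 : ℚ) * z10 + (1 / 6 : ℚ) * z11 + (1 / 6 : ℚ) * z12)
    + ((1 / 4 : ℚ) * z13 + (1 / 6 : ℚ) * z14 + (-1 / 6 : ℚ) * z15 + (1 / 4 : ℚ) * z16 + (1 / 6 : ℚ) * z17 + (1 / 6 : ℚ) * z18))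
    + (((-1 / 6 : ℚ) * z19 + (-1 / 6 : ℚ) * z20 + (-1 / 6 : ℚ) * z21 + (-1 / 6 : ℚ) * z22 + (-1 / 6 : ℚ) * z23 + (-1 / 6 : ℚ) * z24)
    + ((-1 / 4 : ℚ) * z25 + (3 / 4 : ℚ) * z26 + (-1 / 6 : ℚ) * z27 + (1 / 3 : ℚ) * z28 + (-1 / 4 : ℚ) * z29 + (-1 / 4 : ℚ) * z30)))

theorem L_e1_e1_g3_e0_e0_e0 (S : Sys6 G C D) (n2 : ℕ) : C 1 1 (n2 + 3) 0 0 0 = 0 := by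
  have r0 : G 0 0 0 0 1 1 (n2 + 3) = G (n2 + 3) 0 0 0 0 1 1 := S.z0' 1 1 (n2 + 3)
  have r1 : D 1 (n2 + 2) 0 1 0 1 = G 1 0 1 (n2 + 2) 0 1 0 - G 0 0 1 (n2 + 2) 1 0 1 := S.al0' 0 (n2 + 2) 1 0 1
  have r2 : D 1 (n2 + 2) 1 0 1 0 = G 0 0 1 (n2 + 2) 1 0 1 - G 1 0 1 (n2 + 2) 0 1 0 + G 0 1 1 (n2 + 2) 0 1 0 := S.al1' 0 0 (n2 + 2) 0 1 0
  have r3 : D (n2 + 2) 0 0 1 1 1 = G 1 0 (n2 + 2) 0 0 1 1 - G 0 0 (n2 + 2) 0 1 1 1 := S.al0' (n2 + 1) 0 1 1 1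
  have r4 : D (n2 + 2) 0 1 0 1 1 = G 1 0 (n2 + 2) 0 1 0 1 - G 1 0 (n2 + 2) 0 0 1 1 + G 0 1 (n2 + 2) 0 0 1 1 := S.al1' 0 (n2 + 1) 0 0 1 1
  have r5 : D (n2 + 2) 0 1 1 0 1 = G 1 0 (n2 + 2) 0 1 1 0 - G 1 0 (n2 + 2) 0 1 0 1 + G 0 1 (n2 + 2) 0 1 0 1 := S.al1' 0 (n2 + 1) 0 1 0 1
  have r6 : D (n2 + 2) 0 1 1 1 0 = G 0 0 (n2 + 2) 0 1 1 1 - G 1 0 (n2 + 2) 0 1 1 0 + G 0 1 (n2 + 2) 0 1 1 0 := S.al1' 0 (n2 + 1) 0 1 1 0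
  have r7 : D (n2 + 3) 0 0 1 1 0 = G 0 0 (n2 + 3) 0 0 1 1 - G 0 0 (n2 + 3) 0 1 1 0 := S.al0' (n2 + 2) 0 1 1 0
  have r8 : C 1 0 0 0 1 (n2 + 3) = G (n2 + 3) 0 0 1 0 1 0 - G 0 0 1 (n2 + 3) 0 1 0 := S.al0 0 1 (n2 + 3) 0 0
  have r9 : C 1 0 0 1 (n2 + 3) 0 = G 0 0 1 (n2 + 3) 0 1 0 - G 0 1 (n2 + 3) 0 0 1 0 := S.al0 1 (n2 + 3) 0 0 0
  have r10 : C 1 0 1 1 (n2 + 2) 0 = G 0 1 1 (n2 + 2) 0 1 0 - G 1 1 (n2 + 2) 0 0 1 0 + G 0 1 (n2 + 2) 0 1 1 0 := S.al1 0 1 (n2 + 2) 0 0 0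
  have r11 : C 1 0 1 (n2 + 3) 0 0 = G 0 1 (n2 + 3) 0 0 1 0 - G 1 (n2 + 3) 0 0 0 1 0 + G 0 (n2 + 3) 0 0 1 1 0 := S.al1 0 (n2 + 3) 0 0 0 0
  have r12 : C 1 0 (n2 + 3) 0 0 1 = G 1 (n2 + 3) 0 0 0 1 0 - G (n2 + 3) 0 0 1 0 1 0 + G (n2 + 2) 0 0 1 1 1 0 := S.al1 (n2 + 2) 0 0 1 0 0
  have r13 : C 1 1 0 0 0 (n2 + 3) = G (n2 + 3) 0 0 0 0 1 1 - G 0 0 0 (n2 + 3) 0 1 1 := S.al0 0 0 (n2 + 3) 0 1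
  have r14 : C 1 1 0 0 (n2 + 3) 0 = G 0 0 0 (n2 + 3) 0 1 1 - G 0 0 (n2 + 3) 0 0 1 1 := S.al0 0 (n2 + 3) 0 0 1
  have r15 : C 1 (n2 + 3) 0 0 0 1 = G 1 0 0 0 0 1 (n2 + 3) - G 0 0 0 1 0 1 (n2 + 3) := S.al0 0 0 1 0 (n2 + 3)
  have r16 : C 1 (n2 + 3) 0 0 1 0 = G 0 0 0 1 0 1 (n2 + 3) - G 0 0 1 0 0 1 (n2 + 3) := S.al0 0 1 0 0 (n2 + 3)
  have r17 : C 1 (n2 + 3) 0 1 0 0 = G 0 0 1 0 0 1 (n2 + 3) - G 0 1 0 0 0 1 (n2 + 3) := S.al0 1 0 0 0 (n2 + 3)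
  have r18 : C 1 (n2 + 3) 1 0 0 0 = G 0 1 0 0 0 1 (n2 + 3) - G 1 0 0 0 0 1 (n2 + 3) + G 0 0 0 0 1 1 (n2 + 3) := S.al1 0 0 0 0 0 (n2 + 3)
  have z0 : G 0 (n2 + 3) 0 0 1 1 0 = G 0 0 0 (n2 + 3) 1 1 0 := S.r2 0 (n2 + 3) 0 0 0 0
  have z1 : G 0 0 (n2 + 3) 0 1 1 0 = G 0 0 0 (n2 + 3) 1 1 0 := S.r1 0 0 (n2 + 3) 0 0 0
  have z2 : G 0 1 (n2 + 2) 0 0 1 1 = G 0 1 (n2 + 2) 0 1 1 0 := S.m3 0 (n2 + 1) 0 0 1 1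
  have z3 : G (n2 + 2) 0 0 1 1 1 0 = G 0 0 1 (n2 + 2) 1 1 0 := S.r3 (n2 + 2) 0 0 1 0 0
  have z4 : G 0 1 (n2 + 2) 0 1 1 0 = G 0 0 1 (n2 + 2) 1 1 0 := S.r1 0 1 (n2 + 2) 0 0 0
  have z5 : G 1 1 (n2 + 2) 0 0 1 0 = G 0 1 (n2 + 2) 0 1 0 1 := S.m1 1 (n2 + 1) 0 0 1 0
  have z6 : D 1 (n2 + 2) 0 1 0 1 = 0 := (S.d4 1 (n2 + 2) 0 1 0 1).trans (S_p3b S.mirror 0 0 (n2 + 1) 0)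
  have z7 : D 1 (n2 + 2) 1 0 1 0 = 0 := S_p3b S.mirror 0 (n2 + 1) 0 0
  have z8 : D (n2 + 2) 0 0 1 1 1 = 0 := (S.d2 (n2 + 2) 0 0 1 1 1).trans (S_p3a S.mirror (n2 + 1) 0 0 0)
  have z9 : D (n2 + 2) 0 1 1 1 0 = 0 := (S.d1 (n2 + 2) 0 1 1 1 0).trans (S_p3a S.mirror (n2 + 1) 0 0 0)
  have z10 : D (n2 + 2) 0 1 0 1 1 = 0 := (S.d3 (n2 + 2) 0 1 0 1 1).trans (S_p3b S.mirror (n2 + 1) 0 0 0)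
  have z11 : D (n2 + 2) 0 1 1 0 1 = 0 := (S.d1 (n2 + 2) 0 1 1 0 1).trans (S_p3b S.mirror (n2 + 1) 0 0 0)
  have z12 : D (n2 + 3) 0 0 1 1 0 = 0 := (S.d2 (n2 + 3) 0 0 1 1 0).trans (L_g3_e1_e1_e0_e0_e0 S.mirror n2)
  have z13 : C 1 0 0 1 (n2 + 3) 0 = C 1 0 0 0 1 (n2 + 3) := S.c4 1 0 0 1 (n2 + 3) 0
  have z14 : C 1 0 1 (n2 + 3) 0 0 = C 1 0 0 0 1 (n2 + 3) := S.c3 1 0 1 (n2 + 3) 0 0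
  have z15 : C 1 (n2 + 3) 0 0 0 1 = C 1 0 0 0 1 (n2 + 3) := S.c1 1 (n2 + 3) 0 0 0 1
  have z16 : C 1 1 (n2 + 3) 0 0 0 = C 1 0 0 0 1 (n2 + 3) := S.c2 1 1 (n2 + 3) 0 0 0
  have z17 : C 1 0 1 1 (n2 + 2) 0 = 0 := (S.c1 1 0 1 1 (n2 + 2) 0).trans (S_p3a S 0 0 0 (n2 + 1))
  have z18 : C 1 (n2 + 3) 0 0 1 0 = C 1 0 (n2 + 3) 0 0 1 := S.c4 1 (n2 + 3) 0 0 1 0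
  have z19 : C 1 1 0 0 0 (n2 + 3) = 0 := (S.c4 1 1 0 0 0 (n2 + 3)).trans (L_e1_g3_e1_e0_e0_e0 S n2)
  have z20 : C 1 (n2 + 3) 1 0 0 0 = 0 := L_e1_g3_e1_e0_e0_e0 S n2
  have z21 : C 1 (n2 + 3) 0 1 0 0 = C 1 1 0 0 (n2 + 3) 0 := S.c2 1 (n2 + 3) 0 1 0 0
  linear_combination ((((-1 / 2 : ℚ) * r0 + (1 / 6 : ℚ) * r1 + (1 / 6 : ℚ) * r2 + (-1 / 6 : ℚ) * r3 + (-1 / 6 : ℚ) * r4 + (-1 / 6 : ℚ) * r5)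
    + ((-1 / 6 : ℚ) * r6 + (1 / 2 : ℚ) * r7 + (1 / 2 : ℚ) * r8 + (1 / 2 : ℚ) * r9 + (-1 / 6 : ℚ) * r10))
    + (((1 / 2 : ℚ) * r11 + (1 / 2 : ℚ) * r12 + (1 / 2 : ℚ) * r13 + (1 / 2 : ℚ) * r14 + (-1 / 2 : ℚ) * r15)
    + ((-1 / 2 : ℚ) * r16 + (-1 / 2 : ℚ) * r17 + (-1 / 2 : ℚ) * r18 + (1 / 2 : ℚ) * z0 + (-1 / 2 : ℚ) * z1)))
    + ((((-1 / 6 : ℚ) * z2 + (1 / 2 : ℚ) * z3 + (-1 / 2 : ℚ) * z4 + (1 / 6 : ℚ) * z5 + (-1 / 6 : ℚ) * z6)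
    + ((-1 / 6 : ℚ) * z7 + (1 / 6 : ℚ) * z8 + (1 / 6 : ℚ) * z9 + (1 / 6 : ℚ) * z10 + (1 / 6 : ℚ) * z11))
    + (((-1 / 2 : ℚ) * z12 + (-1 / 2 : ℚ) * z13 + (-1 / 2 : ℚ) * z14 + (1 / 2 : ℚ) * z15 + (1 : ℚ) * z16)
    + ((1 / 6 : ℚ) * z17 + (1 / 2 : ℚ) * z18 + (-1 / 2 : ℚ) * z19 + (1 / 2 : ℚ) * z20 + (1 / 2 : ℚ) * z21)))

theorem L_e2_e2_e1_e0_e0_e0 (S : Sys6 G C D) : C 2 2 1 0 0 0 = 0 := by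
  have r0 : G 0 0 0 0 2 2 1 = G 1 0 0 0 0 2 2 := S.z0' 2 2 1
  have r1 : D 1 0 0 2 2 0 = G 0 0 1 0 0 2 2 - G 0 0 1 0 2 2 0 := S.al0' 0 0 2 2 0
  have r2 : D 1 0 1 1 2 0 = G 0 0 1 0 1 1 2 - G 1 0 1 0 1 2 0 + G 0 1 1 0 1 2 0 := S.al1' 0 0 0 1 2 0
  have r3 : C 1 2 0 1 0 1 = G 1 0 1 0 0 1 2 - G 0 1 0 1 0 1 2 := S.al0 1 0 1 0 2
  have r4 : C 1 2 1 0 1 0 = G 0 1 0 1 0 1 2 - G 1 0 1 0 0 1 2 + G 0 0 1 0 1 1 2 := S.al1 0 0 1 0 0 2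
  have r5 : C 2 0 0 0 1 2 = G 2 0 0 1 0 2 0 - G 0 0 1 2 0 2 0 := S.al0 0 1 2 1 0
  have r6 : C 2 0 0 0 2 1 = G 1 0 0 2 0 2 0 - G 0 0 2 1 0 2 0 := S.al0 0 2 1 1 0
  have r7 : C 2 0 0 1 0 2 = G 2 0 1 0 0 2 0 - G 0 1 0 2 0 2 0 := S.al0 1 0 2 1 0
  have r8 : C 2 0 0 1 2 0 = G 0 0 1 2 0 2 0 - G 0 1 2 0 0 2 0 := S.al0 1 2 0 1 0
  have r9 : C 2 0 0 2 0 1 = G 1 0 2 0 0 2 0 - G 0 2 0 1 0 2 0 := S.al0 2 0 1 1 0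
  have r10 : C 2 0 0 2 1 0 = G 0 0 2 1 0 2 0 - G 0 2 1 0 0 2 0 := S.al0 2 1 0 1 0
  have r11 : C 2 0 1 0 0 2 = G 2 1 0 0 0 2 0 - G 1 0 0 2 0 2 0 + G 0 0 0 2 1 2 0 := S.al1 0 0 0 2 1 0
  have r12 : C 2 0 1 0 2 0 = G 0 1 0 2 0 2 0 - G 1 0 2 0 0 2 0 + G 0 0 2 0 1 2 0 := S.al1 0 0 2 0 1 0
  have r13 : C 2 0 1 2 0 0 = G 0 1 2 0 0 2 0 - G 1 2 0 0 0 2 0 + G 0 2 0 0 1 2 0 := S.al1 0 2 0 0 1 0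
  have r14 : C 2 0 2 0 0 1 = G 1 2 0 0 0 2 0 - G 2 0 0 1 0 2 0 + G 1 0 0 1 1 2 0 := S.al1 1 0 0 1 1 0
  have r15 : C 2 0 2 0 1 0 = G 0 2 0 1 0 2 0 - G 2 0 1 0 0 2 0 + G 1 0 1 0 1 2 0 := S.al1 1 0 1 0 1 0
  have r16 : C 2 0 2 1 0 0 = G 0 2 1 0 0 2 0 - G 2 1 0 0 0 2 0 + G 1 1 0 0 1 2 0 := S.al1 1 1 0 0 1 0
  have r17 : C 2 2 0 0 0 1 = G 1 0 0 0 0 2 2 - G 0 0 0 1 0 2 2 := S.al0 0 0 1 1 2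
  have r18 : C 2 2 0 0 1 0 = G 0 0 0 1 0 2 2 - G 0 0 1 0 0 2 2 := S.al0 0 1 0 1 2
  have z0 : G 0 0 0 0 2 2 1 = 0 := S.van 0 0 0 0 0 1 1
  have z1 : G 0 2 0 0 1 2 0 = G 0 0 0 2 1 2 0 := S.r2 0 2 0 0 1 0
  have z2 : G 0 0 2 0 1 2 0 = G 0 0 0 2 1 2 0 := S.r1 0 0 2 0 1 0
  have z3 : G 0 0 1 0 2 2 0 = 0 := S.van 0 0 1 0 0 1 0
  have z4 : G 1 0 0 1 1 2 0 = G 0 0 1 1 1 2 0 := S.r3 1 0 0 1 1 0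
  have z5 : G 1 1 0 0 1 2 0 = G 0 0 1 1 1 2 0 := S.r2 1 1 0 0 1 0
  have z6 : G 0 1 1 0 1 2 0 = G 0 0 1 1 1 2 0 := S.r1 0 1 1 0 1 0
  have z7 : D 1 0 0 2 2 0 = 0 := (S.d2 1 0 0 2 2 0).trans (L_e1_e2_e2_e0_e0_e0 S.mirror )
  have z8 : D 1 0 1 1 2 0 = 0 := (S.d1 1 0 1 1 2 0).trans (S_p3a S.mirror 0 0 0 1)
  have z9 : C 1 2 0 1 0 1 = 0 := (S.c4 1 2 0 1 0 1).trans (S_p3b S 0 0 1 0)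
  have z10 : C 1 2 1 0 1 0 = 0 := S_p3b S 0 1 0 0
  have z11 : C 2 0 0 1 2 0 = C 2 0 0 0 1 2 := S.c4 2 0 0 1 2 0
  have z12 : C 2 0 1 2 0 0 = C 2 0 0 0 1 2 := S.c3 2 0 1 2 0 0
  have z13 : C 2 2 0 0 0 1 = C 2 0 0 0 1 2 := S.c1 2 2 0 0 0 1
  have z14 : C 2 0 0 2 1 0 = C 2 0 0 0 2 1 := S.c4 2 0 0 2 1 0
  have z15 : C 2 0 2 1 0 0 = C 2 0 0 0 2 1 := S.c3 2 0 2 1 0 0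
  have z16 : C 2 2 1 0 0 0 = C 2 0 0 0 2 1 := S.c2 2 2 1 0 0 0
  have z17 : C 2 0 1 0 2 0 = C 2 0 0 1 0 2 := S.c4 2 0 1 0 2 0
  have z18 : C 2 0 2 0 0 1 = C 2 0 0 1 0 2 := S.c2 2 0 2 0 0 1
  have z19 : C 2 2 0 0 1 0 = C 2 0 0 1 0 2 := S.c1 2 2 0 0 1 0
  have z20 : C 2 0 1 0 0 2 = C 2 0 0 2 0 1 := S.c2 2 0 1 0 0 2
  have z21 : C 2 0 2 0 1 0 = C 2 0 0 2 0 1 := S.c4 2 0 2 0 1 0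
  linear_combination ((((-1 / 2 : ℚ) * r0 + (1 / 2 : ℚ) * r1 + (-1 / 6 : ℚ) * r2 + (1 / 6 : ℚ) * r3 + (1 / 6 : ℚ) * r4 + (-1 / 6 : ℚ) * r5)
    + ((1 / 3 : ℚ) * r6 + (-1 / 6 : ℚ) * r7 + (-1 / 6 : ℚ) * r8 + (-1 / 6 : ℚ) * r9 + (1 / 3 : ℚ) * r10))
    + (((1 / 3 : ℚ) * r11 + (-1 / 6 : ℚ) * r12 + (-1 / 6 : ℚ) * r13 + (-1 / 6 : ℚ) * r14 + (-1 / 6 : ℚ) * r15)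
    + ((1 / 3 : ℚ) * r16 + (1 / 2 : ℚ) * r17 + (1 / 2 : ℚ) * r18 + (1 / 2 : ℚ) * z0 + (-1 / 6 : ℚ) * z1)))
    + ((((-1 / 6 : ℚ) * z2 + (-1 / 2 : ℚ) * z3 + (-1 / 6 : ℚ) * z4 + (1 / 3 : ℚ) * z5 + (-1 / 6 : ℚ) * z6)
    + ((-1 / 2 : ℚ) * z7 + (1 / 6 : ℚ) * z8 + (-1 / 6 : ℚ) * z9 + (-1 / 6 : ℚ) * z10 + (1 / 6 : ℚ) * z11))
    + (((1 / 6 : ℚ) * z12 + (-1 / 2 : ℚ) * z13 + (-1 / 3 : ℚ) * z14 + (-1 / 3 : ℚ) * z15 + (1 : ℚ) * z16)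
    + ((1 / 6 : ℚ) * z17 + (1 / 6 : ℚ) * z18 + (-1 / 2 : ℚ) * z19 + (-1 / 3 : ℚ) * z20 + (1 / 6 : ℚ) * z21)))

theorem L_e2_e1_e2_e0_e0_e0 (S : Sys6 G C D) : C 2 1 2 0 0 0 = 0 := by
  have r0 : G 0 0 0 0 2 1 2 = G 2 0 0 0 0 2 1 := S.z0' 2 1 2
  have r1 : D 1 0 1 1 2 0 = G 0 0 1 0 1 1 2 - G 1 0 1 0 1 2 0 + G 0 1 1 0 1 2 0 := S.al1' 0 0 0 1 2 0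
  have r2 : D 1 0 1 2 1 0 = G 0 0 1 0 1 2 1 - G 1 0 1 0 2 1 0 + G 0 1 1 0 2 1 0 := S.al1' 0 0 0 2 1 0
  have r3 : D 2 0 0 2 1 0 = G 0 0 2 0 0 2 1 - G 0 0 2 0 2 1 0 := S.al0' 1 0 2 1 0
  have r4 : C 1 2 0 1 0 1 = G 1 0 1 0 0 1 2 - G 0 1 0 1 0 1 2 := S.al0 1 0 1 0 2
  have r5 : C 1 2 1 0 1 0 = G 0 1 0 1 0 1 2 - G 1 0 1 0 0 1 2 + G 0 0 1 0 1 1 2 := S.al1 0 0 1 0 0 2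
  have r6 : C 2 0 0 0 1 2 = G 2 0 0 1 0 2 0 - G 0 0 1 2 0 2 0 := S.al0 0 1 2 1 0
  have r7 : C 2 0 0 1 0 2 = G 2 0 1 0 0 2 0 - G 0 1 0 2 0 2 0 := S.al0 1 0 2 1 0
  have r8 : C 2 0 0 1 2 0 = G 0 0 1 2 0 2 0 - G 0 1 2 0 0 2 0 := S.al0 1 2 0 1 0
  have r9 : C 2 0 0 2 0 1 = G 1 0 2 0 0 2 0 - G 0 2 0 1 0 2 0 := S.al0 2 0 1 1 0
  have r10 : C 2 0 1 0 2 0 = G 0 1 0 2 0 2 0 - G 1 0 2 0 0 2 0 + G 0 0 2 0 1 2 0 := S.al1 0 0 2 0 1 0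
  have r11 : C 2 0 1 2 0 0 = G 0 1 2 0 0 2 0 - G 1 2 0 0 0 2 0 + G 0 2 0 0 1 2 0 := S.al1 0 2 0 0 1 0
  have r12 : C 2 0 2 0 0 1 = G 1 2 0 0 0 2 0 - G 2 0 0 1 0 2 0 + G 1 0 0 1 1 2 0 := S.al1 1 0 0 1 1 0
  have r13 : C 2 0 2 0 1 0 = G 0 2 0 1 0 2 0 - G 2 0 1 0 0 2 0 + G 1 0 1 0 1 2 0 := S.al1 1 0 1 0 1 0
  have r14 : C 2 1 0 0 0 2 = G 2 0 0 0 0 2 1 - G 0 0 0 2 0 2 1 := S.al0 0 0 2 1 1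
  have r15 : C 2 1 0 0 2 0 = G 0 0 0 2 0 2 1 - G 0 0 2 0 0 2 1 := S.al0 0 2 0 1 1
  have r16 : C 2 1 0 2 0 0 = G 0 0 2 0 0 2 1 - G 0 2 0 0 0 2 1 := S.al0 2 0 0 1 1
  have r17 : C 2 1 2 0 0 0 = G 0 2 0 0 0 2 1 - G 2 0 0 0 0 2 1 + G 1 0 0 0 1 2 1 := S.al1 1 0 0 0 1 1
  have z0 : G 0 0 0 0 2 1 2 = 0 := S.van 0 0 0 0 0 0 2
  have z1 : G 1 0 0 0 1 2 1 = G 0 0 0 1 1 2 1 := S.r3 1 0 0 0 1 1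
  have z2 : G 0 0 1 0 1 2 1 = G 0 0 0 1 1 2 1 := S.r1 0 0 1 0 1 1
  have z3 : G 0 2 0 0 1 2 0 = G 0 0 0 2 1 2 0 := S.r2 0 2 0 0 1 0
  have z4 : G 0 0 2 0 1 2 0 = G 0 0 0 2 1 2 0 := S.r1 0 0 2 0 1 0
  have z5 : G 0 0 2 0 2 1 0 = 0 := S.van 0 0 2 0 0 0 0
  have z6 : G 1 0 0 1 1 2 0 = G 0 0 1 1 1 2 0 := S.r3 1 0 0 1 1 0
  have z7 : G 0 1 1 0 1 2 0 = G 0 0 1 1 1 2 0 := S.r1 0 1 1 0 1 0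
  have z8 : G 0 1 1 0 2 1 0 = 0 := S.van 0 1 1 0 0 0 0
  have z9 : G 1 0 1 0 2 1 0 = 0 := S.van 1 0 1 0 0 0 0
  have z10 : D 1 0 1 1 2 0 = 0 := (S.d1 1 0 1 1 2 0).trans (S_p3a S.mirror 0 0 0 1)
  have z11 : D 1 0 1 2 1 0 = 0 := (S.d1 1 0 1 2 1 0).trans (S_p3a S.mirror 0 0 1 0)
  have z12 : D 2 0 0 2 1 0 = 0 := (S.d2 2 0 0 2 1 0).trans (L_e2_e2_e1_e0_e0_e0 S.mirror )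
  have z13 : C 1 2 0 1 0 1 = 0 := (S.c4 1 2 0 1 0 1).trans (S_p3b S 0 0 1 0)
  have z14 : C 1 2 1 0 1 0 = 0 := S_p3b S 0 1 0 0
  have z15 : C 2 0 0 1 2 0 = C 2 0 0 0 1 2 := S.c4 2 0 0 1 2 0
  have z16 : C 2 0 1 2 0 0 = C 2 0 0 0 1 2 := S.c3 2 0 1 2 0 0
  have z17 : C 2 1 2 0 0 0 = C 2 0 0 0 1 2 := S.c2 2 1 2 0 0 0
  have z18 : C 2 0 1 0 2 0 = C 2 0 0 1 0 2 := S.c4 2 0 1 0 2 0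
  have z19 : C 2 0 2 0 0 1 = C 2 0 0 1 0 2 := S.c2 2 0 2 0 0 1
  have z20 : C 2 1 0 2 0 0 = C 2 0 0 1 0 2 := S.c3 2 1 0 2 0 0
  have z21 : C 2 0 2 0 1 0 = C 2 0 0 2 0 1 := S.c4 2 0 2 0 1 0
  have z22 : C 2 1 0 0 2 0 = C 2 0 0 2 0 1 := S.c1 2 1 0 0 2 0
  have z23 : C 2 1 0 0 0 2 = 0 := (S.c4 2 1 0 0 0 2).trans (L_e2_e2_e1_e0_e0_e0 S )
  linear_combination ((((-1 / 4 : ℚ) * r0 + (-1 / 4 : ℚ) * r1 + (-1 / 4 : ℚ) * r2 + (1 / 4 : ℚ) * r3 + (1 / 4 : ℚ) * r4 + (1 / 4 : ℚ) * r5)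
    + ((1 / 4 : ℚ) * r6 + (-1 / 4 : ℚ) * r7 + (1 / 4 : ℚ) * r8 + (-1 / 4 : ℚ) * r9 + (-1 / 4 : ℚ) * r10))
    + (((1 / 4 : ℚ) * r11 + (1 / 4 : ℚ) * r12 + (-1 / 4 : ℚ) * r13 + (1 / 2 : ℚ) * r14 + (1 / 2 : ℚ) * r15)
    + ((1 / 4 : ℚ) * r16 + (1 / 4 : ℚ) * r17 + (1 / 4 : ℚ) * z0 + (1 / 4 : ℚ) * z1 + (-1 / 4 : ℚ) * z2)))
    + ((((1 / 4 : ℚ) * z3 + (-1 / 4 : ℚ) * z4 + (-1 / 4 : ℚ) * z5 + (1 / 4 : ℚ) * z6 + (-1 / 4 : ℚ) * z7 + (-1 / 4 : ℚ) * z8)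
    + ((1 / 4 : ℚ) * z9 + (1 / 4 : ℚ) * z10 + (1 / 4 : ℚ) * z11 + (-1 / 4 : ℚ) * z12 + (-1 / 4 : ℚ) * z13))
    + (((-1 / 4 : ℚ) * z14 + (-1 / 4 : ℚ) * z15 + (-1 / 4 : ℚ) * z16 + (3 / 4 : ℚ) * z17 + (1 / 4 : ℚ) * z18)
    + ((-1 / 4 : ℚ) * z19 + (-1 / 4 : ℚ) * z20 + (1 / 4 : ℚ) * z21 + (-1 / 2 : ℚ) * z22 + (-1 / 2 : ℚ) * z23)))

theorem L_g3_g3_e1_e0_e0_e0 (S : Sys6 G C D) (n6 n1 : ℕ) : C (n6 + 3) (n1 + 3) 1 0 0 0 = 0 := by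
  have r0 : G 0 0 0 0 (n6 + 3) 1 (n1 + 3) = G (n1 + 3) 0 0 0 0 (n6 + 3) 1 := S.z0' (n6 + 3) 1 (n1 + 3)
  have r1 : D (n1 + 3) 0 0 0 0 (n6 + 4) = G (n6 + 4) 0 (n1 + 3) 0 0 0 0 - G 0 0 (n1 + 3) 0 0 0 (n6 + 4) := S.al0' (n1 + 2) 0 0 0 (n6 + 4)
  have r2 : D (n1 + 3) 0 0 0 (n6 + 3) 1 = G 1 0 (n1 + 3) 0 0 0 (n6 + 3) - G 0 0 (n1 + 3) 0 0 (n6 + 3) 1 := S.al0' (n1 + 2) 0 0 (n6 + 3) 1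
  have r3 : D (n1 + 3) 0 0 0 (n6 + 4) 0 = G 0 0 (n1 + 3) 0 0 0 (n6 + 4) - G 0 0 (n1 + 3) 0 0 (n6 + 4) 0 := S.al0' (n1 + 2) 0 0 (n6 + 4) 0
  have r4 : D (n1 + 3) 0 0 (n6 + 3) 1 0 = G 0 0 (n1 + 3) 0 0 (n6 + 3) 1 - G 0 0 (n1 + 3) 0 (n6 + 3) 1 0 := S.al0' (n1 + 2) 0 (n6 + 3) 1 0
  have r5 : D (n1 + 3) 0 0 (n6 + 4) 0 0 = G 0 0 (n1 + 3) 0 0 (n6 + 4) 0 - G 0 0 (n1 + 3) 0 (n6 + 4) 0 0 := S.al0' (n1 + 2) 0 (n6 + 4) 0 0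
  have r6 : D (n1 + 3) 0 1 0 0 (n6 + 3) = G (n6 + 3) 0 (n1 + 3) 0 1 0 0 - G 1 0 (n1 + 3) 0 0 0 (n6 + 3) + G 0 1 (n1 + 3) 0 0 0 (n6 + 3) := S.al1' 0 (n1 + 2) 0 0 0 (n6 + 3)
  have r7 : D (n1 + 3) 0 (n6 + 3) 1 0 0 = G 0 0 (n1 + 3) 0 (n6 + 3) 1 0 - G (n6 + 3) 0 (n1 + 3) 0 1 0 0 + G (n6 + 2) 1 (n1 + 3) 0 1 0 0 := S.al1' (n6 + 2) (n1 + 2) 0 1 0 0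
  have r8 : D (n1 + 3) 0 (n6 + 4) 0 0 0 = G 0 0 (n1 + 3) 0 (n6 + 4) 0 0 - G (n6 + 4) 0 (n1 + 3) 0 0 0 0 + G (n6 + 3) 1 (n1 + 3) 0 0 0 0 := S.al1' (n6 + 3) (n1 + 2) 0 0 0 0
  have r9 : D (n1 + 3) 1 0 0 0 (n6 + 3) = G (n6 + 3) 0 (n1 + 3) 1 0 0 0 - G 0 0 (n1 + 3) 1 0 0 (n6 + 3) := S.al0' (n1 + 2) 1 0 0 (n6 + 3)
  have r10 : D (n1 + 3) 1 0 0 (n6 + 3) 0 = G 0 0 (n1 + 3) 1 0 0 (n6 + 3) - G 0 0 (n1 + 3) 1 0 (n6 + 3) 0 := S.al0' (n1 + 2) 1 0 (n6 + 3) 0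
  have r11 : D (n1 + 3) (n6 + 4) 0 0 0 0 = G 0 0 (n1 + 3) (n6 + 4) 0 0 0 - G 0 0 (n1 + 3) (n6 + 4) 0 0 0 := S.al0' (n1 + 2) (n6 + 4) 0 0 0
  have r12 : G 0 (n1 + 3) 1 (n6 + 3) 0 0 0 = G (n6 + 3) 0 (n1 + 3) 1 0 0 0 := S.z0 (n1 + 3) 1 (n6 + 3)
  have r13 : C (n6 + 3) 0 0 0 0 (n1 + 4) = G (n1 + 4) 0 0 0 0 (n6 + 3) 0 - G 0 0 0 (n1 + 4) 0 (n6 + 3) 0 := S.al0 0 0 (n1 + 4) (n6 + 2) 0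
  have r14 : C (n6 + 3) 0 0 0 (n1 + 3) 1 = G 1 0 0 (n1 + 3) 0 (n6 + 3) 0 - G 0 0 (n1 + 3) 1 0 (n6 + 3) 0 := S.al0 0 (n1 + 3) 1 (n6 + 2) 0
  have r15 : C (n6 + 3) 0 0 0 (n1 + 4) 0 = G 0 0 0 (n1 + 4) 0 (n6 + 3) 0 - G 0 0 (n1 + 4) 0 0 (n6 + 3) 0 := S.al0 0 (n1 + 4) 0 (n6 + 2) 0
  have r16 : C (n6 + 3) 0 0 (n1 + 3) 1 0 = G 0 0 (n1 + 3) 1 0 (n6 + 3) 0 - G 0 (n1 + 3) 1 0 0 (n6 + 3) 0 := S.al0 (n1 + 3) 1 0 (n6 + 2) 0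
  have r17 : C (n6 + 3) 0 0 (n1 + 4) 0 0 = G 0 0 (n1 + 4) 0 0 (n6 + 3) 0 - G 0 (n1 + 4) 0 0 0 (n6 + 3) 0 := S.al0 (n1 + 4) 0 0 (n6 + 2) 0
  have r18 : C (n6 + 3) 0 1 0 0 (n1 + 3) = G (n1 + 3) 1 0 0 0 (n6 + 3) 0 - G 1 0 0 (n1 + 3) 0 (n6 + 3) 0 + G 0 0 0 (n1 + 3) 1 (n6 + 3) 0 := S.al1 0 0 0 (n1 + 3) (n6 + 2) 0
  have r19 : C (n6 + 3) 0 (n1 + 3) 1 0 0 = G 0 (n1 + 3) 1 0 0 (n6 + 3) 0 - G (n1 + 3) 1 0 0 0 (n6 + 3) 0 + G (n1 + 2) 1 0 0 1 (n6 + 3) 0 := S.al1 (n1 + 2) 1 0 0 (n6 + 2) 0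
  have r20 : C (n6 + 3) 0 (n1 + 4) 0 0 0 = G 0 (n1 + 4) 0 0 0 (n6 + 3) 0 - G (n1 + 4) 0 0 0 0 (n6 + 3) 0 + G (n1 + 3) 0 0 0 1 (n6 + 3) 0 := S.al1 (n1 + 3) 0 0 0 (n6 + 2) 0
  have r21 : C (n6 + 3) 1 0 0 0 (n1 + 3) = G (n1 + 3) 0 0 0 0 (n6 + 3) 1 - G 0 0 0 (n1 + 3) 0 (n6 + 3) 1 := S.al0 0 0 (n1 + 3) (n6 + 2) 1
  have r22 : C (n6 + 3) 1 0 0 (n1 + 3) 0 = G 0 0 0 (n1 + 3) 0 (n6 + 3) 1 - G 0 0 (n1 + 3) 0 0 (n6 + 3) 1 := S.al0 0 (n1 + 3) 0 (n6 + 2) 1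
  have r23 : C (n6 + 3) (n1 + 4) 0 0 0 0 = G 0 0 0 0 0 (n6 + 3) (n1 + 4) - G 0 0 0 0 0 (n6 + 3) (n1 + 4) := S.al0 0 0 0 (n6 + 2) (n1 + 4)
  have z0 : G 0 0 0 0 (n6 + 3) 1 (n1 + 3) = 0 := S.van 0 0 0 0 (n6 + 1) 0 (n1 + 3)
  have z1 : G (n1 + 3) 0 0 0 1 (n6 + 3) 0 = G 0 0 0 (n1 + 3) 1 (n6 + 3) 0 := S.r3 (n1 + 3) 0 0 0 (n6 + 2) 0
  have z2 : G 0 0 (n1 + 3) 0 (n6 + 3) 1 0 = 0 := S.van 0 0 (n1 + 3) 0 (n6 + 1) 0 0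
  have z3 : G (n6 + 3) 1 (n1 + 3) 0 0 0 0 = G 0 1 (n1 + 3) 0 0 0 (n6 + 3) := S.m3 (n6 + 3) (n1 + 2) 0 0 0 0
  have z4 : G 0 (n1 + 3) 1 0 0 (n6 + 3) 0 = 0 := S.van' 0 (n1 + 1) 0 0 0 (n6 + 3) 0
  have z5 : G 0 (n1 + 3) 1 (n6 + 3) 0 0 0 = 0 := S.van' 0 (n1 + 1) 0 (n6 + 3) 0 0 0
  have z6 : G (n1 + 2) 1 0 0 1 (n6 + 3) 0 = G 0 (n1 + 2) 1 0 1 (n6 + 3) 0 := S.r1 (n1 + 2) 1 0 0 (n6 + 2) 0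
  have z7 : G 0 (n1 + 2) 1 0 1 (n6 + 3) 0 = 0 := S.van' 0 n1 0 0 1 (n6 + 3) 0
  have z8 : G (n6 + 2) 1 (n1 + 3) 0 1 0 0 = G 0 1 (n1 + 3) 0 (n6 + 2) 1 0 := S.m1 (n6 + 2) (n1 + 2) 0 1 0 0
  have z9 : G 0 1 (n1 + 3) 0 (n6 + 2) 1 0 = 0 := S.van 0 1 (n1 + 3) 0 n6 0 0
  have z10 : D (n1 + 3) 0 0 0 (n6 + 4) 0 = D (n1 + 3) 0 0 0 0 (n6 + 4) := S.d4 (n1 + 3) 0 0 0 (n6 + 4) 0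
  have z11 : D (n1 + 3) 0 0 (n6 + 4) 0 0 = D (n1 + 3) 0 0 0 0 (n6 + 4) := S.d3 (n1 + 3) 0 0 (n6 + 4) 0 0
  have z12 : D (n1 + 3) 0 (n6 + 4) 0 0 0 = D (n1 + 3) 0 0 0 0 (n6 + 4) := S.d2 (n1 + 3) 0 (n6 + 4) 0 0 0
  have z13 : D (n1 + 3) (n6 + 4) 0 0 0 0 = D (n1 + 3) 0 0 0 0 (n6 + 4) := S.d1 (n1 + 3) (n6 + 4) 0 0 0 0
  have z14 : D (n1 + 3) 0 0 (n6 + 3) 1 0 = D (n1 + 3) 0 0 0 (n6 + 3) 1 := S.d4 (n1 + 3) 0 0 (n6 + 3) 1 0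
  have z15 : D (n1 + 3) 0 (n6 + 3) 1 0 0 = D (n1 + 3) 0 0 0 (n6 + 3) 1 := S.d3 (n1 + 3) 0 (n6 + 3) 1 0 0
  have z16 : D (n1 + 3) 1 0 0 0 (n6 + 3) = D (n1 + 3) 0 0 0 (n6 + 3) 1 := S.d1 (n1 + 3) 1 0 0 0 (n6 + 3)
  have z17 : D (n1 + 3) 1 0 0 (n6 + 3) 0 = D (n1 + 3) 0 1 0 0 (n6 + 3) := S.d4 (n1 + 3) 1 0 0 (n6 + 3) 0
  have z18 : C (n6 + 3) 0 0 0 (n1 + 4) 0 = C (n6 + 3) 0 0 0 0 (n1 + 4) := S.c4 (n6 + 3) 0 0 0 (n1 + 4) 0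
  have z19 : C (n6 + 3) 0 0 (n1 + 4) 0 0 = C (n6 + 3) 0 0 0 0 (n1 + 4) := S.c3 (n6 + 3) 0 0 (n1 + 4) 0 0
  have z20 : C (n6 + 3) 0 (n1 + 4) 0 0 0 = C (n6 + 3) 0 0 0 0 (n1 + 4) := S.c2 (n6 + 3) 0 (n1 + 4) 0 0 0
  have z21 : C (n6 + 3) (n1 + 4) 0 0 0 0 = C (n6 + 3) 0 0 0 0 (n1 + 4) := S.c1 (n6 + 3) (n1 + 4) 0 0 0 0
  have z22 : C (n6 + 3) 0 0 (n1 + 3) 1 0 = C (n6 + 3) 0 0 0 (n1 + 3) 1 := S.c4 (n6 + 3) 0 0 (n1 + 3) 1 0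
  have z23 : C (n6 + 3) 0 (n1 + 3) 1 0 0 = C (n6 + 3) 0 0 0 (n1 + 3) 1 := S.c3 (n6 + 3) 0 (n1 + 3) 1 0 0
  have z24 : C (n6 + 3) 1 0 0 0 (n1 + 3) = C (n6 + 3) 0 0 0 (n1 + 3) 1 := S.c1 (n6 + 3) 1 0 0 0 (n1 + 3)
  have z25 : C (n6 + 3) (n1 + 3) 1 0 0 0 = C (n6 + 3) 0 0 0 (n1 + 3) 1 := S.c2 (n6 + 3) (n1 + 3) 1 0 0 0
  have z26 : C (n6 + 3) 1 0 0 (n1 + 3) 0 = C (n6 + 3) 0 1 0 0 (n1 + 3) := S.c4 (n6 + 3) 1 0 0 (n1 + 3) 0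
  linear_combination ((((2 / 3 : ℚ) * r0 + (-1 / 3 : ℚ) * r1 + (1 / 3 : ℚ) * r2 + (-1 / 3 : ℚ) * r3 + (-1 / 3 : ℚ) * r4 + (-1 / 3 : ℚ) * r5 + (1 / 3 : ℚ) * r6)
    + ((1 / 3 : ℚ) * r7 + (-1 / 3 : ℚ) * r8 + (-1 / 3 : ℚ) * r9 + (-1 / 3 : ℚ) * r10 + (4 / 3 : ℚ) * r11 + (1 / 3 : ℚ) * r12))
    + (((-2 / 3 : ℚ) * r13 + (2 / 3 : ℚ) * r14 + (-2 / 3 : ℚ) * r15 + (1 / 3 : ℚ) * r16 + (-2 / 3 : ℚ) * r17 + (2 / 3 : ℚ) * r18 + (2 / 3 : ℚ) * r19)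
    + ((-2 / 3 : ℚ) * r20 + (-2 / 3 : ℚ) * r21 + (-2 / 3 : ℚ) * r22 + (8 / 3 : ℚ) * r23 + (-2 / 3 : ℚ) * z0 + (-2 / 3 : ℚ) * z1)))
    + ((((2 / 3 : ℚ) * z2 + (-1 / 3 : ℚ) * z3 + (1 / 3 : ℚ) * z4 + (-1 / 3 : ℚ) * z5 + (2 / 3 : ℚ) * z6 + (2 / 3 : ℚ) * z7 + (1 / 3 : ℚ) * z8)
    + ((1 / 3 : ℚ) * z9 + (1 / 3 : ℚ) * z10 + (1 / 3 : ℚ) * z11 + (1 / 3 : ℚ) * z12 + (-4 / 3 : ℚ) * z13 + (1 / 3 : ℚ) * z14))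
    + (((-1 / 3 : ℚ) * z15 + (1 / 3 : ℚ) * z16 + (1 / 3 : ℚ) * z17 + (2 / 3 : ℚ) * z18 + (2 / 3 : ℚ) * z19 + (2 / 3 : ℚ) * z20)
    + ((-8 / 3 : ℚ) * z21 + (-1 / 3 : ℚ) * z22 + (-2 / 3 : ℚ) * z23 + (2 / 3 : ℚ) * z24 + (1 : ℚ) * z25 + (2 / 3 : ℚ) * z26)))

theorem L_e1_g3_g3_e0_e0_e0 (S : Sys6 G C D) (n1 n2 : ℕ) : C 1 (n1 + 3) (n2 + 3) 0 0 0 = 0 := by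
  have r0 : D (n1 + 3) 1 0 (n2 + 3) 0 0 = G 0 0 (n1 + 3) 1 0 (n2 + 3) 0 - G 0 0 (n1 + 3) 1 (n2 + 3) 0 0 := S.al0' (n1 + 2) 1 (n2 + 3) 0 0
  have r1 : D (n1 + 3) 1 (n2 + 3) 0 0 0 = G 0 0 (n1 + 3) 1 (n2 + 3) 0 0 - G (n2 + 3) 0 (n1 + 3) 1 0 0 0 + G (n2 + 2) 1 (n1 + 3) 1 0 0 0 := S.al1' (n2 + 2) (n1 + 2) 1 0 0 0
  have r2 : D (n1 + 3) (n2 + 3) 0 0 0 1 = G 1 0 (n1 + 3) (n2 + 3) 0 0 0 - G 0 0 (n1 + 3) (n2 + 3) 0 0 1 := S.al0' (n1 + 2) (n2 + 3) 0 0 1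
  have r3 : D (n1 + 3) (n2 + 3) 0 0 1 0 = G 0 0 (n1 + 3) (n2 + 3) 0 0 1 - G 0 0 (n1 + 3) (n2 + 3) 0 1 0 := S.al0' (n1 + 2) (n2 + 3) 0 1 0
  have r4 : G 0 (n1 + 3) 1 (n2 + 3) 0 0 0 = G (n2 + 3) 0 (n1 + 3) 1 0 0 0 := S.z0 (n1 + 3) 1 (n2 + 3)
  have r5 : G 0 (n1 + 3) (n2 + 3) 1 0 0 0 = G 1 0 (n1 + 3) (n2 + 3) 0 0 0 := S.z0 (n1 + 3) (n2 + 3) 1
  have r6 : C 1 0 0 (n1 + 3) (n2 + 3) 0 = G 0 0 (n1 + 3) (n2 + 3) 0 1 0 - G 0 (n1 + 3) (n2 + 3) 0 0 1 0 := S.al0 (n1 + 3) (n2 + 3) 0 0 0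
  have r7 : C (n2 + 2) 0 1 (n1 + 3) 1 0 = G 0 1 (n1 + 3) 1 0 (n2 + 2) 0 - G 1 (n1 + 3) 1 0 0 (n2 + 2) 0 + G 0 (n1 + 3) 1 0 1 (n2 + 2) 0 := S.al1 0 (n1 + 3) 1 0 (n2 + 1) 0
  have r8 : C (n2 + 3) 0 0 (n1 + 3) 1 0 = G 0 0 (n1 + 3) 1 0 (n2 + 3) 0 - G 0 (n1 + 3) 1 0 0 (n2 + 3) 0 := S.al0 (n1 + 3) 1 0 (n2 + 2) 0
  have z0 : G (n2 + 2) 1 (n1 + 3) 1 0 0 0 = G 0 1 (n1 + 3) 1 0 0 (n2 + 2) := S.m3 (n2 + 2) (n1 + 2) 1 0 0 0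
  have z1 : G 0 1 (n1 + 3) 1 0 (n2 + 2) 0 = G 0 1 (n1 + 3) 1 0 0 (n2 + 2) := S.m1 0 (n1 + 2) 1 0 (n2 + 2) 0
  have z2 : G 0 (n1 + 3) 1 0 0 (n2 + 3) 0 = 0 := S.van' 0 (n1 + 1) 0 0 0 (n2 + 3) 0
  have z3 : G 0 (n1 + 3) 1 0 1 (n2 + 2) 0 = 0 := S.van' 0 (n1 + 1) 0 0 1 (n2 + 2) 0
  have z4 : G 0 (n1 + 3) 1 (n2 + 3) 0 0 0 = 0 := S.van' 0 (n1 + 1) 0 (n2 + 3) 0 0 0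
  have z5 : G 0 (n1 + 3) (n2 + 3) 0 0 1 0 = 0 := S.van' 0 (n1 + 1) (n2 + 2) 0 0 1 0
  have z6 : G 0 (n1 + 3) (n2 + 3) 1 0 0 0 = 0 := S.van' 0 (n1 + 1) (n2 + 2) 1 0 0 0
  have z7 : G 1 (n1 + 3) 1 0 0 (n2 + 2) 0 = 0 := S.van' 1 (n1 + 1) 0 0 0 (n2 + 2) 0
  have z8 : D (n1 + 3) (n2 + 3) 0 0 1 0 = D (n1 + 3) 1 0 (n2 + 3) 0 0 := S.d3 (n1 + 3) (n2 + 3) 0 0 1 0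
  have z9 : D (n1 + 3) (n2 + 3) 0 0 0 1 = D (n1 + 3) 1 (n2 + 3) 0 0 0 := S.d4 (n1 + 3) (n2 + 3) 0 0 0 1
  have z10 : C 1 (n1 + 3) (n2 + 3) 0 0 0 = C 1 0 0 (n1 + 3) (n2 + 3) 0 := S.c3 1 (n1 + 3) (n2 + 3) 0 0 0
  have z11 : C (n2 + 2) 0 1 (n1 + 3) 1 0 = 0 := (S.c1 (n2 + 2) 0 1 (n1 + 3) 1 0).trans (S_p3a S (n2 + 1) 0 (n1 + 2) 0)
  have z12 : C (n2 + 3) 0 0 (n1 + 3) 1 0 = 0 := (S.c2 (n2 + 3) 0 0 (n1 + 3) 1 0).trans (L_g3_g3_e1_e0_e0_e0 S n2 n1)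
  linear_combination (((-1 : ℚ) * r0 + (-1 : ℚ) * r1 + (1 : ℚ) * r2 + (1 : ℚ) * r3 + (-1 : ℚ) * r4 + (-1 : ℚ) * r5)
    + ((1 : ℚ) * r6 + (1 : ℚ) * r7 + (1 : ℚ) * r8 + (-1 : ℚ) * z0 + (1 : ℚ) * z1))
    + (((-1 : ℚ) * z2 + (1 : ℚ) * z3 + (1 : ℚ) * z4 + (-1 : ℚ) * z5 + (1 : ℚ) * z6 + (-1 : ℚ) * z7)
    + ((-1 : ℚ) * z8 + (-1 : ℚ) * z9 + (1 : ℚ) * z10 + (-1 : ℚ) * z11 + (-1 : ℚ) * z12))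

theorem L_g3_e1_g3_e0_e0_e0 (S : Sys6 G C D) (n6 n2 : ℕ) : C (n6 + 3) 1 (n2 + 3) 0 0 0 = 0 := by
  have r0 : D 1 0 0 0 (n6 + 3) (n2 + 3) = G (n2 + 3) 0 1 0 0 0 (n6 + 3) - G 0 0 1 0 0 (n6 + 3) (n2 + 3) := S.al0' 0 0 0 (n6 + 3) (n2 + 3)
  have r1 : D 1 0 0 (n6 + 3) (n2 + 3) 0 = G 0 0 1 0 0 (n6 + 3) (n2 + 3) - G 0 0 1 0 (n6 + 3) (n2 + 3) 0 := S.al0' 0 0 (n6 + 3) (n2 + 3) 0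
  have r2 : D 1 0 (n2 + 3) 0 0 (n6 + 3) = G (n6 + 3) 0 1 0 (n2 + 3) 0 0 - G (n2 + 3) 0 1 0 0 0 (n6 + 3) + G (n2 + 2) 1 1 0 0 0 (n6 + 3) := S.al1' (n2 + 2) 0 0 0 0 (n6 + 3)
  have r3 : D 1 0 (n6 + 3) (n2 + 3) 0 0 = G 0 0 1 0 (n6 + 3) (n2 + 3) 0 - G (n6 + 3) 0 1 0 (n2 + 3) 0 0 + G (n6 + 2) 1 1 0 (n2 + 3) 0 0 := S.al1' (n6 + 2) 0 0 (n2 + 3) 0 0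
  have r4 : D 1 (n2 + 3) 0 0 0 (n6 + 3) = G (n6 + 3) 0 1 (n2 + 3) 0 0 0 - G 0 0 1 (n2 + 3) 0 0 (n6 + 3) := S.al0' 0 (n2 + 3) 0 0 (n6 + 3)
  have r5 : D 1 (n2 + 3) 0 0 (n6 + 3) 0 = G 0 0 1 (n2 + 3) 0 0 (n6 + 3) - G 0 0 1 (n2 + 3) 0 (n6 + 3) 0 := S.al0' 0 (n2 + 3) 0 (n6 + 3) 0
  have r6 : D (n2 + 3) 0 0 0 (n6 + 3) 1 = G 1 0 (n2 + 3) 0 0 0 (n6 + 3) - G 0 0 (n2 + 3) 0 0 (n6 + 3) 1 := S.al0' (n2 + 2) 0 0 (n6 + 3) 1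
  have r7 : D (n2 + 3) 0 0 (n6 + 3) 1 0 = G 0 0 (n2 + 3) 0 0 (n6 + 3) 1 - G 0 0 (n2 + 3) 0 (n6 + 3) 1 0 := S.al0' (n2 + 2) 0 (n6 + 3) 1 0
  have r8 : D (n2 + 3) 0 1 0 0 (n6 + 3) = G (n6 + 3) 0 (n2 + 3) 0 1 0 0 - G 1 0 (n2 + 3) 0 0 0 (n6 + 3) + G 0 1 (n2 + 3) 0 0 0 (n6 + 3) := S.al1' 0 (n2 + 2) 0 0 0 (n6 + 3)
  have r9 : D (n2 + 3) 0 (n6 + 3) 1 0 0 = G 0 0 (n2 + 3) 0 (n6 + 3) 1 0 - G (n6 + 3) 0 (n2 + 3) 0 1 0 0 + G (n6 + 2) 1 (n2 + 3) 0 1 0 0 := S.al1' (n6 + 2) (n2 + 2) 0 1 0 0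
  have r10 : D (n2 + 3) (n6 + 3) 0 1 0 0 = G 0 0 (n2 + 3) (n6 + 3) 0 1 0 - G 0 0 (n2 + 3) (n6 + 3) 1 0 0 := S.al0' (n2 + 2) (n6 + 3) 1 0 0
  have r11 : D (n2 + 3) (n6 + 3) 1 0 0 0 = G 0 0 (n2 + 3) (n6 + 3) 1 0 0 - G 1 0 (n2 + 3) (n6 + 3) 0 0 0 + G 0 1 (n2 + 3) (n6 + 3) 0 0 0 := S.al1' 0 (n2 + 2) (n6 + 3) 0 0 0
  have r12 : G 0 1 (n2 + 3) (n6 + 3) 0 0 0 = G (n6 + 3) 0 1 (n2 + 3) 0 0 0 := S.z0 1 (n2 + 3) (n6 + 3)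
  have r13 : G 0 (n2 + 3) (n6 + 3) 1 0 0 0 = G 1 0 (n2 + 3) (n6 + 3) 0 0 0 := S.z0 (n2 + 3) (n6 + 3) 1
  have r14 : C 1 0 0 (n2 + 3) (n6 + 3) 0 = G 0 0 (n2 + 3) (n6 + 3) 0 1 0 - G 0 (n2 + 3) (n6 + 3) 0 0 1 0 := S.al0 (n2 + 3) (n6 + 3) 0 0 0
  have r15 : C (n6 + 3) 0 0 1 (n2 + 3) 0 = G 0 0 1 (n2 + 3) 0 (n6 + 3) 0 - G 0 1 (n2 + 3) 0 0 (n6 + 3) 0 := S.al0 1 (n2 + 3) 0 (n6 + 2) 0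
  have z0 : G 0 1 (n2 + 3) 0 0 (n6 + 3) 0 = G 0 1 (n2 + 3) 0 0 0 (n6 + 3) := S.m1 0 (n2 + 2) 0 0 (n6 + 3) 0
  have z1 : G 0 (n2 + 3) (n6 + 3) 0 0 1 0 = 0 := S.van' 0 (n2 + 1) (n6 + 2) 0 0 1 0
  have z2 : G 0 (n2 + 3) (n6 + 3) 1 0 0 0 = 0 := S.van' 0 (n2 + 1) (n6 + 2) 1 0 0 0
  have z3 : G (n2 + 2) 1 1 0 0 0 (n6 + 3) = G 0 1 1 0 (n6 + 3) (n2 + 2) 0 := S.m2 (n2 + 2) 0 0 0 0 (n6 + 3)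
  have z4 : G 0 1 1 0 (n6 + 3) (n2 + 2) 0 = 0 := S.van 0 1 1 0 (n6 + 1) (n2 + 1) 0
  have z5 : G (n6 + 2) 1 1 0 (n2 + 3) 0 0 = G 0 1 1 0 (n6 + 2) (n2 + 3) 0 := S.m1 (n6 + 2) 0 0 (n2 + 3) 0 0
  have z6 : G 0 1 1 0 (n6 + 2) (n2 + 3) 0 = 0 := S.van 0 1 1 0 n6 (n2 + 2) 0
  have z7 : G (n6 + 2) 1 (n2 + 3) 0 1 0 0 = G 0 1 (n2 + 3) 0 (n6 + 2) 1 0 := S.m1 (n6 + 2) (n2 + 2) 0 1 0 0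
  have z8 : G 0 1 (n2 + 3) 0 (n6 + 2) 1 0 = 0 := S.van 0 1 (n2 + 3) 0 n6 0 0
  have z9 : D 1 0 0 0 (n6 + 3) (n2 + 3) = 0 := (S.d3 1 0 0 0 (n6 + 3) (n2 + 3)).trans (L_e1_g3_g3_e0_e0_e0 S.mirror n6 n2)
  have z10 : D 1 0 0 (n6 + 3) (n2 + 3) 0 = 0 := (S.d2 1 0 0 (n6 + 3) (n2 + 3) 0).trans (L_e1_g3_g3_e0_e0_e0 S.mirror n6 n2)
  have z11 : D 1 0 (n6 + 3) (n2 + 3) 0 0 = 0 := (S.d1 1 0 (n6 + 3) (n2 + 3) 0 0).trans (L_e1_g3_g3_e0_e0_e0 S.mirror n6 n2)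
  have z12 : D 1 (n2 + 3) 0 0 0 (n6 + 3) = 0 := (S.d4 1 (n2 + 3) 0 0 0 (n6 + 3)).trans (L_e1_g3_g3_e0_e0_e0 S.mirror n6 n2)
  have z13 : D 1 (n2 + 3) 0 0 (n6 + 3) 0 = D 1 0 (n2 + 3) 0 0 (n6 + 3) := S.d4 1 (n2 + 3) 0 0 (n6 + 3) 0
  have z14 : D (n2 + 3) 0 0 0 (n6 + 3) 1 = 0 := (S.d3 (n2 + 3) 0 0 0 (n6 + 3) 1).trans (L_g3_g3_e1_e0_e0_e0 S.mirror n2 n6)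
  have z15 : D (n2 + 3) 0 0 (n6 + 3) 1 0 = 0 := (S.d2 (n2 + 3) 0 0 (n6 + 3) 1 0).trans (L_g3_g3_e1_e0_e0_e0 S.mirror n2 n6)
  have z16 : D (n2 + 3) 0 (n6 + 3) 1 0 0 = 0 := (S.d1 (n2 + 3) 0 (n6 + 3) 1 0 0).trans (L_g3_g3_e1_e0_e0_e0 S.mirror n2 n6)
  have z17 : D (n2 + 3) (n6 + 3) 1 0 0 0 = 0 := L_g3_g3_e1_e0_e0_e0 S.mirror n2 n6
  have z18 : D (n2 + 3) (n6 + 3) 0 1 0 0 = D (n2 + 3) 0 1 0 0 (n6 + 3) := S.d1 (n2 + 3) (n6 + 3) 0 1 0 0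
  have z19 : C 1 0 0 (n2 + 3) (n6 + 3) 0 = 0 := (S.c2 1 0 0 (n2 + 3) (n6 + 3) 0).trans (L_e1_g3_g3_e0_e0_e0 S n2 n6)
  have z20 : C (n6 + 3) 1 (n2 + 3) 0 0 0 = C (n6 + 3) 0 0 1 (n2 + 3) 0 := S.c3 (n6 + 3) 1 (n2 + 3) 0 0 0
  linear_combination ((((-1 : ℚ) * r0 + (-1 : ℚ) * r1 + (-1 : ℚ) * r2 + (-1 : ℚ) * r3 + (1 : ℚ) * r4)
    + ((1 : ℚ) * r5 + (1 : ℚ) * r6 + (1 : ℚ) * r7 + (1 : ℚ) * r8 + (1 : ℚ) * r9))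
    + (((-1 : ℚ) * r10 + (-1 : ℚ) * r11 + (-1 : ℚ) * r12 + (-1 : ℚ) * r13 + (1 : ℚ) * r14)
    + ((1 : ℚ) * r15 + (-1 : ℚ) * z0 + (-1 : ℚ) * z1 + (1 : ℚ) * z2)))
    + ((((-1 : ℚ) * z3 + (-1 : ℚ) * z4 + (-1 : ℚ) * z5 + (-1 : ℚ) * z6 + (1 : ℚ) * z7)
    + ((1 : ℚ) * z8 + (1 : ℚ) * z9 + (1 : ℚ) * z10 + (1 : ℚ) * z11))
    + (((-1 : ℚ) * z12 + (-1 : ℚ) * z13 + (-1 : ℚ) * z14 + (-1 : ℚ) * z15 + (-1 : ℚ) * z16)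
    + ((1 : ℚ) * z17 + (1 : ℚ) * z18 + (-1 : ℚ) * z19 + (1 : ℚ) * z20)))

theorem L_e1_e2_e1_e0_e0_e0 (S : Sys6 G C D) : C 1 2 1 0 0 0 = 0 := by
  have r0 : G 0 0 0 0 1 1 2 = G 2 0 0 0 0 1 1 := S.z0' 1 1 2
  have r1 : D 1 0 1 1 1 0 = G 0 0 1 0 1 1 1 - G 1 0 1 0 1 1 0 + G 0 1 1 0 1 1 0 := S.al1' 0 0 0 1 1 0
  have r2 : D 2 0 0 1 1 0 = G 0 0 2 0 0 1 1 - G 0 0 2 0 1 1 0 := S.al0' 1 0 1 1 0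
  have r3 : C 1 0 0 0 1 2 = G 2 0 0 1 0 1 0 - G 0 0 1 2 0 1 0 := S.al0 0 1 2 0 0
  have r4 : C 1 0 0 0 2 1 = G 1 0 0 2 0 1 0 - G 0 0 2 1 0 1 0 := S.al0 0 2 1 0 0
  have r5 : C 1 0 0 1 0 2 = G 2 0 1 0 0 1 0 - G 0 1 0 2 0 1 0 := S.al0 1 0 2 0 0
  have r6 : C 1 0 0 1 1 1 = G 1 0 1 1 0 1 0 - G 0 1 1 1 0 1 0 := S.al0 1 1 1 0 0
  have r7 : C 1 0 0 1 2 0 = G 0 0 1 2 0 1 0 - G 0 1 2 0 0 1 0 := S.al0 1 2 0 0 0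
  have r8 : C 1 0 0 2 0 1 = G 1 0 2 0 0 1 0 - G 0 2 0 1 0 1 0 := S.al0 2 0 1 0 0
  have r9 : C 1 0 0 2 1 0 = G 0 0 2 1 0 1 0 - G 0 2 1 0 0 1 0 := S.al0 2 1 0 0 0
  have r10 : C 1 0 1 0 0 2 = G 2 1 0 0 0 1 0 - G 1 0 0 2 0 1 0 + G 0 0 0 2 1 1 0 := S.al1 0 0 0 2 0 0
  have r11 : C 1 0 1 0 1 1 = G 1 1 0 1 0 1 0 - G 1 0 1 1 0 1 0 + G 0 0 1 1 1 1 0 := S.al1 0 0 1 1 0 0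
  have r12 : C 1 0 1 0 2 0 = G 0 1 0 2 0 1 0 - G 1 0 2 0 0 1 0 + G 0 0 2 0 1 1 0 := S.al1 0 0 2 0 0 0
  have r13 : C 1 0 1 1 0 1 = G 1 1 1 0 0 1 0 - G 1 1 0 1 0 1 0 + G 0 1 0 1 1 1 0 := S.al1 0 1 0 1 0 0
  have r14 : C 1 0 1 1 1 0 = G 0 1 1 1 0 1 0 - G 1 1 1 0 0 1 0 + G 0 1 1 0 1 1 0 := S.al1 0 1 1 0 0 0
  have r15 : C 1 0 1 2 0 0 = G 0 1 2 0 0 1 0 - G 1 2 0 0 0 1 0 + G 0 2 0 0 1 1 0 := S.al1 0 2 0 0 0 0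
  have r16 : C 1 0 2 0 0 1 = G 1 2 0 0 0 1 0 - G 2 0 0 1 0 1 0 + G 1 0 0 1 1 1 0 := S.al1 1 0 0 1 0 0
  have r17 : C 1 0 2 0 1 0 = G 0 2 0 1 0 1 0 - G 2 0 1 0 0 1 0 + G 1 0 1 0 1 1 0 := S.al1 1 0 1 0 0 0
  have r18 : C 1 0 2 1 0 0 = G 0 2 1 0 0 1 0 - G 2 1 0 0 0 1 0 + G 1 1 0 0 1 1 0 := S.al1 1 1 0 0 0 0
  have r19 : C 1 1 0 1 0 1 = G 1 0 1 0 0 1 1 - G 0 1 0 1 0 1 1 := S.al0 1 0 1 0 1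
  have r20 : C 1 1 0 2 0 0 = G 0 0 2 0 0 1 1 - G 0 2 0 0 0 1 1 := S.al0 2 0 0 0 1
  have r21 : C 1 1 1 0 1 0 = G 0 1 0 1 0 1 1 - G 1 0 1 0 0 1 1 + G 0 0 1 0 1 1 1 := S.al1 0 0 1 0 0 1
  have r22 : C 1 1 2 0 0 0 = G 0 2 0 0 0 1 1 - G 2 0 0 0 0 1 1 + G 1 0 0 0 1 1 1 := S.al1 1 0 0 0 0 1
  have r23 : C 1 2 0 0 0 1 = G 1 0 0 0 0 1 2 - G 0 0 0 1 0 1 2 := S.al0 0 0 1 0 2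
  have r24 : C 1 2 0 0 1 0 = G 0 0 0 1 0 1 2 - G 0 0 1 0 0 1 2 := S.al0 0 1 0 0 2
  have r25 : C 1 2 0 1 0 0 = G 0 0 1 0 0 1 2 - G 0 1 0 0 0 1 2 := S.al0 1 0 0 0 2
  have r26 : C 1 2 1 0 0 0 = G 0 1 0 0 0 1 2 - G 1 0 0 0 0 1 2 + G 0 0 0 0 1 1 2 := S.al1 0 0 0 0 0 2
  have z0 : G 0 2 0 0 1 1 0 = G 0 0 0 2 1 1 0 := S.r2 0 2 0 0 0 0
  have z1 : G 0 0 2 0 1 1 0 = G 0 0 0 2 1 1 0 := S.r1 0 0 2 0 0 0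
  have z2 : G 1 0 0 0 1 1 1 = G 0 0 0 1 1 1 1 := S.r3 1 0 0 0 0 1
  have z3 : G 0 0 1 0 1 1 1 = G 0 0 0 1 1 1 1 := S.r1 0 0 1 0 0 1
  have z4 : G 1 0 0 1 1 1 0 = G 0 0 1 1 1 1 0 := S.r3 1 0 0 1 0 0
  have z5 : G 1 1 0 0 1 1 0 = G 0 0 1 1 1 1 0 := S.r2 1 1 0 0 0 0
  have z6 : G 1 0 1 0 1 1 0 = G 0 1 0 1 1 1 0 := S.r1 1 0 1 0 0 0
  have z7 : D 1 0 1 1 1 0 = 0 := (S.d1 1 0 1 1 1 0).trans (S_p3a S.mirror 0 0 0 0)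
  have z8 : D 2 0 0 1 1 0 = 0 := (S.d2 2 0 0 1 1 0).trans (L_e2_e1_e1_e0_e0_e0 S.mirror )
  have z9 : C 1 0 0 1 2 0 = C 1 0 0 0 1 2 := S.c4 1 0 0 1 2 0
  have z10 : C 1 0 1 2 0 0 = C 1 0 0 0 1 2 := S.c3 1 0 1 2 0 0
  have z11 : C 1 1 2 0 0 0 = C 1 0 0 0 1 2 := S.c2 1 1 2 0 0 0
  have z12 : C 1 2 0 0 0 1 = C 1 0 0 0 1 2 := S.c1 1 2 0 0 0 1
  have z13 : C 1 0 0 2 1 0 = C 1 0 0 0 2 1 := S.c4 1 0 0 2 1 0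
  have z14 : C 1 0 2 1 0 0 = C 1 0 0 0 2 1 := S.c3 1 0 2 1 0 0
  have z15 : C 1 2 1 0 0 0 = C 1 0 0 0 2 1 := S.c2 1 2 1 0 0 0
  have z16 : C 1 0 1 0 2 0 = C 1 0 0 1 0 2 := S.c4 1 0 1 0 2 0
  have z17 : C 1 0 2 0 0 1 = C 1 0 0 1 0 2 := S.c2 1 0 2 0 0 1
  have z18 : C 1 1 0 2 0 0 = C 1 0 0 1 0 2 := S.c3 1 1 0 2 0 0
  have z19 : C 1 2 0 0 1 0 = C 1 0 0 1 0 2 := S.c1 1 2 0 0 1 0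
  have z20 : C 1 0 0 1 1 1 = 0 := (S.c2 1 0 0 1 1 1).trans (S_p3a S 0 0 0 0)
  have z21 : C 1 0 1 1 1 0 = 0 := (S.c1 1 0 1 1 1 0).trans (S_p3a S 0 0 0 0)
  have z22 : C 1 0 1 0 0 2 = C 1 0 0 2 0 1 := S.c2 1 0 1 0 0 2
  have z23 : C 1 0 2 0 1 0 = C 1 0 0 2 0 1 := S.c4 1 0 2 0 1 0
  have z24 : C 1 2 0 1 0 0 = C 1 0 0 2 0 1 := S.c3 1 2 0 1 0 0
  have z25 : C 1 0 1 0 1 1 = 0 := (S.c3 1 0 1 0 1 1).trans (S_p3b S 0 0 0 0)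
  have z26 : C 1 0 1 1 0 1 = 0 := (S.c1 1 0 1 1 0 1).trans (S_p3b S 0 0 0 0)
  have z27 : C 1 1 0 1 0 1 = 0 := (S.c4 1 1 0 1 0 1).trans (S_p3b S 0 0 0 0)
  have z28 : C 1 1 1 0 1 0 = 0 := S_p3b S 0 0 0 0
  linear_combination ((((1 / 2 : ℚ) * r0 + (-1 / 6 : ℚ) * r1 + (-1 / 2 : ℚ) * r2 + (-1 / 3 : ℚ) * r3 + (1 / 6 : ℚ) * r4 + (-1 / 3 : ℚ) * r5 + (1 / 6 : ℚ) * r6)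
    + ((-1 / 3 : ℚ) * r7 + (-1 / 3 : ℚ) * r8 + (1 / 6 : ℚ) * r9 + (1 / 6 : ℚ) * r10 + (1 / 6 : ℚ) * r11 + (-1 / 3 : ℚ) * r12 + (1 / 6 : ℚ) * r13))
    + (((1 / 6 : ℚ) * r14 + (-1 / 3 : ℚ) * r15 + (-1 / 3 : ℚ) * r16 + (-1 / 3 : ℚ) * r17 + (1 / 6 : ℚ) * r18 + (-1 / 3 : ℚ) * r19 + (1 / 2 : ℚ) * r20)
    + ((-1 / 3 : ℚ) * r21 + (1 / 2 : ℚ) * r22 + (1 / 2 : ℚ) * r23 + (1 / 2 : ℚ) * r24 + (1 / 2 : ℚ) * r25 + (1 / 2 : ℚ) * r26 + (-1 / 3 : ℚ) * z0)))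
    + ((((1 / 6 : ℚ) * z1 + (1 / 2 : ℚ) * z2 + (-1 / 2 : ℚ) * z3 + (-1 / 3 : ℚ) * z4 + (1 / 6 : ℚ) * z5 + (-1 / 6 : ℚ) * z6 + (1 / 6 : ℚ) * z7)
    + ((1 / 2 : ℚ) * z8 + (1 / 3 : ℚ) * z9 + (1 / 3 : ℚ) * z10 + (-1 / 2 : ℚ) * z11 + (-1 / 2 : ℚ) * z12 + (-1 / 6 : ℚ) * z13 + (-1 / 6 : ℚ) * z14))
    + (((1 / 2 : ℚ) * z15 + (1 / 3 : ℚ) * z16 + (1 / 3 : ℚ) * z17 + (-1 / 2 : ℚ) * z18 + (-1 / 2 : ℚ) * z19 + (-1 / 6 : ℚ) * z20 + (-1 / 6 : ℚ) * z21)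
    + ((-1 / 6 : ℚ) * z22 + (1 / 3 : ℚ) * z23 + (-1 / 2 : ℚ) * z24 + (-1 / 6 : ℚ) * z25 + (-1 / 6 : ℚ) * z26 + (1 / 3 : ℚ) * z27 + (1 / 3 : ℚ) * z28)))

theorem L_e1_e1_e2_e0_e0_e0 (S : Sys6 G C D) : C 1 1 2 0 0 0 = 0 := by
  have r0 : G 0 0 0 0 1 1 2 = G 2 0 0 0 0 1 1 := S.z0' 1 1 2
  have r1 : D 1 0 1 1 1 0 = G 0 0 1 0 1 1 1 - G 1 0 1 0 1 1 0 + G 0 1 1 0 1 1 0 := S.al1' 0 0 0 1 1 0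
  have r2 : D 2 0 0 1 1 0 = G 0 0 2 0 0 1 1 - G 0 0 2 0 1 1 0 := S.al0' 1 0 1 1 0
  have r3 : C 1 0 0 0 0 3 = G 3 0 0 0 0 1 0 - G 0 0 0 3 0 1 0 := S.al0 0 0 3 0 0
  have r4 : C 1 0 0 0 1 2 = G 2 0 0 1 0 1 0 - G 0 0 1 2 0 1 0 := S.al0 0 1 2 0 0
  have r5 : C 1 0 0 0 3 0 = G 0 0 0 3 0 1 0 - G 0 0 3 0 0 1 0 := S.al0 0 3 0 0 0
  have r6 : C 1 0 0 1 0 2 = G 2 0 1 0 0 1 0 - G 0 1 0 2 0 1 0 := S.al0 1 0 2 0 0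
  have r7 : C 1 0 0 1 2 0 = G 0 0 1 2 0 1 0 - G 0 1 2 0 0 1 0 := S.al0 1 2 0 0 0
  have r8 : C 1 0 0 2 0 1 = G 1 0 2 0 0 1 0 - G 0 2 0 1 0 1 0 := S.al0 2 0 1 0 0
  have r9 : C 1 0 0 3 0 0 = G 0 0 3 0 0 1 0 - G 0 3 0 0 0 1 0 := S.al0 3 0 0 0 0
  have r10 : C 1 0 1 0 2 0 = G 0 1 0 2 0 1 0 - G 1 0 2 0 0 1 0 + G 0 0 2 0 1 1 0 := S.al1 0 0 2 0 0 0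
  have r11 : C 1 0 1 2 0 0 = G 0 1 2 0 0 1 0 - G 1 2 0 0 0 1 0 + G 0 2 0 0 1 1 0 := S.al1 0 2 0 0 0 0
  have r12 : C 1 0 2 0 0 1 = G 1 2 0 0 0 1 0 - G 2 0 0 1 0 1 0 + G 1 0 0 1 1 1 0 := S.al1 1 0 0 1 0 0
  have r13 : C 1 0 2 0 1 0 = G 0 2 0 1 0 1 0 - G 2 0 1 0 0 1 0 + G 1 0 1 0 1 1 0 := S.al1 1 0 1 0 0 0
  have r14 : C 1 0 3 0 0 0 = G 0 3 0 0 0 1 0 - G 3 0 0 0 0 1 0 + G 2 0 0 0 1 1 0 := S.al1 2 0 0 0 0 0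
  have r15 : C 1 1 0 0 0 2 = G 2 0 0 0 0 1 1 - G 0 0 0 2 0 1 1 := S.al0 0 0 2 0 1
  have r16 : C 1 1 0 0 2 0 = G 0 0 0 2 0 1 1 - G 0 0 2 0 0 1 1 := S.al0 0 2 0 0 1
  have r17 : C 1 1 0 1 0 1 = G 1 0 1 0 0 1 1 - G 0 1 0 1 0 1 1 := S.al0 1 0 1 0 1
  have r18 : C 1 1 0 2 0 0 = G 0 0 2 0 0 1 1 - G 0 2 0 0 0 1 1 := S.al0 2 0 0 0 1
  have r19 : C 1 1 1 0 1 0 = G 0 1 0 1 0 1 1 - G 1 0 1 0 0 1 1 + G 0 0 1 0 1 1 1 := S.al1 0 0 1 0 0 1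
  have r20 : C 1 1 2 0 0 0 = G 0 2 0 0 0 1 1 - G 2 0 0 0 0 1 1 + G 1 0 0 0 1 1 1 := S.al1 1 0 0 0 0 1
  have r21 : C 1 2 0 0 0 1 = G 1 0 0 0 0 1 2 - G 0 0 0 1 0 1 2 := S.al0 0 0 1 0 2
  have r22 : C 1 2 0 0 1 0 = G 0 0 0 1 0 1 2 - G 0 0 1 0 0 1 2 := S.al0 0 1 0 0 2
  have r23 : C 1 2 0 1 0 0 = G 0 0 1 0 0 1 2 - G 0 1 0 0 0 1 2 := S.al0 1 0 0 0 2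
  have r24 : C 1 2 1 0 0 0 = G 0 1 0 0 0 1 2 - G 1 0 0 0 0 1 2 + G 0 0 0 0 1 1 2 := S.al1 0 0 0 0 0 2
  have r25 : C 1 3 0 0 0 0 = G 0 0 0 0 0 1 3 - G 0 0 0 0 0 1 3 := S.al0 0 0 0 0 3
  have z0 : G 1 0 0 0 1 1 1 = G 0 0 0 1 1 1 1 := S.r3 1 0 0 0 0 1
  have z1 : G 0 0 1 0 1 1 1 = G 0 0 0 1 1 1 1 := S.r1 0 0 1 0 0 1
  have z2 : G 2 0 0 0 1 1 0 = G 0 0 0 2 1 1 0 := S.r3 2 0 0 0 0 0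
  have z3 : G 0 2 0 0 1 1 0 = G 0 0 0 2 1 1 0 := S.r2 0 2 0 0 0 0
  have z4 : G 0 0 2 0 1 1 0 = G 0 0 0 2 1 1 0 := S.r1 0 0 2 0 0 0
  have z5 : G 1 0 0 1 1 1 0 = G 0 0 1 1 1 1 0 := S.r3 1 0 0 1 0 0
  have z6 : G 0 1 1 0 1 1 0 = G 0 0 1 1 1 1 0 := S.r1 0 1 1 0 0 0
  have z7 : D 1 0 1 1 1 0 = 0 := (S.d1 1 0 1 1 1 0).trans (S_p3a S.mirror 0 0 0 0)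
  have z8 : D 2 0 0 1 1 0 = 0 := (S.d2 2 0 0 1 1 0).trans (L_e2_e1_e1_e0_e0_e0 S.mirror )
  have z9 : C 1 0 0 0 3 0 = C 1 0 0 0 0 3 := S.c4 1 0 0 0 3 0
  have z10 : C 1 0 0 3 0 0 = C 1 0 0 0 0 3 := S.c3 1 0 0 3 0 0
  have z11 : C 1 0 3 0 0 0 = C 1 0 0 0 0 3 := S.c2 1 0 3 0 0 0
  have z12 : C 1 3 0 0 0 0 = C 1 0 0 0 0 3 := S.c1 1 3 0 0 0 0
  have z13 : C 1 0 0 1 2 0 = C 1 0 0 0 1 2 := S.c4 1 0 0 1 2 0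
  have z14 : C 1 0 1 2 0 0 = C 1 0 0 0 1 2 := S.c3 1 0 1 2 0 0
  have z15 : C 1 1 2 0 0 0 = C 1 0 0 0 1 2 := S.c2 1 1 2 0 0 0
  have z16 : C 1 2 0 0 0 1 = C 1 0 0 0 1 2 := S.c1 1 2 0 0 0 1
  have z17 : C 1 0 1 0 2 0 = C 1 0 0 1 0 2 := S.c4 1 0 1 0 2 0
  have z18 : C 1 0 2 0 0 1 = C 1 0 0 1 0 2 := S.c2 1 0 2 0 0 1
  have z19 : C 1 1 0 2 0 0 = C 1 0 0 1 0 2 := S.c3 1 1 0 2 0 0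
  have z20 : C 1 2 0 0 1 0 = C 1 0 0 1 0 2 := S.c1 1 2 0 0 1 0
  have z21 : C 1 0 2 0 1 0 = C 1 0 0 2 0 1 := S.c4 1 0 2 0 1 0
  have z22 : C 1 1 0 0 2 0 = C 1 0 0 2 0 1 := S.c1 1 1 0 0 2 0
  have z23 : C 1 2 0 1 0 0 = C 1 0 0 2 0 1 := S.c3 1 2 0 1 0 0
  have z24 : C 1 1 0 0 0 2 = 0 := (S.c4 1 1 0 0 0 2).trans (L_e1_e2_e1_e0_e0_e0 S )
  have z25 : C 1 2 1 0 0 0 = 0 := L_e1_e2_e1_e0_e0_e0 S 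
  have z26 : C 1 1 0 1 0 1 = 0 := (S.c4 1 1 0 1 0 1).trans (S_p3b S 0 0 0 0)
  have z27 : C 1 1 1 0 1 0 = 0 := S_p3b S 0 0 0 0
  linear_combination ((((-1 / 4 : ℚ) * r0 + (-1 / 4 : ℚ) * r1 + (1 / 4 : ℚ) * r2 + (1 / 4 : ℚ) * r3 + (1 / 4 : ℚ) * r4 + (1 / 4 : ℚ) * r5 + (-1 / 4 : ℚ) * r6)
    + ((1 / 4 : ℚ) * r7 + (-1 / 4 : ℚ) * r8 + (1 / 4 : ℚ) * r9 + (-1 / 4 : ℚ) * r10 + (1 / 4 : ℚ) * r11 + (1 / 4 : ℚ) * r12 + (-1 / 4 : ℚ) * r13))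
    + (((1 / 4 : ℚ) * r14 + (3 / 4 : ℚ) * r15 + (3 / 4 : ℚ) * r16 + (-1 / 4 : ℚ) * r17 + (1 / 2 : ℚ) * r18 + (-1 / 4 : ℚ) * r19 + (1 / 2 : ℚ) * r20)
    + ((-1 / 4 : ℚ) * r21 + (-1 / 4 : ℚ) * r22 + (-1 / 4 : ℚ) * r23 + (-1 / 4 : ℚ) * r24 + (-1 : ℚ) * r25 + (1 / 2 : ℚ) * z0)))
    + ((((-1 / 2 : ℚ) * z1 + (1 / 4 : ℚ) * z2 + (1 / 4 : ℚ) * z3 + (-1 / 2 : ℚ) * z4 + (1 / 4 : ℚ) * z5 + (-1 / 4 : ℚ) * z6 + (1 / 4 : ℚ) * z7)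
    + ((-1 / 4 : ℚ) * z8 + (-1 / 4 : ℚ) * z9 + (-1 / 4 : ℚ) * z10 + (-1 / 4 : ℚ) * z11 + (1 : ℚ) * z12 + (-1 / 4 : ℚ) * z13 + (-1 / 4 : ℚ) * z14))
    + (((1 / 2 : ℚ) * z15 + (1 / 4 : ℚ) * z16 + (1 / 4 : ℚ) * z17 + (-1 / 4 : ℚ) * z18 + (-1 / 2 : ℚ) * z19 + (1 / 4 : ℚ) * z20 + (1 / 4 : ℚ) * z21)
    + ((-3 / 4 : ℚ) * z22 + (1 / 4 : ℚ) * z23 + (-3 / 4 : ℚ) * z24 + (1 / 4 : ℚ) * z25 + (1 / 4 : ℚ) * z26 + (1 / 4 : ℚ) * z27)))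

theorem L_e2_g3_e1_e0_e0_e0 (S : Sys6 G C D) (n1 : ℕ) : C 2 (n1 + 3) 1 0 0 0 = 0 := by
  have r0 : G 0 0 0 0 2 1 (n1 + 3) = G (n1 + 3) 0 0 0 0 2 1 := S.z0' 2 1 (n1 + 3)
  have r1 : D (n1 + 3) 0 0 0 0 3 = G 3 0 (n1 + 3) 0 0 0 0 - G 0 0 (n1 + 3) 0 0 0 3 := S.al0' (n1 + 2) 0 0 0 3
  have r2 : D (n1 + 3) 0 0 0 2 1 = G 1 0 (n1 + 3) 0 0 0 2 - G 0 0 (n1 + 3) 0 0 2 1 := S.al0' (n1 + 2) 0 0 2 1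
  have r3 : D (n1 + 3) 0 0 0 3 0 = G 0 0 (n1 + 3) 0 0 0 3 - G 0 0 (n1 + 3) 0 0 3 0 := S.al0' (n1 + 2) 0 0 3 0
  have r4 : D (n1 + 3) 0 0 2 1 0 = G 0 0 (n1 + 3) 0 0 2 1 - G 0 0 (n1 + 3) 0 2 1 0 := S.al0' (n1 + 2) 0 2 1 0
  have r5 : D (n1 + 3) 0 0 3 0 0 = G 0 0 (n1 + 3) 0 0 3 0 - G 0 0 (n1 + 3) 0 3 0 0 := S.al0' (n1 + 2) 0 3 0 0
  have r6 : D (n1 + 3) 0 1 0 0 2 = G 2 0 (n1 + 3) 0 1 0 0 - G 1 0 (n1 + 3) 0 0 0 2 + G 0 1 (n1 + 3) 0 0 0 2 := S.al1' 0 (n1 + 2) 0 0 0 2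
  have r7 : D (n1 + 3) 0 2 1 0 0 = G 0 0 (n1 + 3) 0 2 1 0 - G 2 0 (n1 + 3) 0 1 0 0 + G 1 1 (n1 + 3) 0 1 0 0 := S.al1' 1 (n1 + 2) 0 1 0 0
  have r8 : D (n1 + 3) 0 3 0 0 0 = G 0 0 (n1 + 3) 0 3 0 0 - G 3 0 (n1 + 3) 0 0 0 0 + G 2 1 (n1 + 3) 0 0 0 0 := S.al1' 2 (n1 + 2) 0 0 0 0
  have r9 : D (n1 + 3) 1 0 0 0 2 = G 2 0 (n1 + 3) 1 0 0 0 - G 0 0 (n1 + 3) 1 0 0 2 := S.al0' (n1 + 2) 1 0 0 2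
  have r10 : D (n1 + 3) 1 0 0 2 0 = G 0 0 (n1 + 3) 1 0 0 2 - G 0 0 (n1 + 3) 1 0 2 0 := S.al0' (n1 + 2) 1 0 2 0
  have r11 : D (n1 + 3) 3 0 0 0 0 = G 0 0 (n1 + 3) 3 0 0 0 - G 0 0 (n1 + 3) 3 0 0 0 := S.al0' (n1 + 2) 3 0 0 0
  have r12 : G 0 (n1 + 3) 1 2 0 0 0 = G 2 0 (n1 + 3) 1 0 0 0 := S.z0 (n1 + 3) 1 2
  have r13 : C 1 0 0 1 (n1 + 3) 1 = G 1 0 1 (n1 + 3) 0 1 0 - G 0 1 (n1 + 3) 1 0 1 0 := S.al0 1 (n1 + 3) 1 0 0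
  have r14 : C 1 0 1 0 1 (n1 + 3) = G (n1 + 3) 1 0 1 0 1 0 - G 1 0 1 (n1 + 3) 0 1 0 + G 0 0 1 (n1 + 3) 1 1 0 := S.al1 0 0 1 (n1 + 3) 0 0
  have r15 : C 1 0 1 (n1 + 3) 1 0 = G 0 1 (n1 + 3) 1 0 1 0 - G 1 (n1 + 3) 1 0 0 1 0 + G 0 (n1 + 3) 1 0 1 1 0 := S.al1 0 (n1 + 3) 1 0 0 0
  have r16 : C 1 0 (n1 + 3) 1 0 1 = G 1 (n1 + 3) 1 0 0 1 0 - G (n1 + 3) 1 0 1 0 1 0 + G (n1 + 2) 1 0 1 1 1 0 := S.al1 (n1 + 2) 1 0 1 0 0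
  have r17 : C 2 0 0 0 0 (n1 + 4) = G (n1 + 4) 0 0 0 0 2 0 - G 0 0 0 (n1 + 4) 0 2 0 := S.al0 0 0 (n1 + 4) 1 0
  have r18 : C 2 0 0 0 (n1 + 3) 1 = G 1 0 0 (n1 + 3) 0 2 0 - G 0 0 (n1 + 3) 1 0 2 0 := S.al0 0 (n1 + 3) 1 1 0
  have r19 : C 2 0 0 0 (n1 + 4) 0 = G 0 0 0 (n1 + 4) 0 2 0 - G 0 0 (n1 + 4) 0 0 2 0 := S.al0 0 (n1 + 4) 0 1 0
  have r20 : C 2 0 0 (n1 + 3) 1 0 = G 0 0 (n1 + 3) 1 0 2 0 - G 0 (n1 + 3) 1 0 0 2 0 := S.al0 (n1 + 3) 1 0 1 0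
  have r21 : C 2 0 0 (n1 + 4) 0 0 = G 0 0 (n1 + 4) 0 0 2 0 - G 0 (n1 + 4) 0 0 0 2 0 := S.al0 (n1 + 4) 0 0 1 0
  have r22 : C 2 0 1 0 0 (n1 + 3) = G (n1 + 3) 1 0 0 0 2 0 - G 1 0 0 (n1 + 3) 0 2 0 + G 0 0 0 (n1 + 3) 1 2 0 := S.al1 0 0 0 (n1 + 3) 1 0
  have r23 : C 2 0 (n1 + 3) 1 0 0 = G 0 (n1 + 3) 1 0 0 2 0 - G (n1 + 3) 1 0 0 0 2 0 + G (n1 + 2) 1 0 0 1 2 0 := S.al1 (n1 + 2) 1 0 0 1 0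
  have r24 : C 2 0 (n1 + 4) 0 0 0 = G 0 (n1 + 4) 0 0 0 2 0 - G (n1 + 4) 0 0 0 0 2 0 + G (n1 + 3) 0 0 0 1 2 0 := S.al1 (n1 + 3) 0 0 0 1 0
  have r25 : C 2 1 0 0 0 (n1 + 3) = G (n1 + 3) 0 0 0 0 2 1 - G 0 0 0 (n1 + 3) 0 2 1 := S.al0 0 0 (n1 + 3) 1 1
  have r26 : C 2 1 0 0 (n1 + 3) 0 = G 0 0 0 (n1 + 3) 0 2 1 - G 0 0 (n1 + 3) 0 0 2 1 := S.al0 0 (n1 + 3) 0 1 1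
  have r27 : C 2 (n1 + 4) 0 0 0 0 = G 0 0 0 0 0 2 (n1 + 4) - G 0 0 0 0 0 2 (n1 + 4) := S.al0 0 0 0 1 (n1 + 4)
  have z0 : G 0 0 0 0 2 1 (n1 + 3) = 0 := S.van 0 0 0 0 0 0 (n1 + 3)
  have z1 : G (n1 + 3) 0 0 0 1 2 0 = G 0 0 0 (n1 + 3) 1 2 0 := S.r3 (n1 + 3) 0 0 0 1 0
  have z2 : G 1 1 (n1 + 3) 0 1 0 0 = G 0 1 (n1 + 3) 0 1 1 0 := S.m1 1 (n1 + 2) 0 1 0 0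
  have z3 : G 0 1 (n1 + 3) 0 1 1 0 = G 0 0 1 (n1 + 3) 1 1 0 := S.r1 0 1 (n1 + 3) 0 0 0
  have z4 : G 0 0 (n1 + 3) 0 2 1 0 = 0 := S.van 0 0 (n1 + 3) 0 0 0 0
  have z5 : G 2 1 (n1 + 3) 0 0 0 0 = G 0 1 (n1 + 3) 0 0 0 2 := S.m3 2 (n1 + 2) 0 0 0 0
  have z6 : G 0 (n1 + 3) 1 0 0 2 0 = 0 := S.van' 0 (n1 + 1) 0 0 0 2 0
  have z7 : G 0 (n1 + 3) 1 0 1 1 0 = 0 := S.van' 0 (n1 + 1) 0 0 1 1 0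
  have z8 : G 0 (n1 + 3) 1 2 0 0 0 = 0 := S.van' 0 (n1 + 1) 0 2 0 0 0
  have z9 : G (n1 + 2) 1 0 0 1 2 0 = G 0 (n1 + 2) 1 0 1 2 0 := S.r1 (n1 + 2) 1 0 0 1 0
  have z10 : G 0 (n1 + 2) 1 0 1 2 0 = 0 := S.van' 0 n1 0 0 1 2 0
  have z11 : G (n1 + 2) 1 0 1 1 1 0 = G 1 (n1 + 2) 1 0 1 1 0 := S.r1 (n1 + 2) 1 0 1 0 0
  have z12 : G 1 (n1 + 2) 1 0 1 1 0 = 0 := S.van' 1 n1 0 0 1 1 0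
  have z13 : D (n1 + 3) 0 0 0 3 0 = D (n1 + 3) 0 0 0 0 3 := S.d4 (n1 + 3) 0 0 0 3 0
  have z14 : D (n1 + 3) 0 0 3 0 0 = D (n1 + 3) 0 0 0 0 3 := S.d3 (n1 + 3) 0 0 3 0 0
  have z15 : D (n1 + 3) 0 3 0 0 0 = D (n1 + 3) 0 0 0 0 3 := S.d2 (n1 + 3) 0 3 0 0 0
  have z16 : D (n1 + 3) 3 0 0 0 0 = D (n1 + 3) 0 0 0 0 3 := S.d1 (n1 + 3) 3 0 0 0 0
  have z17 : D (n1 + 3) 0 0 2 1 0 = D (n1 + 3) 0 0 0 2 1 := S.d4 (n1 + 3) 0 0 2 1 0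
  have z18 : D (n1 + 3) 0 2 1 0 0 = D (n1 + 3) 0 0 0 2 1 := S.d3 (n1 + 3) 0 2 1 0 0
  have z19 : D (n1 + 3) 1 0 0 0 2 = D (n1 + 3) 0 0 0 2 1 := S.d1 (n1 + 3) 1 0 0 0 2
  have z20 : D (n1 + 3) 1 0 0 2 0 = D (n1 + 3) 0 1 0 0 2 := S.d4 (n1 + 3) 1 0 0 2 0
  have z21 : C 1 0 0 1 (n1 + 3) 1 = 0 := (S.c2 1 0 0 1 (n1 + 3) 1).trans (S_p3a S 0 0 (n1 + 2) 0)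
  have z22 : C 1 0 1 (n1 + 3) 1 0 = 0 := (S.c1 1 0 1 (n1 + 3) 1 0).trans (S_p3a S 0 0 (n1 + 2) 0)
  have z23 : C 1 0 1 0 1 (n1 + 3) = 0 := (S.c3 1 0 1 0 1 (n1 + 3)).trans (S_p3b S 0 0 (n1 + 2) 0)
  have z24 : C 1 0 (n1 + 3) 1 0 1 = 0 := (S.c1 1 0 (n1 + 3) 1 0 1).trans (S_p3b S 0 (n1 + 2) 0 0)
  have z25 : C 2 0 0 0 (n1 + 4) 0 = C 2 0 0 0 0 (n1 + 4) := S.c4 2 0 0 0 (n1 + 4) 0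
  have z26 : C 2 0 0 (n1 + 4) 0 0 = C 2 0 0 0 0 (n1 + 4) := S.c3 2 0 0 (n1 + 4) 0 0
  have z27 : C 2 0 (n1 + 4) 0 0 0 = C 2 0 0 0 0 (n1 + 4) := S.c2 2 0 (n1 + 4) 0 0 0
  have z28 : C 2 (n1 + 4) 0 0 0 0 = C 2 0 0 0 0 (n1 + 4) := S.c1 2 (n1 + 4) 0 0 0 0
  have z29 : C 2 0 0 (n1 + 3) 1 0 = C 2 0 0 0 (n1 + 3) 1 := S.c4 2 0 0 (n1 + 3) 1 0
  have z30 : C 2 0 (n1 + 3) 1 0 0 = C 2 0 0 0 (n1 + 3) 1 := S.c3 2 0 (n1 + 3) 1 0 0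
  have z31 : C 2 1 0 0 0 (n1 + 3) = C 2 0 0 0 (n1 + 3) 1 := S.c1 2 1 0 0 0 (n1 + 3)
  have z32 : C 2 (n1 + 3) 1 0 0 0 = C 2 0 0 0 (n1 + 3) 1 := S.c2 2 (n1 + 3) 1 0 0 0
  have z33 : C 2 1 0 0 (n1 + 3) 0 = C 2 0 1 0 0 (n1 + 3) := S.c4 2 1 0 0 (n1 + 3) 0
  linear_combination ((((2 / 3 : ℚ) * r0 + (-1 / 3 : ℚ) * r1 + (1 / 3 : ℚ) * r2 + (-1 / 3 : ℚ) * r3 + (-1 / 3 : ℚ) * r4 + (-1 / 3 : ℚ) * r5 + (1 / 3 : ℚ) * r6 + (1 / 3 : ℚ) * r7)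
    + ((-1 / 3 : ℚ) * r8 + (-1 / 3 : ℚ) * r9 + (-1 / 3 : ℚ) * r10 + (4 / 3 : ℚ) * r11 + (1 / 3 : ℚ) * r12 + (-1 / 3 : ℚ) * r13 + (-1 / 3 : ℚ) * r14 + (-1 / 3 : ℚ) * r15))
    + (((-1 / 3 : ℚ) * r16 + (-2 / 3 : ℚ) * r17 + (2 / 3 : ℚ) * r18 + (-2 / 3 : ℚ) * r19 + (1 / 3 : ℚ) * r20 + (-2 / 3 : ℚ) * r21 + (2 / 3 : ℚ) * r22 + (2 / 3 : ℚ) * r23)
    + ((-2 / 3 : ℚ) * r24 + (-2 / 3 : ℚ) * r25 + (-2 / 3 : ℚ) * r26 + (8 / 3 : ℚ) * r27 + (-2 / 3 : ℚ) * z0 + (-2 / 3 : ℚ) * z1 + (1 / 3 : ℚ) * z2)))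
    + ((((1 / 3 : ℚ) * z3 + (2 / 3 : ℚ) * z4 + (-1 / 3 : ℚ) * z5 + (1 / 3 : ℚ) * z6 + (-1 / 3 : ℚ) * z7 + (-1 / 3 : ℚ) * z8 + (2 / 3 : ℚ) * z9 + (2 / 3 : ℚ) * z10)
    + ((-1 / 3 : ℚ) * z11 + (-1 / 3 : ℚ) * z12 + (1 / 3 : ℚ) * z13 + (1 / 3 : ℚ) * z14 + (1 / 3 : ℚ) * z15 + (-4 / 3 : ℚ) * z16 + (1 / 3 : ℚ) * z17 + (-1 / 3 : ℚ) * z18))
    + (((1 / 3 : ℚ) * z19 + (1 / 3 : ℚ) * z20 + (1 / 3 : ℚ) * z21 + (1 / 3 : ℚ) * z22 + (1 / 3 : ℚ) * z23 + (1 / 3 : ℚ) * z24 + (2 / 3 : ℚ) * z25 + (2 / 3 : ℚ) * z26)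
    + ((2 / 3 : ℚ) * z27 + (-8 / 3 : ℚ) * z28 + (-1 / 3 : ℚ) * z29 + (-2 / 3 : ℚ) * z30 + (2 / 3 : ℚ) * z31 + (1 : ℚ) * z32 + (2 / 3 : ℚ) * z33)))

theorem L_e1_g3_e2_e0_e0_e0 (S : Sys6 G C D) (n1 : ℕ) : C 1 (n1 + 3) 2 0 0 0 = 0 := by
  have r0 : D (n1 + 3) 1 0 2 0 0 = G 0 0 (n1 + 3) 1 0 2 0 - G 0 0 (n1 + 3) 1 2 0 0 := S.al0' (n1 + 2) 1 2 0 0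
  have r1 : D (n1 + 3) 1 2 0 0 0 = G 0 0 (n1 + 3) 1 2 0 0 - G 2 0 (n1 + 3) 1 0 0 0 + G 1 1 (n1 + 3) 1 0 0 0 := S.al1' 1 (n1 + 2) 1 0 0 0
  have r2 : D (n1 + 3) 2 0 0 0 1 = G 1 0 (n1 + 3) 2 0 0 0 - G 0 0 (n1 + 3) 2 0 0 1 := S.al0' (n1 + 2) 2 0 0 1
  have r3 : D (n1 + 3) 2 0 0 1 0 = G 0 0 (n1 + 3) 2 0 0 1 - G 0 0 (n1 + 3) 2 0 1 0 := S.al0' (n1 + 2) 2 0 1 0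
  have r4 : G 0 (n1 + 3) 1 2 0 0 0 = G 2 0 (n1 + 3) 1 0 0 0 := S.z0 (n1 + 3) 1 2
  have r5 : G 0 (n1 + 3) 2 1 0 0 0 = G 1 0 (n1 + 3) 2 0 0 0 := S.z0 (n1 + 3) 2 1
  have r6 : C 1 0 0 (n1 + 3) 2 0 = G 0 0 (n1 + 3) 2 0 1 0 - G 0 (n1 + 3) 2 0 0 1 0 := S.al0 (n1 + 3) 2 0 0 0
  have r7 : C 1 0 1 (n1 + 3) 1 0 = G 0 1 (n1 + 3) 1 0 1 0 - G 1 (n1 + 3) 1 0 0 1 0 + G 0 (n1 + 3) 1 0 1 1 0 := S.al1 0 (n1 + 3) 1 0 0 0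
  have r8 : C 2 0 0 (n1 + 3) 1 0 = G 0 0 (n1 + 3) 1 0 2 0 - G 0 (n1 + 3) 1 0 0 2 0 := S.al0 (n1 + 3) 1 0 1 0
  have z0 : G 1 1 (n1 + 3) 1 0 0 0 = G 0 1 (n1 + 3) 1 0 0 1 := S.m3 1 (n1 + 2) 1 0 0 0
  have z1 : G 0 1 (n1 + 3) 1 0 1 0 = G 0 1 (n1 + 3) 1 0 0 1 := S.m1 0 (n1 + 2) 1 0 1 0
  have z2 : G 0 (n1 + 3) 1 0 0 2 0 = 0 := S.van' 0 (n1 + 1) 0 0 0 2 0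
  have z3 : G 0 (n1 + 3) 1 0 1 1 0 = 0 := S.van' 0 (n1 + 1) 0 0 1 1 0
  have z4 : G 0 (n1 + 3) 1 2 0 0 0 = 0 := S.van' 0 (n1 + 1) 0 2 0 0 0
  have z5 : G 0 (n1 + 3) 2 0 0 1 0 = 0 := S.van' 0 (n1 + 1) 1 0 0 1 0
  have z6 : G 0 (n1 + 3) 2 1 0 0 0 = 0 := S.van' 0 (n1 + 1) 1 1 0 0 0
  have z7 : G 1 (n1 + 3) 1 0 0 1 0 = 0 := S.van' 1 (n1 + 1) 0 0 0 1 0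
  have z8 : D (n1 + 3) 2 0 0 1 0 = D (n1 + 3) 1 0 2 0 0 := S.d3 (n1 + 3) 2 0 0 1 0
  have z9 : D (n1 + 3) 2 0 0 0 1 = D (n1 + 3) 1 2 0 0 0 := S.d4 (n1 + 3) 2 0 0 0 1
  have z10 : C 1 (n1 + 3) 2 0 0 0 = C 1 0 0 (n1 + 3) 2 0 := S.c3 1 (n1 + 3) 2 0 0 0
  have z11 : C 1 0 1 (n1 + 3) 1 0 = 0 := (S.c1 1 0 1 (n1 + 3) 1 0).trans (S_p3a S 0 0 (n1 + 2) 0)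
  have z12 : C 2 0 0 (n1 + 3) 1 0 = 0 := (S.c2 2 0 0 (n1 + 3) 1 0).trans (L_e2_g3_e1_e0_e0_e0 S n1)
  linear_combination (((-1 : ℚ) * r0 + (-1 : ℚ) * r1 + (1 : ℚ) * r2 + (1 : ℚ) * r3 + (-1 : ℚ) * r4 + (-1 : ℚ) * r5)
    + ((1 : ℚ) * r6 + (1 : ℚ) * r7 + (1 : ℚ) * r8 + (-1 : ℚ) * z0 + (1 : ℚ) * z1))
    + (((-1 : ℚ) * z2 + (1 : ℚ) * z3 + (1 : ℚ) * z4 + (-1 : ℚ) * z5 + (1 : ℚ) * z6 + (-1 : ℚ) * z7)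
    + ((-1 : ℚ) * z8 + (-1 : ℚ) * z9 + (1 : ℚ) * z10 + (-1 : ℚ) * z11 + (-1 : ℚ) * z12))

theorem L_e1_e2_g3_e0_e0_e0 (S : Sys6 G C D) (n2 : ℕ) : C 1 2 (n2 + 3) 0 0 0 = 0 := by
  have r0 : D 1 0 (n2 + 3) 1 1 0 = G 0 0 1 0 (n2 + 3) 1 1 - G (n2 + 3) 0 1 0 1 1 0 + G (n2 + 2) 1 1 0 1 1 0 := S.al1' (n2 + 2) 0 0 1 1 0
  have r1 : D (n2 + 2) 0 1 1 1 1 = G 1 0 (n2 + 2) 0 1 1 1 - G 1 0 (n2 + 2) 0 1 1 1 + G 0 1 (n2 + 2) 0 1 1 1 := S.al1' 0 (n2 + 1) 0 1 1 1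
  have r2 : D (n2 + 2) 0 2 1 1 0 = G 0 0 (n2 + 2) 0 2 1 1 - G 2 0 (n2 + 2) 0 1 1 0 + G 1 1 (n2 + 2) 0 1 1 0 := S.al1' 1 (n2 + 1) 0 1 1 0
  have r3 : C 1 0 0 2 0 (n2 + 3) = G (n2 + 3) 0 2 0 0 1 0 - G 0 2 0 (n2 + 3) 0 1 0 := S.al0 2 0 (n2 + 3) 0 0
  have r4 : C 1 0 0 (n2 + 3) 0 2 = G 2 0 (n2 + 3) 0 0 1 0 - G 0 (n2 + 3) 0 2 0 1 0 := S.al0 (n2 + 3) 0 2 0 0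
  have r5 : C 1 0 2 0 (n2 + 3) 0 = G 0 2 0 (n2 + 3) 0 1 0 - G 2 0 (n2 + 3) 0 0 1 0 + G 1 0 (n2 + 3) 0 1 1 0 := S.al1 1 0 (n2 + 3) 0 0 0
  have r6 : C 1 0 (n2 + 3) 0 2 0 = G 0 (n2 + 3) 0 2 0 1 0 - G (n2 + 3) 0 2 0 0 1 0 + G (n2 + 2) 0 2 0 1 1 0 := S.al1 (n2 + 2) 0 2 0 0 0
  have r7 : C 1 (n2 + 3) 0 0 0 2 = G 2 0 0 0 0 1 (n2 + 3) - G 0 0 0 2 0 1 (n2 + 3) := S.al0 0 0 2 0 (n2 + 3)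
  have r8 : C 1 (n2 + 3) 0 0 2 0 = G 0 0 0 2 0 1 (n2 + 3) - G 0 0 2 0 0 1 (n2 + 3) := S.al0 0 2 0 0 (n2 + 3)
  have r9 : C 1 (n2 + 3) 0 1 0 1 = G 1 0 1 0 0 1 (n2 + 3) - G 0 1 0 1 0 1 (n2 + 3) := S.al0 1 0 1 0 (n2 + 3)
  have r10 : C 1 (n2 + 3) 0 2 0 0 = G 0 0 2 0 0 1 (n2 + 3) - G 0 2 0 0 0 1 (n2 + 3) := S.al0 2 0 0 0 (n2 + 3)
  have r11 : C 1 (n2 + 3) 1 0 1 0 = G 0 1 0 1 0 1 (n2 + 3) - G 1 0 1 0 0 1 (n2 + 3) + G 0 0 1 0 1 1 (n2 + 3) := S.al1 0 0 1 0 0 (n2 + 3)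
  have r12 : C 1 (n2 + 3) 2 0 0 0 = G 0 2 0 0 0 1 (n2 + 3) - G 2 0 0 0 0 1 (n2 + 3) + G 1 0 0 0 1 1 (n2 + 3) := S.al1 1 0 0 0 0 (n2 + 3)
  have z0 : G 1 0 0 0 1 1 (n2 + 3) = G 0 0 0 1 1 1 (n2 + 3) := S.r3 1 0 0 0 0 (n2 + 3)
  have z1 : G 0 0 1 0 1 1 (n2 + 3) = G 0 0 0 1 1 1 (n2 + 3) := S.r1 0 0 1 0 0 (n2 + 3)
  have z2 : G 0 0 1 0 (n2 + 3) 1 1 = 0 := S.van 0 0 1 0 (n2 + 1) 0 1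
  have z3 : G 0 0 (n2 + 2) 0 2 1 1 = 0 := S.van 0 0 (n2 + 2) 0 0 0 1
  have z4 : G 1 1 (n2 + 2) 0 1 1 0 = G 0 1 (n2 + 2) 0 1 1 1 := S.m1 1 (n2 + 1) 0 1 1 0
  have z5 : G (n2 + 3) 0 1 0 1 1 0 = G 0 1 0 (n2 + 3) 1 1 0 := S.r3 (n2 + 3) 0 1 0 0 0
  have z6 : G 1 0 (n2 + 3) 0 1 1 0 = G 0 1 0 (n2 + 3) 1 1 0 := S.r1 1 0 (n2 + 3) 0 0 0
  have z7 : G (n2 + 2) 0 2 0 1 1 0 = G 0 2 0 (n2 + 2) 1 1 0 := S.r3 (n2 + 2) 0 2 0 0 0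
  have z8 : G 2 0 (n2 + 2) 0 1 1 0 = G 0 2 0 (n2 + 2) 1 1 0 := S.r1 2 0 (n2 + 2) 0 0 0
  have z9 : G (n2 + 2) 1 1 0 1 1 0 = G 0 1 1 0 (n2 + 2) 1 1 := S.m1 (n2 + 2) 0 0 1 1 0
  have z10 : G 0 1 1 0 (n2 + 2) 1 1 = 0 := S.van 0 1 1 0 n2 0 1
  have z11 : D 1 0 (n2 + 3) 1 1 0 = 0 := (S.d1 1 0 (n2 + 3) 1 1 0).trans (S_p3a S.mirror 0 (n2 + 2) 0 0)
  have z12 : D (n2 + 2) 0 1 1 1 1 = 0 := (S.d1 (n2 + 2) 0 1 1 1 1).trans (S_p4 S.mirror (n2 + 1) 0 0 0 0)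
  have z13 : D (n2 + 2) 0 2 1 1 0 = 0 := (S.d1 (n2 + 2) 0 2 1 1 0).trans (S_p3a S.mirror (n2 + 1) 1 0 0)
  have z14 : C 1 0 2 0 (n2 + 3) 0 = C 1 0 0 2 0 (n2 + 3) := S.c4 1 0 2 0 (n2 + 3) 0
  have z15 : C 1 (n2 + 3) 0 0 2 0 = C 1 0 0 2 0 (n2 + 3) := S.c1 1 (n2 + 3) 0 0 2 0
  have z16 : C 1 0 (n2 + 3) 0 2 0 = C 1 0 0 (n2 + 3) 0 2 := S.c4 1 0 (n2 + 3) 0 2 0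
  have z17 : C 1 (n2 + 3) 0 2 0 0 = C 1 0 0 (n2 + 3) 0 2 := S.c3 1 (n2 + 3) 0 2 0 0
  have z18 : C 1 2 (n2 + 3) 0 0 0 = C 1 (n2 + 3) 0 0 0 2 := S.c1 1 2 (n2 + 3) 0 0 0
  have z19 : C 1 (n2 + 3) 0 1 0 1 = 0 := (S.c4 1 (n2 + 3) 0 1 0 1).trans (S_p3b S 0 0 (n2 + 2) 0)
  have z20 : C 1 (n2 + 3) 1 0 1 0 = 0 := S_p3b S 0 (n2 + 2) 0 0
  have z21 : C 1 (n2 + 3) 2 0 0 0 = 0 := L_e1_g3_e2_e0_e0_e0 S n2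
  linear_combination ((((-1 / 2 : ℚ) * r0 + (1 / 2 : ℚ) * r1 + (-1 / 2 : ℚ) * r2 + (-1 / 2 : ℚ) * r3 + (-1 / 2 : ℚ) * r4)
    + ((-1 / 2 : ℚ) * r5 + (-1 / 2 : ℚ) * r6 + (1 : ℚ) * r7 + (1 : ℚ) * r8))
    + (((-1 : ℚ) * r9 + (1 : ℚ) * r10 + (-1 : ℚ) * r11 + (1 : ℚ) * r12 + (1 : ℚ) * z0)
    + ((-1 : ℚ) * z1 + (-1 / 2 : ℚ) * z2 + (-1 / 2 : ℚ) * z3 + (-1 / 2 : ℚ) * z4)))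
    + ((((1 / 2 : ℚ) * z5 + (-1 / 2 : ℚ) * z6 + (-1 / 2 : ℚ) * z7 + (1 / 2 : ℚ) * z8 + (-1 / 2 : ℚ) * z9)
    + ((-1 / 2 : ℚ) * z10 + (1 / 2 : ℚ) * z11 + (-1 / 2 : ℚ) * z12 + (1 / 2 : ℚ) * z13))
    + ((1 / 2 : ℚ) * z14 + (-1 : ℚ) * z15 + (1 / 2 : ℚ) * z16 + (-1 : ℚ) * z17 + (1 : ℚ) * z18 + (1 : ℚ) * z19 + (1 : ℚ) * z20 + (-1 : ℚ) * z21))

theorem L_g3_e1_e2_e0_e0_e0 (S : Sys6 G C D) (n6 : ℕ) : C (n6 + 3) 1 2 0 0 0 = 0 := by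
  have r0 : G 0 0 0 0 (n6 + 3) 1 2 = G 2 0 0 0 0 (n6 + 3) 1 := S.z0' (n6 + 3) 1 2
  have r1 : D 1 0 1 1 (n6 + 3) 0 = G 0 0 1 0 1 1 (n6 + 3) - G 1 0 1 0 1 (n6 + 3) 0 + G 0 1 1 0 1 (n6 + 3) 0 := S.al1' 0 0 0 1 (n6 + 3) 0
  have r2 : D 2 0 0 (n6 + 3) 1 0 = G 0 0 2 0 0 (n6 + 3) 1 - G 0 0 2 0 (n6 + 3) 1 0 := S.al0' 1 0 (n6 + 3) 1 0
  have r3 : C 1 (n6 + 3) 0 1 0 1 = G 1 0 1 0 0 1 (n6 + 3) - G 0 1 0 1 0 1 (n6 + 3) := S.al0 1 0 1 0 (n6 + 3)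
  have r4 : C 1 (n6 + 3) 1 0 1 0 = G 0 1 0 1 0 1 (n6 + 3) - G 1 0 1 0 0 1 (n6 + 3) + G 0 0 1 0 1 1 (n6 + 3) := S.al1 0 0 1 0 0 (n6 + 3)
  have r5 : C (n6 + 3) 0 0 0 1 2 = G 2 0 0 1 0 (n6 + 3) 0 - G 0 0 1 2 0 (n6 + 3) 0 := S.al0 0 1 2 (n6 + 2) 0
  have r6 : C (n6 + 3) 0 0 0 2 1 = G 1 0 0 2 0 (n6 + 3) 0 - G 0 0 2 1 0 (n6 + 3) 0 := S.al0 0 2 1 (n6 + 2) 0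
  have r7 : C (n6 + 3) 0 0 1 0 2 = G 2 0 1 0 0 (n6 + 3) 0 - G 0 1 0 2 0 (n6 + 3) 0 := S.al0 1 0 2 (n6 + 2) 0
  have r8 : C (n6 + 3) 0 0 1 2 0 = G 0 0 1 2 0 (n6 + 3) 0 - G 0 1 2 0 0 (n6 + 3) 0 := S.al0 1 2 0 (n6 + 2) 0
  have r9 : C (n6 + 3) 0 0 2 0 1 = G 1 0 2 0 0 (n6 + 3) 0 - G 0 2 0 1 0 (n6 + 3) 0 := S.al0 2 0 1 (n6 + 2) 0
  have r10 : C (n6 + 3) 0 0 2 1 0 = G 0 0 2 1 0 (n6 + 3) 0 - G 0 2 1 0 0 (n6 + 3) 0 := S.al0 2 1 0 (n6 + 2) 0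
  have r11 : C (n6 + 3) 0 1 0 0 2 = G 2 1 0 0 0 (n6 + 3) 0 - G 1 0 0 2 0 (n6 + 3) 0 + G 0 0 0 2 1 (n6 + 3) 0 := S.al1 0 0 0 2 (n6 + 2) 0
  have r12 : C (n6 + 3) 0 1 0 2 0 = G 0 1 0 2 0 (n6 + 3) 0 - G 1 0 2 0 0 (n6 + 3) 0 + G 0 0 2 0 1 (n6 + 3) 0 := S.al1 0 0 2 0 (n6 + 2) 0
  have r13 : C (n6 + 3) 0 1 2 0 0 = G 0 1 2 0 0 (n6 + 3) 0 - G 1 2 0 0 0 (n6 + 3) 0 + G 0 2 0 0 1 (n6 + 3) 0 := S.al1 0 2 0 0 (n6 + 2) 0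
  have r14 : C (n6 + 3) 0 2 0 0 1 = G 1 2 0 0 0 (n6 + 3) 0 - G 2 0 0 1 0 (n6 + 3) 0 + G 1 0 0 1 1 (n6 + 3) 0 := S.al1 1 0 0 1 (n6 + 2) 0
  have r15 : C (n6 + 3) 0 2 0 1 0 = G 0 2 0 1 0 (n6 + 3) 0 - G 2 0 1 0 0 (n6 + 3) 0 + G 1 0 1 0 1 (n6 + 3) 0 := S.al1 1 0 1 0 (n6 + 2) 0
  have r16 : C (n6 + 3) 0 2 1 0 0 = G 0 2 1 0 0 (n6 + 3) 0 - G 2 1 0 0 0 (n6 + 3) 0 + G 1 1 0 0 1 (n6 + 3) 0 := S.al1 1 1 0 0 (n6 + 2) 0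
  have r17 : C (n6 + 3) 1 0 0 0 2 = G 2 0 0 0 0 (n6 + 3) 1 - G 0 0 0 2 0 (n6 + 3) 1 := S.al0 0 0 2 (n6 + 2) 1
  have r18 : C (n6 + 3) 1 0 0 2 0 = G 0 0 0 2 0 (n6 + 3) 1 - G 0 0 2 0 0 (n6 + 3) 1 := S.al0 0 2 0 (n6 + 2) 1
  have z0 : G 0 0 0 0 (n6 + 3) 1 2 = 0 := S.van 0 0 0 0 (n6 + 1) 0 2
  have z1 : G 0 2 0 0 1 (n6 + 3) 0 = G 0 0 0 2 1 (n6 + 3) 0 := S.r2 0 2 0 0 (n6 + 2) 0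
  have z2 : G 0 0 2 0 1 (n6 + 3) 0 = G 0 0 0 2 1 (n6 + 3) 0 := S.r1 0 0 2 0 (n6 + 2) 0
  have z3 : G 0 0 2 0 (n6 + 3) 1 0 = 0 := S.van 0 0 2 0 (n6 + 1) 0 0
  have z4 : G 1 0 0 1 1 (n6 + 3) 0 = G 0 0 1 1 1 (n6 + 3) 0 := S.r3 1 0 0 1 (n6 + 2) 0
  have z5 : G 1 1 0 0 1 (n6 + 3) 0 = G 0 0 1 1 1 (n6 + 3) 0 := S.r2 1 1 0 0 (n6 + 2) 0
  have z6 : G 0 1 1 0 1 (n6 + 3) 0 = G 0 0 1 1 1 (n6 + 3) 0 := S.r1 0 1 1 0 (n6 + 2) 0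
  have z7 : D 1 0 1 1 (n6 + 3) 0 = 0 := (S.d1 1 0 1 1 (n6 + 3) 0).trans (S_p3a S.mirror 0 0 0 (n6 + 2))
  have z8 : D 2 0 0 (n6 + 3) 1 0 = 0 := (S.d2 2 0 0 (n6 + 3) 1 0).trans (L_e2_g3_e1_e0_e0_e0 S.mirror n6)
  have z9 : C 1 (n6 + 3) 0 1 0 1 = 0 := (S.c4 1 (n6 + 3) 0 1 0 1).trans (S_p3b S 0 0 (n6 + 2) 0)
  have z10 : C 1 (n6 + 3) 1 0 1 0 = 0 := S_p3b S 0 (n6 + 2) 0 0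
  have z11 : C (n6 + 3) 0 0 1 2 0 = C (n6 + 3) 0 0 0 1 2 := S.c4 (n6 + 3) 0 0 1 2 0
  have z12 : C (n6 + 3) 0 1 2 0 0 = C (n6 + 3) 0 0 0 1 2 := S.c3 (n6 + 3) 0 1 2 0 0
  have z13 : C (n6 + 3) 1 2 0 0 0 = C (n6 + 3) 0 0 0 1 2 := S.c2 (n6 + 3) 1 2 0 0 0
  have z14 : C (n6 + 3) 0 0 2 1 0 = C (n6 + 3) 0 0 0 2 1 := S.c4 (n6 + 3) 0 0 2 1 0
  have z15 : C (n6 + 3) 0 2 1 0 0 = C (n6 + 3) 0 0 0 2 1 := S.c3 (n6 + 3) 0 2 1 0 0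
  have z16 : C (n6 + 3) 1 0 0 0 2 = C (n6 + 3) 0 0 0 2 1 := S.c1 (n6 + 3) 1 0 0 0 2
  have z17 : C (n6 + 3) 0 1 0 2 0 = C (n6 + 3) 0 0 1 0 2 := S.c4 (n6 + 3) 0 1 0 2 0
  have z18 : C (n6 + 3) 0 2 0 0 1 = C (n6 + 3) 0 0 1 0 2 := S.c2 (n6 + 3) 0 2 0 0 1
  have z19 : C (n6 + 3) 0 1 0 0 2 = C (n6 + 3) 0 0 2 0 1 := S.c2 (n6 + 3) 0 1 0 0 2
  have z20 : C (n6 + 3) 0 2 0 1 0 = C (n6 + 3) 0 0 2 0 1 := S.c4 (n6 + 3) 0 2 0 1 0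
  have z21 : C (n6 + 3) 1 0 0 2 0 = C (n6 + 3) 0 0 2 0 1 := S.c1 (n6 + 3) 1 0 0 2 0
  linear_combination ((((-1 / 2 : ℚ) * r0 + (-1 / 6 : ℚ) * r1 + (1 / 2 : ℚ) * r2 + (1 / 6 : ℚ) * r3 + (1 / 6 : ℚ) * r4 + (1 / 3 : ℚ) * r5)
    + ((-1 / 6 : ℚ) * r6 + (-1 / 6 : ℚ) * r7 + (1 / 3 : ℚ) * r8 + (-1 / 6 : ℚ) * r9 + (-1 / 6 : ℚ) * r10))
    + (((-1 / 6 : ℚ) * r11 + (-1 / 6 : ℚ) * r12 + (1 / 3 : ℚ) * r13 + (1 / 3 : ℚ) * r14 + (-1 / 6 : ℚ) * r15)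
    + ((-1 / 6 : ℚ) * r16 + (1 / 2 : ℚ) * r17 + (1 / 2 : ℚ) * r18 + (1 / 2 : ℚ) * z0 + (1 / 3 : ℚ) * z1)))
    + ((((-1 / 6 : ℚ) * z2 + (-1 / 2 : ℚ) * z3 + (1 / 3 : ℚ) * z4 + (-1 / 6 : ℚ) * z5 + (-1 / 6 : ℚ) * z6)
    + ((1 / 6 : ℚ) * z7 + (-1 / 2 : ℚ) * z8 + (-1 / 6 : ℚ) * z9 + (-1 / 6 : ℚ) * z10 + (-1 / 3 : ℚ) * z11))
    + (((-1 / 3 : ℚ) * z12 + (1 : ℚ) * z13 + (1 / 6 : ℚ) * z14 + (1 / 6 : ℚ) * z15 + (-1 / 2 : ℚ) * z16)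
    + ((1 / 6 : ℚ) * z17 + (-1 / 3 : ℚ) * z18 + (1 / 6 : ℚ) * z19 + (1 / 6 : ℚ) * z20 + (-1 / 2 : ℚ) * z21)))

theorem L_g3_e2_e1_e0_e0_e0 (S : Sys6 G C D) (n6 : ℕ) : C (n6 + 3) 2 1 0 0 0 = 0 := by
  have r0 : G 0 0 0 0 (n6 + 3) 1 2 = G 2 0 0 0 0 (n6 + 3) 1 := S.z0' (n6 + 3) 1 2
  have r1 : D 1 0 1 1 (n6 + 3) 0 = G 0 0 1 0 1 1 (n6 + 3) - G 1 0 1 0 1 (n6 + 3) 0 + G 0 1 1 0 1 (n6 + 3) 0 := S.al1' 0 0 0 1 (n6 + 3) 0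
  have r2 : D 1 0 1 (n6 + 3) 1 0 = G 0 0 1 0 1 (n6 + 3) 1 - G 1 0 1 0 (n6 + 3) 1 0 + G 0 1 1 0 (n6 + 3) 1 0 := S.al1' 0 0 0 (n6 + 3) 1 0
  have r3 : D 2 0 0 (n6 + 3) 1 0 = G 0 0 2 0 0 (n6 + 3) 1 - G 0 0 2 0 (n6 + 3) 1 0 := S.al0' 1 0 (n6 + 3) 1 0
  have r4 : C 1 (n6 + 3) 0 1 0 1 = G 1 0 1 0 0 1 (n6 + 3) - G 0 1 0 1 0 1 (n6 + 3) := S.al0 1 0 1 0 (n6 + 3)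
  have r5 : C 1 (n6 + 3) 1 0 1 0 = G 0 1 0 1 0 1 (n6 + 3) - G 1 0 1 0 0 1 (n6 + 3) + G 0 0 1 0 1 1 (n6 + 3) := S.al1 0 0 1 0 0 (n6 + 3)
  have r6 : C (n6 + 3) 0 0 0 2 1 = G 1 0 0 2 0 (n6 + 3) 0 - G 0 0 2 1 0 (n6 + 3) 0 := S.al0 0 2 1 (n6 + 2) 0
  have r7 : C (n6 + 3) 0 0 1 0 2 = G 2 0 1 0 0 (n6 + 3) 0 - G 0 1 0 2 0 (n6 + 3) 0 := S.al0 1 0 2 (n6 + 2) 0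
  have r8 : C (n6 + 3) 0 0 2 0 1 = G 1 0 2 0 0 (n6 + 3) 0 - G 0 2 0 1 0 (n6 + 3) 0 := S.al0 2 0 1 (n6 + 2) 0
  have r9 : C (n6 + 3) 0 0 2 1 0 = G 0 0 2 1 0 (n6 + 3) 0 - G 0 2 1 0 0 (n6 + 3) 0 := S.al0 2 1 0 (n6 + 2) 0
  have r10 : C (n6 + 3) 0 1 0 0 2 = G 2 1 0 0 0 (n6 + 3) 0 - G 1 0 0 2 0 (n6 + 3) 0 + G 0 0 0 2 1 (n6 + 3) 0 := S.al1 0 0 0 2 (n6 + 2) 0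
  have r11 : C (n6 + 3) 0 1 0 2 0 = G 0 1 0 2 0 (n6 + 3) 0 - G 1 0 2 0 0 (n6 + 3) 0 + G 0 0 2 0 1 (n6 + 3) 0 := S.al1 0 0 2 0 (n6 + 2) 0
  have r12 : C (n6 + 3) 0 2 0 1 0 = G 0 2 0 1 0 (n6 + 3) 0 - G 2 0 1 0 0 (n6 + 3) 0 + G 1 0 1 0 1 (n6 + 3) 0 := S.al1 1 0 1 0 (n6 + 2) 0
  have r13 : C (n6 + 3) 0 2 1 0 0 = G 0 2 1 0 0 (n6 + 3) 0 - G 2 1 0 0 0 (n6 + 3) 0 + G 1 1 0 0 1 (n6 + 3) 0 := S.al1 1 1 0 0 (n6 + 2) 0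
  have r14 : C (n6 + 3) 1 0 0 0 2 = G 2 0 0 0 0 (n6 + 3) 1 - G 0 0 0 2 0 (n6 + 3) 1 := S.al0 0 0 2 (n6 + 2) 1
  have r15 : C (n6 + 3) 1 0 0 2 0 = G 0 0 0 2 0 (n6 + 3) 1 - G 0 0 2 0 0 (n6 + 3) 1 := S.al0 0 2 0 (n6 + 2) 1
  have r16 : C (n6 + 3) 1 0 2 0 0 = G 0 0 2 0 0 (n6 + 3) 1 - G 0 2 0 0 0 (n6 + 3) 1 := S.al0 2 0 0 (n6 + 2) 1
  have r17 : C (n6 + 3) 1 2 0 0 0 = G 0 2 0 0 0 (n6 + 3) 1 - G 2 0 0 0 0 (n6 + 3) 1 + G 1 0 0 0 1 (n6 + 3) 1 := S.al1 1 0 0 0 (n6 + 2) 1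
  have z0 : G 0 0 0 0 (n6 + 3) 1 2 = 0 := S.van 0 0 0 0 (n6 + 1) 0 2
  have z1 : G 0 0 2 0 1 (n6 + 3) 0 = G 0 0 0 2 1 (n6 + 3) 0 := S.r1 0 0 2 0 (n6 + 2) 0
  have z2 : G 1 0 0 0 1 (n6 + 3) 1 = G 0 0 0 1 1 (n6 + 3) 1 := S.r3 1 0 0 0 (n6 + 2) 1
  have z3 : G 0 0 1 0 1 (n6 + 3) 1 = G 0 0 0 1 1 (n6 + 3) 1 := S.r1 0 0 1 0 (n6 + 2) 1
  have z4 : G 0 0 2 0 (n6 + 3) 1 0 = 0 := S.van 0 0 2 0 (n6 + 1) 0 0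
  have z5 : G 1 1 0 0 1 (n6 + 3) 0 = G 0 0 1 1 1 (n6 + 3) 0 := S.r2 1 1 0 0 (n6 + 2) 0
  have z6 : G 0 1 1 0 1 (n6 + 3) 0 = G 0 0 1 1 1 (n6 + 3) 0 := S.r1 0 1 1 0 (n6 + 2) 0
  have z7 : G 0 1 1 0 (n6 + 3) 1 0 = 0 := S.van 0 1 1 0 (n6 + 1) 0 0
  have z8 : G 1 0 1 0 (n6 + 3) 1 0 = 0 := S.van 1 0 1 0 (n6 + 1) 0 0
  have z9 : D 1 0 1 1 (n6 + 3) 0 = 0 := (S.d1 1 0 1 1 (n6 + 3) 0).trans (S_p3a S.mirror 0 0 0 (n6 + 2))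
  have z10 : D 1 0 1 (n6 + 3) 1 0 = 0 := (S.d1 1 0 1 (n6 + 3) 1 0).trans (S_p3a S.mirror 0 0 (n6 + 2) 0)
  have z11 : D 2 0 0 (n6 + 3) 1 0 = 0 := (S.d2 2 0 0 (n6 + 3) 1 0).trans (L_e2_g3_e1_e0_e0_e0 S.mirror n6)
  have z12 : C 1 (n6 + 3) 0 1 0 1 = 0 := (S.c4 1 (n6 + 3) 0 1 0 1).trans (S_p3b S 0 0 (n6 + 2) 0)
  have z13 : C 1 (n6 + 3) 1 0 1 0 = 0 := S_p3b S 0 (n6 + 2) 0 0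
  have z14 : C (n6 + 3) 0 0 2 1 0 = C (n6 + 3) 0 0 0 2 1 := S.c4 (n6 + 3) 0 0 2 1 0
  have z15 : C (n6 + 3) 0 2 1 0 0 = C (n6 + 3) 0 0 0 2 1 := S.c3 (n6 + 3) 0 2 1 0 0
  have z16 : C (n6 + 3) 1 0 0 0 2 = C (n6 + 3) 0 0 0 2 1 := S.c1 (n6 + 3) 1 0 0 0 2
  have z17 : C (n6 + 3) 2 1 0 0 0 = C (n6 + 3) 0 0 0 2 1 := S.c2 (n6 + 3) 2 1 0 0 0
  have z18 : C (n6 + 3) 0 1 0 2 0 = C (n6 + 3) 0 0 1 0 2 := S.c4 (n6 + 3) 0 1 0 2 0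
  have z19 : C (n6 + 3) 1 0 2 0 0 = C (n6 + 3) 0 0 1 0 2 := S.c3 (n6 + 3) 1 0 2 0 0
  have z20 : C (n6 + 3) 0 1 0 0 2 = C (n6 + 3) 0 0 2 0 1 := S.c2 (n6 + 3) 0 1 0 0 2
  have z21 : C (n6 + 3) 0 2 0 1 0 = C (n6 + 3) 0 0 2 0 1 := S.c4 (n6 + 3) 0 2 0 1 0
  have z22 : C (n6 + 3) 1 0 0 2 0 = C (n6 + 3) 0 0 2 0 1 := S.c1 (n6 + 3) 1 0 0 2 0
  have z23 : C (n6 + 3) 1 2 0 0 0 = 0 := L_g3_e1_e2_e0_e0_e0 S n6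
  linear_combination ((((1 / 4 : ℚ) * r0 + (-1 / 4 : ℚ) * r1 + (-1 / 2 : ℚ) * r2 + (-1 / 4 : ℚ) * r3 + (1 / 4 : ℚ) * r4 + (1 / 4 : ℚ) * r5)
    + ((1 / 4 : ℚ) * r6 + (-1 / 4 : ℚ) * r7 + (-1 / 4 : ℚ) * r8 + (1 / 4 : ℚ) * r9 + (1 / 4 : ℚ) * r10))
    + (((-1 / 4 : ℚ) * r11 + (-1 / 4 : ℚ) * r12 + (1 / 4 : ℚ) * r13 + (1 / 4 : ℚ) * r14 + (1 / 4 : ℚ) * r15)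
    + ((1 / 2 : ℚ) * r16 + (1 / 2 : ℚ) * r17 + (-1 / 4 : ℚ) * z0 + (-1 / 4 : ℚ) * z1 + (1 / 2 : ℚ) * z2)))
    + ((((-1 / 2 : ℚ) * z3 + (1 / 4 : ℚ) * z4 + (1 / 4 : ℚ) * z5 + (-1 / 4 : ℚ) * z6 + (-1 / 2 : ℚ) * z7 + (1 / 2 : ℚ) * z8)
    + ((1 / 4 : ℚ) * z9 + (1 / 2 : ℚ) * z10 + (1 / 4 : ℚ) * z11 + (-1 / 4 : ℚ) * z12 + (-1 / 4 : ℚ) * z13))
    + (((-1 / 4 : ℚ) * z14 + (-1 / 4 : ℚ) * z15 + (-1 / 4 : ℚ) * z16 + (1 : ℚ) * z17 + (1 / 4 : ℚ) * z18)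
    + ((-1 / 2 : ℚ) * z19 + (-1 / 4 : ℚ) * z20 + (1 / 4 : ℚ) * z21 + (-1 / 4 : ℚ) * z22 + (-1 / 2 : ℚ) * z23)))

theorem L_e2_e1_g3_e0_e0_e0 (S : Sys6 G C D) (n2 : ℕ) : C 2 1 (n2 + 3) 0 0 0 = 0 := by
  have r0 : G 0 0 0 0 2 (n2 + 3) 1 = G 1 0 0 0 0 2 (n2 + 3) := S.z0' 2 (n2 + 3) 1
  have r1 : D 1 0 0 2 (n2 + 3) 0 = G 0 0 1 0 0 2 (n2 + 3) - G 0 0 1 0 2 (n2 + 3) 0 := S.al0' 0 0 2 (n2 + 3) 0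
  have r2 : D 1 (n2 + 2) 0 0 1 2 = G 2 0 1 (n2 + 2) 0 0 1 - G 0 0 1 (n2 + 2) 0 1 2 := S.al0' 0 (n2 + 2) 0 1 2
  have r3 : D 1 (n2 + 2) 1 2 0 0 = G 0 0 1 (n2 + 2) 1 2 0 - G 1 0 1 (n2 + 2) 2 0 0 + G 0 1 1 (n2 + 2) 2 0 0 := S.al1' 0 0 (n2 + 2) 2 0 0
  have r4 : D 1 (n2 + 2) 2 0 0 1 = G 1 0 1 (n2 + 2) 2 0 0 - G 2 0 1 (n2 + 2) 0 0 1 + G 1 1 1 (n2 + 2) 0 0 1 := S.al1' 1 0 (n2 + 2) 0 0 1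
  have r5 : D (n2 + 2) 0 0 1 2 1 = G 1 0 (n2 + 2) 0 0 1 2 - G 0 0 (n2 + 2) 0 1 2 1 := S.al0' (n2 + 1) 0 1 2 1
  have r6 : D (n2 + 2) 0 1 0 1 2 = G 2 0 (n2 + 2) 0 1 0 1 - G 1 0 (n2 + 2) 0 0 1 2 + G 0 1 (n2 + 2) 0 0 1 2 := S.al1' 0 (n2 + 1) 0 0 1 2
  have r7 : D (n2 + 2) 0 1 2 1 0 = G 0 0 (n2 + 2) 0 1 2 1 - G 1 0 (n2 + 2) 0 2 1 0 + G 0 1 (n2 + 2) 0 2 1 0 := S.al1' 0 (n2 + 1) 0 2 1 0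
  have r8 : D (n2 + 2) 0 2 1 0 1 = G 1 0 (n2 + 2) 0 2 1 0 - G 2 0 (n2 + 2) 0 1 0 1 + G 1 1 (n2 + 2) 0 1 0 1 := S.al1' 1 (n2 + 1) 0 1 0 1
  have r9 : C 1 0 2 1 (n2 + 2) 0 = G 0 2 1 (n2 + 2) 0 1 0 - G 2 1 (n2 + 2) 0 0 1 0 + G 1 1 (n2 + 2) 0 1 1 0 := S.al1 1 1 (n2 + 2) 0 0 0
  have r10 : C 1 2 0 1 (n2 + 2) 0 = G 0 0 1 (n2 + 2) 0 1 2 - G 0 1 (n2 + 2) 0 0 1 2 := S.al0 1 (n2 + 2) 0 0 2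
  have r11 : C 2 0 0 0 0 (n2 + 4) = G (n2 + 4) 0 0 0 0 2 0 - G 0 0 0 (n2 + 4) 0 2 0 := S.al0 0 0 (n2 + 4) 1 0
  have r12 : C 2 0 0 0 1 (n2 + 3) = G (n2 + 3) 0 0 1 0 2 0 - G 0 0 1 (n2 + 3) 0 2 0 := S.al0 0 1 (n2 + 3) 1 0
  have r13 : C 2 0 0 0 (n2 + 4) 0 = G 0 0 0 (n2 + 4) 0 2 0 - G 0 0 (n2 + 4) 0 0 2 0 := S.al0 0 (n2 + 4) 0 1 0
  have r14 : C 2 0 0 1 (n2 + 3) 0 = G 0 0 1 (n2 + 3) 0 2 0 - G 0 1 (n2 + 3) 0 0 2 0 := S.al0 1 (n2 + 3) 0 1 0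
  have r15 : C 2 0 0 (n2 + 4) 0 0 = G 0 0 (n2 + 4) 0 0 2 0 - G 0 (n2 + 4) 0 0 0 2 0 := S.al0 (n2 + 4) 0 0 1 0
  have r16 : C 2 0 1 1 (n2 + 2) 0 = G 0 1 1 (n2 + 2) 0 2 0 - G 1 1 (n2 + 2) 0 0 2 0 + G 0 1 (n2 + 2) 0 1 2 0 := S.al1 0 1 (n2 + 2) 0 1 0
  have r17 : C 2 0 1 (n2 + 3) 0 0 = G 0 1 (n2 + 3) 0 0 2 0 - G 1 (n2 + 3) 0 0 0 2 0 + G 0 (n2 + 3) 0 0 1 2 0 := S.al1 0 (n2 + 3) 0 0 1 0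
  have r18 : C 2 0 (n2 + 3) 0 0 1 = G 1 (n2 + 3) 0 0 0 2 0 - G (n2 + 3) 0 0 1 0 2 0 + G (n2 + 2) 0 0 1 1 2 0 := S.al1 (n2 + 2) 0 0 1 1 0
  have r19 : C 2 0 (n2 + 4) 0 0 0 = G 0 (n2 + 4) 0 0 0 2 0 - G (n2 + 4) 0 0 0 0 2 0 + G (n2 + 3) 0 0 0 1 2 0 := S.al1 (n2 + 3) 0 0 0 1 0
  have r20 : C 2 (n2 + 3) 0 0 0 1 = G 1 0 0 0 0 2 (n2 + 3) - G 0 0 0 1 0 2 (n2 + 3) := S.al0 0 0 1 1 (n2 + 3)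
  have r21 : C 2 (n2 + 3) 0 0 1 0 = G 0 0 0 1 0 2 (n2 + 3) - G 0 0 1 0 0 2 (n2 + 3) := S.al0 0 1 0 1 (n2 + 3)
  have r22 : C 2 (n2 + 4) 0 0 0 0 = G 0 0 0 0 0 2 (n2 + 4) - G 0 0 0 0 0 2 (n2 + 4) := S.al0 0 0 0 1 (n2 + 4)
  have z0 : G 0 0 0 0 2 (n2 + 3) 1 = 0 := S.van 0 0 0 0 0 (n2 + 2) 1
  have z1 : G 0 0 1 0 2 (n2 + 3) 0 = 0 := S.van 0 0 1 0 0 (n2 + 2) 0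
  have z2 : G 0 1 (n2 + 2) 0 0 1 2 = G 0 1 (n2 + 2) 0 1 2 0 := S.m3 0 (n2 + 1) 0 0 1 2
  have z3 : G (n2 + 2) 0 0 1 1 2 0 = G 0 0 1 (n2 + 2) 1 2 0 := S.r3 (n2 + 2) 0 0 1 1 0
  have z4 : G 0 1 (n2 + 2) 0 1 2 0 = G 0 0 1 (n2 + 2) 1 2 0 := S.r1 0 1 (n2 + 2) 0 1 0
  have z5 : G 0 1 1 (n2 + 2) 2 0 0 = G 0 1 1 (n2 + 2) 0 0 2 := S.m2 0 0 (n2 + 2) 2 0 0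
  have z6 : G 0 1 1 (n2 + 2) 0 2 0 = G 0 1 1 (n2 + 2) 0 0 2 := S.m1 0 0 (n2 + 2) 0 2 0
  have z7 : G 0 1 (n2 + 2) 0 2 1 0 = 0 := S.van 0 1 (n2 + 2) 0 0 0 0
  have z8 : G 0 2 1 (n2 + 2) 0 1 0 = 0 := S.van' 0 0 0 (n2 + 2) 0 1 0
  have z9 : G (n2 + 3) 0 0 0 1 2 0 = G 0 0 0 (n2 + 3) 1 2 0 := S.r3 (n2 + 3) 0 0 0 1 0
  have z10 : G 0 (n2 + 3) 0 0 1 2 0 = G 0 0 0 (n2 + 3) 1 2 0 := S.r2 0 (n2 + 3) 0 0 1 0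
  have z11 : G 1 1 1 (n2 + 2) 0 0 1 = G 0 1 1 (n2 + 2) 1 1 0 := S.m2 1 0 (n2 + 2) 0 0 1
  have z12 : G 0 1 1 (n2 + 2) 1 1 0 = G 1 1 (n2 + 2) 0 1 1 0 := S.r3 0 1 1 (n2 + 2) 0 0
  have z13 : G 1 1 (n2 + 2) 0 1 0 1 = G 0 1 (n2 + 2) 0 1 1 1 := S.m2 1 (n2 + 1) 0 1 0 1
  have z14 : G 1 1 (n2 + 2) 0 1 1 0 = G 0 1 (n2 + 2) 0 1 1 1 := S.m1 1 (n2 + 1) 0 1 1 0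
  have z15 : G 2 1 (n2 + 2) 0 0 1 0 = G 0 1 (n2 + 2) 0 1 0 2 := S.m3 2 (n2 + 1) 0 0 1 0
  have z16 : G 1 1 (n2 + 2) 0 0 2 0 = G 0 1 (n2 + 2) 0 1 0 2 := S.m1 1 (n2 + 1) 0 0 2 0
  have z17 : D 1 0 0 2 (n2 + 3) 0 = 0 := (S.d2 1 0 0 2 (n2 + 3) 0).trans (L_e1_e2_g3_e0_e0_e0 S.mirror n2)
  have z18 : D 1 (n2 + 2) 0 0 1 2 = 0 := (S.d3 1 (n2 + 2) 0 0 1 2).trans (S_p3a S.mirror 0 0 1 (n2 + 1))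
  have z19 : D 1 (n2 + 2) 1 2 0 0 = 0 := S_p3a S.mirror 0 (n2 + 1) 0 1
  have z20 : D 1 (n2 + 2) 2 0 0 1 = 0 := (S.d4 1 (n2 + 2) 2 0 0 1).trans (S_p3a S.mirror 0 0 (n2 + 1) 1)
  have z21 : D (n2 + 2) 0 0 1 2 1 = 0 := (S.d2 (n2 + 2) 0 0 1 2 1).trans (S_p3a S.mirror (n2 + 1) 0 1 0)
  have z22 : D (n2 + 2) 0 1 2 1 0 = 0 := (S.d1 (n2 + 2) 0 1 2 1 0).trans (S_p3a S.mirror (n2 + 1) 0 1 0)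
  have z23 : D (n2 + 2) 0 1 0 1 2 = 0 := (S.d3 (n2 + 2) 0 1 0 1 2).trans (S_p3b S.mirror (n2 + 1) 0 1 0)
  have z24 : D (n2 + 2) 0 2 1 0 1 = 0 := (S.d1 (n2 + 2) 0 2 1 0 1).trans (S_p3b S.mirror (n2 + 1) 1 0 0)
  have z25 : C 1 0 2 1 (n2 + 2) 0 = 0 := (S.c1 1 0 2 1 (n2 + 2) 0).trans (S_p3a S 0 1 0 (n2 + 1))
  have z26 : C 1 2 0 1 (n2 + 2) 0 = 0 := (S.c2 1 2 0 1 (n2 + 2) 0).trans (S_p3b S 0 0 (n2 + 1) 1)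
  have z27 : C 2 0 0 0 (n2 + 4) 0 = C 2 0 0 0 0 (n2 + 4) := S.c4 2 0 0 0 (n2 + 4) 0
  have z28 : C 2 0 0 (n2 + 4) 0 0 = C 2 0 0 0 0 (n2 + 4) := S.c3 2 0 0 (n2 + 4) 0 0
  have z29 : C 2 0 (n2 + 4) 0 0 0 = C 2 0 0 0 0 (n2 + 4) := S.c2 2 0 (n2 + 4) 0 0 0
  have z30 : C 2 (n2 + 4) 0 0 0 0 = C 2 0 0 0 0 (n2 + 4) := S.c1 2 (n2 + 4) 0 0 0 0
  have z31 : C 2 0 0 1 (n2 + 3) 0 = C 2 0 0 0 1 (n2 + 3) := S.c4 2 0 0 1 (n2 + 3) 0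
  have z32 : C 2 0 1 (n2 + 3) 0 0 = C 2 0 0 0 1 (n2 + 3) := S.c3 2 0 1 (n2 + 3) 0 0
  have z33 : C 2 (n2 + 3) 0 0 0 1 = C 2 0 0 0 1 (n2 + 3) := S.c1 2 (n2 + 3) 0 0 0 1
  have z34 : C 2 1 (n2 + 3) 0 0 0 = C 2 0 0 0 1 (n2 + 3) := S.c2 2 1 (n2 + 3) 0 0 0
  have z35 : C 2 0 1 1 (n2 + 2) 0 = 0 := (S.c1 2 0 1 1 (n2 + 2) 0).trans (S_p3a S 1 0 0 (n2 + 1))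
  have z36 : C 2 (n2 + 3) 0 0 1 0 = C 2 0 (n2 + 3) 0 0 1 := S.c4 2 (n2 + 3) 0 0 1 0
  linear_combination ((((1 / 2 : ℚ) * r0 + (-1 / 2 : ℚ) * r1 + (1 / 6 : ℚ) * r2 + (1 / 6 : ℚ) * r3 + (1 / 6 : ℚ) * r4 + (-1 / 3 : ℚ) * r5 + (-1 / 3 : ℚ) * r6 + (-1 / 3 : ℚ) * r7)
    + ((-1 / 3 : ℚ) * r8 + (1 / 6 : ℚ) * r9 + (1 / 6 : ℚ) * r10 + (-1 / 2 : ℚ) * r11 + (1 / 2 : ℚ) * r12 + (-1 / 2 : ℚ) * r13 + (1 / 2 : ℚ) * r14))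
    + (((-1 / 2 : ℚ) * r15 + (-1 / 6 : ℚ) * r16 + (1 / 2 : ℚ) * r17 + (1 / 2 : ℚ) * r18 + (-1 / 2 : ℚ) * r19 + (-1 / 2 : ℚ) * r20 + (-1 / 2 : ℚ) * r21 + (2 : ℚ) * r22)
    + ((-1 / 2 : ℚ) * z0 + (1 / 2 : ℚ) * z1 + (-1 / 2 : ℚ) * z2 + (1 / 2 : ℚ) * z3 + (-2 / 3 : ℚ) * z4 + (1 / 6 : ℚ) * z5 + (-1 / 6 : ℚ) * z6)))
    + ((((-1 / 3 : ℚ) * z7 + (1 / 6 : ℚ) * z8 + (-1 / 2 : ℚ) * z9 + (1 / 2 : ℚ) * z10 + (1 / 6 : ℚ) * z11 + (1 / 6 : ℚ) * z12 + (-1 / 3 : ℚ) * z13 + (1 / 3 : ℚ) * z14)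
    + ((-1 / 6 : ℚ) * z15 + (1 / 6 : ℚ) * z16 + (1 / 2 : ℚ) * z17 + (-1 / 6 : ℚ) * z18 + (-1 / 6 : ℚ) * z19 + (-1 / 6 : ℚ) * z20 + (1 / 3 : ℚ) * z21))
    + (((1 / 3 : ℚ) * z22 + (1 / 3 : ℚ) * z23 + (1 / 3 : ℚ) * z24 + (-1 / 6 : ℚ) * z25 + (-1 / 6 : ℚ) * z26 + (1 / 2 : ℚ) * z27 + (1 / 2 : ℚ) * z28 + (1 / 2 : ℚ) * z29)
    + ((-2 : ℚ) * z30 + (-1 / 2 : ℚ) * z31 + (-1 / 2 : ℚ) * z32 + (1 / 2 : ℚ) * z33 + (1 : ℚ) * z34 + (1 / 6 : ℚ) * z35 + (1 / 2 : ℚ) * z36)))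

theorem S_p2a (S : Sys6 G C D) :
    ∀ n6 n1 n2 : ℕ, C (n6 + 1) (n1 + 1) (n2 + 1) 0 0 0 = 0
  | 0, 0, 0 => L_e1_e1_e1_e0_e0_e0 S 
  | 0, 0, 1 => L_e1_e1_e2_e0_e0_e0 S 
  | 0, 0, n2 + 2 => L_e1_e1_g3_e0_e0_e0 S n2
  | 0, 1, 0 => L_e1_e2_e1_e0_e0_e0 S 
  | 0, 1, 1 => L_e1_e2_e2_e0_e0_e0 S 
  | 0, 1, n2 + 2 => L_e1_e2_g3_e0_e0_e0 S n2
  | 0, n1 + 2, 0 => L_e1_g3_e1_e0_e0_e0 S n1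
  | 0, n1 + 2, 1 => L_e1_g3_e2_e0_e0_e0 S n1
  | 0, n1 + 2, n2 + 2 => L_e1_g3_g3_e0_e0_e0 S n1 n2
  | 1, 0, 0 => L_e2_e1_e1_e0_e0_e0 S 
  | 1, 0, 1 => L_e2_e1_e2_e0_e0_e0 S 
  | 1, 0, n2 + 2 => L_e2_e1_g3_e0_e0_e0 S n2
  | 1, 1, 0 => L_e2_e2_e1_e0_e0_e0 S 
  | 1, 1, 1 => L_e2_e2_e2_e0_e0_e0 S 
  | 1, 1, n2 + 2 => L_e2_e2_g3_e0_e0_e0 S n2
  | 1, n1 + 2, 0 => L_e2_g3_e1_e0_e0_e0 S n1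
  | 1, n1 + 2, 1 => L_e2_g3_e2_e0_e0_e0 S n1
  | 1, n1 + 2, n2 + 2 => L_e2_g3_g3_e0_e0_e0 S n1 n2
  | n6 + 2, 0, 0 => L_g3_e1_e1_e0_e0_e0 S n6
  | n6 + 2, 0, 1 => L_g3_e1_e2_e0_e0_e0 S n6
  | n6 + 2, 0, n2 + 2 => L_g3_e1_g3_e0_e0_e0 S n6 n2
  | n6 + 2, 1, 0 => L_g3_e2_e1_e0_e0_e0 S n6
  | n6 + 2, 1, 1 => L_g3_e2_e2_e0_e0_e0 S n6
  | n6 + 2, 1, n2 + 2 => L_g3_e2_g3_e0_e0_e0 S n6 n2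
  | n6 + 2, n1 + 2, 0 => L_g3_g3_e1_e0_e0_e0 S n6 n1
  | n6 + 2, n1 + 2, 1 => L_g3_g3_e2_e0_e0_e0 S n6 n1
  | n6 + 2, n1 + 2, n2 + 2 => L_g3_g3_g3_e0_e0_e0 S n6 n1 n2

theorem L_e1_e1_e0_e1_e0_e0 (S : Sys6 G C D) : C 1 1 0 1 0 0 = 0 := by
  have r0 : G 0 0 0 0 1 1 1 = G 1 0 0 0 0 1 1 := S.z0' 1 1 1
  have r1 : D 1 0 0 1 1 0 = G 0 0 1 0 0 1 1 - G 0 0 1 0 1 1 0 := S.al0' 0 0 1 1 0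
  have r2 : C 1 0 0 1 0 1 = G 1 0 1 0 0 1 0 - G 0 1 0 1 0 1 0 := S.al0 1 0 1 0 0
  have r3 : C 1 0 1 0 1 0 = G 0 1 0 1 0 1 0 - G 1 0 1 0 0 1 0 + G 0 0 1 0 1 1 0 := S.al1 0 0 1 0 0 0
  have r4 : C 1 1 0 1 0 0 = G 0 0 1 0 0 1 1 - G 0 1 0 0 0 1 1 := S.al0 1 0 0 0 1
  have r5 : C 1 1 1 0 0 0 = G 0 1 0 0 0 1 1 - G 1 0 0 0 0 1 1 + G 0 0 0 0 1 1 1 := S.al1 0 0 0 0 0 1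
  have z0 : D 1 0 0 1 1 0 = 0 := (S.d2 1 0 0 1 1 0).trans (S_p2a S.mirror 0 0 0)
  have z1 : C 1 0 1 0 1 0 = C 1 0 0 1 0 1 := S.c4 1 0 1 0 1 0
  have z2 : C 1 1 0 1 0 0 = C 1 0 0 1 0 1 := S.c3 1 1 0 1 0 0
  have z3 : C 1 1 1 0 0 0 = 0 := S_p2a S 0 0 0
  linear_combination ((-1 : ℚ) * r0 + (1 : ℚ) * r1 + (1 : ℚ) * r2 + (1 : ℚ) * r3 + (-1 : ℚ) * r4)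
    + ((-1 : ℚ) * r5 + (-1 : ℚ) * z0 + (-1 : ℚ) * z1 + (2 : ℚ) * z2 + (1 : ℚ) * z3)

theorem L_e1_e2_e0_e2_e0_e0 (S : Sys6 G C D) : C 1 2 0 2 0 0 = 0 := by
  have r0 : D 1 0 2 1 1 0 = G 0 0 1 0 2 1 1 - G 2 0 1 0 1 1 0 + G 1 1 1 0 1 1 0 := S.al1' 1 0 0 1 1 0
  have r1 : D 1 1 1 1 1 0 = G 0 0 1 1 1 1 1 - G 1 0 1 1 1 1 0 + G 0 1 1 1 1 1 0 := S.al1' 0 0 1 1 1 0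
  have r2 : C 1 0 0 2 0 2 = G 2 0 2 0 0 1 0 - G 0 2 0 2 0 1 0 := S.al0 2 0 2 0 0
  have r3 : C 1 0 2 0 2 0 = G 0 2 0 2 0 1 0 - G 2 0 2 0 0 1 0 + G 1 0 2 0 1 1 0 := S.al1 1 0 2 0 0 0
  have z0 : G 0 0 1 0 2 1 1 = 0 := S.van 0 0 1 0 0 0 1
  have z1 : G 0 1 1 1 1 1 0 = G 1 1 1 0 1 1 0 := S.r3 0 1 1 1 0 0
  have z2 : G 1 0 1 1 1 1 0 = G 1 1 1 0 1 1 0 := S.r2 1 0 1 1 0 0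
  have z3 : G 1 1 1 0 1 1 0 = G 0 1 1 0 1 1 1 := S.m1 1 0 0 1 1 0
  have z4 : G 0 1 1 0 1 1 1 = G 0 0 1 1 1 1 1 := S.r1 0 1 1 0 0 1
  have z5 : G 2 0 1 0 1 1 0 = G 0 1 0 2 1 1 0 := S.r3 2 0 1 0 0 0
  have z6 : G 1 0 2 0 1 1 0 = G 0 1 0 2 1 1 0 := S.r1 1 0 2 0 0 0
  have z7 : D 1 0 2 1 1 0 = 0 := (S.d1 1 0 2 1 1 0).trans (S_p3a S.mirror 0 1 0 0)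
  have z8 : D 1 1 1 1 1 0 = 0 := S_p4 S.mirror 0 0 0 0 0
  have z9 : C 1 0 2 0 2 0 = C 1 0 0 2 0 2 := S.c4 1 0 2 0 2 0
  have z10 : C 1 2 0 2 0 0 = C 1 0 0 2 0 2 := S.c3 1 2 0 2 0 0
  linear_combination ((1 / 2 : ℚ) * r0 + (-1 / 2 : ℚ) * r1 + (1 / 2 : ℚ) * r2 + (1 / 2 : ℚ) * r3 + (1 / 2 : ℚ) * z0 + (-1 / 2 : ℚ) * z1 + (1 / 2 : ℚ) * z2 + (1 / 2 : ℚ) * z3)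
    + ((1 / 2 : ℚ) * z4 + (-1 / 2 : ℚ) * z5 + (1 / 2 : ℚ) * z6 + (-1 / 2 : ℚ) * z7 + (1 / 2 : ℚ) * z8 + (-1 / 2 : ℚ) * z9 + (1 : ℚ) * z10)

theorem L_e1_g3_e0_e2_e0_e0 (S : Sys6 G C D) (n1 : ℕ) : C 1 (n1 + 3) 0 2 0 0 = 0 := by
  have r0 : C 1 0 0 0 (n1 + 3) 2 = G 2 0 0 (n1 + 3) 0 1 0 - G 0 0 (n1 + 3) 2 0 1 0 := S.al0 0 (n1 + 3) 2 0 0
  have r1 : C 1 0 0 (n1 + 3) 2 0 = G 0 0 (n1 + 3) 2 0 1 0 - G 0 (n1 + 3) 2 0 0 1 0 := S.al0 (n1 + 3) 2 0 0 0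
  have r2 : C 1 0 2 0 0 (n1 + 3) = G (n1 + 3) 2 0 0 0 1 0 - G 2 0 0 (n1 + 3) 0 1 0 + G 1 0 0 (n1 + 3) 1 1 0 := S.al1 1 0 0 (n1 + 3) 0 0
  have r3 : C 1 0 (n1 + 3) 2 0 0 = G 0 (n1 + 3) 2 0 0 1 0 - G (n1 + 3) 2 0 0 0 1 0 + G (n1 + 2) 2 0 0 1 1 0 := S.al1 (n1 + 2) 2 0 0 0 0
  have z0 : G 1 0 0 (n1 + 3) 1 1 0 = G 0 (n1 + 3) 1 0 1 1 0 := S.r2 1 0 0 (n1 + 3) 0 0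
  have z1 : G 0 (n1 + 3) 1 0 1 1 0 = 0 := S.van' 0 (n1 + 1) 0 0 1 1 0
  have z2 : G (n1 + 2) 2 0 0 1 1 0 = G 0 (n1 + 2) 2 0 1 1 0 := S.r1 (n1 + 2) 2 0 0 0 0
  have z3 : G 0 (n1 + 2) 2 0 1 1 0 = 0 := S.van' 0 n1 1 0 1 1 0
  have z4 : C 1 0 0 0 (n1 + 3) 2 = 0 := (S.c3 1 0 0 0 (n1 + 3) 2).trans (S_p2a S 0 (n1 + 2) 1)
  have z5 : C 1 0 0 (n1 + 3) 2 0 = 0 := (S.c2 1 0 0 (n1 + 3) 2 0).trans (S_p2a S 0 (n1 + 2) 1)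
  have z6 : C 1 0 (n1 + 3) 2 0 0 = 0 := (S.c1 1 0 (n1 + 3) 2 0 0).trans (S_p2a S 0 (n1 + 2) 1)
  have z7 : C 1 (n1 + 3) 0 2 0 0 = C 1 0 2 0 0 (n1 + 3) := S.c1 1 (n1 + 3) 0 2 0 0
  linear_combination ((1 : ℚ) * r0 + (1 : ℚ) * r1 + (1 : ℚ) * r2 + (1 : ℚ) * r3 + (1 : ℚ) * z0 + (1 : ℚ) * z1)
    + ((1 : ℚ) * z2 + (1 : ℚ) * z3 + (-1 : ℚ) * z4 + (-1 : ℚ) * z5 + (-1 : ℚ) * z6 + (1 : ℚ) * z7)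

theorem L_e1_g3_e0_g3_e0_e0 (S : Sys6 G C D) (n1 n3 : ℕ) : C 1 (n1 + 3) 0 (n3 + 3) 0 0 = 0 := by
  have r0 : C 1 0 0 0 (n1 + 3) (n3 + 3) = G (n3 + 3) 0 0 (n1 + 3) 0 1 0 - G 0 0 (n1 + 3) (n3 + 3) 0 1 0 := S.al0 0 (n1 + 3) (n3 + 3) 0 0
  have r1 : C 1 0 0 (n1 + 3) (n3 + 3) 0 = G 0 0 (n1 + 3) (n3 + 3) 0 1 0 - G 0 (n1 + 3) (n3 + 3) 0 0 1 0 := S.al0 (n1 + 3) (n3 + 3) 0 0 0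
  have r2 : C 1 0 (n1 + 3) (n3 + 3) 0 0 = G 0 (n1 + 3) (n3 + 3) 0 0 1 0 - G (n1 + 3) (n3 + 3) 0 0 0 1 0 + G (n1 + 2) (n3 + 3) 0 0 1 1 0 := S.al1 (n1 + 2) (n3 + 3) 0 0 0 0
  have r3 : C 1 0 (n3 + 3) 0 0 (n1 + 3) = G (n1 + 3) (n3 + 3) 0 0 0 1 0 - G (n3 + 3) 0 0 (n1 + 3) 0 1 0 + G (n3 + 2) 0 0 (n1 + 3) 1 1 0 := S.al1 (n3 + 2) 0 0 (n1 + 3) 0 0
  have z0 : G (n1 + 2) (n3 + 3) 0 0 1 1 0 = G 0 (n1 + 2) (n3 + 3) 0 1 1 0 := S.r1 (n1 + 2) (n3 + 3) 0 0 0 0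
  have z1 : G 0 (n1 + 2) (n3 + 3) 0 1 1 0 = 0 := S.van' 0 n1 (n3 + 2) 0 1 1 0
  have z2 : G (n3 + 2) 0 0 (n1 + 3) 1 1 0 = G 0 (n1 + 3) (n3 + 2) 0 1 1 0 := S.r2 (n3 + 2) 0 0 (n1 + 3) 0 0
  have z3 : G 0 (n1 + 3) (n3 + 2) 0 1 1 0 = 0 := S.van' 0 (n1 + 1) (n3 + 1) 0 1 1 0
  have z4 : C 1 0 0 0 (n1 + 3) (n3 + 3) = 0 := (S.c3 1 0 0 0 (n1 + 3) (n3 + 3)).trans (S_p2a S 0 (n1 + 2) (n3 + 2))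
  have z5 : C 1 0 0 (n1 + 3) (n3 + 3) 0 = 0 := (S.c2 1 0 0 (n1 + 3) (n3 + 3) 0).trans (S_p2a S 0 (n1 + 2) (n3 + 2))
  have z6 : C 1 0 (n1 + 3) (n3 + 3) 0 0 = 0 := (S.c1 1 0 (n1 + 3) (n3 + 3) 0 0).trans (S_p2a S 0 (n1 + 2) (n3 + 2))
  have z7 : C 1 (n1 + 3) 0 (n3 + 3) 0 0 = C 1 0 (n3 + 3) 0 0 (n1 + 3) := S.c1 1 (n1 + 3) 0 (n3 + 3) 0 0
  linear_combination ((1 : ℚ) * r0 + (1 : ℚ) * r1 + (1 : ℚ) * r2 + (1 : ℚ) * r3 + (1 : ℚ) * z0 + (1 : ℚ) * z1)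
    + ((1 : ℚ) * z2 + (1 : ℚ) * z3 + (-1 : ℚ) * z4 + (-1 : ℚ) * z5 + (-1 : ℚ) * z6 + (1 : ℚ) * z7)

theorem L_e2_e1_e0_e1_e0_e0 (S : Sys6 G C D) : C 2 1 0 1 0 0 = 0 := by
  have r0 : G 0 0 0 0 2 1 1 = G 1 0 0 0 0 2 1 := S.z0' 2 1 1
  have r1 : D 1 0 0 2 1 0 = G 0 0 1 0 0 2 1 - G 0 0 1 0 2 1 0 := S.al0' 0 0 2 1 0
  have r2 : C 2 1 0 0 0 1 = G 1 0 0 0 0 2 1 - G 0 0 0 1 0 2 1 := S.al0 0 0 1 1 1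
  have r3 : C 2 1 0 0 1 0 = G 0 0 0 1 0 2 1 - G 0 0 1 0 0 2 1 := S.al0 0 1 0 1 1
  have z0 : G 0 0 0 0 2 1 1 = 0 := S.van 0 0 0 0 0 0 1
  have z1 : G 0 0 1 0 2 1 0 = 0 := S.van 0 0 1 0 0 0 0
  have z2 : D 1 0 0 2 1 0 = 0 := (S.d2 1 0 0 2 1 0).trans (S_p2a S.mirror 0 1 0)
  have z3 : C 2 1 0 0 0 1 = 0 := (S.c4 2 1 0 0 0 1).trans (S_p2a S 1 0 0)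
  have z4 : C 2 1 0 1 0 0 = C 2 1 0 0 1 0 := S.c2 2 1 0 1 0 0
  linear_combination ((-1 : ℚ) * r0 + (1 : ℚ) * r1 + (1 : ℚ) * r2 + (1 : ℚ) * r3 + (1 : ℚ) * z0)
    + ((-1 : ℚ) * z1 + (-1 : ℚ) * z2 + (-1 : ℚ) * z3 + (1 : ℚ) * z4)

theorem L_e2_e1_e0_e2_e0_e0 (S : Sys6 G C D) : C 2 1 0 2 0 0 = 0 := by
  have r0 : G 0 0 0 0 2 2 1 = G 1 0 0 0 0 2 2 := S.z0' 2 2 1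
  have r1 : D 1 0 0 2 2 0 = G 0 0 1 0 0 2 2 - G 0 0 1 0 2 2 0 := S.al0' 0 0 2 2 0
  have r2 : C 2 2 0 0 0 1 = G 1 0 0 0 0 2 2 - G 0 0 0 1 0 2 2 := S.al0 0 0 1 1 2
  have r3 : C 2 2 0 0 1 0 = G 0 0 0 1 0 2 2 - G 0 0 1 0 0 2 2 := S.al0 0 1 0 1 2
  have z0 : G 0 0 0 0 2 2 1 = 0 := S.van 0 0 0 0 0 1 1
  have z1 : G 0 0 1 0 2 2 0 = 0 := S.van 0 0 1 0 0 1 0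
  have z2 : D 1 0 0 2 2 0 = 0 := (S.d2 1 0 0 2 2 0).trans (S_p2a S.mirror 0 1 1)
  have z3 : C 2 2 0 0 0 1 = 0 := (S.c4 2 2 0 0 0 1).trans (S_p2a S 1 0 1)
  have z4 : C 2 1 0 2 0 0 = C 2 2 0 0 1 0 := S.c2 2 1 0 2 0 0
  linear_combination ((-1 : ℚ) * r0 + (1 : ℚ) * r1 + (1 : ℚ) * r2 + (1 : ℚ) * r3 + (1 : ℚ) * z0)
    + ((-1 : ℚ) * z1 + (-1 : ℚ) * z2 + (-1 : ℚ) * z3 + (1 : ℚ) * z4)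

theorem L_e2_e1_e0_g3_e0_e0 (S : Sys6 G C D) (n3 : ℕ) : C 2 1 0 (n3 + 3) 0 0 = 0 := by
  have r0 : G 0 0 0 0 2 (n3 + 3) 1 = G 1 0 0 0 0 2 (n3 + 3) := S.z0' 2 (n3 + 3) 1
  have r1 : D 1 0 0 2 (n3 + 3) 0 = G 0 0 1 0 0 2 (n3 + 3) - G 0 0 1 0 2 (n3 + 3) 0 := S.al0' 0 0 2 (n3 + 3) 0
  have r2 : C 2 (n3 + 3) 0 0 0 1 = G 1 0 0 0 0 2 (n3 + 3) - G 0 0 0 1 0 2 (n3 + 3) := S.al0 0 0 1 1 (n3 + 3)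
  have r3 : C 2 (n3 + 3) 0 0 1 0 = G 0 0 0 1 0 2 (n3 + 3) - G 0 0 1 0 0 2 (n3 + 3) := S.al0 0 1 0 1 (n3 + 3)
  have z0 : G 0 0 0 0 2 (n3 + 3) 1 = 0 := S.van 0 0 0 0 0 (n3 + 2) 1
  have z1 : G 0 0 1 0 2 (n3 + 3) 0 = 0 := S.van 0 0 1 0 0 (n3 + 2) 0
  have z2 : D 1 0 0 2 (n3 + 3) 0 = 0 := (S.d2 1 0 0 2 (n3 + 3) 0).trans (S_p2a S.mirror 0 1 (n3 + 2))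
  have z3 : C 2 (n3 + 3) 0 0 0 1 = 0 := (S.c4 2 (n3 + 3) 0 0 0 1).trans (S_p2a S 1 0 (n3 + 2))
  have z4 : C 2 1 0 (n3 + 3) 0 0 = C 2 (n3 + 3) 0 0 1 0 := S.c2 2 1 0 (n3 + 3) 0 0
  linear_combination ((-1 : ℚ) * r0 + (1 : ℚ) * r1 + (1 : ℚ) * r2 + (1 : ℚ) * r3 + (1 : ℚ) * z0)
    + ((-1 : ℚ) * z1 + (-1 : ℚ) * z2 + (-1 : ℚ) * z3 + (1 : ℚ) * z4)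

theorem L_e2_e2_e0_e1_e0_e0 (S : Sys6 G C D) : C 2 2 0 1 0 0 = 0 := by
  have r0 : G 0 0 0 0 2 1 2 = G 2 0 0 0 0 2 1 := S.z0' 2 1 2
  have r1 : D 2 0 0 2 1 0 = G 0 0 2 0 0 2 1 - G 0 0 2 0 2 1 0 := S.al0' 1 0 2 1 0
  have r2 : C 2 1 0 0 0 2 = G 2 0 0 0 0 2 1 - G 0 0 0 2 0 2 1 := S.al0 0 0 2 1 1
  have r3 : C 2 1 0 0 2 0 = G 0 0 0 2 0 2 1 - G 0 0 2 0 0 2 1 := S.al0 0 2 0 1 1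
  have z0 : G 0 0 0 0 2 1 2 = 0 := S.van 0 0 0 0 0 0 2
  have z1 : G 0 0 2 0 2 1 0 = 0 := S.van 0 0 2 0 0 0 0
  have z2 : D 2 0 0 2 1 0 = 0 := (S.d2 2 0 0 2 1 0).trans (S_p2a S.mirror 1 1 0)
  have z3 : C 2 1 0 0 0 2 = 0 := (S.c4 2 1 0 0 0 2).trans (S_p2a S 1 1 0)
  have z4 : C 2 2 0 1 0 0 = C 2 1 0 0 2 0 := S.c2 2 2 0 1 0 0
  linear_combination ((-1 : ℚ) * r0 + (1 : ℚ) * r1 + (1 : ℚ) * r2 + (1 : ℚ) * r3 + (1 : ℚ) * z0)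
    + ((-1 : ℚ) * z1 + (-1 : ℚ) * z2 + (-1 : ℚ) * z3 + (1 : ℚ) * z4)

theorem L_e2_e2_e0_e2_e0_e0 (S : Sys6 G C D) : C 2 2 0 2 0 0 = 0 := by
  have r0 : G 0 0 0 0 2 2 2 = G 2 0 0 0 0 2 2 := S.z0' 2 2 2
  have r1 : D 2 0 0 2 2 0 = G 0 0 2 0 0 2 2 - G 0 0 2 0 2 2 0 := S.al0' 1 0 2 2 0
  have r2 : C 2 2 0 0 0 2 = G 2 0 0 0 0 2 2 - G 0 0 0 2 0 2 2 := S.al0 0 0 2 1 2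
  have r3 : C 2 2 0 0 2 0 = G 0 0 0 2 0 2 2 - G 0 0 2 0 0 2 2 := S.al0 0 2 0 1 2
  have z0 : G 0 0 0 0 2 2 2 = 0 := S.van 0 0 0 0 0 1 2
  have z1 : G 0 0 2 0 2 2 0 = 0 := S.van 0 0 2 0 0 1 0
  have z2 : D 2 0 0 2 2 0 = 0 := (S.d2 2 0 0 2 2 0).trans (S_p2a S.mirror 1 1 1)
  have z3 : C 2 2 0 0 0 2 = 0 := (S.c4 2 2 0 0 0 2).trans (S_p2a S 1 1 1)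
  have z4 : C 2 2 0 2 0 0 = C 2 2 0 0 2 0 := S.c2 2 2 0 2 0 0
  linear_combination ((-1 : ℚ) * r0 + (1 : ℚ) * r1 + (1 : ℚ) * r2 + (1 : ℚ) * r3 + (1 : ℚ) * z0)
    + ((-1 : ℚ) * z1 + (-1 : ℚ) * z2 + (-1 : ℚ) * z3 + (1 : ℚ) * z4)

theorem L_e2_e2_e0_g3_e0_e0 (S : Sys6 G C D) (n3 : ℕ) : C 2 2 0 (n3 + 3) 0 0 = 0 := by
  have r0 : G 0 0 0 0 2 (n3 + 3) 2 = G 2 0 0 0 0 2 (n3 + 3) := S.z0' 2 (n3 + 3) 2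
  have r1 : D 2 0 0 2 (n3 + 3) 0 = G 0 0 2 0 0 2 (n3 + 3) - G 0 0 2 0 2 (n3 + 3) 0 := S.al0' 1 0 2 (n3 + 3) 0
  have r2 : C 2 (n3 + 3) 0 0 0 2 = G 2 0 0 0 0 2 (n3 + 3) - G 0 0 0 2 0 2 (n3 + 3) := S.al0 0 0 2 1 (n3 + 3)
  have r3 : C 2 (n3 + 3) 0 0 2 0 = G 0 0 0 2 0 2 (n3 + 3) - G 0 0 2 0 0 2 (n3 + 3) := S.al0 0 2 0 1 (n3 + 3)
  have z0 : G 0 0 0 0 2 (n3 + 3) 2 = 0 := S.van 0 0 0 0 0 (n3 + 2) 2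
  have z1 : G 0 0 2 0 2 (n3 + 3) 0 = 0 := S.van 0 0 2 0 0 (n3 + 2) 0
  have z2 : D 2 0 0 2 (n3 + 3) 0 = 0 := (S.d2 2 0 0 2 (n3 + 3) 0).trans (S_p2a S.mirror 1 1 (n3 + 2))
  have z3 : C 2 (n3 + 3) 0 0 0 2 = 0 := (S.c4 2 (n3 + 3) 0 0 0 2).trans (S_p2a S 1 1 (n3 + 2))
  have z4 : C 2 2 0 (n3 + 3) 0 0 = C 2 (n3 + 3) 0 0 2 0 := S.c2 2 2 0 (n3 + 3) 0 0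
  linear_combination ((-1 : ℚ) * r0 + (1 : ℚ) * r1 + (1 : ℚ) * r2 + (1 : ℚ) * r3 + (1 : ℚ) * z0)
    + ((-1 : ℚ) * z1 + (-1 : ℚ) * z2 + (-1 : ℚ) * z3 + (1 : ℚ) * z4)

theorem L_e2_g3_e0_e1_e0_e0 (S : Sys6 G C D) (n1 : ℕ) : C 2 (n1 + 3) 0 1 0 0 = 0 := by
  have r0 : G 0 0 0 0 2 1 (n1 + 3) = G (n1 + 3) 0 0 0 0 2 1 := S.z0' 2 1 (n1 + 3)
  have r1 : D (n1 + 3) 0 0 2 1 0 = G 0 0 (n1 + 3) 0 0 2 1 - G 0 0 (n1 + 3) 0 2 1 0 := S.al0' (n1 + 2) 0 2 1 0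
  have r2 : C 2 1 0 0 0 (n1 + 3) = G (n1 + 3) 0 0 0 0 2 1 - G 0 0 0 (n1 + 3) 0 2 1 := S.al0 0 0 (n1 + 3) 1 1
  have r3 : C 2 1 0 0 (n1 + 3) 0 = G 0 0 0 (n1 + 3) 0 2 1 - G 0 0 (n1 + 3) 0 0 2 1 := S.al0 0 (n1 + 3) 0 1 1
  have z0 : G 0 0 0 0 2 1 (n1 + 3) = 0 := S.van 0 0 0 0 0 0 (n1 + 3)
  have z1 : G 0 0 (n1 + 3) 0 2 1 0 = 0 := S.van 0 0 (n1 + 3) 0 0 0 0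
  have z2 : D (n1 + 3) 0 0 2 1 0 = 0 := (S.d2 (n1 + 3) 0 0 2 1 0).trans (S_p2a S.mirror (n1 + 2) 1 0)
  have z3 : C 2 1 0 0 0 (n1 + 3) = 0 := (S.c4 2 1 0 0 0 (n1 + 3)).trans (S_p2a S 1 (n1 + 2) 0)
  have z4 : C 2 (n1 + 3) 0 1 0 0 = C 2 1 0 0 (n1 + 3) 0 := S.c2 2 (n1 + 3) 0 1 0 0
  linear_combination ((-1 : ℚ) * r0 + (1 : ℚ) * r1 + (1 : ℚ) * r2 + (1 : ℚ) * r3 + (1 : ℚ) * z0)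
    + ((-1 : ℚ) * z1 + (-1 : ℚ) * z2 + (-1 : ℚ) * z3 + (1 : ℚ) * z4)

theorem L_e2_g3_e0_e2_e0_e0 (S : Sys6 G C D) (n1 : ℕ) : C 2 (n1 + 3) 0 2 0 0 = 0 := by
  have r0 : G 0 0 0 0 2 2 (n1 + 3) = G (n1 + 3) 0 0 0 0 2 2 := S.z0' 2 2 (n1 + 3)
  have r1 : D (n1 + 3) 0 0 2 2 0 = G 0 0 (n1 + 3) 0 0 2 2 - G 0 0 (n1 + 3) 0 2 2 0 := S.al0' (n1 + 2) 0 2 2 0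
  have r2 : C 2 2 0 0 0 (n1 + 3) = G (n1 + 3) 0 0 0 0 2 2 - G 0 0 0 (n1 + 3) 0 2 2 := S.al0 0 0 (n1 + 3) 1 2
  have r3 : C 2 2 0 0 (n1 + 3) 0 = G 0 0 0 (n1 + 3) 0 2 2 - G 0 0 (n1 + 3) 0 0 2 2 := S.al0 0 (n1 + 3) 0 1 2
  have z0 : G 0 0 0 0 2 2 (n1 + 3) = 0 := S.van 0 0 0 0 0 1 (n1 + 3)
  have z1 : G 0 0 (n1 + 3) 0 2 2 0 = 0 := S.van 0 0 (n1 + 3) 0 0 1 0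
  have z2 : D (n1 + 3) 0 0 2 2 0 = 0 := (S.d2 (n1 + 3) 0 0 2 2 0).trans (S_p2a S.mirror (n1 + 2) 1 1)
  have z3 : C 2 2 0 0 0 (n1 + 3) = 0 := (S.c4 2 2 0 0 0 (n1 + 3)).trans (S_p2a S 1 (n1 + 2) 1)
  have z4 : C 2 (n1 + 3) 0 2 0 0 = C 2 2 0 0 (n1 + 3) 0 := S.c2 2 (n1 + 3) 0 2 0 0
  linear_combination ((-1 : ℚ) * r0 + (1 : ℚ) * r1 + (1 : ℚ) * r2 + (1 : ℚ) * r3 + (1 : ℚ) * z0)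
    + ((-1 : ℚ) * z1 + (-1 : ℚ) * z2 + (-1 : ℚ) * z3 + (1 : ℚ) * z4)

theorem L_e2_g3_e0_g3_e0_e0 (S : Sys6 G C D) (n1 n3 : ℕ) : C 2 (n1 + 3) 0 (n3 + 3) 0 0 = 0 := by
  have r0 : C 2 0 0 0 (n1 + 3) (n3 + 3) = G (n3 + 3) 0 0 (n1 + 3) 0 2 0 - G 0 0 (n1 + 3) (n3 + 3) 0 2 0 := S.al0 0 (n1 + 3) (n3 + 3) 1 0
  have r1 : C 2 0 0 (n1 + 3) (n3 + 3) 0 = G 0 0 (n1 + 3) (n3 + 3) 0 2 0 - G 0 (n1 + 3) (n3 + 3) 0 0 2 0 := S.al0 (n1 + 3) (n3 + 3) 0 1 0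
  have r2 : C 2 0 (n1 + 3) (n3 + 3) 0 0 = G 0 (n1 + 3) (n3 + 3) 0 0 2 0 - G (n1 + 3) (n3 + 3) 0 0 0 2 0 + G (n1 + 2) (n3 + 3) 0 0 1 2 0 := S.al1 (n1 + 2) (n3 + 3) 0 0 1 0
  have r3 : C 2 0 (n3 + 3) 0 0 (n1 + 3) = G (n1 + 3) (n3 + 3) 0 0 0 2 0 - G (n3 + 3) 0 0 (n1 + 3) 0 2 0 + G (n3 + 2) 0 0 (n1 + 3) 1 2 0 := S.al1 (n3 + 2) 0 0 (n1 + 3) 1 0
  have z0 : G (n1 + 2) (n3 + 3) 0 0 1 2 0 = G 0 (n1 + 2) (n3 + 3) 0 1 2 0 := S.r1 (n1 + 2) (n3 + 3) 0 0 1 0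
  have z1 : G 0 (n1 + 2) (n3 + 3) 0 1 2 0 = 0 := S.van' 0 n1 (n3 + 2) 0 1 2 0
  have z2 : G (n3 + 2) 0 0 (n1 + 3) 1 2 0 = G 0 (n1 + 3) (n3 + 2) 0 1 2 0 := S.r2 (n3 + 2) 0 0 (n1 + 3) 1 0
  have z3 : G 0 (n1 + 3) (n3 + 2) 0 1 2 0 = 0 := S.van' 0 (n1 + 1) (n3 + 1) 0 1 2 0
  have z4 : C 2 0 0 0 (n1 + 3) (n3 + 3) = 0 := (S.c3 2 0 0 0 (n1 + 3) (n3 + 3)).trans (S_p2a S 1 (n1 + 2) (n3 + 2))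
  have z5 : C 2 0 0 (n1 + 3) (n3 + 3) 0 = 0 := (S.c2 2 0 0 (n1 + 3) (n3 + 3) 0).trans (S_p2a S 1 (n1 + 2) (n3 + 2))
  have z6 : C 2 0 (n1 + 3) (n3 + 3) 0 0 = 0 := (S.c1 2 0 (n1 + 3) (n3 + 3) 0 0).trans (S_p2a S 1 (n1 + 2) (n3 + 2))
  have z7 : C 2 (n1 + 3) 0 (n3 + 3) 0 0 = C 2 0 (n3 + 3) 0 0 (n1 + 3) := S.c1 2 (n1 + 3) 0 (n3 + 3) 0 0
  linear_combination ((1 : ℚ) * r0 + (1 : ℚ) * r1 + (1 : ℚ) * r2 + (1 : ℚ) * r3 + (1 : ℚ) * z0 + (1 : ℚ) * z1)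
    + ((1 : ℚ) * z2 + (1 : ℚ) * z3 + (-1 : ℚ) * z4 + (-1 : ℚ) * z5 + (-1 : ℚ) * z6 + (1 : ℚ) * z7)

theorem L_g3_e1_e0_e1_e0_e0 (S : Sys6 G C D) (n6 : ℕ) : C (n6 + 3) 1 0 1 0 0 = 0 := by
  have r0 : G 0 0 0 0 (n6 + 3) 1 1 = G 1 0 0 0 0 (n6 + 3) 1 := S.z0' (n6 + 3) 1 1
  have r1 : D 1 0 0 (n6 + 3) 1 0 = G 0 0 1 0 0 (n6 + 3) 1 - G 0 0 1 0 (n6 + 3) 1 0 := S.al0' 0 0 (n6 + 3) 1 0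
  have r2 : C (n6 + 3) 1 0 0 0 1 = G 1 0 0 0 0 (n6 + 3) 1 - G 0 0 0 1 0 (n6 + 3) 1 := S.al0 0 0 1 (n6 + 2) 1
  have r3 : C (n6 + 3) 1 0 0 1 0 = G 0 0 0 1 0 (n6 + 3) 1 - G 0 0 1 0 0 (n6 + 3) 1 := S.al0 0 1 0 (n6 + 2) 1
  have z0 : G 0 0 0 0 (n6 + 3) 1 1 = 0 := S.van 0 0 0 0 (n6 + 1) 0 1
  have z1 : G 0 0 1 0 (n6 + 3) 1 0 = 0 := S.van 0 0 1 0 (n6 + 1) 0 0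
  have z2 : D 1 0 0 (n6 + 3) 1 0 = 0 := (S.d2 1 0 0 (n6 + 3) 1 0).trans (S_p2a S.mirror 0 (n6 + 2) 0)
  have z3 : C (n6 + 3) 1 0 0 0 1 = 0 := (S.c4 (n6 + 3) 1 0 0 0 1).trans (S_p2a S (n6 + 2) 0 0)
  have z4 : C (n6 + 3) 1 0 1 0 0 = C (n6 + 3) 1 0 0 1 0 := S.c2 (n6 + 3) 1 0 1 0 0
  linear_combination ((-1 : ℚ) * r0 + (1 : ℚ) * r1 + (1 : ℚ) * r2 + (1 : ℚ) * r3 + (1 : ℚ) * z0)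
    + ((-1 : ℚ) * z1 + (-1 : ℚ) * z2 + (-1 : ℚ) * z3 + (1 : ℚ) * z4)

theorem L_g3_e1_e0_e2_e0_e0 (S : Sys6 G C D) (n6 : ℕ) : C (n6 + 3) 1 0 2 0 0 = 0 := by
  have r0 : G 0 0 0 0 (n6 + 3) 2 1 = G 1 0 0 0 0 (n6 + 3) 2 := S.z0' (n6 + 3) 2 1
  have r1 : D 1 0 0 (n6 + 3) 2 0 = G 0 0 1 0 0 (n6 + 3) 2 - G 0 0 1 0 (n6 + 3) 2 0 := S.al0' 0 0 (n6 + 3) 2 0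
  have r2 : C (n6 + 3) 2 0 0 0 1 = G 1 0 0 0 0 (n6 + 3) 2 - G 0 0 0 1 0 (n6 + 3) 2 := S.al0 0 0 1 (n6 + 2) 2
  have r3 : C (n6 + 3) 2 0 0 1 0 = G 0 0 0 1 0 (n6 + 3) 2 - G 0 0 1 0 0 (n6 + 3) 2 := S.al0 0 1 0 (n6 + 2) 2
  have z0 : G 0 0 0 0 (n6 + 3) 2 1 = 0 := S.van 0 0 0 0 (n6 + 1) 1 1
  have z1 : G 0 0 1 0 (n6 + 3) 2 0 = 0 := S.van 0 0 1 0 (n6 + 1) 1 0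
  have z2 : D 1 0 0 (n6 + 3) 2 0 = 0 := (S.d2 1 0 0 (n6 + 3) 2 0).trans (S_p2a S.mirror 0 (n6 + 2) 1)
  have z3 : C (n6 + 3) 2 0 0 0 1 = 0 := (S.c4 (n6 + 3) 2 0 0 0 1).trans (S_p2a S (n6 + 2) 0 1)
  have z4 : C (n6 + 3) 1 0 2 0 0 = C (n6 + 3) 2 0 0 1 0 := S.c2 (n6 + 3) 1 0 2 0 0
  linear_combination ((-1 : ℚ) * r0 + (1 : ℚ) * r1 + (1 : ℚ) * r2 + (1 : ℚ) * r3 + (1 : ℚ) * z0)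
    + ((-1 : ℚ) * z1 + (-1 : ℚ) * z2 + (-1 : ℚ) * z3 + (1 : ℚ) * z4)

theorem L_g3_e1_e0_g3_e0_e0 (S : Sys6 G C D) (n6 n3 : ℕ) : C (n6 + 3) 1 0 (n3 + 3) 0 0 = 0 := by
  have r0 : G 0 0 0 0 (n6 + 3) (n3 + 3) 1 = G 1 0 0 0 0 (n6 + 3) (n3 + 3) := S.z0' (n6 + 3) (n3 + 3) 1
  have r1 : D 1 0 0 (n6 + 3) (n3 + 3) 0 = G 0 0 1 0 0 (n6 + 3) (n3 + 3) - G 0 0 1 0 (n6 + 3) (n3 + 3) 0 := S.al0' 0 0 (n6 + 3) (n3 + 3) 0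
  have r2 : C (n6 + 3) (n3 + 3) 0 0 0 1 = G 1 0 0 0 0 (n6 + 3) (n3 + 3) - G 0 0 0 1 0 (n6 + 3) (n3 + 3) := S.al0 0 0 1 (n6 + 2) (n3 + 3)
  have r3 : C (n6 + 3) (n3 + 3) 0 0 1 0 = G 0 0 0 1 0 (n6 + 3) (n3 + 3) - G 0 0 1 0 0 (n6 + 3) (n3 + 3) := S.al0 0 1 0 (n6 + 2) (n3 + 3)
  have z0 : G 0 0 0 0 (n6 + 3) (n3 + 3) 1 = 0 := S.van 0 0 0 0 (n6 + 1) (n3 + 2) 1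
  have z1 : G 0 0 1 0 (n6 + 3) (n3 + 3) 0 = 0 := S.van 0 0 1 0 (n6 + 1) (n3 + 2) 0
  have z2 : D 1 0 0 (n6 + 3) (n3 + 3) 0 = 0 := (S.d2 1 0 0 (n6 + 3) (n3 + 3) 0).trans (S_p2a S.mirror 0 (n6 + 2) (n3 + 2))
  have z3 : C (n6 + 3) (n3 + 3) 0 0 0 1 = 0 := (S.c4 (n6 + 3) (n3 + 3) 0 0 0 1).trans (S_p2a S (n6 + 2) 0 (n3 + 2))
  have z4 : C (n6 + 3) 1 0 (n3 + 3) 0 0 = C (n6 + 3) (n3 + 3) 0 0 1 0 := S.c2 (n6 + 3) 1 0 (n3 + 3) 0 0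
  linear_combination ((-1 : ℚ) * r0 + (1 : ℚ) * r1 + (1 : ℚ) * r2 + (1 : ℚ) * r3 + (1 : ℚ) * z0)
    + ((-1 : ℚ) * z1 + (-1 : ℚ) * z2 + (-1 : ℚ) * z3 + (1 : ℚ) * z4)

theorem L_g3_e2_e0_e1_e0_e0 (S : Sys6 G C D) (n6 : ℕ) : C (n6 + 3) 2 0 1 0 0 = 0 := by
  have r0 : G 0 0 0 0 (n6 + 3) 1 2 = G 2 0 0 0 0 (n6 + 3) 1 := S.z0' (n6 + 3) 1 2
  have r1 : D 2 0 0 (n6 + 3) 1 0 = G 0 0 2 0 0 (n6 + 3) 1 - G 0 0 2 0 (n6 + 3) 1 0 := S.al0' 1 0 (n6 + 3) 1 0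
  have r2 : C (n6 + 3) 1 0 0 0 2 = G 2 0 0 0 0 (n6 + 3) 1 - G 0 0 0 2 0 (n6 + 3) 1 := S.al0 0 0 2 (n6 + 2) 1
  have r3 : C (n6 + 3) 1 0 0 2 0 = G 0 0 0 2 0 (n6 + 3) 1 - G 0 0 2 0 0 (n6 + 3) 1 := S.al0 0 2 0 (n6 + 2) 1
  have z0 : G 0 0 0 0 (n6 + 3) 1 2 = 0 := S.van 0 0 0 0 (n6 + 1) 0 2
  have z1 : G 0 0 2 0 (n6 + 3) 1 0 = 0 := S.van 0 0 2 0 (n6 + 1) 0 0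
  have z2 : D 2 0 0 (n6 + 3) 1 0 = 0 := (S.d2 2 0 0 (n6 + 3) 1 0).trans (S_p2a S.mirror 1 (n6 + 2) 0)
  have z3 : C (n6 + 3) 1 0 0 0 2 = 0 := (S.c4 (n6 + 3) 1 0 0 0 2).trans (S_p2a S (n6 + 2) 1 0)
  have z4 : C (n6 + 3) 2 0 1 0 0 = C (n6 + 3) 1 0 0 2 0 := S.c2 (n6 + 3) 2 0 1 0 0
  linear_combination ((-1 : ℚ) * r0 + (1 : ℚ) * r1 + (1 : ℚ) * r2 + (1 : ℚ) * r3 + (1 : ℚ) * z0)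
    + ((-1 : ℚ) * z1 + (-1 : ℚ) * z2 + (-1 : ℚ) * z3 + (1 : ℚ) * z4)

theorem L_g3_e2_e0_e2_e0_e0 (S : Sys6 G C D) (n6 : ℕ) : C (n6 + 3) 2 0 2 0 0 = 0 := by
  have r0 : G 0 0 0 0 (n6 + 3) 2 2 = G 2 0 0 0 0 (n6 + 3) 2 := S.z0' (n6 + 3) 2 2
  have r1 : D 2 0 0 (n6 + 3) 2 0 = G 0 0 2 0 0 (n6 + 3) 2 - G 0 0 2 0 (n6 + 3) 2 0 := S.al0' 1 0 (n6 + 3) 2 0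
  have r2 : C (n6 + 3) 2 0 0 0 2 = G 2 0 0 0 0 (n6 + 3) 2 - G 0 0 0 2 0 (n6 + 3) 2 := S.al0 0 0 2 (n6 + 2) 2
  have r3 : C (n6 + 3) 2 0 0 2 0 = G 0 0 0 2 0 (n6 + 3) 2 - G 0 0 2 0 0 (n6 + 3) 2 := S.al0 0 2 0 (n6 + 2) 2
  have z0 : G 0 0 0 0 (n6 + 3) 2 2 = 0 := S.van 0 0 0 0 (n6 + 1) 1 2
  have z1 : G 0 0 2 0 (n6 + 3) 2 0 = 0 := S.van 0 0 2 0 (n6 + 1) 1 0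
  have z2 : D 2 0 0 (n6 + 3) 2 0 = 0 := (S.d2 2 0 0 (n6 + 3) 2 0).trans (S_p2a S.mirror 1 (n6 + 2) 1)
  have z3 : C (n6 + 3) 2 0 0 0 2 = 0 := (S.c4 (n6 + 3) 2 0 0 0 2).trans (S_p2a S (n6 + 2) 1 1)
  have z4 : C (n6 + 3) 2 0 2 0 0 = C (n6 + 3) 2 0 0 2 0 := S.c2 (n6 + 3) 2 0 2 0 0
  linear_combination ((-1 : ℚ) * r0 + (1 : ℚ) * r1 + (1 : ℚ) * r2 + (1 : ℚ) * r3 + (1 : ℚ) * z0)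
    + ((-1 : ℚ) * z1 + (-1 : ℚ) * z2 + (-1 : ℚ) * z3 + (1 : ℚ) * z4)

theorem L_g3_e2_e0_g3_e0_e0 (S : Sys6 G C D) (n6 n3 : ℕ) : C (n6 + 3) 2 0 (n3 + 3) 0 0 = 0 := by
  have r0 : G 0 0 0 0 (n6 + 3) (n3 + 3) 2 = G 2 0 0 0 0 (n6 + 3) (n3 + 3) := S.z0' (n6 + 3) (n3 + 3) 2
  have r1 : D 2 0 0 (n6 + 3) (n3 + 3) 0 = G 0 0 2 0 0 (n6 + 3) (n3 + 3) - G 0 0 2 0 (n6 + 3) (n3 + 3) 0 := S.al0' 1 0 (n6 + 3) (n3 + 3) 0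
  have r2 : C (n6 + 3) (n3 + 3) 0 0 0 2 = G 2 0 0 0 0 (n6 + 3) (n3 + 3) - G 0 0 0 2 0 (n6 + 3) (n3 + 3) := S.al0 0 0 2 (n6 + 2) (n3 + 3)
  have r3 : C (n6 + 3) (n3 + 3) 0 0 2 0 = G 0 0 0 2 0 (n6 + 3) (n3 + 3) - G 0 0 2 0 0 (n6 + 3) (n3 + 3) := S.al0 0 2 0 (n6 + 2) (n3 + 3)
  have z0 : G 0 0 0 0 (n6 + 3) (n3 + 3) 2 = 0 := S.van 0 0 0 0 (n6 + 1) (n3 + 2) 2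
  have z1 : G 0 0 2 0 (n6 + 3) (n3 + 3) 0 = 0 := S.van 0 0 2 0 (n6 + 1) (n3 + 2) 0
  have z2 : D 2 0 0 (n6 + 3) (n3 + 3) 0 = 0 := (S.d2 2 0 0 (n6 + 3) (n3 + 3) 0).trans (S_p2a S.mirror 1 (n6 + 2) (n3 + 2))
  have z3 : C (n6 + 3) (n3 + 3) 0 0 0 2 = 0 := (S.c4 (n6 + 3) (n3 + 3) 0 0 0 2).trans (S_p2a S (n6 + 2) 1 (n3 + 2))
  have z4 : C (n6 + 3) 2 0 (n3 + 3) 0 0 = C (n6 + 3) (n3 + 3) 0 0 2 0 := S.c2 (n6 + 3) 2 0 (n3 + 3) 0 0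
  linear_combination ((-1 : ℚ) * r0 + (1 : ℚ) * r1 + (1 : ℚ) * r2 + (1 : ℚ) * r3 + (1 : ℚ) * z0)
    + ((-1 : ℚ) * z1 + (-1 : ℚ) * z2 + (-1 : ℚ) * z3 + (1 : ℚ) * z4)

theorem L_g3_g3_e0_e1_e0_e0 (S : Sys6 G C D) (n6 n1 : ℕ) : C (n6 + 3) (n1 + 3) 0 1 0 0 = 0 := by
  have r0 : G 0 0 0 0 (n6 + 3) 1 (n1 + 3) = G (n1 + 3) 0 0 0 0 (n6 + 3) 1 := S.z0' (n6 + 3) 1 (n1 + 3)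
  have r1 : D (n1 + 3) 0 0 (n6 + 3) 1 0 = G 0 0 (n1 + 3) 0 0 (n6 + 3) 1 - G 0 0 (n1 + 3) 0 (n6 + 3) 1 0 := S.al0' (n1 + 2) 0 (n6 + 3) 1 0
  have r2 : C (n6 + 3) 1 0 0 0 (n1 + 3) = G (n1 + 3) 0 0 0 0 (n6 + 3) 1 - G 0 0 0 (n1 + 3) 0 (n6 + 3) 1 := S.al0 0 0 (n1 + 3) (n6 + 2) 1
  have r3 : C (n6 + 3) 1 0 0 (n1 + 3) 0 = G 0 0 0 (n1 + 3) 0 (n6 + 3) 1 - G 0 0 (n1 + 3) 0 0 (n6 + 3) 1 := S.al0 0 (n1 + 3) 0 (n6 + 2) 1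
  have z0 : G 0 0 0 0 (n6 + 3) 1 (n1 + 3) = 0 := S.van 0 0 0 0 (n6 + 1) 0 (n1 + 3)
  have z1 : G 0 0 (n1 + 3) 0 (n6 + 3) 1 0 = 0 := S.van 0 0 (n1 + 3) 0 (n6 + 1) 0 0
  have z2 : D (n1 + 3) 0 0 (n6 + 3) 1 0 = 0 := (S.d2 (n1 + 3) 0 0 (n6 + 3) 1 0).trans (S_p2a S.mirror (n1 + 2) (n6 + 2) 0)
  have z3 : C (n6 + 3) 1 0 0 0 (n1 + 3) = 0 := (S.c4 (n6 + 3) 1 0 0 0 (n1 + 3)).trans (S_p2a S (n6 + 2) (n1 + 2) 0)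
  have z4 : C (n6 + 3) (n1 + 3) 0 1 0 0 = C (n6 + 3) 1 0 0 (n1 + 3) 0 := S.c2 (n6 + 3) (n1 + 3) 0 1 0 0
  linear_combination ((-1 : ℚ) * r0 + (1 : ℚ) * r1 + (1 : ℚ) * r2 + (1 : ℚ) * r3 + (1 : ℚ) * z0)
    + ((-1 : ℚ) * z1 + (-1 : ℚ) * z2 + (-1 : ℚ) * z3 + (1 : ℚ) * z4)

theorem L_g3_g3_e0_e2_e0_e0 (S : Sys6 G C D) (n6 n1 : ℕ) : C (n6 + 3) (n1 + 3) 0 2 0 0 = 0 := by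
  have r0 : G 0 0 0 0 (n6 + 3) 2 (n1 + 3) = G (n1 + 3) 0 0 0 0 (n6 + 3) 2 := S.z0' (n6 + 3) 2 (n1 + 3)
  have r1 : D (n1 + 3) 0 0 (n6 + 3) 2 0 = G 0 0 (n1 + 3) 0 0 (n6 + 3) 2 - G 0 0 (n1 + 3) 0 (n6 + 3) 2 0 := S.al0' (n1 + 2) 0 (n6 + 3) 2 0
  have r2 : C (n6 + 3) 2 0 0 0 (n1 + 3) = G (n1 + 3) 0 0 0 0 (n6 + 3) 2 - G 0 0 0 (n1 + 3) 0 (n6 + 3) 2 := S.al0 0 0 (n1 + 3) (n6 + 2) 2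
  have r3 : C (n6 + 3) 2 0 0 (n1 + 3) 0 = G 0 0 0 (n1 + 3) 0 (n6 + 3) 2 - G 0 0 (n1 + 3) 0 0 (n6 + 3) 2 := S.al0 0 (n1 + 3) 0 (n6 + 2) 2
  have z0 : G 0 0 0 0 (n6 + 3) 2 (n1 + 3) = 0 := S.van 0 0 0 0 (n6 + 1) 1 (n1 + 3)
  have z1 : G 0 0 (n1 + 3) 0 (n6 + 3) 2 0 = 0 := S.van 0 0 (n1 + 3) 0 (n6 + 1) 1 0
  have z2 : D (n1 + 3) 0 0 (n6 + 3) 2 0 = 0 := (S.d2 (n1 + 3) 0 0 (n6 + 3) 2 0).trans (S_p2a S.mirror (n1 + 2) (n6 + 2) 1)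
  have z3 : C (n6 + 3) 2 0 0 0 (n1 + 3) = 0 := (S.c4 (n6 + 3) 2 0 0 0 (n1 + 3)).trans (S_p2a S (n6 + 2) (n1 + 2) 1)
  have z4 : C (n6 + 3) (n1 + 3) 0 2 0 0 = C (n6 + 3) 2 0 0 (n1 + 3) 0 := S.c2 (n6 + 3) (n1 + 3) 0 2 0 0
  linear_combination ((-1 : ℚ) * r0 + (1 : ℚ) * r1 + (1 : ℚ) * r2 + (1 : ℚ) * r3 + (1 : ℚ) * z0)
    + ((-1 : ℚ) * z1 + (-1 : ℚ) * z2 + (-1 : ℚ) * z3 + (1 : ℚ) * z4)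

theorem L_g3_g3_e0_g3_e0_e0 (S : Sys6 G C D) (n6 n1 n3 : ℕ) : C (n6 + 3) (n1 + 3) 0 (n3 + 3) 0 0 = 0 := by
  have r0 : C (n6 + 3) 0 0 0 (n1 + 3) (n3 + 3) = G (n3 + 3) 0 0 (n1 + 3) 0 (n6 + 3) 0 - G 0 0 (n1 + 3) (n3 + 3) 0 (n6 + 3) 0 := S.al0 0 (n1 + 3) (n3 + 3) (n6 + 2) 0
  have r1 : C (n6 + 3) 0 0 (n1 + 3) (n3 + 3) 0 = G 0 0 (n1 + 3) (n3 + 3) 0 (n6 + 3) 0 - G 0 (n1 + 3) (n3 + 3) 0 0 (n6 + 3) 0 := S.al0 (n1 + 3) (n3 + 3) 0 (n6 + 2) 0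
  have r2 : C (n6 + 3) 0 (n1 + 3) (n3 + 3) 0 0 = G 0 (n1 + 3) (n3 + 3) 0 0 (n6 + 3) 0 - G (n1 + 3) (n3 + 3) 0 0 0 (n6 + 3) 0 + G (n1 + 2) (n3 + 3) 0 0 1 (n6 + 3) 0 := S.al1 (n1 + 2) (n3 + 3) 0 0 (n6 + 2) 0
  have r3 : C (n6 + 3) 0 (n3 + 3) 0 0 (n1 + 3) = G (n1 + 3) (n3 + 3) 0 0 0 (n6 + 3) 0 - G (n3 + 3) 0 0 (n1 + 3) 0 (n6 + 3) 0 + G (n3 + 2) 0 0 (n1 + 3) 1 (n6 + 3) 0 := S.al1 (n3 + 2) 0 0 (n1 + 3) (n6 + 2) 0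
  have z0 : G (n1 + 2) (n3 + 3) 0 0 1 (n6 + 3) 0 = G 0 (n1 + 2) (n3 + 3) 0 1 (n6 + 3) 0 := S.r1 (n1 + 2) (n3 + 3) 0 0 (n6 + 2) 0
  have z1 : G 0 (n1 + 2) (n3 + 3) 0 1 (n6 + 3) 0 = 0 := S.van' 0 n1 (n3 + 2) 0 1 (n6 + 3) 0
  have z2 : G (n3 + 2) 0 0 (n1 + 3) 1 (n6 + 3) 0 = G 0 (n1 + 3) (n3 + 2) 0 1 (n6 + 3) 0 := S.r2 (n3 + 2) 0 0 (n1 + 3) (n6 + 2) 0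
  have z3 : G 0 (n1 + 3) (n3 + 2) 0 1 (n6 + 3) 0 = 0 := S.van' 0 (n1 + 1) (n3 + 1) 0 1 (n6 + 3) 0
  have z4 : C (n6 + 3) 0 0 0 (n1 + 3) (n3 + 3) = 0 := (S.c3 (n6 + 3) 0 0 0 (n1 + 3) (n3 + 3)).trans (S_p2a S (n6 + 2) (n1 + 2) (n3 + 2))
  have z5 : C (n6 + 3) 0 0 (n1 + 3) (n3 + 3) 0 = 0 := (S.c2 (n6 + 3) 0 0 (n1 + 3) (n3 + 3) 0).trans (S_p2a S (n6 + 2) (n1 + 2) (n3 + 2))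
  have z6 : C (n6 + 3) 0 (n1 + 3) (n3 + 3) 0 0 = 0 := (S.c1 (n6 + 3) 0 (n1 + 3) (n3 + 3) 0 0).trans (S_p2a S (n6 + 2) (n1 + 2) (n3 + 2))
  have z7 : C (n6 + 3) (n1 + 3) 0 (n3 + 3) 0 0 = C (n6 + 3) 0 (n3 + 3) 0 0 (n1 + 3) := S.c1 (n6 + 3) (n1 + 3) 0 (n3 + 3) 0 0
  linear_combination ((1 : ℚ) * r0 + (1 : ℚ) * r1 + (1 : ℚ) * r2 + (1 : ℚ) * r3 + (1 : ℚ) * z0 + (1 : ℚ) * z1)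
    + ((1 : ℚ) * z2 + (1 : ℚ) * z3 + (-1 : ℚ) * z4 + (-1 : ℚ) * z5 + (-1 : ℚ) * z6 + (1 : ℚ) * z7)

theorem L_e1_g3_e0_e1_e0_e0 (S : Sys6 G C D) (n1 : ℕ) : C 1 (n1 + 3) 0 1 0 0 = 0 := by
  have r0 : C 1 0 0 0 0 (n1 + 4) = G (n1 + 4) 0 0 0 0 1 0 - G 0 0 0 (n1 + 4) 0 1 0 := S.al0 0 0 (n1 + 4) 0 0
  have r1 : C 1 0 0 0 (n1 + 3) 1 = G 1 0 0 (n1 + 3) 0 1 0 - G 0 0 (n1 + 3) 1 0 1 0 := S.al0 0 (n1 + 3) 1 0 0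
  have r2 : C 1 0 0 0 (n1 + 4) 0 = G 0 0 0 (n1 + 4) 0 1 0 - G 0 0 (n1 + 4) 0 0 1 0 := S.al0 0 (n1 + 4) 0 0 0
  have r3 : C 1 0 0 (n1 + 3) 1 0 = G 0 0 (n1 + 3) 1 0 1 0 - G 0 (n1 + 3) 1 0 0 1 0 := S.al0 (n1 + 3) 1 0 0 0
  have r4 : C 1 0 0 (n1 + 4) 0 0 = G 0 0 (n1 + 4) 0 0 1 0 - G 0 (n1 + 4) 0 0 0 1 0 := S.al0 (n1 + 4) 0 0 0 0
  have r5 : C 1 0 1 0 0 (n1 + 3) = G (n1 + 3) 1 0 0 0 1 0 - G 1 0 0 (n1 + 3) 0 1 0 + G 0 0 0 (n1 + 3) 1 1 0 := S.al1 0 0 0 (n1 + 3) 0 0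
  have r6 : C 1 0 (n1 + 3) 1 0 0 = G 0 (n1 + 3) 1 0 0 1 0 - G (n1 + 3) 1 0 0 0 1 0 + G (n1 + 2) 1 0 0 1 1 0 := S.al1 (n1 + 2) 1 0 0 0 0
  have r7 : C 1 0 (n1 + 4) 0 0 0 = G 0 (n1 + 4) 0 0 0 1 0 - G (n1 + 4) 0 0 0 0 1 0 + G (n1 + 3) 0 0 0 1 1 0 := S.al1 (n1 + 3) 0 0 0 0 0
  have r8 : C 1 (n1 + 4) 0 0 0 0 = G 0 0 0 0 0 1 (n1 + 4) - G 0 0 0 0 0 1 (n1 + 4) := S.al0 0 0 0 0 (n1 + 4)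
  have z0 : G (n1 + 3) 0 0 0 1 1 0 = G 0 0 0 (n1 + 3) 1 1 0 := S.r3 (n1 + 3) 0 0 0 0 0
  have z1 : G (n1 + 2) 1 0 0 1 1 0 = G 0 (n1 + 2) 1 0 1 1 0 := S.r1 (n1 + 2) 1 0 0 0 0
  have z2 : G 0 (n1 + 2) 1 0 1 1 0 = 0 := S.van' 0 n1 0 0 1 1 0
  have z3 : C 1 0 0 0 (n1 + 4) 0 = C 1 0 0 0 0 (n1 + 4) := S.c4 1 0 0 0 (n1 + 4) 0
  have z4 : C 1 0 0 (n1 + 4) 0 0 = C 1 0 0 0 0 (n1 + 4) := S.c3 1 0 0 (n1 + 4) 0 0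
  have z5 : C 1 0 (n1 + 4) 0 0 0 = C 1 0 0 0 0 (n1 + 4) := S.c2 1 0 (n1 + 4) 0 0 0
  have z6 : C 1 (n1 + 4) 0 0 0 0 = C 1 0 0 0 0 (n1 + 4) := S.c1 1 (n1 + 4) 0 0 0 0
  have z7 : C 1 0 0 0 (n1 + 3) 1 = 0 := (S.c3 1 0 0 0 (n1 + 3) 1).trans (S_p2a S 0 (n1 + 2) 0)
  have z8 : C 1 0 0 (n1 + 3) 1 0 = 0 := (S.c2 1 0 0 (n1 + 3) 1 0).trans (S_p2a S 0 (n1 + 2) 0)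
  have z9 : C 1 0 (n1 + 3) 1 0 0 = 0 := (S.c1 1 0 (n1 + 3) 1 0 0).trans (S_p2a S 0 (n1 + 2) 0)
  have z10 : C 1 (n1 + 3) 0 1 0 0 = C 1 0 1 0 0 (n1 + 3) := S.c1 1 (n1 + 3) 0 1 0 0
  linear_combination (((-1 : ℚ) * r0 + (1 : ℚ) * r1 + (-1 : ℚ) * r2 + (1 : ℚ) * r3 + (-1 : ℚ) * r4)
    + ((1 : ℚ) * r5 + (1 : ℚ) * r6 + (-1 : ℚ) * r7 + (4 : ℚ) * r8 + (-1 : ℚ) * z0))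
    + (((1 : ℚ) * z1 + (1 : ℚ) * z2 + (1 : ℚ) * z3 + (1 : ℚ) * z4 + (1 : ℚ) * z5)
    + ((-4 : ℚ) * z6 + (-1 : ℚ) * z7 + (-1 : ℚ) * z8 + (-1 : ℚ) * z9 + (1 : ℚ) * z10))

theorem L_e1_e1_e0_e2_e0_e0 (S : Sys6 G C D) : C 1 1 0 2 0 0 = 0 := by
  have r0 : G 0 0 0 0 1 1 2 = G 2 0 0 0 0 1 1 := S.z0' 1 1 2
  have r1 : D 2 0 0 1 1 0 = G 0 0 2 0 0 1 1 - G 0 0 2 0 1 1 0 := S.al0' 1 0 1 1 0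
  have r2 : C 1 0 0 0 0 3 = G 3 0 0 0 0 1 0 - G 0 0 0 3 0 1 0 := S.al0 0 0 3 0 0
  have r3 : C 1 0 0 0 3 0 = G 0 0 0 3 0 1 0 - G 0 0 3 0 0 1 0 := S.al0 0 3 0 0 0
  have r4 : C 1 0 0 3 0 0 = G 0 0 3 0 0 1 0 - G 0 3 0 0 0 1 0 := S.al0 3 0 0 0 0
  have r5 : C 1 0 3 0 0 0 = G 0 3 0 0 0 1 0 - G 3 0 0 0 0 1 0 + G 2 0 0 0 1 1 0 := S.al1 2 0 0 0 0 0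
  have r6 : C 1 1 0 0 0 2 = G 2 0 0 0 0 1 1 - G 0 0 0 2 0 1 1 := S.al0 0 0 2 0 1
  have r7 : C 1 1 0 0 2 0 = G 0 0 0 2 0 1 1 - G 0 0 2 0 0 1 1 := S.al0 0 2 0 0 1
  have r8 : C 1 2 0 0 0 1 = G 1 0 0 0 0 1 2 - G 0 0 0 1 0 1 2 := S.al0 0 0 1 0 2
  have r9 : C 1 2 0 0 1 0 = G 0 0 0 1 0 1 2 - G 0 0 1 0 0 1 2 := S.al0 0 1 0 0 2
  have r10 : C 1 2 0 1 0 0 = G 0 0 1 0 0 1 2 - G 0 1 0 0 0 1 2 := S.al0 1 0 0 0 2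
  have r11 : C 1 2 1 0 0 0 = G 0 1 0 0 0 1 2 - G 1 0 0 0 0 1 2 + G 0 0 0 0 1 1 2 := S.al1 0 0 0 0 0 2
  have r12 : C 1 3 0 0 0 0 = G 0 0 0 0 0 1 3 - G 0 0 0 0 0 1 3 := S.al0 0 0 0 0 3
  have z0 : G 2 0 0 0 1 1 0 = G 0 0 0 2 1 1 0 := S.r3 2 0 0 0 0 0
  have z1 : G 0 0 2 0 1 1 0 = G 0 0 0 2 1 1 0 := S.r1 0 0 2 0 0 0
  have z2 : D 2 0 0 1 1 0 = 0 := (S.d2 2 0 0 1 1 0).trans (S_p2a S.mirror 1 0 0)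
  have z3 : C 1 0 0 0 3 0 = C 1 0 0 0 0 3 := S.c4 1 0 0 0 3 0
  have z4 : C 1 0 0 3 0 0 = C 1 0 0 0 0 3 := S.c3 1 0 0 3 0 0
  have z5 : C 1 0 3 0 0 0 = C 1 0 0 0 0 3 := S.c2 1 0 3 0 0 0
  have z6 : C 1 3 0 0 0 0 = C 1 0 0 0 0 3 := S.c1 1 3 0 0 0 0
  have z7 : C 1 1 0 0 0 2 = 0 := (S.c4 1 1 0 0 0 2).trans (S_p2a S 0 1 0)
  have z8 : C 1 2 1 0 0 0 = 0 := S_p2a S 0 1 0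
  have z9 : C 1 2 0 1 0 0 = C 1 1 0 0 2 0 := S.c2 1 2 0 1 0 0
  have z10 : C 1 2 0 0 0 1 = 0 := (S.c4 1 2 0 0 0 1).trans (S_p2a S 0 0 1)
  have z11 : C 1 1 0 2 0 0 = C 1 2 0 0 1 0 := S.c2 1 1 0 2 0 0
  linear_combination (((1 : ℚ) * r0 + (-1 : ℚ) * r1 + (-1 : ℚ) * r2 + (-1 : ℚ) * r3 + (-1 : ℚ) * r4 + (-1 : ℚ) * r5 + (-1 : ℚ) * r6)
    + ((-1 : ℚ) * r7 + (1 : ℚ) * r8 + (1 : ℚ) * r9 + (1 : ℚ) * r10 + (1 : ℚ) * r11 + (4 : ℚ) * r12))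
    + (((-1 : ℚ) * z0 + (1 : ℚ) * z1 + (1 : ℚ) * z2 + (1 : ℚ) * z3 + (1 : ℚ) * z4 + (1 : ℚ) * z5)
    + ((-4 : ℚ) * z6 + (1 : ℚ) * z7 + (-1 : ℚ) * z8 + (-1 : ℚ) * z9 + (-1 : ℚ) * z10 + (1 : ℚ) * z11))

theorem L_e1_e2_e0_e1_e0_e0 (S : Sys6 G C D) : C 1 2 0 1 0 0 = 0 := by
  have r0 : C 1 1 0 0 0 2 = G 2 0 0 0 0 1 1 - G 0 0 0 2 0 1 1 := S.al0 0 0 2 0 1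
  have r1 : C 1 1 0 0 2 0 = G 0 0 0 2 0 1 1 - G 0 0 2 0 0 1 1 := S.al0 0 2 0 0 1
  have r2 : C 1 1 0 1 0 1 = G 1 0 1 0 0 1 1 - G 0 1 0 1 0 1 1 := S.al0 1 0 1 0 1
  have r3 : C 1 1 0 2 0 0 = G 0 0 2 0 0 1 1 - G 0 2 0 0 0 1 1 := S.al0 2 0 0 0 1
  have r4 : C 1 1 1 0 1 0 = G 0 1 0 1 0 1 1 - G 1 0 1 0 0 1 1 + G 0 0 1 0 1 1 1 := S.al1 0 0 1 0 0 1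
  have r5 : C 1 1 2 0 0 0 = G 0 2 0 0 0 1 1 - G 2 0 0 0 0 1 1 + G 1 0 0 0 1 1 1 := S.al1 1 0 0 0 0 1
  have z0 : G 1 0 0 0 1 1 1 = G 0 0 0 1 1 1 1 := S.r3 1 0 0 0 0 1
  have z1 : G 0 0 1 0 1 1 1 = G 0 0 0 1 1 1 1 := S.r1 0 0 1 0 0 1
  have z2 : C 1 1 0 0 0 2 = 0 := (S.c4 1 1 0 0 0 2).trans (S_p2a S 0 1 0)
  have z3 : C 1 2 0 1 0 0 = C 1 1 0 0 2 0 := S.c2 1 2 0 1 0 0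
  have z4 : C 1 1 0 1 0 1 = 0 := (S.c4 1 1 0 1 0 1).trans (S_p3b S 0 0 0 0)
  have z5 : C 1 1 1 0 1 0 = 0 := S_p3b S 0 0 0 0
  have z6 : C 1 1 0 2 0 0 = 0 := L_e1_e1_e0_e2_e0_e0 S 
  have z7 : C 1 1 2 0 0 0 = 0 := S_p2a S 0 0 1
  linear_combination ((1 : ℚ) * r0 + (1 : ℚ) * r1 + (-1 : ℚ) * r2 + (1 : ℚ) * r3 + (-1 : ℚ) * r4 + (1 : ℚ) * r5 + (1 : ℚ) * z0)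
    + ((-1 : ℚ) * z1 + (-1 : ℚ) * z2 + (1 : ℚ) * z3 + (1 : ℚ) * z4 + (1 : ℚ) * z5 + (-1 : ℚ) * z6 + (-1 : ℚ) * z7)

theorem L_e1_e1_e0_g3_e0_e0 (S : Sys6 G C D) (n3 : ℕ) : C 1 1 0 (n3 + 3) 0 0 = 0 := by
  have r0 : G 0 0 0 0 1 1 (n3 + 3) = G (n3 + 3) 0 0 0 0 1 1 := S.z0' 1 1 (n3 + 3)
  have r1 : D (n3 + 3) 0 0 1 1 0 = G 0 0 (n3 + 3) 0 0 1 1 - G 0 0 (n3 + 3) 0 1 1 0 := S.al0' (n3 + 2) 0 1 1 0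
  have r2 : C 1 0 0 0 0 (n3 + 4) = G (n3 + 4) 0 0 0 0 1 0 - G 0 0 0 (n3 + 4) 0 1 0 := S.al0 0 0 (n3 + 4) 0 0
  have r3 : C 1 0 0 0 (n3 + 4) 0 = G 0 0 0 (n3 + 4) 0 1 0 - G 0 0 (n3 + 4) 0 0 1 0 := S.al0 0 (n3 + 4) 0 0 0
  have r4 : C 1 0 0 (n3 + 4) 0 0 = G 0 0 (n3 + 4) 0 0 1 0 - G 0 (n3 + 4) 0 0 0 1 0 := S.al0 (n3 + 4) 0 0 0 0
  have r5 : C 1 0 (n3 + 4) 0 0 0 = G 0 (n3 + 4) 0 0 0 1 0 - G (n3 + 4) 0 0 0 0 1 0 + G (n3 + 3) 0 0 0 1 1 0 := S.al1 (n3 + 3) 0 0 0 0 0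
  have r6 : C 1 1 0 0 0 (n3 + 3) = G (n3 + 3) 0 0 0 0 1 1 - G 0 0 0 (n3 + 3) 0 1 1 := S.al0 0 0 (n3 + 3) 0 1
  have r7 : C 1 1 0 0 (n3 + 3) 0 = G 0 0 0 (n3 + 3) 0 1 1 - G 0 0 (n3 + 3) 0 0 1 1 := S.al0 0 (n3 + 3) 0 0 1
  have r8 : C 1 (n3 + 3) 0 0 0 1 = G 1 0 0 0 0 1 (n3 + 3) - G 0 0 0 1 0 1 (n3 + 3) := S.al0 0 0 1 0 (n3 + 3)
  have r9 : C 1 (n3 + 3) 0 0 1 0 = G 0 0 0 1 0 1 (n3 + 3) - G 0 0 1 0 0 1 (n3 + 3) := S.al0 0 1 0 0 (n3 + 3)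
  have r10 : C 1 (n3 + 3) 0 1 0 0 = G 0 0 1 0 0 1 (n3 + 3) - G 0 1 0 0 0 1 (n3 + 3) := S.al0 1 0 0 0 (n3 + 3)
  have r11 : C 1 (n3 + 3) 1 0 0 0 = G 0 1 0 0 0 1 (n3 + 3) - G 1 0 0 0 0 1 (n3 + 3) + G 0 0 0 0 1 1 (n3 + 3) := S.al1 0 0 0 0 0 (n3 + 3)
  have r12 : C 1 (n3 + 4) 0 0 0 0 = G 0 0 0 0 0 1 (n3 + 4) - G 0 0 0 0 0 1 (n3 + 4) := S.al0 0 0 0 0 (n3 + 4)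
  have z0 : G (n3 + 3) 0 0 0 1 1 0 = G 0 0 0 (n3 + 3) 1 1 0 := S.r3 (n3 + 3) 0 0 0 0 0
  have z1 : G 0 0 (n3 + 3) 0 1 1 0 = G 0 0 0 (n3 + 3) 1 1 0 := S.r1 0 0 (n3 + 3) 0 0 0
  have z2 : D (n3 + 3) 0 0 1 1 0 = 0 := (S.d2 (n3 + 3) 0 0 1 1 0).trans (S_p2a S.mirror (n3 + 2) 0 0)
  have z3 : C 1 0 0 0 (n3 + 4) 0 = C 1 0 0 0 0 (n3 + 4) := S.c4 1 0 0 0 (n3 + 4) 0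
  have z4 : C 1 0 0 (n3 + 4) 0 0 = C 1 0 0 0 0 (n3 + 4) := S.c3 1 0 0 (n3 + 4) 0 0
  have z5 : C 1 0 (n3 + 4) 0 0 0 = C 1 0 0 0 0 (n3 + 4) := S.c2 1 0 (n3 + 4) 0 0 0
  have z6 : C 1 (n3 + 4) 0 0 0 0 = C 1 0 0 0 0 (n3 + 4) := S.c1 1 (n3 + 4) 0 0 0 0
  have z7 : C 1 1 0 0 0 (n3 + 3) = 0 := (S.c4 1 1 0 0 0 (n3 + 3)).trans (S_p2a S 0 (n3 + 2) 0)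
  have z8 : C 1 (n3 + 3) 1 0 0 0 = 0 := S_p2a S 0 (n3 + 2) 0
  have z9 : C 1 1 0 0 (n3 + 3) 0 = 0 := (S.c3 1 1 0 0 (n3 + 3) 0).trans (L_e1_g3_e0_e1_e0_e0 S n3)
  have z10 : C 1 (n3 + 3) 0 1 0 0 = 0 := L_e1_g3_e0_e1_e0_e0 S n3
  have z11 : C 1 (n3 + 3) 0 0 0 1 = 0 := (S.c4 1 (n3 + 3) 0 0 0 1).trans (S_p2a S 0 0 (n3 + 2))
  have z12 : C 1 1 0 (n3 + 3) 0 0 = C 1 (n3 + 3) 0 0 1 0 := S.c2 1 1 0 (n3 + 3) 0 0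
  linear_combination (((1 : ℚ) * r0 + (-1 : ℚ) * r1 + (-1 : ℚ) * r2 + (-1 : ℚ) * r3 + (-1 : ℚ) * r4 + (-1 : ℚ) * r5 + (-1 : ℚ) * r6)
    + ((-1 : ℚ) * r7 + (1 : ℚ) * r8 + (1 : ℚ) * r9 + (1 : ℚ) * r10 + (1 : ℚ) * r11 + (4 : ℚ) * r12))
    + (((-1 : ℚ) * z0 + (1 : ℚ) * z1 + (1 : ℚ) * z2 + (1 : ℚ) * z3 + (1 : ℚ) * z4 + (1 : ℚ) * z5 + (-4 : ℚ) * z6)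
    + ((1 : ℚ) * z7 + (-1 : ℚ) * z8 + (1 : ℚ) * z9 + (-1 : ℚ) * z10 + (-1 : ℚ) * z11 + (1 : ℚ) * z12))

theorem L_e1_e2_e0_g3_e0_e0 (S : Sys6 G C D) (n3 : ℕ) : C 1 2 0 (n3 + 3) 0 0 = 0 := by
  have r0 : D (n3 + 3) 0 0 0 1 2 = G 2 0 (n3 + 3) 0 0 0 1 - G 0 0 (n3 + 3) 0 0 1 2 := S.al0' (n3 + 2) 0 0 1 2
  have r1 : D (n3 + 3) 0 0 1 0 2 = G 2 0 (n3 + 3) 0 0 1 0 - G 0 0 (n3 + 3) 0 1 0 2 := S.al0' (n3 + 2) 0 1 0 2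
  have r2 : D (n3 + 3) 0 0 1 1 1 = G 1 0 (n3 + 3) 0 0 1 1 - G 0 0 (n3 + 3) 0 1 1 1 := S.al0' (n3 + 2) 0 1 1 1
  have r3 : D (n3 + 3) 0 0 1 2 0 = G 0 0 (n3 + 3) 0 0 1 2 - G 0 0 (n3 + 3) 0 1 2 0 := S.al0' (n3 + 2) 0 1 2 0
  have r4 : D (n3 + 3) 0 0 2 0 1 = G 1 0 (n3 + 3) 0 0 2 0 - G 0 0 (n3 + 3) 0 2 0 1 := S.al0' (n3 + 2) 0 2 0 1
  have r5 : D (n3 + 3) 0 1 0 1 1 = G 1 0 (n3 + 3) 0 1 0 1 - G 1 0 (n3 + 3) 0 0 1 1 + G 0 1 (n3 + 3) 0 0 1 1 := S.al1' 0 (n3 + 2) 0 0 1 1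
  have r6 : D (n3 + 3) 0 1 0 2 0 = G 0 0 (n3 + 3) 0 1 0 2 - G 1 0 (n3 + 3) 0 0 2 0 + G 0 1 (n3 + 3) 0 0 2 0 := S.al1' 0 (n3 + 2) 0 0 2 0
  have r7 : D (n3 + 3) 0 1 1 0 1 = G 1 0 (n3 + 3) 0 1 1 0 - G 1 0 (n3 + 3) 0 1 0 1 + G 0 1 (n3 + 3) 0 1 0 1 := S.al1' 0 (n3 + 2) 0 1 0 1
  have r8 : D (n3 + 3) 0 1 1 1 0 = G 0 0 (n3 + 3) 0 1 1 1 - G 1 0 (n3 + 3) 0 1 1 0 + G 0 1 (n3 + 3) 0 1 1 0 := S.al1' 0 (n3 + 2) 0 1 1 0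
  have r9 : D (n3 + 3) 0 1 2 0 0 = G 0 0 (n3 + 3) 0 1 2 0 - G 1 0 (n3 + 3) 0 2 0 0 + G 0 1 (n3 + 3) 0 2 0 0 := S.al1' 0 (n3 + 2) 0 2 0 0
  have r10 : D (n3 + 3) 0 2 0 0 1 = G 1 0 (n3 + 3) 0 2 0 0 - G 2 0 (n3 + 3) 0 0 0 1 + G 1 1 (n3 + 3) 0 0 0 1 := S.al1' 1 (n3 + 2) 0 0 0 1
  have r11 : D (n3 + 3) 0 2 0 1 0 = G 0 0 (n3 + 3) 0 2 0 1 - G 2 0 (n3 + 3) 0 0 1 0 + G 1 1 (n3 + 3) 0 0 1 0 := S.al1' 1 (n3 + 2) 0 0 1 0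
  have r12 : C 1 0 0 0 2 (n3 + 3) = G (n3 + 3) 0 0 2 0 1 0 - G 0 0 2 (n3 + 3) 0 1 0 := S.al0 0 2 (n3 + 3) 0 0
  have r13 : C 1 0 0 2 (n3 + 3) 0 = G 0 0 2 (n3 + 3) 0 1 0 - G 0 2 (n3 + 3) 0 0 1 0 := S.al0 2 (n3 + 3) 0 0 0
  have r14 : C 1 0 2 (n3 + 3) 0 0 = G 0 2 (n3 + 3) 0 0 1 0 - G 2 (n3 + 3) 0 0 0 1 0 + G 1 (n3 + 3) 0 0 1 1 0 := S.al1 1 (n3 + 3) 0 0 0 0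
  have r15 : C 1 0 (n3 + 3) 0 0 2 = G 2 (n3 + 3) 0 0 0 1 0 - G (n3 + 3) 0 0 2 0 1 0 + G (n3 + 2) 0 0 2 1 1 0 := S.al1 (n3 + 2) 0 0 2 0 0
  have z0 : G 0 1 (n3 + 3) 0 0 1 1 = G 0 1 (n3 + 3) 0 1 1 0 := S.m3 0 (n3 + 2) 0 0 1 1
  have z1 : G 1 1 (n3 + 3) 0 0 0 1 = G 0 1 (n3 + 3) 0 1 1 0 := S.m2 1 (n3 + 2) 0 0 0 1
  have z2 : G 1 (n3 + 3) 0 0 1 1 0 = G 0 0 1 (n3 + 3) 1 1 0 := S.r2 1 (n3 + 3) 0 0 0 0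
  have z3 : G 0 1 (n3 + 3) 0 1 1 0 = G 0 0 1 (n3 + 3) 1 1 0 := S.r1 0 1 (n3 + 3) 0 0 0
  have z4 : G 0 1 (n3 + 3) 0 2 0 0 = G 0 1 (n3 + 3) 0 0 0 2 := S.m2 0 (n3 + 2) 0 2 0 0
  have z5 : G 0 1 (n3 + 3) 0 0 2 0 = G 0 1 (n3 + 3) 0 0 0 2 := S.m1 0 (n3 + 2) 0 0 2 0
  have z6 : G 1 1 (n3 + 3) 0 0 1 0 = G 0 1 (n3 + 3) 0 1 0 1 := S.m1 1 (n3 + 2) 0 0 1 0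
  have z7 : G (n3 + 2) 0 0 2 1 1 0 = G 0 2 (n3 + 2) 0 1 1 0 := S.r2 (n3 + 2) 0 0 2 0 0
  have z8 : G 0 2 (n3 + 2) 0 1 1 0 = 0 := S.van' 0 0 (n3 + 1) 0 1 1 0
  have z9 : D (n3 + 3) 0 0 0 1 2 = 0 := (S.d3 (n3 + 3) 0 0 0 1 2).trans (S_p2a S.mirror (n3 + 2) 0 1)
  have z10 : D (n3 + 3) 0 0 1 2 0 = 0 := (S.d2 (n3 + 3) 0 0 1 2 0).trans (S_p2a S.mirror (n3 + 2) 0 1)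
  have z11 : D (n3 + 3) 0 1 2 0 0 = 0 := (S.d1 (n3 + 3) 0 1 2 0 0).trans (S_p2a S.mirror (n3 + 2) 0 1)
  have z12 : D (n3 + 3) 0 0 1 0 2 = 0 := (S.d2 (n3 + 3) 0 0 1 0 2).trans (L_g3_e1_e0_e2_e0_e0 S.mirror n3)
  have z13 : D (n3 + 3) 0 1 0 2 0 = 0 := (S.d1 (n3 + 3) 0 1 0 2 0).trans (L_g3_e1_e0_e2_e0_e0 S.mirror n3)
  have z14 : D (n3 + 3) 0 2 0 0 1 = 0 := (S.d4 (n3 + 3) 0 2 0 0 1).trans (L_g3_e1_e0_e2_e0_e0 S.mirror n3)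
  have z15 : D (n3 + 3) 0 0 1 1 1 = 0 := (S.d2 (n3 + 3) 0 0 1 1 1).trans (S_p3a S.mirror (n3 + 2) 0 0 0)
  have z16 : D (n3 + 3) 0 1 1 1 0 = 0 := (S.d1 (n3 + 3) 0 1 1 1 0).trans (S_p3a S.mirror (n3 + 2) 0 0 0)
  have z17 : D (n3 + 3) 0 0 2 0 1 = 0 := (S.d2 (n3 + 3) 0 0 2 0 1).trans (L_g3_e2_e0_e1_e0_e0 S.mirror n3)
  have z18 : D (n3 + 3) 0 2 0 1 0 = 0 := (S.d1 (n3 + 3) 0 2 0 1 0).trans (L_g3_e2_e0_e1_e0_e0 S.mirror n3)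
  have z19 : D (n3 + 3) 0 1 0 1 1 = 0 := (S.d3 (n3 + 3) 0 1 0 1 1).trans (S_p3b S.mirror (n3 + 2) 0 0 0)
  have z20 : D (n3 + 3) 0 1 1 0 1 = 0 := (S.d1 (n3 + 3) 0 1 1 0 1).trans (S_p3b S.mirror (n3 + 2) 0 0 0)
  have z21 : C 1 0 0 0 2 (n3 + 3) = 0 := (S.c3 1 0 0 0 2 (n3 + 3)).trans (S_p2a S 0 1 (n3 + 2))
  have z22 : C 1 0 0 2 (n3 + 3) 0 = 0 := (S.c2 1 0 0 2 (n3 + 3) 0).trans (S_p2a S 0 1 (n3 + 2))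
  have z23 : C 1 0 2 (n3 + 3) 0 0 = 0 := (S.c1 1 0 2 (n3 + 3) 0 0).trans (S_p2a S 0 1 (n3 + 2))
  have z24 : C 1 2 0 (n3 + 3) 0 0 = C 1 0 (n3 + 3) 0 0 2 := S.c1 1 2 0 (n3 + 3) 0 0
  linear_combination ((((-1 / 3 : ℚ) * r0 + (1 / 3 : ℚ) * r1 + (-1 / 3 : ℚ) * r2 + (-1 / 3 : ℚ) * r3 + (1 / 3 : ℚ) * r4 + (-1 / 3 : ℚ) * r5)
    + ((1 / 3 : ℚ) * r6 + (-1 / 3 : ℚ) * r7 + (-1 / 3 : ℚ) * r8 + (-1 / 3 : ℚ) * r9 + (-1 / 3 : ℚ) * r10))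
    + (((1 / 3 : ℚ) * r11 + (1 : ℚ) * r12 + (1 : ℚ) * r13 + (1 : ℚ) * r14 + (1 : ℚ) * r15)
    + ((-1 / 3 : ℚ) * z0 + (-1 / 3 : ℚ) * z1 + (1 : ℚ) * z2 + (-1 : ℚ) * z3 + (-1 / 3 : ℚ) * z4)))
    + ((((1 / 3 : ℚ) * z5 + (1 / 3 : ℚ) * z6 + (1 : ℚ) * z7 + (1 : ℚ) * z8 + (1 / 3 : ℚ) * z9)
    + ((1 / 3 : ℚ) * z10 + (1 / 3 : ℚ) * z11 + (-1 / 3 : ℚ) * z12 + (-1 / 3 : ℚ) * z13 + (1 / 3 : ℚ) * z14))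
    + (((1 / 3 : ℚ) * z15 + (1 / 3 : ℚ) * z16 + (-1 / 3 : ℚ) * z17 + (-1 / 3 : ℚ) * z18 + (1 / 3 : ℚ) * z19)
    + ((1 / 3 : ℚ) * z20 + (-1 : ℚ) * z21 + (-1 : ℚ) * z22 + (-1 : ℚ) * z23 + (1 : ℚ) * z24)))

theorem S_p2b (S : Sys6 G C D) :
    ∀ n6 n1 n3 : ℕ, C (n6 + 1) (n1 + 1) 0 (n3 + 1) 0 0 = 0
  | 0, 0, 0 => L_e1_e1_e0_e1_e0_e0 S 
  | 0, 0, 1 => L_e1_e1_e0_e2_e0_e0 S 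
  | 0, 0, n3 + 2 => L_e1_e1_e0_g3_e0_e0 S n3
  | 0, 1, 0 => L_e1_e2_e0_e1_e0_e0 S 
  | 0, 1, 1 => L_e1_e2_e0_e2_e0_e0 S 
  | 0, 1, n3 + 2 => L_e1_e2_e0_g3_e0_e0 S n3
  | 0, n1 + 2, 0 => L_e1_g3_e0_e1_e0_e0 S n1
  | 0, n1 + 2, 1 => L_e1_g3_e0_e2_e0_e0 S n1
  | 0, n1 + 2, n3 + 2 => L_e1_g3_e0_g3_e0_e0 S n1 n3
  | 1, 0, 0 => L_e2_e1_e0_e1_e0_e0 S 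
  | 1, 0, 1 => L_e2_e1_e0_e2_e0_e0 S 
  | 1, 0, n3 + 2 => L_e2_e1_e0_g3_e0_e0 S n3
  | 1, 1, 0 => L_e2_e2_e0_e1_e0_e0 S 
  | 1, 1, 1 => L_e2_e2_e0_e2_e0_e0 S 
  | 1, 1, n3 + 2 => L_e2_e2_e0_g3_e0_e0 S n3
  | 1, n1 + 2, 0 => L_e2_g3_e0_e1_e0_e0 S n1
  | 1, n1 + 2, 1 => L_e2_g3_e0_e2_e0_e0 S n1
  | 1, n1 + 2, n3 + 2 => L_e2_g3_e0_g3_e0_e0 S n1 n3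
  | n6 + 2, 0, 0 => L_g3_e1_e0_e1_e0_e0 S n6
  | n6 + 2, 0, 1 => L_g3_e1_e0_e2_e0_e0 S n6
  | n6 + 2, 0, n3 + 2 => L_g3_e1_e0_g3_e0_e0 S n6 n3
  | n6 + 2, 1, 0 => L_g3_e2_e0_e1_e0_e0 S n6
  | n6 + 2, 1, 1 => L_g3_e2_e0_e2_e0_e0 S n6
  | n6 + 2, 1, n3 + 2 => L_g3_e2_e0_g3_e0_e0 S n6 n3
  | n6 + 2, n1 + 2, 0 => L_g3_g3_e0_e1_e0_e0 S n6 n1
  | n6 + 2, n1 + 2, 1 => L_g3_g3_e0_e2_e0_e0 S n6 n1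
  | n6 + 2, n1 + 2, n3 + 2 => L_g3_g3_e0_g3_e0_e0 S n6 n1 n3

theorem L_g1_g1_e0_e0_e0_e0 (S : Sys6 G C D) (n6 n1 : ℕ) : C (n6 + 1) (n1 + 1) 0 0 0 0 = 0 := by
  have r0 : C (n6 + 1) (n1 + 1) 0 0 0 0 = G 0 0 0 0 0 (n6 + 1) (n1 + 1) - G 0 0 0 0 0 (n6 + 1) (n1 + 1) := S.al0 0 0 0 n6 (n1 + 1)
  linear_combination (1 : ℚ) * r0

theorem S_p1 (S : Sys6 G C D) :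
    ∀ n6 n1 : ℕ, C (n6 + 1) (n1 + 1) 0 0 0 0 = 0
  | n6, n1 => L_g1_g1_e0_e0_e0_e0 S n6 n1

theorem L_g1_e0_e0_e0_e0_e0 (S : Sys6 G C D) (n6 : ℕ) : C (n6 + 1) 0 0 0 0 0 = 0 := by
  have r0 : C (n6 + 1) 0 0 0 0 0 = G 0 0 0 0 0 (n6 + 1) 0 - G 0 0 0 0 0 (n6 + 1) 0 := S.al0 0 0 0 n6 0
  linear_combination (1 : ℚ) * r0

theorem S_p0 (S : Sys6 G C D) :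
    ∀ n6 : ℕ, C (n6 + 1) 0 0 0 0 0 = 0
  | n6 => L_g1_e0_e0_e0_e0_e0 S n6

theorem core (S : Sys6 G C D) :
    ∀ n6 n1 n2 n3 n4 n5 : ℕ, C (n6 + 1) n1 n2 n3 n4 n5 = 0
  | n6, 0, 0, 0, 0, 0 => S_p0 S n6
  | n6, 0, 0, 0, 0, n5 + 1 => (S.c4 (n6 + 1) 0 0 0 0 (n5 + 1)).trans (S_p1 S n6 n5)
  | n6, 0, 0, 0, n4 + 1, 0 => (S.c3 (n6 + 1) 0 0 0 (n4 + 1) 0).trans (S_p1 S n6 n4)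
  | n6, 0, 0, 0, n4 + 1, n5 + 1 => (S.c3 (n6 + 1) 0 0 0 (n4 + 1) (n5 + 1)).trans (S_p2a S n6 n4 n5)
  | n6, 0, 0, n3 + 1, 0, 0 => (S.c2 (n6 + 1) 0 0 (n3 + 1) 0 0).trans (S_p1 S n6 n3)
  | n6, 0, 0, n3 + 1, 0, n5 + 1 => (S.c2 (n6 + 1) 0 0 (n3 + 1) 0 (n5 + 1)).trans (S_p2b S n6 n3 n5)
  | n6, 0, 0, n3 + 1, n4 + 1, 0 => (S.c2 (n6 + 1) 0 0 (n3 + 1) (n4 + 1) 0).trans (S_p2a S n6 n3 n4)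
  | n6, 0, 0, n3 + 1, n4 + 1, n5 + 1 => (S.c2 (n6 + 1) 0 0 (n3 + 1) (n4 + 1) (n5 + 1)).trans (S_p3a S n6 n3 n4 n5)
  | n6, 0, n2 + 1, 0, 0, 0 => (S.c1 (n6 + 1) 0 (n2 + 1) 0 0 0).trans (S_p1 S n6 n2)
  | n6, 0, n2 + 1, 0, 0, n5 + 1 => (S.c4 (n6 + 1) 0 (n2 + 1) 0 0 (n5 + 1)).trans (S_p2b S n6 n5 n2)
  | n6, 0, n2 + 1, 0, n4 + 1, 0 => (S.c1 (n6 + 1) 0 (n2 + 1) 0 (n4 + 1) 0).trans (S_p2b S n6 n2 n4)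
  | n6, 0, n2 + 1, 0, n4 + 1, n5 + 1 => (S.c3 (n6 + 1) 0 (n2 + 1) 0 (n4 + 1) (n5 + 1)).trans (S_p3b S n6 n4 n5 n2)
  | n6, 0, n2 + 1, n3 + 1, 0, 0 => (S.c1 (n6 + 1) 0 (n2 + 1) (n3 + 1) 0 0).trans (S_p2a S n6 n2 n3)
  | n6, 0, n2 + 1, n3 + 1, 0, n5 + 1 => (S.c1 (n6 + 1) 0 (n2 + 1) (n3 + 1) 0 (n5 + 1)).trans (S_p3b S n6 n2 n3 n5)
  | n6, 0, n2 + 1, n3 + 1, n4 + 1, 0 => (S.c1 (n6 + 1) 0 (n2 + 1) (n3 + 1) (n4 + 1) 0).trans (S_p3a S n6 n2 n3 n4)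
  | n6, 0, n2 + 1, n3 + 1, n4 + 1, n5 + 1 => (S.c1 (n6 + 1) 0 (n2 + 1) (n3 + 1) (n4 + 1) (n5 + 1)).trans (S_p4 S n6 n2 n3 n4 n5)
  | n6, n1 + 1, 0, 0, 0, 0 => S_p1 S n6 n1
  | n6, n1 + 1, 0, 0, 0, n5 + 1 => (S.c4 (n6 + 1) (n1 + 1) 0 0 0 (n5 + 1)).trans (S_p2a S n6 n5 n1)
  | n6, n1 + 1, 0, 0, n4 + 1, 0 => (S.c3 (n6 + 1) (n1 + 1) 0 0 (n4 + 1) 0).trans (S_p2b S n6 n4 n1)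
  | n6, n1 + 1, 0, 0, n4 + 1, n5 + 1 => (S.c3 (n6 + 1) (n1 + 1) 0 0 (n4 + 1) (n5 + 1)).trans (S_p3a S n6 n4 n5 n1)
  | n6, n1 + 1, 0, n3 + 1, 0, 0 => S_p2b S n6 n1 n3
  | n6, n1 + 1, 0, n3 + 1, 0, n5 + 1 => (S.c4 (n6 + 1) (n1 + 1) 0 (n3 + 1) 0 (n5 + 1)).trans (S_p3b S n6 n5 n1 n3)
  | n6, n1 + 1, 0, n3 + 1, n4 + 1, 0 => (S.c2 (n6 + 1) (n1 + 1) 0 (n3 + 1) (n4 + 1) 0).trans (S_p3b S n6 n3 n4 n1)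
  | n6, n1 + 1, 0, n3 + 1, n4 + 1, n5 + 1 => (S.c2 (n6 + 1) (n1 + 1) 0 (n3 + 1) (n4 + 1) (n5 + 1)).trans (S_p4 S n6 n3 n4 n5 n1)
  | n6, n1 + 1, n2 + 1, 0, 0, 0 => S_p2a S n6 n1 n2
  | n6, n1 + 1, n2 + 1, 0, 0, n5 + 1 => (S.c4 (n6 + 1) (n1 + 1) (n2 + 1) 0 0 (n5 + 1)).trans (S_p3a S n6 n5 n1 n2)
  | n6, n1 + 1, n2 + 1, 0, n4 + 1, 0 => S_p3b S n6 n1 n2 n4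
  | n6, n1 + 1, n2 + 1, 0, n4 + 1, n5 + 1 => (S.c3 (n6 + 1) (n1 + 1) (n2 + 1) 0 (n4 + 1) (n5 + 1)).trans (S_p4 S n6 n4 n5 n1 n2)
  | n6, n1 + 1, n2 + 1, n3 + 1, 0, 0 => S_p3a S n6 n1 n2 n3
  | n6, n1 + 1, n2 + 1, n3 + 1, 0, n5 + 1 => (S.c4 (n6 + 1) (n1 + 1) (n2 + 1) (n3 + 1) 0 (n5 + 1)).trans (S_p4 S n6 n5 n1 n2 n3)
  | n6, n1 + 1, n2 + 1, n3 + 1, n4 + 1, 0 => S_p4 S n6 n1 n2 n3 n4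
  | n6, n1 + 1, n2 + 1, n3 + 1, n4 + 1, n5 + 1 => S_p5 S n6 n1 n2 n3 n4 n5

end SA

theorem stepA (G : ℕ → ℕ → ℕ → ℕ → ℕ → ℕ → ℕ → ℚ) (C C' : ℕ → ℕ → ℕ → ℕ → ℕ → ℕ → ℚ)
    (cC : ∀ f g a b c d, C f g a b c d = C f a b c d g)
    (cC' : ∀ f g a b c d, C' f g a b c d = C' f a b c d g)
    (van : ∀ a b c d e f g, 1 ≤ f → 2 ≤ e → G a b c d e f g = 0)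
    (cyc : ∀ a b c d f g, 1 ≤ f → G a b c d 1 f g = G d a b c 1 f g)
    (al0 : ∀ b c d f g, 1 ≤ f → C f g 0 b c d = G d 0 b c 0 f g - G 0 b c d 0 f g)
    (al1 : ∀ a b c d f g, 1 ≤ f → C f g (a + 1) b c d
      = G d (a + 1) b c 0 f g - G (a + 1) b c d 0 f g + G a b c d 1 f g)
    (van' : ∀ a b c d e f g, 1 ≤ c → 2 ≤ b → G a b c d e f g = 0)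
    (cyc' : ∀ a c d e f g, 1 ≤ c → G a 1 c d e f g = G g 1 c d a e f)
    (al0' : ∀ c d e f g, 1 ≤ c → C' c d 0 e f g = G g 0 c d 0 e f - G 0 0 c d e f g)
    (al1' : ∀ a c d e f g, 1 ≤ c → C' c d (a + 1) e f g
      = G g 0 c d (a + 1) e f - G (a + 1) 0 c d e f g + G a 1 c d e f g)
    (z0 : ∀ b c d, G 0 b c d 0 0 0 = G d 0 b c 0 0 0)
    (z0' : ∀ e f g, G 0 0 0 0 e f g = G g 0 0 0 0 e f) :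
    ∀ f g a b c d, 1 ≤ f → C f g a b c d = 0 := by
  have S : Sys6 G C C' :=
    { cC := fun z a b c d e => cC z a b c d e
      cD := fun z a b c d e => cC' z a b c d e
      van := fun a b c d e f g => van a b c d (e + 2) (f + 1) g (by omega) (by omega)
      r1 := fun a b c d f g => cyc a b c d (f + 1) g (by omega)
      al0 := fun b c d f g => al0 b c d (f + 1) g (by omega)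
      al1 := fun a b c d f g => al1 a b c d (f + 1) g (by omega)
      van' := fun a b c d e f g => van' a (b + 2) (c + 1) d e f g (by omega) (by omega)
      m1 := fun a c d e f g => cyc' a (c + 1) d e f g (by omega)
      al0' := fun c d e f g => al0' (c + 1) d e f g (by omega)
      al1' := fun a c d e f g => al1' a (c + 1) d e f g (by omega)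
      z0 := z0
      z0' := z0' }
  intro f g a b c d hf
  obtain ⟨k, rfl⟩ : ∃ k, f = k + 1 := ⟨f - 1, by omega⟩
  exact SA.core S k g a b c d

end Pent
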