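import Pool.Agent.Lib.MP_a57f33_nt.PN.ED6B

/-!
# Pentagon project (MP_a57f33_nt): (ED) for n = 6, step B

The case of functions `C`, `C'` of five variables.
-/

namespace Pent.E6

/-- one half of the argument -/
theorem sideB (C : ℚ → ℚ → ℚ → ℚ → ℚ → ℚ) (g : ℚ → ℚ → ℚ → ℚ → ℚ → ℚ) (p : ℚ → ℚ → ℚ)
    (m : ℚ → ℚ → ℚ → ℚ) (pC : ∀ b, IsP1 (fun t => C t 0 b 0 0))
    (cC : ∀ a b c d e, C a b c d e = C b c d e a)
    (m0 : ∀ x b, m x 0 b = 0) (m0' : ∀ x z, m x z 0 = 0) (p0 : ∀ c, p 0 c = 0)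
    (F1 : ∀ x a b c t s, g x a c t s - g c x b (t + x) s
      + (p b c + m 0 x b + m 0 t b + m t s b)
      - (p a b + m 0 c a + m 0 (t + x) a + m (t + x) s a)
      = C (x + t) (-t) a b c - C s x a b c) :
    ∃ (α l C1 : ℚ → ℚ) (C2 : ℚ → ℚ → ℚ) (k : ℚ),
      l 0 = 0 ∧ C1 0 = 0 ∧ (∀ u, C2 u 0 = 0) ∧ (∀ u, C2 0 u = 0) ∧
      (∀ p q a b c, C p q a b c = k + (C1 p + C1 q + C1 a + C1 b + C1 c)
        + (C2 p q + C2 q a + C2 a b + C2 b c + C2 c p)
        + (p * l a + q * l b + a * l c + b * l p + c * l q)) ∧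
      (∀ w x b d s, g w x b d s - g w x 0 d s = α b + d * l b - b * l d + b * l s) ∧
      (∀ x a c t s, g x a c t s - g x 0 c t s
        = α a + C2 (-t) a + (x + t) * l a - C2 x a - s * l a) ∧
      (∀ x z b, m x z b = 0) ∧ (∀ b c, p b c = α b) := by
  -- the mixed part in two adjacent letters
  obtain ⟨c2, hc2⟩ : ∃ c2 : ℚ → ℚ → ℚ → ℚ → ℚ, ∀ p q a b, c2 p q a b
      = C p q a b 0 - C p q 0 b 0 - C p q a 0 0 + C p q 0 0 0 := ⟨_, fun _ _ _ _ => rfl⟩
  have e2 : ∀ x t s a b, -(p a b - p a 0) = c2 (x + t) (-t) a b - c2 s x a b := by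
    intro x t s a b
    rw [hc2, hc2]
    have h1 := F1 x a b 0 t s
    have h2 := F1 x 0 b 0 t s
    have h3 := F1 x a 0 0 t s
    have h4 := F1 x 0 0 0 t s
    have h5 := p0 b
    have h6 := p0 0
    linarith
  have pa : ∀ a b, p a b = p a 0 := by
    intro a b
    have h := e2 0 0 0 a b
    rw [add_zero, neg_zero] at h
    linarith
  have i1 : ∀ s x a b, c2 s x a b = c2 0 x a b := by
    intro s x a b
    have h1 := e2 x 0 s a b
    have h2 := e2 x 0 0 a b
    linarith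
  have i2 : ∀ s x a b, c2 s x a b = c2 0 0 a b := by
    intro s x a b
    have h1 := e2 x 0 0 a b
    rw [pa a b, sub_self, add_zero, neg_zero] at h1
    have h2 := i1 s x a b
    have h3 := i1 x 0 a b
    linarith
  -- the mixed part in three adjacent letters
  obtain ⟨c3, hc3⟩ : ∃ c3 : ℚ → ℚ → ℚ → ℚ → ℚ → ℚ, ∀ p q a b c, c3 p q a b c
      = C p q a b c - C p q 0 b c - C p q a 0 c - C p q a b 0 + C p q a 0 0 + C p q 0 b 0
        + C p q 0 0 c - C p q 0 0 0 := ⟨_, fun _ _ _ _ _ => rfl⟩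
  have e3 : ∀ x t s a b c, c3 (x + t) (-t) a b c = c3 s x a b c := by
    intro x t s a b c
    rw [hc3, hc3]
    have h1 := F1 x a b c t s
    have h2 := F1 x 0 b c t s
    have h3 := F1 x a 0 c t s
    have h4 := F1 x a b 0 t s
    have h5 := F1 x a 0 0 t s
    have h6 := F1 x 0 b 0 t s
    have h7 := F1 x 0 0 c t s
    have h8 := F1 x 0 0 0 t s
    rw [pa b c] at h1 h2
    rw [pa 0 c] at h3 h7
    linarith
  have i3 : ∀ s x a b c, c3 s x a b c = c3 0 0 a b c := by
    intro s x a b c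
    have h1 := e3 x 0 s a b c
    have h2 := e3 x 0 0 a b c
    have h3 := e3 0 0 x a b c
    rw [add_zero, neg_zero] at h1 h2 h3
    have h4 := e3 0 x 0 a b c
    have h5 := e3 x (-x) 0 a b c
    rw [neg_neg] at h5
    have h6 := e3 0 0 x a b c
    rw [add_zero, neg_zero] at h6
    linarith
  -- the normal form
  obtain ⟨k, hk⟩ : ∃ k, k = C 0 0 0 0 0 := ⟨_, rfl⟩
  obtain ⟨C1, hC1⟩ : ∃ C1 : ℚ → ℚ, ∀ u, C1 u = C u 0 0 0 0 - k := ⟨_, fun _ => rfl⟩
  obtain ⟨C2, hC2⟩ : ∃ C2 : ℚ → ℚ → ℚ, ∀ u v, C2 u v = C u v 0 0 0 - C1 u - C1 v - k :=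
    ⟨_, fun _ _ => rfl⟩
  obtain ⟨B2, hB2⟩ : ∃ B2 : ℚ → ℚ → ℚ, ∀ u v, B2 u v = C u 0 v 0 0 - C1 u - C1 v - k :=
    ⟨_, fun _ _ => rfl⟩
  have o2 : ∀ u, C 0 u 0 0 0 = C u 0 0 0 0 := fun u => cC 0 u 0 0 0
  have o3 : ∀ u, C 0 0 u 0 0 = C u 0 0 0 0 := fun u => by rw [cC 0 0 u 0 0, o2]
  have o4 : ∀ u, C 0 0 0 u 0 = C u 0 0 0 0 := fun u => by rw [cC 0 0 0 u 0, o3]
  have a2 : ∀ u v, C 0 u v 0 0 = C u v 0 0 0 := fun u v => cC 0 u v 0 0
  have a3 : ∀ u v, C 0 0 u v 0 = C u v 0 0 0 := fun u v => by rw [cC 0 0 u v 0, a2]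
  have b2 : ∀ u v, C 0 u 0 v 0 = C u 0 v 0 0 := fun u v => cC 0 u 0 v 0
  have b3 : ∀ u v, C 0 0 u 0 v = C u 0 v 0 0 := fun u v => by rw [cC 0 0 u 0 v, b2]
  have b4 : ∀ u v, C v 0 0 u 0 = C u 0 v 0 0 := fun u v => by rw [cC v 0 0 u 0, b3]
  have q2 : ∀ u v, c2 0 0 u v = C2 u v := by
    intro u v
    rw [hc2, hC2, hC1, hC1, hk, a3, o4, o3]
    ring
  have E4 : ∀ w1 w2 w3 w4, C w1 w2 w3 w4 0 = C w1 w2 0 w4 0 + C w1 w2 w3 0 0 - C w1 w2 0 0 0
      + C2 w3 w4 := by
    intro w1 w2 w3 w4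
    have h := i2 w1 w2 w3 w4
    rw [q2, hc2] at h
    linarith
  have three : ∀ u v w, C u v w 0 0 = k + C1 u + C1 v + C1 w + C2 u v + C2 v w + B2 u w := by
    intro u v w
    have h := E4 0 u v w
    rw [cC 0 u v w 0, b2, a2, o2] at h
    have h1 := hB2 u w
    have h2 := hC2 u v
    have h3 := hC1 u
    linarith
  have three' : ∀ u v w, C u v 0 w 0 = k + C1 u + C1 v + C1 w + C2 u v + B2 v w + B2 w u := by
    intro u v w
    have h := E4 w 0 u v
    rw [cC w 0 u v 0, cC 0 u v 0 w, b4] at h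
    have h1 := hB2 w u
    have h2 := hB2 v w
    have h3 := hC1 w
    linarith
  have four : ∀ u v w z, C u v w z 0 = k + C1 u + C1 v + C1 w + C1 z + C2 u v + C2 v w + C2 w z
      + B2 u w + B2 v z + B2 z u := by
    intro u v w z
    rw [E4, three, three']
    have h := hC2 u v
    linarith
  have z1 : C1 0 = 0 := by rw [hC1, hk, sub_self]
  have z2 : ∀ u, C2 u 0 = 0 := fun u => by rw [hC2, z1, hC1]; ring
  have z3 : ∀ u, C2 0 u = 0 := fun u => by rw [hC2, z1, hC1, o2]; ring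
  have z4 : ∀ u, B2 u 0 = 0 := fun u => by rw [hB2, z1, hC1]; ring
  have z5 : ∀ u, B2 0 u = 0 := fun u => by rw [hB2, z1, hC1, o3]; ring
  have form : ∀ p q a b c, C p q a b c = k + (C1 p + C1 q + C1 a + C1 b + C1 c)
        + (C2 p q + C2 q a + C2 a b + C2 b c + C2 c p)
        + (B2 p a + B2 q b + B2 a c + B2 b p + B2 c q) := by
    intro p q a b c
    have h := i3 p q a b c
    rw [hc3, hc3] at h
    have r1 : C p q 0 b c = C b c p q 0 := by rw [cC p q 0 b c, cC q 0 b c p, cC 0 b c p q]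
    have r2 : C p q a 0 c = C c p q a 0 := (cC c p q a 0).symm
    have r3 : C p q 0 0 c = C c p q 0 0 := (cC c p q 0 0).symm
    have r4 : C 0 0 a b c = C a b c 0 0 := by rw [cC 0 0 a b c, cC 0 a b c 0]
    have r5 : C 0 0 0 b c = C b c 0 0 0 := by rw [cC 0 0 0 b c, cC 0 0 b c 0, cC 0 b c 0 0]
    rw [r1, r2, r3, r4, r5, a3, b3, o3, o4, four, four, four, three, three, three', three] at h
    have h1 := hC2 p q
    have h2 := hC2 b c
    have h3 := hC2 a b
    have h4 := hB2 a c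
    have h5 : C 0 0 0 0 c = C c 0 0 0 0 := by rw [cC 0 0 0 0 c, o4]
    have h6 := hC1 a
    have h7 := hC1 b
    have h8 := hC1 c
    have h9 := three a b c
    have h10 := z2 q
    have h11 := z4 p
    linarith
  -- the dependence on `v2`
  have V2 : ∀ w x b d s, g w x b d s - g w x 0 d s = p b 0 + m 0 x b + m 0 (d - x) b
      + m (d - x) s b - B2 (x - d) b - B2 b d + B2 x b + B2 b s := by
    intro w x b d s
    have h1 := F1 x 0 b w (d - x) s
    have h2 := F1 x 0 0 w (d - x) s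
    rw [form, form] at h1 h2
    rw [pa b w] at h1
    rw [pa 0 w] at h2
    have e1 : x + (d - x) = d := by ring
    have e2 : -(d - x) = x - d := by ring
    have e3 : d - x + x = d := by ring
    rw [e1, e2, e3] at h1 h2
    simp only [m0', p0, z1, z2, z3, z4, z5] at h1 h2
    linarith
  -- the dependence on `v1`
  have V1 : ∀ x a c t s, g x a c t s - g x 0 c t s = p a 0 + m 0 c a + m 0 (t + x) a
      + m (t + x) s a + C2 (-t) a + B2 (x + t) a - C2 x a - B2 s a := by
    intro x a c t s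
    have h1 := F1 x a 0 c t s
    have h2 := F1 x 0 0 c t s
    rw [form, form] at h1 h2
    simp only [m0', p0, z1, z2, z3, z4, z5] at h1 h2
    linarith
  -- mixed
  have M13 : ∀ b x d s, m 0 b x = m 0 x b + m 0 (d - x) b - m 0 d b + m (d - x) s b - m d s b
      - B2 (x - d) b + B2 (-d) b + B2 x b := by
    intro b x d s
    have h1 := V2 0 x b d s
    have h2 := V2 0 0 b d s
    have h3 := V1 0 x b d s
    have h4 := V1 0 x 0 d s
    rw [sub_zero, zero_sub] at h2
    simp only [m0, z5] at h2 h4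
    linarith
  have om : ∀ y s b, m y s b = m 0 s b := by
    intro y s b
    have h1 := M13 b y y s
    have h2 := M13 b y y 0
    rw [sub_self] at h1 h2
    simp only [m0] at h1 h2
    linarith
  have R1 : ∀ b x, m 0 b x = m 0 x b + m 0 (-x) b := by
    intro b x
    have h1 := M13 b x 0 0
    rw [zero_sub, sub_zero, neg_zero] at h1
    simp only [m0, z5] at h1
    linarith
  have mz0 : ∀ b x, m 0 b x = 0 := by
    intro b x
    have r1 := R1 b x
    have r2 := R1 b (-x)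
    rw [neg_neg] at r2
    have r3 := R1 x b
    have r4 := R1 (-x) b
    have r5 := R1 (-b) x
    have r6 := R1 (-b) (-x)
    rw [neg_neg] at r6
    have r7 := R1 x (-b)
    rw [neg_neg] at r7
    have r8 := R1 (-x) (-b)
    rw [neg_neg] at r8
    linarith
  have mz : ∀ x z b, m x z b = 0 := fun x z b => by rw [om, mz0]
  have add : ∀ x d b, B2 (x - d) b = B2 x b + B2 (-d) b := by
    intro x d b
    have h := M13 b x d 0
    simp only [mz] at h
    linarith
  have pB : ∀ b, IsP1 (fun t => B2 t b) := by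
    intro b
    have h := (((pC b).sub ((pC 0).sub (IsP1.const k))).sub (IsP1.const (C1 b))).sub
      (IsP1.const k)
    have e : (fun t => B2 t b) = fun t => C t 0 b 0 0 - (C t 0 0 0 0 - k) - C1 b - k := by
      funext t
      rw [hB2, hC1]
    rw [e]
    exact h
  have lin : ∀ t b, B2 t b = t * B2 1 b := by
    intro t b
    refine (pB b).lin 1 one_ne_zero (fun t => ?_) t
    have h := add t (-1) b
    rw [neg_neg, sub_neg_eq_add] at h
    linarith
  refine ⟨fun b => p b 0, fun b => B2 1 b, C1, C2, k, z4 1, z1, z2, z3, ?_, ?_, ?_, mz,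
    fun b c => pa b c⟩
  · intro p q a b c
    rw [form, lin p a, lin q b, lin a c, lin b p, lin c q]
  · intro w x b d s
    rw [V2, mz, mz, mz, lin (x - d) b, lin b d, lin x b, lin b s]
    ring
  · intro x a c t s
    rw [V1, mz, mz, mz, lin (x + t) a, lin s a]
    ring

/-- the difference in `u2` does not depend on `u1` and is cyclic -/
theorem gam (R : ℚ → ℚ → ℚ → ℚ → ℚ → ℚ → ℚ) (G : ℚ → ℚ → ℚ → ℚ → ℚ → ℚ → ℚ → ℚ)
    (p1 : ∀ a b c t z s, IsP1 (fun x => G x a b c t z s))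
    (p2 : ∀ x a b c z s, IsP1 (fun t => G x a b c t z s))
    (hE : ∀ x a b c t z s, G x a b c t z s - G c x a b (t + x) z s = R x a b c t s) :
    ∃ Γ : ℚ → ℚ → ℚ → ℚ → ℚ → ℚ → ℚ,
      (∀ x a b c t z s, G x a b c t z s - G x a b c t 0 s = Γ x a b c z s) ∧
      (∀ x a b c z s, Γ x a b c z s = Γ c x a b z s) ∧
      (∀ x a b c s, Γ x a b c 0 s = 0) := by
  obtain ⟨D, hD⟩ : ∃ D : ℚ → ℚ → ℚ → ℚ → ℚ → ℚ → ℚ → ℚ, ∀ x a b c t z s, D x a b c t z s
      = G x a b c t z s - G x a b c t 0 s := ⟨_, fun _ _ _ _ _ _ _ => rfl⟩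
  have h1 : ∀ x a b c t z s, D x a b c t z s = D c x a b (t + x) z s := by
    intro x a b c t z s
    rw [hD, hD]
    have h1 := hE x a b c t z s
    have h2 := hE x a b c t 0 s
    linarith
  have q1 : ∀ a b c t z s, IsP1 (fun x => D x a b c t z s) := by
    intro a b c t z s
    have e : (fun x => D x a b c t z s) = fun x => G x a b c t z s - G x a b c t 0 s := by
      funext x
      rw [hD]
    rw [e]
    exact (p1 a b c t z s).sub (p1 a b c t 0 s)
  have q2 : ∀ x a b c z s, IsP1 (fun t => D x a b c t z s) := by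
    intro x a b c z s
    have e : (fun t => D x a b c t z s) = fun t => G x a b c t z s - G x a b c t 0 s := by
      funext x
      rw [hD]
    rw [e]
    exact (p2 x a b c z s).sub (p2 x a b c 0 s)
  have h2 := nou D q1 q2 h1
  refine ⟨fun x a b c z s => D x a b c 0 z s, ?_, ?_, ?_⟩
  · intro x a b c t z s
    rw [← hD]
    exact h2 x a b c t z s
  · intro x a b c z s
    beta_reduce
    rw [h1 x a b c 0 z s, h2]
  · intro x a b c s
    beta_reduce
    rw [hD, sub_self]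

/-- a cyclic function of four variables whose differences in neighbouring variables are
independent -/
theorem adj (Γ : ℚ → ℚ → ℚ → ℚ → ℚ) (cy : ∀ x a b c, Γ x a b c = Γ c x a b)
    (h : ∀ x a b c, Γ x a b c - Γ x a 0 c = Γ x 0 b c - Γ x 0 0 c) :
    ∀ x a b c, Γ x a b c = Γ x 0 b 0 + Γ a 0 c 0 - Γ 0 0 0 0 := by
  intro x a b c
  have h1 := h a b c x
  have r1 : Γ a b c x = Γ x a b c := cy a b c x
  have r2 : Γ a b 0 x = Γ x a b 0 := cy a b 0 x
  have r3 : Γ a 0 c x = Γ x a 0 c := cy a 0 c x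
  have r4 : Γ a 0 0 x = Γ x a 0 0 := cy a 0 0 x
  have h2 := h x a b 0
  have h3 := h c x a 0
  have r5 : Γ c x a 0 = Γ x a 0 c := (cy x a 0 c).symm
  have r6 : Γ c x 0 0 = Γ 0 c x 0 := cy c x 0 0
  have h4 := h 0 c x 0
  have r7 : Γ 0 c 0 0 = Γ 0 0 c 0 := cy 0 c 0 0
  have r8 : Γ c 0 0 0 = Γ 0 c 0 0 := cy c 0 0 0
  have r9 : Γ 0 0 x 0 = Γ 0 0 0 x := cy 0 0 x 0
  have r10 : Γ 0 0 0 x = Γ x 0 0 0 := cy 0 0 0 x
  have r11 : Γ c 0 a 0 = Γ 0 c 0 a := cy c 0 a 0
  have r12 : Γ 0 c 0 a = Γ a 0 c 0 := cy 0 c 0 a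
  linarith

/-- the normal form of the two difference functions -/
theorem twoGam (Γ Γ' : ℚ → ℚ → ℚ → ℚ → ℚ → ℚ → ℚ)
    (cy : ∀ x a b c z s, Γ x a b c z s = Γ c x a b z s)
    (cy' : ∀ x a b c z s, Γ' x a b c z s = Γ' c x a b z s)
    (z0 : ∀ x a b c s, Γ x a b c 0 s = 0) (z0' : ∀ x a b c s, Γ' x a b c 0 s = 0)
    (h : ∀ x a b c t z s, Γ x a b c z s - Γ x a 0 c z s = Γ' x t z s b c - Γ' x t 0 s b c) :
    ∃ (p p' : ℚ → ℚ → ℚ) (m : ℚ → ℚ → ℚ → ℚ),
      (∀ x b, m x 0 b = 0) ∧ (∀ x z, m x z 0 = 0) ∧ (∀ c, p 0 c = 0) ∧ (∀ c, p' 0 c = 0) ∧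
      (∀ x a c z s, Γ x a 0 c z s = p z s + m 0 z x + m 0 z a + m a z c) ∧
      (∀ x t s b c, Γ' x t 0 s b c = p' b c + m 0 x b + m 0 t b + m t s b) := by
  have f1 := fun z s => adj (fun x a b c => Γ x a b c z s) (fun x a b c => cy x a b c z s)
    (fun x a b c => by
      have h1 := h x a b c 0 z s
      have h2 := h x 0 b c 0 z s
      linarith)
  have f2 := fun b c => adj (fun x t z s => Γ' x t z s b c) (fun x t z s => cy' x t z s b c)
    (fun x t z s => by
      have h1 := h x 0 b c t z s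
      have h2 := h x 0 b c 0 z s
      linarith)
  beta_reduce at f1 f2
  -- symmetry
  have s1 : ∀ a c z s, Γ a 0 c 0 z s = Γ c 0 a 0 z s := fun a c z s => by
    rw [cy a 0 c 0 z s, cy 0 a 0 c z s]
  have s2 : ∀ a c z s, Γ' a 0 c 0 z s = Γ' c 0 a 0 z s := fun a c z s => by
    rw [cy' a 0 c 0 z s, cy' 0 a 0 c z s]
  obtain ⟨m, hm⟩ : ∃ m : ℚ → ℚ → ℚ → ℚ, ∀ x z b, m x z b = Γ x 0 b 0 z 0 - Γ x 0 0 0 z 0 :=
    ⟨_, fun _ _ _ => rfl⟩
  have m1 : ∀ x z b s, Γ x 0 b 0 z s - Γ x 0 0 0 z s = m x z b := by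
    intro x z b s
    rw [hm]
    have h1 := h x 0 b 0 0 z s
    have h2 := h x 0 b 0 0 z 0
    have h3 := f2 b 0 x 0 z s
    have h4 := f2 b 0 x 0 0 s
    linarith
  have m2 : ∀ x z b c, Γ' x 0 z 0 b c - Γ' x 0 0 0 b c = m x z b := by
    intro x z b c
    rw [hm]
    have h1 := h x 0 b c 0 z 0
    have h2 := h x 0 b 0 0 z 0
    have h3 := f1 z 0 x 0 b c
    have h4 := f1 z 0 x 0 0 c
    linarith
  refine ⟨fun z s => Γ 0 0 0 0 z s, fun b c => Γ' 0 0 0 0 b c, m, ?_, ?_, ?_, ?_, ?_, ?_⟩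
  · intro x b
    rw [hm, z0, z0, sub_self]
  · intro x z
    rw [hm, sub_self]
  · intro c
    exact z0 0 0 0 0 c
  · intro c
    exact z0' 0 0 0 0 c
  · intro x a c z s
    have h0 := f1 z s x a 0 c
    have h1 := m1 0 z x s
    have h2 := s1 0 x z s
    have h3 := m1 0 z a s
    have h4 := s1 0 a z s
    have h5 := m1 a z c s
    beta_reduce
    linarith
  · intro x t s b c
    have h0 := f2 b c x t 0 s
    have h1 := m2 0 x b c
    have h2 := s2 0 x b c
    have h3 := m2 0 t b c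
    have h4 := s2 0 t b c
    have h5 := m2 t s b c
    beta_reduce
    linarith

theorem stepB : S_B := by
  intro C C' G pC pC' pG cC cC' h1 h2
  obtain ⟨FC, hFC⟩ := pC
  obtain ⟨FC', hFC'⟩ := pC'
  obtain ⟨FG, hFG⟩ := pG
  -- polynomial in each variable
  have line : ∀ (F : MvPolynomial ℕ ℚ) (l l' : List ℚ), l.length = l'.length →
      IsP1 (fun t => MvPolynomial.eval (fun i => (List.zipWith (fun a b => a + t * b)
        l l').getD i 0) F) := by
    intro F l l' hl
    refine IsPoly.one (F := fun e => MvPolynomial.eval e F) ⟨F, fun _ => rfl⟩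
      (g := fun i t => (List.zipWith (fun a b => a + t * b) l l').getD i 0) ?_
    intro i
    have e : (fun t : ℚ => (List.zipWith (fun a b => a + t * b) l l').getD i 0)
        = fun t : ℚ => l.getD i 0 + t * l'.getD i 0 := by
      funext t
      induction l generalizing l' i with
      | nil =>
          cases l' with
          | nil => simp
          | cons b l' => simp at hl
      | cons a l ih =>
          cases l' with
          | nil => simp at hl
          | cons b l' =>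
              cases i with
              | zero => simp
              | succ i => simpa using ih l' (by simpa using hl) i
    rw [e]
    exact (IsP1.const _).add (IsP1.id.mul (IsP1.const _))
  have g0 : ∀ a b c t z s, IsP1 (fun x => G x a b c t z s) := by
    intro a b c t z s
    have h := line FG [0, a, b, c, t, z, s] [1, 0, 0, 0, 0, 0, 0] rfl
    have e : (fun x => G x a b c t z s) = fun x => MvPolynomial.eval (fun i =>
        (List.zipWith (fun u v => u + x * v) [0, a, b, c, t, z, s]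
          [1, 0, 0, 0, 0, 0, 0]).getD i 0) FG := by
      funext x
      rw [hFG]
      simp
    rw [e]
    exact h
  have g1 : ∀ x b c t z s, IsP1 (fun a => G x a b c t z s) := by
    intro x b c t z s
    have h := line FG [x, 0, b, c, t, z, s] [0, 1, 0, 0, 0, 0, 0] rfl
    have e : (fun a => G x a b c t z s) = fun a => MvPolynomial.eval (fun i =>
        (List.zipWith (fun u v => u + a * v) [x, 0, b, c, t, z, s]
          [0, 1, 0, 0, 0, 0, 0]).getD i 0) FG := by
      funext a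
      rw [hFG]
      simp
    rw [e]
    exact h
  have g4 : ∀ x a b c z s, IsP1 (fun t => G x a b c t z s) := by
    intro x a b c z s
    have h := line FG [x, a, b, c, 0, z, s] [0, 0, 0, 0, 1, 0, 0] rfl
    have e : (fun t => G x a b c t z s) = fun t => MvPolynomial.eval (fun i =>
        (List.zipWith (fun u v => u + t * v) [x, a, b, c, 0, z, s]
          [0, 0, 0, 0, 1, 0, 0]).getD i 0) FG := by
      funext t
      rw [hFG]
      simp
    rw [e]
    exact h
  have kC : ∀ b, IsP1 (fun t => C t 0 b 0 0) := by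
    intro b
    have h := line FC [0, 0, b, 0, 0] [1, 0, 0, 0, 0] rfl
    have e : (fun t => C t 0 b 0 0) = fun t => MvPolynomial.eval (fun i =>
        (List.zipWith (fun u v => u + t * v) [0, 0, b, 0, 0] [1, 0, 0, 0, 0]).getD i 0) FC := by
      funext t
      rw [hFC]
      simp
    rw [e]
    exact h
  have kC' : ∀ b, IsP1 (fun t => C' t 0 b 0 0) := by
    intro b
    have h := line FC' [0, 0, b, 0, 0] [1, 0, 0, 0, 0] rfl
    have e : (fun t => C' t 0 b 0 0) = fun t => MvPolynomial.eval (fun i =>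
        (List.zipWith (fun u v => u + t * v) [0, 0, b, 0, 0] [1, 0, 0, 0, 0]).getD i 0) FC' := by
      funext t
      rw [hFC']
      simp
    rw [e]
    exact h
  -- the two difference functions
  obtain ⟨Γ, hΓ, cy, z0⟩ := gam (fun x a b c t s => C (x + t) (-t) a b c - C s x a b c) G g0 g4
    (fun x a b c t z s => h1 x a b c t z s)
  obtain ⟨Γ', hΓ', cy', z0'⟩ := gam (fun x a b c t s => C' (x + t) (-t) a b c - C' s x a b c)
    (fun x v1 v2 v3 u1 u2 u3 => G x u1 u2 u3 v1 v2 v3)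
    (fun a b c t z s => g0 t z s a b c) (fun x a b c z s => g1 x z s a b c)
    (fun x a b c t z s => by
      have h := h2 x t z s a b c
      rw [add_comm t x]
      exact h)
  obtain ⟨p, p', m, mz, mz', pz, pz', q1, q2⟩ := twoGam Γ Γ' cy cy' z0 z0' (by
    intro x a b c t z s
    have e1 := hΓ x a b c t z s
    have e2 := hΓ x a 0 c t z s
    have e3 := hΓ' x t z s a b c
    have e4 := hΓ' x t 0 s a b c
    linarith)
  -- both halves
  obtain ⟨α, l, C1, C2, k, l0, c10, c20, c20', fC, gV2, gV1, m0, pα⟩ :=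
    sideB C (fun x a c t s => G x a 0 c t 0 s) p' m kC cC mz mz' pz' (by
      intro x a b c t s
      have e0 := h1 x a b c t 0 s
      have e1 := hΓ' x t 0 s a b c
      have e2 := hΓ' c (t + x) 0 s x a b
      rw [q2] at e1 e2
      linarith)
  obtain ⟨α', l', C1', C2', k', l0', c10', c20x, c20x', fC', gV2', gV1', -, pα'⟩ :=
    sideB C' (fun x a c t s => G x t 0 s a 0 c) p (fun x z b => m x b z) kC' cC'
      (fun x b => mz' x b) (fun x z => mz x z) pz (by
      intro x a b c t s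
      have e0 := h2 x t 0 s a b c
      have e1 := hΓ x t 0 s a b c
      have e2 := hΓ c (t + x) 0 s x a b
      rw [q1] at e1 e2
      rw [add_comm x t] at e0 ⊢
      linarith)
  -- comparison
  have k1 : ∀ c s, c * l s = s * l' c := by
    intro c s
    have a1 := gV2 0 0 c 0 s
    have a2 := gV2 0 0 c 0 0
    have a3 := gV2' 0 0 s 0 c
    have a4 := gV2' 0 0 s 0 0
    rw [l0] at a1 a2
    rw [l0'] at a3 a4
    linarith
  have k2 : ∀ t c, t * l c - c * l t = - (c * l' t) := by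
    intro t c
    have a1 := gV2 0 0 c t 0
    have a2 := gV2 0 0 c 0 0
    have a3 := gV1' 0 t 0 0 c
    have a4 := gV1' 0 t 0 0 0
    rw [l0] at a1 a2
    linarith
  have κ : l 1 = 0 := by
    have a1 := k1 1 1
    have a2 := k2 1 1
    linarith
  have lz : ∀ s, l s = 0 := by
    intro s
    have a1 := k1 1 s
    have a2 := k1 1 1
    have a3 : l' 1 = 0 := by linarith
    rw [a3] at a1
    linarith
  have lz' : ∀ s, l' s = 0 := by
    intro s
    have a1 := k1 s 1
    rw [κ] at a1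
    linarith
  simp only [lz, lz', mul_zero, add_zero, sub_zero] at gV2 gV1 gV2' gV1' fC fC'
  -- `C2 = 0`
  have w1 : ∀ c s, C2 c s = 0 := by
    intro c s
    have e1 := h1 0 0 0 c 0 0 s
    have e2 := h1 0 0 0 0 0 0 s
    have e3 := h1 0 0 0 c 0 0 0
    have e4 := h1 0 0 0 0 0 0 0
    rw [fC, fC] at e1 e2 e3 e4
    have a1 := gV2 0 0 c 0 s
    have a2 := gV2 0 0 c 0 0
    have a3 := gV2' c 0 s 0 0
    have a4 := gV2' 0 0 s 0 0
    rw [add_zero, neg_zero] at e1 e2 e3 e4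
    simp only [c10, c20, c20', add_zero, zero_add] at e1 e2 e3 e4
    linarith
  have w1' : ∀ c s, C2' c s = 0 := by
    intro c s
    have e1 := h2 0 0 0 s 0 0 c
    have e2 := h2 0 0 0 s 0 0 0
    have e3 := h2 0 0 0 0 0 0 c
    have e4 := h2 0 0 0 0 0 0 0
    rw [fC', fC'] at e1 e2 e3 e4
    have a1 := gV2' 0 0 c 0 s
    have a2 := gV2' 0 0 c 0 0
    have a3 := gV2 c 0 s 0 0
    have a4 := gV2 0 0 s 0 0
    rw [add_zero, neg_zero] at e1 e2 e3 e4
    simp only [c10', c20x, c20x', add_zero, zero_add] at e1 e2 e3 e4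
    linarith
  have w2 : ∀ s, C1 s = 0 := by
    intro s
    have e1 := h1 0 0 0 0 0 0 s
    have e2 := h1 0 0 0 0 0 0 0
    rw [fC, fC] at e1 e2
    rw [add_zero, neg_zero] at e1 e2
    simp only [c10, w1, add_zero] at e1 e2
    linarith
  have w2' : ∀ s, C1' s = 0 := by
    intro s
    have e1 := h2 0 0 0 s 0 0 0
    have e2 := h2 0 0 0 0 0 0 0
    rw [fC', fC'] at e1 e2
    rw [add_zero, neg_zero] at e1 e2
    simp only [c10', w1', add_zero] at e1 e2
    linarith
  refine ⟨fun a b c d e => ?_, fun a b c d e => ?_⟩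
  · rw [fC, fC 0 0 0 0 0]
    simp only [w1, w2]
  · rw [fC', fC' 0 0 0 0 0]
    simp only [w1', w2']

end Pent.E6
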