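import Pool.Agent.Lib.MP_a57f33_nt.PN.DefsA
import Pool.Agent.Lib.MP_a57f33_nt.PN.DefsF

/-!
# Pentagon project (MP_a57f33_nt), Half I: statements of the pieces

Each piece is a `Prop` `S_xxx` with a proof in words in its docstring. Letters of `T3`:
`a = ι 0`, `b = ι 1`, `c = ι 2`.
-/

namespace Pent

open Pool.Agent.MP_a57f33_nt
open Pool.Agent.MP_a57f33_nt.Cyc (shuffle)

universe v

noncomputable section

/-- the letter `a` of `T3` -/
def xa : T3 := FreeAlgebra.ι ℚ 0
/-- the letter `b` of `T3` -/
def xb : T3 := FreeAlgebra.ι ℚ 1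
/-- the letter `c` of `T3` -/
def xc : T3 := FreeAlgebra.ι ℚ 2
/-- left multiplication by `b` -/
def Lb : Module.End ℚ T3 := LinearMap.mulLeft ℚ xb
/-- left multiplication by `c` -/
def Lc : Module.End ℚ T3 := LinearMap.mulLeft ℚ xc
/-- `a ↦ [a, b]`, `b ↦ [b, a]`, `c ↦ 0` -/
def d12 : Module.End ℚ T3 := tau (some 0) (some 1)
/-- `a ↦ [a, c]`, `b ↦ 0`, `c ↦ [c, a]` -/
def d13 : Module.End ℚ T3 := tau (some 0) (some 2)
/-- `a ↦ 0`, `b ↦ [b, c]`, `c ↦ [c, b]` -/
def d23 : Module.End ℚ T3 := tau (some 1) (some 2)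

/-- `φ` is a Lie element without terms of degree one -/
def Good (φ : QX) : Prop := φ ∈ LieX ∧ coeff φ [false] = 0 ∧ coeff φ [true] = 0

/-! ### Lie elements -/

/-- Piece `clie`: coefficients of Lie elements. Proof: induction over the Lie span; the function
`coeff f` of a commutator is `conv f g - conv g f`, and for functions `f`, `g` vanishing on `[]`
and on proper shuffles so does `conv f g - conv g f` (`shuffle` is compatible with
deconcatenation: the sum of `F p q` over the cuts `p ++ q` of the shuffles of `u`, `v` is the sum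
over the cuts `u = u' ++ u''`, `v = v' ++ v''` and over the shuffles `p` of `u', v'` and `q` of
`u'', v''`). -/
def S_clie : Prop :=
  ∀ (I : Type) [DecidableEq I] (f : FreeAlgebra ℚ I), f ∈ LieT I →
    coeff f [] = 0 ∧
    ∀ u v : List I, u ≠ [] → v ≠ [] → ((shuffle u v).map (coeff f)).sum = 0

/-- Piece `mov`: the basic Lie identities for functions on words that kill proper shuffles.
Proof of the first: induction on `B`, using the proper shuffle of `A ++ [x] ++ ..` with the last
letter of `B`; e.g. for `B = B' ++ [y]`: in `shuffle (A ++ x :: B') [y]`.. Equivalent: the sum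
over the cuts `B = B' ++ B''` of `(-1)^|B''| *` (sum of `g` over the words `A ++ [x] ++ B'` shuffled
with `B''.reverse`) is on the one hand `g (A ++ x :: B)` + (proper shuffles, `0`), on the other hand
all words in which a letter of `B` comes after `x` cancel, leaving
`(-1)^|B| * ` sum over `(shuffle A B.reverse).map (· ++ [x])`. The second is the first for
`g ∘ reverse`; the third is the first with `A = []` (and `w ≠ []`). -/
def S_mov : Prop :=
  ∀ (α : Type) (g : List α → ℚ),
    (∀ u v : List α, u ≠ [] → v ≠ [] → ((shuffle u v).map g).sum = 0) →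
    (∀ (A B : List α) (x : α), g (A ++ x :: B) =
      (-1) ^ B.length * ((shuffle A B.reverse).map (fun t => g (t ++ [x]))).sum) ∧
    (∀ (A B : List α) (x : α), g (A ++ x :: B) =
      (-1) ^ A.length * ((shuffle A.reverse B).map (fun t => g (x :: t))).sum) ∧
    (∀ w : List α, w ≠ [] → g w.reverse = (-1) ^ (w.length + 1) * g w)

/-! ### Braid tuples -/

/-- Piece `tau`: the fibre module satisfies the braid relations. Proof: check on letters
(`der_unique`, commutators of derivations are derivations, `d ∘ L_x - L_x ∘ d = L_{d x}`). -/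
def S_tau : Prop :=
  ∀ (I : Type) [DecidableEq I],
    Braid (tau : Option I → Option I → Module.End ℚ (FreeAlgebra ℚ I))

/-- Piece `univ` (universal lemma). Proof. Let `θ` be the algebra map `x_i ↦ t (some i) none`.
For `x ∈ A`, `X ∈ End T3`, `h ∈ A` let `Rel x X h` be: `x * θ g = θ (X g) + θ g * h` for all `g`.
`Rel` holds for `(t p q, tau p q, t' p q)`, `p ≠ q`, where `t' p q = 0` if `p = none` or `q = none`
and `t' p q = t p q` otherwise (`t (some i) (some j) * θ g - θ g * t (some i) (some j) = θ (tau g)`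
by induction on `g`, from `[t i j, t i n] = [t i n, t j n]`). `Rel` is stable under sums, scalar
multiples and commutators, hence `Rel (ev2 φ x y) (ev2 φ X Y) (ev2 φ h k)` for `φ ∈ LieX` if
`Rel x X h`, `Rel y Y k`; so `Rel (pent φ (t ∘ w)) (pent φ (tau ∘ w)) (pent φ (t' ∘ w))`.
`pent φ (t' ∘ w) = 0`: if one strand is put to zero, the five terms cancel or vanish, because
`ev2 φ x 0 = ev2 φ 0 y = 0` (`φ` Lie without terms of degree one). Put `g = 1`. -/
def S_univ : Prop :=
  ∀ φ : QX, Good φ → ∀ w : Fin 4 → Option (Fin 3), Function.Injective w →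
    ∀ (A : Type v) [Ring A] [Algebra ℚ A] (t : Option (Fin 3) → Option (Fin 3) → A),
      Braid t → pent φ (fun i j => t (w i) (w j)) =
        FreeAlgebra.lift ℚ (fun i => t (some i) none) (Rw φ w)

/-- Piece `lieR`: the `R_w` are Lie elements without terms of degree one. Proof: the set of
operators `L_r + d`, `r ∈ LieT`, `d` a derivation with `d(x_i) ∈ LieT` for all letters, is stable
under sums and commutators (`[L_r + d, L_s + e] = L_{[r,s] + d s - e r} + [d, e]`) and contains all
`tau p q`; value at `1` is `r`. Degree one: `ev2 φ X Y 1` has no terms of degree one: use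
`coeff (L_r + d)(f)`.. or: for a commutator, `[X, Y] 1 = X (Y 1) - Y (X 1)` has only terms of degree
`≥ 2` since all `tau p q` raise the degree by one. -/
def S_lieR : Prop :=
  ∀ φ : QX, Good φ → ∀ w : Fin 4 → Option (Fin 3),
    Rw φ w ∈ LieT (Fin 3) ∧ ∀ i : Fin 3, coeff (Rw φ w) [i] = 0

/-- Piece `forg` (forgetting a strand): `R_w` has no words in which one of the letters is
missing. Proof: apply `S_univ` to `A = End T3` and `t' p q = 0` if `p` or `q` is `some i`, else
`tau p q` (this is again a braid tuple). `pent φ (t' ∘ w) = 0` as in `S_univ` (one strand is zero),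
so `lift (x_j ↦ L_{x_j} or 0 if j = i) (Rw φ w) = 0`; apply to `1`: the algebra map
`x_i ↦ 0`, `x_j ↦ x_j` kills `Rw φ w`, and it does not change the coefficients of words without
the letter `i`. -/
def S_forg : Prop :=
  ∀ φ : QX, Good φ → ∀ w : Fin 4 → Option (Fin 3), Function.Injective w →
    ∀ (i : Fin 3) (u : List (Fin 3)), i ∉ u → coeff (Rw φ w) u = 0

/-! ### The cocycle identity and its coefficients -/

/-- `T_4` -/
abbrev T4 : Type := FreeAlgebra ℚ (Fin 4)

/-- letters of `T_4` -/
def yl (i : Fin 4) : T4 := FreeAlgebra.ι ℚ i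

/-- substitution `T3 → T4` -/
def sub3 (f : T3) (y0 y1 y2 : T4) : T4 := FreeAlgebra.lift ℚ ![y0, y1, y2] f

/-- Piece `coc`. Letters of `T4`: `x_1, .., x_4` are `yl 0, .., yl 3`.
Proof. In `A = End T4` take the braid tuple `t = tau` on the five strands `Option (Fin 4)`. Merging
strands: `E = D(1,2,3,45) 1`, i.e. `E = pent φ m 1` with `m = ` the tuple of the four strands
`0, 1, 2, {3, none}` (`m i 3 = tau (some i) (some 3) + tau (some i) none` for `i ≤ 2`).
(i) `D(2345) - D(12,3,4,5) + D(1,23,4,5) - D(1,2,34,5) + D(1,2,3,45) - D(1234) = 0` (30 terms cancel,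
no relation needed), apply to `1`; `D(1234) 1 = 0` (derivations kill `1`), and by `S_univ` with
`w = wR` and the merged tuples (which are braid tuples on `Option (Fin 3)`),
`D(2345) 1 = R(x_2,x_3,x_4)`, `D(12,3,4,5) 1 = R(x_1+x_2,x_3,x_4)` etc.
(ii) `S_univ` with `w = wP` and the tuple `m` read with last strand `1`:
`E = P(δ_{12}, δ_{23}, δ_{24} + L_{x_2}) 1`; coefficient of a word `w x_2`, `w` without `x_2`: the
last operator applied to `1` must be `L_{x_2}`, each `δ_{2j}` must act on the last letter `x_2`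
by `x_2 ↦ - x_j x_2`.
(iii) the same with `wQ` and last strand `2`: `E = Q(δ_{13}, δ_{23}, δ_{34} + L_{x_3}) 1`.
(iv) `pent φ m` commutes with `L_{x_4}` (braid relations), and `pent φ m = L_E + d` where `d` is
a derivation with `d(x_i) ∈ x_i T + T x_i`, `∑ d(x_i) = 0` (these operators are stable under sums
and commutators, and `tau p q` is one of them); so `x_4 E = E x_4 + d(x_4)`,
`d(x_4) = - ∑_{i ≤ 3} d(x_i)` has no words of the form `x_4 w x_4`. -/
def S_coc : Prop :=
  ∀ φ : QX, Good φ → ∃ E : T4,
    E = - sub3 (Rw φ wR) (yl 1) (yl 2) (yl 3) + sub3 (Rw φ wR) (yl 0 + yl 1) (yl 2) (yl 3)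
        - sub3 (Rw φ wR) (yl 0) (yl 1 + yl 2) (yl 3)
        + sub3 (Rw φ wR) (yl 0) (yl 1) (yl 2 + yl 3) ∧
    (∀ w : List (Fin 3), coeff E (w.map ![0, 2, 3] ++ [1]) =
      (-1) ^ w.length * coeff (Rw φ wP) (w.reverse ++ [2])) ∧
    (∀ w : List (Fin 3), coeff E (w.map ![0, 1, 3] ++ [2]) =
      (-1) ^ w.length * coeff (Rw φ wQ) (w.reverse ++ [2])) ∧
    (∀ w : List (Fin 4), coeff E (w ++ [3]) = coeff E (3 :: w))

/-- the three consequences -/
structure Abc (R Q P : T3) : Prop where
  a : ∀ w, coeff R (w ++ [2]) = coeff R (2 :: w)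
  b : ∀ w, coeff Q (w ++ [2]) = coeff R (2 :: w) - coeff R (1 :: w)
  c : ∀ w, coeff P (w ++ [2]) = - coeff R (1 :: w) + if 0 ∈ w then coeff R (0 :: w) else 0

/-- Piece `abc`. Proof: compare coefficients in the formula for `E` in `S_coc`, using that `R`
has no words with at most one letter `b = 1` or at most one letter `c = 2`.
(a) For a word `w` in the letters `0, 1, 2` of `T4`: only the last term contributes to
`coeff E (w ++ [3])` and to `coeff E (3 :: w)` (in the other terms the letter `x_4 = 3` is the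
only source of the letter `c`), so they are `coeff R (w ++ [2])` and `coeff R (2 :: w)`.
(b) For `w` in the letters `0, 1, 3`: in `coeff E (w ++ [2])` the first two terms vanish (only one
letter `b`); the others give `- R(w~ 1) + R(w~ 2)`, `w~` = `w` with `3` replaced by `2`; this is
`(-1)^|w| Q(rev w~ ++ [2])`; reverse with the Lie identity for `R` (`S_mov`, third).
(c) For `w` in the letters `0, 2, 3`: in `coeff E (w ++ [1])` the last term vanishes (one letter
`b`); the third is `- R(w~ 1)`, `w~` = `w` with `2, 3` replaced by `1, 2`; the first two are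
`R(w~ 0)` if `0 ∈ w` (then the first one is zero) and cancel if not. -/
def S_abc : Prop :=
  ∀ φ : QX, Good φ →
    (∀ w : List (Fin 3), (w.count 1 ≤ 1 ∨ w.count 2 ≤ 1) → coeff (Rw φ wR) w = 0) →
    Abc (Rw φ wR) (Rw φ wQ) (Rw φ wP)

/-! ### Fact 1: the double shuffle relations -/

/-- `R` has only words in which some letter `b` comes before some letter `c` -/
def ClassZero (R : T3) : Prop :=
  ∀ u w : List (Fin 3), 1 ∉ u → 2 ∉ w → coeff R (u ++ w) = 0

/-- Piece `few`. Proof: word with at most one letter `1`: either no letter `1` (take `w = []`),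
or `A ++ [1] ++ B` with `A`, `B` in the letters `0, 2`; the Lie identity (`S_mov`, first) moves `B`
to the left: all words `t ++ [1]`, `1 ∉ t`, are in the class. With at most one letter `2`:
mirror. -/
def S_few : Prop :=
  ∀ R : T3, R ∈ LieT (Fin 3) → ClassZero R →
    ∀ w : List (Fin 3), (w.count 1 ≤ 1 ∨ w.count 2 ≤ 1) → coeff R w = 0

/-- the involution `a ↦ -a-b-c`, `b ↦ b`, `c ↦ c` of `T3` -/
def inv3 : T3 →ₐ[ℚ] T3 := FreeAlgebra.lift ℚ ![-xa - xb - xc, xb, xc]

/-- the derivation `X`: `b ↦ [a + c, b]`, `a, c ↦ 0` -/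
def dX : Module.End ℚ T3 := der ![0, (xa + xc) * xb - xb * (xa + xc), 0]

/-- the operator `C' = L_b + (b ↦ [b, c], c ↦ [c, b])` -/
def dC : Module.End ℚ T3 := Lb + d23

/-- Piece `Rp`: the formula for `R' = inv3 R`. Proof: in `pent φ (tau ∘ wR) 1` the first three
terms can be computed: `z = d23 + Lb + Lc` commutes with `d23` and `Lc`, and `φ` is Lie without
terms of degree one, so `ev2 φ d23 Lc = ev2 φ (z - Lb - Lc) Lc = ev2 φ (-Lb - Lc) Lc`; similarly
`ev2 φ (d13 + d23) Lc = ev2 φ (-La - Lb - Lc) Lc` and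
`ev2 φ (d12 + d13) (Lb + Lc) = ev2 φ (-La - Lb - Lc) (Lb + Lc)` (with the central elements
`d13 + d23 + La + Lb + Lc` resp. `d12 + d13 + La + Lb + Lc`); the last term is `0` at `1`. So
`R = φ(-b-c, c) - φ(-a-b-c, c) + φ(-a-b-c, b+c) - (ev2 φ d12 (d23 + Lb)) 1`. Apply `inv3`
(`inv3 ∘ inv3 = id`): `inv3 ∘ d12 = dX ∘ inv3`, `inv3 ∘ (d23 + Lb) = dC ∘ inv3` (check on
letters). -/
def S_Rp : Prop :=
  ∀ φ : QX, Good φ →
    inv3 (Rw φ wR) = ev2 φ (-xb - xc) xc - ev2 φ xa xc + ev2 φ xa (xb + xc)
      - (ev2 φ dX dC) 1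

/-- the word `Π (a^{m_i - 1} c) · Π (a^{n_j - 1} b)` of `T3`; the first list is given in reverse
order -/
def wPV (p V : List ℕ+) : List (Fin 3) :=
  (p.reverse.flatMap fun m => List.replicate ((m : ℕ) - 1) 0 ++ [2]) ++
    (V.flatMap fun n => List.replicate ((n : ℕ) - 1) 0 ++ [1])

/-- the value of a function `Z` on words in the `y_n` at the element `F(P ⊗ V)`, `P = p.reverse` -/
def FF : (List ℕ+ → ℚ) → List ℕ+ → List ℕ+ → ℚ
  | Z, [], V => Z V
  | _, _ :: _, [] => 0
  | Z, m :: p, n :: V =>
      FF (fun u => Z (n :: u)) (m :: p) V - FF (fun u => Z (n :: u)) p (m :: V)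
        + FF Z p ((m + n) :: V)
termination_by _ p V => p.length + V.length

/-- Piece `dual`: the coefficients of `(ev2 φ dX dC) 1` at the words `wPV p V`. Proof: transpose
the operators: `coeff (dX g) (wPV p V)` is: `V = []`: `0`; `V = n :: V'`, `n ≥ 2`:
`coeff g (wPV p ((n-1) :: V'))`; `V = 1 :: V'`, `p = []`: `0`; `V = 1 :: V'`, `p = m :: p'`:
`coeff g (wPV p' (m :: V'))`. And `coeff (dC g) (wPV p V)` is: `V = []`: `0`; `n ≥ 2`: `0`;
`V = 1 :: V'`, `p = []`: `coeff g (wPV [] V')`; `V = 1 :: V'`, `p = m :: p'`: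
`coeff g (wPV p V') - coeff g (wPV p' (m :: V'))`. Hence, for every word `w` in `false, true`,
`coeff ((ev2 (word w) dX dC) 1) (wPV p V) = FF (fun u => if toX u = w then 1 else 0) p V` by
induction on `w`: `FF` satisfies the same recursion (for `n ≥ 2`:
`FF Z p (n :: V) = FF (Z ∘ (y_{n-1} .. ↦ y_n ..)) p ((n-1) :: V)`, i.e. both sides only see `Z` on
words beginning with `x_0`). Then linearity in `φ`. -/
def S_dual : Prop :=
  ∀ (φ : QX) (p V : List ℕ+), V ≠ [] →
    coeff ((ev2 φ dX dC) 1) (wPV p V) = FF (fun u => coeff φ (toX u)) p V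

/-- Piece `FF`: if `w ↦ (-1)^|w| Z w` kills all proper stuffle products, then `FF Z p V = Z (PV)`,
`P = p.reverse`, `V ≠ []`. Proof. Work in the algebra `ℚ⟨Y⟩` with the signed stuffle `⋆`
(`y_m ⋆ y_n = y_m y_n + y_n y_m - y_{m+n}` etc.); `Z` kills proper `⋆`-products. Define `S` by
`S(∅) = 1`, `S(P) = - ∑_{P = P1 Q, Q ≠ ∅} y_{|Q|} S(P1)` (`|Q|` the sum of the letters of `Q`) and
`G(P, V) = ∑_{P = P1 P2} S(P1) ⋆ (P2 V)`. (1) For the operator `∂ = ∑_k t^k ∂_k`, `∂_k` = removal of
the first letter `y_k`, one has `(1-∂)(U ⋆ W) = (1-∂)U ⋆ (1-∂)W`, `(1-∂) S(P) =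
∑_{P = P1 P2} t^{|P2|} S(P1)`; telescoping gives for `V = n :: V'`:
`G(P, V) = ∑_{P = P1 Q} y_{n+|Q|} (S(P1) ⋆ V')`. (2) Hence, with `P = P' m`:
`G(P, n V') = y_n (S(P) ⋆ V') + G(P', (m+n) V')` and `S(P) ⋆ V' = G(P, V') - G(P', m V')`; and
`G(P, ∅) = 0` for `P ≠ ∅` (same computation: `(1-∂) G(P, ∅) = G(P, ∅)`, induction). This is
the recursion of `FF`, so `FF Z p V = Z(G(P, V))`. (3) If `Z` kills proper products and `V ≠ ∅`,
`Z(G(P, V)) = Z(P V)`. [Recursion and formula checked by computer.] -/
def S_FF : Prop :=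
  ∀ Z : List ℕ+ → ℚ,
    (∀ u v : List ℕ+, u ≠ [] → v ≠ [] →
      ((stuffle u v).map fun w => (-1) ^ w.length * Z w).sum = 0) →
    ∀ p V : List ℕ+, V ≠ [] → FF Z p V = Z (p.reverse ++ V)

/-- Piece `F1` (**Fact 1**; given `S_lieR`, `S_forg`, `S_mov`, `S_clie`, `S_Rp`, `S_dual`, `S_FF`).
Proof. Put `φ = sgn ψ`, `R' = inv3 (Rw φ wR)`.
`coeff φ (toX u) = (-1)^|u| coeff ψ (toX u)`, so `Z u = (-1)^|u| starCoeff ψ u` satisfies the
hypothesis of `S_FF` (`dm0_stuffle`) and equals `coeff φ (toX u)` unless `u = [1,..,1]`.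
(1) If `V ≠ []` and not all letters of `p`, `V` are `1`: `coeff R' (wPV p V) = 0`: the first term
`φ(-b-c, c)` has no letter `a`, the second no letter `b`; the third contributes
`coeff φ (toX (p.reverse ++ V))`, the fourth `- FF (coeff φ ∘ toX) p V = - FF Z p V` (all words
occurring in `FF` have a letter `≥ 2`, so the correction terms do not matter)
`= - Z (p.reverse ++ V)`; they cancel. (2) `R'` has no words without `b` or without `c` (by
`S_forg` and because `inv3` preserves the ideals generated by `b` and by `c`). (3) Words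
`wPV p V ++ a^k`, `k ≥ 1`, `V ≠ []`: the Lie identity (`S_mov`, first, with `x` the last letter
`b`) moves `a^k` to the left; all words obtained are `wPV` words containing `a`, so `0` by (1).
(4) Words `c^r b^s`, `r, s ≥ 1`: `R'(-b-c, b, c) = R(0, b, c) = 0` by `S_forg`; its coefficient at
`c^r b^s` is `coeff R' (c^r b^s)` plus `±` coefficients of `R'` at words of the class containing
`a`, all `0`. So `ClassZero R'`, hence `ClassZero R` since `inv3` preserves the span of the words
in which some `b` is before some `c` (the product of two ideals preserved by `inv3`). -/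
def S_F1 : Prop := ∀ ψ ∈ dm0, ClassZero (Rw (sgn ψ) wR)

/-! ### The equations -/

/-- Piece `SP`. Here `V(b, c) = ev2 V xb xc`. Proof. Let `Z` be the left side; it is Lie.
Coefficient at `i w 2` (`i` a letter, `w` a word): `[x_j, F]` has `[i = j] F(w 2) - [j = 2] F(i w)`;
with (a), (b), (c): it is `0` for `i = 1, 2` and `- [0 ∉ w] R(0 w)` for `i = 0`. Words without the
letter `2 = c`: `0` (each of `R, Q, P` vanishes on them).
Part with at least two letters `a = 0`, and part without `a`: all words ending in `c` vanish, so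
(Lie identity, moving everything after a letter `c` to its left) all words containing `c` vanish.
Part with exactly one `a`: put `z u = Z(u a)`, `u` a word in `b, c`; then
`Z(u a v) = (-1)^|v| (sum of z over shuffle u v.reverse)`. For `u ≠ []`, `Z(u a v c) = 0` says that
`z` vanishes on the shuffles of `u` and `c :: v.reverse`; a word `b^k c w'` is a combination of
shuffles of `b^j` and `c :: (..)`, so `z` vanishes on all shuffles of nonempty words one of which
contains `c`; and on words without `c`. So `Z(u a v) = 0` for `u`, `v` nonempty and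
`Z(a v) = (-1)^|v| z(v.reverse) = - z v`, i.e. `Z = V a - a V`, `V = ∑ z(u) u`. -/
def S_SP : Prop :=
  ∀ R Q P : T3, R ∈ LieT (Fin 3) → Q ∈ LieT (Fin 3) → P ∈ LieT (Fin 3) →
    (∀ u : List (Fin 3), 2 ∉ u → coeff R u = 0 ∧ coeff Q u = 0 ∧ coeff P u = 0) →
    Abc R Q P →
    ∃ V : QX, ((xa + xb + xc) * R - R * (xa + xb + xc)) - ((xa + xb) * Q - Q * (xa + xb))
      + (xa * P - P * xa) = ev2 V xb xc * xa - xa * ev2 V xb xc

/-- the three equations for `R, Q, P, N, S` and `V` -/
structure Eqs (R Q P N S : T3) (V : QX) : Prop where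
  i2 : ((xa + xb + xc) * R - R * (xa + xb + xc)) - ((xa + xb) * Q - Q * (xa + xb))
      + (xa * P - P * xa) = ev2 V xb xc * xa - xa * ev2 V xb xc
  i4 : d13 P + d23 P + (xc * P - P * xc) - d13 N - (xc * N - N * xc) + d13 S
      = - d13 ((ev2 V Lc d23) 1)
  i4' : d12 N + d23 N + (xb * N - N * xb) - d12 P - (xb * P - P * xb) + d12 Q
      = - d12 ((ev2 V Lb d23) 1)

/-- Piece `tra` (transfer). Proof. By `S_univ` with `A = End T3` and `t = tau` (`S_tau`):
`pent φ (tau ∘ w) = L_{Rw φ w}`. For a bijection `w'` of `Option (Fin 3)` the tuple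
`t = tau ∘ w'` is a braid tuple, and `θ = lift (x_i ↦ t (some i) none)` sends `R` to
`pent φ (t ∘ wR) = pent φ (tau ∘ w' ∘ wR) = L_{Rw φ (w' ∘ wR)}` etc. Apply `θ` to the equation.
`i4`: `w' = (some 0 ↦ some 0, some 1 ↦ none, some 2 ↦ some 1, none ↦ some 2)`; then
`w' ∘ wR = wP`, `w' ∘ wQ = wN`, `w' ∘ wP = wS`, `θ a = d13`, `θ b = Lc`, `θ c = d23`. Take the value
at `1` (`[d, L_F] = L_{d F}` for a derivation `d`, `d 1 = 0`).
`i4'`: `w' = (some 0 ↦ some 0, some 1 ↦ none, some 2 ↦ some 2, none ↦ some 1)`; `w' ∘ wR = wN`,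
`w' ∘ wQ = wP`, `w' ∘ wP = wQ`, `θ a = d12`, `θ b = Lb`, `θ c = d23`. -/
def S_tra : Prop :=
  ∀ (φ : QX) (V : QX), Good φ →
    ((xa + xb + xc) * Rw φ wR - Rw φ wR * (xa + xb + xc))
      - ((xa + xb) * Rw φ wQ - Rw φ wQ * (xa + xb)) + (xa * Rw φ wP - Rw φ wP * xa)
      = ev2 V xb xc * xa - xa * ev2 V xb xc →
    Eqs (Rw φ wR) (Rw φ wQ) (Rw φ wP) (Rw φ wN) (Rw φ wS) V

/-! ### Momentum functions -/

/-- multiplication by the total momentum -/
def mTot : Module.End ℚ (Wd → ℚ) where
  toFun G w := tot w * G w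
  map_add' G H := by funext w; simp [mul_add]
  map_smul' r G := by funext w; simp; ring

/-- `G ↦ fstL x G` -/
def mFst (x : Bool) : Module.End ℚ (Wd → ℚ) where
  toFun G := fstL x G
  map_add' G H := by
    funext w
    cases w with
    | nil => simp [fstL]
    | cons y w => simp only [fstL, Pi.add_apply]; split_ifs <;> simp
  map_smul' r G := by
    funext w
    cases w with
    | nil => simp [fstL]
    | cons y w => simp only [fstL, Pi.smul_apply, RingHom.id_apply]; split_ifs <;> simp

/-- the action of `T3` on functions: `a` = multiplication by the total momentum, `b`, `c` = first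
letter -/
def actM : T3 →ₐ[ℚ] Module.End ℚ (Wd → ℚ) := FreeAlgebra.lift ℚ ![mTot, mFst false, mFst true]

/-- the momentum function of `f` -/
def MM (f : T3) : Wd → ℚ := actM f (fun w => if w = [] then 1 else 0)

/-- number of letters `b`, `c` -/
def nbc (w : List (Fin 3)) : ℕ := (w.filter (· ≠ 0)).length

/-- all words of `f` have at least `k` letters `b`, `c` -/
def Fil (k : ℕ) (f : T3) : Prop := ∀ w, nbc w < k → coeff f w = 0

/-- the letter `b` or `c` of `T3` of type `x` -/
def lt3 (x : Bool) : Fin 3 := if x then 2 else 1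

/-- Piece `mlie`: the momentum function of a Lie element without linear term `a` is a Lie
function, and brackets. Proof. Let `conv` be the convolution of functions on `Wd`. Operators
`G ↦ conv M G`: `mFst x` is one of them (`M` = indicator of words with one letter, of type `x`);
`[mTot, conv M ·] = conv (tot·M) ·` since `tot` is additive. By induction over the Lie span:
every `f ∈ LieT (Fin 3)` acts as `r • mTot + conv M ·` with `M` vanishing on `[]` and on proper
shuffles; `r = coeff f [0]`, and if `r = 0` then `MM f = M`. For brackets: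
`MM (x f) = fstL (MM f)`, `MM (f x) = conv (MM f) (indicator of the letter x) = lstL (MM f)`,
`MM (a f) = tot · MM f`, `MM (f a) = 0`. -/
def S_mlie : Prop :=
  ∀ f : T3, f ∈ LieT (Fin 3) → coeff f [0] = 0 →
    LieFn (MM f) ∧ MM f [] = 0 ∧
    (∀ w, MM (xb * f - f * xb) w = brk false (MM f) w) ∧
    (∀ w, MM (xc * f - f * xc) w = brk true (MM f) w)

/-- Piece `mwrd`: the momentum function on words:
`MM (a^{i_1} l_1 a^{i_2} l_2 .. a^{i_k} l_k a^i)` at `(l_1,μ_1)..(l_k,μ_k)` is
`∏_j (μ_j + .. + μ_k)^{i_j}` if `i = 0` and `0` else (and `0` at words with another pattern of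
letters). Consequences: linearity, value at zero momenta, polynomiality, `MM (a f) = tot · MM f`,
`MM (f a) = 0`, `MM f w = 0` if `f` has no words with the letter pattern of `w`, words without
`a`. Convenient: all statements are linear in `f`, so check them for `f = word u` by induction on
`u` (`MM (x_i * f) = mTot / mFst of MM f`). -/
def S_mwrd : Prop :=
  (∀ f g : T3, ∀ w, MM (f + g) w = MM f w + MM g w) ∧
  (∀ f : T3, ∀ w, MM (-f) w = - MM f w) ∧
  (∀ (f : T3) (w : Wd), (∀ y ∈ w, y.2 = 0) → MM f w = coeff f (w.map fun y => lt3 y.1)) ∧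
  (∀ f : T3, PolyW (MM f)) ∧
  (∀ (f : T3) (w : Wd), MM (xa * f) w = tot w * MM f w) ∧
  (∀ (f : T3) (w : Wd), MM (f * xa) w = 0) ∧
  (∀ (f : T3) (w : Wd), (∀ u : List (Fin 3), u.filter (· ≠ 0) = w.map (fun y => lt3 y.1) →
    coeff f u = 0) → MM f w = 0) ∧
  (∀ (V : QX) (w : Wd), MM (ev2 V xb xc) w = coeff V (w.map fun y => y.1))

/-- Piece `mder`: derivations and momentum functions.
(1) `MM (d23 f) = mrg (MM f)`: `d23` replaces a letter `b` by `bc - cb` and a letter `c` by
`cb - bc`, between the two new letters there is no `a`, so the product formula of `S_mwrd` gives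
the momentum `μ + ν` for the old letter. Induction on words `u`: with `f = word u`,
`MM (d23 (x_i f)) = MM ((d23 x_i) f) + MM (x_i (d23 f))`, and `mrg` commutes with `mTot` (as `tot`
does not change by merging), and `mrg (mFst x G) ` differs from `mFst x (mrg G)` by the merge of
the first two letters.
(2) lowest terms: `d13` replaces `a` by `ac - ca` (this raises the number of letters `b`, `c`) and
`c` by `ca - ac`; on words of length `k` of `MM (d13 f)`, `Fil k f`, only the second counts:
`(c, μ) ↦ - μ (c, μ)`: `mTot` after minus before. Same for `d12` with `b`. -/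
def S_mder : Prop :=
  (∀ (f : T3) (w : Wd), MM (d23 f) w = mrg (MM f) w) ∧
  (∀ (f : T3) (k : ℕ) (w : Wd), Fil k f → w.length = k →
    MM (d13 f) w = - (csum w * MM f w) ∧ MM (d12 f) w = - (bsum w * MM f w))

/-- Piece `minj`: a Lie element without linear term `a` is determined by its momentum function,
in each degree in `b`, `c`. Proof. Let `f_k` be the part of `f` of degree `k` in `b`, `c` (again
a Lie element). If `MM f` vanishes on words of length `k`, then all coefficients of `f_k` at words
not ending in `a` vanish (coefficients of the polynomials `∏ (μ_j + .. + μ_k)^{i_j}`, which are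
linearly independent). A Lie element without linear term `a` whose coefficients at words not
ending in `a` vanish is `0`: a word `w x a^j`, `x ≠ a`, has coefficient
`(-1)^j` (sum over the shuffles of `w` and `a^j`, followed by `x`), and the pure words `a^j` have
coefficient `0`. -/
def S_minj : Prop :=
  ∀ (f : T3) (k : ℕ), f ∈ LieT (Fin 3) → coeff f [0] = 0 →
    (∀ w : Wd, w.length = k → MM f w = 0) → ∀ u : List (Fin 3), nbc u = k → coeff f u = 0

/-- Piece `mV`: proof: `Lc`, `Lb`, `d23` raise the number of letters `b`, `c` by one. -/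
def S_mV : Prop :=
  ∀ (V : QX) (k : ℕ), (∀ u : List Bool, u.length < k → coeff V u = 0) →
    Fil k ((ev2 V Lc d23) 1) ∧ Fil k ((ev2 V Lb d23) 1)

/-- Piece `van`: a polynomial function that vanishes off a hyperplane `tot = 0`
(resp. `csum = 0`, `bsum = 0`) vanishes. -/
def S_van : Prop :=
  ∀ f : Wd → ℚ, PolyW f →
    (∀ p : List Bool, p ≠ [] → (∀ μ : List ℚ, μ.length = p.length → tot (p.zip μ) ≠ 0 →
      f (p.zip μ) = 0) → ∀ μ : List ℚ, μ.length = p.length → f (p.zip μ) = 0) ∧
    (∀ p : List Bool, true ∈ p → (∀ μ : List ℚ, μ.length = p.length → csum (p.zip μ) ≠ 0 →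
      f (p.zip μ) = 0) → ∀ μ : List ℚ, μ.length = p.length → f (p.zip μ) = 0) ∧
    (∀ p : List Bool, false ∈ p → (∀ μ : List ℚ, μ.length = p.length → bsum (p.zip μ) ≠ 0 →
      f (p.zip μ) = 0) → ∀ μ : List ℚ, μ.length = p.length → f (p.zip μ) = 0)

/-- Piece `dep` (descent in depth). Proof: strong induction on `m`: all five momentum functions
vanish on words of length `m`. Suppose this for all lengths `< m`. Then (`S_minj`) the five
elements are in `Fil m`. Evaluate the three equations with `MM` on words of length `m`, then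
`m + 1`, with `S_mlie`, `S_mwrd`, `S_mder`.
`i2`, length `k ≤ m`: `tot·(R - Q + P) = - tot · V`, so (`S_van`) `R - Q + P = - V_k` (constant in the
momenta), and at momentum `0` the left side is `0` (no words without `a`), so `V_k = 0` for
`1 ≤ k ≤ m` and `Q = P + R` at length `m`. (`V_0` may be removed: replace `V` by `V - V_0`, the right
sides do not change: `i2`: `[1, a] = 0`; `i4`: `d13 1 = 0`.)
`i4`, length `m`: `csum·(P - N + S) = 0` (as `(ev2 V Lc d23) 1 ∈ Fil (m+1)`), so `N = P + S` (on
words without `c` all vanish by hypothesis). `i4'`: `bsum·(N - P + Q) = 0`, so `N = P - Q = -R`,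
`S = N - P = - R - P`. Length `m + 1`: `i2` with `tot w = 0`: `brk true R w - brk false P w = 0`
(`[b + c, R] - [b, P + R] = [c, R] - [b, P]`). `i4` with `csum w = 0`: `X = P - N + S +
(ev2 V Lc d23) 1` is in `Fil (m + 1)`, so `MM (d13 X) w = 0`, and
`mrg P w + brk true (P - N) w = 0`, `P - N = P + R`. So the parts of `MM P`, `MM R` of length `m`
satisfy `PR m`, and `S_II` (with `S_ED`) gives `0`. -/
def S_dep : Prop :=
  S_ED → S_II → S_mlie → S_mwrd → S_mder → S_minj → S_mV → S_van →
    ∀ (R Q P N S : T3) (V : QX),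
      (∀ f ∈ ({R, Q, P, N, S} : Set T3), f ∈ LieT (Fin 3) ∧ (∀ i, coeff f [i] = 0) ∧
        ∀ (i : Fin 3) (u : List (Fin 3)), i ∉ u → coeff f u = 0) →
      ClassZero R → Eqs R Q P N S V → R = 0

end

end Pent
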