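import Pool.Agent.Lib.MP_a57f33_nt.PN.DefsF

/-!
# Pentagon project (MP_a57f33_nt), Half II: statements of the pieces

Each piece is a `Prop` `S_xxx` with a proof in words in its docstring.
-/

namespace Pent

open Pool.Agent.MP_a57f33_nt.Cyc (shuffle)

/-- Piece `tri` (triangularity): a Lie function that vanishes on pure words and on all ordered
shuffles is zero.

Proof. (1) Words ending in `c`: such a word is `w = b^{u_1} c b^{u_2} c .. b^{u_n} c` (the `b^{u_i}`
are words in `b` with momenta, possibly empty). Take the slots `g_i = (u_i | [y_i])`. The ordered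
shuffles of `g_1..g_n` are `w` itself (once) and words obtained from `w` by moving letters `b` to
the left (over letters `c`); so `f w = LL f gs - ` sum of `f` over words ending in `c` with a
smaller value of (sum over the letters `b` of the number of letters `c` before it), equal number
of letters. Induction on that number. (Formally: `OS` of slots with `|v_i| = 1` is the left fold
of `w ↦ (shuffle w (bw u_i)).map (· ++ cw [y_i])`, and `shuffle w u` is the list `w ++ u` once
together with words of strictly smaller number, if `w` ends in `c`.)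
(2) Words ending in `b`: if `w` is pure then `f w = 0`. Otherwise `w = A ++ [c] ++ B` with `B`
a word in `b`, and for a Lie function
`f (A ++ [x] ++ B) = (-1)^|B| * sum of f over ((shuffle A B.reverse).map (· ++ [x]))`
(induction on `B`: the sum of `f` over `shuffle (A ++ [x]) [y]`.. or: use `f(shuffle (A ++ [x] ++ B')
[y])` repeatedly), which is a sum over words ending in `c`. -/
def S_tri : Prop :=
  ∀ f : Wd → ℚ, LieFn f → (∀ (x : Bool) (w : Wd), (∀ y ∈ w, y.1 = x) → f w = 0) →
    (∀ gs : List Sl, gs ≠ [] → vok gs → LL f gs = 0) → ∀ w, f w = 0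

/-- Piece `one`: one slot, `g = (u | v)`, `v = v' ++ [z]`. The ordered shuffles are
`(u shuffled with v') ++ [c z]`.

Proof. `LL R [g] = (-1)^|u| R (cw v ++ bw u.reverse) = 0` by the Lie identity
`f (A ++ [x] ++ B) = (-1)^|B| * sum of f over ((shuffle A B.reverse).map (· ++ [x]))` and `cbR`.
`LL P [g]`: if the number of letters is not `m` use `suppP`. Otherwise, for `w'` of length `m - 1`,
(K2) for the word `(b, μ) :: w' ++ [(c, z)]` with `μ = -(tot w' + z)` gives
`P (w' ++ [(c, z)]) = - R ((b, μ) :: w')`; here `μ` is the same for all `w'` in the shuffle of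
`u` and `v'`, and by the mirror Lie identity the sum of `R ((b, μ) :: w')` over the shuffles `w'`
of `bw u` and `cw v'` is `± R (cw v'.reverse ++ (b, μ) :: bw u) = 0` by `cbR`. -/
def S_one : Prop :=
  ∀ (m : ℕ) (P R : Wd → ℚ), PR m P R → ∀ g : Sl, g.2 ≠ [] → LL P [g] = 0 ∧ LL R [g] = 0

/-- The free slot with words `U` (in `b`), `V` (in `c`): both words are shuffled freely to `w`,
and the word ends with the last letter of `V` or with the last letter of `U`. -/
def fstep {K : Type} (ws : List (List (Bool × K))) (U V : List K) : List (List (Bool × K)) :=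
  (if V = [] then [] else
    ws.flatMap fun w =>
      ((shuffle w (bw U)).flatMap fun w' => shuffle w' (cw V.dropLast)).map
        (· ++ cw (V.drop (V.length - 1)))) ++
  (if U = [] then [] else
    ws.flatMap fun w =>
      ((shuffle w (bw U.dropLast)).flatMap fun w' => shuffle w' (cw V)).map
        (· ++ bw (U.drop (U.length - 1))))

/-- Piece `free`: for Lie `f` with `L_p f = 0` and a free slot `U`, `V` put between the slots `hs`
and `hs'` (`|hs| + |hs'| = p ≥ 1`), the sum of `f` is zero.

Proof. For a list `ws` of words let `Sh ws` be the words of `ws` shuffled with `bw U` and `cw V`.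
Let `T(hs, hs') = f(hs'.foldl ostep (Sh (OS hs)))`, `G(hs, hs')` = the sum of the statement.
(a) `T(hs, h' :: hs'')` is the sum over `X` in the shuffle of `U` and `h'.1` and over `Y` in the
shuffle of `V` and `h'.2.dropLast` of `LL f (hs ++ (X, Y ++ [last h'.2]) :: hs'')` (shuffles are
associative and commutative up to permutation of the list), so it is `0`, as this list has `p`
slots. (b) `T(hs, []) = 0` because `OS hs` consists of nonempty words (`|hs| = p ≥ 1`, `vok`),
`(U, V)` is not empty and `f` is Lie. (c) If `hs = []` then `Sh [[]] = fstep [[]] U V` (up to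
permutation), so `G = T = 0`. (d) If `hs = hs1 ++ [h]`: all words of `OS hs` end with the mark of
`h`; in a shuffle with `U`, `V` the last letter is this mark, or it comes from `U` or `V`:
`Sh (OS hs) = ` (sum over `X` in the shuffle of `h.1` and `U`, `Y` in the shuffle of
`h.2.dropLast` and `V`, of `ostep (OS hs1) (X, Y ++ [last h.2])`) `+ fstep (OS hs) U V`, and the
first part gives `LL f (hs1 ++ (X, Y ++ [last]) :: hs') = 0` (again `p` slots); so `G = T = 0`. -/
def S_free : Prop :=
  ∀ (p : ℕ) (f : Wd → ℚ), 1 ≤ p → LieFn f →
    (∀ gs : List Sl, gs.length = p → vok gs → LL f gs = 0) →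
    ∀ (hs hs' : List Sl) (U V : List ℚ), hs.length + hs'.length = p → vok hs → vok hs' →
      (U ≠ [] ∨ V ≠ []) →
      ((hs'.foldl ostep (fstep (OS hs) U V)).map f).sum = 0

/-- Piece `O2`: `L_{p+1} f = 0` if some `u_i` is empty.
Proof: `S_free` with `U = []`, `V = v_i`: then `fstep (OS hs) [] V = ostep (OS hs) ([], V)`. -/
def S_O2 : Prop :=
  ∀ (p : ℕ) (f : Wd → ℚ), 1 ≤ p → LieFn f →
    (∀ gs : List Sl, gs.length = p → vok gs → LL f gs = 0) →
    ∀ gs : List Sl, gs.length = p + 1 → vok gs → (∃ g ∈ gs, g.1 = []) → LL f gs = 0

/-- Piece `O3`: the bracket with `b`. Proof: all words of `OS gs` end in `c`, so only `fstL`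
counts. The ordered shuffles that begin with a letter `b`: this letter is the first letter of
some `u_i`, and removing it gives the ordered shuffles of the slots with `u_i` replaced by its
tail (bijection). If `|u_i| = 1` the result has an empty `u_i` and contributes `0` by `S_O2`. -/
def S_O3 : Prop :=
  ∀ (p : ℕ) (f : Wd → ℚ), 1 ≤ p → LieFn f →
    (∀ gs : List Sl, gs.length = p → vok gs → LL f gs = 0) →
    ∀ gs : List Sl, gs.length = p + 1 → uvok gs →
      LL (brk false f) gs = osum du (fun _ t => LL f t) gs

/-- Piece `O4`: the bracket with `c`. Proof: the ordered shuffles that begin with a letter `c`: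
this letter is the first letter of some `v_i`; if `|v_i| = 1` it is the mark of the slot `i`, and
the letters of `u_i` (not empty) must come before it, impossible. Removing it gives the ordered
shuffles of the slots with `v_i` replaced by its tail. All words end with the mark of the last
slot; removing it gives full shuffles of `OS (first p slots)` (nonempty words) with `bw u`, `u`
not empty (and with `cw v'`), killed by the Lie function `f`. -/
def S_O4 : Prop :=
  ∀ (p : ℕ) (f : Wd → ℚ), 1 ≤ p → LieFn f →
    ∀ gs : List Sl, gs.length = p + 1 → uvok gs →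
      LL (brk true f) gs = osum dv (fun _ t => LL f t) gs

/-- Piece `O6`: merging. Proof: in `LL (mrg f) gs` the contributions of an adjacent pair
`(b,μ)(c,ν)` of a word and of the pair `(c,ν)(b,μ)` in the word with the two letters exchanged
cancel, if both words are ordered shuffles. The exchange leads out of the ordered shuffles only
if `b` is the last letter `x` of some `u_j` and `c` is the mark `y` (last letter of `v_j`) of the
same slot, in this order. There remains, for each `j`, the sum over the ordered shuffles in which
`x` is immediately followed by the mark `y` of `f(..b_{x+y}..) - f(..c_{x+y}..)`. The words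
`..c_{x+y}..` are exactly the ordered shuffles of the slots with `(u_j | v_j)` replaced by
`(u_j.dropLast | v_j.dropLast ++ [x+y])` (first part of `gam`; if `|u_j| = 1` this has an empty `u`
and contributes `0` by `S_O2`). The words `..b_{x+y}..` together with the ordered
shuffles of the slots with `(u_j | v_j)` replaced by `(u_j.dropLast ++ [x+y] | v_j.dropLast)` (if
`|v_j| ≥ 2`) are the words of the free slot with `U = u_j.dropLast ++ [x+y]`, `V = v_j.dropLast`
of `S_free`, so the sum of `f` over them is `0`. -/
def S_O6 : Prop :=
  ∀ (p : ℕ) (f : Wd → ℚ), 1 ≤ p → LieFn f →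
    (∀ gs : List Sl, gs.length = p → vok gs → LL f gs = 0) →
    ∀ gs : List Sl, gs.length = p + 1 → uvok gs →
      LL (mrg f) gs = - osum gam (fun _ t => LL f t) gs

/-- Piece `pol`: polynomiality of `L_p f`. Proof: `OS`, `shuffle`, `bw`, `cw` commute with maps
of the momenta (`OS` is polymorphic in the type of momenta); for a shape `sh` take the slots `gs0`
of this shape whose momenta are `0, 1, 2, ..` (the positions in `flat`); for `gs` of shape `sh`,
`gs = gs0` mapped by `i ↦ (flat gs).getD i 0`, so `LL f gs` is the sum over the fixed list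
`OS gs0` of `f` at a word of fixed pattern with momenta `(flat gs).getD (i_k) 0`; compose the
polynomial of `PolyW` with the renaming of variables `k ↦ i_k` (`MvPolynomial.rename`). -/
def S_pol : Prop := ∀ f : Wd → ℚ, PolyW f → PolyS (LL f)

/-- Piece `B`: the slot level system has only the zero solution, given (ED).

Proof. Put `D = D' = 0` if some `u_i` or `v_i` is empty. Define by recursion on `sum_{i≥2} |v_i|`
`E(ρ; gs) = D((u_1 | ρ v_1), ..) - sum_{i ≥ 2, |v_i| ≥ 2} E(v_{i,1}; (u_1 | ρ v_1), .., v_i tail, ..)`
for `gs` with `m - 1` letters. (1) From (K2): `D(gs) = sum_{|v_i| ≥ 2} E(v_{i,1}; v_i tail)` and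
`D'(gs) = sum_{|u_i| ≥ 2} E(-tot gs; u_i tail)`: let `X`, `X'` be the differences; `X = 0` if
`|v_1| ≥ 2`; (K2) says `sum_{|v_i| ≥ 2} X'(v_i tail) = sum_{|u_j| ≥ 2} X(u_j tail)` if `tot = 0`; for
`|v_1| ≥ 2` the right side is `0`, so `X'(h) = - sum_{i ≥ 2} X'((u_1 | -tot h, v_1), .., v_i tail)`,
induction on `sum_{i ≥ 2} |v_i|` gives `X' = 0`; then the same for `X` with the `u_i`.
(2) From (K4) in the same way: `D(gs) + D'(gs) = sum over gam of E(-vsum gs; .)`.
(3) For slots `(L, m, R)` in the sense of `Pent.Slot`, positions `X_0..X_{a-1}; X_a;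
X_{a+1}..X_{a+b}`, put `u_i = X_{i-1} - X_i` (`i = 1..a`) and `v_1 = X_{a+b-1} - X_{a+b}, ..,
v_b = X_a - X_{a+1}`, and `x(w; slots) = (-1)^{sum |R_i|} E(e - w; momenta)`, `e` = sum of the last
letters of the `R_i`. Then (1), (2) give `PSeq x p (m - 1)`. (4) `PS_of_ED` (class `PolyED`) and
the value `0` at `0` give `x = 0`, so `E = 0`, `D = D' = 0`. -/
def S_B : Prop :=
  S_ED → ∀ (p m : ℕ) (D D' : List Sl → ℚ), 2 ≤ p → KK p m D D' →
    ∀ gs : List Sl, gs.length = p → uvok gs → nl gs = m → D gs = 0 ∧ D' gs = 0

end Pent
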